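import Mathlib
import Pool.Agent.H221R2.FB_VdcGen

/-!
# Weyl sums `∑_{P ≤ n < 2 P} e(β n^k)` for small `β`

By `q` steps of Weyl differencing and the Kusmin–Landau inequality (library).
-/

set_option autoImplicit false

namespace Pool.Agent.X30.WP

open Finset
open Pool.Agent.H469R2.NK (e norm_e e_add conj_e norm_sum_neg Cq Cq_pos harm_le)
open Pool.Agent.H221R2.FB (Hyp EG SG exp_boundG)

/-- the Weyl sum of the block `[P, 2 P)` -/
noncomputable def W (k P : ℕ) (β : ℝ) : ℂ := ∑ n ∈ Ico P (2 * P), e (β * (n : ℝ) ^ k)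

lemma norm_W_le (k P : ℕ) (β : ℝ) : ‖W k P β‖ ≤ P := by
  unfold W
  refine (norm_sum_le _ _).trans ?_
  simp only [norm_e, sum_const, Nat.card_Ico, nsmul_eq_mul, mul_one]
  have : 2 * P - P = P := by omega
  rw [this]

/-- the phase and its derivatives -/
noncomputable def ph (k : ℕ) (P : ℕ) (m : ℕ) (t : ℝ) : ℝ :=
  (-1) ^ (m + 1) * ((k.descFactorial m : ℕ) : ℝ) * ((7 * P - 1) - t) ^ (k - m) / (2 * (P : ℝ)) ^ k

lemma ph_hyp (k q P : ℕ) (hq : q + 2 ≤ k) (hP : 2 ≤ P) :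
    Hyp (q + 2) ((2 * P : ℕ) : ℝ) ((1 / 4) ^ k) (k.factorial * 3 ^ k) (ph k P) := by
  have hP' : (2 : ℝ) ≤ P := by exact_mod_cast hP
  constructor
  · intro m hm t _
    unfold ph
    have h1 : HasDerivAt (fun t : ℝ => ((7 * P - 1) - t) ^ (k - m))
        (((k - m : ℕ) : ℝ) * ((7 * P - 1) - t) ^ (k - m - 1) * (-1)) t := by
      have h2 : HasDerivAt (fun t : ℝ => (7 * (P : ℝ) - 1) - t) (-1) t := by
        simpa using (hasDerivAt_id t).const_sub (7 * (P : ℝ) - 1)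
      exact h2.pow (k - m)
    have h3 := (h1.const_mul ((-1) ^ (m + 1) * ((k.descFactorial m : ℕ) : ℝ))).div_const
      ((2 * (P : ℝ)) ^ k)
    refine h3.congr_deriv ?_
    rw [Nat.descFactorial_succ, show k - (m + 1) = k - m - 1 by omega]
    push_cast
    ring
  · intro m hm1 hm2 t ht
    unfold ph
    push_cast at ht
    have ha : (P : ℝ) - 1 ≤ (7 * P - 1) - t := by linarith [ht.2]
    have hb : (7 * P - 1) - t ≤ 5 * (P : ℝ) - 1 := by linarith [ht.1]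
    have hmk : m ≤ k := by omega
    have hD1 : (1 : ℝ) ≤ ((k.descFactorial m : ℕ) : ℝ) := by
      exact_mod_cast Nat.descFactorial_pos.2 hmk
    have hD2 : ((k.descFactorial m : ℕ) : ℝ) ≤ (k.factorial : ℝ) := by
      have h := Nat.factorial_mul_descFactorial hmk
      have h2 : 1 ≤ (k - m).factorial := Nat.factorial_pos _
      have : k.descFactorial m ≤ k.factorial := by nlinarith
      exact_mod_cast this
    have hsplit : (2 * (P : ℝ)) ^ k = (2 * (P : ℝ)) ^ (k - m) * (2 * (P : ℝ)) ^ m := by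
      rw [← pow_add]; congr 1; omega
    have e0 : (-1 : ℝ) ^ (m + 1) * ((-1) ^ (m + 1) * ((k.descFactorial m : ℕ) : ℝ) *
        ((7 * P - 1) - t) ^ (k - m) / (2 * (P : ℝ)) ^ k) * ((2 * P : ℕ) : ℝ) ^ m =
        ((k.descFactorial m : ℕ) : ℝ) * (((7 * P - 1) - t) / (2 * (P : ℝ))) ^ (k - m) := by
      rw [hsplit, div_pow]
      push_cast
      have h4 : (-1 : ℝ) ^ (m + 1) * (-1) ^ (m + 1) = 1 := by
        rw [← mul_pow]; norm_num
      have h5 : (2 * (P : ℝ)) ^ m ≠ 0 := by positivity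
      have h6 : (2 * (P : ℝ)) ^ (k - m) ≠ 0 := by positivity
      generalize (2 * (P : ℝ)) ^ (k - m) = A at *
      generalize (2 * (P : ℝ)) ^ m = B at *
      generalize (7 * (P : ℝ) - 1 - t) ^ (k - m) = X at *
      generalize (-1 : ℝ) ^ (m + 1) = σ at *
      calc σ * (σ * ((k.descFactorial m : ℕ) : ℝ) * X / (A * B)) * B
          = (σ * σ) * (((k.descFactorial m : ℕ) : ℝ) * (X / A)) * (B / B) := by
            field_simp
        _ = _ := by rw [h4, div_self h5]; ring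
    rw [e0]
    have hx1 : (1 / 4 : ℝ) ≤ ((7 * P - 1) - t) / (2 * (P : ℝ)) := by
      rw [le_div_iff₀ (by positivity)]
      linarith
    have hx2 : ((7 * P - 1) - t) / (2 * (P : ℝ)) ≤ 3 := by
      rw [div_le_iff₀ (by positivity)]
      linarith
    constructor
    · calc (1 / 4 : ℝ) ^ k ≤ (1 / 4 : ℝ) ^ (k - m) :=
            pow_le_pow_of_le_one (by norm_num) (by norm_num) (by omega)
        _ ≤ 1 * (((7 * P - 1) - t) / (2 * (P : ℝ))) ^ (k - m) := by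
            rw [one_mul]
            exact pow_le_pow_left₀ (by norm_num) hx1 _
        _ ≤ _ := by gcongr
    · calc ((k.descFactorial m : ℕ) : ℝ) * (((7 * P - 1) - t) / (2 * (P : ℝ))) ^ (k - m)
          ≤ (k.factorial : ℝ) * 3 ^ (k - m) := by
            have h0 : (0 : ℝ) ≤ ((7 * P - 1) - t) / (2 * (P : ℝ)) := by linarith
            gcongr
        _ ≤ _ := by
            gcongr
            · norm_num
            · omega

lemma W_eq (k P : ℕ) (β : ℝ) (hP : 1 ≤ P) :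
    ‖W k P β‖ = ‖SG (ph k P) (β * (2 * (P : ℝ)) ^ k) ((5 * P : ℕ) : ℝ) P []‖ := by
  unfold W SG
  simp only [List.sum_nil, Nat.sub_zero, EG]
  rw [← norm_sum_neg]
  congr 1
  rw [sum_Ico_eq_sum_range, show 2 * P - P = P by omega, ← sum_range_reflect]
  refine sum_congr rfl fun j hj => ?_
  rw [mem_range] at hj
  congr 1
  unfold ph
  have h1 : ((P + (P - 1 - j) : ℕ) : ℝ) = 2 * P - 1 - j := by
    have : P + (P - 1 - j) + (1 + j) = 2 * P := by omega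
    have h2 : ((P + (P - 1 - j) + (1 + j) : ℕ) : ℝ) = ((2 * P : ℕ) : ℝ) := by rw [this]
    push_cast at h2 ⊢
    linarith
  have hP0 : (2 * (P : ℝ)) ^ k ≠ 0 := by
    have : (0 : ℝ) < P := by exact_mod_cast hP
    positivity
  rw [h1]
  push_cast
  simp only [pow_one, Nat.descFactorial_zero, Nat.cast_one, mul_one, Nat.sub_zero]
  field_simp
  ring


lemma min_aux (q : ℕ) (hq1 : 1 ≤ q) (t : ℝ) :
    min t (((q : ℝ) + 1 - t) / q) ≤ min 1 (((q : ℝ) + 1 - t) / q) := by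
  have hq : (1 : ℝ) ≤ q := by exact_mod_cast hq1
  refine le_min ?_ (min_le_right _ _)
  rcases le_total t 1 with h | h
  · exact (min_le_left _ _).trans h
  · refine (min_le_right _ _).trans ?_
    rw [div_le_one (by linarith)]
    linarith

lemma min_aux2 (q : ℕ) (hq1 : 1 ≤ q) (t : ℝ) :
    (q : ℝ) - t - q * min 1 (((q : ℝ) + 1 - t) / q) ≤ -min t (((q : ℝ) + 1 - t) / q) := by
  have hq : (1 : ℝ) ≤ q := by exact_mod_cast hq1
  have hq0 : (q : ℝ) ≠ 0 := by linarith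
  rcases le_total t 1 with h | h
  · have h1 : 1 ≤ ((q : ℝ) + 1 - t) / q := by
      rw [le_div_iff₀ (by linarith)]
      linarith
    rw [min_eq_left h1, min_eq_left (h.trans h1)]
    linarith
  · have h1 : ((q : ℝ) + 1 - t) / q ≤ 1 := by
      rw [div_le_one (by linarith)]
      linarith
    rw [min_eq_right h1, min_eq_right (h1.trans h)]
    have h2 : (q : ℝ) * (((q : ℝ) + 1 - t) / q) = q + 1 - t := by field_simp
    rw [h2]
    linarith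

/-- bound for the Weyl sum at `β = P^(t-k)` -/
theorem W_bound (k q : ℕ) (hq1 : 1 ≤ q) (hq : q + 2 ≤ k) (ε : ℝ) (hε : 0 < ε) :
    ∃ C : ℝ, 0 < C ∧ ∀ P : ℕ, 2 ≤ P → ∀ t : ℝ,
      ‖W k P ((P : ℝ) ^ (t - k))‖ ≤
        C * (P : ℝ) ^ (1 + ε - min t (((q : ℝ) + 1 - t) / q) / 2 ^ q) := by
  have hq' : (1 : ℝ) ≤ q := by exact_mod_cast hq1
  set C0 : ℝ := k.factorial * 3 ^ k with hC0
  have hC0' : 1 ≤ C0 := by
    have h1 : (1 : ℝ) ≤ k.factorial := by exact_mod_cast Nat.factorial_pos k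
    have h2 : (1 : ℝ) ≤ 3 ^ k := one_le_pow₀ (by norm_num)
    rw [hC0]
    nlinarith
  set c0 : ℝ := (1 / 4) ^ k with hc0
  have hc0' : 0 < c0 := by positivity
  set κ : ℝ := 2 * C0 * 2 ^ (k - q - 1) with hκ
  have hκ1 : 1 ≤ κ := by
    have h2 : (1 : ℝ) ≤ 2 ^ (k - q - 1) := one_le_pow₀ (by norm_num)
    rw [hκ]
    nlinarith
  have hκ0 : 0 < κ := by linarith
  set ε' : ℝ := ε / q with hε'
  have hε'0 : 0 < ε' := by positivity
  set A : ℝ := Cq q * (2 * κ + (2 * 2 ^ q / (2 ^ k * c0)) * ((1 + 1 / ε') * (2 * κ)) ^ q) with hA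
  have hCq := Cq_pos q
  have hA0 : 0 < A := by positivity
  have hpow : (0 : ℝ) < 2 ^ q := by positivity
  have hpow1 : (1 : ℝ) ≤ 2 ^ q := one_le_pow₀ (by norm_num)
  refine ⟨2 * A ^ ((1 : ℝ) / 2 ^ q) + κ, by positivity, fun P hP t => ?_⟩
  have hP' : (2 : ℝ) ≤ P := by exact_mod_cast hP
  have hP1 : (1 : ℝ) ≤ P := by linarith
  have hP0 : (0 : ℝ) < P := by linarith
  set y : ℝ := min 1 (((q : ℝ) + 1 - t) / q) with hy
  set m : ℝ := min t (((q : ℝ) + 1 - t) / q) with hm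
  have hmy : m ≤ y := min_aux q hq1 t
  have hy1 : y ≤ 1 := min_le_left _ _
  have hmain2 : (0 : ℝ) ≤ A ^ ((1 : ℝ) / 2 ^ q) := by positivity
  rcases lt_or_ge ((P : ℝ) ^ y) κ with hsm | hbig
  · -- trivial bound
    refine (norm_W_le k P _).trans ?_
    have h1 : (1 : ℝ) ≤ κ * (P : ℝ) ^ (-m / 2 ^ q) := by
      have h2 : (1 : ℝ) ≤ κ * (P : ℝ) ^ (-y) := by
        rw [Real.rpow_neg hP0.le]
        rw [← div_eq_mul_inv, le_div_iff₀ (by positivity), one_mul]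
        exact hsm.le
      rcases le_total 0 m with h0 | h0
      · calc (1 : ℝ) ≤ κ * (P : ℝ) ^ (-y) := h2
          _ ≤ κ * (P : ℝ) ^ (-m / 2 ^ q) := by
            gcongr
            have : m / 2 ^ q ≤ m := div_le_self h0 hpow1
            rw [neg_div]
            linarith
      · calc (1 : ℝ) ≤ 1 * 1 := by norm_num
          _ ≤ κ * (P : ℝ) ^ (-m / 2 ^ q) := by
            gcongr
            exact Real.one_le_rpow hP1 (div_nonneg (by linarith) hpow.le)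
    calc (P : ℝ) = P * 1 := by ring
      _ ≤ P * (κ * (P : ℝ) ^ (-m / 2 ^ q)) := by gcongr
      _ = κ * (P : ℝ) ^ (1 - m / 2 ^ q) := by
        rw [show (1 : ℝ) - m / 2 ^ q = 1 + (-m / 2 ^ q) by ring, Real.rpow_add hP0, Real.rpow_one]
        ring
      _ ≤ (2 * A ^ ((1 : ℝ) / 2 ^ q) + κ) * (P : ℝ) ^ (1 + ε - m / 2 ^ q) := by
        gcongr
        · linarith
        · linarith
  -- the differencing length
  set H : ℕ := ⌊(P : ℝ) ^ y / κ⌋₊ with hH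
  have hx1 : (1 : ℝ) ≤ (P : ℝ) ^ y / κ := by
    rw [le_div_iff₀ hκ0, one_mul]
    exact hbig
  have hH1 : 1 ≤ H := Nat.le_floor (by simpa using hx1)
  have hH1' : (1 : ℝ) ≤ H := by exact_mod_cast hH1
  have hH2 : (H : ℝ) ≤ (P : ℝ) ^ y / κ := Nat.floor_le (by positivity)
  have hH3 : (P : ℝ) ^ y / (2 * κ) ≤ H := by
    have h1 : (P : ℝ) ^ y / κ < H + 1 := Nat.lt_floor_add_one _
    have h2 : (P : ℝ) ^ y / κ / 2 ≤ H := by linarith
    calc (P : ℝ) ^ y / (2 * κ) = (P : ℝ) ^ y / κ / 2 := by field_simp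
      _ ≤ _ := h2
  have hPy : (P : ℝ) ^ y ≤ P := by
    calc (P : ℝ) ^ y ≤ (P : ℝ) ^ (1 : ℝ) := Real.rpow_le_rpow_of_exponent_le hP1 hy1
      _ = P := Real.rpow_one _
  have hHP' : (H : ℝ) ≤ P := hH2.trans ((div_le_self (by positivity) hκ1).trans hPy)
  have hHP : H ≤ 2 * P := by
    have : H ≤ P := by exact_mod_cast hHP'
    omega
  have hZ0 : (0 : ℝ) < (P : ℝ) ^ (t - k) * (2 * (P : ℝ)) ^ k := by positivity
  have hcast : ((2 * P : ℕ) : ℝ) = 2 * (P : ℝ) := by push_cast; ring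
  have hup : 2 * ((P : ℝ) ^ (t - k) * (2 * (P : ℝ)) ^ k *
      (C0 / ((2 * P : ℕ) : ℝ) ^ (q + 1) * (H : ℝ) ^ q)) ≤ 1 := by
    rw [hcast]
    have h1 : (2 * (P : ℝ)) ^ k = (2 * (P : ℝ)) ^ (k - q - 1) * (2 * (P : ℝ)) ^ (q + 1) := by
      rw [← pow_add]; congr 1; omega
    have h2 : 2 * ((P : ℝ) ^ (t - k) * (2 * (P : ℝ)) ^ k *
        (C0 / (2 * (P : ℝ)) ^ (q + 1) * (H : ℝ) ^ q)) =
        κ * ((P : ℝ) ^ (t - k) * (P : ℝ) ^ (k - q - 1)) * (H : ℝ) ^ q := by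
      rw [h1, hκ, mul_pow 2 (P : ℝ) (k - q - 1)]
      field_simp
    rw [h2]
    have h3 : (H : ℝ) ^ q ≤ ((P : ℝ) ^ y) ^ q / κ := by
      calc (H : ℝ) ^ q ≤ ((P : ℝ) ^ y / κ) ^ q := by gcongr
        _ = ((P : ℝ) ^ y) ^ q / κ ^ q := by rw [div_pow]
        _ ≤ ((P : ℝ) ^ y) ^ q / κ := by
          gcongr
          exact le_self_pow₀ hκ1 (by omega)
    have h4 : ((P : ℝ) ^ y) ^ q = (P : ℝ) ^ (y * q) := by
      rw [← Real.rpow_natCast, ← Real.rpow_mul hP0.le]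
    have h5 : (P : ℝ) ^ (t - k) * (P : ℝ) ^ (k - q - 1) = (P : ℝ) ^ (t - q - 1) := by
      rw [← Real.rpow_natCast, ← Real.rpow_add hP0]
      congr 1
      have : ((k - q - 1 : ℕ) : ℝ) = (k : ℝ) - q - 1 := by
        rw [Nat.cast_sub (by omega), Nat.cast_sub (by omega)]
        norm_num
      rw [this]
      ring
    rw [h5]
    have h6 : y * q ≤ q + 1 - t := by
      have : y ≤ ((q : ℝ) + 1 - t) / q := min_le_right _ _
      calc y * q ≤ (((q : ℝ) + 1 - t) / q) * q := by gcongr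
        _ = _ := by field_simp
    calc κ * (P : ℝ) ^ (t - q - 1) * (H : ℝ) ^ q
        ≤ κ * (P : ℝ) ^ (t - q - 1) * (((P : ℝ) ^ y) ^ q / κ) := by gcongr
      _ = (P : ℝ) ^ (t - q - 1) * (P : ℝ) ^ (y * q) := by rw [h4]; field_simp
      _ = (P : ℝ) ^ (t - q - 1 + y * q) := by rw [← Real.rpow_add hP0]
      _ ≤ 1 := Real.rpow_le_one_of_one_le_of_nonpos hP1 (by linarith)
  have hb := exp_boundG hc0' (by linarith : (0 : ℝ) ≤ C0) q le_rfl
    ((P : ℝ) ^ (t - k) * (2 * (P : ℝ)) ^ k) hZ0 (2 * P) (ph_hyp k q P hq hP) ((5 * P : ℕ) : ℝ) P H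
    (by omega) (by exact_mod_cast (by omega : 2 * P ≤ 5 * P)) (by omega)
    (by exact_mod_cast (by omega : 5 * P + P ≤ 3 * (2 * P))) hH1 hHP hup
  rw [← W_eq k P ((P : ℝ) ^ (t - k)) (by omega), hcast] at hb
  -- the right-hand side
  have hlog : (∑ l ∈ Ico 1 H, (1 : ℝ) / l) ≤ (1 + 1 / ε') * (P : ℝ) ^ ε' := by
    refine (harm_le H).trans ?_
    have h1 : Real.log H ≤ Real.log P := Real.log_le_log (by linarith) hHP'
    have h2 : Real.log P ≤ (P : ℝ) ^ ε' / ε' := Real.log_le_rpow_div hP0.le hε'0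
    have h3 : (1 : ℝ) ≤ (P : ℝ) ^ ε' := Real.one_le_rpow hP1 hε'0.le
    calc 1 + Real.log H ≤ (P : ℝ) ^ ε' + (P : ℝ) ^ ε' / ε' := by linarith
      _ = _ := by ring
  have hsum0 : (0 : ℝ) ≤ ∑ l ∈ Ico 1 H, (1 : ℝ) / l := sum_nonneg fun _ _ => by positivity
  have hy0 : (0 : ℝ) < (P : ℝ) ^ y := by positivity
  have h1H : (1 : ℝ) / H ≤ 2 * κ * (P : ℝ) ^ (-y) := by
    rw [div_le_iff₀ (by linarith)]
    calc (1 : ℝ) = 2 * κ * (P : ℝ) ^ (-y) * ((P : ℝ) ^ y / (2 * κ)) := by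
          rw [Real.rpow_neg hP0.le]
          field_simp
      _ ≤ _ := by gcongr
  have hquot : (∑ l ∈ Ico 1 H, (1 : ℝ) / l) / H ≤
      ((1 + 1 / ε') * (2 * κ)) * (P : ℝ) ^ (ε' - y) := by
    calc (∑ l ∈ Ico 1 H, (1 : ℝ) / l) / H = (∑ l ∈ Ico 1 H, (1 : ℝ) / l) * (1 / H) := by ring
      _ ≤ ((1 + 1 / ε') * (P : ℝ) ^ ε') * (2 * κ * (P : ℝ) ^ (-y)) := by gcongr
      _ = ((1 + 1 / ε') * (2 * κ)) * ((P : ℝ) ^ ε' * (P : ℝ) ^ (-y)) := by ring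
      _ = _ := by rw [← Real.rpow_add hP0]; ring_nf
  have hcoef : 2 * (2 * (P : ℝ)) ^ (q + 1) / ((P : ℝ) ^ (t - k) * (2 * (P : ℝ)) ^ k * c0) /
      (2 * (P : ℝ)) = (2 * 2 ^ q / (2 ^ k * c0)) * (P : ℝ) ^ ((q : ℝ) - t) := by
    have h1 : (P : ℝ) ^ ((q : ℝ) - t) = (P : ℝ) ^ q / ((P : ℝ) ^ (t - k) * (P : ℝ) ^ k) := by
      rw [eq_div_iff (by positivity), ← Real.rpow_natCast (P : ℝ) k, ← Real.rpow_natCast (P : ℝ) q,
        ← Real.rpow_add hP0, ← Real.rpow_add hP0]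
      congr 1
      ring
    rw [h1, mul_pow, mul_pow]
    field_simp
    ring
  rw [hcoef] at hb
  have hfin : Cq q * (1 / H + (2 * 2 ^ q / (2 ^ k * c0)) * (P : ℝ) ^ ((q : ℝ) - t) *
      ((∑ l ∈ Ico 1 H, (1 : ℝ) / l) / H) ^ q) ≤ A * (P : ℝ) ^ (ε - m) := by
    have h2 : ((∑ l ∈ Ico 1 H, (1 : ℝ) / l) / H) ^ q ≤
        ((1 + 1 / ε') * (2 * κ)) ^ q * (P : ℝ) ^ (ε - q * y) := by
      calc ((∑ l ∈ Ico 1 H, (1 : ℝ) / l) / H) ^ q
          ≤ (((1 + 1 / ε') * (2 * κ)) * (P : ℝ) ^ (ε' - y)) ^ q := by gcongr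
        _ = ((1 + 1 / ε') * (2 * κ)) ^ q * ((P : ℝ) ^ (ε' - y)) ^ q := by rw [mul_pow]
        _ = _ := by
          rw [← Real.rpow_natCast ((P : ℝ) ^ (ε' - y)) q, ← Real.rpow_mul hP0.le]
          congr 2
          rw [hε']
          field_simp
    have h3 : (P : ℝ) ^ ((q : ℝ) - t) * (P : ℝ) ^ (ε - q * y) ≤ (P : ℝ) ^ (ε - m) := by
      rw [← Real.rpow_add hP0]
      have := min_aux2 q hq1 t
      rw [← hy, ← hm] at this
      exact Real.rpow_le_rpow_of_exponent_le hP1 (by linarith)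
    have h4 : (P : ℝ) ^ (-y) ≤ (P : ℝ) ^ (ε - m) :=
      Real.rpow_le_rpow_of_exponent_le hP1 (by linarith)
    have h5 : (1 : ℝ) / H ≤ 2 * κ * (P : ℝ) ^ (ε - m) := h1H.trans (by gcongr)
    have h6 : (2 * 2 ^ q / (2 ^ k * c0)) * (P : ℝ) ^ ((q : ℝ) - t) *
        ((∑ l ∈ Ico 1 H, (1 : ℝ) / l) / H) ^ q ≤
        (2 * 2 ^ q / (2 ^ k * c0)) * ((1 + 1 / ε') * (2 * κ)) ^ q * (P : ℝ) ^ (ε - m) := by
      calc (2 * 2 ^ q / (2 ^ k * c0)) * (P : ℝ) ^ ((q : ℝ) - t) *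
          ((∑ l ∈ Ico 1 H, (1 : ℝ) / l) / H) ^ q
          ≤ (2 * 2 ^ q / (2 ^ k * c0)) * (P : ℝ) ^ ((q : ℝ) - t) *
            (((1 + 1 / ε') * (2 * κ)) ^ q * (P : ℝ) ^ (ε - q * y)) := by gcongr
        _ = (2 * 2 ^ q / (2 ^ k * c0)) * ((1 + 1 / ε') * (2 * κ)) ^ q *
            ((P : ℝ) ^ ((q : ℝ) - t) * (P : ℝ) ^ (ε - q * y)) := by ring
        _ ≤ _ := by gcongr
    calc Cq q * (1 / H + (2 * 2 ^ q / (2 ^ k * c0)) * (P : ℝ) ^ ((q : ℝ) - t) *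
          ((∑ l ∈ Ico 1 H, (1 : ℝ) / l) / H) ^ q)
        ≤ Cq q * (2 * κ * (P : ℝ) ^ (ε - m) +
          (2 * 2 ^ q / (2 ^ k * c0)) * ((1 + 1 / ε') * (2 * κ)) ^ q * (P : ℝ) ^ (ε - m)) := by
          gcongr
      _ = A * (P : ℝ) ^ (ε - m) := by rw [hA]; ring
  have hroot : ‖W k P ((P : ℝ) ^ (t - k))‖ / (2 * (P : ℝ)) ≤
      (A * (P : ℝ) ^ (ε - m)) ^ ((1 : ℝ) / 2 ^ q) := by
    have h1 : ‖W k P ((P : ℝ) ^ (t - k))‖ / (2 * (P : ℝ)) =
        ((‖W k P ((P : ℝ) ^ (t - k))‖ / (2 * (P : ℝ))) ^ (2 ^ q : ℕ)) ^ (((2 ^ q : ℕ) : ℝ)⁻¹) :=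
      (Real.pow_rpow_inv_natCast (by positivity) (by positivity)).symm
    rw [h1]
    have h2 : (((2 ^ q : ℕ) : ℝ)⁻¹) = (1 : ℝ) / 2 ^ q := by push_cast; rw [one_div]
    rw [h2]
    exact Real.rpow_le_rpow (by positivity) (hb.trans hfin) (by positivity)
  rw [div_le_iff₀ (by positivity)] at hroot
  refine hroot.trans ?_
  rw [Real.mul_rpow hA0.le (by positivity), ← Real.rpow_mul hP0.le]
  have h7 : (P : ℝ) ^ ((ε - m) * (1 / 2 ^ q)) * P ≤ (P : ℝ) ^ (1 + ε - m / 2 ^ q) := by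
    calc (P : ℝ) ^ ((ε - m) * (1 / 2 ^ q)) * P
        = (P : ℝ) ^ ((ε - m) * (1 / 2 ^ q)) * (P : ℝ) ^ (1 : ℝ) := by rw [Real.rpow_one]
      _ = (P : ℝ) ^ ((ε - m) * (1 / 2 ^ q) + 1) := by rw [← Real.rpow_add hP0]
      _ ≤ _ := by
        apply Real.rpow_le_rpow_of_exponent_le hP1
        have h8 : ε * (1 / 2 ^ q) ≤ ε := by
          rw [mul_one_div]
          exact div_le_self hε.le hpow1
        have h9 : (ε - m) * (1 / 2 ^ q) = ε * (1 / 2 ^ q) - m / 2 ^ q := by ring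
        linarith
  calc A ^ ((1 : ℝ) / 2 ^ q) * (P : ℝ) ^ ((ε - m) * (1 / 2 ^ q)) * (2 * P)
      = 2 * A ^ ((1 : ℝ) / 2 ^ q) * ((P : ℝ) ^ ((ε - m) * (1 / 2 ^ q)) * P) := by ring
    _ ≤ 2 * A ^ ((1 : ℝ) / 2 ^ q) * (P : ℝ) ^ (1 + ε - m / 2 ^ q) := by gcongr
    _ ≤ _ := by
      gcongr
      linarith

end Pool.Agent.X30.WP
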