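import Mathlib
import Pool.Agent.X30.WP1

/-!
# Blurred Weyl sums
-/

set_option autoImplicit false

namespace Pool.Agent.X30.WP

open Finset
open Pool.Agent.H469R2.NK (e norm_e e_add conj_e norm_sum_neg e_zero)

lemma norm_e_sub_one (x : ℝ) : ‖e x - 1‖ ≤ 2 * Real.pi * |x| := by
  have h := Real.norm_exp_I_mul_ofReal_sub_one_le (x := 2 * Real.pi * x)
  unfold e
  rw [mul_comm]
  refine h.trans (le_of_eq ?_)
  rw [Real.norm_eq_abs, abs_mul, abs_of_pos (by positivity : (0 : ℝ) < 2 * Real.pi)]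

lemma norm_e_sub_one_ge {x : ℝ} (h0 : 0 ≤ x) (h1 : x ≤ 1 / 2) : 4 * x ≤ ‖e x - 1‖ := by
  have h := Complex.norm_exp_I_mul_ofReal_sub_one (2 * Real.pi * x)
  unfold e
  rw [mul_comm _ Complex.I, h]
  have h2 : 2 * Real.pi * x / 2 = Real.pi * x := by ring
  rw [h2]
  have h3 : 2 / Real.pi * (Real.pi * x) ≤ Real.sin (Real.pi * x) :=
    Real.mul_le_sin (by positivity) (by nlinarith [Real.pi_pos])
  have h4 : 2 / Real.pi * (Real.pi * x) = 2 * x := by field_simp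
  rw [h4] at h3
  rw [Real.norm_eq_abs, abs_of_nonneg (by linarith)]
  linarith

lemma e_nat_mul (β : ℝ) (d : ℕ) : e (β * d) = e β ^ d := by
  induction d with
  | zero => simp [e_zero]
  | succ d ih =>
    rw [pow_succ, ← ih, ← e_add]
    congr 1
    push_cast
    ring

lemma norm_geom_le (D : ℕ) {β : ℝ} (h0 : 0 < β) (h1 : β ≤ 1 / 2) :
    ‖∑ d ∈ range D, e (β * d)‖ ≤ 1 / (2 * β) := by
  have hge := norm_e_sub_one_ge h0.le h1
  have hne : e β ≠ 1 := by
    intro h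
    rw [h, sub_self, norm_zero] at hge
    linarith
  have hpos : 0 < ‖e β - 1‖ := by linarith
  simp only [e_nat_mul]
  rw [geom_sum_eq hne, norm_div, div_le_div_iff₀ hpos (by positivity)]
  have h2 : ‖e β ^ D - 1‖ ≤ 2 := by
    calc ‖e β ^ D - 1‖ ≤ ‖e β ^ D‖ + ‖(1 : ℂ)‖ := norm_sub_le _ _
      _ = 2 := by rw [norm_pow, norm_e, one_pow, norm_one]; norm_num
  nlinarith

/-- the average of `e(β d)` over `0 ≤ d < D` -/
noncomputable def Kf (D : ℕ) (β : ℝ) : ℂ := (∑ d ∈ range D, e (β * d)) / D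

lemma norm_Kf_le_one (D : ℕ) (β : ℝ) : ‖Kf D β‖ ≤ 1 := by
  unfold Kf
  rcases Nat.eq_zero_or_pos D with rfl | hD
  · simp
  have hD' : (0 : ℝ) < D := by exact_mod_cast hD
  rw [norm_div, Complex.norm_natCast, div_le_one hD']
  refine (norm_sum_le _ _).trans ?_
  simp [norm_e]

lemma norm_Kf_le (D : ℕ) (hD : 1 ≤ D) {β : ℝ} (h0 : 0 < β) (h1 : β ≤ 1 / 2) :
    ‖Kf D β‖ ≤ 1 / (2 * β * D) := by
  unfold Kf
  have hD' : (0 : ℝ) < D := by exact_mod_cast hD
  rw [norm_div, Complex.norm_natCast, div_le_iff₀ hD']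
  refine (norm_geom_le D h0 h1).trans (le_of_eq ?_)
  field_simp

lemma norm_Kf_sub_one (D : ℕ) (hD : 1 ≤ D) (β : ℝ) (h0 : 0 ≤ β) :
    ‖Kf D β - 1‖ ≤ 2 * Real.pi * β * D := by
  have hD' : (0 : ℝ) < D := by exact_mod_cast hD
  have h1 : Kf D β - 1 = (∑ d ∈ range D, (e (β * d) - 1)) / D := by
    unfold Kf
    rw [sum_sub_distrib, sub_div]
    congr 1
    rw [sum_const, card_range, nsmul_eq_mul, mul_one]
    exact (div_self (by exact_mod_cast hD'.ne')).symm
  rw [h1, norm_div, Complex.norm_natCast, div_le_iff₀ hD']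
  calc ‖∑ d ∈ range D, (e (β * d) - 1)‖ ≤ ∑ d ∈ range D, ‖e (β * d) - 1‖ := norm_sum_le _ _
    _ ≤ ∑ _d ∈ range D, 2 * Real.pi * β * D := by
      refine sum_le_sum fun d hd => (norm_e_sub_one _).trans ?_
      rw [mem_range] at hd
      have : (d : ℝ) ≤ D := by exact_mod_cast hd.le
      rw [abs_of_nonneg (by positivity)]
      have hpi := Real.pi_pos
      calc 2 * Real.pi * (β * d) = 2 * Real.pi * β * d := by ring
        _ ≤ _ := by gcongr
    _ = _ := by rw [sum_const, card_range, nsmul_eq_mul]; ring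

/-- the exponents -/
lemma exponents (q : ℕ) (hq1 : 1 ≤ q) (s T ξ : ℝ) (hs2 : 2 ≤ s) (hs : (2 : ℝ) ^ q < s)
    (hT : T * (s + q * 2 ^ q) < s * (q + 1)) (hξ : 0 < ξ) :
    ∃ ε κ : ℝ, 0 < ε ∧ 0 < κ ∧ ∀ t : ℝ, ξ ≤ t →
      t + s * ε - s * (min t (((q : ℝ) + 1 - t) / q) / 2 ^ q) - s * max 0 (t - T) ≤ -κ := by
  have hq : (1 : ℝ) ≤ q := by exact_mod_cast hq1
  have hw2 : (2 : ℝ) ≤ 2 ^ q := by
    calc (2 : ℝ) = 2 ^ 1 := by norm_num
      _ ≤ 2 ^ q := pow_le_pow_right₀ (by norm_num) hq1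
  set w : ℝ := 2 ^ q with hw
  have hw0 : 0 < w := by linarith
  have hq0 : (0 : ℝ) < q := by linarith
  have hqw : 2 ≤ q * w := by nlinarith
  set κ1 : ℝ := ξ * (s / w - 1) with hκ1
  set κ2 : ℝ := s * (q + 1) / (q * w) - T * (1 + s / (q * w)) with hκ2
  have h1 : 0 < κ1 := by
    rw [hκ1]
    have : 1 < s / w := by rw [lt_div_iff₀ hw0]; linarith
    exact mul_pos hξ (by linarith)
  have h2 : 0 < κ2 := by
    have e1 : κ2 = (s * (q + 1) - T * (s + q * w)) / (q * w) := by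
      rw [hκ2]; field_simp; ring
    rw [e1]
    exact div_pos (by linarith) (by positivity)
  have hs0 : 0 < s := by linarith
  refine ⟨min κ1 κ2 / (2 * s), min κ1 κ2 / 2, by positivity, by positivity, fun t ht => ?_⟩
  have hsε : s * (min κ1 κ2 / (2 * s)) = min κ1 κ2 / 2 := by field_simp
  rw [hsε]
  have hm1 : min κ1 κ2 ≤ κ1 := min_le_left _ _
  have hm2 : min κ1 κ2 ≤ κ2 := min_le_right _ _
  have hmax : 0 ≤ max 0 (t - T) := le_max_left _ _
  rcases le_total t 1 with h | h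
  · have e1 : 1 ≤ ((q : ℝ) + 1 - t) / q := by
      rw [le_div_iff₀ hq0]; linarith
    rw [min_eq_left (h.trans e1)]
    have e2 : s * (t / w) = t * (s / w) := by ring
    have e3 : ξ * (s / w - 1) ≤ t * (s / w - 1) := by
      have : 0 ≤ s / w - 1 := by
        have : 1 < s / w := by rw [lt_div_iff₀ hw0]; linarith
        linarith
      gcongr
    have e4 : 0 ≤ s * max 0 (t - T) := by positivity
    rw [e2]
    have e5 : t * (s / w - 1) = t * (s / w) - t := by ring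
    linarith
  · have e1 : ((q : ℝ) + 1 - t) / q ≤ 1 := by
      rw [div_le_one hq0]; linarith
    rw [min_eq_right (e1.trans h)]
    have e2 : s * (((q : ℝ) + 1 - t) / q / w) = s * (q + 1) / (q * w) - t * (s / (q * w)) := by
      field_simp
    rw [e2]
    have hc : 0 ≤ s / (q * w) := by positivity
    rcases le_total t T with h' | h'
    · have e3 : t * (1 + s / (q * w)) ≤ T * (1 + s / (q * w)) := by gcongr
      have e4 : 0 ≤ s * max 0 (t - T) := by positivity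
      have e5 : t * (1 + s / (q * w)) = t + t * (s / (q * w)) := by ring
      linarith
    · rw [max_eq_right (by linarith)]
      have e3 : s / (q * w) ≤ s / 2 := by gcongr
      have e6 : (t - T) * (1 + s / (q * w)) ≤ (t - T) * s := by
        have : 0 ≤ t - T := by linarith
        gcongr
        linarith
      have e7 : (t - T) * (1 + s / (q * w)) =
        t + t * (s / (q * w)) - T * (1 + s / (q * w)) := by ring
      have e8 : s * (t - T) = (t - T) * s := by ring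
      linarith

/-- the contribution of one block -/
theorem block_bound (k q s : ℕ) (hq1 : 1 ≤ q) (hq : q + 2 ≤ k) (hs2 : 2 ≤ s)
    (hs : (2 : ℝ) ^ q < s) (η : ℝ)
    (hη : ((k : ℝ) - η) * (s + q * 2 ^ q) < s * (q + 1)) (ξ : ℝ) (hξ : 0 < ξ) :
    ∃ κ C : ℝ, 0 < κ ∧ 0 < C ∧ ∀ P D : ℕ, 2 ≤ P → 1 ≤ D → (P : ℝ) ^ η ≤ 2 * D →
      ∀ β : ℝ, (P : ℝ) ^ (ξ - k) ≤ β → β ≤ 1 / 2 →
        β * (‖Kf D β‖ * ‖W k P β‖) ^ s ≤ C * (P : ℝ) ^ ((s : ℝ) - k - κ) := by
  obtain ⟨ε, κ, hε, hκ, hexp⟩ := exponents q hq1 s (k - η) ξ (by exact_mod_cast hs2) hs hη hξ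
  obtain ⟨C, hC, hW⟩ := W_bound k q hq1 hq ε hε
  refine ⟨κ, C ^ s, hκ, by positivity, fun P D hP hD hDη β hβ1 hβ2 => ?_⟩
  have hP' : (2 : ℝ) ≤ P := by exact_mod_cast hP
  have hP1 : (1 : ℝ) ≤ P := by linarith
  have hP0 : (0 : ℝ) < P := by linarith
  have hβ0 : 0 < β := lt_of_lt_of_le (by positivity) hβ1
  have hlogP : 0 < Real.log P := Real.log_pos (by linarith)
  set t : ℝ := k + Real.log β / Real.log P with ht
  have hβt : (P : ℝ) ^ (t - k) = β := by
    rw [ht, add_sub_cancel_left, Real.rpow_def_of_pos hP0, mul_div_cancel₀ _ hlogP.ne',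
      Real.exp_log hβ0]
  have htξ : ξ ≤ t := by
    rw [← hβt] at hβ1
    have := (Real.rpow_le_rpow_left_iff (by linarith : (1 : ℝ) < P)).1 hβ1
    linarith
  have h1 := hW P hP t
  rw [hβt] at h1
  have h2 : ‖Kf D β‖ ≤ (P : ℝ) ^ (-max 0 (t - (k - η))) := by
    rcases le_total (t - (k - η)) 0 with h | h
    · rw [max_eq_left h, neg_zero, Real.rpow_zero]
      exact norm_Kf_le_one D β
    · rw [max_eq_right h]
      refine (norm_Kf_le D hD hβ0 hβ2).trans ?_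
      have hD0 : (0 : ℝ) < D := by exact_mod_cast hD
      rw [div_le_iff₀ (by positivity)]
      have e1 : (P : ℝ) ^ (-(t - (k - η))) * (β * (P : ℝ) ^ η) = 1 := by
        rw [← hβt, ← Real.rpow_add hP0, ← Real.rpow_add hP0]
        rw [show -(t - (k - η)) + (t - k + η) = 0 by ring, Real.rpow_zero]
      calc (1 : ℝ) = (P : ℝ) ^ (-(t - (k - η))) * (β * (P : ℝ) ^ η) := e1.symm
        _ ≤ (P : ℝ) ^ (-(t - (k - η))) * (β * (2 * D)) := by gcongr
        _ = _ := by ring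
  calc β * (‖Kf D β‖ * ‖W k P β‖) ^ s
      ≤ (P : ℝ) ^ (t - k) * ((P : ℝ) ^ (-max 0 (t - (k - η))) *
        (C * (P : ℝ) ^ (1 + ε - min t (((q : ℝ) + 1 - t) / q) / 2 ^ q))) ^ s := by
        rw [hβt]
        gcongr
    _ = C ^ s * ((P : ℝ) ^ (t - k) * ((P : ℝ) ^ (-max 0 (t - (k - η)) +
        (1 + ε - min t (((q : ℝ) + 1 - t) / q) / 2 ^ q))) ^ s) := by
        rw [Real.rpow_add hP0 (-max 0 (t - (k - η)))]
        ring
    _ = C ^ s * (P : ℝ) ^ ((t - k) + (-max 0 (t - (k - η)) +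
        (1 + ε - min t (((q : ℝ) + 1 - t) / q) / 2 ^ q)) * s) := by
        rw [← Real.rpow_natCast ((P : ℝ) ^ (-max 0 (t - (k - η)) +
        (1 + ε - min t (((q : ℝ) + 1 - t) / q) / 2 ^ q))) s, ← Real.rpow_mul hP0.le,
          ← Real.rpow_add hP0]
    _ ≤ C ^ s * (P : ℝ) ^ ((s : ℝ) - k - κ) := by
        gcongr
        have := hexp t htξ
        nlinarith

end Pool.Agent.X30.WP
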