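import Mathlib
import Pool.Agent.X30.WP2

/-!
# The smooth model and the discrete circle method
-/

set_option autoImplicit false

namespace Pool.Agent.X30.WP

open Finset
open Pool.Agent.H469R2.NK (e norm_e e_add conj_e norm_sum_neg e_zero)

/-! ### orthogonality -/

lemma e_int (n : ℤ) : e (n : ℝ) = 1 := by
  unfold e
  rw [Complex.exp_eq_one_iff]
  refine ⟨n, ?_⟩
  push_cast
  ring

lemma orth (M : ℕ) (hM : 1 ≤ M) (x : ℤ) (hx : |x| < M) :
    ∑ b ∈ range M, e ((b : ℝ) / M * x) = if x = 0 then (M : ℂ) else 0 := by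
  have hM0 : (M : ℝ) ≠ 0 := by positivity
  by_cases h : x = 0
  · rw [if_pos h, h]
    simp [e_zero]
  rw [if_neg h]
  have h1 : ∀ b ∈ range M, e ((b : ℝ) / M * x) = e ((x : ℝ) / M) ^ b := by
    intro b _
    rw [← e_nat_mul]
    congr 1
    ring
  rw [sum_congr rfl h1]
  have hne : e ((x : ℝ) / M) ≠ 1 := by
    intro hh
    unfold e at hh
    rw [Complex.exp_eq_one_iff] at hh
    obtain ⟨n, hn⟩ := hh
    have h2 : (x : ℝ) / M = n := by
      have h3 : ((2 * Real.pi * ((x : ℝ) / M) : ℝ) : ℂ) * Complex.I =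
          (((n : ℝ) * (2 * Real.pi) : ℝ) : ℂ) * Complex.I := by
        rw [hn]; push_cast; ring
      have h4 := mul_right_cancel₀ Complex.I_ne_zero h3
      have h5 : 2 * Real.pi * ((x : ℝ) / M) = (n : ℝ) * (2 * Real.pi) := by exact_mod_cast h4
      have hpi : (2 * Real.pi) ≠ 0 := by positivity
      have h6 : 2 * Real.pi * ((x : ℝ) / M - n) = 0 := by linarith
      rcases mul_eq_zero.1 h6 with h7 | h7
      · exact absurd h7 hpi
      · linarith
    rw [div_eq_iff hM0] at h2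
    have h3 : x = n * M := by exact_mod_cast h2
    have h4 : n ≠ 0 := by
      intro h0
      rw [h0, zero_mul] at h3
      exact h h3
    have h5 : (M : ℤ) ≤ |x| := by
      rw [h3, abs_mul, Nat.abs_cast]
      have : 1 ≤ |n| := Int.one_le_abs h4
      nlinarith [abs_nonneg n, (by positivity : (0 : ℤ) ≤ (M : ℤ))]
    linarith
  rw [geom_sum_eq hne, ← e_nat_mul]
  have h2 : (x : ℝ) / M * (M : ℕ) = x := by field_simp
  rw [h2, e_int, sub_self, zero_div]

/-- weighted exponential sum -/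
noncomputable def F {ι : Type*} (A : Finset ι) (w : ι → ℝ) (v : ι → ℕ) (β : ℝ) : ℂ :=
  ∑ i ∈ A, (w i : ℂ) * e (β * v i)

/-- weighted number of representations -/
noncomputable def rep {ι : Type*} [DecidableEq ι] (A : Finset ι) (w : ι → ℝ) (v : ι → ℕ) (s N : ℕ) : ℝ :=
  ∑ f ∈ Fintype.piFinset (fun _ : Fin s => A), if ∑ j, v (f j) = N then ∏ j, w (f j) else 0

lemma fourier {ι : Type*} [DecidableEq ι] (A : Finset ι) (w : ι → ℝ) (v : ι → ℕ) (s N M : ℕ)
    (hN : N < M) (hM : ∀ f ∈ Fintype.piFinset (fun _ : Fin s => A), ∑ j, v (f j) < M) :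
    ∑ b ∈ range M, F A w v ((b : ℝ) / M) ^ s * e (-((b : ℝ) / M * N)) =
      (M : ℂ) * ((rep A w v s N : ℝ) : ℂ) := by
  have h1 : ∀ β : ℝ, F A w v β ^ s * e (-(β * N)) =
      ∑ f ∈ Fintype.piFinset (fun _ : Fin s => A), (∏ j, (w (f j) : ℂ)) *
        e (β * (((∑ j, v (f j) : ℕ) : ℤ) - (N : ℤ) : ℤ)) := by
    intro β
    have h2 : F A w v β ^ s = ∏ _j : Fin s, F A w v β := by
      rw [prod_const, card_univ, Fintype.card_fin]
    rw [h2]
    unfold F
    rw [Finset.prod_univ_sum, sum_mul]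
    refine sum_congr rfl fun f _ => ?_
    rw [prod_mul_distrib, mul_assoc]
    congr 1
    have h3 : ∀ T : Finset (Fin s), ∏ j ∈ T, e (β * v (f j)) = e (β * ((∑ j ∈ T, v (f j) : ℕ) : ℝ)) := by
      intro T
      classical
      induction T using Finset.induction_on with
      | empty => simp [e_zero]
      | insert a T ha ih =>
        rw [prod_insert ha, sum_insert ha, ih, ← e_add]
        congr 1
        push_cast
        ring
    rw [h3, ← e_add]
    congr 1
    push_cast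
    ring
  have h1' : ∑ b ∈ range M, F A w v ((b : ℝ) / M) ^ s * e (-((b : ℝ) / M * N)) =
      ∑ b ∈ range M, ∑ f ∈ Fintype.piFinset (fun _ : Fin s => A), (∏ j, (w (f j) : ℂ)) *
        e ((b : ℝ) / M * (((∑ j, v (f j) : ℕ) : ℤ) - (N : ℤ) : ℤ)) :=
    sum_congr rfl (fun b _ => h1 ((b : ℝ) / M))
  rw [h1', sum_comm]
  unfold rep
  rw [Complex.ofReal_sum, mul_sum]
  refine sum_congr rfl fun f hf => ?_
  rw [← mul_sum]
  have hs := hM f hf
  have h4 := orth M (by omega) (((∑ j, v (f j) : ℕ) : ℤ) - (N : ℤ)) (by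
    rw [abs_lt]
    constructor <;> [skip; skip] <;> omega)
  rw [h4]
  by_cases h5 : ∑ j, v (f j) = N
  · rw [if_pos h5, if_pos (by rw [h5]; ring)]
    push_cast
    ring
  · rw [if_neg h5, if_neg (by
      intro h6
      apply h5
      have : ((∑ j, v (f j) : ℕ) : ℤ) = (N : ℤ) := by linarith
      exact_mod_cast this)]
    simp

lemma norm_F_reflect {ι : Type*} (A : Finset ι) (w : ι → ℝ) (v : ι → ℕ) (β : ℝ) :
    F A w v (1 - β) = (starRingEnd ℂ) (F A w v β) := by
  unfold F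
  rw [map_sum]
  refine sum_congr rfl fun i _ => ?_
  rw [map_mul, Complex.conj_ofReal, conj_e]
  congr 1
  have h1 : (1 - β) * (v i : ℝ) = ((v i : ℤ) : ℝ) + -(β * v i) := by push_cast; ring
  rw [h1, e_add, e_int, one_mul]

lemma sum_half (M : ℕ) (g : ℕ → ℝ) (hg : ∀ b, 0 ≤ g b) (hs : ∀ b, 1 ≤ b → b < M → g (M - b) = g b) :
    ∑ b ∈ range M, g b ≤ 2 * ∑ b ∈ range (M / 2 + 1), g b := by
  classical
  have h1 : range M = (range M).filter (fun b => b ≤ M / 2) ∪ (range M).filter (fun b => ¬ b ≤ M / 2) :=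
    (filter_union_filter_not_eq _ _).symm
  rw [← sum_filter_add_sum_filter_not (range M) (fun b => b ≤ M / 2), two_mul]
  gcongr ?_ + ?_
  · refine sum_le_sum_of_subset_of_nonneg ?_ (fun _ _ _ => hg _)
    intro b hb
    rw [mem_filter] at hb
    rw [mem_range]
    omega
  · calc ∑ b ∈ (range M).filter (fun b => ¬ b ≤ M / 2), g b
        = ∑ b ∈ ((range M).filter (fun b => ¬ b ≤ M / 2)).image (fun b => M - b), g b := by
          rw [sum_image]
          · refine sum_congr rfl fun b hb => ?_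
            rw [mem_filter, mem_range] at hb
            exact (hs b (by omega) hb.1).symm
          · intro a ha b hb hab
            simp only [coe_filter, mem_range, Set.mem_ofPred_eq] at ha hb
            simp only at hab
            omega
      _ ≤ _ := by
          refine sum_le_sum_of_subset_of_nonneg ?_ (fun _ _ _ => hg _)
          intro b hb
          rw [mem_image] at hb
          obtain ⟨a, ha, rfl⟩ := hb
          rw [mem_filter, mem_range] at ha
          rw [mem_range]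
          omega

/-- comparison of two systems -/
lemma compare {ι κ : Type*} [DecidableEq ι] [DecidableEq κ] (A : Finset ι) (w : ι → ℝ) (v : ι → ℕ)
    (B : Finset κ) (w' : κ → ℝ) (v' : κ → ℕ) (s N M : ℕ) (hN : N < M)
    (hA : ∀ f ∈ Fintype.piFinset (fun _ : Fin s => A), ∑ j, v (f j) < M)
    (hB : ∀ f ∈ Fintype.piFinset (fun _ : Fin s => B), ∑ j, v' (f j) < M)
    (h : 2 * ∑ b ∈ range (M / 2 + 1),
      ‖F A w v ((b : ℝ) / M) ^ s - F B w' v' ((b : ℝ) / M) ^ s‖ < M * rep B w' v' s N) :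
    0 < rep A w v s N := by
  have h1 := fourier A w v s N M hN hA
  have h2 := fourier B w' v' s N M hN hB
  have hM : 0 < M := by omega
  have hM' : (0 : ℝ) < M := by exact_mod_cast hM
  have h3 : (M : ℂ) * (((rep A w v s N - rep B w' v' s N : ℝ)) : ℂ) =
      ∑ b ∈ range M, (F A w v ((b : ℝ) / M) ^ s - F B w' v' ((b : ℝ) / M) ^ s) *
        e (-((b : ℝ) / M * N)) := by
    push_cast
    rw [mul_sub, ← h1, ← h2, ← sum_sub_distrib]
    refine sum_congr rfl fun b _ => by ring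
  have h4 : (M : ℝ) * |rep A w v s N - rep B w' v' s N| ≤
      ∑ b ∈ range M, ‖F A w v ((b : ℝ) / M) ^ s - F B w' v' ((b : ℝ) / M) ^ s‖ := by
    have h5 : ‖(M : ℂ) * (((rep A w v s N - rep B w' v' s N : ℝ)) : ℂ)‖ =
        (M : ℝ) * |rep A w v s N - rep B w' v' s N| := by
      rw [norm_mul, Complex.norm_natCast, Complex.norm_real, Real.norm_eq_abs]
    rw [← h5, h3]
    refine (norm_sum_le _ _).trans (le_of_eq ?_)
    refine sum_congr rfl fun b _ => ?_
    rw [norm_mul, norm_e, mul_one]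
  have h6 := sum_half M (fun b => ‖F A w v ((b : ℝ) / M) ^ s - F B w' v' ((b : ℝ) / M) ^ s‖)
    (fun _ => norm_nonneg _) (by
      intro b hb1 hb2
      have e1 : (((M - b : ℕ) : ℝ)) / M = 1 - (b : ℝ) / M := by
        rw [Nat.cast_sub hb2.le, sub_div, div_self hM'.ne']
      simp only [e1, norm_F_reflect]
      rw [← map_pow, ← map_pow, ← map_sub, Complex.norm_conj])
  have h7 : (M : ℝ) * |rep A w v s N - rep B w' v' s N| < M * rep B w' v' s N :=
    (h4.trans h6).trans_lt h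
  have h8 := lt_of_mul_lt_mul_left h7 hM'.le
  have h9 := neg_abs_le (rep A w v s N - rep B w' v' s N)
  linarith

lemma exists_of_rep_pos {ι : Type*} [DecidableEq ι] (A : Finset ι) (w : ι → ℝ) (v : ι → ℕ) (s N : ℕ)
    (h : 0 < rep A w v s N) : ∃ f : Fin s → ι, (∀ j, f j ∈ A) ∧ ∑ j, v (f j) = N := by
  by_contra hcon
  push Not at hcon
  have : rep A w v s N = 0 := by
    unfold rep
    refine sum_eq_zero fun f hf => ?_
    rw [Fintype.mem_piFinset] at hf
    rw [if_neg (hcon f hf)]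
  linarith

/-! ### the gaps of the `k`-th powers -/

/-- `(n + 1) ^ k - n ^ k` -/
def gp (k n : ℕ) : ℕ := (n + 1) ^ k - n ^ k

lemma gp_add (k n : ℕ) : n ^ k + gp k n = (n + 1) ^ k := by
  unfold gp
  have : n ^ k ≤ (n + 1) ^ k := Nat.pow_le_pow_left (by omega) k
  omega

lemma gp_succ (k n : ℕ) : gp (k + 1) n = (n + 1) * gp k n + n ^ k := by
  have h1 := gp_add (k + 1) n
  have h2 := gp_add k n
  have h3 : (n + 1) ^ (k + 1) = (n + 1) * (n ^ k + gp k n) := by rw [h2]; ring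
  have h4 : n ^ (k + 1) = n * n ^ k := by ring
  have h5 : n * n ^ k + gp (k + 1) n = n * n ^ k + ((n + 1) * gp k n + n ^ k) := by
    rw [← h4, h1, h3]; ring
  exact Nat.add_left_cancel h5

lemma gp_mono (k : ℕ) : Monotone (gp k) := by
  induction k with
  | zero =>
    intro a b _
    simp [gp]
  | succ k ih =>
    intro a b hab
    rw [gp_succ, gp_succ]
    have h1 := ih hab
    have h2 : a ^ k ≤ b ^ k := Nat.pow_le_pow_left hab k
    gcongr

lemma gp_ge (k n : ℕ) : (n + 1) ^ k ≤ gp (k + 1) n := by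
  induction k with
  | zero => simp [gp]
  | succ k ih =>
    rw [gp_succ]
    calc (n + 1) ^ (k + 1) = (n + 1) * (n + 1) ^ k := by ring
      _ ≤ (n + 1) * gp (k + 1) n := by gcongr
      _ ≤ _ := Nat.le_add_right _ _

lemma gp_le (k n : ℕ) : gp (k + 1) n ≤ (k + 1) * (n + 1) ^ k := by
  induction k with
  | zero => simp [gp]
  | succ k ih =>
    rw [gp_succ]
    calc (n + 1) * gp (k + 1) n + n ^ (k + 1)
        ≤ (n + 1) * ((k + 1) * (n + 1) ^ k) + (n + 1) ^ (k + 1) := by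
          gcongr
          omega
      _ = _ := by ring

lemma gp_pos (k n : ℕ) (hk : 1 ≤ k) : 0 < gp k n := by
  obtain ⟨k, rfl⟩ : ∃ k', k = k' + 1 := ⟨k - 1, by omega⟩
  exact lt_of_lt_of_le (by positivity) (gp_ge k n)

/-! ### the smooth model -/

/-- index set of the smooth model -/
def AZ (k P : ℕ) : Finset (ℕ × ℕ) :=
  (Ico P (4 * P)).biUnion fun n => (range (gp k n)).image (fun d => (n, d))

/-- weights of the smooth model -/
noncomputable def wZ (k : ℕ) (i : ℕ × ℕ) : ℝ := 1 / (gp k i.1 : ℝ)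

/-- values of the smooth model -/
def vZ (k : ℕ) (i : ℕ × ℕ) : ℕ := i.1 ^ k + i.2

lemma mem_AZ {k P : ℕ} {i : ℕ × ℕ} : i ∈ AZ k P ↔ (P ≤ i.1 ∧ i.1 < 4 * P) ∧ i.2 < gp k i.1 := by
  unfold AZ
  rw [mem_biUnion]
  constructor
  · rintro ⟨n, hn, hi⟩
    rw [mem_image] at hi
    obtain ⟨d, hd, rfl⟩ := hi
    rw [mem_Ico] at hn
    rw [mem_range] at hd
    exact ⟨hn, hd⟩
  · rintro ⟨h1, h2⟩
    refine ⟨i.1, mem_Ico.2 h1, ?_⟩
    rw [mem_image]
    exact ⟨i.2, mem_range.2 h2, rfl⟩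

lemma FZ_eq (k P : ℕ) (hk : 1 ≤ k) (β : ℝ) :
    F (AZ k P) (wZ k) (vZ k) β = ∑ n ∈ Ico P (4 * P), e (β * (n : ℝ) ^ k) * Kf (gp k n) β := by
  unfold F AZ
  rw [sum_biUnion]
  · refine sum_congr rfl fun n _ => ?_
    rw [sum_image (by
      intro a _ b _ h
      simpa using h)]
    simp only [wZ, vZ]
    unfold Kf
    rw [mul_div_assoc', mul_sum, sum_div]
    refine sum_congr rfl fun d _ => ?_
    have h0 : ((gp k n : ℕ) : ℂ) ≠ 0 := by exact_mod_cast (gp_pos k n hk).ne'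
    rw [← e_add]
    push_cast
    rw [show β * ((n : ℝ) ^ k + d) = β * (n : ℝ) ^ k + β * d by ring]
    ring
  · intro a _ b _ hab
    rw [Function.onFun, disjoint_left]
    intro x hx hx'
    rw [mem_image] at hx hx'
    obtain ⟨d, _, rfl⟩ := hx
    obtain ⟨d', _, h⟩ := hx'
    apply hab
    simp only [Prod.mk.injEq] at h
    exact h.1.symm

lemma abel_bound (a : ℕ → ℝ) (ha : Antitone a) (ha0 : ∀ n, 0 ≤ a n) (E : ℕ → ℂ)
    (hE : ∀ n, ‖E n‖ ≤ 1) (A B : ℕ) (hAB : A ≤ B) :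
    ‖∑ n ∈ Ico A B, (a n : ℂ) * (E (n + 1) - E n)‖ ≤ 2 * a A := by
  have key : ∀ m : ℕ, ‖∑ n ∈ Ico A (A + m), (a n : ℂ) * (E (n + 1) - E n) -
      (a (A + m) : ℂ) * E (A + m) + (a A : ℂ) * E A‖ ≤ a A - a (A + m) := by
    intro m
    induction m with
    | zero => simp
    | succ m ih =>
      rw [← add_assoc, sum_Ico_succ_top (by omega)]
      have h1 : ∑ n ∈ Ico A (A + m), (a n : ℂ) * (E (n + 1) - E n) +
          (a (A + m) : ℂ) * (E (A + m + 1) - E (A + m)) -
          (a (A + m + 1) : ℂ) * E (A + m + 1) + (a A : ℂ) * E A =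
          (∑ n ∈ Ico A (A + m), (a n : ℂ) * (E (n + 1) - E n) -
          (a (A + m) : ℂ) * E (A + m) + (a A : ℂ) * E A) +
          ((a (A + m) - a (A + m + 1) : ℝ) : ℂ) * E (A + m + 1) := by
        push_cast; ring
      rw [h1]
      refine (norm_add_le _ _).trans ?_
      have h2 : 0 ≤ a (A + m) - a (A + m + 1) := sub_nonneg.2 (ha (by omega))
      have h3 : ‖((a (A + m) - a (A + m + 1) : ℝ) : ℂ) * E (A + m + 1)‖ ≤
          a (A + m) - a (A + m + 1) := by
        rw [norm_mul, Complex.norm_real, Real.norm_eq_abs, abs_of_nonneg h2]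
        exact mul_le_of_le_one_right h2 (hE _)
      linarith
  obtain ⟨m, rfl⟩ : ∃ m, B = A + m := ⟨B - A, by omega⟩
  have h := key m
  have h1 : ∑ n ∈ Ico A (A + m), (a n : ℂ) * (E (n + 1) - E n) =
      (∑ n ∈ Ico A (A + m), (a n : ℂ) * (E (n + 1) - E n) -
          (a (A + m) : ℂ) * E (A + m) + (a A : ℂ) * E A) +
        ((a (A + m) : ℂ) * E (A + m) + -((a A : ℂ) * E A)) := by ring
  rw [h1]
  refine (norm_add_le _ _).trans ?_
  have h2 : ‖(a (A + m) : ℂ) * E (A + m) + -((a A : ℂ) * E A)‖ ≤ a (A + m) + a A := by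
    refine (norm_add_le _ _).trans ?_
    rw [norm_neg, norm_mul, norm_mul, Complex.norm_real, Complex.norm_real, Real.norm_eq_abs,
      Real.norm_eq_abs, abs_of_nonneg (ha0 _), abs_of_nonneg (ha0 _)]
    gcongr
    · exact mul_le_of_le_one_right (ha0 _) (hE _)
    · exact mul_le_of_le_one_right (ha0 _) (hE _)
  linarith

lemma norm_FZ_le (k P : ℕ) (hk : 1 ≤ k) (hP : 1 ≤ P) {β : ℝ} (h0 : 0 < β) (h1 : β ≤ 1 / 2) :
    ‖F (AZ k P) (wZ k) (vZ k) β‖ ≤ 1 / (β * (P : ℝ) ^ (k - 1)) := by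
  have hge := norm_e_sub_one_ge h0.le h1
  have hpos : 0 < ‖e β - 1‖ := by linarith
  have hne : e β ≠ 1 := fun h => by rw [h, sub_self, norm_zero] at hpos; exact lt_irrefl _ hpos
  have hid : F (AZ k P) (wZ k) (vZ k) β * (e β - 1) =
      ∑ n ∈ Ico P (4 * P), ((1 / (gp k n : ℝ) : ℝ) : ℂ) *
        (e (β * (((n + 1 : ℕ) : ℝ)) ^ k) - e (β * (n : ℝ) ^ k)) := by
    rw [FZ_eq k P hk, sum_mul]
    refine sum_congr rfl fun n _ => ?_
    have hg : ((gp k n : ℕ) : ℂ) ≠ 0 := by exact_mod_cast (gp_pos k n hk).ne'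
    have h2 : Kf (gp k n) β * (e β - 1) = (e (β * (gp k n : ℕ)) - 1) / (gp k n : ℕ) := by
      unfold Kf
      simp only [e_nat_mul]
      rw [geom_sum_eq hne]
      have : e β - 1 ≠ 0 := sub_ne_zero.2 hne
      field_simp
    rw [mul_assoc, h2]
    have h3 : e (β * (((n + 1 : ℕ) : ℝ)) ^ k) = e (β * (n : ℝ) ^ k) * e (β * (gp k n : ℕ)) := by
      rw [← e_add]
      congr 1
      have := gp_add k n
      have h4 : (n : ℝ) ^ k + (gp k n : ℕ) = (((n + 1 : ℕ) : ℝ)) ^ k := by exact_mod_cast this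
      rw [← h4]; ring
    rw [h3]
    push_cast
    field_simp
  have h2 := abel_bound (fun n => 1 / (gp k n : ℝ)) (by
      intro a b hab
      have hpa : (0 : ℝ) < gp k a := by exact_mod_cast gp_pos k a hk
      have : (gp k a : ℝ) ≤ gp k b := by exact_mod_cast gp_mono k hab
      simp only
      gcongr) (fun n => by positivity) (fun n => e (β * (n : ℝ) ^ k)) (fun n => (norm_e _).le) P (4 * P)
      (by omega)
  have h3 : ‖F (AZ k P) (wZ k) (vZ k) β‖ * ‖e β - 1‖ ≤ 2 * (1 / (gp k P : ℝ)) := by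
    rw [← norm_mul, hid]
    exact h2
  have hP0 : (0 : ℝ) < P := by exact_mod_cast hP
  have h4 : (P : ℝ) ^ (k - 1) ≤ gp k P := by
    obtain ⟨k', rfl⟩ : ∃ k', k = k' + 1 := ⟨k - 1, by omega⟩
    have := gp_ge k' P
    have h5 : P ^ k' ≤ (P + 1) ^ k' := Nat.pow_le_pow_left (by omega) _
    rw [Nat.add_sub_cancel]
    exact_mod_cast h5.trans this
  have hg0 : (0 : ℝ) < gp k P := lt_of_lt_of_le (by positivity) h4
  rw [le_div_iff₀ (by positivity)]
  have h5 : ‖F (AZ k P) (wZ k) (vZ k) β‖ * (4 * β) ≤ 2 * (1 / (gp k P : ℝ)) :=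
    (by gcongr : _ ≤ _).trans h3
  have h6 : 1 / (gp k P : ℝ) * (P : ℝ) ^ (k - 1) ≤ 1 := by
    rw [one_div, inv_mul_le_iff₀ hg0]
    linarith
  calc ‖F (AZ k P) (wZ k) (vZ k) β‖ * (β * (P : ℝ) ^ (k - 1))
      = (‖F (AZ k P) (wZ k) (vZ k) β‖ * (4 * β)) * (P : ℝ) ^ (k - 1) / 4 := by ring
    _ ≤ (2 * (1 / (gp k P : ℝ))) * (P : ℝ) ^ (k - 1) / 4 := by gcongr
    _ = 2 * (1 / (gp k P : ℝ) * (P : ℝ) ^ (k - 1)) / 4 := by ring
    _ ≤ 2 * 1 / 4 := by gcongr
    _ ≤ 1 := by norm_num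

end Pool.Agent.X30.WP
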