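import Mathlib
import Pool.Agent.X30.WP3

/-!
# The deterministic part of Waring's problem for perturbed powers
-/

set_option autoImplicit false

namespace Pool.Agent.X30.WP

open Finset
open Pool.Agent.H469R2.NK (e norm_e e_add conj_e norm_sum_neg e_zero)

/-! ### lower bound for the smooth model -/

lemma exists_dec (k P : ℕ) (m : ℕ) (h1 : P ^ k ≤ m) (h2 : m < (4 * P) ^ k) :
    ∃ i ∈ AZ k P, vZ k i = m := by
  classical
  have h : ∃ n, m < n ^ k := ⟨4 * P, h2⟩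
  set n0 := Nat.find h with hn0
  have h3 : m < n0 ^ k := Nat.find_spec h
  have h4 : n0 ≤ 4 * P := Nat.find_min' h h2
  have h5 : P < n0 := by
    by_contra hcon
    push Not at hcon
    have : n0 ^ k ≤ P ^ k := Nat.pow_le_pow_left hcon k
    omega
  have h6 : (n0 - 1) ^ k ≤ m := by
    have := Nat.find_min h (m := n0 - 1) (by omega)
    push Not at this
    exact this
  refine ⟨(n0 - 1, m - (n0 - 1) ^ k), ?_, ?_⟩
  · rw [mem_AZ]
    refine ⟨⟨by simp only; omega, by simp only; omega⟩, ?_⟩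
    simp only
    have h7 := gp_add k (n0 - 1)
    have h8 : n0 - 1 + 1 = n0 := by omega
    rw [h8] at h7
    omega
  · unfold vZ
    simp only
    omega

lemma rep_lower (k s : ℕ) (hk : 2 ≤ k) (hs : 1 ≤ s) : ∃ c : ℝ, 0 < c ∧ ∀ P N : ℕ, 2 * s ≤ P →
    2 * s * P ^ k ≤ N → N < s * (2 ^ (k + 1) * P ^ k) →
      c * ((P : ℝ) ^ s / (P : ℝ) ^ k) ≤ rep (AZ k P) (wZ k) (vZ k) s N := by
  classical
  obtain ⟨s', rfl⟩ : ∃ s', s = s' + 1 := ⟨s - 1, by omega⟩
  obtain ⟨k', rfl⟩ : ∃ k', k = k' + 1 := ⟨k - 1, by omega⟩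
  set G0 : ℝ := (k' + 1) * 4 ^ k' with hG0
  have hG0' : 0 < G0 := by positivity
  refine ⟨(1 / (2 * ((s' + 1 : ℕ) : ℝ))) ^ s' * (1 / G0) ^ (s' + 1), by positivity,
    fun P N hP hN1 hN2 => ?_⟩
  have hP0 : 0 < P := by omega
  have hP0' : (0 : ℝ) < P := by exact_mod_cast hP0
  set k := k' + 1 with hk'
  set B : ℕ := N / (s' + 1) with hB
  set r : ℕ := N % (s' + 1) with hr
  have hBr : (s' + 1) * B + r = N := Nat.div_add_mod N (s' + 1)
  have hr1 : r < s' + 1 := Nat.mod_lt _ (by omega)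
  have hB1 : 2 * P ^ k ≤ B := by
    rw [hB, Nat.le_div_iff_mul_le (by omega)]
    calc 2 * P ^ k * (s' + 1) = 2 * (s' + 1) * P ^ k := by ring
      _ ≤ N := hN1
  have hB2 : B < 2 ^ (k + 1) * P ^ k := by
    rw [hB, Nat.div_lt_iff_lt_mul (by omega)]
    calc N < (s' + 1) * (2 ^ (k + 1) * P ^ k) := hN2
      _ = _ := by ring
  set T : ℕ := P ^ k / (2 * (s' + 1)) with hT
  have hTle : 2 * (s' + 1) * T ≤ P ^ k := Nat.mul_div_le _ _
  have hPk : 2 * (s' + 1) ≤ P ^ k := by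
    calc 2 * (s' + 1) ≤ P := hP
      _ = P ^ 1 := (pow_one P).symm
      _ ≤ P ^ k := Nat.pow_le_pow_right hP0 (by omega)
  have h4k : 2 ^ (k + 1) + 1 ≤ 4 ^ k := by
    have h1 : (4 : ℕ) ^ k = 2 ^ (2 * k) := by rw [pow_mul]; norm_num
    have h2 : 2 ^ (2 * k) = 2 ^ (k + 1) * 2 ^ (k - 1) := by
      rw [← pow_add]; congr 1; omega
    have h3 : 2 ≤ 2 ^ (k - 1) := by
      calc 2 = 2 ^ 1 := by norm_num
        _ ≤ 2 ^ (k - 1) := Nat.pow_le_pow_right (by norm_num) (by omega)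
    have h4 : 1 ≤ 2 ^ (k + 1) := Nat.one_le_two_pow
    rw [h1, h2]
    calc 2 ^ (k + 1) + 1 ≤ 2 ^ (k + 1) * 2 := by omega
      _ ≤ _ := Nat.mul_le_mul_left _ h3
  have h4P : (4 * P) ^ k = 4 ^ k * P ^ k := by rw [mul_pow]
  have hTP : T ≤ P ^ k := by
    calc T ≤ 2 * (s' + 1) * T := Nat.le_mul_of_pos_left _ (by omega)
      _ ≤ _ := hTle
  -- the decoding
  have hdec : ∀ m : ℕ, ∃ i : ℕ × ℕ, P ^ k ≤ m ∧ m < (4 * P) ^ k → i ∈ AZ k P ∧ vZ k i = m := by
    intro m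
    by_cases h : P ^ k ≤ m ∧ m < (4 * P) ^ k
    · obtain ⟨i, h1, h2⟩ := exists_dec k P m h.1 h.2
      exact ⟨i, fun _ => ⟨h1, h2⟩⟩
    · exact ⟨(0, 0), fun h' => absurd h' h⟩
  choose dec hdec using hdec
  set S : Finset (Fin s' → ℕ) := Fintype.piFinset (fun _ : Fin s' => range (T + 1)) with hS
  set φ : (Fin s' → ℕ) → (Fin (s' + 1) → ℕ × ℕ) := fun t =>
    Fin.cons (dec (B + r + ∑ i, t i)) (fun i => dec (B - t i)) with hφ
  have ht : ∀ t ∈ S, ∀ i, t i ≤ T := by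
    intro t ht i
    rw [hS, Fintype.mem_piFinset] at ht
    have := ht i
    rw [mem_range] at this
    omega
  have hr0 : ∀ t ∈ S, ∀ i, (dec (B - t i)) ∈ AZ k P ∧ vZ k (dec (B - t i)) = B - t i := by
    intro t h i
    apply hdec
    have h1 := ht t h i
    constructor
    · omega
    · rw [h4P]
      calc B - t i ≤ B := Nat.sub_le _ _
        _ < 2 ^ (k + 1) * P ^ k := hB2
        _ ≤ 4 ^ k * P ^ k := Nat.mul_le_mul_right _ (by omega)
  have hr00 : ∀ t ∈ S, (dec (B + r + ∑ i, t i)) ∈ AZ k P ∧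
      vZ k (dec (B + r + ∑ i, t i)) = B + r + ∑ i, t i := by
    intro t h
    apply hdec
    have h1 : ∑ i, t i ≤ s' * T := by
      calc ∑ i, t i ≤ ∑ _i : Fin s', T := sum_le_sum fun i _ => ht t h i
        _ = s' * T := by rw [sum_const, card_univ, Fintype.card_fin, smul_eq_mul]
    constructor
    · omega
    · rw [h4P]
      have h2 : 2 * (s' * T) ≤ P ^ k := by
        calc 2 * (s' * T) ≤ 2 * (s' + 1) * T := by nlinarith
          _ ≤ P ^ k := hTle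
      calc B + r + ∑ i, t i < 2 ^ (k + 1) * P ^ k + P ^ k := by omega
        _ = (2 ^ (k + 1) + 1) * P ^ k := by ring
        _ ≤ 4 ^ k * P ^ k := Nat.mul_le_mul_right _ h4k
  have hinj : Set.InjOn φ S := by
    intro a ha b hb hab
    funext i
    have h1 : φ a i.succ = φ b i.succ := by rw [hab]
    simp only [hφ, Fin.cons_succ] at h1
    have h2 := (hr0 a ha i).2
    have h3 := (hr0 b hb i).2
    rw [h1, h3] at h2
    have h4 := ht a ha i
    have h5 := ht b hb i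
    omega
  have hmem : ∀ t ∈ S, φ t ∈ Fintype.piFinset (fun _ : Fin (s' + 1) => AZ k P) := by
    intro t h
    rw [Fintype.mem_piFinset]
    intro j
    refine Fin.cases ?_ (fun i => ?_) j
    · exact (hr00 t h).1
    · exact (hr0 t h i).1
  have hsum : ∀ t ∈ S, ∑ j, vZ k (φ t j) = N := by
    intro t h
    rw [Fin.sum_univ_succ]
    have h1 : vZ k (φ t 0) = B + r + ∑ i, t i := (hr00 t h).2
    have h2 : ∀ i : Fin s', vZ k (φ t i.succ) = B - t i := fun i => (hr0 t h i).2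
    rw [h1, sum_congr rfl (fun i _ => h2 i)]
    have h3 : ∑ i, (B - t i) + ∑ i, t i = s' * B := by
      rw [← sum_add_distrib]
      calc ∑ i, (B - t i + t i) = ∑ _i : Fin s', B := sum_congr rfl fun i _ => by
            have := ht t h i
            omega
        _ = s' * B := by rw [sum_const, card_univ, Fintype.card_fin, smul_eq_mul]
    calc B + r + ∑ i, t i + ∑ i, (B - t i) = B + r + (∑ i, (B - t i) + ∑ i, t i) := by ring
      _ = B + r + s' * B := by rw [h3]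
      _ = (s' + 1) * B + r := by ring
      _ = N := hBr
  -- weights
  have hw : ∀ i ∈ AZ k P, 1 / (G0 * (P : ℝ) ^ k') ≤ wZ k i := by
    intro i hi
    rw [mem_AZ] at hi
    unfold wZ
    have h1 : (0 : ℝ) < gp k i.1 := by exact_mod_cast gp_pos k i.1 (by omega)
    have h2 : (gp k i.1 : ℝ) ≤ G0 * (P : ℝ) ^ k' := by
      have h3 := gp_le k' i.1
      have h4 : (k' + 1) * (i.1 + 1) ^ k' ≤ (k' + 1) * (4 * P) ^ k' := by
        gcongr
        omega
      have h5 : (gp k i.1 : ℝ) ≤ (((k' + 1) * (4 * P) ^ k' : ℕ) : ℝ) := by exact_mod_cast h3.trans h4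
      refine h5.trans (le_of_eq ?_)
      rw [hG0]
      push_cast
      rw [mul_pow]
      ring
    gcongr
  have hw0 : ∀ i, 0 ≤ wZ k i := fun i => by unfold wZ; positivity
  have hbase : (0 : ℝ) ≤ 1 / (G0 * (P : ℝ) ^ k') := by positivity
  -- the count
  have hcard : (1 / (2 * ((s' + 1 : ℕ) : ℝ)) * (P : ℝ) ^ k) ^ s' ≤ (S.card : ℝ) := by
    rw [hS, Fintype.card_piFinset]
    simp only [card_range, prod_const, card_univ, Fintype.card_fin]
    push_cast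
    have h1 : (P : ℝ) ^ k < 2 * (s' + 1) * (T + 1) := by
      have h2 : P ^ k < 2 * (s' + 1) * (T + 1) := by
        rw [hT]
        have := Nat.lt_mul_div_succ (P ^ k) (show 0 < 2 * (s' + 1) by omega)
        exact this
      exact_mod_cast h2
    gcongr
    rw [one_div, inv_mul_le_iff₀ (by positivity)]
    linarith
  have hterm : ∀ t ∈ S, (1 / (G0 * (P : ℝ) ^ k')) ^ (s' + 1) ≤ ∏ j, wZ k (φ t j) := by
    intro t h
    have h1 := hmem t h
    rw [Fintype.mem_piFinset] at h1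
    calc (1 / (G0 * (P : ℝ) ^ k')) ^ (s' + 1) = ∏ _j : Fin (s' + 1), (1 / (G0 * (P : ℝ) ^ k')) := by
          rw [prod_const, card_univ, Fintype.card_fin]
      _ ≤ _ := prod_le_prod (fun _ _ => hbase) fun j _ => hw _ (h1 j)
  have hrep : ∑ t ∈ S, ∏ j, wZ k (φ t j) ≤ rep (AZ k P) (wZ k) (vZ k) (s' + 1) N := by
    unfold rep
    calc ∑ t ∈ S, ∏ j, wZ k (φ t j)
        = ∑ f ∈ S.image φ, ∏ j, wZ k (f j) := by rw [sum_image hinj]
      _ = ∑ f ∈ S.image φ, if ∑ j, vZ k (f j) = N then ∏ j, wZ k (f j) else 0 := by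
          refine sum_congr rfl fun f hf => ?_
          rw [mem_image] at hf
          obtain ⟨t, h, rfl⟩ := hf
          rw [if_pos (hsum t h)]
      _ ≤ _ := by
          refine sum_le_sum_of_subset_of_nonneg ?_ ?_
          · intro f hf
            rw [mem_image] at hf
            obtain ⟨t, h, rfl⟩ := hf
            exact hmem t h
          · intro f _ _
            split_ifs
            · exact prod_nonneg fun _ _ => hw0 _
            · exact le_rfl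
  have hfin : (S.card : ℝ) * (1 / (G0 * (P : ℝ) ^ k')) ^ (s' + 1) ≤
      ∑ t ∈ S, ∏ j, wZ k (φ t j) := by
    calc (S.card : ℝ) * (1 / (G0 * (P : ℝ) ^ k')) ^ (s' + 1) =
        ∑ _t ∈ S, (1 / (G0 * (P : ℝ) ^ k')) ^ (s' + 1) := by rw [sum_const, nsmul_eq_mul]
      _ ≤ _ := sum_le_sum hterm
  refine le_trans ?_ (hfin.trans hrep)
  calc (1 / (2 * ((s' + 1 : ℕ) : ℝ))) ^ s' * (1 / G0) ^ (s' + 1) *
        ((P : ℝ) ^ (s' + 1) / (P : ℝ) ^ k)
      = (1 / (2 * ((s' + 1 : ℕ) : ℝ)) * (P : ℝ) ^ k) ^ s' * (1 / (G0 * (P : ℝ) ^ k')) ^ (s' + 1) := by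
        have e1 : (P : ℝ) ^ k = P ^ k' * P := by rw [hk', pow_succ]
        rw [e1]
        rw [mul_pow (1 / (2 * ((s' + 1 : ℕ) : ℝ)))]
        have e2 : (1 / (G0 * (P : ℝ) ^ k')) ^ (s' + 1) =
          (1 / G0) ^ (s' + 1) * (1 / ((P : ℝ) ^ k') ^ (s' + 1)) := by
          rw [div_pow, div_pow, one_pow, mul_pow]
          field_simp
        rw [e2]
        rw [mul_pow ((P : ℝ) ^ k') (P : ℝ) s']
        have e3 : (P : ℝ) ^ (s' + 1) / ((P : ℝ) ^ k' * P) =
          ((P : ℝ) ^ k') ^ s' * (P : ℝ) ^ s' * (1 / ((P : ℝ) ^ k') ^ (s' + 1)) := by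
          rw [pow_succ, pow_succ]
          field_simp
        rw [e3]
        ring
    _ ≤ _ := by gcongr

/-! ### the blurred sum -/

/-- the expected exponential sum of the two blocks `[P, 2 P)`, `[2 P, 4 P)` -/
noncomputable def Sh (k P D1 D2 : ℕ) (β : ℝ) : ℂ := Kf D1 β * W k P β + Kf D2 β * W k (2 * P) β

lemma Sh_sub_FZ (k P D1 D2 : ℕ) (hk : 1 ≤ k) (hD1 : 1 ≤ D1) (hD2 : 1 ≤ D2)
    (hD1' : D1 ≤ (4 * P) ^ (k - 1)) (hD2' : D2 ≤ (4 * P) ^ (k - 1)) (β : ℝ) (hβ : 0 ≤ β) :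
    ‖Sh k P D1 D2 β - F (AZ k P) (wZ k) (vZ k) β‖ ≤
      (3 * (2 * Real.pi) * ((k + 1) * 4 ^ (k - 1))) * (β * (P : ℝ) ^ k) := by
  obtain ⟨k', rfl⟩ : ∃ k', k = k' + 1 := ⟨k - 1, by omega⟩
  simp only [Nat.add_sub_cancel] at *
  have hpi := Real.pi_pos
  have h1 : Sh (k' + 1) P D1 D2 β - F (AZ (k' + 1) P) (wZ (k' + 1)) (vZ (k' + 1)) β =
      ∑ n ∈ Ico P (2 * P), e (β * (n : ℝ) ^ (k' + 1)) * ((Kf D1 β - 1) - (Kf (gp (k' + 1) n) β - 1)) +
      ∑ n ∈ Ico (2 * P) (4 * P), e (β * (n : ℝ) ^ (k' + 1)) *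
        ((Kf D2 β - 1) - (Kf (gp (k' + 1) n) β - 1)) := by
    rw [FZ_eq (k' + 1) P hk]
    unfold Sh W
    rw [show 2 * (2 * P) = 4 * P by ring, mul_sum, mul_sum,
      ← sum_Ico_consecutive (fun n => e (β * (n : ℝ) ^ (k' + 1)) * Kf (gp (k' + 1) n) β)
        (show P ≤ 2 * P by omega) (show 2 * P ≤ 4 * P by omega)]
    rw [add_sub_add_comm, ← sum_sub_distrib, ← sum_sub_distrib]
    congr 1
    · exact sum_congr rfl fun n _ => by ring
    · exact sum_congr rfl fun n _ => by ring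
  have hterm : ∀ D : ℕ, 1 ≤ D → D ≤ (4 * P) ^ k' → ∀ n : ℕ, n < 4 * P →
      ‖e (β * (n : ℝ) ^ (k' + 1)) * ((Kf D β - 1) - (Kf (gp (k' + 1) n) β - 1))‖ ≤
        2 * Real.pi * β * (((k' + 1 : ℕ) + 1) * (4 * (P : ℝ)) ^ k') := by
    intro D hD hD' n hn
    rw [norm_mul, norm_e, one_mul]
    refine (norm_sub_le _ _).trans ?_
    have h2 := norm_Kf_sub_one D hD β hβ
    have h3 := norm_Kf_sub_one (gp (k' + 1) n) (gp_pos (k' + 1) n (by omega)) β hβ
    have h4 : (D : ℝ) ≤ (4 * (P : ℝ)) ^ k' := by exact_mod_cast hD'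
    have h5 : (gp (k' + 1) n : ℝ) ≤ (k' + 1 : ℕ) * (4 * (P : ℝ)) ^ k' := by
      have h6 := gp_le k' n
      have h7 : (k' + 1) * (n + 1) ^ k' ≤ (k' + 1) * (4 * P) ^ k' := by
        gcongr
        omega
      exact_mod_cast h6.trans h7
    calc ‖Kf D β - 1‖ + ‖Kf (gp (k' + 1) n) β - 1‖
        ≤ 2 * Real.pi * β * D + 2 * Real.pi * β * (gp (k' + 1) n : ℕ) := add_le_add h2 h3
      _ ≤ 2 * Real.pi * β * (4 * (P : ℝ)) ^ k' +
          2 * Real.pi * β * ((k' + 1 : ℕ) * (4 * (P : ℝ)) ^ k') := by gcongr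
      _ = _ := by ring
  rw [h1]
  refine (norm_add_le _ _).trans ?_
  have h2 : ‖∑ n ∈ Ico P (2 * P), e (β * (n : ℝ) ^ (k' + 1)) *
      ((Kf D1 β - 1) - (Kf (gp (k' + 1) n) β - 1))‖ ≤
        P * (2 * Real.pi * β * (((k' + 1 : ℕ) + 1) * (4 * (P : ℝ)) ^ k')) := by
    refine (norm_sum_le _ _).trans ?_
    refine (sum_le_sum fun n hn => hterm D1 hD1 hD1' n (by rw [mem_Ico] at hn; omega)).trans ?_
    rw [sum_const, Nat.card_Ico, nsmul_eq_mul, show 2 * P - P = P by omega]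
  have h3 : ‖∑ n ∈ Ico (2 * P) (4 * P), e (β * (n : ℝ) ^ (k' + 1)) *
      ((Kf D2 β - 1) - (Kf (gp (k' + 1) n) β - 1))‖ ≤
        (2 * P) * (2 * Real.pi * β * (((k' + 1 : ℕ) + 1) * (4 * (P : ℝ)) ^ k')) := by
    refine (norm_sum_le _ _).trans ?_
    refine (sum_le_sum fun n hn => hterm D2 hD2 hD2' n (by rw [mem_Ico] at hn; omega)).trans ?_
    rw [sum_const, Nat.card_Ico, nsmul_eq_mul, show 4 * P - 2 * P = 2 * P by omega]
    push_cast
    exact le_rfl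
  refine (add_le_add h2 h3).trans (le_of_eq ?_)
  rw [mul_pow]
  push_cast
  ring

end Pool.Agent.X30.WP
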