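import Mathlib
import Pool.Agent.X30.WP4

/-!
# Assembly of the deterministic part
-/

set_option autoImplicit false

namespace Pool.Agent.X30.WP

open Finset
open Pool.Agent.H469R2.NK (e norm_e e_add conj_e norm_sum_neg e_zero)

lemma norm_pow_sub_le (x y : ℂ) (B : ℝ) (hx : ‖x‖ ≤ B) (hy : ‖y‖ ≤ B) (s : ℕ) :
    ‖x ^ (s + 1) - y ^ (s + 1)‖ ≤ (s + 1) * ‖x - y‖ * B ^ s := by
  have hB : 0 ≤ B := (norm_nonneg _).trans hx
  induction s with
  | zero => simp
  | succ s ih =>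
    have h1 : x ^ (s + 1 + 1) - y ^ (s + 1 + 1) =
        x * (x ^ (s + 1) - y ^ (s + 1)) + (x - y) * y ^ (s + 1) := by ring
    rw [h1]
    refine (norm_add_le _ _).trans ?_
    rw [norm_mul, norm_mul, norm_pow]
    have h2 : ‖x‖ * ‖x ^ (s + 1) - y ^ (s + 1)‖ ≤ B * ((s + 1) * ‖x - y‖ * B ^ s) := by gcongr
    have h3 : ‖x - y‖ * ‖y‖ ^ (s + 1) ≤ ‖x - y‖ * B ^ (s + 1) := by gcongr
    push_cast
    calc _ ≤ B * ((s + 1) * ‖x - y‖ * B ^ s) + ‖x - y‖ * B ^ (s + 1) := add_le_add h2 h3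
      _ = _ := by ring

lemma add3_pow_le (a b c : ℝ) (ha : 0 ≤ a) (hb : 0 ≤ b) (hc : 0 ≤ c) (s : ℕ) :
    (a + b + c) ^ s ≤ 3 ^ s * (a ^ s + b ^ s + c ^ s) := by
  have ha' : 0 ≤ a ^ s := by positivity
  have hb' : 0 ≤ b ^ s := by positivity
  have hc' : 0 ≤ c ^ s := by positivity
  have key : ∀ m : ℝ, 0 ≤ m → a ≤ m → b ≤ m → c ≤ m → m ^ s ≤ a ^ s + b ^ s + c ^ s →
      (a + b + c) ^ s ≤ 3 ^ s * (a ^ s + b ^ s + c ^ s) := by
    intro m hm h1 h2 h3 h4
    calc (a + b + c) ^ s ≤ (3 * m) ^ s := by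
          apply pow_le_pow_left₀ (by positivity)
          linarith
      _ = 3 ^ s * m ^ s := mul_pow _ _ _
      _ ≤ _ := by gcongr
  rcases le_total a b with hab | hab
  · rcases le_total b c with hbc | hbc
    · exact key c hc (hab.trans hbc) hbc le_rfl (by linarith)
    · exact key b hb hab le_rfl hbc (by linarith)
  · rcases le_total a c with hac | hac
    · exact key c hc hac (hab.trans hac) le_rfl (by linarith)
    · exact key a ha le_rfl hab hac (by linarith)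

lemma near_bound (k s : ℕ) (hs : 1 ≤ s) (C3 ρ ξ κ : ℝ) (hC3 : 0 ≤ C3) (hρ : ρ + 3 * ξ = 1)
    (hρ0 : 0 ≤ ρ) (hξ : 0 < ξ) (hκ : κ ≤ ξ) (P : ℝ) (hP : 1 ≤ P) (x y : ℂ) (hx : ‖x‖ ≤ 3 * P)
    (hy : ‖y‖ ≤ 3 * P) (β : ℝ) (hβ : β ≤ P ^ (ξ - k))
    (hxy : ‖x - y‖ ≤ P ^ ρ + C3 * (β * P ^ k)) :
    ‖x ^ s - y ^ s‖ ≤ s * (1 + C3) * 3 ^ (s - 1) * P ^ ((s : ℝ) - ξ - κ) := by
  have hP0 : 0 < P := by linarith
  obtain ⟨s', rfl⟩ : ∃ s', s = s' + 1 := ⟨s - 1, by omega⟩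
  rw [Nat.add_sub_cancel]
  refine (norm_pow_sub_le x y (3 * P) hx hy s').trans ?_
  have h1 : β * P ^ k ≤ P ^ ξ := by
    calc β * P ^ k ≤ P ^ (ξ - k) * P ^ k := by gcongr
      _ = P ^ ξ := by
          rw [← Real.rpow_natCast P k, ← Real.rpow_add hP0]
          congr 1; ring
  have h2 : P ^ ρ ≤ P ^ (1 - ξ - κ) := Real.rpow_le_rpow_of_exponent_le hP (by linarith)
  have h3 : P ^ ξ ≤ P ^ (1 - ξ - κ) := Real.rpow_le_rpow_of_exponent_le hP (by linarith)
  have h4 : ‖x - y‖ ≤ (1 + C3) * P ^ (1 - ξ - κ) := by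
    calc ‖x - y‖ ≤ P ^ ρ + C3 * (β * P ^ k) := hxy
      _ ≤ P ^ (1 - ξ - κ) + C3 * P ^ (1 - ξ - κ) := by
          gcongr
          exact h1.trans h3
      _ = _ := by ring
  calc ((s' : ℝ) + 1) * ‖x - y‖ * (3 * P) ^ s'
      ≤ ((s' : ℝ) + 1) * ((1 + C3) * P ^ (1 - ξ - κ)) * (3 * P) ^ s' := by gcongr
    _ = ((s' : ℝ) + 1) * (1 + C3) * 3 ^ s' * (P ^ (1 - ξ - κ) * P ^ s') := by
        rw [mul_pow]; ring
    _ = _ := by
        rw [← Real.rpow_natCast P s', ← Real.rpow_add hP0]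
        push_cast
        congr 2
        ring

lemma far_bound (k s : ℕ) (hk : 1 ≤ k) (hs : 2 ≤ s) (C1 ρ ξ κ κ1 : ℝ) (hC1 : 0 ≤ C1) (hξ : 0 < ξ)
    (hκ0 : 0 < κ) (hκ : κ ≤ ξ) (hκ1 : κ ≤ κ1) (hρ : ρ * s ≤ s - k - κ) (P : ℝ) (hP : 1 ≤ P) (x y : ℂ)
    (U V β : ℝ) (hU : 0 ≤ U) (hV : 0 ≤ V) (hx : ‖x‖ ≤ P ^ ρ + U + V) (hβ1 : P ^ (ξ - k) ≤ β)
    (hβ2 : β ≤ 1 / 2) (hy : ‖y‖ ≤ 1 / (β * P ^ (k - 1)))
    (hU' : β * U ^ s ≤ C1 * P ^ ((s : ℝ) - k - κ1)) (hV' : β * V ^ s ≤ C1 * (2 * P) ^ ((s : ℝ) - k - κ1)) :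
    β * ‖x ^ s - y ^ s‖ ≤ (3 ^ s * (1 + C1 + C1 * 2 ^ s) + 1) * P ^ ((s : ℝ) - k - κ) := by
  have hP0 : 0 < P := by linarith
  have hβ0 : 0 < β := lt_of_lt_of_le (by positivity) hβ1
  have hmono : P ^ ((s : ℝ) - k - κ1) ≤ P ^ ((s : ℝ) - k - κ) :=
    Real.rpow_le_rpow_of_exponent_le hP (by linarith)
  have h1 : β * (P ^ ρ) ^ s ≤ P ^ ((s : ℝ) - k - κ) := by
    calc β * (P ^ ρ) ^ s ≤ 1 * (P ^ ρ) ^ s := by gcongr; linarith
      _ = P ^ (ρ * s) := by rw [one_mul, ← Real.rpow_natCast (P ^ ρ) s, ← Real.rpow_mul hP0.le]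
      _ ≤ _ := Real.rpow_le_rpow_of_exponent_le hP hρ
  have h2 : β * V ^ s ≤ C1 * 2 ^ s * P ^ ((s : ℝ) - k - κ) := by
    refine hV'.trans ?_
    rw [Real.mul_rpow (by norm_num) hP0.le]
    have h3 : (2 : ℝ) ^ ((s : ℝ) - k - κ1) ≤ 2 ^ s := by
      rw [← Real.rpow_natCast 2 s]
      apply Real.rpow_le_rpow_of_exponent_le (by norm_num)
      have : (0 : ℝ) ≤ k := by positivity
      linarith
    calc C1 * ((2 : ℝ) ^ ((s : ℝ) - k - κ1) * P ^ ((s : ℝ) - k - κ1))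
        ≤ C1 * (2 ^ s * P ^ ((s : ℝ) - k - κ)) := by gcongr
      _ = _ := by ring
  have h4 : β * ‖x‖ ^ s ≤ 3 ^ s * (1 + C1 + C1 * 2 ^ s) * P ^ ((s : ℝ) - k - κ) := by
    calc β * ‖x‖ ^ s ≤ β * (P ^ ρ + U + V) ^ s := by gcongr
      _ ≤ β * (3 ^ s * ((P ^ ρ) ^ s + U ^ s + V ^ s)) := by
          gcongr
          exact add3_pow_le _ _ _ (by positivity) hU hV s
      _ = 3 ^ s * (β * (P ^ ρ) ^ s + β * U ^ s + β * V ^ s) := by ring
      _ ≤ 3 ^ s * (P ^ ((s : ℝ) - k - κ) + C1 * P ^ ((s : ℝ) - k - κ) +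
            C1 * 2 ^ s * P ^ ((s : ℝ) - k - κ)) := by
          have hU2 : β * U ^ s ≤ C1 * P ^ ((s : ℝ) - k - κ) := hU'.trans (by gcongr)
          exact mul_le_mul_of_nonneg_left (add_le_add (add_le_add h1 hU2) h2) (by positivity)
      _ = _ := by ring
  have h5 : β * ‖y‖ ^ s ≤ P ^ ((s : ℝ) - k - κ) := by
    obtain ⟨s', rfl⟩ : ∃ s', s = s' + 1 := ⟨s - 1, by omega⟩
    obtain ⟨k', rfl⟩ : ∃ k', k = k' + 1 := ⟨k - 1, by omega⟩
    rw [Nat.add_sub_cancel] at hy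
    have h6 : β * ‖y‖ ≤ P ^ (-(k' : ℝ)) := by
      calc β * ‖y‖ ≤ β * (1 / (β * P ^ k')) := by gcongr
        _ = 1 / P ^ k' := by field_simp
        _ = _ := by rw [Real.rpow_neg hP0.le, Real.rpow_natCast, one_div]
    have h7 : ‖y‖ ≤ P ^ (1 - ξ) := by
      refine hy.trans ?_
      calc 1 / (β * P ^ k') ≤ 1 / (P ^ (ξ - ((k' + 1 : ℕ) : ℝ)) * P ^ k') := by gcongr
        _ = P ^ (1 - ξ) := by
            rw [← Real.rpow_natCast P k', ← Real.rpow_add hP0, one_div, ← Real.rpow_neg hP0.le]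
            congr 1
            push_cast
            ring
    calc β * ‖y‖ ^ (s' + 1) = (β * ‖y‖) * ‖y‖ ^ s' := by ring
      _ ≤ P ^ (-(k' : ℝ)) * (P ^ (1 - ξ)) ^ s' := by gcongr
      _ = P ^ (-(k' : ℝ) + (1 - ξ) * s') := by
          rw [← Real.rpow_natCast (P ^ (1 - ξ)) s', ← Real.rpow_mul hP0.le, ← Real.rpow_add hP0]
      _ ≤ _ := by
          apply Real.rpow_le_rpow_of_exponent_le hP
          have h8 : (1 : ℝ) ≤ s' := by exact_mod_cast (by omega : 1 ≤ s')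
          push_cast
          nlinarith
  calc β * ‖x ^ s - y ^ s‖ ≤ β * (‖x‖ ^ s + ‖y‖ ^ s) := by
        gcongr
        refine (norm_sub_le _ _).trans ?_
        rw [norm_pow, norm_pow]
    _ = β * ‖x‖ ^ s + β * ‖y‖ ^ s := by ring
    _ ≤ 3 ^ s * (1 + C1 + C1 * 2 ^ s) * P ^ ((s : ℝ) - k - κ) + P ^ ((s : ℝ) - k - κ) :=
        add_le_add h4 h5
    _ = _ := by ring

lemma norm_FZ_le' (k P : ℕ) (hk : 1 ≤ k) (β : ℝ) :
    ‖F (AZ k P) (wZ k) (vZ k) β‖ ≤ 3 * P := by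
  rw [FZ_eq k P hk]
  refine (norm_sum_le _ _).trans ?_
  calc ∑ n ∈ Ico P (4 * P), ‖e (β * (n : ℝ) ^ k) * Kf (gp k n) β‖ ≤ ∑ n ∈ Ico P (4 * P), (1 : ℝ) := by
        refine sum_le_sum fun n _ => ?_
        rw [norm_mul, norm_e, one_mul]
        exact norm_Kf_le_one _ _
    _ = 3 * P := by
        rw [sum_const, Nat.card_Ico, nsmul_eq_mul, mul_one, show 4 * P - P = 3 * P by omega]
        push_cast
        ring

lemma norm_FA_le (P : ℕ) (a : ℕ → ℕ) (β : ℝ) :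
    ‖F (Ico P (4 * P)) (fun _ => 1) a β‖ ≤ 3 * P := by
  unfold F
  refine (norm_sum_le _ _).trans ?_
  calc ∑ n ∈ Ico P (4 * P), ‖((1 : ℝ) : ℂ) * e (β * (a n : ℝ))‖ ≤ ∑ n ∈ Ico P (4 * P), (1 : ℝ) := by
        refine sum_le_sum fun n _ => ?_
        rw [norm_mul, norm_e, mul_one]
        simp
    _ = 3 * P := by
        rw [sum_const, Nat.card_Ico, nsmul_eq_mul, mul_one, show 4 * P - P = 3 * P by omega]
        push_cast
        ring

/-- comparison of two systems -/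
lemma compare' {ι κ : Type*} [DecidableEq ι] [DecidableEq κ] (A : Finset ι) (w : ι → ℝ) (v : ι → ℕ)
    (B : Finset κ) (w' : κ → ℝ) (v' : κ → ℕ) (s N M : ℕ) (hN : N < M)
    (hA : ∀ f ∈ Fintype.piFinset (fun _ : Fin s => A), ∑ j, v (f j) < M)
    (hB : ∀ f ∈ Fintype.piFinset (fun _ : Fin s => B), ∑ j, v' (f j) < M) :
    (M : ℝ) * (rep B w' v' s N - rep A w v s N) ≤ 2 * ∑ b ∈ range (M / 2 + 1),
      ‖F A w v ((b : ℝ) / M) ^ s - F B w' v' ((b : ℝ) / M) ^ s‖ := by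
  have h1 := fourier A w v s N M hN hA
  have h2 := fourier B w' v' s N M hN hB
  have hM : 0 < M := by omega
  have hM' : (0 : ℝ) < M := by exact_mod_cast hM
  have h3 : (M : ℂ) * (((rep A w v s N - rep B w' v' s N : ℝ)) : ℂ) =
      ∑ b ∈ range M, (F A w v ((b : ℝ) / M) ^ s - F B w' v' ((b : ℝ) / M) ^ s) *
        e (-((b : ℝ) / M * N)) := by
    push_cast
    rw [mul_sub, ← h1, ← h2, ← sum_sub_distrib]
    refine sum_congr rfl fun b _ => by ring
  have h4 : (M : ℝ) * |rep A w v s N - rep B w' v' s N| ≤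
      ∑ b ∈ range M, ‖F A w v ((b : ℝ) / M) ^ s - F B w' v' ((b : ℝ) / M) ^ s‖ := by
    have h5 : ‖(M : ℂ) * (((rep A w v s N - rep B w' v' s N : ℝ)) : ℂ)‖ =
        (M : ℝ) * |rep A w v s N - rep B w' v' s N| := by
      rw [norm_mul, Complex.norm_natCast, Complex.norm_real, Real.norm_eq_abs]
    rw [← h5, h3]
    refine (norm_sum_le _ _).trans (le_of_eq ?_)
    refine sum_congr rfl fun b _ => ?_
    rw [norm_mul, norm_e, mul_one]
  have h6 := sum_half M (fun b => ‖F A w v ((b : ℝ) / M) ^ s - F B w' v' ((b : ℝ) / M) ^ s‖)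
    (fun _ => norm_nonneg _) (by
      intro b hb1 hb2
      have e1 : (((M - b : ℕ) : ℝ)) / M = 1 - (b : ℝ) / M := by
        rw [Nat.cast_sub hb2.le, sub_div, div_self hM'.ne']
      simp only [e1, norm_F_reflect]
      rw [← map_pow, ← map_pow, ← map_sub, Complex.norm_conj])
  refine le_trans ?_ (h4.trans h6)
  apply mul_le_mul_of_nonneg_left _ hM'.le
  have h9 := neg_abs_le (rep A w v s N - rep B w' v' s N)
  linarith

lemma rep_one {ι : Type*} [DecidableEq ι] (A : Finset ι) (v : ι → ℕ) (s N : ℕ) :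
    rep A (fun _ => (1 : ℝ)) v s N =
      (((Fintype.piFinset (fun _ : Fin s => A)).filter (fun f => ∑ j, v (f j) = N)).card : ℝ) := by
  unfold rep
  rw [← sum_filter]
  simp

/-- the deterministic circle method -/
theorem determ (k q s : ℕ) (hq1 : 1 ≤ q) (hq : q + 2 ≤ k) (hs : (2 : ℝ) ^ q < s) (η : ℝ)
    (hη : ((k : ℝ) - η) * (s + q * 2 ^ q) < s * (q + 1)) (ρ : ℝ) (hρ0 : 0 ≤ ρ)
    (hρ : ρ * s < s - k) :
    ∃ c : ℝ, 0 < c ∧ ∃ P0 : ℕ, ∀ P D1 D2 : ℕ, P0 ≤ P → 1 ≤ D1 → 1 ≤ D2 → (P : ℝ) ^ η ≤ 2 * D1 →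
      ((2 * P : ℕ) : ℝ) ^ η ≤ 2 * D2 → D1 ≤ (4 * P) ^ (k - 1) → D2 ≤ (4 * P) ^ (k - 1) →
      ∀ N M : ℕ, 2 * s * P ^ k ≤ N → N < s * (2 ^ (k + 1) * P ^ k) → M = 2 * s * (4 * P) ^ k →
      ∀ a : ℕ → ℕ, (∀ n ∈ Ico P (4 * P), a n < 2 * (4 * P) ^ k) →
      (∀ b : ℕ, b ≤ M / 2 →
        ‖F (Ico P (4 * P)) (fun _ => 1) a ((b : ℝ) / M) - Sh k P D1 D2 ((b : ℝ) / M)‖ ≤
          (P : ℝ) ^ ρ) →
      c * ((P : ℝ) ^ s / (P : ℝ) ^ k) ≤ (((Fintype.piFinset (fun _ : Fin s => Ico P (4 * P))).filter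
        (fun x => ∑ i, a (x i) = N)).card : ℝ) := by
  have h2q : (2 : ℝ) ≤ 2 ^ q := by
    calc (2 : ℝ) = 2 ^ 1 := by norm_num
      _ ≤ 2 ^ q := pow_le_pow_right₀ (by norm_num) hq1
  have hs2' : (2 : ℝ) < s := lt_of_le_of_lt h2q hs
  have hs2 : 2 ≤ s := by exact_mod_cast hs2'.le
  have hk0 : (3 : ℝ) ≤ k := by exact_mod_cast (by omega : 3 ≤ k)
  have hρ1 : ρ < 1 := by
    by_contra hcon
    push Not at hcon
    nlinarith
  set ξ : ℝ := (1 - ρ) / 3 with hξdef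
  have hξ : 0 < ξ := by rw [hξdef]; linarith
  have hξ1 : ξ ≤ 1 / 3 := by rw [hξdef]; linarith
  have hρξ : ρ + 3 * ξ = 1 := by rw [hξdef]; ring
  obtain ⟨κ1, C1, hκ1, hC1, hblock⟩ := block_bound k q s hq1 hq hs2 hs η hη ξ hξ
  obtain ⟨c, hc, hrep⟩ := rep_lower k s (by omega) (by omega)
  set κ : ℝ := min κ1 (min ξ (s - k - ρ * s)) with hκdef
  have hκ : 0 < κ := lt_min hκ1 (lt_min hξ (by linarith))
  have hκκ1 : κ ≤ κ1 := min_le_left _ _
  have hκξ : κ ≤ ξ := (min_le_right _ _).trans (min_le_left _ _)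
  have hκρ : κ ≤ s - k - ρ * s := (min_le_right _ _).trans (min_le_right _ _)
  set C3 : ℝ := 3 * (2 * Real.pi) * ((k + 1) * 4 ^ (k - 1)) with hC3
  have hC30 : 0 ≤ C3 := by positivity
  set c4 : ℝ := 2 * s * 4 ^ k with hc4
  have hc40 : 0 < c4 := by positivity
  set E1 : ℝ := s * (1 + C3) * 3 ^ (s - 1) with hE1
  have hE10 : 0 ≤ E1 := by positivity
  set E2 : ℝ := 3 ^ s * (1 + C1 + C1 * 2 ^ s) + 1 with hE2
  have hE20 : 0 ≤ E2 := by positivity
  set K1 : ℝ := 2 * (E1 + (E1 + E2) * c4 * (1 + |Real.log c4|)) with hK1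
  set K2 : ℝ := 2 * ((E1 + E2) * c4 * (k * (2 / κ))) with hK2
  have hK10 : 0 ≤ K1 := by positivity
  have hK20 : 0 ≤ K2 := by positivity
  -- the threshold
  have htend : Filter.Tendsto (fun P : ℕ => (P : ℝ) ^ (κ / 2)) Filter.atTop Filter.atTop :=
    (tendsto_rpow_atTop (by positivity)).comp tendsto_natCast_atTop_atTop
  obtain ⟨P1, hP1⟩ := Filter.eventually_atTop.1 (htend.eventually_gt_atTop ((K1 + K2) / (c4 * (c / 2))))
  refine ⟨c / 2, by positivity, max P1 (2 * s), fun P D1 D2 hPP hD1 hD2 hD1η hD2η hD1' hD2' N M hN1 hN2 hM a ha hb => ?_⟩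
  have hPP1 : P1 ≤ P := (le_max_left _ _).trans hPP
  have hP2s : 2 * s ≤ P := (le_max_right _ _).trans hPP
  have hP4 : 4 ≤ P := by omega
  have hP1R : (1 : ℝ) ≤ P := by exact_mod_cast (by omega : 1 ≤ P)
  have hP0R : (0 : ℝ) < P := by linarith
  have hM' : (M : ℝ) = c4 * (P : ℝ) ^ k := by
    rw [hM, hc4]; push_cast; rw [mul_pow]; ring
  have hM0 : 0 < M := by rw [hM]; positivity
  have hM0R : (0 : ℝ) < M := by exact_mod_cast hM0
  have hbig := hP1 P hPP1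
  -- comparison
  have hcmp : (M : ℝ) * (rep (AZ k P) (wZ k) (vZ k) s N - rep (Ico P (4 * P)) (fun _ => (1 : ℝ)) a s N) ≤
      (M : ℝ) * ((c / 2) * ((P : ℝ) ^ s / (P : ℝ) ^ k)) := by
    refine (compare' (Ico P (4 * P)) (fun _ => (1 : ℝ)) a (AZ k P) (wZ k) (vZ k) s N M ?_ ?_ ?_).trans ?_
    · -- N < M
      rw [hM, mul_pow]
      have h1 : 2 ^ (k + 1) ≤ 2 * 4 ^ k := by
        have : (4 : ℕ) ^ k = 2 ^ k * 2 ^ k := by rw [← mul_pow]; norm_num
        have h2 : 1 ≤ 2 ^ k := Nat.one_le_two_pow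
        rw [this, pow_succ]
        nlinarith
      calc N < s * (2 ^ (k + 1) * P ^ k) := hN2
        _ ≤ s * (2 * 4 ^ k * P ^ k) := by gcongr
        _ = _ := by ring
    · intro f hf
      rw [Fintype.mem_piFinset] at hf
      calc ∑ j, a (f j) < ∑ _j : Fin s, 2 * (4 * P) ^ k := by
            apply sum_lt_sum_of_nonempty
            · exact ⟨⟨0, by omega⟩, mem_univ _⟩
            · exact fun i _ => ha _ (hf i)
        _ = M := by
            rw [sum_const, card_univ, Fintype.card_fin, smul_eq_mul, hM]; ring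
    · intro f hf
      rw [Fintype.mem_piFinset] at hf
      calc ∑ j, vZ k (f j) < ∑ _j : Fin s, 2 * (4 * P) ^ k := by
            apply sum_lt_sum_of_nonempty
            · exact ⟨⟨0, by omega⟩, mem_univ _⟩
            · intro i _
              have h1 := mem_AZ.1 (hf i)
              unfold vZ
              have h2 := gp_add k (f i).1
              have h3 : ((f i).1 + 1) ^ k ≤ (4 * P) ^ k := Nat.pow_le_pow_left (by omega) k
              omega
        _ = M := by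
            rw [sum_const, card_univ, Fintype.card_fin, smul_eq_mul, hM]; ring
    · -- the main inequality
      set T : ℕ → ℝ := fun b => ‖F (Ico P (4 * P)) (fun _ => (1 : ℝ)) a ((b : ℝ) / M) ^ s -
        F (AZ k P) (wZ k) (vZ k) ((b : ℝ) / M) ^ s‖ with hT
      have hdiff : ∀ b : ℕ, b ≤ M / 2 → ‖F (Ico P (4 * P)) (fun _ => (1 : ℝ)) a ((b : ℝ) / M) -
          F (AZ k P) (wZ k) (vZ k) ((b : ℝ) / M)‖ ≤
            (P : ℝ) ^ ρ + C3 * ((b : ℝ) / M * (P : ℝ) ^ k) := by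
        intro b hbM
        have h1 := hb b hbM
        have h2 := Sh_sub_FZ k P D1 D2 (by omega) hD1 hD2 hD1' hD2' ((b : ℝ) / M) (by positivity)
        have h3 : F (Ico P (4 * P)) (fun _ => (1 : ℝ)) a ((b : ℝ) / M) -
            F (AZ k P) (wZ k) (vZ k) ((b : ℝ) / M) =
            (F (Ico P (4 * P)) (fun _ => (1 : ℝ)) a ((b : ℝ) / M) - Sh k P D1 D2 ((b : ℝ) / M)) +
            (Sh k P D1 D2 ((b : ℝ) / M) - F (AZ k P) (wZ k) (vZ k) ((b : ℝ) / M)) := by ring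
        rw [h3]
        exact (norm_add_le _ _).trans (add_le_add h1 h2)
      have hT0 : T 0 ≤ E1 * (P : ℝ) ^ ((s : ℝ) - κ) := by
        have h1 := near_bound k s (by omega) C3 ρ ξ κ hC30 hρξ hρ0 hξ hκξ P hP1R _ _
          (norm_FA_le P a (((0 : ℕ) : ℝ) / M)) (norm_FZ_le' k P (by omega) (((0 : ℕ) : ℝ) / M))
          (((0 : ℕ) : ℝ) / M) (by simp only [Nat.cast_zero, zero_div]; positivity)
          (hdiff 0 (Nat.zero_le _))
        refine h1.trans ?_
        rw [← hE1]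
        gcongr
        linarith
      have hTb : ∀ b : ℕ, 1 ≤ b → b ≤ M / 2 →
          T b ≤ (E1 + E2) * (P : ℝ) ^ ((s : ℝ) - k - κ) * (M * (1 / b)) := by
        intro b hb1 hbM
        have hb1R : (1 : ℝ) ≤ b := by exact_mod_cast hb1
        have hb0 : (0 : ℝ) < b := by linarith
        have hβ0 : 0 < (b : ℝ) / M := by positivity
        have hβ2 : (b : ℝ) / M ≤ 1 / 2 := by
          rw [div_le_div_iff₀ hM0R (by norm_num)]
          have : b * 2 ≤ M := by omega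
          have h' : (b : ℝ) * 2 ≤ M := by exact_mod_cast this
          linarith
        rcases le_or_gt ((b : ℝ) / M) ((P : ℝ) ^ (ξ - k)) with hcase | hcase
        · have h1 := near_bound k s (by omega) C3 ρ ξ κ hC30 hρξ hρ0 hξ hκξ P hP1R _ _
            (norm_FA_le P a ((b : ℝ) / M)) (norm_FZ_le' k P (by omega) ((b : ℝ) / M))
            ((b : ℝ) / M) hcase (hdiff b hbM)
          have h2 : 1 ≤ (P : ℝ) ^ (ξ - k) * (M * (1 / b)) := by
            have h3 : (b : ℝ) / M * (M * (1 / b)) = 1 := by field_simp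
            calc (1 : ℝ) = (b : ℝ) / M * (M * (1 / b)) := h3.symm
              _ ≤ _ := by gcongr
          rw [← hE1] at h1
          calc T b ≤ E1 * (P : ℝ) ^ ((s : ℝ) - ξ - κ) := h1
            _ ≤ E1 * (P : ℝ) ^ ((s : ℝ) - ξ - κ) * ((P : ℝ) ^ (ξ - k) * (M * (1 / b))) :=
                le_mul_of_one_le_right (by positivity) h2
            _ = E1 * ((P : ℝ) ^ ((s : ℝ) - ξ - κ) * (P : ℝ) ^ (ξ - k)) * (M * (1 / b)) := by ring
            _ = E1 * (P : ℝ) ^ ((s : ℝ) - k - κ) * (M * (1 / b)) := by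
                rw [← Real.rpow_add hP0R]
                congr 3
                ring
            _ ≤ _ := by
                gcongr
                linarith
        · have hU := hblock P D1 (by omega) hD1 hD1η ((b : ℝ) / M) hcase.le hβ2
          have hβ3 : (((2 * P : ℕ)) : ℝ) ^ (ξ - k) ≤ (b : ℝ) / M := by
            refine le_trans ?_ hcase.le
            apply Real.rpow_le_rpow_of_nonpos hP0R
            · push_cast; linarith
            · linarith
          have hV := hblock (2 * P) D2 (by omega) hD2 hD2η ((b : ℝ) / M) hβ3 hβ2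
          have h1 := far_bound k s (by omega) hs2 C1 ρ ξ κ κ1 hC1.le hξ hκ hκξ hκκ1 (by linarith) P hP1R
            (F (Ico P (4 * P)) (fun _ => (1 : ℝ)) a ((b : ℝ) / M))
            (F (AZ k P) (wZ k) (vZ k) ((b : ℝ) / M))
            (‖Kf D1 ((b : ℝ) / M)‖ * ‖W k P ((b : ℝ) / M)‖)
            (‖Kf D2 ((b : ℝ) / M)‖ * ‖W k (2 * P) ((b : ℝ) / M)‖) ((b : ℝ) / M)
            (by positivity) (by positivity) (by
              have h2 := hb b hbM
              have h3 : ‖Sh k P D1 D2 ((b : ℝ) / M)‖ ≤ ‖Kf D1 ((b : ℝ) / M)‖ * ‖W k P ((b : ℝ) / M)‖ +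
                  ‖Kf D2 ((b : ℝ) / M)‖ * ‖W k (2 * P) ((b : ℝ) / M)‖ := by
                unfold Sh
                refine (norm_add_le _ _).trans ?_
                rw [norm_mul, norm_mul]
              have h4 := norm_add_le (F (Ico P (4 * P)) (fun _ => (1 : ℝ)) a ((b : ℝ) / M) -
                Sh k P D1 D2 ((b : ℝ) / M)) (Sh k P D1 D2 ((b : ℝ) / M))
              rw [sub_add_cancel] at h4
              linarith) hcase.le hβ2
            (norm_FZ_le k P (by omega) (by omega) hβ0 hβ2) hU (by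
              have h5 := hV
              push_cast at h5
              exact h5)
          rw [← hE2] at h1
          have h3 : (M * (1 / b) : ℝ) * ((b : ℝ) / M) = 1 := by field_simp
          calc T b = (M * (1 / b) : ℝ) * ((b : ℝ) / M * T b) := by
                rw [← mul_assoc, h3, one_mul]
            _ ≤ (M * (1 / b) : ℝ) * (E2 * (P : ℝ) ^ ((s : ℝ) - k - κ)) := by gcongr
            _ = E2 * (P : ℝ) ^ ((s : ℝ) - k - κ) * (M * (1 / b)) := by ring
            _ ≤ _ := by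
                gcongr
                linarith
      -- sum over b
      have hsum : ∑ b ∈ range (M / 2 + 1), T b ≤ E1 * (P : ℝ) ^ ((s : ℝ) - κ) +
          (E1 + E2) * (P : ℝ) ^ ((s : ℝ) - k - κ) * (M * (1 + Real.log M)) := by
        rw [sum_range_succ', add_comm]
        refine add_le_add hT0 ?_
        calc ∑ i ∈ range (M / 2), T (i + 1)
            ≤ ∑ i ∈ range (M / 2), (E1 + E2) * (P : ℝ) ^ ((s : ℝ) - k - κ) *
                (M * (1 / ((i + 1 : ℕ) : ℝ))) := by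
              refine sum_le_sum fun i hi => ?_
              rw [mem_range] at hi
              exact hTb (i + 1) (by omega) (by omega)
          _ = (E1 + E2) * (P : ℝ) ^ ((s : ℝ) - k - κ) * (M * (harmonic (M / 2) : ℝ)) := by
              rw [← mul_sum, ← mul_sum]
              congr 2
              unfold harmonic
              push_cast
              refine sum_congr rfl fun i _ => by rw [one_div]
          _ ≤ _ := by
              gcongr
              refine (harmonic_le_one_add_log _).trans ?_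
              gcongr
              · have : 1 ≤ M / 2 := by
                  have : 2 ≤ M := by
                    rw [hM]
                    calc 2 ≤ 2 * s := by omega
                      _ ≤ 2 * s * (4 * P) ^ k := Nat.le_mul_of_pos_right _ (by positivity)
                  omega
                exact_mod_cast this
              · exact_mod_cast Nat.div_le_self M 2
      have hlog : Real.log M ≤ |Real.log c4| + k * (2 / κ) * (P : ℝ) ^ (κ / 2) := by
        rw [hM', Real.log_mul hc40.ne' (by positivity), Real.log_pow]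
        have h1 := Real.log_le_rpow_div hP0R.le (by positivity : 0 < κ / 2)
        have h2 : (P : ℝ) ^ (κ / 2) / (κ / 2) = (2 / κ) * (P : ℝ) ^ (κ / 2) := by field_simp
        rw [h2] at h1
        have h3 := le_abs_self (Real.log c4)
        have h4 : (k : ℝ) * Real.log P ≤ k * ((2 / κ) * (P : ℝ) ^ (κ / 2)) := by gcongr
        linarith
      have hrep' := hrep P N hP2s hN1 hN2
      have hPk1 : (1 : ℝ) ≤ (P : ℝ) ^ (κ / 2) := Real.one_le_rpow hP1R (by positivity)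
      have hsplit : (P : ℝ) ^ ((s : ℝ) - k - κ) * M = c4 * (P : ℝ) ^ ((s : ℝ) - κ) := by
        rw [hM', ← Real.rpow_natCast (P : ℝ) k]
        have : (P : ℝ) ^ ((s : ℝ) - k - κ) * (P : ℝ) ^ (k : ℝ) = (P : ℝ) ^ ((s : ℝ) - κ) := by
          rw [← Real.rpow_add hP0R]
          congr 1
          ring
        rw [← this]
        ring
      have hmain : (M : ℝ) * ((c / 2) * ((P : ℝ) ^ s / (P : ℝ) ^ k)) =
          c4 * (c / 2) * ((P : ℝ) ^ κ * (P : ℝ) ^ ((s : ℝ) - κ)) := by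
        rw [← Real.rpow_add hP0R, add_sub_cancel, Real.rpow_natCast, hM']
        field_simp
      calc 2 * ∑ b ∈ range (M / 2 + 1), T b
          ≤ 2 * (E1 * (P : ℝ) ^ ((s : ℝ) - κ) +
            (E1 + E2) * (P : ℝ) ^ ((s : ℝ) - k - κ) * (M * (1 + Real.log M))) := by gcongr
        _ = 2 * (E1 + (E1 + E2) * c4 * (1 + Real.log M)) * (P : ℝ) ^ ((s : ℝ) - κ) := by
            rw [show (E1 + E2) * (P : ℝ) ^ ((s : ℝ) - k - κ) * (M * (1 + Real.log M)) =
              (E1 + E2) * ((P : ℝ) ^ ((s : ℝ) - k - κ) * M) * (1 + Real.log M) by ring, hsplit]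
            ring
        _ ≤ 2 * (E1 + (E1 + E2) * c4 * (1 + (|Real.log c4| + k * (2 / κ) * (P : ℝ) ^ (κ / 2)))) *
              (P : ℝ) ^ ((s : ℝ) - κ) := by gcongr
        _ = (K1 + K2 * (P : ℝ) ^ (κ / 2)) * (P : ℝ) ^ ((s : ℝ) - κ) := by
            rw [hK1, hK2]; ring
        _ ≤ ((K1 + K2) * (P : ℝ) ^ (κ / 2)) * (P : ℝ) ^ ((s : ℝ) - κ) := by
            gcongr
            nlinarith
        _ ≤ (c4 * (c / 2) * (P : ℝ) ^ (κ / 2) * (P : ℝ) ^ (κ / 2)) * (P : ℝ) ^ ((s : ℝ) - κ) := by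
            have h1 : K1 + K2 ≤ c4 * (c / 2) * (P : ℝ) ^ (κ / 2) := by
              rw [div_lt_iff₀ (by positivity)] at hbig
              linarith
            gcongr
        _ = M * ((c / 2) * ((P : ℝ) ^ s / (P : ℝ) ^ k)) := by
            rw [hmain, show c4 * (c / 2) * (P : ℝ) ^ (κ / 2) * (P : ℝ) ^ (κ / 2) =
              c4 * (c / 2) * ((P : ℝ) ^ (κ / 2) * (P : ℝ) ^ (κ / 2)) by ring, ← Real.rpow_add hP0R,
              add_halves]
            ring
  have hrep' := hrep P N hP2s hN1 hN2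
  have h1 := le_of_mul_le_mul_left hcmp hM0R
  rw [rep_one] at h1
  linarith

end Pool.Agent.X30.WP
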