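import Mathlib
import Pool.Agent.X30.WP5

/-!
# Concentration for the perturbed exponential sums
-/

set_option autoImplicit false

namespace Pool.Agent.X30.WP

open Finset MeasureTheory ProbabilityTheory
open Pool.Agent.H469R2.NK (e norm_e e_add conj_e norm_sum_neg e_zero)

variable {Ω : Type*} [MeasurableSpace Ω] {μ : Measure Ω} [IsProbabilityMeasure μ]

lemma unif_ae (X : Ω → ℕ) (hX : Measurable X) (D : ℕ) (hD : 1 ≤ D)
    (hu : ∀ d < D, μ {ω | X ω = d} = 1 / (D : ENNReal)) : ∀ᵐ ω ∂μ, X ω < D := by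
  have hms : ∀ d : ℕ, MeasurableSet {ω | X ω = d} := fun d => hX (measurableSet_singleton d)
  have h2 : {ω | X ω < D} = ⋃ d ∈ range D, {ω | X ω = d} := by
    ext ω
    simp
  have hmeas : MeasurableSet {ω | X ω < D} := by
    rw [h2]
    exact Finset.measurableSet_biUnion _ fun d _ => hms d
  have h1 : μ {ω | X ω < D} = 1 := by
    rw [h2, measure_biUnion_finset]
    · rw [sum_congr rfl (fun d hd => hu d (mem_range.1 hd)), sum_const, card_range, nsmul_eq_mul]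
      rw [one_div, ENNReal.mul_inv_cancel]
      · exact_mod_cast (by omega : D ≠ 0)
      · exact ENNReal.natCast_ne_top D
    · intro a _ b _ hab
      exact Set.disjoint_left.2 (fun ω h1 h2 => hab (h1.symm.trans h2))
    · exact fun d _ => hms d
  exact (mem_ae_iff_prob_eq_one hmeas).2 h1

lemma unif_integral (X : Ω → ℕ) (hX : Measurable X) (D : ℕ) (hD : 1 ≤ D)
    (hu : ∀ d < D, μ {ω | X ω = d} = 1 / (D : ENNReal)) (g : ℕ → ℝ) :
    ∫ ω, g (X ω) ∂μ = (∑ d ∈ range D, g d) / D := by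
  have hms : ∀ d : ℕ, MeasurableSet {ω | X ω = d} := fun d => hX (measurableSet_singleton d)
  have h1 : (fun ω => g (X ω)) =ᵐ[μ] fun ω => ∑ d ∈ range D, ({ω | X ω = d} : Set Ω).indicator
      (fun _ => g d) ω := by
    filter_upwards [unif_ae X hX D hD hu] with ω hω
    rw [sum_eq_single (X ω)]
    · rw [Set.indicator_of_mem]
      rfl
    · intro d _ hd
      rw [Set.indicator_of_notMem]
      exact fun h => hd h.symm
    · intro h
      rw [mem_range] at h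
      exact absurd hω h
  rw [integral_congr_ae h1, integral_finsetSum]
  · rw [sum_div]
    refine sum_congr rfl fun d hd => ?_
    rw [integral_indicator_const _ (hms d), smul_eq_mul]
    have h2 : μ.real {ω | X ω = d} = 1 / D := by
      rw [measureReal_def, hu d (mem_range.1 hd)]
      simp
    rw [h2]
    ring
  · intro d _
    exact (integrable_const _).indicator (hms d)

lemma conc_re (δ : ℕ → Ω → ℕ) (hm : ∀ m, Measurable (δ m)) (hind : iIndepFun δ μ)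
    (Dm : ℕ → ℕ) (hD : ∀ m, 1 ≤ Dm m)
    (hu : ∀ m, ∀ d < Dm m, μ {ω | δ m ω = d} = 1 / (Dm m : ENNReal))
    (T : Finset ℕ) (c : ℕ → ℂ) (G : ℕ → ℝ) (hG : ∀ m ∈ T, ‖c m‖ ≤ G m) (V : ℝ)
    (hV1 : 0 < ∑ m ∈ T, (G m) ^ 2) (hV2 : ∑ m ∈ T, (G m) ^ 2 ≤ V) (β t : ℝ) (ht : 0 ≤ t) :
    μ.real {ω | t ≤ (∑ m ∈ T, c m * (e (β * δ m ω) - Kf (Dm m) β)).re} ≤
      Real.exp (-t ^ 2 / (2 * V)) := by
  set g : ℕ → ℕ → ℝ := fun m d => (c m * e (β * d)).re with hg
  have hgb : ∀ m ∈ T, ∀ d, |g m d| ≤ G m := by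
    intro m hmT d
    refine (Complex.abs_re_le_norm _).trans ?_
    rw [norm_mul, norm_e, mul_one]
    exact hG m hmT
  set X : ℕ → Ω → ℝ := fun m => (fun d : ℕ => g m d - (∑ d ∈ range (Dm m), g m d) / Dm m) ∘ δ m with hX
  have hXind : iIndepFun X μ := hind.comp _ fun m => Measurable.of_discrete
  have hsub : ∀ m ∈ T, HasSubgaussianMGF (X m) (Real.toNNReal (G m) ^ 2) μ := by
    intro m hmT
    have hG0 : 0 ≤ G m := (norm_nonneg _).trans (hG m hmT)
    have h1 := hasSubgaussianMGF_of_mem_Icc (μ := μ) (X := fun ω => g m (δ m ω)) (a := -G m) (b := G m)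
      ((Measurable.of_discrete (f := g m)).comp (hm m)).aemeasurable
      (Filter.Eventually.of_forall fun ω => abs_le.1 (hgb m hmT _))
    rw [unif_integral (δ m) (hm m) (Dm m) (hD m) (hu m) (g m)] at h1
    have h2 : (‖G m - -G m‖₊ / 2) ^ 2 = Real.toNNReal (G m) ^ 2 := by
      congr 1
      apply NNReal.eq
      rw [NNReal.coe_div, coe_nnnorm, Real.coe_toNNReal _ hG0, Real.norm_eq_abs,
        abs_of_nonneg (by linarith)]
      push_cast
      ring
    rw [h2] at h1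
    exact h1
  have h3 := HasSubgaussianMGF.measure_sum_ge_le_of_iIndepFun hXind hsub ht
  have h4 : {ω | t ≤ (∑ m ∈ T, c m * (e (β * δ m ω) - Kf (Dm m) β)).re} =
      {ω | t ≤ ∑ m ∈ T, X m ω} := by
    ext ω
    have h5 : (∑ m ∈ T, c m * (e (β * δ m ω) - Kf (Dm m) β)).re = ∑ m ∈ T, X m ω := by
      rw [Complex.re_sum]
      refine sum_congr rfl fun m _ => ?_
      simp only [hX, hg, Function.comp]
      rw [mul_sub, Complex.sub_re]
      congr 1
      unfold Kf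
      rw [mul_div_assoc', mul_sum]
      rw [show ((Dm m : ℕ) : ℂ) = ((Dm m : ℝ) : ℂ) by push_cast; rfl, Complex.div_ofReal_re,
        Complex.re_sum]
    rw [Set.mem_ofPred_eq, Set.mem_ofPred_eq, h5]
  rw [h4]
  refine h3.trans ?_
  rw [Real.exp_le_exp]
  have h5 : (((∑ m ∈ T, Real.toNNReal (G m) ^ 2 : NNReal)) : ℝ) = ∑ m ∈ T, (G m) ^ 2 := by
    push_cast
    refine sum_congr rfl fun m hmT => ?_
    rw [Real.coe_toNNReal _ ((norm_nonneg _).trans (hG m hmT))]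
  rw [h5, neg_div, neg_div, neg_le_neg_iff]
  gcongr

lemma conc_norm (δ : ℕ → Ω → ℕ) (hm : ∀ m, Measurable (δ m)) (hind : iIndepFun δ μ)
    (Dm : ℕ → ℕ) (hD : ∀ m, 1 ≤ Dm m)
    (hu : ∀ m, ∀ d < Dm m, μ {ω | δ m ω = d} = 1 / (Dm m : ENNReal))
    (T : Finset ℕ) (c : ℕ → ℂ) (G : ℕ → ℝ) (hG : ∀ m ∈ T, ‖c m‖ ≤ G m) (V : ℝ)
    (hV1 : 0 < ∑ m ∈ T, (G m) ^ 2) (hV2 : ∑ m ∈ T, (G m) ^ 2 ≤ V) (β t : ℝ) (ht : 0 ≤ t) :
    μ.real {ω | t ≤ ‖∑ m ∈ T, c m * (e (β * δ m ω) - Kf (Dm m) β)‖} ≤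
      4 * Real.exp (-t ^ 2 / (8 * V)) := by
  set Z : Ω → ℂ := fun ω => ∑ m ∈ T, c m * (e (β * δ m ω) - Kf (Dm m) β) with hZ
  have key : ∀ u : ℂ, ‖u‖ = 1 → μ.real {ω | t / 2 ≤ (u * Z ω).re} ≤ Real.exp (-t ^ 2 / (8 * V)) := by
    intro u hu1
    have h1 := conc_re δ hm hind Dm hD hu T (fun m => u * c m) G (by
      intro m hmT
      rw [norm_mul, hu1, one_mul]
      exact hG m hmT) V hV1 hV2 β (t / 2) (by linarith)
    have h2 : ∀ ω, (∑ m ∈ T, u * c m * (e (β * δ m ω) - Kf (Dm m) β)) = u * Z ω := by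
      intro ω
      rw [hZ, mul_sum]
      refine sum_congr rfl fun m _ => by ring
    simp only [h2] at h1
    refine h1.trans (le_of_eq ?_)
    congr 1
    have hV : V ≠ 0 := by linarith
    field_simp
    ring
  have hsub : {ω | t ≤ ‖Z ω‖} ⊆ (({ω | t / 2 ≤ ((1 : ℂ) * Z ω).re} ∪ {ω | t / 2 ≤ ((-1 : ℂ) * Z ω).re}) ∪
      {ω | t / 2 ≤ (Complex.I * Z ω).re}) ∪ {ω | t / 2 ≤ ((-Complex.I) * Z ω).re} := by
    intro ω hω
    rw [Set.mem_ofPred_eq] at hω
    have h1 := Complex.norm_le_abs_re_add_abs_im (Z ω)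
    simp only [Set.mem_union, Set.mem_ofPred_eq]
    have e1 : ((1 : ℂ) * Z ω).re = (Z ω).re := by rw [one_mul]
    have e2 : ((-1 : ℂ) * Z ω).re = -(Z ω).re := by rw [neg_one_mul, Complex.neg_re]
    have e3 : (Complex.I * Z ω).re = -(Z ω).im := by simp
    have e4 : ((-Complex.I) * Z ω).re = (Z ω).im := by simp
    rw [e1, e2, e3, e4]
    rcases le_total (t / 2) |(Z ω).re| with h2 | h2
    · rcases abs_cases (Z ω).re with h3 | h3
      · left; left; left; linarith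
      · left; left; right; linarith
    · have h4 : t / 2 ≤ |(Z ω).im| := by linarith
      rcases abs_cases (Z ω).im with h3 | h3
      · right; linarith
      · left; right; linarith
  refine (measureReal_mono hsub).trans ?_
  refine (measureReal_union_le _ _).trans ?_
  have h1 := (measureReal_union_le (μ := μ) ({ω | t / 2 ≤ ((1 : ℂ) * Z ω).re} ∪
    {ω | t / 2 ≤ ((-1 : ℂ) * Z ω).re}) {ω | t / 2 ≤ (Complex.I * Z ω).re})
  have h2 := (measureReal_union_le (μ := μ) ({ω | t / 2 ≤ ((1 : ℂ) * Z ω).re})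
    {ω | t / 2 ≤ ((-1 : ℂ) * Z ω).re})
  have k1 := key 1 (by simp)
  have k2 := key (-1) (by simp)
  have k3 := key Complex.I (by simp)
  have k4 := key (-Complex.I) (by simp)
  linarith

/-- tail bound for the perturbed exponential sum -/
lemma tail (δ : ℕ → Ω → ℕ) (hm : ∀ m, Measurable (δ m)) (hind : iIndepFun δ μ)
    (Dm : ℕ → ℕ) (hD : ∀ m, 1 ≤ Dm m)
    (hu : ∀ m, ∀ d < Dm m, μ {ω | δ m ω = d} = 1 / (Dm m : ENNReal))
    (k P Hm : ℕ) (hP : 1 ≤ P) (τ : ℕ → ℕ) (hτ : ∀ n ∈ Ico P (4 * P), Dm (τ n) = Dm n)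
    (hH : ∀ m, ((Ico P (4 * P)).filter (fun n => τ n = m)).card ≤ Hm) (β t : ℝ) (ht : 0 ≤ t) :
    μ.real {ω | t ≤ ‖∑ n ∈ Ico P (4 * P), e (β * (n : ℝ) ^ k) *
      (e (β * δ (τ n) ω) - Kf (Dm n) β)‖} ≤ 4 * Real.exp (-t ^ 2 / (24 * (P * Hm))) := by
  set T : Finset ℕ := (Ico P (4 * P)).image τ with hT
  set c : ℕ → ℂ := fun m => ∑ n ∈ (Ico P (4 * P)).filter (fun n => τ n = m), e (β * (n : ℝ) ^ k) with hc
  set G : ℕ → ℝ := fun m => ((Ico P (4 * P)).filter (fun n => τ n = m)).card with hG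
  have hid : ∀ ω, ∑ n ∈ Ico P (4 * P), e (β * (n : ℝ) ^ k) * (e (β * δ (τ n) ω) - Kf (Dm n) β) =
      ∑ m ∈ T, c m * (e (β * δ m ω) - Kf (Dm m) β) := by
    intro ω
    rw [← sum_fiberwise_of_maps_to (s := Ico P (4 * P)) (t := T) (g := τ)
      (fun n hn => mem_image_of_mem τ hn)]
    refine sum_congr rfl fun m _ => ?_
    simp only [hc]
    rw [sum_mul]
    refine sum_congr rfl fun n hn => ?_
    rw [mem_filter] at hn
    rw [← hτ n hn.1, hn.2]
  have hcG : ∀ m ∈ T, ‖c m‖ ≤ G m := by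
    intro m _
    simp only [hc, hG]
    refine (norm_sum_le _ _).trans ?_
    rw [sum_congr rfl (fun n _ => norm_e _), sum_const, nsmul_eq_mul, mul_one]
  have hGsum : ∑ m ∈ T, G m = 3 * P := by
    simp only [hG]
    rw [← Nat.cast_sum, ← card_eq_sum_card_fiberwise (fun n hn => mem_image_of_mem τ hn), Nat.card_Ico,
      show 4 * P - P = 3 * P by omega]
    push_cast
    ring
  have hG0 : ∀ m, 0 ≤ G m := fun m => by simp only [hG]; positivity
  have hGH : ∀ m, G m ≤ Hm := fun m => by simp only [hG]; exact_mod_cast hH m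
  have hV2 : ∑ m ∈ T, (G m) ^ 2 ≤ 3 * (P * Hm) := by
    calc ∑ m ∈ T, (G m) ^ 2 ≤ ∑ m ∈ T, G m * Hm := by
          refine sum_le_sum fun m _ => ?_
          rw [sq]
          exact mul_le_mul_of_nonneg_left (hGH m) (hG0 m)
      _ = _ := by rw [← sum_mul, hGsum]; ring
  have hV1 : 0 < ∑ m ∈ T, (G m) ^ 2 := by
    have hmem : τ P ∈ T := mem_image_of_mem τ (mem_Ico.2 ⟨le_rfl, by omega⟩)
    have h1 : 0 < G (τ P) := by
      simp only [hG]
      have : 0 < ((Ico P (4 * P)).filter (fun n => τ n = τ P)).card := by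
        rw [card_pos]
        exact ⟨P, mem_filter.2 ⟨mem_Ico.2 ⟨le_rfl, by omega⟩, rfl⟩⟩
      exact_mod_cast this
    exact lt_of_lt_of_le (by positivity) (single_le_sum (f := fun m => (G m) ^ 2)
      (fun m _ => by positivity) hmem)
  have h1 := conc_norm δ hm hind Dm hD hu T c G hcG (3 * (P * Hm)) hV1 hV2 β t ht
  simp only [hid]
  refine h1.trans (le_of_eq ?_)
  congr 3
  ring

end Pool.Agent.X30.WP
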