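import Mathlib
import Pool.Agent.X30.WP6

/-!
# Waring's problem for randomly perturbed powers
-/

set_option autoImplicit false

namespace Pool.Agent.X30.WP

open Finset MeasureTheory ProbabilityTheory
open Pool.Agent.H469R2.NK (e norm_e e_add conj_e norm_sum_neg e_zero)

/-- the left end of the interval of length `2 ^ ⌊h * log₂ n⌋` containing `n` -/
noncomputable def tau (h : ℝ) (n : ℕ) : ℕ :=
  2 ^ ⌊h * Nat.log 2 n⌋₊ * (n / 2 ^ ⌊h * Nat.log 2 n⌋₊)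

lemma tau_le (h : ℝ) (n : ℕ) : tau h n ≤ n := Nat.mul_div_le _ _

lemma lt_tau_add (h : ℝ) (n : ℕ) : n < tau h n + 2 ^ ⌊h * Nat.log 2 n⌋₊ := by
  unfold tau
  have := Nat.lt_div_mul_add (a := n) (b := 2 ^ ⌊h * Nat.log 2 n⌋₊) (by positivity)
  linarith [Nat.mul_comm (n / 2 ^ ⌊h * Nat.log 2 n⌋₊) (2 ^ ⌊h * Nat.log 2 n⌋₊)]

lemma log_tau (h : ℝ) (h1 : h ≤ 1) (n : ℕ) (hn : 1 ≤ n) : Nat.log 2 (tau h n) = Nat.log 2 n := by
  set i := Nat.log 2 n with hi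
  set f := ⌊h * (i : ℝ)⌋₊ with hf
  have hfi : f ≤ i := by
    rw [hf]
    have : h * (i : ℝ) ≤ i := mul_le_of_le_one_left (by positivity) h1
    calc ⌊h * (i : ℝ)⌋₊ ≤ ⌊(i : ℝ)⌋₊ := Nat.floor_le_floor this
      _ = i := Nat.floor_natCast i
  have h2 : 2 ^ i ≤ n := Nat.pow_log_le_self 2 (by omega)
  have h3 : n < 2 ^ (i + 1) := Nat.lt_pow_succ_log_self (by norm_num) n
  have h4 : 2 ^ i ≤ tau h n := by
    unfold tau
    rw [← hi, ← hf]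
    have h5 : 2 ^ (i - f) ≤ n / 2 ^ f := by
      rw [Nat.le_div_iff_mul_le (by positivity), ← pow_add]
      rw [show i - f + f = i by omega]
      exact h2
    calc 2 ^ i = 2 ^ f * 2 ^ (i - f) := by rw [← pow_add]; congr 1; omega
      _ ≤ _ := Nat.mul_le_mul_left _ h5
  exact Nat.log_eq_of_pow_le_of_lt_pow h4 (lt_of_le_of_lt (tau_le h n) h3)

lemma log_block {j n : ℕ} (h1 : 2 ^ j ≤ n) (h2 : n < 2 * 2 ^ j) : Nat.log 2 n = j :=
  Nat.log_eq_of_pow_le_of_lt_pow h1 (by rw [pow_succ]; linarith)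

lemma F_sub_Sh (k P D1 D2 : ℕ) (Dm : ℕ → ℕ) (h1 : ∀ n ∈ Ico P (2 * P), Dm n = D1)
    (h2 : ∀ n ∈ Ico (2 * P) (4 * P), Dm n = D2) (f : ℕ → ℕ) (β : ℝ) :
    F (Ico P (4 * P)) (fun _ => (1 : ℝ)) (fun n => n ^ k + f n) β - Sh k P D1 D2 β =
      ∑ n ∈ Ico P (4 * P), e (β * (n : ℝ) ^ k) * (e (β * f n) - Kf (Dm n) β) := by
  have h3 : ∑ n ∈ Ico P (4 * P), e (β * (n : ℝ) ^ k) * Kf (Dm n) β = Sh k P D1 D2 β := by
    unfold Sh W
    rw [← sum_Ico_consecutive _ (show P ≤ 2 * P by omega) (show 2 * P ≤ 4 * P by omega), mul_sum,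
      mul_sum, show 2 * (2 * P) = 4 * P by ring]
    congr 1
    · refine sum_congr rfl fun n hn => ?_
      rw [h1 n hn]; ring
    · refine sum_congr rfl fun n hn => ?_
      rw [h2 n hn]; ring
  rw [← h3]
  unfold F
  rw [← sum_sub_distrib]
  refine sum_congr rfl fun n _ => ?_
  rw [mul_sub, ← e_add]
  push_cast
  rw [one_mul, show β * ((n : ℝ) ^ k + f n) = β * (n : ℝ) ^ k + β * f n by ring]

lemma exp_small (k : ℕ) (ε : ℝ) (hε : 0 < ε) :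
    ∃ j1 : ℕ, ∀ j : ℕ, j1 ≤ j → Real.exp (-((2 : ℝ) ^ j) ^ (2 * ε) / 48) ≤ (((2 : ℝ) ^ j) ^ (k + 1))⁻¹ := by
  have h1 := (isLittleO_exp_neg_mul_rpow_atTop (a := 1 / 48) (by norm_num) (-((k + 1 : ℕ) : ℝ) / (2 * ε))).bound
    (c := 1) (by norm_num)
  have h2 : Filter.Tendsto (fun j : ℕ => ((2 : ℝ) ^ j) ^ (2 * ε)) Filter.atTop Filter.atTop :=
    (tendsto_rpow_atTop (by positivity)).comp (tendsto_pow_atTop_atTop_of_one_lt (by norm_num))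
  obtain ⟨j1, hj1⟩ := Filter.eventually_atTop.1 (h2.eventually h1)
  refine ⟨j1, fun j hj => ?_⟩
  have h3 := hj1 j hj
  have hx : (0 : ℝ) < 2 ^ j := by positivity
  rw [one_mul, Real.norm_eq_abs, Real.norm_eq_abs, abs_of_pos (Real.exp_pos _),
    abs_of_nonneg (by positivity), ← Real.rpow_mul hx.le] at h3
  have h4 : 2 * ε * (-((k + 1 : ℕ) : ℝ) / (2 * ε)) = -((k + 1 : ℕ) : ℝ) := by field_simp
  rw [h4, Real.rpow_neg hx.le, Real.rpow_natCast] at h3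
  refine le_trans (le_of_eq ?_) h3
  congr 1
  ring

variable {Ω : Type*} [MeasurableSpace Ω] {μ : Measure Ω} [IsProbabilityMeasure μ]

/-- almost surely, for all large dyadic blocks, the perturbed exponential sums are close to their
expectations -/
lemma close (k s : ℕ) (η h ε : ℝ) (hh0 : 0 ≤ h) (hh1 : h ≤ 1) (hε : 0 < ε)
    (δ : ℕ → Ω → ℕ) (hm : ∀ m, Measurable (δ m)) (hind : iIndepFun δ μ)
    (hu : ∀ m, ∀ d < 2 ^ ⌊η * Nat.log 2 m⌋₊,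
      μ {ω | δ m ω = d} = 1 / ((2 ^ ⌊η * Nat.log 2 m⌋₊ : ℕ) : ENNReal)) :
    ∀ᵐ ω ∂μ, ∃ j0 : ℕ, ∀ j : ℕ, j0 ≤ j → ∀ b : ℕ, b ≤ 2 * s * (4 * 2 ^ j) ^ k / 2 →
      ‖∑ n ∈ Ico (2 ^ j : ℕ) (4 * 2 ^ j), e ((b : ℝ) / (2 * s * (4 * 2 ^ j) ^ k : ℕ) * (n : ℝ) ^ k) *
        (e ((b : ℝ) / (2 * s * (4 * 2 ^ j) ^ k : ℕ) * δ (tau h n) ω) -
          Kf (2 ^ ⌊η * Nat.log 2 n⌋₊) ((b : ℝ) / (2 * s * (4 * 2 ^ j) ^ k : ℕ)))‖ ≤
        ((2 ^ j : ℕ) : ℝ) ^ ((1 + h) / 2 + ε) := by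
  set Dm : ℕ → ℕ := fun m => 2 ^ ⌊η * Nat.log 2 m⌋₊ with hDm
  have hD : ∀ m, 1 ≤ Dm m := fun m => Nat.one_le_two_pow
  set M : ℕ → ℕ := fun j => 2 * s * (4 * 2 ^ j) ^ k with hM
  set ρ : ℝ := (1 + h) / 2 + ε with hρ
  set E : ℕ → ℕ → Set Ω := fun j b => {ω | ((2 ^ j : ℕ) : ℝ) ^ ρ ≤
    ‖∑ n ∈ Ico (2 ^ j : ℕ) (4 * 2 ^ j), e ((b : ℝ) / (M j : ℕ) * (n : ℝ) ^ k) *
        (e ((b : ℝ) / (M j : ℕ) * δ (tau h n) ω) - Kf (Dm n) ((b : ℝ) / (M j : ℕ)))‖} with hE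
  set B : ℕ → Set Ω := fun j => ⋃ b ∈ range (M j / 2 + 1), E j b with hB
  obtain ⟨j1, hj1⟩ := exp_small k ε hε
  have hEb : ∀ j b, μ.real (E j b) ≤ 4 * Real.exp (-((2 : ℝ) ^ j) ^ (2 * ε) / 48) := by
    intro j b
    have hx : (0 : ℝ) < 2 ^ j := by positivity
    have h1 := tail δ hm hind Dm hD hu k (2 ^ j) (2 ^ ⌊h * ((j + 1 : ℕ) : ℝ)⌋₊) Nat.one_le_two_pow (tau h)
      (by
        intro n hn
        rw [mem_Ico] at hn
        simp only [hDm]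
        rw [log_tau h hh1 n (Nat.one_le_two_pow.trans hn.1)])
      (by
        intro m
        have hsub : (Ico (2 ^ j) (4 * 2 ^ j)).filter (fun n => tau h n = m) ⊆
            Ico m (m + 2 ^ ⌊h * ((j + 1 : ℕ) : ℝ)⌋₊) := by
          intro n hn
          rw [mem_filter, mem_Ico] at hn
          rw [mem_Ico]
          have h2 := tau_le h n
          have h3 := lt_tau_add h n
          rw [hn.2] at h2 h3
          refine ⟨h2, lt_of_lt_of_le h3 ?_⟩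
          have h4 : Nat.log 2 n < j + 2 := by
            apply Nat.log_lt_of_lt_pow (by have := Nat.one_le_two_pow (n := j); omega)
            calc n < 4 * 2 ^ j := hn.1.2
              _ = 2 ^ (j + 2) := by ring
          have h5 : ⌊h * (Nat.log 2 n : ℝ)⌋₊ ≤ ⌊h * ((j + 1 : ℕ) : ℝ)⌋₊ := by
            apply Nat.floor_le_floor
            apply mul_le_mul_of_nonneg_left _ hh0
            exact_mod_cast (by omega : Nat.log 2 n ≤ j + 1)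
          have h6 : 2 ^ ⌊h * (Nat.log 2 n : ℝ)⌋₊ ≤ 2 ^ ⌊h * ((j + 1 : ℕ) : ℝ)⌋₊ :=
            Nat.pow_le_pow_right (by norm_num) h5
          omega
        refine (card_le_card hsub).trans ?_
        rw [Nat.card_Ico, Nat.add_sub_cancel_left])
      ((b : ℝ) / (M j : ℕ)) (((2 ^ j : ℕ) : ℝ) ^ ρ) (by positivity)
    refine h1.trans ?_
    gcongr 4 * Real.exp ?_
    have h2 : ((2 ^ ⌊h * ((j + 1 : ℕ) : ℝ)⌋₊ : ℕ) : ℝ) ≤ 2 * ((2 : ℝ) ^ j) ^ h := by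
      push_cast
      rw [← Real.rpow_natCast 2 ⌊h * ((j : ℝ) + 1)⌋₊]
      calc (2 : ℝ) ^ ((⌊h * ((j : ℝ) + 1)⌋₊ : ℕ) : ℝ) ≤ (2 : ℝ) ^ (h * ((j : ℝ) + 1)) := by
            apply Real.rpow_le_rpow_of_exponent_le (by norm_num)
            exact Nat.floor_le (by positivity)
        _ = (2 : ℝ) ^ h * ((2 : ℝ) ^ j) ^ h := by
            rw [← Real.rpow_natCast 2 j, ← Real.rpow_mul (by norm_num), ← Real.rpow_add (by norm_num)]
            congr 1; ring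
        _ ≤ 2 * ((2 : ℝ) ^ j) ^ h := by
            gcongr
            calc (2 : ℝ) ^ h ≤ (2 : ℝ) ^ (1 : ℝ) := Real.rpow_le_rpow_of_exponent_le (by norm_num) hh1
              _ = 2 := Real.rpow_one 2
    rw [neg_div, neg_div, neg_le_neg_iff]
    push_cast at h2 ⊢
    have h3 : (((2 : ℝ) ^ j) ^ ρ) ^ 2 = ((2 : ℝ) ^ j) ^ (2 * ε) * ((2 : ℝ) ^ j * ((2 : ℝ) ^ j) ^ h) := by
      rw [← Real.rpow_natCast (((2 : ℝ) ^ j) ^ ρ) 2, ← Real.rpow_mul hx.le]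
      nth_rewrite 3 [← Real.rpow_one ((2 : ℝ) ^ j)]
      rw [← Real.rpow_add hx, ← Real.rpow_add hx]
      congr 1
      rw [hρ]
      push_cast
      ring
    rw [h3, div_le_div_iff₀ (by norm_num) (by positivity)]
    calc ((2 : ℝ) ^ j) ^ (2 * ε) * (24 * (2 ^ j * 2 ^ ⌊h * ((j : ℝ) + 1)⌋₊))
        ≤ ((2 : ℝ) ^ j) ^ (2 * ε) * (24 * (2 ^ j * (2 * ((2 : ℝ) ^ j) ^ h))) := by gcongr
      _ = _ := by ring
  set C5 : ℝ := 4 * (2 * s * 4 ^ k + 1) with hC5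
  have hBb : ∀ j, j1 ≤ j → μ.real (B j) ≤ C5 * (1 / 2) ^ j := by
    intro j hj
    have hx : (0 : ℝ) < 2 ^ j := by positivity
    have hx1 : (1 : ℝ) ≤ 2 ^ j := one_le_pow₀ (by norm_num)
    simp only [hB]
    refine (measureReal_biUnion_finset_le _ _).trans ?_
    refine (sum_le_sum fun b _ => hEb j b).trans ?_
    rw [sum_const, card_range, nsmul_eq_mul]
    have h1 := hj1 j hj
    have h2 : ((M j / 2 + 1 : ℕ) : ℝ) ≤ (2 * s * 4 ^ k + 1) * ((2 : ℝ) ^ j) ^ k := by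
      have h3 : ((M j / 2 : ℕ) : ℝ) ≤ M j := by exact_mod_cast Nat.div_le_self _ _
      have h4 : (M j : ℝ) = 2 * s * 4 ^ k * ((2 : ℝ) ^ j) ^ k := by
        simp only [hM]
        push_cast
        rw [mul_pow]
        ring
      have h5 : (1 : ℝ) ≤ ((2 : ℝ) ^ j) ^ k := one_le_pow₀ hx1
      push_cast
      rw [h4] at h3
      nlinarith
    calc ((M j / 2 + 1 : ℕ) : ℝ) * (4 * Real.exp (-((2 : ℝ) ^ j) ^ (2 * ε) / 48))
        ≤ ((2 * s * 4 ^ k + 1) * ((2 : ℝ) ^ j) ^ k) * (4 * (((2 : ℝ) ^ j) ^ (k + 1))⁻¹) := by gcongr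
      _ = C5 * (1 / 2) ^ j := by
          rw [hC5, one_div, inv_pow, pow_succ ((2 : ℝ) ^ j) k]
          field_simp
  have hfin : ∑' i : ℕ, μ (B (i + j1)) ≠ ⊤ := by
    have h1 : ∀ i : ℕ, μ (B (i + j1)) ≤ ENNReal.ofReal (C5 * (1 / 2) ^ (i + j1)) := by
      intro i
      rw [← ofReal_measureReal (μ := μ) (s := B (i + j1)) (measure_ne_top μ _)]
      exact ENNReal.ofReal_le_ofReal (hBb _ (by omega))
    refine ne_top_of_le_ne_top ?_ (ENNReal.tsum_le_tsum h1)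
    apply Summable.tsum_ofReal_ne_top
    apply Summable.mul_left
    exact (summable_nat_add_iff j1).2 (summable_geometric_of_lt_one (by norm_num) (by norm_num))
  filter_upwards [ae_eventually_notMem hfin] with ω hω
  obtain ⟨j2, hj2⟩ := Filter.eventually_atTop.1 hω
  refine ⟨j2 + j1, fun j hj b hb => ?_⟩
  have h1 := hj2 (j - j1) (by omega)
  rw [show j - j1 + j1 = j by omega] at h1
  simp only [hB, Set.mem_iUnion, not_exists] at h1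
  have h2 := h1 b (mem_range.2 (by simp only [hM]; omega))
  simp only [hE, Set.mem_ofPred_eq, not_le] at h2
  exact h2.le

/-- **Waring's problem for randomly perturbed powers.** -/
theorem waring (k q s : ℕ) (hq1 : 1 ≤ q) (hq : q + 2 ≤ k) (hs : (2 : ℝ) ^ q < s) (η h : ℝ)
    (hη : ((k : ℝ) - η) * (s + q * 2 ^ q) < s * (q + 1)) (hη1 : η ≤ k - 1)
    (hh0 : 0 ≤ h) (hh : 2 * (k : ℝ) < s * (1 - h))
    (δ : ℕ → Ω → ℕ) (hm : ∀ m, Measurable (δ m)) (hind : iIndepFun δ μ)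
    (hu : ∀ m, ∀ d < 2 ^ ⌊η * Nat.log 2 m⌋₊,
      μ {ω | δ m ω = d} = 1 / ((2 ^ ⌊η * Nat.log 2 m⌋₊ : ℕ) : ENNReal)) :
    ∃ c : ℝ, 0 < c ∧ ∀ᵐ ω ∂μ, ∃ N0 : ℕ, ∀ N : ℕ, N0 ≤ N → ∃ S : Finset (Fin s → ℕ),
      (∀ x ∈ S, (∀ i, 1 ≤ x i) ∧ N = ∑ i, (x i ^ k + δ (tau h (x i)) ω)) ∧
      c * (N : ℝ) ^ ((s : ℝ) / k - 1) ≤ S.card := by
  have hk0 : (3 : ℝ) ≤ k := by exact_mod_cast (by omega : 3 ≤ k)
  have h2q : (2 : ℝ) ≤ 2 ^ q := by
    calc (2 : ℝ) = 2 ^ 1 := by norm_num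
      _ ≤ 2 ^ q := pow_le_pow_right₀ (by norm_num) hq1
  have hs2' : (2 : ℝ) < s := lt_of_le_of_lt h2q hs
  have hs0 : 1 ≤ s := by exact_mod_cast (by linarith : (1 : ℝ) ≤ s)
  have hh1 : h < 1 := by
    by_contra hcon
    push Not at hcon
    nlinarith
  have hη0 : 0 < η := by
    by_contra hcon
    push Not at hcon
    have h1 : (q : ℝ) + 2 ≤ k := by exact_mod_cast hq
    have h2 : (0 : ℝ) ≤ q * 2 ^ q := by positivity
    have h3 : (k : ℝ) * (s + q * 2 ^ q) ≤ (k - η) * (s + q * 2 ^ q) := by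
      apply mul_le_mul_of_nonneg_right _ (by positivity)
      linarith
    have h4 : (s : ℝ) * (q + 1) ≤ k * (s + q * 2 ^ q) := by nlinarith
    linarith
  set ε : ℝ := (s * (1 - h) - 2 * k) / (4 * s) with hε
  have hε0 : 0 < ε := by
    rw [hε]
    apply div_pos (by linarith) (by linarith)
  have hεs : ε * s = (s * (1 - h) - 2 * k) / 4 := by
    rw [hε]
    field_simp
  obtain ⟨c, hc, P0, hP0⟩ := determ k q s hq1 hq hs η hη ((1 + h) / 2 + ε) (by positivity) (by nlinarith)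
  have hsk : 0 ≤ (s : ℝ) / k - 1 := by
    rw [sub_nonneg, le_div_iff₀ (by linarith)]
    nlinarith
  set B0 : ℝ := (s * 2 ^ (k + 1) : ℝ) ^ ((s : ℝ) / k - 1) with hB0
  have hB0' : 0 < B0 := by positivity
  refine ⟨c / B0, by positivity, ?_⟩
  have hδ : ∀ᵐ ω ∂μ, ∀ m, δ m ω < 2 ^ ⌊η * Nat.log 2 m⌋₊ :=
    ae_all_iff.2 fun m => unif_ae (δ m) (hm m) _ Nat.one_le_two_pow (hu m)
  filter_upwards [hδ, close (μ := μ) k s η h ε hh0 hh1.le hε0 δ hm hind hu] with ω hω1 hω2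
  obtain ⟨j0, hj0⟩ := hω2
  refine ⟨2 * s * (2 ^ k) ^ (max P0 j0), fun N hN => ?_⟩
  set y : ℕ := N / (2 * s) with hy
  have hyN : 2 * s * y ≤ N := Nat.mul_div_le _ _
  have hyN' : N < 2 * s * (y + 1) := by
    have := Nat.lt_div_mul_add (a := N) (b := 2 * s) (by omega)
    calc N < N / (2 * s) * (2 * s) + 2 * s := this
      _ = _ := by rw [← hy]; ring
  have hy1 : (2 ^ k) ^ (max P0 j0) ≤ y := by
    rw [hy, Nat.le_div_iff_mul_le (by omega)]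
    linarith
  have hk1 : 1 < 2 ^ k := Nat.one_lt_two_pow (by omega)
  have hy0 : y ≠ 0 := by
    have : 0 < (2 ^ k) ^ (max P0 j0) := by positivity
    omega
  set j : ℕ := Nat.log (2 ^ k) y with hj
  have hj1 : (2 ^ k) ^ j ≤ y := Nat.pow_log_le_self _ hy0
  have hj2 : y < (2 ^ k) ^ (j + 1) := Nat.lt_pow_succ_log_self hk1 y
  have hjmax : max P0 j0 ≤ j := by
    rw [hj]
    exact Nat.le_log_of_pow_le hk1 hy1
  have hjP : P0 ≤ 2 ^ j := (le_max_left _ _).trans (hjmax.trans Nat.lt_two_pow_self.le)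
  have hjj : j0 ≤ j := (le_max_right _ _).trans hjmax
  have hpow : ∀ i : ℕ, ((2 : ℕ) ^ k) ^ i = (2 ^ i) ^ k := fun i => by rw [← pow_mul, ← pow_mul, mul_comm]
  have hfloor : ∀ i : ℕ, (2 : ℝ) ^ (η * i) ≤ 2 * ((2 ^ ⌊η * (i : ℝ)⌋₊ : ℕ) : ℝ) := by
    intro i
    have h1 := Nat.lt_floor_add_one (η * (i : ℝ))
    push_cast
    rw [← Real.rpow_natCast 2 ⌊η * (i : ℝ)⌋₊]
    calc (2 : ℝ) ^ (η * i) ≤ (2 : ℝ) ^ (1 + ((⌊η * (i : ℝ)⌋₊ : ℕ) : ℝ)) := by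
          apply Real.rpow_le_rpow_of_exponent_le (by norm_num)
          linarith
      _ = _ := by rw [Real.rpow_add (by norm_num), Real.rpow_one]
  have hcast : ∀ i : ℕ, (((2 ^ i : ℕ)) : ℝ) ^ η = (2 : ℝ) ^ (η * i) := by
    intro i
    push_cast
    rw [← Real.rpow_natCast 2 i, ← Real.rpow_mul (by norm_num), mul_comm]
  have hceil : ∀ i : ℕ, 2 ^ ⌊η * (i : ℝ)⌋₊ ≤ (2 ^ i) ^ (k - 1) := by
    intro i
    rw [← pow_mul]
    apply Nat.pow_le_pow_right (by norm_num)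
    have h1 : η * (i : ℝ) ≤ ((i * (k - 1) : ℕ) : ℝ) := by
      rw [Nat.cast_mul, Nat.cast_sub (by omega), mul_comm]
      gcongr
      simpa using hη1
    calc ⌊η * (i : ℝ)⌋₊ ≤ ⌊((i * (k - 1) : ℕ) : ℝ)⌋₊ := Nat.floor_le_floor h1
      _ = _ := Nat.floor_natCast _
  have hD1' : 2 ^ ⌊η * (j : ℝ)⌋₊ ≤ (4 * 2 ^ j) ^ (k - 1) :=
    (hceil j).trans (Nat.pow_le_pow_left (by omega) _)
  have hD2' : 2 ^ ⌊η * ((j + 1 : ℕ) : ℝ)⌋₊ ≤ (4 * 2 ^ j) ^ (k - 1) :=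
    (hceil (j + 1)).trans (Nat.pow_le_pow_left (by rw [pow_succ]; omega) _)
  have hpos : 0 < 2 ^ j := by positivity
  have hNup : N < s * (2 ^ (k + 1) * (2 ^ j) ^ k) := by
    rw [← hpow]
    calc N < 2 * s * (y + 1) := hyN'
      _ ≤ 2 * s * (2 ^ k) ^ (j + 1) := Nat.mul_le_mul_left _ hj2
      _ = s * (2 ^ (k + 1) * (2 ^ k) ^ j) := by rw [pow_succ, pow_succ]; ring
  have hfinal := hP0 (2 ^ j) (2 ^ ⌊η * (j : ℝ)⌋₊) (2 ^ ⌊η * ((j + 1 : ℕ) : ℝ)⌋₊) hjP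
    Nat.one_le_two_pow Nat.one_le_two_pow
    (by rw [hcast]; exact hfloor j)
    (by
      rw [show 2 * 2 ^ j = 2 ^ (j + 1) by rw [pow_succ]; ring, hcast]
      exact hfloor (j + 1))
    hD1' hD2' N (2 * s * (4 * 2 ^ j) ^ k)
    (by
      rw [← hpow]
      calc 2 * s * (2 ^ k) ^ j ≤ 2 * s * y := Nat.mul_le_mul_left _ hj1
        _ ≤ N := hyN)
    hNup
    rfl (fun n => n ^ k + δ (tau h n) ω)
    (by
      intro n hn
      rw [mem_Ico] at hn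
      have h1 : n ^ k < (4 * 2 ^ j) ^ k := Nat.pow_lt_pow_left hn.2 (by omega)
      have h2 := hω1 (tau h n)
      rw [log_tau h hh1.le n (Nat.one_le_two_pow.trans hn.1)] at h2
      have h3 : 2 ^ ⌊η * (Nat.log 2 n : ℝ)⌋₊ ≤ (4 * 2 ^ j) ^ k := by
        refine (hceil (Nat.log 2 n)).trans ?_
        have h4 : 2 ^ Nat.log 2 n ≤ n := Nat.pow_log_le_self 2 (by omega)
        calc (2 ^ Nat.log 2 n) ^ (k - 1) ≤ (4 * 2 ^ j) ^ (k - 1) :=
              Nat.pow_le_pow_left (by omega) _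
          _ ≤ (4 * 2 ^ j) ^ k := Nat.pow_le_pow_right (by omega) (by omega)
      omega)
    (by
      intro b hb
      rw [F_sub_Sh k (2 ^ j) _ _ (fun n => 2 ^ ⌊η * (Nat.log 2 n : ℝ)⌋₊)]
      · exact hj0 j hjj b hb
      · intro n hn
        rw [mem_Ico] at hn
        rw [log_block hn.1 hn.2]
      · intro n hn
        rw [mem_Ico] at hn
        rw [log_block (j := j + 1) (by rw [pow_succ]; linarith) (by rw [pow_succ]; linarith)])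
  refine ⟨_, ?_, le_trans ?_ hfinal⟩
  · intro x hx
    rw [mem_filter, Fintype.mem_piFinset] at hx
    refine ⟨fun i => ?_, hx.2.symm⟩
    have := hx.1 i
    rw [mem_Ico] at this
    omega
  · have hP0R : (0 : ℝ) < ((2 ^ j : ℕ) : ℝ) := by positivity
    have hN1 : (N : ℝ) ≤ (s * 2 ^ (k + 1)) * ((2 ^ j : ℕ) : ℝ) ^ k := by
      have h1 : (N : ℝ) ≤ ((s * (2 ^ (k + 1) * (2 ^ j) ^ k) : ℕ) : ℝ) := by exact_mod_cast hNup.le
      refine h1.trans (le_of_eq ?_)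
      push_cast
      ring
    have h2 : (N : ℝ) ^ ((s : ℝ) / k - 1) ≤ B0 * (((2 ^ j : ℕ) : ℝ) ^ s / ((2 ^ j : ℕ) : ℝ) ^ k) := by
      calc (N : ℝ) ^ ((s : ℝ) / k - 1) ≤ ((s * 2 ^ (k + 1)) * ((2 ^ j : ℕ) : ℝ) ^ k) ^ ((s : ℝ) / k - 1) :=
            Real.rpow_le_rpow (by positivity) hN1 hsk
        _ = B0 * (((2 ^ j : ℕ) : ℝ) ^ k) ^ ((s : ℝ) / k - 1) := by
            rw [Real.mul_rpow (by positivity) (by positivity)]
        _ = _ := by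
            congr 1
            rw [← Real.rpow_natCast (((2 ^ j : ℕ) : ℝ)) k, ← Real.rpow_mul hP0R.le,
              ← Real.rpow_natCast (((2 ^ j : ℕ) : ℝ)) s, ← Real.rpow_sub hP0R]
            congr 1
            field_simp
    calc c / B0 * (N : ℝ) ^ ((s : ℝ) / k - 1)
        ≤ c / B0 * (B0 * (((2 ^ j : ℕ) : ℝ) ^ s / ((2 ^ j : ℕ) : ℝ) ^ k)) := by gcongr
      _ = _ := by field_simp

end Pool.Agent.X30.WP
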