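import Mathlib
import Pool.Agent.X30.WP7

/-!
# Mean values of the perturbed exponential sums over one block
-/

set_option autoImplicit false

namespace Pool.Agent.X30.WP

open Finset
open Pool.Agent.H469R2.NK (e norm_e e_add conj_e norm_sum_neg e_zero)

lemma norm_FZ1_le (k P B : ℕ) (hk : 1 ≤ k) (hP : 1 ≤ P) (hPB : P ≤ B) {β : ℝ} (h0 : 0 < β) (h1 : β ≤ 1 / 2) :
    ‖∑ n ∈ Ico P B, e (β * (n : ℝ) ^ k) * Kf (gp k n) β‖ ≤ 1 / (β * (P : ℝ) ^ (k - 1)) := by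
  have hge := norm_e_sub_one_ge h0.le h1
  have hpos : 0 < ‖e β - 1‖ := by linarith
  have hne : e β ≠ 1 := fun h => by rw [h, sub_self, norm_zero] at hpos; exact lt_irrefl _ hpos
  have hid : (∑ n ∈ Ico P B, e (β * (n : ℝ) ^ k) * Kf (gp k n) β) * (e β - 1) =
      ∑ n ∈ Ico P B, ((1 / (gp k n : ℝ) : ℝ) : ℂ) *
        (e (β * (((n + 1 : ℕ) : ℝ)) ^ k) - e (β * (n : ℝ) ^ k)) := by
    rw [sum_mul]
    refine sum_congr rfl fun n _ => ?_
    have hg : ((gp k n : ℕ) : ℂ) ≠ 0 := by exact_mod_cast (gp_pos k n hk).ne'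
    have h2 : Kf (gp k n) β * (e β - 1) = (e (β * (gp k n : ℕ)) - 1) / (gp k n : ℕ) := by
      unfold Kf
      simp only [e_nat_mul]
      rw [geom_sum_eq hne]
      have : e β - 1 ≠ 0 := sub_ne_zero.2 hne
      field_simp
    rw [mul_assoc, h2]
    have h3 : e (β * (((n + 1 : ℕ) : ℝ)) ^ k) = e (β * (n : ℝ) ^ k) * e (β * (gp k n : ℕ)) := by
      rw [← e_add]
      congr 1
      have := gp_add k n
      have h4 : (n : ℝ) ^ k + (gp k n : ℕ) = (((n + 1 : ℕ) : ℝ)) ^ k := by exact_mod_cast this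
      rw [← h4]; ring
    rw [h3]
    push_cast
    field_simp
  have h2 := abel_bound (fun n => 1 / (gp k n : ℝ)) (by
      intro a b hab
      have hpa : (0 : ℝ) < gp k a := by exact_mod_cast gp_pos k a hk
      have : (gp k a : ℝ) ≤ gp k b := by exact_mod_cast gp_mono k hab
      simp only
      gcongr) (fun n => by positivity) (fun n => e (β * (n : ℝ) ^ k)) (fun n => (norm_e _).le) P B hPB
  have h3 : ‖∑ n ∈ Ico P B, e (β * (n : ℝ) ^ k) * Kf (gp k n) β‖ * ‖e β - 1‖ ≤ 2 * (1 / (gp k P : ℝ)) := by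
    rw [← norm_mul, hid]
    exact h2
  have hP0 : (0 : ℝ) < P := by exact_mod_cast hP
  have h4 : (P : ℝ) ^ (k - 1) ≤ gp k P := by
    obtain ⟨k', rfl⟩ : ∃ k', k = k' + 1 := ⟨k - 1, by omega⟩
    have := gp_ge k' P
    have h5 : P ^ k' ≤ (P + 1) ^ k' := Nat.pow_le_pow_left (by omega) _
    rw [Nat.add_sub_cancel]
    exact_mod_cast h5.trans this
  have hg0 : (0 : ℝ) < gp k P := lt_of_lt_of_le (by positivity) h4
  rw [le_div_iff₀ (by positivity)]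
  have h5 : ‖∑ n ∈ Ico P B, e (β * (n : ℝ) ^ k) * Kf (gp k n) β‖ * (4 * β) ≤ 2 * (1 / (gp k P : ℝ)) :=
    (mul_le_mul_of_nonneg_left hge (norm_nonneg _)).trans h3
  have h6 : 1 / (gp k P : ℝ) * (P : ℝ) ^ (k - 1) ≤ 1 := by
    rw [div_mul_eq_mul_div, one_mul, div_le_one hg0]
    exact h4
  have h7 : 0 ≤ ‖∑ n ∈ Ico P B, e (β * (n : ℝ) ^ k) * Kf (gp k n) β‖ := norm_nonneg _
  have h8 : (0 : ℝ) ≤ (P : ℝ) ^ (k - 1) := by positivity
  calc ‖∑ n ∈ Ico P B, e (β * (n : ℝ) ^ k) * Kf (gp k n) β‖ * (β * (P : ℝ) ^ (k - 1))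
      = (‖∑ n ∈ Ico P B, e (β * (n : ℝ) ^ k) * Kf (gp k n) β‖ * (4 * β)) * (P : ℝ) ^ (k - 1) / 4 := by ring
    _ ≤ (2 * (1 / (gp k P : ℝ))) * (P : ℝ) ^ (k - 1) / 4 := by gcongr
    _ = (1 / (gp k P : ℝ) * (P : ℝ) ^ (k - 1)) / 2 := by ring
    _ ≤ 1 := by linarith

lemma W_small (k P : ℕ) (hk : 1 ≤ k) (hP : 1 ≤ P) {β : ℝ} (h0 : 0 < β) (h1 : β ≤ 1 / 2) :
    ‖W k P β‖ ≤ (2 * Real.pi * (k * 2 ^ (k - 1))) * (β * (P : ℝ) ^ k) + 1 / (β * (P : ℝ) ^ (k - 1)) := by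
  obtain ⟨k', rfl⟩ : ∃ k', k = k' + 1 := ⟨k - 1, by omega⟩
  have hpi := Real.pi_pos
  have h2 := norm_FZ1_le (k' + 1) P (2 * P) hk hP (by omega) h0 h1
  have h3 : W (k' + 1) P β = ∑ n ∈ Ico P (2 * P), e (β * (n : ℝ) ^ (k' + 1)) * (1 - Kf (gp (k' + 1) n) β) +
      ∑ n ∈ Ico P (2 * P), e (β * (n : ℝ) ^ (k' + 1)) * Kf (gp (k' + 1) n) β := by
    unfold W
    rw [← sum_add_distrib]
    refine sum_congr rfl fun n _ => by ring
  rw [h3]
  refine (norm_add_le _ _).trans (add_le_add ?_ h2)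
  refine (norm_sum_le _ _).trans ?_
  calc ∑ n ∈ Ico P (2 * P), ‖e (β * (n : ℝ) ^ (k' + 1)) * (1 - Kf (gp (k' + 1) n) β)‖
      ≤ ∑ n ∈ Ico P (2 * P), 2 * Real.pi * β * (((k' + 1 : ℕ) : ℝ) * (2 * (P : ℝ)) ^ k') := by
        refine sum_le_sum fun n hn => ?_
        rw [mem_Ico] at hn
        rw [norm_mul, norm_e, one_mul, norm_sub_rev]
        refine (norm_Kf_sub_one (gp (k' + 1) n) (gp_pos (k' + 1) n (by omega)) β h0.le).trans ?_
        gcongr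
        have h6 := gp_le k' n
        have h7 : (k' + 1) * (n + 1) ^ k' ≤ (k' + 1) * (2 * P) ^ k' := by
          gcongr
          omega
        exact_mod_cast h6.trans h7
    _ = _ := by
        rw [sum_const, Nat.card_Ico, nsmul_eq_mul, show 2 * P - P = P by omega, mul_pow]
        rw [Nat.add_sub_cancel]
        push_cast
        ring

/-- mean value over one block, without loss -/
theorem block_mean (k q s : ℕ) (hq1 : 1 ≤ q) (hq : q + 2 ≤ k) (hs : (2 : ℝ) ^ q < s) (η : ℝ)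
    (hη : ((k : ℝ) - η) * (s + q * 2 ^ q) < s * (q + 1)) (ρ : ℝ) (hρ0 : 0 ≤ ρ)
    (hρ : ρ * s < s - k) (A : ℝ) (hA : 0 < A) :
    ∃ C : ℝ, 0 < C ∧ ∃ P0 : ℕ, ∀ P D : ℕ, P0 ≤ P → 1 ≤ D → (P : ℝ) ^ η ≤ 2 * D →
      ∀ M : ℕ, P ^ k ≤ M → (M : ℝ) ≤ (P : ℝ) ^ A →
      ∀ a : ℕ → ℕ,
      (∀ b : ℕ, b ≤ M / 2 →
        ‖F (Ico P (2 * P)) (fun _ => 1) a ((b : ℝ) / M) - Kf D ((b : ℝ) / M) * W k P ((b : ℝ) / M)‖ ≤
          (P : ℝ) ^ ρ) →
      ∑ b ∈ range M, ‖F (Ico P (2 * P)) (fun _ => (1 : ℝ)) a ((b : ℝ) / M)‖ ^ s ≤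
        C * (M * (P : ℝ) ^ ((s : ℝ) - k)) := by
  have h2q : (2 : ℝ) ≤ 2 ^ q := by
    calc (2 : ℝ) = 2 ^ 1 := by norm_num
      _ ≤ 2 ^ q := pow_le_pow_right₀ (by norm_num) hq1
  have hs2' : (2 : ℝ) < s := lt_of_le_of_lt h2q hs
  have hs2 : 2 ≤ s := by exact_mod_cast hs2'.le
  have hk0 : (3 : ℝ) ≤ k := by exact_mod_cast (by omega : 3 ≤ k)
  have hρ1 : ρ < 1 := by
    by_contra hcon
    push Not at hcon
    nlinarith
  set ξ : ℝ := (1 - ρ) / 3 with hξdef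
  have hξ : 0 < ξ := by rw [hξdef]; linarith
  have hξ1 : ξ ≤ 1 / 3 := by rw [hξdef]; linarith
  obtain ⟨κ1, C1, hκ1, hC1, hblock⟩ := block_bound k q s hq1 hq hs2 hs η hη ξ hξ
  set κ : ℝ := min κ1 (min (s - k - ρ * s) 1) with hκdef
  have hκ : 0 < κ := lt_min hκ1 (lt_min (by linarith) one_pos)
  have hκκ1 : κ ≤ κ1 := min_le_left _ _
  have hκρ : κ ≤ s - k - ρ * s := (min_le_right _ _).trans (min_le_left _ _)
  have hκ1' : κ ≤ 1 := (min_le_right _ _).trans (min_le_right _ _)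
  set C3 : ℝ := 2 * Real.pi * (k * 2 ^ (k - 1)) with hC3
  have hC30 : 0 ≤ C3 := by positivity
  -- `1 + log M ≤ P ^ κ` for large `P`
  have htend : Filter.Tendsto (fun P : ℕ => (P : ℝ) ^ (κ / 2)) Filter.atTop Filter.atTop :=
    (tendsto_rpow_atTop (by positivity)).comp tendsto_natCast_atTop_atTop
  obtain ⟨P1, hP1⟩ := Filter.eventually_atTop.1 (htend.eventually_gt_atTop (1 + A * (2 / κ)))
  set E1 : ℝ := 3 ^ s * (1 + C3 ^ s) + 3 ^ s * (1 + C1) with hE1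
  have hE10 : 0 ≤ E1 := by positivity
  refine ⟨2 * (1 + E1 + 3 ^ s * 3), by positivity, max P1 4, fun P D hPP hD hDη M hM1 hM2 a hb => ?_⟩
  have hPP1 : P1 ≤ P := (le_max_left _ _).trans hPP
  have hP4 : 4 ≤ P := (le_max_right _ _).trans hPP
  have hP1R : (1 : ℝ) ≤ P := by exact_mod_cast (by omega : 1 ≤ P)
  have hP0R : (0 : ℝ) < P := by linarith
  have hPk : (P : ℝ) ^ k ≤ M := by exact_mod_cast hM1
  have hPkpos : (0 : ℝ) < (P : ℝ) ^ k := by positivity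
  have hM0R : (0 : ℝ) < M := lt_of_lt_of_le hPkpos hPk
  have hM0 : 0 < M := by exact_mod_cast hM0R
  have hbig := hP1 P hPP1
  have hlogM : 1 + Real.log M ≤ (P : ℝ) ^ κ := by
    have h1 : Real.log M ≤ A * Real.log P := by
      calc Real.log M ≤ Real.log ((P : ℝ) ^ A) := Real.log_le_log hM0R hM2
        _ = A * Real.log P := Real.log_rpow hP0R A
    have h2 := Real.log_le_rpow_div hP0R.le (by positivity : 0 < κ / 2)
    have h3 : (P : ℝ) ^ (κ / 2) / (κ / 2) = (2 / κ) * (P : ℝ) ^ (κ / 2) := by field_simp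
    rw [h3] at h2
    have h4 : (1 : ℝ) ≤ (P : ℝ) ^ (κ / 2) := Real.one_le_rpow hP1R (by positivity)
    have h5 : (P : ℝ) ^ κ = (P : ℝ) ^ (κ / 2) * (P : ℝ) ^ (κ / 2) := by
      rw [← Real.rpow_add hP0R, add_halves]
    calc 1 + Real.log M ≤ (P : ℝ) ^ (κ / 2) + A * ((2 / κ) * (P : ℝ) ^ (κ / 2)) := by
          refine add_le_add h4 (h1.trans ?_)
          gcongr
      _ = (1 + A * (2 / κ)) * (P : ℝ) ^ (κ / 2) := by ring
      _ ≤ (P : ℝ) ^ (κ / 2) * (P : ℝ) ^ (κ / 2) := by gcongr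
      _ = _ := h5.symm
  set T : ℕ → ℝ := fun b => ‖F (Ico P (2 * P)) (fun _ => (1 : ℝ)) a ((b : ℝ) / M)‖ ^ s with hT
  have hTnn : ∀ b, 0 ≤ T b := fun b => by simp only [hT]; positivity
  have hFtriv : ∀ β : ℝ, ‖F (Ico P (2 * P)) (fun _ => (1 : ℝ)) a β‖ ≤ P := by
    intro β
    unfold F
    refine (norm_sum_le _ _).trans ?_
    calc ∑ n ∈ Ico P (2 * P), ‖((1 : ℝ) : ℂ) * e (β * (a n : ℝ))‖ ≤ ∑ n ∈ Ico P (2 * P), (1 : ℝ) := by
          refine sum_le_sum fun n _ => ?_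
          rw [norm_mul, norm_e, mul_one]
          simp
      _ = P := by
          rw [sum_const, Nat.card_Ico, nsmul_eq_mul, mul_one, show 2 * P - P = P by omega]
  have hTtriv : ∀ b, T b ≤ (P : ℝ) ^ s := fun b => by
    simp only [hT]
    exact pow_le_pow_left₀ (norm_nonneg _) (hFtriv _) s
  have hsum2 : ∑ b ∈ range M, T b ≤ 2 * ∑ b ∈ range (M / 2 + 1), T b := by
    apply sum_half M T hTnn
    intro b hb1 hb2
    have e1 : (((M - b : ℕ) : ℝ)) / M = 1 - (b : ℝ) / M := by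
      rw [Nat.cast_sub hb2.le, sub_div, div_self hM0R.ne']
    simp only [hT, e1, norm_F_reflect, Complex.norm_conj]
  set B0 : ℝ := M / (P : ℝ) ^ k with hB0
  have hB01 : 1 ≤ B0 := by
    rw [hB0, le_div_iff₀ hPkpos]
    linarith
  have hPs : (P : ℝ) ^ s = (P : ℝ) ^ ((s : ℝ) - k) * (P : ℝ) ^ k := by
    rw [← Real.rpow_natCast (P : ℝ) k, ← Real.rpow_add hP0R, sub_add_cancel, Real.rpow_natCast]
  have hPsB : (P : ℝ) ^ s * B0 = M * (P : ℝ) ^ ((s : ℝ) - k) := by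
    rw [hB0, hPs]
    field_simp
  have hρs : ((P : ℝ) ^ ρ) ^ s = (P : ℝ) ^ (ρ * s) := by
    rw [← Real.rpow_natCast ((P : ℝ) ^ ρ) s, ← Real.rpow_mul hP0R.le]
  have hξs : ((P : ℝ) ^ ξ) ^ s = (P : ℝ) ^ (ξ * s) := by
    rw [← Real.rpow_natCast ((P : ℝ) ^ ξ) s, ← Real.rpow_mul hP0R.le]
  have hs2R : (2 : ℝ) ≤ s := hs2'.le
  -- bound for b ≥ 1
  have hTb : ∀ b : ℕ, 1 ≤ b → b ≤ M / 2 →
      T b ≤ E1 * ((P : ℝ) ^ ((s : ℝ) - k - κ) * (M * (1 / b))) +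
        3 ^ s * min ((P : ℝ) ^ s) ((P : ℝ) ^ s * (B0 ^ 2 * ((b : ℝ) ^ 2)⁻¹)) := by
    intro b hb1 hbM
    have hb1R : (1 : ℝ) ≤ b := by exact_mod_cast hb1
    have hb0 : (0 : ℝ) < b := by linarith
    have hβ0 : 0 < (b : ℝ) / M := by positivity
    have hβ2 : (b : ℝ) / M ≤ 1 / 2 := by
      rw [div_le_div_iff₀ hM0R (by norm_num)]
      have : b * 2 ≤ M := by omega
      have h' : (b : ℝ) * 2 ≤ M := by exact_mod_cast this
      linarith
    have hclose := hb b hbM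
    have hF1 : ‖F (Ico P (2 * P)) (fun _ => (1 : ℝ)) a ((b : ℝ) / M)‖ ≤
        (P : ℝ) ^ ρ + ‖Kf D ((b : ℝ) / M)‖ * ‖W k P ((b : ℝ) / M)‖ := by
      have h4 := norm_add_le (F (Ico P (2 * P)) (fun _ => (1 : ℝ)) a ((b : ℝ) / M) -
        Kf D ((b : ℝ) / M) * W k P ((b : ℝ) / M)) (Kf D ((b : ℝ) / M) * W k P ((b : ℝ) / M))
      rw [sub_add_cancel, norm_mul] at h4
      linarith
    have hmin0 : 0 ≤ 3 ^ s * min ((P : ℝ) ^ s) ((P : ℝ) ^ s * (B0 ^ 2 * ((b : ℝ) ^ 2)⁻¹)) := by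
      apply mul_nonneg (by positivity)
      exact le_min (by positivity) (by positivity)
    have hE1nn : 0 ≤ (P : ℝ) ^ ((s : ℝ) - k - κ) * (M * (1 / b)) := by positivity
    have h3M : (M * (1 / b) : ℝ) * ((b : ℝ) / M) = 1 := by field_simp
    rcases lt_or_ge ((b : ℝ) / M) ((P : ℝ) ^ (ξ - k)) with hcase | hcase
    · -- near
      have hone : 1 ≤ (P : ℝ) ^ (ξ - k) * (M * (1 / b)) := by
        calc (1 : ℝ) = (b : ℝ) / M * (M * (1 / b)) := by rw [mul_comm]; exact h3M.symm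
          _ ≤ _ := by gcongr
      have hWs := W_small k P (by omega) (by omega) hβ0 hβ2
      rw [← hC3] at hWs
      have hV : 1 / ((b : ℝ) / M * (P : ℝ) ^ (k - 1)) = P * (B0 / b) := by
        obtain ⟨k', rfl⟩ : ∃ k', k = k' + 1 := ⟨k - 1, by omega⟩
        rw [Nat.add_sub_cancel, hB0, pow_succ]
        field_simp
      rw [hV] at hWs
      have hβk : (b : ℝ) / M * (P : ℝ) ^ k ≤ (P : ℝ) ^ ξ := by
        calc (b : ℝ) / M * (P : ℝ) ^ k ≤ (P : ℝ) ^ (ξ - k) * (P : ℝ) ^ k := by gcongr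
          _ = (P : ℝ) ^ ξ := by
              rw [← Real.rpow_natCast (P : ℝ) k, ← Real.rpow_add hP0R]
              congr 1; ring
      have hF2 : ‖F (Ico P (2 * P)) (fun _ => (1 : ℝ)) a ((b : ℝ) / M)‖ ≤
          (P : ℝ) ^ ρ + C3 * (P : ℝ) ^ ξ + P * (B0 / b) := by
        have h5 : ‖Kf D ((b : ℝ) / M)‖ * ‖W k P ((b : ℝ) / M)‖ ≤ 1 * ‖W k P ((b : ℝ) / M)‖ := by
          gcongr
          exact norm_Kf_le_one _ _
        have h6 : C3 * ((b : ℝ) / M * (P : ℝ) ^ k) ≤ C3 * (P : ℝ) ^ ξ := by gcongr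
        linarith
      have hmain : T b ≤ 3 ^ s * ((P : ℝ) ^ (ρ * s) + C3 ^ s * (P : ℝ) ^ (ξ * s)) +
          3 ^ s * min ((P : ℝ) ^ s) ((P : ℝ) ^ s * (B0 ^ 2 * ((b : ℝ) ^ 2)⁻¹)) := by
        have h30 : (1 : ℝ) ≤ 3 ^ s := one_le_pow₀ (by norm_num)
        rcases le_or_gt (b : ℝ) B0 with hbB | hbB
        · have h6 : 1 ≤ B0 ^ 2 * ((b : ℝ) ^ 2)⁻¹ := by
            rw [← div_eq_mul_inv, le_div_iff₀ (by positivity), one_mul]
            gcongr
          have h7 : min ((P : ℝ) ^ s) ((P : ℝ) ^ s * (B0 ^ 2 * ((b : ℝ) ^ 2)⁻¹)) = (P : ℝ) ^ s := by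
            apply min_eq_left
            exact le_mul_of_one_le_right (by positivity) h6
          rw [h7]
          have h8 := hTtriv b
          have h9 : (P : ℝ) ^ s ≤ 3 ^ s * (P : ℝ) ^ s := le_mul_of_one_le_left (by positivity) h30
          have h10 : 0 ≤ 3 ^ s * ((P : ℝ) ^ (ρ * s) + C3 ^ s * (P : ℝ) ^ (ξ * s)) := by positivity
          linarith
        · have h6 : B0 / b ≤ 1 := by
            rw [div_le_one hb0]
            exact hbB.le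
          have h7 : min ((P : ℝ) ^ s) ((P : ℝ) ^ s * (B0 ^ 2 * ((b : ℝ) ^ 2)⁻¹)) =
              (P : ℝ) ^ s * (B0 ^ 2 * ((b : ℝ) ^ 2)⁻¹) := by
            apply min_eq_right
            apply mul_le_of_le_one_right (by positivity)
            rw [← div_eq_mul_inv, ← div_pow]
            exact pow_le_one₀ (by positivity) h6
          rw [h7]
          have h8 : (P * (B0 / b)) ^ s ≤ (P : ℝ) ^ s * (B0 ^ 2 * ((b : ℝ) ^ 2)⁻¹) := by
            rw [mul_pow, ← div_eq_mul_inv, ← div_pow]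
            gcongr ?_ * ?_
            exact pow_le_pow_of_le_one (by positivity) h6 hs2
          calc T b ≤ ((P : ℝ) ^ ρ + C3 * (P : ℝ) ^ ξ + P * (B0 / b)) ^ s := by
                simp only [hT]
                exact pow_le_pow_left₀ (norm_nonneg _) hF2 s
            _ ≤ 3 ^ s * (((P : ℝ) ^ ρ) ^ s + (C3 * (P : ℝ) ^ ξ) ^ s + (P * (B0 / b)) ^ s) :=
                add3_pow_le _ _ _ (by positivity) (by positivity) (by positivity) s
            _ ≤ 3 ^ s * ((P : ℝ) ^ (ρ * s) + C3 ^ s * (P : ℝ) ^ (ξ * s) +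
                  (P : ℝ) ^ s * (B0 ^ 2 * ((b : ℝ) ^ 2)⁻¹)) := by
                rw [mul_pow C3, hρs, hξs]
                gcongr
            _ = _ := by ring
      have h11 : (P : ℝ) ^ (ρ * s) + C3 ^ s * (P : ℝ) ^ (ξ * s) ≤
          (1 + C3 ^ s) * ((P : ℝ) ^ ((s : ℝ) - k - κ) * (M * (1 / b))) := by
        have h12 : (P : ℝ) ^ (ρ * s) ≤ (P : ℝ) ^ ((s : ℝ) - k - κ) * (M * (1 / b)) := by
          calc (P : ℝ) ^ (ρ * s) ≤ (P : ℝ) ^ (ρ * s) * ((P : ℝ) ^ (ξ - k) * (M * (1 / b))) :=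
                le_mul_of_one_le_right (by positivity) hone
            _ = (P : ℝ) ^ (ρ * s + (ξ - k)) * (M * (1 / b)) := by
                rw [Real.rpow_add hP0R]; ring
            _ ≤ _ := by
                gcongr ?_ * _
                exact Real.rpow_le_rpow_of_exponent_le hP1R (by linarith)
        have h13 : (P : ℝ) ^ (ξ * s) ≤ (P : ℝ) ^ ((s : ℝ) - k - κ) * (M * (1 / b)) := by
          calc (P : ℝ) ^ (ξ * s) ≤ (P : ℝ) ^ (ξ * s) * ((P : ℝ) ^ (ξ - k) * (M * (1 / b))) :=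
                le_mul_of_one_le_right (by positivity) hone
            _ = (P : ℝ) ^ (ξ * s + (ξ - k)) * (M * (1 / b)) := by
                rw [Real.rpow_add hP0R]; ring
            _ ≤ _ := by
                gcongr ?_ * _
                exact Real.rpow_le_rpow_of_exponent_le hP1R (by nlinarith)
        calc (P : ℝ) ^ (ρ * s) + C3 ^ s * (P : ℝ) ^ (ξ * s)
            ≤ (P : ℝ) ^ ((s : ℝ) - k - κ) * (M * (1 / b)) +
              C3 ^ s * ((P : ℝ) ^ ((s : ℝ) - k - κ) * (M * (1 / b))) := by gcongr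
          _ = _ := by ring
      have h14 : 3 ^ s * ((P : ℝ) ^ (ρ * s) + C3 ^ s * (P : ℝ) ^ (ξ * s)) ≤
          E1 * ((P : ℝ) ^ ((s : ℝ) - k - κ) * (M * (1 / b))) := by
        calc 3 ^ s * ((P : ℝ) ^ (ρ * s) + C3 ^ s * (P : ℝ) ^ (ξ * s))
            ≤ 3 ^ s * ((1 + C3 ^ s) * ((P : ℝ) ^ ((s : ℝ) - k - κ) * (M * (1 / b)))) := by gcongr
          _ = (3 ^ s * (1 + C3 ^ s)) * ((P : ℝ) ^ ((s : ℝ) - k - κ) * (M * (1 / b))) := by ring
          _ ≤ _ := by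
              gcongr
              rw [hE1]
              have : 0 ≤ 3 ^ s * (1 + C1) := by positivity
              linarith
      linarith
    · -- far
      have hU := hblock P D (by omega) hD hDη ((b : ℝ) / M) hcase hβ2
      have h5 : (b : ℝ) / M * T b ≤ 3 ^ s * (1 + C1) * (P : ℝ) ^ ((s : ℝ) - k - κ) := by
        have h6 : T b ≤ 3 ^ s * (((P : ℝ) ^ ρ) ^ s + (‖Kf D ((b : ℝ) / M)‖ * ‖W k P ((b : ℝ) / M)‖) ^ s + 0 ^ s) := by
          refine le_trans ?_ (add3_pow_le _ _ 0 (by positivity) (by positivity) le_rfl s)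
          simp only [hT, add_zero]
          exact pow_le_pow_left₀ (norm_nonneg _) hF1 s
        rw [zero_pow (by omega), add_zero, hρs] at h6
        have h7 : (b : ℝ) / M * (P : ℝ) ^ (ρ * s) ≤ (P : ℝ) ^ ((s : ℝ) - k - κ) := by
          calc (b : ℝ) / M * (P : ℝ) ^ (ρ * s) ≤ 1 * (P : ℝ) ^ (ρ * s) := by gcongr; linarith
            _ ≤ _ := by
                rw [one_mul]
                exact Real.rpow_le_rpow_of_exponent_le hP1R (by linarith)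
        have h8 : (P : ℝ) ^ ((s : ℝ) - k - κ1) ≤ (P : ℝ) ^ ((s : ℝ) - k - κ) :=
          Real.rpow_le_rpow_of_exponent_le hP1R (by linarith)
        calc (b : ℝ) / M * T b
            ≤ (b : ℝ) / M * (3 ^ s * ((P : ℝ) ^ (ρ * s) +
              (‖Kf D ((b : ℝ) / M)‖ * ‖W k P ((b : ℝ) / M)‖) ^ s)) := by gcongr
          _ = 3 ^ s * ((b : ℝ) / M * (P : ℝ) ^ (ρ * s) +
              (b : ℝ) / M * (‖Kf D ((b : ℝ) / M)‖ * ‖W k P ((b : ℝ) / M)‖) ^ s) := by ring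
          _ ≤ 3 ^ s * ((P : ℝ) ^ ((s : ℝ) - k - κ) + C1 * (P : ℝ) ^ ((s : ℝ) - k - κ)) := by
              have hU2 : (b : ℝ) / M * (‖Kf D ((b : ℝ) / M)‖ * ‖W k P ((b : ℝ) / M)‖) ^ s ≤
                C1 * (P : ℝ) ^ ((s : ℝ) - k - κ) := hU.trans (by gcongr)
              exact mul_le_mul_of_nonneg_left (add_le_add h7 hU2) (by positivity)
          _ = _ := by ring
      have h9 : T b ≤ E1 * ((P : ℝ) ^ ((s : ℝ) - k - κ) * (M * (1 / b))) := by
        calc T b = (M * (1 / b) : ℝ) * ((b : ℝ) / M * T b) := by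
              rw [← mul_assoc, h3M, one_mul]
          _ ≤ (M * (1 / b) : ℝ) * (3 ^ s * (1 + C1) * (P : ℝ) ^ ((s : ℝ) - k - κ)) := by gcongr
          _ = (3 ^ s * (1 + C1)) * ((P : ℝ) ^ ((s : ℝ) - k - κ) * (M * (1 / b))) := by ring
          _ ≤ _ := by
              gcongr
              rw [hE1]
              have : 0 ≤ 3 ^ s * (1 + C3 ^ s) := by positivity
              linarith
      linarith
  -- summation
  have hsumA : ∑ i ∈ range (M / 2), (M * (1 / ((i + 1 : ℕ) : ℝ)) : ℝ) ≤ M * (1 + Real.log M) := by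
    have h1 : ∑ i ∈ range (M / 2), (M * (1 / ((i + 1 : ℕ) : ℝ)) : ℝ) = M * (harmonic (M / 2) : ℝ) := by
      rw [← mul_sum]
      congr 1
      unfold harmonic
      push_cast
      refine sum_congr rfl fun i _ => by rw [one_div]
    rw [h1]
    gcongr
    refine (harmonic_le_one_add_log _).trans ?_
    rcases Nat.eq_zero_or_pos (M / 2) with h0 | h0
    · rw [h0]
      simp only [Nat.cast_zero, Real.log_zero, add_zero]
      have : 0 ≤ Real.log M := Real.log_nonneg (by exact_mod_cast hM0)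
      linarith
    · gcongr
      exact_mod_cast Nat.div_le_self M 2
  have hsumB : ∑ i ∈ range (M / 2), min ((P : ℝ) ^ s) ((P : ℝ) ^ s * (B0 ^ 2 * ((((i + 1 : ℕ)) : ℝ) ^ 2)⁻¹)) ≤
      3 * (M * (P : ℝ) ^ ((s : ℝ) - k)) := by
    set m : ℕ := ⌈B0⌉₊ with hm
    have hm1 : B0 ≤ m := Nat.le_ceil _
    have hm2 : (m : ℝ) < B0 + 1 := Nat.ceil_lt_add_one (by linarith)
    have hm0 : m ≠ 0 := by
      intro h
      rw [h] at hm1
      push_cast at hm1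
      linarith
    set g : ℕ → ℝ := fun b => min ((P : ℝ) ^ s) ((P : ℝ) ^ s * (B0 ^ 2 * ((b : ℝ) ^ 2)⁻¹)) with hg
    have hgnn : ∀ b, 0 ≤ g b := fun b => le_min (by positivity) (by positivity)
    have h1 : ∑ i ∈ range (M / 2), g (i + 1) = ∑ b ∈ Ioc 0 (M / 2), g b := by
      have e1 : Ioc 0 (M / 2) = Ico 1 (M / 2 + 1) := by
        ext x
        rw [mem_Ioc, mem_Ico]
        omega
      rw [e1, sum_Ico_eq_sum_range, Nat.add_sub_cancel]
      refine sum_congr rfl fun i _ => by rw [add_comm]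
    have h2 : ∑ b ∈ Ioc 0 (M / 2), g b ≤ ∑ b ∈ Ioc 0 m, g b + ∑ b ∈ Ioc m (max m (M / 2)), g b := by
      rw [← sum_union (by
        rw [disjoint_left]
        intro x hx hx'
        rw [mem_Ioc] at hx hx'
        omega)]
      apply sum_le_sum_of_subset_of_nonneg
      · intro x hx
        rw [mem_Ioc] at hx
        rw [mem_union, mem_Ioc, mem_Ioc]
        rcases le_or_gt x m with h | h
        · left; omega
        · right
          exact ⟨h, hx.2.trans (le_max_right _ _)⟩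
      · exact fun x _ _ => hgnn x
    have h3 : ∑ b ∈ Ioc 0 m, g b ≤ m * (P : ℝ) ^ s := by
      calc ∑ b ∈ Ioc 0 m, g b ≤ ∑ b ∈ Ioc 0 m, (P : ℝ) ^ s := sum_le_sum fun b _ => min_le_left _ _
        _ = _ := by rw [sum_const, Nat.card_Ioc, nsmul_eq_mul, Nat.sub_zero]
    have h4 : ∑ b ∈ Ioc m (max m (M / 2)), g b ≤ (P : ℝ) ^ s * (B0 ^ 2 * ((m : ℝ))⁻¹) := by
      calc ∑ b ∈ Ioc m (max m (M / 2)), g b
          ≤ ∑ b ∈ Ioc m (max m (M / 2)), (P : ℝ) ^ s * (B0 ^ 2 * ((b : ℝ) ^ 2)⁻¹) :=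
            sum_le_sum fun b _ => min_le_right _ _
        _ = (P : ℝ) ^ s * (B0 ^ 2 * ∑ b ∈ Ioc m (max m (M / 2)), ((b : ℝ) ^ 2)⁻¹) := by
            rw [mul_sum, mul_sum]
        _ ≤ _ := by
            gcongr
            have h5 := sum_Ioc_inv_sq_le_sub (α := ℝ) hm0 (le_max_left m (M / 2))
            have h6 : (0 : ℝ) ≤ ((max m (M / 2) : ℕ) : ℝ)⁻¹ := by positivity
            linarith
    have h5 : B0 ^ 2 * ((m : ℝ))⁻¹ ≤ B0 := by
      rw [← div_eq_mul_inv, div_le_iff₀ (by linarith), sq]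
      gcongr
    have h6 : (m : ℝ) * (P : ℝ) ^ s ≤ 2 * B0 * (P : ℝ) ^ s := by
      gcongr
      linarith
    show ∑ i ∈ range (M / 2), g (i + 1) ≤ _
    rw [h1]
    calc ∑ b ∈ Ioc 0 (M / 2), g b ≤ 2 * B0 * (P : ℝ) ^ s + (P : ℝ) ^ s * B0 := by
          refine h2.trans (add_le_add (h3.trans h6) (h4.trans ?_))
          gcongr
      _ = 3 * ((P : ℝ) ^ s * B0) := by ring
      _ = _ := by rw [hPsB]
  have hmain : ∑ b ∈ range (M / 2 + 1), T b ≤ (1 + E1 + 3 ^ s * 3) * (M * (P : ℝ) ^ ((s : ℝ) - k)) := by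
    rw [sum_range_succ']
    have h0 : T 0 ≤ M * (P : ℝ) ^ ((s : ℝ) - k) := by
      rw [← hPsB]
      exact (hTtriv 0).trans (le_mul_of_one_le_right (by positivity) hB01)
    have h1 : ∑ i ∈ range (M / 2), T (i + 1) ≤
        E1 * ((P : ℝ) ^ ((s : ℝ) - k - κ) * (M * (1 + Real.log M))) +
          3 ^ s * (3 * (M * (P : ℝ) ^ ((s : ℝ) - k))) := by
      calc ∑ i ∈ range (M / 2), T (i + 1)
          ≤ ∑ i ∈ range (M / 2), (E1 * ((P : ℝ) ^ ((s : ℝ) - k - κ) * (M * (1 / ((i + 1 : ℕ) : ℝ)))) +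
            3 ^ s * min ((P : ℝ) ^ s) ((P : ℝ) ^ s * (B0 ^ 2 * ((((i + 1 : ℕ)) : ℝ) ^ 2)⁻¹))) := by
            refine sum_le_sum fun i hi => ?_
            rw [mem_range] at hi
            exact hTb (i + 1) (by omega) (by omega)
        _ = E1 * ((P : ℝ) ^ ((s : ℝ) - k - κ) * ∑ i ∈ range (M / 2), (M * (1 / ((i + 1 : ℕ) : ℝ)))) +
            3 ^ s * ∑ i ∈ range (M / 2), min ((P : ℝ) ^ s)
              ((P : ℝ) ^ s * (B0 ^ 2 * ((((i + 1 : ℕ)) : ℝ) ^ 2)⁻¹)) := by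
            rw [sum_add_distrib, mul_sum, mul_sum, mul_sum]
        _ ≤ _ := by gcongr
    have h2 : (P : ℝ) ^ ((s : ℝ) - k - κ) * (M * (1 + Real.log M)) ≤ M * (P : ℝ) ^ ((s : ℝ) - k) := by
      calc (P : ℝ) ^ ((s : ℝ) - k - κ) * (M * (1 + Real.log M))
          ≤ (P : ℝ) ^ ((s : ℝ) - k - κ) * (M * (P : ℝ) ^ κ) := by gcongr
        _ = M * ((P : ℝ) ^ ((s : ℝ) - k - κ) * (P : ℝ) ^ κ) := by ring
        _ = _ := by
            rw [← Real.rpow_add hP0R]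
            congr 2
            ring
    have h3 : E1 * ((P : ℝ) ^ ((s : ℝ) - k - κ) * (M * (1 + Real.log M))) ≤
        E1 * (M * (P : ℝ) ^ ((s : ℝ) - k)) := by gcongr
    have h4 : (1 + E1 + 3 ^ s * 3) * (M * (P : ℝ) ^ ((s : ℝ) - k)) =
        E1 * (M * (P : ℝ) ^ ((s : ℝ) - k)) + 3 ^ s * (3 * (M * (P : ℝ) ^ ((s : ℝ) - k))) +
          M * (P : ℝ) ^ ((s : ℝ) - k) := by ring
    rw [h4]
    linarith
  calc ∑ b ∈ range M, T b ≤ 2 * ∑ b ∈ range (M / 2 + 1), T b := hsum2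
    _ ≤ 2 * ((1 + E1 + 3 ^ s * 3) * (M * (P : ℝ) ^ ((s : ℝ) - k))) := by gcongr
    _ = _ := by ring

end Pool.Agent.X30.WP
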