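import Mathlib
import Pool.Agent.X30.WP8

/-!
# Upper bounds for the number of representations by randomly shifted powers
-/

set_option autoImplicit false

namespace Pool.Agent.X30.WP

open Finset MeasureTheory ProbabilityTheory
open Pool.Agent.H469R2.NK (e norm_e e_add conj_e norm_sum_neg e_zero)

lemma weighted (I : Finset ℕ) (w z : ℕ → ℝ) (hw : ∀ i ∈ I, 0 < w i) (hW : ∑ i ∈ I, w i ≤ 1)
    (hz : ∀ i ∈ I, 0 ≤ z i) (s : ℕ) :
    (∑ i ∈ I, z i) ^ (s + 1) ≤ ∑ i ∈ I, (z i) ^ (s + 1) / (w i) ^ s := by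
  rcases I.eq_empty_or_nonempty with h | h
  · rw [h]
    simp
  set V : ℝ := ∑ i ∈ I, w i with hV
  have hV0 : 0 < V := sum_pos hw h
  have h1 := Real.pow_arith_mean_le_arith_mean_pow I (fun i => w i / V) (fun i => z i / (w i / V))
    (fun i hi => by have := hw i hi; positivity) (by rw [← sum_div, div_self hV0.ne'])
    (fun i hi => by have := hw i hi; have := hz i hi; positivity) (s + 1)
  have h2 : ∑ i ∈ I, w i / V * (z i / (w i / V)) = ∑ i ∈ I, z i := by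
    refine sum_congr rfl fun i hi => ?_
    have := (hw i hi).ne'
    field_simp
  rw [h2] at h1
  refine h1.trans (sum_le_sum fun i hi => ?_)
  have hwi := hw i hi
  have hzi := hz i hi
  have h3 : w i / V * (z i / (w i / V)) ^ (s + 1) = (z i) ^ (s + 1) / (w i) ^ s * V ^ s := by
    rw [div_pow, div_pow, pow_succ (w i) s, pow_succ V s]
    field_simp
  rw [h3]
  exact mul_le_of_le_one_right (by positivity) (pow_le_one₀ hV0.le hW)

variable {Ω : Type*} [MeasurableSpace Ω] {μ : Measure Ω} [IsProbabilityMeasure μ]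

/-- tail bound for one block -/
lemma tail1 (δ : ℕ → Ω → ℕ) (hm : ∀ m, Measurable (δ m)) (hind : iIndepFun δ μ)
    (Dm : ℕ → ℕ) (hD : ∀ m, 1 ≤ Dm m)
    (hu : ∀ m, ∀ d < Dm m, μ {ω | δ m ω = d} = 1 / (Dm m : ENNReal))
    (k P Hm : ℕ) (hP : 1 ≤ P) (τ : ℕ → ℕ) (hτ : ∀ n ∈ Ico P (2 * P), Dm (τ n) = Dm n)
    (hH : ∀ m, ((Ico P (2 * P)).filter (fun n => τ n = m)).card ≤ Hm) (β t : ℝ) (ht : 0 ≤ t) :
    μ.real {ω | t ≤ ‖∑ n ∈ Ico P (2 * P), e (β * (n : ℝ) ^ k) *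
      (e (β * δ (τ n) ω) - Kf (Dm n) β)‖} ≤ 4 * Real.exp (-t ^ 2 / (8 * (P * Hm))) := by
  set T : Finset ℕ := (Ico P (2 * P)).image τ with hT
  set c : ℕ → ℂ := fun m => ∑ n ∈ (Ico P (2 * P)).filter (fun n => τ n = m), e (β * (n : ℝ) ^ k) with hc
  set G : ℕ → ℝ := fun m => ((Ico P (2 * P)).filter (fun n => τ n = m)).card with hG
  have hid : ∀ ω, ∑ n ∈ Ico P (2 * P), e (β * (n : ℝ) ^ k) * (e (β * δ (τ n) ω) - Kf (Dm n) β) =
      ∑ m ∈ T, c m * (e (β * δ m ω) - Kf (Dm m) β) := by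
    intro ω
    rw [← sum_fiberwise_of_maps_to (s := Ico P (2 * P)) (t := T) (g := τ)
      (fun n hn => mem_image_of_mem τ hn)]
    refine sum_congr rfl fun m _ => ?_
    simp only [hc]
    rw [sum_mul]
    refine sum_congr rfl fun n hn => ?_
    rw [mem_filter] at hn
    rw [← hτ n hn.1, hn.2]
  have hcG : ∀ m ∈ T, ‖c m‖ ≤ G m := by
    intro m _
    simp only [hc, hG]
    refine (norm_sum_le _ _).trans ?_
    rw [sum_congr rfl (fun n _ => norm_e _), sum_const, nsmul_eq_mul, mul_one]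
  have hGsum : ∑ m ∈ T, G m = P := by
    simp only [hG]
    rw [← Nat.cast_sum, ← card_eq_sum_card_fiberwise (fun n hn => mem_image_of_mem τ hn), Nat.card_Ico,
      show 2 * P - P = P by omega]
  have hG0 : ∀ m, 0 ≤ G m := fun m => by simp only [hG]; positivity
  have hGH : ∀ m, G m ≤ Hm := fun m => by simp only [hG]; exact_mod_cast hH m
  have hV2 : ∑ m ∈ T, (G m) ^ 2 ≤ P * Hm := by
    calc ∑ m ∈ T, (G m) ^ 2 ≤ ∑ m ∈ T, G m * Hm := by
          refine sum_le_sum fun m _ => ?_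
          rw [sq]
          exact mul_le_mul_of_nonneg_left (hGH m) (hG0 m)
      _ = _ := by rw [← sum_mul, hGsum]
  have hV1 : 0 < ∑ m ∈ T, (G m) ^ 2 := by
    have hmem : τ P ∈ T := mem_image_of_mem τ (mem_Ico.2 ⟨le_rfl, by omega⟩)
    have h1 : 0 < G (τ P) := by
      simp only [hG]
      have : 0 < ((Ico P (2 * P)).filter (fun n => τ n = τ P)).card := by
        rw [card_pos]
        exact ⟨P, mem_filter.2 ⟨mem_Ico.2 ⟨le_rfl, by omega⟩, rfl⟩⟩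
      exact_mod_cast this
    exact lt_of_lt_of_le (by positivity) (single_le_sum (f := fun m => (G m) ^ 2)
      (fun m _ => by positivity) hmem)
  have h1 := conc_norm δ hm hind Dm hD hu T c G hcG (P * Hm) hV1 hV2 β t ht
  simp only [hid]
  exact h1

lemma F_sub1 (k P D : ℕ) (Dm : ℕ → ℕ) (h1 : ∀ n ∈ Ico P (2 * P), Dm n = D) (f : ℕ → ℕ) (β : ℝ) :
    F (Ico P (2 * P)) (fun _ => (1 : ℝ)) (fun n => n ^ k + f n) β - Kf D β * W k P β =
      ∑ n ∈ Ico P (2 * P), e (β * (n : ℝ) ^ k) * (e (β * f n) - Kf (Dm n) β) := by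
  have h3 : ∑ n ∈ Ico P (2 * P), e (β * (n : ℝ) ^ k) * Kf (Dm n) β = Kf D β * W k P β := by
    unfold W
    rw [mul_sum]
    refine sum_congr rfl fun n hn => ?_
    rw [h1 n hn]; ring
  rw [← h3]
  unfold F
  rw [← sum_sub_distrib]
  refine sum_congr rfl fun n _ => ?_
  rw [mul_sub, ← e_add]
  push_cast
  rw [one_mul, show β * ((n : ℝ) ^ k + f n) = β * (n : ℝ) ^ k + β * f n by ring]

/-- almost surely the sums over all blocks `[2 ^ i, 2 ^ (i + 1))`, `J / 2 ≤ i < J`, are close to their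
expectations at all frequencies `b / (2 s 2 ^ (J k))` -/
lemma closeFull (k s : ℕ) (η h ε : ℝ) (hh0 : 0 ≤ h) (hh1 : h ≤ 1) (hε : 0 < ε)
    (δ : ℕ → Ω → ℕ) (hm : ∀ m, Measurable (δ m)) (hind : iIndepFun δ μ)
    (hu : ∀ m, ∀ d < 2 ^ ⌊η * Nat.log 2 m⌋₊,
      μ {ω | δ m ω = d} = 1 / ((2 ^ ⌊η * Nat.log 2 m⌋₊ : ℕ) : ENNReal)) :
    ∀ᵐ ω ∂μ, ∃ J0 : ℕ, ∀ J : ℕ, J0 ≤ J → ∀ i : ℕ, J ≤ 2 * i → i < J →
      ∀ b : ℕ, b ≤ 2 * s * (2 ^ J) ^ k / 2 →
      ‖∑ n ∈ Ico (2 ^ i : ℕ) (2 * 2 ^ i), e ((b : ℝ) / (2 * s * (2 ^ J) ^ k : ℕ) * (n : ℝ) ^ k) *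
        (e ((b : ℝ) / (2 * s * (2 ^ J) ^ k : ℕ) * δ (tau h n) ω) -
          Kf (2 ^ ⌊η * Nat.log 2 n⌋₊) ((b : ℝ) / (2 * s * (2 ^ J) ^ k : ℕ)))‖ ≤
        ((2 ^ i : ℕ) : ℝ) ^ ((1 + h) / 2 + ε) := by
  set Dm : ℕ → ℕ := fun m => 2 ^ ⌊η * Nat.log 2 m⌋₊ with hDm
  have hD : ∀ m, 1 ≤ Dm m := fun m => Nat.one_le_two_pow
  set M : ℕ → ℕ := fun J => 2 * s * (2 ^ J) ^ k with hM
  set ρ : ℝ := (1 + h) / 2 + ε with hρ
  set E : ℕ → ℕ → ℕ → Set Ω := fun J i b => {ω | ((2 ^ i : ℕ) : ℝ) ^ ρ ≤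
    ‖∑ n ∈ Ico (2 ^ i : ℕ) (2 * 2 ^ i), e ((b : ℝ) / (M J : ℕ) * (n : ℝ) ^ k) *
        (e ((b : ℝ) / (M J : ℕ) * δ (tau h n) ω) - Kf (Dm n) ((b : ℝ) / (M J : ℕ)))‖} with hE
  set B : ℕ → Set Ω := fun J => ⋃ i ∈ (range J).filter (fun i => J ≤ 2 * i),
    ⋃ b ∈ range (M J / 2 + 1), E J i b with hB
  obtain ⟨J1, hJ1⟩ := exp_small (k + 1) (ε / 2) (by positivity)
  have hEb : ∀ J i b, J ≤ 2 * i → μ.real (E J i b) ≤ 4 * Real.exp (-((2 : ℝ) ^ J) ^ (2 * (ε / 2)) / 48) := by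
    intro J i b hJi
    have hx : (0 : ℝ) < 2 ^ i := by positivity
    have h1 := tail1 δ hm hind Dm hD hu k (2 ^ i) (2 ^ ⌊h * ((i : ℕ) : ℝ)⌋₊) Nat.one_le_two_pow (tau h)
      (by
        intro n hn
        rw [mem_Ico] at hn
        simp only [hDm]
        rw [log_tau h hh1 n (Nat.one_le_two_pow.trans hn.1)])
      (by
        intro m
        have hsub : (Ico (2 ^ i) (2 * 2 ^ i)).filter (fun n => tau h n = m) ⊆
            Ico m (m + 2 ^ ⌊h * ((i : ℕ) : ℝ)⌋₊) := by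
          intro n hn
          rw [mem_filter, mem_Ico] at hn
          rw [mem_Ico]
          have h2 := tau_le h n
          have h3 := lt_tau_add h n
          rw [log_block hn.1.1 hn.1.2] at h3
          rw [hn.2] at h2 h3
          exact ⟨h2, h3⟩
        refine (card_le_card hsub).trans ?_
        rw [Nat.card_Ico, Nat.add_sub_cancel_left])
      ((b : ℝ) / (M J : ℕ)) (((2 ^ i : ℕ) : ℝ) ^ ρ) (by positivity)
    refine h1.trans ?_
    gcongr 4 * Real.exp ?_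
    have h2 : ((2 ^ ⌊h * ((i : ℕ) : ℝ)⌋₊ : ℕ) : ℝ) ≤ ((2 : ℝ) ^ i) ^ h := by
      push_cast
      rw [← Real.rpow_natCast 2 ⌊h * (i : ℝ)⌋₊]
      calc (2 : ℝ) ^ ((⌊h * (i : ℝ)⌋₊ : ℕ) : ℝ) ≤ (2 : ℝ) ^ (h * (i : ℝ)) := by
            apply Real.rpow_le_rpow_of_exponent_le (by norm_num)
            exact Nat.floor_le (by positivity)
        _ = ((2 : ℝ) ^ i) ^ h := by
            rw [← Real.rpow_natCast 2 i, ← Real.rpow_mul (by norm_num)]
            congr 1; ring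
    rw [neg_div, neg_div, neg_le_neg_iff]
    push_cast at h2 ⊢
    have h3 : (((2 : ℝ) ^ i) ^ ρ) ^ 2 = ((2 : ℝ) ^ i) ^ (2 * ε) * ((2 : ℝ) ^ i * ((2 : ℝ) ^ i) ^ h) := by
      rw [← Real.rpow_natCast (((2 : ℝ) ^ i) ^ ρ) 2, ← Real.rpow_mul hx.le]
      nth_rewrite 3 [← Real.rpow_one ((2 : ℝ) ^ i)]
      rw [← Real.rpow_add hx, ← Real.rpow_add hx]
      congr 1
      rw [hρ]
      push_cast
      ring
    have h4 : ((2 : ℝ) ^ J) ^ (2 * (ε / 2)) ≤ ((2 : ℝ) ^ i) ^ (2 * ε) := by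
      rw [← Real.rpow_natCast 2 J, ← Real.rpow_natCast 2 i, ← Real.rpow_mul (by norm_num),
        ← Real.rpow_mul (by norm_num)]
      apply Real.rpow_le_rpow_of_exponent_le (by norm_num)
      have : (J : ℝ) ≤ 2 * i := by exact_mod_cast hJi
      nlinarith
    have hY : (0 : ℝ) < ((2 : ℝ) ^ i * ((2 : ℝ) ^ i) ^ h) := by positivity
    rw [h3, div_le_div_iff₀ (by norm_num) (by positivity)]
    calc ((2 : ℝ) ^ J) ^ (2 * (ε / 2)) * (8 * (2 ^ i * 2 ^ ⌊h * (i : ℝ)⌋₊))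
        ≤ ((2 : ℝ) ^ i) ^ (2 * ε) * (8 * (2 ^ i * ((2 : ℝ) ^ i) ^ h)) := by gcongr
      _ ≤ ((2 : ℝ) ^ i) ^ (2 * ε) * ((2 : ℝ) ^ i * ((2 : ℝ) ^ i) ^ h) * 48 := by
          have : (0 : ℝ) ≤ ((2 : ℝ) ^ i) ^ (2 * ε) * ((2 : ℝ) ^ i * ((2 : ℝ) ^ i) ^ h) := by positivity
          linarith
  set C5 : ℝ := 4 * (2 * s + 1) with hC5
  have hBb : ∀ J, J1 ≤ J → μ.real (B J) ≤ C5 * (1 / 2) ^ J := by
    intro J hJ
    have hx : (0 : ℝ) < 2 ^ J := by positivity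
    have hx1 : (1 : ℝ) ≤ 2 ^ J := one_le_pow₀ (by norm_num)
    simp only [hB]
    refine (measureReal_biUnion_finset_le _ _).trans ?_
    have h0 : ∀ i ∈ (range J).filter (fun i => J ≤ 2 * i), μ.real (⋃ b ∈ range (M J / 2 + 1), E J i b) ≤
        ((M J / 2 + 1 : ℕ) : ℝ) * (4 * Real.exp (-((2 : ℝ) ^ J) ^ (2 * (ε / 2)) / 48)) := by
      intro i hi
      rw [mem_filter] at hi
      refine (measureReal_biUnion_finset_le _ _).trans ?_
      refine (sum_le_sum fun b _ => hEb J i b hi.2).trans ?_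
      rw [sum_const, card_range, nsmul_eq_mul]
    refine (sum_le_sum h0).trans ?_
    rw [sum_const, nsmul_eq_mul]
    have hcard : ((((range J).filter (fun i => J ≤ 2 * i)).card : ℕ) : ℝ) ≤ (2 : ℝ) ^ J := by
      have h1 : ((range J).filter (fun i => J ≤ 2 * i)).card ≤ J := by
        refine (card_filter_le _ _).trans ?_
        rw [card_range]
      have h2 : J ≤ 2 ^ J := Nat.lt_two_pow_self.le
      exact_mod_cast h1.trans h2
    have h1 := hJ1 J hJ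
    have h2 : ((M J / 2 + 1 : ℕ) : ℝ) ≤ (2 * s + 1) * ((2 : ℝ) ^ J) ^ k := by
      have h3 : ((M J / 2 : ℕ) : ℝ) ≤ M J := by exact_mod_cast Nat.div_le_self _ _
      have h4 : (M J : ℝ) = 2 * s * ((2 : ℝ) ^ J) ^ k := by
        simp only [hM]
        push_cast
        ring
      have h5 : (1 : ℝ) ≤ ((2 : ℝ) ^ J) ^ k := one_le_pow₀ hx1
      push_cast
      rw [h4] at h3
      nlinarith
    calc _ ≤ (2 : ℝ) ^ J * (((2 * s + 1) * ((2 : ℝ) ^ J) ^ k) * (4 * (((2 : ℝ) ^ J) ^ (k + 1 + 1))⁻¹)) := by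
          gcongr
      _ = C5 * (1 / 2) ^ J := by
          rw [hC5, one_div, inv_pow, pow_succ ((2 : ℝ) ^ J) (k + 1), pow_succ ((2 : ℝ) ^ J) k]
          field_simp
  have hfin : ∑' i : ℕ, μ (B (i + J1)) ≠ ⊤ := by
    have h1 : ∀ i : ℕ, μ (B (i + J1)) ≤ ENNReal.ofReal (C5 * (1 / 2) ^ (i + J1)) := by
      intro i
      rw [← ofReal_measureReal (μ := μ) (s := B (i + J1)) (measure_ne_top μ _)]
      exact ENNReal.ofReal_le_ofReal (hBb _ (by omega))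
    refine ne_top_of_le_ne_top ?_ (ENNReal.tsum_le_tsum h1)
    apply Summable.tsum_ofReal_ne_top
    apply Summable.mul_left
    exact (summable_nat_add_iff J1).2 (summable_geometric_of_lt_one (by norm_num) (by norm_num))
  filter_upwards [ae_eventually_notMem hfin] with ω hω
  obtain ⟨J2, hJ2⟩ := Filter.eventually_atTop.1 hω
  refine ⟨J2 + J1, fun J hJ i hi1 hi2 b hb => ?_⟩
  have h1 := hJ2 (J - J1) (by omega)
  rw [show J - J1 + J1 = J by omega] at h1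
  simp only [hB, Set.mem_iUnion, not_exists] at h1
  have h2 := h1 i (mem_filter.2 ⟨mem_range.2 hi2, hi1⟩) b (mem_range.2 (by simp only [hM]; omega))
  simp only [hE, Set.mem_ofPred_eq, not_le] at h2
  exact h2.le

end Pool.Agent.X30.WP
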