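import Mathlib
import Pool.Agent.X30.WP9

/-!
# Upper bounds for the number of representations by randomly shifted powers, II
-/

set_option autoImplicit false

namespace Pool.Agent.X30.WP

open Finset MeasureTheory ProbabilityTheory
open Pool.Agent.H469R2.NK (e norm_e e_add conj_e norm_sum_neg e_zero)

lemma ratio_le (k s' : ℕ) (hk : 2 * k ≤ s') : (4 / 3 : ℝ) ^ s' * 2 ≤ 2 ^ (s' + 1 - k) := by
  have h1 : ((4 / 3 : ℝ) ^ s' * 2) ^ 2 ≤ (2 ^ (s' + 1 - k)) ^ 2 := by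
    calc ((4 / 3 : ℝ) ^ s' * 2) ^ 2 = (16 / 9 : ℝ) ^ s' * 4 := by
          rw [mul_pow, ← pow_mul, mul_comm s' 2, pow_mul]; norm_num
      _ ≤ 2 ^ s' * 4 := by gcongr; norm_num
      _ = 2 ^ (s' + 2) := by rw [pow_add]; norm_num
      _ ≤ 2 ^ ((s' + 1 - k) * 2) := pow_le_pow_right₀ (by norm_num) (by omega)
      _ = _ := by rw [pow_mul]
  exact le_of_sq_le_sq h1 (by positivity) |>.trans le_rfl

lemma sum_w (i0 J : ℕ) : ∑ i ∈ Ico i0 J, (1 / 3 : ℝ) * (3 / 4) ^ (J - i) ≤ 1 := by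
  have h1 : ∑ i ∈ Ico i0 J, (1 / 3 : ℝ) * (3 / 4) ^ (J - i) ≤ ∑ i ∈ range J, (1 / 3 : ℝ) * (3 / 4) ^ (J - i) := by
    apply sum_le_sum_of_subset_of_nonneg
    · intro x hx
      rw [mem_Ico] at hx
      exact mem_range.2 hx.2
    · intro x _ _; positivity
  refine h1.trans ?_
  have h2 : ∑ i ∈ range J, (1 / 3 : ℝ) * (3 / 4) ^ (J - i) = 1 - (3 / 4) ^ J := by
    clear h1
    induction J with
    | zero => simp
    | succ n ih =>
      rw [sum_range_succ, Nat.add_sub_cancel_left]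
      have h3 : ∑ i ∈ range n, (1 / 3 : ℝ) * (3 / 4) ^ (n + 1 - i) = (3 / 4) * (1 - (3 / 4) ^ n) := by
        rw [← ih, mul_sum]
        refine sum_congr rfl fun i hi => ?_
        rw [mem_range] at hi
        rw [show n + 1 - i = (n - i) + 1 by omega, pow_succ]; ring
      rw [h3]
      rw [pow_succ]; ring
  rw [h2]
  have : (0 : ℝ) ≤ (3 / 4) ^ J := by positivity
  linarith

lemma sum_half_pow (i0 J : ℕ) : ∑ i ∈ Ico i0 J, (1 / 2 : ℝ) ^ (J - i) ≤ 1 := by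
  have h1 : ∑ i ∈ Ico i0 J, (1 / 2 : ℝ) ^ (J - i) ≤ ∑ i ∈ range J, (1 / 2 : ℝ) ^ (J - i) := by
    apply sum_le_sum_of_subset_of_nonneg
    · intro x hx
      rw [mem_Ico] at hx
      exact mem_range.2 hx.2
    · intro x _ _; positivity
  refine h1.trans ?_
  have h2 : ∑ i ∈ range J, (1 / 2 : ℝ) ^ (J - i) = 1 - (1 / 2) ^ J := by
    clear h1
    induction J with
    | zero => simp
    | succ n ih =>
      rw [sum_range_succ, Nat.add_sub_cancel_left]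
      have h3 : ∑ i ∈ range n, (1 / 2 : ℝ) ^ (n + 1 - i) = (1 / 2) * (1 - (1 / 2) ^ n) := by
        rw [← ih, mul_sum]
        refine sum_congr rfl fun i hi => ?_
        rw [mem_range] at hi
        rw [show n + 1 - i = (n - i) + 1 by omega, pow_succ]; ring
      rw [h3]
      rw [pow_succ]; ring
  rw [h2]
  have : (0 : ℝ) ≤ (1 / 2) ^ J := by positivity
  linarith

lemma F_split (a : ℕ → ℕ) (β : ℝ) (i0 J : ℕ) (h : i0 ≤ J) :
    F (range (2 ^ J)) (fun _ => (1 : ℝ)) a β = F (range (2 ^ i0)) (fun _ => (1 : ℝ)) a β +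
      ∑ i ∈ Ico i0 J, F (Ico (2 ^ i) (2 * 2 ^ i)) (fun _ => (1 : ℝ)) a β := by
  induction J, h using Nat.le_induction with
  | base => simp
  | succ n hn ih =>
    rw [sum_Ico_succ_top hn, ← add_assoc, ← ih]
    unfold F
    rw [pow_succ, mul_comm (2 ^ n) 2, ← sum_range_add_sum_Ico _ (show 2 ^ n ≤ 2 * 2 ^ n by omega)]

lemma norm_F_range (L : ℕ) (a : ℕ → ℕ) (β : ℝ) : ‖F (range L) (fun _ => (1 : ℝ)) a β‖ ≤ L := by
  unfold F
  refine (norm_sum_le _ _).trans ?_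
  calc ∑ n ∈ range L, ‖((1 : ℝ) : ℂ) * e (β * (a n : ℝ))‖ ≤ ∑ n ∈ range L, (1 : ℝ) := by
        refine sum_le_sum fun n _ => ?_
        rw [norm_mul, norm_e, mul_one]
        simp
    _ = L := by
        rw [sum_const, card_range, nsmul_eq_mul, mul_one]

/-- deterministic upper bound for the number of representations -/
theorem rep_upper (k q s : ℕ) (hq1 : 1 ≤ q) (hq : q + 2 ≤ k) (hs : (2 : ℝ) ^ q < s) (η : ℝ)
    (_ : 0 ≤ η)
    (hη : ((k : ℝ) - η) * (s + q * 2 ^ q) < s * (q + 1)) (ρ : ℝ) (hρ0 : 0 ≤ ρ)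
    (hρ : ρ * s < s - k) (hsk : 2 * k + 1 ≤ s) :
    ∃ C : ℝ, 0 < C ∧ ∃ J0 : ℕ, ∀ J : ℕ, J0 ≤ J → ∀ a : ℕ → ℕ, (∀ n < 2 ^ J, a n < 2 * (2 ^ J) ^ k) →
      (∀ i : ℕ, J ≤ 2 * i → i < J → ∀ b : ℕ, b ≤ 2 * s * (2 ^ J) ^ k / 2 →
        ‖F (Ico (2 ^ i : ℕ) (2 * 2 ^ i)) (fun _ => (1 : ℝ)) a ((b : ℝ) / (2 * s * (2 ^ J) ^ k : ℕ)) -
          Kf (2 ^ ⌊η * i⌋₊) ((b : ℝ) / (2 * s * (2 ^ J) ^ k : ℕ)) *
            W k (2 ^ i) ((b : ℝ) / (2 * s * (2 ^ J) ^ k : ℕ))‖ ≤ ((2 ^ i : ℕ) : ℝ) ^ ρ) →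
      ∀ N : ℕ, N < (2 ^ J) ^ k →
        rep (range (2 ^ J)) (fun _ => (1 : ℝ)) a s N ≤ C * ((2 : ℝ) ^ J) ^ (s - k) := by
  obtain ⟨C, hC, P0, hP0⟩ := block_mean k q s hq1 hq hs η hη ρ hρ0 hρ (2 * s + 2 * k)
    (by
      have h1 : (1 : ℝ) ≤ s := by exact_mod_cast (by omega : 1 ≤ s)
      positivity)
  obtain ⟨s', rfl⟩ : ∃ s', s = s' + 1 := ⟨s - 1, by omega⟩
  refine ⟨3 ^ (s' + 1) * (2 ^ (s' + 1) + 3 ^ s' * C), by positivity, 2 * P0 + 2,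
    fun J hJ a ha hclose N hN => ?_⟩
  set M : ℕ := 2 * (s' + 1) * (2 ^ J) ^ k with hM
  have hM0 : 0 < M := by positivity
  have hM0R : (0 : ℝ) < M := by exact_mod_cast hM0
  set i0 : ℕ := (J + 1) / 2 with hi0
  have hi0J : i0 ≤ J := by omega
  -- Fourier
  have hNM : N < M := by
    refine hN.trans_le ?_
    rw [hM]
    exact Nat.le_mul_of_pos_left _ (by omega)
  have hsumM : ∀ f ∈ Fintype.piFinset (fun _ : Fin (s' + 1) => range (2 ^ J)), ∑ j, a (f j) < M := by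
    intro f hf
    rw [Fintype.mem_piFinset] at hf
    calc ∑ j, a (f j) < ∑ j : Fin (s' + 1), 2 * (2 ^ J) ^ k := by
          apply sum_lt_sum_of_nonempty univ_nonempty
          intro j _
          exact ha _ (mem_range.1 (hf j))
      _ = M := by
          rw [sum_const, card_univ, Fintype.card_fin, hM, smul_eq_mul]; ring
  have hfour := fourier (range (2 ^ J)) (fun _ => (1 : ℝ)) a (s' + 1) N M hNM hsumM
  have hrep0 : 0 ≤ rep (range (2 ^ J)) (fun _ => (1 : ℝ)) a (s' + 1) N := by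
    unfold rep
    refine sum_nonneg fun f _ => ?_
    split_ifs
    · simp
    · exact le_rfl
  have h1 : (M : ℝ) * rep (range (2 ^ J)) (fun _ => (1 : ℝ)) a (s' + 1) N ≤
      ∑ b ∈ range M, ‖F (range (2 ^ J)) (fun _ => (1 : ℝ)) a ((b : ℝ) / M)‖ ^ (s' + 1) := by
    have h2 := congrArg norm hfour
    rw [norm_mul, Complex.norm_natCast, Complex.norm_real, Real.norm_eq_abs, abs_of_nonneg hrep0] at h2
    rw [← h2]
    refine (norm_sum_le _ _).trans (le_of_eq ?_)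
    refine sum_congr rfl fun b _ => ?_
    rw [norm_mul, norm_e, mul_one, norm_pow]
  -- pointwise bound
  set w : ℕ → ℝ := fun i => (1 / 3) * (3 / 4) ^ (J - i) with hw
  have hwpos : ∀ i, 0 < w i := fun i => by simp only [hw]; positivity
  set Fi : ℕ → ℕ → ℝ := fun i b => ‖F (Ico (2 ^ i) (2 * 2 ^ i)) (fun _ => (1 : ℝ)) a ((b : ℝ) / M)‖ with hFi
  have h2 : ∀ b : ℕ, ‖F (range (2 ^ J)) (fun _ => (1 : ℝ)) a ((b : ℝ) / M)‖ ^ (s' + 1) ≤
      3 ^ (s' + 1) * (((2 : ℝ) ^ i0) ^ (s' + 1) + ∑ i ∈ Ico i0 J, (Fi i b) ^ (s' + 1) / (w i) ^ s') := by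
    intro b
    have h3 : ‖F (range (2 ^ J)) (fun _ => (1 : ℝ)) a ((b : ℝ) / M)‖ ≤ (2 : ℝ) ^ i0 + ∑ i ∈ Ico i0 J, Fi i b + 0 := by
      rw [F_split a _ i0 J hi0J, add_zero]
      refine (norm_add_le _ _).trans (add_le_add ?_ (norm_sum_le _ _))
      refine (norm_F_range _ _ _).trans (le_of_eq (by push_cast; rfl))
    calc ‖F (range (2 ^ J)) (fun _ => (1 : ℝ)) a ((b : ℝ) / M)‖ ^ (s' + 1)
        ≤ ((2 : ℝ) ^ i0 + ∑ i ∈ Ico i0 J, Fi i b + 0) ^ (s' + 1) := pow_le_pow_left₀ (norm_nonneg _) h3 _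
      _ ≤ 3 ^ (s' + 1) * (((2 : ℝ) ^ i0) ^ (s' + 1) + (∑ i ∈ Ico i0 J, Fi i b) ^ (s' + 1) + 0 ^ (s' + 1)) :=
          add3_pow_le _ _ 0 (by positivity) (sum_nonneg fun i _ => norm_nonneg _) le_rfl _
      _ ≤ _ := by
          rw [zero_pow (by omega), add_zero]
          gcongr
          exact weighted (Ico i0 J) w (fun i => Fi i b) (fun i _ => hwpos i) (sum_w i0 J)
            (fun i _ => norm_nonneg _) s'
  -- block means
  have hblock : ∀ i ∈ Ico i0 J, ∑ b ∈ range M, (Fi i b) ^ (s' + 1) ≤ C * (M * ((2 : ℝ) ^ i) ^ (s' + 1 - k)) := by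
    intro i hi
    rw [mem_Ico] at hi
    have hJi : J ≤ 2 * i := by omega
    have hi1 : 1 ≤ i := by omega
    have e1 : P0 ≤ 2 ^ i := by
      have : P0 ≤ i := by omega
      exact this.trans Nat.lt_two_pow_self.le
    have e2 : ((2 ^ i : ℕ) : ℝ) ^ η ≤ 2 * ((2 ^ ⌊η * (i : ℝ)⌋₊ : ℕ) : ℝ) := by
      push_cast
      rw [← Real.rpow_natCast 2 i, ← Real.rpow_mul (by norm_num), mul_comm (i : ℝ) η]
      calc (2 : ℝ) ^ (η * i) ≤ (2 : ℝ) ^ ((⌊η * (i : ℝ)⌋₊ : ℝ) + 1) := by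
            apply Real.rpow_le_rpow_of_exponent_le (by norm_num)
            exact (Nat.lt_floor_add_one _).le
        _ = 2 * 2 ^ ⌊η * (i : ℝ)⌋₊ := by
            rw [Real.rpow_add (by norm_num), Real.rpow_one, Real.rpow_natCast]; ring
    have e3 : (2 ^ i) ^ k ≤ M := by
      rw [hM]
      calc (2 ^ i) ^ k ≤ (2 ^ J) ^ k := Nat.pow_le_pow_left (Nat.pow_le_pow_right (by norm_num) hi.2.le) k
        _ ≤ _ := Nat.le_mul_of_pos_left _ (by omega)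
    have e4 : (M : ℝ) ≤ ((2 ^ i : ℕ) : ℝ) ^ (2 * ((s' + 1 : ℕ) : ℝ) + 2 * k) := by
      have h5 : M ≤ (2 ^ i) ^ (2 * (s' + 1) + 2 * k) := by
        rw [hM, pow_add]
        have h6 : 2 * (s' + 1) ≤ (2 ^ i) ^ (2 * (s' + 1)) := by
          calc 2 * (s' + 1) ≤ 2 ^ (2 * (s' + 1)) := Nat.lt_two_pow_self.le
            _ ≤ (2 ^ i) ^ (2 * (s' + 1)) := by
                gcongr
                calc 2 = 2 ^ 1 := by norm_num
                  _ ≤ 2 ^ i := Nat.pow_le_pow_right (by norm_num) hi1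
        have h7 : (2 ^ J) ^ k ≤ (2 ^ i) ^ (2 * k) := by
          rw [← pow_mul, ← pow_mul]
          apply Nat.pow_le_pow_right (by norm_num)
          nlinarith
        exact Nat.mul_le_mul h6 h7
      have h6 : 2 * ((s' + 1 : ℕ) : ℝ) + 2 * k = ((2 * (s' + 1) + 2 * k : ℕ) : ℝ) := by push_cast; ring
      rw [h6, Real.rpow_natCast]
      exact_mod_cast h5
    have h8 := hP0 (2 ^ i) (2 ^ ⌊η * (i : ℝ)⌋₊) e1 Nat.one_le_two_pow e2 M e3 e4 a (by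
      intro b hb
      exact hclose i hJi hi.2 b hb)
    have e5 : ((2 ^ i : ℕ) : ℝ) ^ (((s' + 1 : ℕ) : ℝ) - k) = ((2 : ℝ) ^ i) ^ (s' + 1 - k) := by
      rw [← Real.rpow_natCast ((2 : ℝ) ^ i), Nat.cast_sub (by omega)]
      push_cast
      rfl
    rw [e5] at h8
    exact h8
  -- the weighted sum of the block means
  have hgeo : ∀ i ∈ Ico i0 J, (M * ((2 : ℝ) ^ i) ^ (s' + 1 - k)) / (w i) ^ s' ≤
      3 ^ s' * (M * ((2 : ℝ) ^ J) ^ (s' + 1 - k)) * (1 / 2) ^ (J - i) := by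
    intro i hi
    rw [mem_Ico] at hi
    have hr := ratio_le k s' (by omega)
    have hr2 : ((4 / 3 : ℝ) ^ s') ^ (J - i) * 2 ^ (J - i) ≤ (2 ^ (s' + 1 - k)) ^ (J - i) := by
      rw [← mul_pow]
      exact pow_le_pow_left₀ (by positivity) hr _
    have hwi : (w i) ^ s' = (1 / 3) ^ s' * ((3 / 4 : ℝ) ^ s') ^ (J - i) := by
      simp only [hw]
      rw [mul_pow, ← pow_mul, ← pow_mul, mul_comm (J - i) s']
    have hinv : ((4 / 3 : ℝ) ^ s') ^ (J - i) * ((3 / 4 : ℝ) ^ s') ^ (J - i) = 1 := by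
      rw [← mul_pow, ← mul_pow]; norm_num
    have hinv3 : (3 : ℝ) ^ s' * (1 / 3) ^ s' = 1 := by rw [← mul_pow]; norm_num
    have hinv2 : (1 / 2 : ℝ) ^ (J - i) * 2 ^ (J - i) = 1 := by rw [← mul_pow]; norm_num
    have hJ2 : ((2 : ℝ) ^ J) ^ (s' + 1 - k) = ((2 : ℝ) ^ i) ^ (s' + 1 - k) * (2 ^ (s' + 1 - k)) ^ (J - i) := by
      rw [← pow_mul, ← pow_mul, ← pow_mul, ← pow_add]
      congr 1
      have : J = i + (J - i) := by omega
      nth_rewrite 1 [this]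
      ring
    rw [div_le_iff₀ (by have := hwpos i; positivity), hwi, hJ2]
    have hX : (0 : ℝ) ≤ M * ((2 : ℝ) ^ i) ^ (s' + 1 - k) := by positivity
    calc M * ((2 : ℝ) ^ i) ^ (s' + 1 - k)
        = M * ((2 : ℝ) ^ i) ^ (s' + 1 - k) * (((4 / 3 : ℝ) ^ s') ^ (J - i) * 2 ^ (J - i)) *
          (((3 / 4 : ℝ) ^ s') ^ (J - i) * (1 / 2 : ℝ) ^ (J - i)) := by
          have : (((4 / 3 : ℝ) ^ s') ^ (J - i) * 2 ^ (J - i)) *
            (((3 / 4 : ℝ) ^ s') ^ (J - i) * (1 / 2 : ℝ) ^ (J - i)) = 1 := by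
            calc _ = (((4 / 3 : ℝ) ^ s') ^ (J - i) * ((3 / 4 : ℝ) ^ s') ^ (J - i)) *
                  ((1 / 2 : ℝ) ^ (J - i) * 2 ^ (J - i)) := by ring
              _ = 1 := by rw [hinv, hinv2, one_mul]
          rw [mul_assoc, this, mul_one]
      _ ≤ M * ((2 : ℝ) ^ i) ^ (s' + 1 - k) * ((2 ^ (s' + 1 - k)) ^ (J - i)) *
          (((3 / 4 : ℝ) ^ s') ^ (J - i) * (1 / 2 : ℝ) ^ (J - i)) := by gcongr
      _ = (3 ^ s' * (1 / 3) ^ s') * (M * ((2 : ℝ) ^ i) ^ (s' + 1 - k) * ((2 ^ (s' + 1 - k)) ^ (J - i)) *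
          (((3 / 4 : ℝ) ^ s') ^ (J - i) * (1 / 2 : ℝ) ^ (J - i))) := by rw [hinv3, one_mul]
      _ = _ := by ring
  have h3 : ∑ b ∈ range M, ‖F (range (2 ^ J)) (fun _ => (1 : ℝ)) a ((b : ℝ) / M)‖ ^ (s' + 1) ≤
      3 ^ (s' + 1) * (M * ((2 : ℝ) ^ i0) ^ (s' + 1) + C * (3 ^ s' * (M * ((2 : ℝ) ^ J) ^ (s' + 1 - k)))) := by
    calc _ ≤ ∑ b ∈ range M, 3 ^ (s' + 1) * (((2 : ℝ) ^ i0) ^ (s' + 1) +
            ∑ i ∈ Ico i0 J, (Fi i b) ^ (s' + 1) / (w i) ^ s') := sum_le_sum fun b _ => h2 b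
      _ = 3 ^ (s' + 1) * (M * ((2 : ℝ) ^ i0) ^ (s' + 1) +
            ∑ i ∈ Ico i0 J, (∑ b ∈ range M, (Fi i b) ^ (s' + 1)) / (w i) ^ s') := by
          rw [← mul_sum, sum_add_distrib, sum_const, card_range, nsmul_eq_mul, sum_comm]
          simp only [sum_div]
      _ ≤ 3 ^ (s' + 1) * (M * ((2 : ℝ) ^ i0) ^ (s' + 1) +
            ∑ i ∈ Ico i0 J, C * (3 ^ s' * (M * ((2 : ℝ) ^ J) ^ (s' + 1 - k)) * (1 / 2) ^ (J - i))) := by
          gcongr with i hi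
          have hwi := hwpos i
          calc (∑ b ∈ range M, (Fi i b) ^ (s' + 1)) / (w i) ^ s'
              ≤ (C * (M * ((2 : ℝ) ^ i) ^ (s' + 1 - k))) / (w i) ^ s' := by
                gcongr
                exact hblock i hi
            _ = C * ((M * ((2 : ℝ) ^ i) ^ (s' + 1 - k)) / (w i) ^ s') := by rw [mul_div_assoc]
            _ ≤ _ := by
                gcongr
                exact hgeo i hi
      _ = 3 ^ (s' + 1) * (M * ((2 : ℝ) ^ i0) ^ (s' + 1) +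
            C * (3 ^ s' * (M * ((2 : ℝ) ^ J) ^ (s' + 1 - k)) * ∑ i ∈ Ico i0 J, (1 / 2) ^ (J - i))) := by
          rw [← mul_sum, ← mul_sum]
      _ ≤ _ := mul_le_mul_of_nonneg_left (add_le_add le_rfl (mul_le_mul_of_nonneg_left
          (mul_le_of_le_one_right (by positivity) (sum_half_pow i0 J)) hC.le)) (by positivity)
  have h4 : ((2 : ℝ) ^ i0) ^ (s' + 1) ≤ 2 ^ (s' + 1) * ((2 : ℝ) ^ J) ^ (s' + 1 - k) := by
    rw [← pow_mul, ← pow_mul, ← pow_add]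
    apply pow_le_pow_right₀ (by norm_num)
    have h5 : 2 * i0 ≤ J + 1 := by omega
    obtain ⟨t, ht⟩ : ∃ t, s' = 2 * k + t := ⟨s' - 2 * k, by omega⟩
    have h6 : s' + 1 - k = k + t + 1 := by omega
    rw [h6]
    nlinarith
  have h5 : (M : ℝ) * rep (range (2 ^ J)) (fun _ => (1 : ℝ)) a (s' + 1) N ≤
      M * (3 ^ (s' + 1) * (2 ^ (s' + 1) + 3 ^ s' * C) * ((2 : ℝ) ^ J) ^ (s' + 1 - k)) := by
    calc _ ≤ 3 ^ (s' + 1) * (M * ((2 : ℝ) ^ i0) ^ (s' + 1) +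
          C * (3 ^ s' * (M * ((2 : ℝ) ^ J) ^ (s' + 1 - k)))) := h1.trans h3
      _ ≤ 3 ^ (s' + 1) * (M * (2 ^ (s' + 1) * ((2 : ℝ) ^ J) ^ (s' + 1 - k)) +
          C * (3 ^ s' * (M * ((2 : ℝ) ^ J) ^ (s' + 1 - k)))) := by gcongr
      _ = _ := by ring
  exact le_of_mul_le_mul_left h5 hM0R

end Pool.Agent.X30.WP
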