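import Mathlib
import Pool.Agent.X30.WP10

/-!
# Two-sided counts for randomly shifted powers
-/

set_option autoImplicit false

namespace Pool.Agent.X30.WP

open Finset MeasureTheory ProbabilityTheory
open Pool.Agent.H469R2.NK (e norm_e e_add conj_e norm_sum_neg e_zero)

variable {Ω : Type*} [MeasurableSpace Ω] {μ : Measure Ω} [IsProbabilityMeasure μ]

theorem waring_upper (k q s : ℕ) (hq1 : 1 ≤ q) (hq : q + 2 ≤ k) (hs : (2 : ℝ) ^ q < s) (η h : ℝ)
    (hη : ((k : ℝ) - η) * (s + q * 2 ^ q) < s * (q + 1)) (hη1 : η ≤ k - 1)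
    (hh0 : 0 ≤ h) (hh : 2 * (k : ℝ) < s * (1 - h))
    (δ : ℕ → Ω → ℕ) (hm : ∀ m, Measurable (δ m)) (hind : iIndepFun δ μ)
    (hu : ∀ m, ∀ d < 2 ^ ⌊η * Nat.log 2 m⌋₊,
      μ {ω | δ m ω = d} = 1 / ((2 ^ ⌊η * Nat.log 2 m⌋₊ : ℕ) : ENNReal)) :
    ∃ C : ℝ, 0 < C ∧ ∀ᵐ ω ∂μ, (∀ m, δ m ω < 2 ^ ⌊η * Nat.log 2 m⌋₊) ∧
      ∃ N0 : ℕ, ∀ N : ℕ, N0 ≤ N → ∀ S : Finset (Fin s → ℕ),
      (∀ x ∈ S, N = ∑ i, (x i ^ k + δ (tau h (x i)) ω)) →
      (S.card : ℝ) ≤ C * (N : ℝ) ^ ((s : ℝ) / k - 1) := by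
  have hk0 : (3 : ℝ) ≤ k := by exact_mod_cast (by omega : 3 ≤ k)
  have h2q : (2 : ℝ) ≤ 2 ^ q := by
    calc (2 : ℝ) = 2 ^ 1 := by norm_num
      _ ≤ 2 ^ q := pow_le_pow_right₀ (by norm_num) hq1
  have hs2' : (2 : ℝ) < s := lt_of_le_of_lt h2q hs
  have hs0 : 1 ≤ s := by exact_mod_cast (by linarith : (1 : ℝ) ≤ s)
  have hh1 : h < 1 := by
    by_contra hcon
    push Not at hcon
    nlinarith
  have hη0 : 0 < η := by
    by_contra hcon
    push Not at hcon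
    have h1 : (q : ℝ) + 2 ≤ k := by exact_mod_cast hq
    have h2 : (0 : ℝ) ≤ q * 2 ^ q := by positivity
    have h3 : (k : ℝ) * (s + q * 2 ^ q) ≤ (k - η) * (s + q * 2 ^ q) := by
      apply mul_le_mul_of_nonneg_right _ (by positivity)
      linarith
    have h4 : (s : ℝ) * (q + 1) ≤ k * (s + q * 2 ^ q) := by nlinarith
    linarith
  set ε : ℝ := (s * (1 - h) - 2 * k) / (4 * s) with hε
  have hε0 : 0 < ε := by
    rw [hε]
    apply div_pos (by linarith) (by linarith)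
  have hεs : ε * s = (s * (1 - h) - 2 * k) / 4 := by
    rw [hε]
    field_simp
  have hsk1 : 2 * k + 1 ≤ s := by
    have h1 : 2 * (k : ℝ) < s := by nlinarith
    have h2 : 2 * k < s := by exact_mod_cast h1
    omega
  obtain ⟨C, hC, J1, hJ1⟩ := rep_upper k q s hq1 hq hs η hη0.le hη ((1 + h) / 2 + ε) (by positivity)
    (by nlinarith) hsk1
  refine ⟨C * 2 ^ (s - k), by positivity, ?_⟩
  have hδ : ∀ᵐ ω ∂μ, ∀ m, δ m ω < 2 ^ ⌊η * Nat.log 2 m⌋₊ :=
    ae_all_iff.2 fun m => unif_ae (δ m) (hm m) _ Nat.one_le_two_pow (hu m)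
  filter_upwards [hδ, closeFull (μ := μ) k s η h ε hh0 hh1.le hε0 δ hm hind hu] with ω hω1 hω2
  obtain ⟨J2, hJ2⟩ := hω2
  refine ⟨hω1, (2 ^ k) ^ (J1 + J2), fun N hN S hS => ?_⟩
  have hk1 : 1 < 2 ^ k := Nat.one_lt_two_pow (by omega)
  have hN0 : N ≠ 0 := by
    have : 0 < (2 ^ k) ^ (J1 + J2) := by positivity
    omega
  set j : ℕ := Nat.log (2 ^ k) N with hj
  have hj1 : (2 ^ k) ^ j ≤ N := Nat.pow_log_le_self _ hN0
  have hj2 : N < (2 ^ k) ^ (j + 1) := Nat.lt_pow_succ_log_self hk1 N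
  have hjmax : J1 + J2 ≤ j := by
    rw [hj]
    exact Nat.le_log_of_pow_le hk1 hN
  have hpow : ∀ i : ℕ, ((2 : ℕ) ^ k) ^ i = (2 ^ i) ^ k := fun i => by rw [← pow_mul, ← pow_mul, mul_comm]
  rw [hpow] at hj1 hj2
  set a : ℕ → ℕ := fun n => n ^ k + δ (tau h n) ω with ha
  have hsize : ∀ n < 2 ^ (j + 1), a n < 2 * (2 ^ (j + 1)) ^ k := by
    intro n hn
    simp only [ha]
    have h1 : n ^ k < (2 ^ (j + 1)) ^ k := Nat.pow_lt_pow_left hn (by omega)
    have h2 : δ (tau h n) ω < (2 ^ (j + 1)) ^ k := by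
      refine (hω1 _).trans_le ?_
      rw [← pow_mul]
      apply Nat.pow_le_pow_right (by norm_num)
      have h3 : Nat.log 2 (tau h n) ≤ j := by
        rcases Nat.eq_zero_or_pos n with h0 | h0
        · rw [h0]
          have : tau h 0 = 0 := by unfold tau; simp
          rw [this]; simp
        · rw [log_tau h hh1.le n h0]
          have : Nat.log 2 n < j + 1 := Nat.log_lt_of_lt_pow (by omega) hn
          omega
      have h4 : η * (Nat.log 2 (tau h n) : ℝ) ≤ (((j + 1) * k : ℕ) : ℝ) := by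
        push_cast
        have h5 : (Nat.log 2 (tau h n) : ℝ) ≤ j := by exact_mod_cast h3
        have h6 : (0 : ℝ) ≤ (Nat.log 2 (tau h n) : ℝ) := by positivity
        nlinarith
      calc ⌊η * (Nat.log 2 (tau h n) : ℝ)⌋₊ ≤ ⌊(((j + 1) * k : ℕ) : ℝ)⌋₊ := Nat.floor_le_floor h4
        _ = _ := Nat.floor_natCast _
    omega
  have hmain := hJ1 (j + 1) (by omega) a hsize (by
    intro i hi1 hi2 b hb
    have h1 := hJ2 (j + 1) (by omega) i hi1 hi2 b hb
    rw [F_sub1 k (2 ^ i) (2 ^ ⌊η * (i : ℝ)⌋₊) (fun n => 2 ^ ⌊η * (Nat.log 2 n : ℝ)⌋₊) (by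
      intro n hn
      rw [mem_Ico] at hn
      rw [log_block hn.1 hn.2]) (fun n => δ (tau h n) ω)]
    exact h1) N hj2
  rw [rep_one] at hmain
  have hsub : S ⊆ (Fintype.piFinset (fun _ : Fin s => range (2 ^ (j + 1)))).filter (fun f => ∑ i, a (f i) = N) := by
    intro x hx
    have h1 := hS x hx
    rw [mem_filter, Fintype.mem_piFinset]
    refine ⟨fun i => ?_, h1.symm⟩
    rw [mem_range]
    have h2 : x i ^ k ≤ N := by
      calc x i ^ k ≤ x i ^ k + δ (tau h (x i)) ω := Nat.le_add_right _ _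
        _ ≤ ∑ i, (x i ^ k + δ (tau h (x i)) ω) :=
            single_le_sum (f := fun i => x i ^ k + δ (tau h (x i)) ω) (fun _ _ => Nat.zero_le _) (mem_univ i)
        _ = N := h1.symm
    exact lt_of_pow_lt_pow_left₀ k (by positivity) (h2.trans_lt hj2)
  have hcard : (S.card : ℝ) ≤ C * ((2 : ℝ) ^ (j + 1)) ^ (s - k) := by
    refine le_trans ?_ hmain
    exact_mod_cast card_le_card hsub
  refine hcard.trans ?_
  rw [mul_assoc]
  gcongr
  have h1 : ((2 : ℝ) ^ (j + 1)) ^ (s - k) = 2 ^ (s - k) * ((2 : ℝ) ^ j) ^ (s - k) := by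
    rw [← mul_pow, pow_succ]; ring
  rw [h1]
  gcongr
  have h2 : ((2 : ℝ) ^ j) ^ (s - k) = (((2 : ℝ) ^ j) ^ k) ^ ((s : ℝ) / k - 1) := by
    have hx : (0 : ℝ) < 2 ^ j := by positivity
    rw [← Real.rpow_natCast ((2 : ℝ) ^ j) k, ← Real.rpow_mul hx.le, ← Real.rpow_natCast ((2 : ℝ) ^ j) (s - k),
      Nat.cast_sub (by omega)]
    congr 1
    field_simp
  rw [h2]
  apply Real.rpow_le_rpow (by positivity)
  · exact_mod_cast hj1
  · rw [sub_nonneg, le_div_iff₀ (by linarith)]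
    have : (2 * (k : ℝ) + 1) ≤ s := by exact_mod_cast hsk1
    linarith

/-- the two-sided count on randomly shifted arithmetic `k`-spheres -/
theorem sphere (k q s : ℕ) (hq1 : 1 ≤ q) (hq : q + 2 ≤ k) (hs : (2 : ℝ) ^ q < s) (η h : ℝ)
    (hη : ((k : ℝ) - η) * (s + q * 2 ^ q) < s * (q + 1)) (hη1 : η ≤ k - 1)
    (hh0 : 0 ≤ h) (hh : 2 * (k : ℝ) < s * (1 - h))
    (δ : ℕ → Ω → ℕ) (hm : ∀ m, Measurable (δ m)) (hind : iIndepFun δ μ)
    (hu : ∀ m, ∀ d < 2 ^ ⌊η * Nat.log 2 m⌋₊,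
      μ {ω | δ m ω = d} = 1 / ((2 ^ ⌊η * Nat.log 2 m⌋₊ : ℕ) : ENNReal)) :
    ∃ c C : ℝ, 0 < c ∧ 0 < C ∧ ∀ᵐ ω ∂μ, ∃ N0 : ℕ, ∀ N : ℕ, N0 ≤ N →
      {x : Fin s → ℤ | ∑ i, ((x i).natAbs ^ k + δ (tau h (x i).natAbs) ω) = N}.Finite ∧
      c * (N : ℝ) ^ ((s : ℝ) / k - 1) ≤
        ({x : Fin s → ℤ | ∑ i, ((x i).natAbs ^ k + δ (tau h (x i).natAbs) ω) = N}.ncard : ℝ) ∧
      ({x : Fin s → ℤ | ∑ i, ((x i).natAbs ^ k + δ (tau h (x i).natAbs) ω) = N}.ncard : ℝ) ≤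
        C * (N : ℝ) ^ ((s : ℝ) / k - 1) := by
  obtain ⟨c, hc, hlow⟩ := waring k q s hq1 hq hs η h hη hη1 hh0 hh δ hm hind hu
  obtain ⟨C, hC, hup⟩ := waring_upper k q s hq1 hq hs η h hη hη1 hh0 hh δ hm hind hu
  refine ⟨c, 2 ^ s * C, hc, by positivity, ?_⟩
  filter_upwards [hlow, hup] with ω h1 h2
  obtain ⟨N1, hN1⟩ := h1
  obtain ⟨_, N2, hN2⟩ := h2
  refine ⟨max N1 N2, fun N hN => ?_⟩
  set V : Set (Fin s → ℤ) := {x | ∑ i, ((x i).natAbs ^ k + δ (tau h (x i).natAbs) ω) = N} with hV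
  have hk1 : k ≠ 0 := by omega
  -- finiteness
  have hfin : V.Finite := by
    apply (Fintype.piFinset (fun _ : Fin s => Icc (-(N : ℤ)) N)).finite_toSet.subset
    intro x hx
    rw [mem_coe, Fintype.mem_piFinset]
    intro i
    rw [hV, Set.mem_ofPred_eq] at hx
    have h3 : (x i).natAbs ≤ N := by
      calc (x i).natAbs ≤ (x i).natAbs ^ k := Nat.le_self_pow hk1 _
        _ ≤ (x i).natAbs ^ k + δ (tau h (x i).natAbs) ω := Nat.le_add_right _ _
        _ ≤ ∑ i, ((x i).natAbs ^ k + δ (tau h (x i).natAbs) ω) :=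
            single_le_sum (f := fun i => (x i).natAbs ^ k + δ (tau h (x i).natAbs) ω)
              (fun _ _ => Nat.zero_le _) (mem_univ i)
        _ = N := hx
    rw [mem_Icc]
    omega
  refine ⟨hfin, ?_, ?_⟩
  · -- lower bound
    obtain ⟨S, hS1, hS2⟩ := hN1 N ((le_max_left _ _).trans hN)
    refine hS2.trans ?_
    have h3 : (S.image (fun x : Fin s → ℕ => fun i => (x i : ℤ)) : Set (Fin s → ℤ)) ⊆ V := by
      intro y hy
      rw [mem_coe, mem_image] at hy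
      obtain ⟨x, hx, rfl⟩ := hy
      rw [hV, Set.mem_ofPred_eq]
      simp only [Int.natAbs_natCast]
      exact (hS1 x hx).2.symm
    have h4 := Set.ncard_le_ncard h3 hfin
    rw [Set.ncard_coe_finset, card_image_of_injective] at h4
    · exact_mod_cast h4
    · intro x y hxy
      funext i
      have := congrFun hxy i
      simpa using this
  · -- upper bound
    set T : Finset (Fin s → ℤ) := hfin.toFinset with hT
    have hTV : V.ncard = T.card := by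
      rw [Set.ncard_eq_toFinset_card V hfin]
    rw [hTV]
    set g : (Fin s → ℤ) → (Fin s → ℕ) := fun x i => (x i).natAbs with hg
    set sg : (Fin s → ℤ) → (Fin s → Bool) := fun x i => decide (0 ≤ x i) with hsg
    have h3 : T.card ≤ ((T.image g) ×ˢ (univ : Finset (Fin s → Bool))).card := by
      apply card_le_card_of_injOn (fun x => (g x, sg x))
      · intro x hx
        rw [mem_coe] at hx
        rw [mem_coe, mem_product]
        exact ⟨mem_image_of_mem g hx, mem_univ _⟩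
      · intro x _ y _ hxy
        simp only [Prod.mk.injEq] at hxy
        obtain ⟨e1, e2⟩ := hxy
        funext i
        have f1 : (x i).natAbs = (y i).natAbs := congrFun e1 i
        have f2 : decide (0 ≤ x i) = decide (0 ≤ y i) := congrFun e2 i
        rw [decide_eq_decide] at f2
        omega
    rw [card_product] at h3
    have h4 : (univ : Finset (Fin s → Bool)).card = 2 ^ s := by simp
    rw [h4] at h3
    have h5 := hN2 N ((le_max_right _ _).trans hN) (T.image g) (by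
      intro y hy
      rw [mem_image] at hy
      obtain ⟨x, hx, rfl⟩ := hy
      rw [hT, Set.Finite.mem_toFinset, hV, Set.mem_ofPred_eq] at hx
      exact hx.symm)
    calc (T.card : ℝ) ≤ ((T.image g).card : ℝ) * 2 ^ s := by exact_mod_cast h3
      _ ≤ (C * (N : ℝ) ^ ((s : ℝ) / k - 1)) * 2 ^ s := by gcongr
      _ = _ := by ring

end Pool.Agent.X30.WP
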