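import Mathlib
import Pool.Agent.X30.WP11

/-!
# One block: the perturbed sum against the smooth sum
-/

set_option autoImplicit false

namespace Pool.Agent.X30.WP

open Finset
open Pool.Agent.H469R2.NK (e norm_e e_add conj_e norm_sum_neg e_zero)

/-- smooth block sum -/
noncomputable def Gb (k P : ℕ) (β : ℝ) : ℂ := ∑ n ∈ Ico P (2 * P), e (β * (n : ℝ) ^ k) * Kf (gp k n) β

lemma norm_Gb_le (k P : ℕ) (β : ℝ) : ‖Gb k P β‖ ≤ P := by
  unfold Gb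
  refine (norm_sum_le _ _).trans ?_
  calc ∑ n ∈ Ico P (2 * P), ‖e (β * (n : ℝ) ^ k) * Kf (gp k n) β‖ ≤ ∑ n ∈ Ico P (2 * P), (1 : ℝ) := by
        refine sum_le_sum fun n _ => ?_
        rw [norm_mul, norm_e, one_mul]
        exact norm_Kf_le_one _ _
    _ = P := by
        rw [sum_const, Nat.card_Ico, nsmul_eq_mul, mul_one, show 2 * P - P = P by omega]

lemma norm_Gb_le' (k P : ℕ) (hk : 1 ≤ k) (hP : 1 ≤ P) {β : ℝ} (h0 : 0 < β) (h1 : β ≤ 1 / 2) :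
    ‖Gb k P β‖ ≤ 1 / (β * (P : ℝ) ^ (k - 1)) :=
  norm_FZ1_le k P (2 * P) hk hP (by omega) h0 h1

lemma Gb_sub (k P D : ℕ) (hk : 1 ≤ k) (hP : 1 ≤ P) (hD : 1 ≤ D) (hD' : D ≤ P ^ (k - 1)) (β : ℝ) (hβ : 0 ≤ β) :
    ‖Kf D β * W k P β - Gb k P β‖ ≤ (2 * Real.pi * (1 + k * 2 ^ (k - 1))) * (β * (P : ℝ) ^ k) := by
  obtain ⟨k', rfl⟩ : ∃ k', k = k' + 1 := ⟨k - 1, by omega⟩
  have hpi := Real.pi_pos
  rw [Nat.add_sub_cancel] at hD'
  have h1 : Kf D β * W (k' + 1) P β - Gb (k' + 1) P β =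
      ∑ n ∈ Ico P (2 * P), e (β * (n : ℝ) ^ (k' + 1)) * ((Kf D β - 1) - (Kf (gp (k' + 1) n) β - 1)) := by
    unfold W Gb
    rw [mul_sum, ← sum_sub_distrib]
    refine sum_congr rfl fun n _ => by ring
  rw [h1]
  refine (norm_sum_le _ _).trans ?_
  have hD1 : (D : ℝ) ≤ (P : ℝ) ^ k' := by exact_mod_cast hD'
  calc ∑ n ∈ Ico P (2 * P), ‖e (β * (n : ℝ) ^ (k' + 1)) * ((Kf D β - 1) - (Kf (gp (k' + 1) n) β - 1))‖
      ≤ ∑ n ∈ Ico P (2 * P), (2 * Real.pi * β * (P : ℝ) ^ k' +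
          2 * Real.pi * β * (((k' + 1 : ℕ) : ℝ) * (2 * (P : ℝ)) ^ k')) := by
        refine sum_le_sum fun n hn => ?_
        rw [mem_Ico] at hn
        rw [norm_mul, norm_e, one_mul]
        refine (norm_sub_le _ _).trans (add_le_add ?_ ?_)
        · refine (norm_Kf_sub_one D hD β hβ).trans ?_
          gcongr
        · refine (norm_Kf_sub_one (gp (k' + 1) n) (gp_pos (k' + 1) n (by omega)) β hβ).trans ?_
          gcongr
          have h6 := gp_le k' n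
          have h7 : (k' + 1) * (n + 1) ^ k' ≤ (k' + 1) * (2 * P) ^ k' := by
            gcongr
            omega
          exact_mod_cast h6.trans h7
    _ = _ := by
        rw [sum_const, Nat.card_Ico, nsmul_eq_mul, show 2 * P - P = P by omega, mul_pow]
        rw [Nat.add_sub_cancel]
        push_cast
        ring

theorem block_diff (k q s : ℕ) (hq1 : 1 ≤ q) (hq : q + 2 ≤ k) (hs : (2 : ℝ) ^ q < s) (η : ℝ)
    (hη : ((k : ℝ) - η) * (s + q * 2 ^ q) < s * (q + 1)) (ρ : ℝ) (hρ0 : 1 / 2 ≤ ρ)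
    (hρ : ρ * s < s - k) :
    ∃ κ C : ℝ, 0 < κ ∧ κ ≤ 1 / 2 ∧ 0 < C ∧ ∀ P D : ℕ, 2 ≤ P → 1 ≤ D → (P : ℝ) ^ η ≤ 2 * D → D ≤ P ^ (k - 1) →
      ∀ β : ℝ, 0 < β → β ≤ 1 / 2 → ∀ x : ℂ, ‖x - Kf D β * W k P β‖ ≤ (P : ℝ) ^ ρ →
        β * ‖x - Gb k P β‖ ^ s ≤ C * (P : ℝ) ^ ((s : ℝ) - k - κ) := by
  have h2q : (2 : ℝ) ≤ 2 ^ q := by
    calc (2 : ℝ) = 2 ^ 1 := by norm_num
      _ ≤ 2 ^ q := pow_le_pow_right₀ (by norm_num) hq1
  have hs2' : (2 : ℝ) < s := lt_of_le_of_lt h2q hs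
  have hs2 : 2 ≤ s := by exact_mod_cast hs2'.le
  have hk0 : (3 : ℝ) ≤ k := by exact_mod_cast (by omega : 3 ≤ k)
  have hρ1 : ρ < 1 := by
    by_contra hcon
    push Not at hcon
    nlinarith
  set ξ : ℝ := (1 - ρ) / 3 with hξdef
  have hξ : 0 < ξ := by rw [hξdef]; linarith
  have hξ1 : ξ ≤ ρ := by rw [hξdef]; linarith
  obtain ⟨κ1, C1, hκ1, hC1, hblock⟩ := block_bound k q s hq1 hq hs2 hs η hη ξ hξ
  set κ : ℝ := min κ1 (min ξ (min (s - k - ρ * s) (1 / 2))) with hκdef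
  have hκ : 0 < κ := lt_min hκ1 (lt_min hξ (lt_min (by linarith) (by norm_num)))
  have hκκ1 : κ ≤ κ1 := min_le_left _ _
  have hκξ : κ ≤ ξ := (min_le_right _ _).trans (min_le_left _ _)
  have hκρ : κ ≤ s - k - ρ * s := ((min_le_right _ _).trans (min_le_right _ _)).trans (min_le_left _ _)
  have hκh : κ ≤ 1 / 2 := ((min_le_right _ _).trans (min_le_right _ _)).trans (min_le_right _ _)
  set C3 : ℝ := 2 * Real.pi * (1 + k * 2 ^ (k - 1)) with hC3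
  have hC30 : 0 ≤ C3 := by positivity
  refine ⟨κ, (1 + C3) ^ s + 3 ^ s * (2 + C1), hκ, hκh, by positivity,
    fun P D hP2 hD hDη hD' β hβ0 hβ2 x hx => ?_⟩
  have hP1R : (1 : ℝ) ≤ P := by exact_mod_cast (by omega : 1 ≤ P)
  have hP0R : (0 : ℝ) < P := by linarith
  have hPρs : ((P : ℝ) ^ ρ) ^ s ≤ (P : ℝ) ^ ((s : ℝ) - k - κ) := by
    rw [← Real.rpow_natCast ((P : ℝ) ^ ρ) s, ← Real.rpow_mul hP0R.le]
    exact Real.rpow_le_rpow_of_exponent_le hP1R (by linarith)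
  have hX0 : 0 ≤ (P : ℝ) ^ ((s : ℝ) - k - κ) := by positivity
  rcases le_or_gt β ((P : ℝ) ^ (ξ - k)) with hcase | hcase
  · -- near
    have h1 := Gb_sub k P D (by omega) (by omega) hD hD' β hβ0.le
    rw [← hC3] at h1
    have h2 : β * (P : ℝ) ^ k ≤ (P : ℝ) ^ ρ := by
      calc β * (P : ℝ) ^ k ≤ (P : ℝ) ^ (ξ - k) * (P : ℝ) ^ k := by gcongr
        _ = (P : ℝ) ^ ξ := by
            rw [← Real.rpow_natCast (P : ℝ) k, ← Real.rpow_add hP0R]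
            congr 1; ring
        _ ≤ _ := Real.rpow_le_rpow_of_exponent_le hP1R hξ1
    have h3 : ‖x - Gb k P β‖ ≤ (1 + C3) * (P : ℝ) ^ ρ := by
      calc ‖x - Gb k P β‖ = ‖(x - Kf D β * W k P β) + (Kf D β * W k P β - Gb k P β)‖ := by congr 1; ring
        _ ≤ (P : ℝ) ^ ρ + C3 * (β * (P : ℝ) ^ k) := (norm_add_le _ _).trans (add_le_add hx h1)
        _ ≤ (P : ℝ) ^ ρ + C3 * (P : ℝ) ^ ρ := by gcongr
        _ = _ := by ring
    calc β * ‖x - Gb k P β‖ ^ s ≤ 1 * ((1 + C3) * (P : ℝ) ^ ρ) ^ s := by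
          gcongr
          linarith
      _ = (1 + C3) ^ s * ((P : ℝ) ^ ρ) ^ s := by rw [one_mul, mul_pow]
      _ ≤ (1 + C3) ^ s * (P : ℝ) ^ ((s : ℝ) - k - κ) := by gcongr
      _ ≤ _ := by
          apply mul_le_mul_of_nonneg_right _ hX0
          have : 0 ≤ 3 ^ s * (2 + C1) := by positivity
          linarith
  · -- far
    have hU := hblock P D hP2 hD hDη β hcase.le hβ2
    have hV := norm_Gb_le' k P (by omega) (by omega) hβ0 hβ2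
    set U : ℝ := ‖Kf D β‖ * ‖W k P β‖ with hUdef
    have hU0 : 0 ≤ U := by positivity
    have h3 : ‖x - Gb k P β‖ ≤ (P : ℝ) ^ ρ + U + ‖Gb k P β‖ := by
      calc ‖x - Gb k P β‖ = ‖(x - Kf D β * W k P β) + Kf D β * W k P β - Gb k P β‖ := by congr 1; ring
        _ ≤ ‖(x - Kf D β * W k P β) + Kf D β * W k P β‖ + ‖Gb k P β‖ := norm_sub_le _ _
        _ ≤ (‖x - Kf D β * W k P β‖ + ‖Kf D β * W k P β‖) + ‖Gb k P β‖ := by
            gcongr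
            exact norm_add_le _ _
        _ ≤ _ := by rw [norm_mul]; gcongr
    have hVs : β * ‖Gb k P β‖ ^ s ≤ (P : ℝ) ^ ((s : ℝ) - k - κ) := by
      obtain ⟨s', rfl⟩ : ∃ s', s = s' + 1 := ⟨s - 1, by omega⟩
      obtain ⟨k', rfl⟩ : ∃ k', k = k' + 1 := ⟨k - 1, by omega⟩
      rw [Nat.add_sub_cancel] at hV
      have h6 : β * ‖Gb (k' + 1) P β‖ ≤ (P : ℝ) ^ (-(k' : ℝ)) := by
        calc β * ‖Gb (k' + 1) P β‖ ≤ β * (1 / (β * (P : ℝ) ^ k')) := by gcongr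
          _ = 1 / (P : ℝ) ^ k' := by field_simp
          _ = _ := by rw [Real.rpow_neg hP0R.le, Real.rpow_natCast, one_div]
      have h7 : ‖Gb (k' + 1) P β‖ ≤ (P : ℝ) ^ (1 - ξ) := by
        refine hV.trans ?_
        calc 1 / (β * (P : ℝ) ^ k') ≤ 1 / ((P : ℝ) ^ (ξ - ((k' + 1 : ℕ) : ℝ)) * (P : ℝ) ^ k') := by gcongr
          _ = (P : ℝ) ^ (1 - ξ) := by
              rw [← Real.rpow_natCast (P : ℝ) k', ← Real.rpow_add hP0R, one_div, ← Real.rpow_neg hP0R.le]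
              congr 1
              push_cast
              ring
      calc β * ‖Gb (k' + 1) P β‖ ^ (s' + 1) = (β * ‖Gb (k' + 1) P β‖) * ‖Gb (k' + 1) P β‖ ^ s' := by ring
        _ ≤ (P : ℝ) ^ (-(k' : ℝ)) * ((P : ℝ) ^ (1 - ξ)) ^ s' := by gcongr
        _ = (P : ℝ) ^ (-(k' : ℝ) + (1 - ξ) * s') := by
            rw [← Real.rpow_natCast ((P : ℝ) ^ (1 - ξ)) s', ← Real.rpow_mul hP0R.le, ← Real.rpow_add hP0R]
        _ ≤ _ := by
            apply Real.rpow_le_rpow_of_exponent_le hP1R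
            have h8 : (1 : ℝ) ≤ s' := by exact_mod_cast (by omega : 1 ≤ s')
            push_cast
            nlinarith
    have hU' : β * U ^ s ≤ C1 * (P : ℝ) ^ ((s : ℝ) - k - κ) :=
      hU.trans (mul_le_mul_of_nonneg_left (Real.rpow_le_rpow_of_exponent_le hP1R (by linarith)) hC1.le)
    have hR : β * ((P : ℝ) ^ ρ) ^ s ≤ (P : ℝ) ^ ((s : ℝ) - k - κ) := by
      calc β * ((P : ℝ) ^ ρ) ^ s ≤ 1 * ((P : ℝ) ^ ρ) ^ s := by gcongr; linarith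
        _ ≤ _ := by rw [one_mul]; exact hPρs
    calc β * ‖x - Gb k P β‖ ^ s ≤ β * ((P : ℝ) ^ ρ + U + ‖Gb k P β‖) ^ s := by gcongr
      _ ≤ β * (3 ^ s * (((P : ℝ) ^ ρ) ^ s + U ^ s + ‖Gb k P β‖ ^ s)) := by
          gcongr
          exact add3_pow_le _ _ _ (by positivity) hU0 (norm_nonneg _) s
      _ = 3 ^ s * (β * ((P : ℝ) ^ ρ) ^ s + β * U ^ s + β * ‖Gb k P β‖ ^ s) := by ring
      _ ≤ 3 ^ s * ((P : ℝ) ^ ((s : ℝ) - k - κ) + C1 * (P : ℝ) ^ ((s : ℝ) - k - κ) +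
            (P : ℝ) ^ ((s : ℝ) - k - κ)) :=
          mul_le_mul_of_nonneg_left (add_le_add (add_le_add hR hU') hVs) (by positivity)
      _ = 3 ^ s * (2 + C1) * (P : ℝ) ^ ((s : ℝ) - k - κ) := by ring
      _ ≤ _ := by
          apply mul_le_mul_of_nonneg_right _ hX0
          have : 0 ≤ (1 + C3) ^ s := by positivity
          linarith

lemma Gb_mean (k P s : ℕ) (hk : 1 ≤ k) (hks : k ≤ s) (hP : 1 ≤ P) {β : ℝ} (h0 : 0 < β)
    (h1 : β ≤ 1 / 2) : β * ‖Gb k P β‖ ^ s ≤ (P : ℝ) ^ (s - k) := by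
  have hP0 : (0 : ℝ) < P := by exact_mod_cast hP
  obtain ⟨k', rfl⟩ : ∃ k', k = k' + 1 := ⟨k - 1, by omega⟩
  obtain ⟨t, rfl⟩ : ∃ t, s = k' + 1 + t := ⟨s - (k' + 1), by omega⟩
  have h2 := norm_Gb_le' (k' + 1) P hk hP h0 h1
  rw [Nat.add_sub_cancel] at h2
  rw [show k' + 1 + t - (k' + 1) = t by omega]
  have h3 : β * ‖Gb (k' + 1) P β‖ ≤ 1 / (P : ℝ) ^ k' := by
    calc β * ‖Gb (k' + 1) P β‖ ≤ β * (1 / (β * (P : ℝ) ^ k')) := by gcongr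
      _ = 1 / (P : ℝ) ^ k' := by field_simp
  calc β * ‖Gb (k' + 1) P β‖ ^ (k' + 1 + t) = (β * ‖Gb (k' + 1) P β‖) * ‖Gb (k' + 1) P β‖ ^ (k' + t) := by ring
    _ ≤ (1 / (P : ℝ) ^ k') * (P : ℝ) ^ (k' + t) := by
        gcongr
        exact norm_Gb_le _ _ _
    _ = (P : ℝ) ^ t := by rw [pow_add]; field_simp

end Pool.Agent.X30.WP
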