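import Mathlib
import Pool.Agent.X30.WR1

/-!
# The full range: comparison of the number of representations with the smooth model
-/

set_option autoImplicit false

namespace Pool.Agent.X30.WP

open Finset
open Pool.Agent.H469R2.NK (e norm_e e_add conj_e norm_sum_neg e_zero)

/-- index set of the full smooth model -/
def AG (k L : ℕ) : Finset (ℕ × ℕ) :=
  (range L).biUnion fun n => (range (gp k n)).image (fun d => (n, d))

lemma mem_AG {k L : ℕ} {i : ℕ × ℕ} : i ∈ AG k L ↔ i.1 < L ∧ i.2 < gp k i.1 := by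
  unfold AG
  rw [mem_biUnion]
  constructor
  · rintro ⟨n, hn, hi⟩
    rw [mem_image] at hi
    obtain ⟨d, hd, rfl⟩ := hi
    rw [mem_range] at hn
    rw [mem_range] at hd
    exact ⟨hn, hd⟩
  · rintro ⟨h1, h2⟩
    refine ⟨i.1, mem_range.2 h1, ?_⟩
    rw [mem_image]
    exact ⟨i.2, mem_range.2 h2, rfl⟩

lemma FG_eq (k L : ℕ) (hk : 1 ≤ k) (β : ℝ) :
    F (AG k L) (wZ k) (vZ k) β = ∑ n ∈ range L, e (β * (n : ℝ) ^ k) * Kf (gp k n) β := by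
  unfold F AG
  rw [sum_biUnion]
  · refine sum_congr rfl fun n _ => ?_
    rw [sum_image (by
      intro a _ b _ h
      simpa using h)]
    simp only [wZ, vZ]
    unfold Kf
    rw [mul_div_assoc', mul_sum, sum_div]
    refine sum_congr rfl fun d _ => ?_
    have h0 : ((gp k n : ℕ) : ℂ) ≠ 0 := by exact_mod_cast (gp_pos k n hk).ne'
    rw [← e_add]
    push_cast
    rw [show β * ((n : ℝ) ^ k + d) = β * (n : ℝ) ^ k + β * d by ring]
    ring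
  · intro a _ b _ hab
    rw [Function.onFun, disjoint_left]
    intro x hx hx'
    rw [mem_image] at hx hx'
    obtain ⟨d, _, rfl⟩ := hx
    obtain ⟨d', _, h⟩ := hx'
    apply hab
    simp only [Prod.mk.injEq] at h
    exact h.1.symm

lemma split_sum (f : ℕ → ℂ) (i0 J : ℕ) (h : i0 ≤ J) :
    ∑ n ∈ range (2 ^ J), f n = ∑ n ∈ range (2 ^ i0), f n +
      ∑ i ∈ Ico i0 J, ∑ n ∈ Ico (2 ^ i) (2 * 2 ^ i), f n := by
  induction J, h using Nat.le_induction with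
  | base => simp
  | succ J hJ ih =>
    rw [sum_Ico_succ_top hJ, ← add_assoc, ← ih, pow_succ, mul_comm (2 ^ J) 2]
    rw [sum_range_add_sum_Ico]
    omega

lemma thr (x y : ℂ) (θ : ℝ) (h0 : 0 < θ) (h1 : θ ≤ 1) (s : ℕ) :
    ‖x ^ (s + 1) - y ^ (s + 1)‖ ≤ (s + 1) * 2 ^ s *
      (θ * ‖y‖ ^ (s + 1) + (1 / θ) ^ s * ‖x - y‖ ^ (s + 1)) := by
  have hB1 : ‖x‖ ≤ ‖y‖ + ‖x - y‖ := by
    have := norm_add_le y (x - y)
    rwa [add_sub_cancel] at this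
  have hB2 : ‖y‖ ≤ ‖y‖ + ‖x - y‖ := le_add_of_nonneg_right (norm_nonneg _)
  have hmain := norm_pow_sub_le x y (‖y‖ + ‖x - y‖) hB1 hB2 s
  refine hmain.trans ?_
  have hy := norm_nonneg y
  have hd := norm_nonneg (x - y)
  rcases le_or_gt ‖x - y‖ (θ * ‖y‖) with hcase | hcase
  · have h2 : ‖y‖ + ‖x - y‖ ≤ 2 * ‖y‖ := by nlinarith
    calc ((s : ℝ) + 1) * ‖x - y‖ * (‖y‖ + ‖x - y‖) ^ s ≤ ((s : ℝ) + 1) * (θ * ‖y‖) * (2 * ‖y‖) ^ s := by gcongr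
      _ = (s + 1) * 2 ^ s * (θ * ‖y‖ ^ (s + 1)) := by rw [mul_pow]; ring
      _ ≤ _ := by
          have : 0 ≤ (1 / θ) ^ s * ‖x - y‖ ^ (s + 1) := by positivity
          gcongr
          linarith
  · have h2 : ‖y‖ + ‖x - y‖ ≤ 2 * ((1 / θ) * ‖x - y‖) := by
      have h3 : ‖y‖ ≤ (1 / θ) * ‖x - y‖ := by
        rw [div_mul_eq_mul_div, one_mul, le_div_iff₀ h0, mul_comm]
        exact hcase.le
      have h4 : ‖x - y‖ ≤ (1 / θ) * ‖x - y‖ := by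
        apply le_mul_of_one_le_left hd
        rw [le_div_iff₀ h0]
        linarith
      linarith
    calc ((s : ℝ) + 1) * ‖x - y‖ * (‖y‖ + ‖x - y‖) ^ s
        ≤ ((s : ℝ) + 1) * ‖x - y‖ * (2 * ((1 / θ) * ‖x - y‖)) ^ s := by gcongr
      _ = (s + 1) * 2 ^ s * ((1 / θ) ^ s * ‖x - y‖ ^ (s + 1)) := by rw [mul_pow, mul_pow]; ring
      _ ≤ _ := by
          have : 0 ≤ θ * ‖y‖ ^ (s + 1) := by positivity
          gcongr
          linarith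

/-- the power mean inequality for one initial and several block terms -/
lemma pieces (z0 : ℝ) (z : ℕ → ℝ) (i0 J s : ℕ) (hz0 : 0 ≤ z0) (hz : ∀ i, 0 ≤ z i) (X A B β : ℝ)
    (hX : 0 ≤ X) (hA : 0 ≤ A) (hB : 0 ≤ B) (hβ : 0 ≤ β) (h0 : β * z0 ^ (s + 1) ≤ A * X)
    (h : ∀ i ∈ Ico i0 J, β * (z i) ^ (s + 1) ≤ B * X) :
    β * (z0 + ∑ i ∈ Ico i0 J, z i) ^ (s + 1) ≤ 3 ^ (s + 1) * (A + B) * ((J : ℝ) + 1) ^ (s + 1) * X := by
  have hJ1 : (1 : ℝ) ≤ (J : ℝ) + 1 := by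
    have : (0 : ℝ) ≤ J := by positivity
    linarith
  have hJ0 : (0 : ℝ) < (J : ℝ) + 1 := by linarith
  have hcard : ((Ico i0 J).card : ℝ) ≤ (J : ℝ) + 1 := by
    rw [Nat.card_Ico]
    have : ((J - i0 : ℕ) : ℝ) ≤ J := by exact_mod_cast Nat.sub_le _ _
    linarith
  have hw := weighted (Ico i0 J) (fun _ => 1 / ((J : ℝ) + 1)) z (fun _ _ => by positivity)
    (by
      rw [sum_const, nsmul_eq_mul, mul_one_div, div_le_one hJ0]
      exact hcard) (fun i _ => hz i) s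
  have hZ0 : 0 ≤ ∑ i ∈ Ico i0 J, z i := sum_nonneg fun i _ => hz i
  have h1 : (z0 + ∑ i ∈ Ico i0 J, z i) ^ (s + 1) ≤
      3 ^ (s + 1) * (z0 ^ (s + 1) + (∑ i ∈ Ico i0 J, z i) ^ (s + 1)) := by
    have := add3_pow_le z0 (∑ i ∈ Ico i0 J, z i) 0 hz0 hZ0 le_rfl (s + 1)
    rwa [add_zero, zero_pow (by omega), add_zero] at this
  have h2 : β * (∑ i ∈ Ico i0 J, z i) ^ (s + 1) ≤ B * ((J : ℝ) + 1) ^ (s + 1) * X := by
    calc β * (∑ i ∈ Ico i0 J, z i) ^ (s + 1)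
        ≤ β * ∑ i ∈ Ico i0 J, (z i) ^ (s + 1) / (1 / ((J : ℝ) + 1)) ^ s := by gcongr
      _ = ((J : ℝ) + 1) ^ s * ∑ i ∈ Ico i0 J, β * (z i) ^ (s + 1) := by
          rw [mul_sum, mul_sum]
          refine sum_congr rfl fun i _ => ?_
          rw [one_div, inv_pow, div_inv_eq_mul]
          ring
      _ ≤ ((J : ℝ) + 1) ^ s * ∑ i ∈ Ico i0 J, B * X :=
          mul_le_mul_of_nonneg_left (sum_le_sum fun i hi => h i hi) (by positivity)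
      _ = ((J : ℝ) + 1) ^ s * (((Ico i0 J).card : ℝ) * (B * X)) := by rw [sum_const, nsmul_eq_mul]
      _ ≤ ((J : ℝ) + 1) ^ s * (((J : ℝ) + 1) * (B * X)) := by
          have : 0 ≤ B * X := by positivity
          gcongr
      _ = _ := by ring
  have hpow : (1 : ℝ) ≤ ((J : ℝ) + 1) ^ (s + 1) := one_le_pow₀ hJ1
  calc β * (z0 + ∑ i ∈ Ico i0 J, z i) ^ (s + 1)
      ≤ β * (3 ^ (s + 1) * (z0 ^ (s + 1) + (∑ i ∈ Ico i0 J, z i) ^ (s + 1))) := by gcongr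
    _ = 3 ^ (s + 1) * (β * z0 ^ (s + 1) + β * (∑ i ∈ Ico i0 J, z i) ^ (s + 1)) := by ring
    _ ≤ 3 ^ (s + 1) * (A * X * ((J : ℝ) + 1) ^ (s + 1) + B * ((J : ℝ) + 1) ^ (s + 1) * X) := by
        have h3 : A * X ≤ A * X * ((J : ℝ) + 1) ^ (s + 1) := le_mul_of_one_le_right (by positivity) hpow
        have h4 := h0.trans h3
        gcongr
    _ = _ := by ring

lemma polylog (s : ℕ) (K κ : ℝ) (hκ : 0 < κ) :
    ∃ J0 : ℕ, ∀ J : ℕ, J0 ≤ J → K * ((J : ℝ) + 1) ^ s ≤ ((2 : ℝ) ^ J) ^ κ := by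
  have hr : 1 < (2 : ℝ) ^ κ := Real.one_lt_rpow (by norm_num) hκ
  have h1 := tendsto_pow_const_div_const_pow_of_one_lt s hr
  obtain ⟨J0, hJ0⟩ := Filter.eventually_atTop.1
    (h1.eventually_lt_const (show (0 : ℝ) < 1 / ((|K| + 1) * (2 : ℝ) ^ κ) by positivity))
  refine ⟨J0, fun J hJ => ?_⟩
  have h2 := hJ0 (J + 1) (by omega)
  have h3 : (0 : ℝ) < ((2 : ℝ) ^ κ) ^ (J + 1) := by positivity
  rw [div_lt_div_iff₀ h3 (by positivity), one_mul] at h2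
  have h4 : ((2 : ℝ) ^ J) ^ κ = ((2 : ℝ) ^ κ) ^ J := by
    rw [← Real.rpow_natCast 2 J, ← Real.rpow_mul (by norm_num), ← Real.rpow_natCast ((2 : ℝ) ^ κ) J,
      ← Real.rpow_mul (by norm_num), mul_comm]
  rw [h4]
  rw [pow_succ ((2 : ℝ) ^ κ) J] at h2
  push_cast at h2
  have hp : (0 : ℝ) < (2 : ℝ) ^ κ := by positivity
  have h5 : ((J : ℝ) + 1) ^ s * (|K| + 1) < ((2 : ℝ) ^ κ) ^ J := by
    have h6 : (((J : ℝ) + 1) ^ s * (|K| + 1)) * (2 : ℝ) ^ κ < ((2 : ℝ) ^ κ) ^ J * (2 : ℝ) ^ κ := by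
      calc _ = ((J : ℝ) + 1) ^ s * ((|K| + 1) * (2 : ℝ) ^ κ) := by ring
        _ < _ := h2
    exact lt_of_mul_lt_mul_right h6 hp.le
  have h6 : 0 ≤ ((J : ℝ) + 1) ^ s := by positivity
  have h7 := le_abs_self K
  nlinarith

end Pool.Agent.X30.WP
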