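import Mathlib
import Pool.Agent.X30.WR3

/-!
# The number of representations by randomly shifted powers, compared with the smooth model
-/

set_option autoImplicit false

namespace Pool.Agent.X30.WP

open Finset MeasureTheory ProbabilityTheory
open Pool.Agent.H469R2.NK (e norm_e e_add conj_e norm_sum_neg e_zero)

variable {Ω : Type*} [MeasurableSpace Ω] {μ : Measure Ω} [IsProbabilityMeasure μ]

/-- the number of solutions over all `x`, as a cardinality -/
lemma ncard_sol (k s : ℕ) (hk : k ≠ 0) (a : ℕ → ℕ) (ha : ∀ n, n ^ k ≤ a n) (L N : ℕ) (hN : N < L ^ k) :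
    {x : Fin s → ℕ | ∑ i, a (x i) = N}.Finite ∧
    ({x : Fin s → ℕ | ∑ i, a (x i) = N}.ncard : ℝ) = rep (range L) (fun _ => (1 : ℝ)) a s N := by
  have h1 : {x : Fin s → ℕ | ∑ i, a (x i) = N} =
      (((Fintype.piFinset (fun _ : Fin s => range L)).filter (fun f => ∑ j, a (f j) = N)) : Set (Fin s → ℕ)) := by
    ext x
    simp only [Set.mem_ofPred_eq, coe_filter, Fintype.mem_piFinset, mem_range]
    constructor
    · intro h
      refine ⟨fun i => ?_, h⟩
      have h2 : x i ^ k ≤ N := by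
        calc x i ^ k ≤ a (x i) := ha _
          _ ≤ ∑ i, a (x i) := single_le_sum (f := fun i => a (x i)) (fun _ _ => Nat.zero_le _) (mem_univ i)
          _ = N := h
      exact lt_of_pow_lt_pow_left₀ k (Nat.zero_le _) (h2.trans_lt hN)
    · exact fun h => h.2
  rw [h1]
  refine ⟨finite_toSet _, ?_⟩
  rw [Set.ncard_coe_finset, rep_one]

theorem waring_cmp (k q s : ℕ) (hq1 : 1 ≤ q) (hq : q + 2 ≤ k) (hs : (2 : ℝ) ^ q < s) (η h : ℝ)
    (hη : ((k : ℝ) - η) * (s + q * 2 ^ q) < s * (q + 1)) (hη1 : η ≤ k - 1)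
    (hh0 : 0 ≤ h) (hh : 2 * (k : ℝ) < s * (1 - h))
    (δ : ℕ → Ω → ℕ) (hm : ∀ m, Measurable (δ m)) (hind : iIndepFun δ μ)
    (hu : ∀ m, ∀ d < 2 ^ ⌊η * Nat.log 2 m⌋₊,
      μ {ω | δ m ω = d} = 1 / ((2 ^ ⌊η * Nat.log 2 m⌋₊ : ℕ) : ENNReal)) :
    ∃ κ : ℝ, 0 < κ ∧ ∀ᵐ ω ∂μ, (∀ m, δ m ω < 2 ^ ⌊η * Nat.log 2 m⌋₊) ∧
      ∃ N0 : ℕ, ∀ N : ℕ, N0 ≤ N → ∃ L : ℕ, N < L ^ k ∧
        |({x : Fin s → ℕ | ∑ i, (x i ^ k + δ (tau h (x i)) ω) = N}.ncard : ℝ) -
          rep (AG k L) (wZ k) (vZ k) s N| ≤ 2 ^ s * (N : ℝ) ^ ((s : ℝ) / k - 1 - κ) ∧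
        |({x : Fin s → ℕ | (∀ i, 1 ≤ x i) ∧ ∑ i, (x i ^ k + δ (tau h (x i)) ω) = N}.ncard : ℝ) -
          rep (AG k L) (wZ k) (vZ k) s N| ≤ 2 ^ s * (N : ℝ) ^ ((s : ℝ) / k - 1 - κ) := by
  have hk0 : (3 : ℝ) ≤ k := by exact_mod_cast (by omega : 3 ≤ k)
  have h2q : (2 : ℝ) ≤ 2 ^ q := by
    calc (2 : ℝ) = 2 ^ 1 := by norm_num
      _ ≤ 2 ^ q := pow_le_pow_right₀ (by norm_num) hq1
  have hs2' : (2 : ℝ) < s := lt_of_le_of_lt h2q hs
  have hs0 : 1 ≤ s := by exact_mod_cast (by linarith : (1 : ℝ) ≤ s)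
  have hh1 : h < 1 := by
    by_contra hcon
    push Not at hcon
    nlinarith
  have hη0 : 0 < η := by
    by_contra hcon
    push Not at hcon
    have h1 : (q : ℝ) + 2 ≤ k := by exact_mod_cast hq
    have h2 : (0 : ℝ) ≤ q * 2 ^ q := by positivity
    have h3 : (k : ℝ) * (s + q * 2 ^ q) ≤ (k - η) * (s + q * 2 ^ q) := by
      apply mul_le_mul_of_nonneg_right _ (by positivity)
      linarith
    have h4 : (s : ℝ) * (q + 1) ≤ k * (s + q * 2 ^ q) := by nlinarith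
    linarith
  set ε : ℝ := (s * (1 - h) - 2 * k) / (4 * s) with hε
  have hε0 : 0 < ε := by
    rw [hε]
    apply div_pos (by linarith) (by linarith)
  have hεs : ε * s = (s * (1 - h) - 2 * k) / 4 := by
    rw [hε]
    field_simp
  have hsk1 : 2 * k + 1 ≤ s := by
    have h1 : 2 * (k : ℝ) < s := by nlinarith
    have h2 : 2 * k < s := by exact_mod_cast h1
    omega
  obtain ⟨κ1, hκ1, J1, hJ1⟩ := full_cmp k q s hq1 hq hs η hη1 hη ((1 + h) / 2 + ε) (by linarith)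
    (by nlinarith) hsk1
  set κ' : ℝ := min κ1 (s - k) with hκ'
  have hsk0 : (0 : ℝ) < s - k := by
    have : (2 * (k : ℝ) + 1) ≤ s := by exact_mod_cast hsk1
    linarith
  have hκ'0 : 0 < κ' := lt_min hκ1 hsk0
  refine ⟨κ' / k, by positivity, ?_⟩
  have hδ : ∀ᵐ ω ∂μ, ∀ m, δ m ω < 2 ^ ⌊η * Nat.log 2 m⌋₊ :=
    ae_all_iff.2 fun m => unif_ae (δ m) (hm m) _ Nat.one_le_two_pow (hu m)
  filter_upwards [hδ, closeFull (μ := μ) k s η h ε hh0 hh1.le hε0 δ hm hind hu] with ω hω1 hω2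
  obtain ⟨J2, hJ2⟩ := hω2
  refine ⟨hω1, (2 ^ k) ^ (J1 + J2), fun N hN => ?_⟩
  have hk1 : 1 < 2 ^ k := Nat.one_lt_two_pow (by omega)
  have hN0 : N ≠ 0 := by
    have : 0 < (2 ^ k) ^ (J1 + J2) := by positivity
    omega
  set j : ℕ := Nat.log (2 ^ k) N with hj
  have hj1 : (2 ^ k) ^ j ≤ N := Nat.pow_log_le_self _ hN0
  have hj2 : N < (2 ^ k) ^ (j + 1) := Nat.lt_pow_succ_log_self hk1 N
  have hjmax : J1 + J2 ≤ j := by
    rw [hj]
    exact Nat.le_log_of_pow_le hk1 hN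
  have hpow : ∀ i : ℕ, ((2 : ℕ) ^ k) ^ i = (2 ^ i) ^ k := fun i => by rw [← pow_mul, ← pow_mul, mul_comm]
  rw [hpow] at hj1 hj2
  set a : ℕ → ℕ := fun n => n ^ k + δ (tau h n) ω with ha
  have hsize : ∀ n < 2 ^ (j + 1), a n < 2 * (2 ^ (j + 1)) ^ k := by
    intro n hn
    simp only [ha]
    have h1 : n ^ k < (2 ^ (j + 1)) ^ k := Nat.pow_lt_pow_left hn (by omega)
    have h2 : δ (tau h n) ω < (2 ^ (j + 1)) ^ k := by
      refine (hω1 _).trans_le ?_
      rw [← pow_mul]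
      apply Nat.pow_le_pow_right (by norm_num)
      have h3 : Nat.log 2 (tau h n) ≤ j := by
        rcases Nat.eq_zero_or_pos n with h0 | h0
        · rw [h0]
          have : tau h 0 = 0 := by unfold tau; simp
          rw [this]; simp
        · rw [log_tau h hh1.le n h0]
          have : Nat.log 2 n < j + 1 := Nat.log_lt_of_lt_pow (by omega) hn
          omega
      have h4 : η * (Nat.log 2 (tau h n) : ℝ) ≤ (((j + 1) * k : ℕ) : ℝ) := by
        push_cast
        have h5 : (Nat.log 2 (tau h n) : ℝ) ≤ j := by exact_mod_cast h3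
        have h6 : (0 : ℝ) ≤ (Nat.log 2 (tau h n) : ℝ) := by positivity
        nlinarith
      calc ⌊η * (Nat.log 2 (tau h n) : ℝ)⌋₊ ≤ ⌊(((j + 1) * k : ℕ) : ℝ)⌋₊ := Nat.floor_le_floor h4
        _ = _ := Nat.floor_natCast _
    omega
  have hclose : ∀ i : ℕ, (j + 1) ≤ 2 * i → i < (j + 1) → ∀ b : ℕ, b ≤ 2 * s * (2 ^ (j + 1)) ^ k / 2 →
        ‖F (Ico (2 ^ i : ℕ) (2 * 2 ^ i)) (fun _ => (1 : ℝ)) a ((b : ℝ) / (2 * s * (2 ^ (j + 1)) ^ k : ℕ)) -
          Kf (2 ^ ⌊η * i⌋₊) ((b : ℝ) / (2 * s * (2 ^ (j + 1)) ^ k : ℕ)) *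
            W k (2 ^ i) ((b : ℝ) / (2 * s * (2 ^ (j + 1)) ^ k : ℕ))‖ ≤ ((2 ^ i : ℕ) : ℝ) ^ ((1 + h) / 2 + ε) := by
    intro i hi1 hi2 b hb
    have h1 := hJ2 (j + 1) (by omega) i hi1 hi2 b hb
    rw [F_sub1 k (2 ^ i) (2 ^ ⌊η * (i : ℝ)⌋₊) (fun n => 2 ^ ⌊η * (Nat.log 2 n : ℝ)⌋₊) (by
      intro n hn
      rw [mem_Ico] at hn
      rw [log_block hn.1 hn.2]) (fun n => δ (tau h n) ω)]
    exact h1
  -- the final estimate of the error
  have herr : ((2 : ℝ) ^ (j + 1)) ^ ((s : ℝ) - k - κ1) ≤ 2 ^ s * (N : ℝ) ^ ((s : ℝ) / k - 1 - κ' / k) := by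
    have hx : (0 : ℝ) < 2 ^ j := by positivity
    have hx1 : (1 : ℝ) ≤ 2 ^ j := one_le_pow₀ (by norm_num)
    have hκle : κ' ≤ κ1 := min_le_left _ _
    have hκle2 : κ' ≤ s - k := min_le_right _ _
    calc ((2 : ℝ) ^ (j + 1)) ^ ((s : ℝ) - k - κ1) ≤ ((2 : ℝ) ^ (j + 1)) ^ ((s : ℝ) - k - κ') := by
          apply Real.rpow_le_rpow_of_exponent_le (one_le_pow₀ (by norm_num))
          linarith
      _ = 2 ^ ((s : ℝ) - k - κ') * ((2 : ℝ) ^ j) ^ ((s : ℝ) - k - κ') := by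
          rw [pow_succ, mul_comm, Real.mul_rpow (by norm_num) hx.le]
      _ ≤ 2 ^ s * (N : ℝ) ^ ((s : ℝ) / k - 1 - κ' / k) := by
          gcongr ?_ * ?_
          · rw [← Real.rpow_natCast 2 s]
            apply Real.rpow_le_rpow_of_exponent_le (by norm_num)
            linarith
          · have h2 : ((2 : ℝ) ^ j) ^ ((s : ℝ) - k - κ') = (((2 : ℝ) ^ j) ^ k) ^ ((s : ℝ) / k - 1 - κ' / k) := by
              rw [← Real.rpow_natCast ((2 : ℝ) ^ j) k, ← Real.rpow_mul hx.le]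
              congr 1
              field_simp
            rw [h2]
            apply Real.rpow_le_rpow (by positivity)
            · exact_mod_cast hj1
            · have : (s : ℝ) / k - 1 - κ' / k = (s - k - κ') / k := by field_simp
              rw [this]
              apply div_nonneg (by linarith) (by linarith)
  refine ⟨2 ^ (j + 1), hj2, ?_, ?_⟩
  · have h1 := ncard_sol k s (by omega) a (fun n => Nat.le_add_right _ _) (2 ^ (j + 1)) N hj2
    have h2 := hJ1 (j + 1) (by omega) a hsize hclose N hj2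
    rw [← h1.2] at h2
    exact h2.trans herr
  · set a' : ℕ → ℕ := fun n => if n = 0 then N + 1 else a n with ha'
    have hak : ∀ n, n ^ k ≤ a' n := by
      intro n
      simp only [ha']
      split_ifs with h0
      · rw [h0, zero_pow (by omega)]; omega
      · exact Nat.le_add_right _ _
    have hsize' : ∀ n < 2 ^ (j + 1), a' n < 2 * (2 ^ (j + 1)) ^ k := by
      intro n hn
      simp only [ha']
      split_ifs with h0
      · omega
      · exact hsize n hn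
    have h1 := ncard_sol k s (by omega) a' hak (2 ^ (j + 1)) N hj2
    have h2 := hJ1 (j + 1) (by omega) a' hsize' (by
      intro i hi1 hi2 b hb
      have h3 := hclose i hi1 hi2 b hb
      have h4 : F (Ico (2 ^ i : ℕ) (2 * 2 ^ i)) (fun _ => (1 : ℝ)) a' ((b : ℝ) / (2 * s * (2 ^ (j + 1)) ^ k : ℕ)) =
          F (Ico (2 ^ i : ℕ) (2 * 2 ^ i)) (fun _ => (1 : ℝ)) a ((b : ℝ) / (2 * s * (2 ^ (j + 1)) ^ k : ℕ)) := by
        unfold F
        refine sum_congr rfl fun n hn => ?_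
        rw [mem_Ico] at hn
        have hn0 : n ≠ 0 := by
          have : 0 < 2 ^ i := by positivity
          omega
        simp only [ha', if_neg hn0]
      rw [h4]
      exact h3) N hj2
    rw [← h1.2] at h2
    have h5 : {x : Fin s → ℕ | (∀ i, 1 ≤ x i) ∧ ∑ i, (x i ^ k + δ (tau h (x i)) ω) = N} =
        {x : Fin s → ℕ | ∑ i, a' (x i) = N} := by
      ext x
      simp only [Set.mem_ofPred_eq]
      constructor
      · rintro ⟨h6, h7⟩
        rw [← h7]
        refine sum_congr rfl fun i _ => ?_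
        have : x i ≠ 0 := by have := h6 i; omega
        simp only [ha', if_neg this, ha]
      · intro h6
        have h7 : ∀ i, 1 ≤ x i := by
          intro i
          by_contra hcon
          have h8 : x i = 0 := by omega
          have h9 : a' (x i) ≤ ∑ i, a' (x i) :=
            single_le_sum (f := fun i => a' (x i)) (fun _ _ => Nat.zero_le _) (mem_univ i)
          rw [h6] at h9
          simp only [ha', h8, if_true] at h9
          omega
        refine ⟨h7, ?_⟩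
        rw [← h6]
        refine sum_congr rfl fun i _ => ?_
        have : x i ≠ 0 := by have := h7 i; omega
        simp only [ha', if_neg this, ha]
    rw [h5]
    exact h2.trans herr

end Pool.Agent.X30.WP
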