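import Mathlib

/-!
# The coefficients of `(1 - x) ^ (-a)`: convolution identity and asymptotics; convolution of asymptotic sequences
-/

set_option autoImplicit false

namespace Pool.Agent.X30.WS

open Finset Filter Topology

/-- the coefficients of `(1 - x) ^ (-a)` -/
noncomputable def c (a : ℝ) (n : ℕ) : ℝ := (∏ j ∈ range n, (a + j)) / (n.factorial : ℝ)

lemma c_zero (a : ℝ) : c a 0 = 1 := by simp [c]

lemma c_succ (a : ℝ) (n : ℕ) : ((n : ℝ) + 1) * c a (n + 1) = (a + n) * c a n := by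
  unfold c
  rw [prod_range_succ, Nat.factorial_succ]
  have h1 : (n.factorial : ℝ) ≠ 0 := by positivity
  have h2 : ((n : ℝ) + 1) ≠ 0 := by positivity
  push_cast
  field_simp

lemma c_pos (a : ℝ) (ha : 0 < a) (n : ℕ) : 0 < c a n := by
  unfold c
  have : 0 < ∏ j ∈ range n, (a + j) := prod_pos fun j _ => by positivity
  positivity

lemma c_conv (a b : ℝ) (n : ℕ) : ∑ p ∈ antidiagonal n, c a p.1 * c b p.2 = c (a + b) n := by
  induction n with
  | zero => simp [c_zero]
  | succ n ih =>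
    have h2 : ((n : ℝ) + 1) ≠ 0 := by positivity
    have h3 : ((n : ℝ) + 1) * ∑ p ∈ antidiagonal (n + 1), c a p.1 * c b p.2 =
        (a + b + n) * ∑ p ∈ antidiagonal n, c a p.1 * c b p.2 := by
      have e1 : ((n : ℝ) + 1) * ∑ p ∈ antidiagonal (n + 1), c a p.1 * c b p.2 =
          ∑ p ∈ antidiagonal (n + 1), (p.1 : ℝ) * c a p.1 * c b p.2 +
          ∑ p ∈ antidiagonal (n + 1), (p.2 : ℝ) * c a p.1 * c b p.2 := by
        rw [mul_sum, ← sum_add_distrib]
        refine sum_congr rfl fun p hp => ?_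
        rw [HasAntidiagonal.mem_antidiagonal] at hp
        have : ((p.1 : ℝ) + p.2) = n + 1 := by exact_mod_cast hp
        rw [← this]; ring
      rw [e1, Finset.Nat.sum_antidiagonal_succ, Finset.Nat.sum_antidiagonal_succ', mul_sum]
      simp only [Nat.cast_zero, zero_mul, zero_add, Nat.cast_add, Nat.cast_one]
      have hz : ∀ x y : ℝ, x + (0 + y) = x + y := fun x y => by ring
      rw [← sum_add_distrib]
      refine sum_congr rfl fun p hp => ?_
      rw [HasAntidiagonal.mem_antidiagonal] at hp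
      have h4 : (n : ℝ) = (p.1 : ℝ) + p.2 := by exact_mod_cast hp.symm
      rw [c_succ a p.1, mul_assoc ((p.2 : ℝ) + 1), mul_comm (c a p.1) (c b (p.2 + 1)), ← mul_assoc, c_succ b p.2, h4]
      ring
    have h5 := c_succ (a + b) n
    rw [ih, ← h5] at h3
    exact mul_left_cancel₀ h2 h3

lemma c_asymp (a : ℝ) (ha : 0 < a) :
    Tendsto (fun n : ℕ => c a n / (n : ℝ) ^ (a - 1)) atTop (𝓝 (1 / Real.Gamma a)) := by
  have hG := Real.Gamma_pos_of_pos ha
  have h1 := (Real.GammaSeq_tendsto_Gamma a).inv₀ hG.ne'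
  have h2 : Tendsto (fun n : ℕ => (n : ℝ) / (a + n)) atTop (𝓝 1) := by
    have h3 : Tendsto (fun n : ℕ => 1 - a / (a + n)) atTop (𝓝 (1 - 0)) := by
      apply Tendsto.const_sub
      apply Tendsto.div_atTop tendsto_const_nhds
      exact tendsto_atTop_add_const_left _ _ tendsto_natCast_atTop_atTop
    rw [sub_zero] at h3
    refine h3.congr fun n => ?_
    have : a + (n : ℝ) ≠ 0 := by positivity
    field_simp
    ring
  have h4 := h1.mul h2
  rw [mul_one] at h4
  rw [one_div]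
  refine h4.congr' ?_
  filter_upwards [eventually_gt_atTop 0] with n hn
  have hn0 : (0 : ℝ) < n := by exact_mod_cast hn
  unfold Real.GammaSeq c
  rw [prod_range_succ, Real.rpow_sub hn0, Real.rpow_one]
  have e1 : a + (n : ℝ) ≠ 0 := by positivity
  have e2 : (n : ℝ) ^ a ≠ 0 := by positivity
  have e3 : (n.factorial : ℝ) ≠ 0 := by positivity
  have e4 : (∏ j ∈ range n, (a + j)) ≠ 0 := (prod_pos fun j _ => by positivity).ne'
  field_simp

/-- the weights of a fixed index tend to zero -/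
lemma wt_zero (a b : ℝ) (ha : 0 < a) (hb : 0 < b) (m : ℕ) :
    Tendsto (fun n : ℕ => c a m * c b (n - m) / c (a + b) n) atTop (𝓝 0) := by
  have h1 : Tendsto (fun n : ℕ => c b (n - m) / ((n - m : ℕ) : ℝ) ^ (b - 1)) atTop (𝓝 (1 / Real.Gamma b)) :=
    (c_asymp b hb).comp (tendsto_sub_atTop_nat m)
  have h2 := (c_asymp (a + b) (by linarith)).inv₀ (by
    have := Real.Gamma_pos_of_pos (show 0 < a + b by linarith)
    positivity)
  -- ratio `(n - m) / n → 1`
  have h3 : Tendsto (fun n : ℕ => ((n - m : ℕ) : ℝ) / n) atTop (𝓝 1) := by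
    have h4 : Tendsto (fun n : ℕ => 1 - (m : ℝ) / n) atTop (𝓝 (1 - 0)) :=
      Tendsto.const_sub _ (tendsto_const_nhds.div_atTop tendsto_natCast_atTop_atTop)
    rw [sub_zero] at h4
    refine h4.congr' ?_
    filter_upwards [eventually_gt_atTop m] with n hn
    have hn0 : (0 : ℝ) < n := by exact_mod_cast (by omega : 0 < n)
    rw [Nat.cast_sub hn.le]
    field_simp
  have h5 : Tendsto (fun n : ℕ => (((n - m : ℕ) : ℝ) / n) ^ (b - 1)) atTop (𝓝 1) := by
    have := h3.rpow_const (p := b - 1) (Or.inl one_ne_zero)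
    rwa [Real.one_rpow] at this
  have h6 : Tendsto (fun n : ℕ => (n : ℝ) ^ (-a)) atTop (𝓝 0) :=
    (tendsto_rpow_neg_atTop ha).comp tendsto_natCast_atTop_atTop
  have h7 := (((h1.mul h5).mul h2).mul h6).const_mul (c a m)
  rw [mul_zero, mul_zero] at h7
  refine h7.congr' ?_
  filter_upwards [eventually_gt_atTop m] with n hn
  have hn0 : (0 : ℝ) < n := by exact_mod_cast (by omega : 0 < n)
  have hm0 : (0 : ℝ) < ((n - m : ℕ) : ℝ) := by exact_mod_cast (by omega : 0 < n - m)
  rw [Real.div_rpow hm0.le hn0.le, show a + b - 1 = a + (b - 1) by ring, Real.rpow_add hn0, Real.rpow_neg hn0.le]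
  have e1 : (n : ℝ) ^ a ≠ 0 := by positivity
  have e2 : (n : ℝ) ^ (b - 1) ≠ 0 := by positivity
  have e3 : ((n - m : ℕ) : ℝ) ^ (b - 1) ≠ 0 := by positivity
  have e4 : c (a + b) n ≠ 0 := (c_pos _ (by linarith) n).ne'
  field_simp

/-- averages of null sequences -/
lemma avg_zero (a b : ℝ) (ha : 0 < a) (hb : 0 < b) (z : ℕ → ℝ) (hz : Tendsto z atTop (𝓝 0)) (hz0 : ∀ m, 0 ≤ z m) :
    Tendsto (fun n : ℕ => (∑ p ∈ antidiagonal n, c a p.1 * c b p.2 * z p.1) / c (a + b) n) atTop (𝓝 0) := by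
  rw [Metric.tendsto_atTop]
  intro ε hε
  obtain ⟨m0, hm0⟩ := (Metric.tendsto_atTop.1 hz) (ε / 2) (by positivity)
  have h1 : Tendsto (fun n : ℕ => ∑ m ∈ range m0, z m * (c a m * c b (n - m) / c (a + b) n)) atTop (𝓝 0) := by
    have : Tendsto (fun n : ℕ => ∑ m ∈ range m0, z m * (c a m * c b (n - m) / c (a + b) n)) atTop
        (𝓝 (∑ m ∈ range m0, z m * 0)) :=
      tendsto_finsetSum _ fun m _ => (wt_zero a b ha hb m).const_mul (z m)
    simpa using this
  obtain ⟨n1, hn1⟩ := (Metric.tendsto_atTop.1 h1) (ε / 2) (by positivity)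
  refine ⟨max n1 m0, fun n hn => ?_⟩
  have hn1' := hn1 n ((le_max_left _ _).trans hn)
  have hnm : m0 ≤ n := (le_max_right _ _).trans hn
  have hcn := c_pos (a + b) (by linarith) n
  rw [Real.dist_eq, sub_zero] at hn1' ⊢
  have hpos : 0 ≤ (∑ p ∈ antidiagonal n, c a p.1 * c b p.2 * z p.1) / c (a + b) n := by
    apply div_nonneg _ hcn.le
    exact sum_nonneg fun p _ => mul_nonneg (mul_nonneg (c_pos a ha _).le (c_pos b hb _).le) (hz0 _)
  rw [abs_of_nonneg hpos]
  have hkey : ∀ p ∈ antidiagonal n, c a p.1 * c b p.2 * z p.1 ≤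
      (if p.1 < m0 then c a p.1 * c b p.2 * z p.1 else 0) + ε / 2 * (c a p.1 * c b p.2) := by
    intro p _
    have hc1 := c_pos a ha p.1
    have hc2 := c_pos b hb p.2
    split_ifs with h
    · have : 0 ≤ ε / 2 * (c a p.1 * c b p.2) := by positivity
      linarith
    · have h2 := hm0 p.1 (by omega)
      rw [Real.dist_eq, sub_zero, abs_of_nonneg (hz0 _)] at h2
      have : c a p.1 * c b p.2 * z p.1 ≤ c a p.1 * c b p.2 * (ε / 2) := by gcongr
      linarith
  have hsum := sum_le_sum hkey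
  rw [sum_add_distrib, ← mul_sum, c_conv] at hsum
  have hfirst : ∑ p ∈ antidiagonal n, (if p.1 < m0 then c a p.1 * c b p.2 * z p.1 else 0) =
      ∑ m ∈ range m0, c a m * c b (n - m) * z m := by
    rw [Finset.Nat.sum_antidiagonal_eq_sum_range_succ_mk]
    simp only
    rw [← sum_filter]
    apply sum_congr _ (fun _ _ => rfl)
    ext x
    simp only [mem_filter, mem_range]
    omega
  rw [hfirst] at hsum
  rw [div_lt_iff₀ hcn]
  have h3 : ∑ m ∈ range m0, c a m * c b (n - m) * z m =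
      (∑ m ∈ range m0, z m * (c a m * c b (n - m) / c (a + b) n)) * c (a + b) n := by
    rw [sum_mul]
    refine sum_congr rfl fun m _ => ?_
    field_simp
  have h4 : (∑ m ∈ range m0, z m * (c a m * c b (n - m) / c (a + b) n)) < ε / 2 :=
    (le_abs_self _).trans_lt hn1'
  rw [h3] at hsum
  have h5 : (∑ m ∈ range m0, z m * (c a m * c b (n - m) / c (a + b) n)) * c (a + b) n < ε / 2 * c (a + b) n :=
    mul_lt_mul_of_pos_right h4 hcn
  linarith

/-- convolutions of sequences asymptotic to multiples of the coefficients -/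
theorem conv_asymp (a b : ℝ) (ha : 0 < a) (hb : 0 < b) (u v : ℕ → ℝ) (g h : ℝ)
    (hu : Tendsto (fun n => u n / c a n) atTop (𝓝 g)) (hv : Tendsto (fun n => v n / c b n) atTop (𝓝 h)) :
    Tendsto (fun n : ℕ => (∑ p ∈ antidiagonal n, u p.1 * v p.2) / c (a + b) n) atTop (𝓝 (g * h)) := by
  set f1 : ℕ → ℝ := fun n => u n / c a n with hf1
  set f2 : ℕ → ℝ := fun n => v n / c b n with hf2
  obtain ⟨B, hB⟩ := (hu.abs).bddAbove_range
  have hB' : ∀ n, |f1 n| ≤ B := fun n => hB ⟨n, rfl⟩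
  have hB0 : 0 ≤ B := (abs_nonneg _).trans (hB' 0)
  have z1 : Tendsto (fun n => |f1 n - g|) atTop (𝓝 0) := by
    have := (hu.sub_const g).abs
    rwa [sub_self, abs_zero] at this
  have z2 : Tendsto (fun n => |f2 n - h|) atTop (𝓝 0) := by
    have := (hv.sub_const h).abs
    rwa [sub_self, abs_zero] at this
  have a1 := avg_zero a b ha hb _ z1 (fun _ => abs_nonneg _)
  have a2 := avg_zero b a hb ha _ z2 (fun _ => abs_nonneg _)
  rw [add_comm b a] at a2
  have a3 := (a2.const_mul B).add (a1.const_mul |h|)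
  rw [mul_zero, mul_zero, add_zero] at a3
  rw [← tendsto_sub_nhds_zero_iff]
  apply squeeze_zero_norm _ a3
  intro n
  have hcn := c_pos (a + b) (by linarith) n
  rw [Real.norm_eq_abs]
  have e1 : (∑ p ∈ antidiagonal n, u p.1 * v p.2) / c (a + b) n - g * h =
      (∑ p ∈ antidiagonal n, c a p.1 * c b p.2 * (f1 p.1 * f2 p.2 - g * h)) / c (a + b) n := by
    rw [eq_div_iff hcn.ne', sub_mul, div_mul_cancel₀ _ hcn.ne']
    rw [← c_conv a b n, mul_sum, ← sum_sub_distrib]
    refine sum_congr rfl fun p _ => ?_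
    have h1 := (c_pos a ha p.1).ne'
    have h2 := (c_pos b hb p.2).ne'
    simp only [hf1, hf2]
    field_simp
  rw [e1, abs_div, abs_of_pos hcn]
  have e2 : (∑ p ∈ antidiagonal n, c b p.1 * c a p.2 * |f2 p.1 - h|) =
      ∑ p ∈ antidiagonal n, c a p.1 * c b p.2 * |f2 p.2 - h| := by
    rw [← Finset.Nat.sum_antidiagonal_swap]
    refine sum_congr rfl fun p _ => ?_
    simp only [Prod.fst_swap, Prod.snd_swap]
    ring
  rw [e2, ← mul_div_assoc, ← mul_div_assoc, ← add_div]
  apply div_le_div_of_nonneg_right _ hcn.le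
  rw [mul_sum, mul_sum, ← sum_add_distrib]
  refine (abs_sum_le_sum_abs _ _).trans (sum_le_sum fun p _ => ?_)
  have h1 := c_pos a ha p.1
  have h2 := c_pos b hb p.2
  rw [abs_mul, abs_of_pos (mul_pos h1 h2)]
  have h3 : |f1 p.1 * f2 p.2 - g * h| ≤ B * |f2 p.2 - h| + |h| * |f1 p.1 - g| := by
    have : f1 p.1 * f2 p.2 - g * h = f1 p.1 * (f2 p.2 - h) + h * (f1 p.1 - g) := by ring
    rw [this]
    refine (abs_add_le _ _).trans ?_
    rw [abs_mul, abs_mul]
    gcongr
    exact hB' _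
  calc c a p.1 * c b p.2 * |f1 p.1 * f2 p.2 - g * h|
      ≤ c a p.1 * c b p.2 * (B * |f2 p.2 - h| + |h| * |f1 p.1 - g|) := by gcongr
    _ = _ := by ring

/-- powers of a power series with coefficients asymptotic to a multiple of the coefficients -/
theorem pow_asymp (a : ℝ) (ha : 0 < a) (u : ℕ → ℝ) (g : ℝ)
    (hu : Tendsto (fun n => u n / c a n) atTop (𝓝 g)) (s : ℕ) :
    Tendsto (fun n : ℕ => PowerSeries.coeff n ((PowerSeries.mk u) ^ (s + 1)) / c ((s + 1 : ℕ) * a) n) atTop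
      (𝓝 (g ^ (s + 1))) := by
  induction s with
  | zero =>
    simp only [zero_add, pow_one, PowerSeries.coeff_mk, Nat.cast_one, one_mul]
    exact hu
  | succ s ih =>
    have h1 := conv_asymp ((s + 1 : ℕ) * a) a (by positivity) ha _ _ _ _ ih hu
    rw [pow_succ g (s + 1)]
    refine h1.congr fun n => ?_
    rw [pow_succ _ (s + 1), PowerSeries.coeff_mul]
    congr 2
    · simp only [PowerSeries.coeff_mk]
    · push_cast; ring

theorem pow_asymp' (a : ℝ) (ha : 0 < a) (u : ℕ → ℝ) (g : ℝ)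
    (hu : Tendsto (fun n : ℕ => u n / (n : ℝ) ^ (a - 1)) atTop (𝓝 g)) (s : ℕ) :
    Tendsto (fun n : ℕ => PowerSeries.coeff n ((PowerSeries.mk u) ^ (s + 1)) / (n : ℝ) ^ ((s + 1 : ℕ) * a - 1)) atTop
      (𝓝 ((g * Real.Gamma a) ^ (s + 1) / Real.Gamma ((s + 1 : ℕ) * a))) := by
  have hGa := Real.Gamma_pos_of_pos ha
  have h1 : Tendsto (fun n : ℕ => u n / c a n) atTop (𝓝 (g * Real.Gamma a)) := by
    have h2 := (c_asymp a ha).inv₀ (by positivity)
    rw [one_div, inv_inv] at h2
    refine (hu.mul h2).congr' ?_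
    filter_upwards [eventually_gt_atTop 0] with n hn
    have hn0 : (0 : ℝ) < n := by exact_mod_cast hn
    have e1 : (n : ℝ) ^ (a - 1) ≠ 0 := by positivity
    have e2 := (c_pos a ha n).ne'
    field_simp
  have h3 := pow_asymp a ha u _ h1 s
  have hs : 0 < ((s + 1 : ℕ) : ℝ) * a := by positivity
  have h4 := c_asymp _ hs
  have h5 := h3.mul h4
  rw [mul_one_div] at h5
  refine h5.congr fun n => ?_
  have e2 := (c_pos _ hs n).ne'
  rw [div_mul_div_comm, mul_comm (c _ n) _, mul_div_mul_right _ _ e2]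

end Pool.Agent.X30.WS
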