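import Mathlib
import Pool.Agent.X30.WS1
import Pool.Agent.X30.WR4

/-!
# The main term of the smooth model
-/

set_option autoImplicit false

namespace Pool.Agent.X30.WS

open Finset Filter Topology
open Pool.Agent.X30.WP

/-- the integer part of the `k`-th root -/
def root (k m : ℕ) : ℕ := Nat.findGreatest (fun n => n ^ k ≤ m) m

lemma root_pow_le (k m : ℕ) (hk : 1 ≤ k) : root k m ^ k ≤ m := by
  unfold root
  exact Nat.findGreatest_spec (P := fun n => n ^ k ≤ m) (Nat.zero_le m) (by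
    show 0 ^ k ≤ m
    rw [zero_pow (by omega)]
    exact Nat.zero_le _)

lemma lt_root_succ_pow (k m : ℕ) (hk : 1 ≤ k) : m < (root k m + 1) ^ k := by
  by_contra hcon
  push Not at hcon
  rcases le_or_gt (root k m + 1) m with h | h
  · exact Nat.findGreatest_is_greatest (P := fun n => n ^ k ≤ m) (k := root k m + 1) (Nat.lt_succ_self _) h hcon
  · have : root k m + 1 ≤ (root k m + 1) ^ k := Nat.le_self_pow (by omega) _
    omega

lemma root_unique (k m n : ℕ) (hk : 1 ≤ k) (h1 : n ^ k ≤ m) (h2 : m < (n + 1) ^ k) : n = root k m := by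
  have h3 := root_pow_le k m hk
  have h4 := lt_root_succ_pow k m hk
  have h5 : n < root k m + 1 := lt_of_pow_lt_pow_left₀ k (Nat.zero_le _) (h1.trans_lt h4)
  have h6 : root k m < n + 1 := lt_of_pow_lt_pow_left₀ k (Nat.zero_le _) (h3.trans_lt h2)
  omega

lemma root_tendsto (k : ℕ) (hk : 1 ≤ k) : Tendsto (root k) atTop atTop := by
  rw [tendsto_atTop_atTop]
  intro b
  refine ⟨b ^ k, fun m hm => ?_⟩
  by_contra hcon
  push Not at hcon
  have h1 := lt_root_succ_pow k m hk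
  have h2 : (root k m + 1) ^ k ≤ b ^ k := Nat.pow_le_pow_left (by omega) k
  omega

/-- the weights of the smooth model -/
noncomputable def u (k m : ℕ) : ℝ := 1 / (gp k (root k m) : ℝ)

lemma gp_ge' (k n : ℕ) : (k + 1) * n ^ k ≤ gp (k + 1) n := by
  induction k with
  | zero => simp [gp]
  | succ k ih =>
    rw [gp_succ]
    calc (k + 1 + 1) * n ^ (k + 1) = n * ((k + 1) * n ^ k) + n ^ (k + 1) := by ring
      _ ≤ (n + 1) * gp (k + 1) n + n ^ (k + 1) := by
          gcongr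
          omega

lemma u_asymp (k : ℕ) (hk : 1 ≤ k) :
    Tendsto (fun m : ℕ => u k m / (m : ℝ) ^ (1 / (k : ℝ) - 1)) atTop (𝓝 (1 / (k : ℝ))) := by
  obtain ⟨k, rfl⟩ : ∃ k', k = k' + 1 := ⟨k - 1, by omega⟩
  have hk0 : (0 : ℝ) < ((k + 1 : ℕ) : ℝ) := by positivity
  have hroot : Tendsto (fun m : ℕ => (root (k + 1) m : ℝ)) atTop atTop :=
    tendsto_natCast_atTop_atTop.comp (root_tendsto (k + 1) (by omega))
  have hinv : Tendsto (fun m : ℕ => 1 / (root (k + 1) m : ℝ)) atTop (𝓝 0) := by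
    have := hroot.inv_tendsto_atTop
    refine this.congr fun m => ?_
    simp
  have hup : Tendsto (fun m : ℕ => 1 / ((k + 1 : ℕ) : ℝ) * (1 + 1 / (root (k + 1) m : ℝ)) ^ k) atTop
      (𝓝 (1 / ((k + 1 : ℕ) : ℝ))) := by
    have := ((hinv.const_add 1).pow k).const_mul (1 / ((k + 1 : ℕ) : ℝ))
    simpa using this
  have hlow : Tendsto (fun m : ℕ => 1 / ((k + 1 : ℕ) : ℝ) * (1 / (1 + 1 / (root (k + 1) m : ℝ))) ^ k) atTop
      (𝓝 (1 / ((k + 1 : ℕ) : ℝ))) := by
    have := (((hinv.const_add 1).inv₀ (by norm_num)).pow k).const_mul (1 / ((k + 1 : ℕ) : ℝ))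
    simpa using this
  refine tendsto_of_tendsto_of_tendsto_of_le_of_le' hlow hup ?_ ?_
  all_goals
    filter_upwards [(root_tendsto (k + 1) (by omega)).eventually_ge_atTop 1] with m hm
    set n : ℕ := root (k + 1) m with hn
    have h1 : n ^ (k + 1) ≤ m := root_pow_le _ _ (by omega)
    have h2 : m < (n + 1) ^ (k + 1) := lt_root_succ_pow _ _ (by omega)
    have hn0 : (0 : ℝ) < n := by exact_mod_cast (by omega : 0 < n)
    have hm0 : (0 : ℝ) < m := by
      have : 0 < n ^ (k + 1) := by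
        have : 0 < n := by omega
        positivity
      exact_mod_cast (by omega : 0 < m)
    set t : ℝ := (m : ℝ) ^ (1 / ((k + 1 : ℕ) : ℝ)) with ht
    have ht0 : 0 < t := by positivity
    have htk : t ^ (k + 1) = m := by
      rw [ht, ← Real.rpow_natCast, ← Real.rpow_mul hm0.le]
      rw [one_div, inv_mul_cancel₀ hk0.ne', Real.rpow_one]
    have hnt : (n : ℝ) ≤ t := by
      apply le_of_pow_le_pow_left₀ (n := k + 1) (by omega) ht0.le
      rw [htk]; exact_mod_cast h1
    have htn : t ≤ (n : ℝ) + 1 := by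
      apply le_of_pow_le_pow_left₀ (n := k + 1) (by omega) (by positivity)
      rw [htk]; exact_mod_cast h2.le
    have hpow : (m : ℝ) ^ (1 / ((k + 1 : ℕ) : ℝ) - 1) = 1 / t ^ k := by
      rw [Real.rpow_sub hm0, Real.rpow_one, ← ht, ← htk]
      field_simp
      ring
    have hg1 : ((k + 1 : ℕ) : ℝ) * (n : ℝ) ^ k ≤ (gp (k + 1) n : ℝ) := by exact_mod_cast gp_ge' k n
    have hg2 : (gp (k + 1) n : ℝ) ≤ ((k + 1 : ℕ) : ℝ) * ((n : ℝ) + 1) ^ k := by exact_mod_cast gp_le k n
    have hg0 : (0 : ℝ) < gp (k + 1) n := by exact_mod_cast gp_pos (k + 1) n (by omega)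
    have hu : u (k + 1) m = 1 / (gp (k + 1) n : ℝ) := rfl
    rw [hpow, hu]
  · -- lower bound
    have e1 : 1 + 1 / (n : ℝ) = (n + 1) / n := by field_simp
    rw [e1, one_div_div, div_pow]
    rw [div_mul_div_comm, one_mul, div_div_div_eq, one_mul, mul_one, div_le_div_iff₀ (by positivity) hg0]
    have h3 : (n : ℝ) ^ k ≤ t ^ k := by gcongr
    calc (n : ℝ) ^ k * (gp (k + 1) n : ℝ) ≤ t ^ k * (((k + 1 : ℕ) : ℝ) * ((n : ℝ) + 1) ^ k) := by gcongr
      _ = _ := by ring
  · have e1 : 1 + 1 / (n : ℝ) = (n + 1) / n := by field_simp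
    rw [e1, div_pow]
    rw [div_mul_div_comm, one_mul, div_div_div_eq, one_mul, mul_one, div_le_div_iff₀ hg0 (by positivity)]
    have h3 : t ^ k ≤ ((n : ℝ) + 1) ^ k := by gcongr
    calc t ^ k * (((k + 1 : ℕ) : ℝ) * (n : ℝ) ^ k) ≤ ((n : ℝ) + 1) ^ k * (gp (k + 1) n : ℝ) := by gcongr
      _ = _ := by ring

/-- `rep` as a coefficient of a power -/
lemma rep_eq_coeff {ι : Type*} [DecidableEq ι] (A : Finset ι) (w : ι → ℝ) (v : ι → ℕ) (s N : ℕ) :
    rep A w v s N = PowerSeries.coeff N ((∑ i ∈ A, PowerSeries.monomial (v i) (w i)) ^ s) := by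
  have h1 : (∑ i ∈ A, PowerSeries.monomial (v i) (w i)) ^ s =
      ∏ _j : Fin s, ∑ i ∈ A, PowerSeries.monomial (v i) (w i) := by
    rw [prod_const, card_univ, Fintype.card_fin]
  rw [h1, prod_univ_sum, map_sum]
  unfold rep
  refine sum_congr rfl fun f _ => ?_
  rw [PowerSeries.prod_monomial, PowerSeries.coeff_monomial]
  simp only [eq_comm]

lemma coeff_AG (k L m : ℕ) (hk : 1 ≤ k) (hm : m < L ^ k) :
    PowerSeries.coeff m (∑ i ∈ AG k L, PowerSeries.monomial (vZ k i) (wZ k i)) = u k m := by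
  rw [map_sum]
  have h1 := root_pow_le k m hk
  have h2 := lt_root_succ_pow k m hk
  have h3 := gp_add k (root k m)
  rw [sum_eq_single (root k m, m - root k m ^ k)]
  · rw [PowerSeries.coeff_monomial, if_pos]
    · rfl
    · unfold vZ
      simp only
      omega
  · intro i hi hne
    rw [PowerSeries.coeff_monomial, if_neg]
    intro h
    rw [mem_AG] at hi
    unfold vZ at h
    have h4 := gp_add k i.1
    have h5 : i.1 = root k m := root_unique k m i.1 hk (by omega) (by omega)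
    apply hne
    ext
    · exact h5
    · simp only
      rw [← h5]
      omega
  · intro h
    exfalso
    apply h
    rw [mem_AG]
    refine ⟨?_, by simp only; omega⟩
    exact lt_of_pow_lt_pow_left₀ k (Nat.zero_le _) (h1.trans_lt hm)

lemma coeff_pow_congr (P Q : PowerSeries ℝ) (M : ℕ) (h : ∀ m < M, PowerSeries.coeff m P = PowerSeries.coeff m Q)
    (s : ℕ) : ∀ m < M, PowerSeries.coeff m (P ^ s) = PowerSeries.coeff m (Q ^ s) := by
  induction s with
  | zero => intro m _; simp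
  | succ s ih =>
    intro m hm
    rw [pow_succ, pow_succ, PowerSeries.coeff_mul, PowerSeries.coeff_mul]
    refine sum_congr rfl fun p hp => ?_
    rw [HasAntidiagonal.mem_antidiagonal] at hp
    rw [ih p.1 (by omega), h p.2 (by omega)]

lemma rep_AG (k L s N : ℕ) (hk : 1 ≤ k) (hN : N < L ^ k) :
    rep (AG k L) (wZ k) (vZ k) s N = PowerSeries.coeff N ((PowerSeries.mk (u k)) ^ s) := by
  rw [rep_eq_coeff]
  apply coeff_pow_congr _ _ (L ^ k) _ s N hN
  intro m hm
  rw [coeff_AG k L m hk hm, PowerSeries.coeff_mk]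

/-- asymptotics of the main term -/
theorem main_term (k s : ℕ) (hk : 1 ≤ k) (hs : 1 ≤ s) :
    Tendsto (fun N : ℕ => PowerSeries.coeff N ((PowerSeries.mk (u k)) ^ s) / (N : ℝ) ^ ((s : ℝ) / k - 1)) atTop
      (𝓝 (Real.Gamma (1 + 1 / k) ^ s / Real.Gamma (s / k))) := by
  obtain ⟨s, rfl⟩ : ∃ s', s = s' + 1 := ⟨s - 1, by omega⟩
  have hk0 : (0 : ℝ) < k := by exact_mod_cast hk
  have h1 := pow_asymp' (1 / (k : ℝ)) (by positivity) (u k) (1 / k) (u_asymp k hk) s
  have h2 : 1 / (k : ℝ) * Real.Gamma (1 / k) = Real.Gamma (1 + 1 / k) := by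
    rw [add_comm, Real.Gamma_add_one (by positivity)]
  have h3 : ((s + 1 : ℕ) : ℝ) * (1 / k) = ((s + 1 : ℕ) : ℝ) / k := by ring
  rw [h2, h3] at h1
  exact h1

end Pool.Agent.X30.WS
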