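import Mathlib
import Pool.Agent.X30.WS2

/-!
# The asymptotic formula for randomly shifted powers
-/

set_option autoImplicit false

namespace Pool.Agent.X30.WS

open Finset Filter Topology MeasureTheory ProbabilityTheory
open Pool.Agent.X30.WP

variable {Ω : Type*} [MeasurableSpace Ω] {μ : Measure Ω} [IsProbabilityMeasure μ]

lemma tendsto_of_close (k s : ℕ) (κ C : ℝ) (hκ : 0 < κ) (R : ℕ → ℝ) (N0 : ℕ) (G : ℝ) (E : ℕ → ℝ)
    (hE : Tendsto (fun N : ℕ => E N / (N : ℝ) ^ ((s : ℝ) / k - 1)) atTop (𝓝 G))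
    (h : ∀ N, N0 ≤ N → |R N - E N| ≤ C * (N : ℝ) ^ ((s : ℝ) / k - 1 - κ)) :
    Tendsto (fun N : ℕ => R N / (N : ℝ) ^ ((s : ℝ) / k - 1)) atTop (𝓝 G) := by
  have h1 : Tendsto (fun N : ℕ => (R N - E N) / (N : ℝ) ^ ((s : ℝ) / k - 1)) atTop (𝓝 0) := by
    have h2 : Tendsto (fun N : ℕ => C * (N : ℝ) ^ (-κ)) atTop (𝓝 0) := by
      have := ((tendsto_rpow_neg_atTop hκ).comp tendsto_natCast_atTop_atTop).const_mul C
      rw [mul_zero] at this
      exact this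
    apply squeeze_zero_norm' _ h2
    filter_upwards [eventually_ge_atTop N0, eventually_gt_atTop 0] with N hN hN0
    have hN0' : (0 : ℝ) < N := by exact_mod_cast hN0
    rw [Real.norm_eq_abs, abs_div, abs_of_pos (by positivity : (0 : ℝ) < (N : ℝ) ^ ((s : ℝ) / k - 1)),
      div_le_iff₀ (by positivity)]
    refine (h N hN).trans (le_of_eq ?_)
    rw [mul_assoc, ← Real.rpow_add hN0']
    congr 2
    ring
  have h3 := h1.add hE
  rw [zero_add] at h3
  refine h3.congr fun N => ?_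
  rw [← add_div]
  congr 1
  ring

theorem asymp (k q s : ℕ) (hq1 : 1 ≤ q) (hq : q + 2 ≤ k) (hs : (2 : ℝ) ^ q < s) (η h : ℝ)
    (hη : ((k : ℝ) - η) * (s + q * 2 ^ q) < s * (q + 1)) (hη1 : η ≤ k - 1)
    (hh0 : 0 ≤ h) (hh : 2 * (k : ℝ) < s * (1 - h))
    (δ : ℕ → Ω → ℕ) (hm : ∀ m, Measurable (δ m)) (hind : iIndepFun δ μ)
    (hu : ∀ m, ∀ d < 2 ^ ⌊η * Nat.log 2 m⌋₊,
      μ {ω | δ m ω = d} = 1 / ((2 ^ ⌊η * Nat.log 2 m⌋₊ : ℕ) : ENNReal)) :
    ∀ᵐ ω ∂μ,
      Tendsto (fun N : ℕ => ({x : Fin s → ℕ | ∑ i, (x i ^ k + δ (tau h (x i)) ω) = N}.ncard : ℝ) /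
        (N : ℝ) ^ ((s : ℝ) / k - 1)) atTop (𝓝 (Real.Gamma (1 + 1 / k) ^ s / Real.Gamma (s / k))) ∧
      Tendsto (fun N : ℕ => ({x : Fin s → ℕ | (∀ i, 1 ≤ x i) ∧
        ∑ i, (x i ^ k + δ (tau h (x i)) ω) = N}.ncard : ℝ) /
        (N : ℝ) ^ ((s : ℝ) / k - 1)) atTop (𝓝 (Real.Gamma (1 + 1 / k) ^ s / Real.Gamma (s / k))) := by
  obtain ⟨κ, hκ, hmain⟩ := waring_cmp k q s hq1 hq hs η h hη hη1 hh0 hh δ hm hind hu
  have hs1 : 1 ≤ s := by
    by_contra hcon
    have : s = 0 := by omega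
    rw [this] at hs
    have : (0 : ℝ) < 2 ^ q := by positivity
    norm_num at hs
    linarith
  have hE := main_term k s (by omega) hs1
  filter_upwards [hmain] with ω h1
  obtain ⟨_, N0, hN0⟩ := h1
  constructor
  · apply tendsto_of_close k s κ (2 ^ s) hκ _ N0 _ _ hE
    intro N hN
    obtain ⟨L, hL, h2, _⟩ := hN0 N hN
    rw [rep_AG k L s N (by omega) hL] at h2
    exact h2
  · apply tendsto_of_close k s κ (2 ^ s) hκ _ N0 _ _ hE
    intro N hN
    obtain ⟨L, hL, _, h2⟩ := hN0 N hN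
    rw [rep_AG k L s N (by omega) hL] at h2
    exact h2

/-- the asymptotic formula for all larger numbers of summands at once -/
theorem asymp_all (k q s0 : ℕ) (hq1 : 1 ≤ q) (hq : q + 2 ≤ k) (hs : (2 : ℝ) ^ q < s0) (η h : ℝ)
    (hη : ((k : ℝ) - η) * (s0 + q * 2 ^ q) < s0 * (q + 1)) (hη1 : η ≤ k - 1)
    (hh0 : 0 ≤ h) (hh : 2 * (k : ℝ) < s0 * (1 - h))
    (δ : ℕ → Ω → ℕ) (hm : ∀ m, Measurable (δ m)) (hind : iIndepFun δ μ)
    (hu : ∀ m, ∀ d < 2 ^ ⌊η * Nat.log 2 m⌋₊,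
      μ {ω | δ m ω = d} = 1 / ((2 ^ ⌊η * Nat.log 2 m⌋₊ : ℕ) : ENNReal)) :
    ∀ᵐ ω ∂μ, ∀ s : ℕ, s0 ≤ s →
      Tendsto (fun N : ℕ => ({x : Fin s → ℕ | ∑ i, (x i ^ k + δ (tau h (x i)) ω) = N}.ncard : ℝ) /
        (N : ℝ) ^ ((s : ℝ) / k - 1)) atTop (𝓝 (Real.Gamma (1 + 1 / k) ^ s / Real.Gamma (s / k))) ∧
      Tendsto (fun N : ℕ => ({x : Fin s → ℕ | (∀ i, 1 ≤ x i) ∧
        ∑ i, (x i ^ k + δ (tau h (x i)) ω) = N}.ncard : ℝ) /
        (N : ℝ) ^ ((s : ℝ) / k - 1)) atTop (𝓝 (Real.Gamma (1 + 1 / k) ^ s / Real.Gamma (s / k))) := by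
  rw [ae_all_iff]
  intro s
  by_cases hss : s0 ≤ s
  · have hssR : (s0 : ℝ) ≤ s := by exact_mod_cast hss
    have hq0 : (0 : ℝ) < 2 ^ q := by positivity
    have hs00 : (0 : ℝ) < s0 := by linarith
    have hqR : (1 : ℝ) ≤ q := by exact_mod_cast hq1
    have hh1 : h < 1 := by
      by_contra hcon
      push Not at hcon
      have : (0 : ℝ) ≤ k := by positivity
      nlinarith
    have hη' : ((k : ℝ) - η) * (s + q * 2 ^ q) < s * (q + 1) := by
      have h1 : 1 ≤ (k : ℝ) - η := by linarith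
      -- `(k - η) < q + 1`
      have h2 : (k : ℝ) - η < q + 1 := by
        have h3 : ((k : ℝ) - η) * s0 < s0 * (q + 1) := by
          have : 0 < ((k : ℝ) - η) * (q * 2 ^ q) := by positivity
          nlinarith
        nlinarith
      nlinarith
    have hh' : 2 * (k : ℝ) < s * (1 - h) := by nlinarith
    filter_upwards [asymp k q s hq1 hq (by linarith) η h hη' hη1 hh0 hh' δ hm hind hu] with ω hω _
    exact hω
  · exact Eventually.of_forall fun ω h => absurd h hss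

/-- the number of integer points, between `2 ^ s` times the numbers of positive and of nonnegative points -/
lemma signs (k s : ℕ) (a : ℕ → ℕ) (N : ℕ) (hk : 1 ≤ k) (ha : ∀ n, n ^ k ≤ a n) :
    {x : Fin s → ℤ | ∑ i, a (x i).natAbs = N}.Finite ∧
    2 ^ s * {x : Fin s → ℕ | (∀ i, 1 ≤ x i) ∧ ∑ i, a (x i) = N}.ncard ≤
      {x : Fin s → ℤ | ∑ i, a (x i).natAbs = N}.ncard ∧
    {x : Fin s → ℤ | ∑ i, a (x i).natAbs = N}.ncard ≤ 2 ^ s * {x : Fin s → ℕ | ∑ i, a (x i) = N}.ncard := by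
  have hbig : ∀ (f : Fin s → ℕ), ∑ i, a (f i) = N → ∀ i, f i ≤ N := by
    intro f hf i
    calc f i ≤ f i ^ k := Nat.le_self_pow (by omega) _
      _ ≤ a (f i) := ha _
      _ ≤ ∑ i, a (f i) := single_le_sum (f := fun i => a (f i)) (fun _ _ => Nat.zero_le _) (mem_univ i)
      _ = N := hf
  set V : Set (Fin s → ℤ) := {x | ∑ i, a (x i).natAbs = N} with hV
  set W : Set (Fin s → ℕ) := {x | ∑ i, a (x i) = N} with hW
  set P : Set (Fin s → ℕ) := {x | (∀ i, 1 ≤ x i) ∧ ∑ i, a (x i) = N} with hP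
  have hVfin : V.Finite := by
    apply (Fintype.piFinset (fun _ : Fin s => Icc (-(N : ℤ)) N)).finite_toSet.subset
    intro x hx
    rw [mem_coe, Fintype.mem_piFinset]
    intro i
    have h3 : (x i).natAbs ≤ N := hbig (fun i => (x i).natAbs) hx i
    rw [mem_Icc]
    omega
  have hWfin : W.Finite := by
    apply (Fintype.piFinset (fun _ : Fin s => range (N + 1))).finite_toSet.subset
    intro x hx
    rw [mem_coe, Fintype.mem_piFinset]
    intro i
    have h3 := hbig x hx i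
    rw [mem_range]
    omega
  have hPfin : P.Finite := hWfin.subset fun x hx => hx.2
  have hB : (Set.univ : Set (Fin s → Bool)).ncard = 2 ^ s := by
    rw [Set.ncard_univ]; simp
  refine ⟨hVfin, ?_, ?_⟩
  · -- lower bound
    rw [mul_comm, ← hB, ← Set.ncard_prod]
    apply Set.ncard_le_ncard_of_injOn (fun y : (Fin s → ℕ) × (Fin s → Bool) =>
      fun i => if y.2 i then (y.1 i : ℤ) else -(y.1 i : ℤ)) _ _ hVfin
    · rintro ⟨x, b⟩ ⟨hx, _⟩
      rw [hV, Set.mem_ofPred_eq]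
      have h1 := hx.2
      simp only at h1
      rw [← h1]
      refine sum_congr rfl fun i _ => ?_
      congr 1
      simp only
      split_ifs <;> simp
    · rintro ⟨x, b⟩ ⟨hx, _⟩ ⟨y, b'⟩ ⟨hy, _⟩ hxy
      have h1 : ∀ i, x i = y i ∧ b i = b' i := by
        intro i
        have h2 := congrFun hxy i
        have h3 := hx.1 i
        have h4 := hy.1 i
        simp only at h2 h3 h4
        cases hb : b i <;> cases hb' : b' i <;> simp [hb, hb'] at h2 ⊢ <;> omega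
      rw [Prod.mk.injEq]
      exact ⟨funext fun i => (h1 i).1, funext fun i => (h1 i).2⟩
  · rw [mul_comm, ← hB, ← Set.ncard_prod]
    apply Set.ncard_le_ncard_of_injOn (fun x : Fin s → ℤ =>
      ((fun i => (x i).natAbs, fun i => decide (0 ≤ x i)) : (Fin s → ℕ) × (Fin s → Bool))) _ _
      (hWfin.prod Set.finite_univ)
    · intro x hx
      exact ⟨hx, Set.mem_univ _⟩
    · intro x _ y _ hxy
      simp only [Prod.mk.injEq] at hxy
      obtain ⟨e1, e2⟩ := hxy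
      funext i
      have f1 : (x i).natAbs = (y i).natAbs := congrFun e1 i
      have f2 : decide (0 ≤ x i) = decide (0 ≤ y i) := congrFun e2 i
      rw [decide_eq_decide] at f2
      omega

/-- the asymptotic formula for the number of points of randomly shifted spheres -/
theorem sphere_asymp (k q s0 : ℕ) (hq1 : 1 ≤ q) (hq : q + 2 ≤ k) (hs : (2 : ℝ) ^ q < s0) (η h : ℝ)
    (hη : ((k : ℝ) - η) * (s0 + q * 2 ^ q) < s0 * (q + 1)) (hη1 : η ≤ k - 1)
    (hh0 : 0 ≤ h) (hh : 2 * (k : ℝ) < s0 * (1 - h))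
    (δ : ℕ → Ω → ℕ) (hm : ∀ m, Measurable (δ m)) (hind : iIndepFun δ μ)
    (hu : ∀ m, ∀ d < 2 ^ ⌊η * Nat.log 2 m⌋₊,
      μ {ω | δ m ω = d} = 1 / ((2 ^ ⌊η * Nat.log 2 m⌋₊ : ℕ) : ENNReal)) :
    ∀ᵐ ω ∂μ, ∀ s : ℕ, s0 ≤ s →
      Tendsto (fun N : ℕ => ({x : Fin s → ℤ | ∑ i, ((x i).natAbs ^ k + δ (tau h (x i).natAbs) ω) = N}.ncard : ℝ) /
        (N : ℝ) ^ ((s : ℝ) / k - 1)) atTop (𝓝 ((2 * Real.Gamma (1 + 1 / k)) ^ s / Real.Gamma (s / k))) := by
  filter_upwards [asymp_all k q s0 hq1 hq hs η h hη hη1 hh0 hh δ hm hind hu] with ω hω s hs'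
  obtain ⟨h1, h2⟩ := hω s hs'
  have h1' := h1.const_mul ((2 : ℝ) ^ s)
  have h2' := h2.const_mul ((2 : ℝ) ^ s)
  have e : (2 : ℝ) ^ s * (Real.Gamma (1 + 1 / k) ^ s / Real.Gamma (s / k)) =
      (2 * Real.Gamma (1 + 1 / k)) ^ s / Real.Gamma (s / k) := by rw [mul_pow]; ring
  rw [e] at h1' h2'
  refine tendsto_of_tendsto_of_tendsto_of_le_of_le h2' h1' ?_ ?_
  · intro N
    have h3 := (signs k s (fun n => n ^ k + δ (tau h n) ω) N (by omega) (fun n => Nat.le_add_right _ _)).2.1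
    simp only
    rw [← mul_div_assoc]
    apply div_le_div_of_nonneg_right _ (by positivity)
    exact_mod_cast h3
  · intro N
    have h3 := (signs k s (fun n => n ^ k + δ (tau h n) ω) N (by omega) (fun n => Nat.le_add_right _ _)).2.2
    simp only
    rw [← mul_div_assoc]
    apply div_le_div_of_nonneg_right _ (by positivity)
    exact_mod_cast h3

end Pool.Agent.X30.WS
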