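import Mathlib
import Pool.Agent.X30.WP6

/-!
# Perturbed powers: probability tools
-/

set_option autoImplicit false

namespace Pool.Agent.X30.PP

open Finset MeasureTheory ProbabilityTheory
open Pool.Agent.X30.WP (unif_ae unif_integral)

variable {Ω : Type*} [MeasurableSpace Ω] {μ : Measure Ω} [IsProbabilityMeasure μ]

/-- conditioning on the variables with index in `B` -/
lemma cond_bound (δ : ℕ → Ω → ℕ) (hm : ∀ m, Measurable (δ m)) (hind : iIndepFun δ μ)
    (A B : Finset ℕ) (hAB : Disjoint B A) (Q : (B → ℕ) → Set (A → ℕ)) (p : ENNReal)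
    (hQ : ∀ b, μ {ω | (fun i : A => δ i ω) ∈ Q b} ≤ p) :
    μ {ω | (fun i : A => δ i ω) ∈ Q (fun i : B => δ i ω)} ≤ p := by
  have hind' := hind.indepFun_finset B A hAB hm
  have hmB : Measurable (fun ω => (fun i : B => δ i ω)) := measurable_pi_lambda _ fun i => hm i
  have hsub : {ω | (fun i : A => δ i ω) ∈ Q (fun i : B => δ i ω)} ⊆
      ⋃ b : B → ℕ, ((fun ω => (fun i : B => δ i ω)) ⁻¹' {b} ∩ (fun ω => (fun i : A => δ i ω)) ⁻¹' (Q b)) := by
    intro ω hω
    rw [Set.mem_iUnion]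
    exact ⟨fun i : B => δ i ω, rfl, hω⟩
  refine (measure_mono hsub).trans ?_
  refine (measure_iUnion_le _).trans ?_
  calc ∑' b : B → ℕ, μ ((fun ω => (fun i : B => δ i ω)) ⁻¹' {b} ∩ (fun ω => (fun i : A => δ i ω)) ⁻¹' (Q b))
      ≤ ∑' b : B → ℕ, μ ((fun ω => (fun i : B => δ i ω)) ⁻¹' {b}) * p := by
        refine ENNReal.tsum_le_tsum fun b => ?_
        rw [hind'.measure_inter_preimage_eq_mul {b} (Q b) (measurableSet_singleton b)
          (Set.to_countable _).measurableSet]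
        exact mul_le_mul' le_rfl (hQ b)
    _ = (∑' b : B → ℕ, μ ((fun ω => (fun i : B => δ i ω)) ⁻¹' {b})) * p := ENNReal.tsum_mul_right
    _ ≤ 1 * p := by
        gcongr
        refine (tsum_measure_le_measure_univ ?_ ?_).trans prob_le_one
        · exact fun b => (hmB (measurableSet_singleton b)).nullMeasurableSet
        · intro b b' hbb'
          refine (Set.disjoint_left.2 ?_).aedisjoint
          intro ω h1 h2
          exact hbb' (h1.symm.trans h2)
    _ = p := one_mul p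

/-- expectation of the exponential of a sum -/
lemma exp_sum (δ : ℕ → Ω → ℕ) (hm : ∀ m, Measurable (δ m)) (hind : iIndepFun δ μ)
    (Dm : ℕ → ℕ) (hD : ∀ m, 1 ≤ Dm m)
    (hu : ∀ m, ∀ d < Dm m, μ {ω | δ m ω = d} = 1 / (Dm m : ENNReal))
    (A : Finset ℕ) (g : ℕ → ℕ → ℝ) (t C : ℝ) (hC : ∀ x ∈ A, ∀ d, |g x d| ≤ C) :
    μ.real {ω | t ≤ ∑ x ∈ A, g x (δ x ω)} ≤
      Real.exp (-t) * ∏ x ∈ A, ((∑ d ∈ range (Dm x), Real.exp (g x d)) / Dm x) := by
  set X : ℕ → Ω → ℝ := fun x => (g x) ∘ (δ x) with hX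
  have hXind : iIndepFun X μ := hind.comp _ fun m => Measurable.of_discrete
  have hXm : ∀ x, Measurable (X x) := fun x => Measurable.of_discrete.comp (hm x)
  have hXs : ∀ ω, (∑ x ∈ A, X x) ω = ∑ x ∈ A, g x (δ x ω) := by
    intro ω
    rw [Finset.sum_apply]
    rfl
  have hms : Measurable (∑ x ∈ A, X x) := by
    have h2 := Finset.measurable_sum A (fun x _ => hXm x)
    have h3 : (∑ x ∈ A, X x) = fun a => ∑ i ∈ A, X i a := by
      ext a
      rw [Finset.sum_apply]
    rw [h3]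
    exact h2
  have hint : Integrable (fun ω => Real.exp (1 * (∑ x ∈ A, X x) ω)) μ := by
    apply Integrable.of_bound (C := Real.exp (∑ _x ∈ A, C))
    · exact (Real.measurable_exp.comp (hms.const_mul 1)).aestronglyMeasurable
    · refine Filter.Eventually.of_forall fun ω => ?_
      rw [Real.norm_eq_abs, abs_of_pos (Real.exp_pos _), Real.exp_le_exp, one_mul, hXs]
      exact sum_le_sum fun x hx => (le_abs_self _).trans (hC x hx _)
  have h1 := measure_ge_le_exp_mul_mgf (μ := μ) (X := ∑ x ∈ A, X x) (t := 1) t (by norm_num) hint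
  rw [hXind.mgf_sum hXm A] at h1
  have h2 : ∀ x ∈ A, mgf (X x) μ 1 = (∑ d ∈ range (Dm x), Real.exp (g x d)) / Dm x := by
    intro x _
    unfold mgf
    simp only [one_mul]
    exact unif_integral (δ x) (hm x) (Dm x) (hD x) (hu x) (fun d => Real.exp (g x d))
  rw [prod_congr rfl h2] at h1
  simp only [hXs] at h1
  rw [show -(1 : ℝ) * t = -t by ring] at h1
  exact h1

/-- upper tail -/
lemma upper_tail (δ : ℕ → Ω → ℕ) (hm : ∀ m, Measurable (δ m)) (hind : iIndepFun δ μ)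
    (Dm : ℕ → ℕ) (hD : ∀ m, 1 ≤ Dm m)
    (hu : ∀ m, ∀ d < Dm m, μ {ω | δ m ω = d} = 1 / (Dm m : ENNReal))
    (A : Finset ℕ) (g : ℕ → ℕ → ℝ) (hg0 : ∀ x ∈ A, ∀ d, 0 ≤ g x d) (hg1 : ∀ x ∈ A, ∀ d, g x d ≤ 1)
    (t E : ℝ) (hE : ∑ x ∈ A, (∑ d ∈ range (Dm x), g x d) / Dm x ≤ E) :
    μ.real {ω | t ≤ ∑ x ∈ A, g x (δ x ω)} ≤ Real.exp (-t + 2 * E) := by
  have h1 := exp_sum δ hm hind Dm hD hu A g t 1 (fun x hx d => by
    rw [abs_of_nonneg (hg0 x hx d)]; exact hg1 x hx d)
  refine h1.trans ?_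
  rw [Real.exp_add]
  apply mul_le_mul_of_nonneg_left _ (Real.exp_pos _).le
  have h2 : ∀ x ∈ A, (∑ d ∈ range (Dm x), Real.exp (g x d)) / Dm x ≤
      Real.exp (2 * ((∑ d ∈ range (Dm x), g x d) / Dm x)) := by
    intro x hx
    have hD0 : (0 : ℝ) < Dm x := by exact_mod_cast hD x
    have h3 : ∀ d, Real.exp (g x d) ≤ 1 + 2 * g x d := by
      intro d
      have h4 := hg0 x hx d
      have h5 := hg1 x hx d
      have h6 : Real.exp (g x d) ≤ 1 + g x d + (g x d) ^ 2 := by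
        have := Real.abs_exp_sub_one_sub_id_le (x := g x d) (by rw [abs_of_nonneg h4]; exact h5)
        have h7 := abs_le.1 this
        linarith [h7.2]
      nlinarith
    calc (∑ d ∈ range (Dm x), Real.exp (g x d)) / Dm x
        ≤ (∑ d ∈ range (Dm x), (1 + 2 * g x d)) / Dm x := by
          gcongr with d _
          exact h3 d
      _ = 2 * ((∑ d ∈ range (Dm x), g x d) / Dm x) + 1 := by
          rw [sum_add_distrib, ← mul_sum, sum_const, card_range, nsmul_eq_mul, mul_one]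
          field_simp
          ring
      _ ≤ _ := Real.add_one_le_exp _
  calc ∏ x ∈ A, ((∑ d ∈ range (Dm x), Real.exp (g x d)) / Dm x)
      ≤ ∏ x ∈ A, Real.exp (2 * ((∑ d ∈ range (Dm x), g x d) / Dm x)) := by
        apply prod_le_prod
        · intro x _
          exact div_nonneg (sum_nonneg fun d _ => (Real.exp_pos _).le) (by positivity)
        · exact h2
    _ = Real.exp (2 * ∑ x ∈ A, (∑ d ∈ range (Dm x), g x d) / Dm x) := by
        rw [← Real.exp_sum, mul_sum]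
    _ ≤ _ := by
        rw [Real.exp_le_exp]
        linarith

/-- probability that a sum of independent variables vanishes -/
lemma lower_tail (δ : ℕ → Ω → ℕ) (hm : ∀ m, Measurable (δ m)) (hind : iIndepFun δ μ)
    (Dm : ℕ → ℕ) (hD : ∀ m, 1 ≤ Dm m)
    (hu : ∀ m, ∀ d < Dm m, μ {ω | δ m ω = d} = 1 / (Dm m : ENNReal))
    (A : Finset ℕ) (g : ℕ → ℕ → ℝ) (hg0 : ∀ x ∈ A, ∀ d, 0 ≤ g x d) (hg1 : ∀ x ∈ A, ∀ d, g x d ≤ 1)
    (E : ℝ) (hE : E ≤ ∑ x ∈ A, (∑ d ∈ range (Dm x), g x d) / Dm x) :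
    μ.real {ω | ∑ x ∈ A, g x (δ x ω) ≤ 0} ≤ Real.exp (-(E / 2)) := by
  have h1 := exp_sum δ hm hind Dm hD hu A (fun x d => -g x d) 0 1 (fun x hx d => by
    rw [abs_neg, abs_of_nonneg (hg0 x hx d)]; exact hg1 x hx d)
  have h0 : {ω | ∑ x ∈ A, g x (δ x ω) ≤ 0} = {ω | 0 ≤ ∑ x ∈ A, -g x (δ x ω)} := by
    ext ω
    rw [Set.mem_ofPred_eq, Set.mem_ofPred_eq, sum_neg_distrib]
    constructor <;> intro h <;> linarith
  rw [h0]
  refine h1.trans ?_
  rw [neg_zero, Real.exp_zero, one_mul]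
  have h2 : ∀ x ∈ A, (∑ d ∈ range (Dm x), Real.exp (-g x d)) / Dm x ≤
      Real.exp (-(1 / 2) * ((∑ d ∈ range (Dm x), g x d) / Dm x)) := by
    intro x hx
    have hD0 : (0 : ℝ) < Dm x := by exact_mod_cast hD x
    have h3 : ∀ d, Real.exp (-g x d) ≤ 1 - (1 / 2) * g x d := by
      intro d
      have h4 := hg0 x hx d
      have h5 := hg1 x hx d
      have h6 : 1 + g x d ≤ Real.exp (g x d) := by
        have := Real.add_one_le_exp (g x d)
        linarith
      rw [Real.exp_neg]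
      have h7 : 0 < 1 + g x d := by linarith
      calc (Real.exp (g x d))⁻¹ ≤ (1 + g x d)⁻¹ := by gcongr
        _ ≤ 1 - (1 / 2) * g x d := by
            rw [inv_le_iff_one_le_mul₀ h7]
            nlinarith
    calc (∑ d ∈ range (Dm x), Real.exp (-g x d)) / Dm x
        ≤ (∑ d ∈ range (Dm x), (1 - (1 / 2) * g x d)) / Dm x := by
          gcongr with d _
          exact h3 d
      _ = -(1 / 2) * ((∑ d ∈ range (Dm x), g x d) / Dm x) + 1 := by
          rw [sum_sub_distrib, ← mul_sum, sum_const, card_range, nsmul_eq_mul, mul_one]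
          field_simp
          ring
      _ ≤ _ := Real.add_one_le_exp _
  calc ∏ x ∈ A, ((∑ d ∈ range (Dm x), Real.exp (-g x d)) / Dm x)
      ≤ ∏ x ∈ A, Real.exp (-(1 / 2) * ((∑ d ∈ range (Dm x), g x d) / Dm x)) := by
        apply prod_le_prod
        · intro x _
          exact div_nonneg (sum_nonneg fun d _ => (Real.exp_pos _).le) (by positivity)
        · exact h2
    _ = Real.exp (-(1 / 2) * ∑ x ∈ A, (∑ d ∈ range (Dm x), g x d) / Dm x) := by
        rw [← Real.exp_sum, mul_sum]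
    _ ≤ _ := by
        rw [Real.exp_le_exp]
        linarith

end Pool.Agent.X30.PP
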