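import Mathlib

/-!
# Perturbed powers: the greedy algorithm
-/

set_option autoImplicit false

namespace Pool.Agent.X30.PP

open Finset

/-- admissible shifts -/
def Ok (k : ℕ) (w : ℕ → ℕ) : Prop := ∀ n, 1 ≤ n → w n ≤ n ^ (k - 1)

lemma step (k : ℕ) (hk : 2 ≤ k) : ∃ c C : ℝ, 0 < c ∧ 0 < C ∧ ∃ t0 : ℕ, ∀ w, Ok k w → ∀ t : ℕ, t0 ≤ t →
    ∃ z : ℕ, 1 ≤ z ∧ z ^ k ≤ t ∧ t < (z + 2) ^ k ∧ z ^ k + w z ≤ t ∧
      c * (t : ℝ) ^ (1 - 1 / (k : ℝ)) ≤ (t : ℝ) - ((z ^ k + w z : ℕ) : ℝ) ∧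
      (t : ℝ) - ((z ^ k + w z : ℕ) : ℝ) ≤ C * (t : ℝ) ^ (1 - 1 / (k : ℝ)) := by
  have hk0 : (0 : ℝ) < k := by exact_mod_cast (by omega : 0 < k)
  refine ⟨1 / 2 ^ (k - 1), 2 * k, by positivity, by positivity, 4 ^ k, fun w hw t ht => ?_⟩
  set R : ℝ := (t : ℝ) ^ ((k : ℝ)⁻¹) with hR
  have hRk : R ^ k = t := Real.rpow_inv_natCast_pow (by positivity) (by omega)
  have hR4 : 4 ≤ R := by
    by_contra hcon
    push Not at hcon
    have h1 : R ^ k < 4 ^ k := pow_lt_pow_left₀ hcon (by positivity) (by omega)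
    rw [hRk] at h1
    have h2 : ((4 ^ k : ℕ) : ℝ) ≤ t := by exact_mod_cast ht
    push_cast at h2
    linarith
  have hR0 : 0 < R := by linarith
  have hRθ : R ^ (k - 1) = (t : ℝ) ^ (1 - 1 / (k : ℝ)) := by
    rw [hR, ← Real.rpow_natCast, ← Real.rpow_mul (by positivity)]
    congr 1
    rw [Nat.cast_sub (by omega)]
    push_cast
    field_simp
  obtain ⟨k', hk'⟩ : ∃ k', k = k' + 1 := ⟨k - 1, by omega⟩
  have hfl : 4 ≤ ⌊R⌋₊ := Nat.le_floor (by exact_mod_cast hR4)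
  set z : ℕ := ⌊R⌋₊ - 1 with hz
  have hz1 : ((z : ℝ)) + 1 ≤ R := by
    have h1 : ((z + 1 : ℕ) : ℝ) = (⌊R⌋₊ : ℝ) := by
      congr 1
      omega
    have h2 := Nat.floor_le hR0.le
    push_cast at h1
    linarith
  have hz2 : R < (z : ℝ) + 2 := by
    have h1 : ((z + 1 : ℕ) : ℝ) = (⌊R⌋₊ : ℝ) := by
      congr 1
      omega
    have h2 := Nat.lt_floor_add_one R
    push_cast at h1
    linarith
  have hz0 : (2 : ℝ) < z := by linarith
  have hz0' : 1 ≤ z := by omega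
  have hwz : (w z : ℝ) ≤ (z : ℝ) ^ (k - 1) := by exact_mod_cast hw z hz0'
  have hbern : (z : ℝ) ^ k + 2 * (z : ℝ) ^ (k - 1) ≤ ((z : ℝ) + 1) ^ k := by
    have h1 := one_add_mul_le_pow (a := 1 / (z : ℝ)) (by have : 0 ≤ 1 / (z : ℝ) := by positivity
                                                         linarith) k
    have h2 : ((z : ℝ) + 1) ^ k = (z : ℝ) ^ k * (1 + 1 / (z : ℝ)) ^ k := by
      rw [← mul_pow]
      congr 1
      field_simp
    rw [h2]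
    calc (z : ℝ) ^ k + 2 * (z : ℝ) ^ (k - 1) ≤ (z : ℝ) ^ k + k * (z : ℝ) ^ (k - 1) := by
          gcongr
          exact_mod_cast hk
      _ = (z : ℝ) ^ k * (1 + k * (1 / (z : ℝ))) := by
          rw [hk', Nat.add_sub_cancel, pow_succ]
          field_simp
      _ ≤ _ := by gcongr
  have hz1k : ((z : ℝ) + 1) ^ k ≤ t := by
    rw [← hRk]
    exact pow_le_pow_left₀ (by positivity) hz1 k
  have hpos : (0 : ℝ) ≤ (z : ℝ) ^ (k - 1) := by positivity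
  have hup : R ^ k - 2 * k * R ^ (k - 1) ≤ (z : ℝ) ^ k := by
    have h1 := one_add_mul_le_pow (a := -2 / R) (by
      rw [le_div_iff₀ hR0]
      linarith) k
    have h2 : (R - 2) ^ k = R ^ k * (1 + -2 / R) ^ k := by
      rw [← mul_pow]
      congr 1
      field_simp
      ring
    calc R ^ k - 2 * k * R ^ (k - 1) = R ^ k * (1 + k * (-2 / R)) := by
          rw [hk', Nat.add_sub_cancel, pow_succ]
          field_simp
          ring
      _ ≤ R ^ k * (1 + -2 / R) ^ k := by gcongr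
      _ = (R - 2) ^ k := h2.symm
      _ ≤ _ := by
          apply pow_le_pow_left₀ (by linarith)
          linarith
  refine ⟨z, hz0', ?_, ?_, ?_, ?_, ?_⟩
  · have h1 : (z : ℝ) ^ k ≤ t := by linarith
    exact_mod_cast h1
  · have h1 : (t : ℝ) < ((z : ℝ) + 2) ^ k := by
      rw [← hRk]
      exact pow_lt_pow_left₀ hz2 hR0.le (by omega)
    exact_mod_cast h1
  · have h1 : (z : ℝ) ^ k + w z ≤ t := by linarith
    exact_mod_cast h1
  · rw [← hRθ]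
    push_cast
    have h1 : (R / 2) ^ (k - 1) ≤ (z : ℝ) ^ (k - 1) := by
      apply pow_le_pow_left₀ (by positivity)
      linarith
    have h2 : 1 / 2 ^ (k - 1) * R ^ (k - 1) = (R / 2) ^ (k - 1) := by
      rw [div_pow]
      ring
    rw [h2]
    linarith
  · rw [← hRθ]
    push_cast
    have h1 : (0 : ℝ) ≤ w z := by positivity
    rw [← hRk]
    linarith

lemma theta_pos (k : ℕ) (hk : 2 ≤ k) : (0 : ℝ) < 1 - 1 / (k : ℝ) := by
  have : (2 : ℝ) ≤ k := by exact_mod_cast hk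
  have h1 : 1 / (k : ℝ) ≤ 1 / 2 := by gcongr
  linarith

lemma greedy (k : ℕ) (hk : 2 ≤ k) (r : ℕ) : ∃ C : ℝ, 0 < C ∧ ∃ t0 : ℕ, ∀ w, Ok k w → ∀ t : ℕ, t0 ≤ t →
    ∃ z : Fin r → ℕ, (∀ l, 1 ≤ z l ∧ (z l) ^ k ≤ t) ∧ ∑ l, ((z l) ^ k + w (z l)) ≤ t ∧
      (t : ℝ) - ((∑ l, ((z l) ^ k + w (z l)) : ℕ) : ℝ) ≤ C * (t : ℝ) ^ ((1 - 1 / (k : ℝ)) ^ r) := by
  have hθ := theta_pos k hk
  induction r with
  | zero =>
    refine ⟨1, one_pos, 0, fun w _ t _ => ⟨Fin.elim0, fun l => l.elim0, by simp, by simp⟩⟩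
  | succ r ih =>
    obtain ⟨C, hC, t0, h⟩ := ih
    obtain ⟨c', C', hc', hC', t0', h'⟩ := step k hk
    have htend : Filter.Tendsto (fun t : ℕ => (t : ℝ) ^ (1 - 1 / (k : ℝ))) Filter.atTop Filter.atTop :=
      (tendsto_rpow_atTop hθ).comp tendsto_natCast_atTop_atTop
    obtain ⟨T, hT⟩ := Filter.eventually_atTop.1 (htend.eventually_ge_atTop (t0 / c'))
    refine ⟨C * C' ^ ((1 - 1 / (k : ℝ)) ^ r), by positivity, max T t0', fun w hw t ht => ?_⟩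
    have htT : T ≤ t := (le_max_left _ _).trans ht
    have ht0' : t0' ≤ t := (le_max_right _ _).trans ht
    obtain ⟨z0, hz1, hz2, _, hz4, hz5, hz6⟩ := h' w hw t ht0'
    set t1 : ℕ := t - (z0 ^ k + w z0) with ht1
    have ht1' : (t1 : ℝ) = (t : ℝ) - ((z0 ^ k + w z0 : ℕ) : ℝ) := by
      rw [ht1, Nat.cast_sub hz4]
    rw [← ht1'] at hz5 hz6
    have ht01 : t0 ≤ t1 := by
      have h1 := hT t htT
      rw [div_le_iff₀ hc'] at h1
      have h2 : (t0 : ℝ) ≤ t1 := by linarith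
      exact_mod_cast h2
    obtain ⟨z', hz'1, hz'2, hz'3⟩ := h w hw t1 ht01
    refine ⟨Fin.cons z0 z', ?_, ?_, ?_⟩
    · intro l
      refine Fin.cases ?_ (fun i => ?_) l
      · exact ⟨hz1, hz2⟩
      · simp only [Fin.cons_succ]
        refine ⟨(hz'1 i).1, (hz'1 i).2.trans ?_⟩
        omega
    · rw [Fin.sum_univ_succ]
      simp only [Fin.cons_zero, Fin.cons_succ]
      omega
    · rw [Fin.sum_univ_succ]
      simp only [Fin.cons_zero, Fin.cons_succ]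
      have h1 : (t : ℝ) - ((z0 ^ k + w z0 + ∑ i, ((z' i) ^ k + w (z' i)) : ℕ) : ℝ) =
          (t1 : ℝ) - ((∑ i, ((z' i) ^ k + w (z' i)) : ℕ) : ℝ) := by
        rw [ht1']
        push_cast
        ring
      rw [h1]
      refine hz'3.trans ?_
      have hp : (0 : ℝ) < (1 - 1 / (k : ℝ)) ^ r := by positivity
      calc C * (t1 : ℝ) ^ ((1 - 1 / (k : ℝ)) ^ r)
          ≤ C * (C' * (t : ℝ) ^ (1 - 1 / (k : ℝ))) ^ ((1 - 1 / (k : ℝ)) ^ r) := by gcongr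
        _ = C * C' ^ ((1 - 1 / (k : ℝ)) ^ r) * (t : ℝ) ^ ((1 - 1 / (k : ℝ)) ^ (r + 1)) := by
            rw [Real.mul_rpow hC'.le (by positivity), ← Real.rpow_mul (by positivity), pow_succ']
            ring

/-- values represented by `r` powers outside of `[2 ^ j, 2 ^ (j + 1))` -/
def isZ (k r j : ℕ) (w : ℕ → ℕ) (v : ℤ) : Prop :=
  ∃ z : Fin r → ℕ, (∀ l, 1 ≤ z l ∧ ¬ (2 ^ j ≤ z l ∧ z l < 2 ^ (j + 1)) ∧ z l < 2 ^ (j + 6)) ∧
    ((∑ l, ((z l) ^ k + w (z l)) : ℕ) : ℤ) = v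

lemma main_greedy (k r : ℕ) (hk : 2 ≤ k) (hr : 1 ≤ r) (η : ℝ) (hη : (k : ℝ) * (1 - 1 / (k : ℝ)) ^ r < η) :
    ∃ j0 : ℕ, ∀ j, j0 ≤ j → ∀ w, Ok k w → ∀ t : ℕ, (2 ^ (j + 3)) ^ k ≤ t → t ≤ (2 ^ (j + 5)) ^ k →
      ∃ v : ℤ, isZ k r j w v ∧ v ≤ t ∧ (t : ℤ) < v + (2 ^ (⌊η * j⌋₊ - 1) : ℕ) := by
  have hθ := theta_pos k hk
  set θ : ℝ := 1 - 1 / (k : ℝ) with hθdef
  have hk0 : (0 : ℝ) < k := by exact_mod_cast (by omega : 0 < k)
  have hkθ : (k : ℝ) * θ = k - 1 := by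
    rw [hθdef]
    field_simp
  obtain ⟨r', rfl⟩ : ∃ r', r = r' + 1 := ⟨r - 1, by omega⟩
  obtain ⟨C, hC, t0, h⟩ := greedy k hk r'
  obtain ⟨c', C', hc', hC', t0', h'⟩ := step k hk
  have htend : Filter.Tendsto (fun t : ℕ => (t : ℝ) ^ θ) Filter.atTop Filter.atTop :=
    (tendsto_rpow_atTop hθ).comp tendsto_natCast_atTop_atTop
  obtain ⟨T, hT⟩ := Filter.eventually_atTop.1 (htend.eventually_ge_atTop (t0 / c'))
  have hgap : 0 < η - k * θ ^ (r' + 1) := by linarith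
  have htend2 : Filter.Tendsto (fun j : ℕ => (2 : ℝ) ^ ((η - k * θ ^ (r' + 1)) * j)) Filter.atTop Filter.atTop := by
    have h1 : (fun j : ℕ => (2 : ℝ) ^ ((η - k * θ ^ (r' + 1)) * j)) =
        fun j : ℕ => ((2 : ℝ) ^ (η - k * θ ^ (r' + 1))) ^ j := by
      ext j
      rw [Real.rpow_mul (by norm_num), Real.rpow_natCast]
    rw [h1]
    exact tendsto_pow_atTop_atTop_of_one_lt (Real.one_lt_rpow (by norm_num) hgap)
  set E : ℝ := C * C' ^ (θ ^ r') * (2 : ℝ) ^ (5 * (k * θ ^ (r' + 1))) with hE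
  obtain ⟨j1, hj1⟩ := Filter.eventually_atTop.1 (htend2.eventually_gt_atTop (4 * E))
  have htend3 : Filter.Tendsto (fun j : ℕ => (2 : ℝ) ^ j) Filter.atTop Filter.atTop :=
    tendsto_pow_atTop_atTop_of_one_lt (by norm_num)
  obtain ⟨j2, hj2⟩ := Filter.eventually_atTop.1 (htend3.eventually_gt_atTop (C' * 2 ^ (5 * (k - 1))))
  have hη0 : 0 < η := lt_trans (by positivity) hη
  obtain ⟨j3, hj3⟩ := exists_nat_gt (1 / η)
  refine ⟨max (max j1 j2) (max (max T t0') j3), fun j hj w hw t ht1 ht2 => ?_⟩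
  have hjj1 : j1 ≤ j := (le_max_left _ _).trans ((le_max_left _ _).trans hj)
  have hjj2 : j2 ≤ j := (le_max_right _ _).trans ((le_max_left _ _).trans hj)
  have hjT : T ≤ j := (le_max_left _ _).trans ((le_max_left _ _).trans ((le_max_right _ _).trans hj))
  have hjt : t0' ≤ j := (le_max_right _ _).trans ((le_max_left _ _).trans ((le_max_right _ _).trans hj))
  have hjj3 : j3 ≤ j := (le_max_right _ _).trans ((le_max_right _ _).trans hj)
  have hjt2 : j ≤ t := by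
    calc j ≤ j + 3 := by omega
      _ ≤ 2 ^ (j + 3) := Nat.lt_two_pow_self.le
      _ = (2 ^ (j + 3)) ^ 1 := (pow_one _).symm
      _ ≤ (2 ^ (j + 3)) ^ k := Nat.pow_le_pow_right (by positivity) (by omega)
      _ ≤ t := ht1
  obtain ⟨z0, hz1, hz2, hz3, hz4, hz5, hz6⟩ := h' w hw t (hjt.trans hjt2)
  set u : ℕ := t - (z0 ^ k + w z0) with hu
  have hu' : (u : ℝ) = (t : ℝ) - ((z0 ^ k + w z0 : ℕ) : ℝ) := by
    rw [hu, Nat.cast_sub hz4]
  rw [← hu'] at hz5 hz6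
  have htu : t0 ≤ u := by
    have h1 := hT t (hjT.trans hjt2)
    rw [div_le_iff₀ hc'] at h1
    have h2 : (t0 : ℝ) ≤ u := by linarith
    exact_mod_cast h2
  obtain ⟨z', hz'1, hz'2, hz'3⟩ := h w hw u htu
  have htR : (t : ℝ) ≤ (2 : ℝ) ^ ((k : ℝ) * (j + 5)) := by
    have h1 : (t : ℝ) ≤ (((2 ^ (j + 5)) ^ k : ℕ) : ℝ) := by exact_mod_cast ht2
    refine h1.trans (le_of_eq ?_)
    push_cast
    rw [← pow_mul, ← Real.rpow_natCast]
    congr 1
    push_cast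
    ring
  have htθ : (t : ℝ) ^ θ ≤ (2 : ℝ) ^ (((k : ℝ) - 1) * (j + 5)) := by
    calc (t : ℝ) ^ θ ≤ ((2 : ℝ) ^ ((k : ℝ) * (j + 5))) ^ θ := by gcongr
      _ = _ := by
          rw [← Real.rpow_mul (by norm_num)]
          congr 1
          rw [← hkθ]
          ring
  have huR : (u : ℝ) < (2 : ℝ) ^ (k * j) := by
    calc (u : ℝ) ≤ C' * (t : ℝ) ^ θ := hz6
      _ ≤ C' * (2 : ℝ) ^ (((k : ℝ) - 1) * (j + 5)) := by gcongr
      _ = (C' * 2 ^ (5 * (k - 1))) * (2 : ℝ) ^ ((k - 1) * j) := by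
          rw [mul_assoc, ← pow_add, ← Real.rpow_natCast]
          congr 2
          push_cast [Nat.cast_sub (by omega : 1 ≤ k)]
          ring
      _ < (2 : ℝ) ^ j * (2 : ℝ) ^ ((k - 1) * j) := by
          gcongr
          exact hj2 j hjj2
      _ = (2 : ℝ) ^ (k * j) := by
          rw [← pow_add]
          congr 1
          obtain ⟨k', rfl⟩ : ∃ k', k = k' + 1 := ⟨k - 1, by omega⟩
          rw [Nat.add_sub_cancel]
          ring
  have huN : u < (2 ^ j) ^ k := by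
    have h1 : (u : ℝ) < (((2 ^ j) ^ k : ℕ) : ℝ) := by
      refine huR.trans_le (le_of_eq ?_)
      push_cast
      rw [← pow_mul, mul_comm]
    exact_mod_cast h1
  have hk00 : k ≠ 0 := by omega
  have hz0lo : 2 ^ (j + 1) ≤ z0 := by
    have h1 : 2 ^ (j + 3) < z0 + 2 := lt_of_pow_lt_pow_left₀ k (by omega) (ht1.trans_lt hz3)
    have h2 : 2 ^ (j + 3) = 4 * 2 ^ (j + 1) := by ring
    have h3 : 1 ≤ 2 ^ (j + 1) := Nat.one_le_two_pow
    omega
  have hz0hi : z0 < 2 ^ (j + 6) := by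
    have h1 : z0 ≤ 2 ^ (j + 5) := le_of_pow_le_pow_left₀ hk00 (by positivity) (hz2.trans ht2)
    have h2 : 2 ^ (j + 6) = 2 * 2 ^ (j + 5) := by ring
    have h3 : 1 ≤ 2 ^ (j + 5) := Nat.one_le_two_pow
    omega
  have hz'hi : ∀ l, z' l < 2 ^ j := fun l =>
    lt_of_pow_lt_pow_left₀ k (by positivity) ((hz'1 l).2.trans_lt huN)
  have hsum : (∑ l, (((Fin.cons z0 z' : Fin (r' + 1) → ℕ) l) ^ k + w ((Fin.cons z0 z' : Fin (r' + 1) → ℕ) l))) =
      z0 ^ k + w z0 + ∑ l, ((z' l) ^ k + w (z' l)) := by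
    rw [Fin.sum_univ_succ]
    simp only [Fin.cons_zero, Fin.cons_succ]
  refine ⟨((z0 ^ k + w z0 + ∑ l, ((z' l) ^ k + w (z' l)) : ℕ) : ℤ), ⟨Fin.cons z0 z', ?_, by rw [hsum]⟩, ?_, ?_⟩
  · intro l
    refine Fin.cases ?_ (fun i => ?_) l
    · simp only [Fin.cons_zero]
      exact ⟨hz1, by omega, hz0hi⟩
    · simp only [Fin.cons_succ]
      have h1 := hz'hi i
      refine ⟨(hz'1 i).1, by omega, h1.trans_le (Nat.pow_le_pow_right (by norm_num) (by omega))⟩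
  · have : z0 ^ k + w z0 + ∑ l, ((z' l) ^ k + w (z' l)) ≤ t := by omega
    exact_mod_cast this
  · have hηj : 1 ≤ ⌊η * j⌋₊ := by
      apply Nat.le_floor
      push_cast
      have h1 : 1 / η < j := hj3.trans_le (by exact_mod_cast hjj3)
      rw [div_lt_iff₀ hη0] at h1
      linarith
    have hL : (2 : ℝ) ^ (η * j - 2) ≤ ((2 ^ (⌊η * j⌋₊ - 1) : ℕ) : ℝ) := by
      push_cast
      rw [← Real.rpow_natCast 2 (⌊η * (j : ℝ)⌋₊ - 1)]
      apply Real.rpow_le_rpow_of_exponent_le (by norm_num)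
      rw [Nat.cast_sub hηj]
      have := Nat.lt_floor_add_one (η * (j : ℝ))
      push_cast
      linarith
    have hrem : (u : ℝ) - ((∑ l, ((z' l) ^ k + w (z' l)) : ℕ) : ℝ) < ((2 ^ (⌊η * j⌋₊ - 1) : ℕ) : ℝ) := by
      have hp : (0 : ℝ) < θ ^ r' := by positivity
      calc (u : ℝ) - ((∑ l, ((z' l) ^ k + w (z' l)) : ℕ) : ℝ) ≤ C * (u : ℝ) ^ (θ ^ r') := hz'3
        _ ≤ C * (C' * (t : ℝ) ^ θ) ^ (θ ^ r') := by gcongr
        _ = C * C' ^ (θ ^ r') * (t : ℝ) ^ (θ ^ (r' + 1)) := by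
            rw [Real.mul_rpow hC'.le (by positivity), ← Real.rpow_mul (by positivity), pow_succ']
            ring
        _ ≤ C * C' ^ (θ ^ r') * ((2 : ℝ) ^ ((k : ℝ) * (j + 5))) ^ (θ ^ (r' + 1)) := by gcongr
        _ = E * (2 : ℝ) ^ ((k * θ ^ (r' + 1)) * j) := by
            rw [hE, ← Real.rpow_mul (by norm_num), mul_assoc (C * C' ^ (θ ^ r')),
              ← Real.rpow_add (by norm_num)]
            congr 2
            ring
        _ < (2 : ℝ) ^ ((η - k * θ ^ (r' + 1)) * j) / 4 * (2 : ℝ) ^ ((k * θ ^ (r' + 1)) * j) := by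
            gcongr
            have := hj1 j hjj1
            linarith
        _ = (2 : ℝ) ^ (η * j - 2) := by
            rw [div_mul_eq_mul_div, ← Real.rpow_add (by norm_num), Real.rpow_sub (by norm_num)]
            congr 1
            · congr 1; ring
            · norm_num
        _ ≤ _ := hL
    have hrem2 : (u : ℝ) < ((∑ l, ((z' l) ^ k + w (z' l)) + 2 ^ (⌊η * j⌋₊ - 1) : ℕ) : ℝ) := by
      push_cast at hrem ⊢
      linarith
    have hrem3 : u < ∑ l, ((z' l) ^ k + w (z' l)) + 2 ^ (⌊η * j⌋₊ - 1) := by exact_mod_cast hrem2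
    have hrem4 : t < z0 ^ k + w z0 + ∑ l, ((z' l) ^ k + w (z' l)) + 2 ^ (⌊η * j⌋₊ - 1) := by omega
    exact_mod_cast hrem4

end Pool.Agent.X30.PP
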