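import Mathlib
import Pool.Agent.X30.PP2

/-!
# Perturbed powers: the counting functions
-/

set_option autoImplicit false

namespace Pool.Agent.X30.PP

open Finset

/-- the classes of the free variables -/
def Cl (j q i : ℕ) : Finset ℕ := Ico (2 ^ j + i * q) (2 ^ j + (i + 1) * q)

lemma card_Cl (j q i : ℕ) : (Cl j q i).card = q := by
  unfold Cl
  rw [Nat.card_Ico]
  have : (i + 1) * q = i * q + q := by ring
  omega

open Classical in
/-- the counting functions -/
noncomputable def ff (k r j q L : ℕ) (w : ℕ → ℕ) : ℕ → ℤ → ℕ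
  | 0, v => if isZ k r j w v ∧ ∀ v' < v, v' / (L : ℤ) = v / (L : ℤ) → ¬ isZ k r j w v' then 1 else 0
  | i + 1, v => ∑ x ∈ Cl j q i, ff k r j q L w i (v - ((x ^ k + w x : ℕ) : ℤ))

lemma ff_succ (k r j q L : ℕ) (w : ℕ → ℕ) (i : ℕ) (v : ℤ) :
    ff k r j q L w (i + 1) v = ∑ x ∈ Cl j q i, ff k r j q L w i (v - ((x ^ k + w x : ℕ) : ℤ)) := rfl

lemma isZ_congr (k r j : ℕ) (w w' : ℕ → ℕ)
    (h : ∀ n, n < 2 ^ (j + 6) → ¬ (2 ^ j ≤ n ∧ n < 2 ^ (j + 1)) → w n = w' n) (v : ℤ) :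
    isZ k r j w v ↔ isZ k r j w' v := by
  unfold isZ
  constructor
  · rintro ⟨z, h1, h2⟩
    refine ⟨z, h1, ?_⟩
    rw [← h2]
    congr 1
    refine sum_congr rfl fun l _ => ?_
    rw [h (z l) (h1 l).2.2 (h1 l).2.1]
  · rintro ⟨z, h1, h2⟩
    refine ⟨z, h1, ?_⟩
    rw [← h2]
    congr 1
    refine sum_congr rfl fun l _ => ?_
    rw [h (z l) (h1 l).2.2 (h1 l).2.1]

lemma ff_congr (k r j q L : ℕ) (w w' : ℕ → ℕ) (i : ℕ) (hq : i * q ≤ 2 ^ j)
    (h : ∀ n, n < 2 ^ (j + 6) → ¬ (2 ^ j + i * q ≤ n ∧ n < 2 ^ (j + 1)) → w n = w' n) :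
    ff k r j q L w i = ff k r j q L w' i := by
  induction i with
  | zero =>
    funext v
    have hz : ∀ v, isZ k r j w v ↔ isZ k r j w' v := isZ_congr k r j w w' (by simpa using h)
    have hz' : isZ k r j w = isZ k r j w' := funext fun v => propext (hz v)
    simp only [ff]
    rw [hz']
  | succ i ih =>
    have hq' : i * q ≤ 2 ^ j := by
      have : i * q ≤ (i + 1) * q := Nat.mul_le_mul_right _ (by omega)
      omega
    have hpow : 2 ^ (j + 6) = 64 * 2 ^ j := by ring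
    have hpow1 : 2 ^ (j + 1) = 2 * 2 ^ j := by ring
    have hmul : (i + 1) * q = i * q + q := by ring
    have ih' := ih hq' (by
      intro n hn hn'
      apply h n hn
      intro hcon
      apply hn'
      constructor <;> omega)
    funext v
    rw [ff_succ, ff_succ]
    refine sum_congr rfl fun x hx => ?_
    unfold Cl at hx
    rw [mem_Ico] at hx
    rw [ih', h x (by omega) (by omega)]

lemma ff_zero_le_one (k r j q L : ℕ) (w : ℕ → ℕ) (v : ℤ) : ff k r j q L w 0 v ≤ 1 := by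
  simp only [ff]
  split_ifs <;> omega

lemma ff_neg (k r j q L : ℕ) (w : ℕ → ℕ) (i : ℕ) (v : ℤ) (hv : v < 0) : ff k r j q L w i v = 0 := by
  induction i generalizing v with
  | zero =>
    simp only [ff]
    rw [if_neg]
    rintro ⟨⟨z, _, hz⟩, _⟩
    have : (0 : ℤ) ≤ ((∑ l, ((z l) ^ k + w (z l)) : ℕ) : ℤ) := by positivity
    omega
  | succ i ih =>
    rw [ff_succ]
    refine sum_eq_zero fun x _ => ih _ ?_
    have : (0 : ℤ) ≤ ((x ^ k + w x : ℕ) : ℤ) := by positivity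
    omega

lemma sum0_le (k r j q L : ℕ) (hL : 1 ≤ L) (w : ℕ → ℕ) (v : ℤ) :
    ∑ d ∈ range (2 * L), ff k r j q L w 0 (v - d) ≤ 3 := by
  classical
  have hL0 : (0 : ℤ) < L := by exact_mod_cast hL
  simp only [ff]
  rw [← card_filter]
  calc _ ≤ (Finset.Icc (v / (L : ℤ) - 2) (v / (L : ℤ))).card := by
        apply card_le_card_of_injOn (fun d : ℕ => (v - d) / (L : ℤ))
        · intro d hd
          rw [mem_coe, mem_filter, mem_range] at hd
          rw [mem_coe, mem_Icc]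
          show v / (L : ℤ) - 2 ≤ (v - d) / (L : ℤ) ∧ (v - d) / (L : ℤ) ≤ v / (L : ℤ)
          constructor
          · have h1 : (v - 2 * L) / (L : ℤ) ≤ (v - d) / (L : ℤ) := by
              apply Int.ediv_le_ediv hL0
              have : (d : ℤ) < 2 * L := by exact_mod_cast hd.1
              omega
            have h2 : (v - 2 * L) / (L : ℤ) = v / (L : ℤ) - 2 := by
              rw [show v - 2 * (L : ℤ) = v + (-2) * L by ring, Int.add_mul_ediv_right _ _ hL0.ne']
              ring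
            omega
          · apply Int.ediv_le_ediv hL0
            omega
        · intro d hd d' hd' hdd
          rw [mem_coe, mem_filter] at hd hd'
          simp only at hdd
          rcases lt_trichotomy (v - (d : ℤ)) (v - (d' : ℤ)) with h | h | h
          · exact absurd hd.2.1 (hd'.2.2 _ h hdd)
          · omega
          · exact absurd hd'.2.1 (hd.2.2 _ h hdd.symm)
    _ = 3 := by
        rw [Int.card_Icc]
        omega

lemma sum0_ge (k r j q L : ℕ) (hL : 1 ≤ L) (w : ℕ → ℕ) (T1 T2 : ℕ)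
    (hZ : ∀ t : ℕ, T1 ≤ t → t ≤ T2 → ∃ v : ℤ, isZ k r j w v ∧ v ≤ t ∧ (t : ℤ) < v + L)
    (v : ℤ) (hv1 : (T1 : ℤ) + L ≤ v) (hv2 : v ≤ T2) :
    1 ≤ ∑ d ∈ range (2 * L), ff k r j q L w 0 (v - d) := by
  classical
  have hL0 : (0 : ℤ) < L := by exact_mod_cast hL
  set c : ℤ := v / (L : ℤ) with hc
  have hc1 : c * L ≤ v := Int.ediv_mul_le _ hL0.ne'
  have hc2 : v < c * L + L := by
    have := Int.lt_ediv_add_one_mul_self v hL0
    rw [← hc] at this
    linarith [this, (by ring : (c + 1) * (L : ℤ) = c * L + L)]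
  obtain ⟨t, ht⟩ : ∃ t : ℕ, (t : ℤ) = c * L - 1 := by
    refine ⟨(c * L - 1).toNat, Int.toNat_of_nonneg ?_⟩
    have : (0 : ℤ) ≤ T1 := by positivity
    omega
  obtain ⟨v0, hv0, hv01, hv02⟩ := hZ t (by
    have : (T1 : ℤ) ≤ t := by rw [ht]; omega
    exact_mod_cast this) (by
    have : (t : ℤ) ≤ T2 := by rw [ht]; omega
    exact_mod_cast this)
  obtain ⟨v1, ⟨hv11, hv12⟩, hv13⟩ := Int.exists_least_of_bdd
    (P := fun u : ℤ => isZ k r j w u ∧ c * L - L ≤ u) ⟨c * L - L, fun u hu => hu.2⟩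
    ⟨v0, hv0, by omega⟩
  have hv14 : v1 ≤ v0 := hv13 v0 ⟨hv0, by omega⟩
  have hdiv : v1 / (L : ℤ) = c - 1 := by
    rw [Int.ediv_eq_iff_of_pos hL0]
    constructor
    · nlinarith
    · nlinarith
  obtain ⟨d, hd⟩ : ∃ d : ℕ, (d : ℤ) = v - v1 := by
    refine ⟨(v - v1).toNat, Int.toNat_of_nonneg ?_⟩
    omega
  have hd2 : d < 2 * L := by
    have : (d : ℤ) < 2 * L := by omega
    exact_mod_cast this
  have h1 : ff k r j q L w 0 (v - d) = 1 := by
    simp only [ff]
    rw [if_pos]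
    rw [hd, sub_sub_cancel]
    refine ⟨hv11, fun v' hv' hv'' hcon => ?_⟩
    rw [hdiv] at hv''
    have h2 : c * L - L ≤ v' := by
      have := Int.ediv_mul_le v' hL0.ne'
      rw [hv''] at this
      linarith [(by ring : (c - 1) * (L : ℤ) = c * L - L)]
    have := hv13 v' ⟨hcon, h2⟩
    omega
  calc 1 = ff k r j q L w 0 (v - d) := h1.symm
    _ ≤ _ := single_le_sum (f := fun d : ℕ => ff k r j q L w 0 (v - d)) (fun _ _ => Nat.zero_le _)
      (mem_range.2 hd2)

lemma sum_le (k r j q L : ℕ) (hL : 1 ≤ L) (w : ℕ → ℕ) (i : ℕ) (v : ℤ) :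
    ∑ d ∈ range (2 * L), ff k r j q L w i (v - d) ≤ 3 * q ^ i := by
  induction i generalizing v with
  | zero => simpa using sum0_le k r j q L hL w v
  | succ i ih =>
    simp only [ff_succ]
    rw [sum_comm]
    calc ∑ x ∈ Cl j q i, ∑ d ∈ range (2 * L), ff k r j q L w i (v - d - ((x ^ k + w x : ℕ) : ℤ))
        ≤ ∑ x ∈ Cl j q i, 3 * q ^ i := by
          refine sum_le_sum fun x _ => ?_
          have := ih (v - ((x ^ k + w x : ℕ) : ℤ))
          refine le_trans (le_of_eq ?_) this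
          refine sum_congr rfl fun d _ => ?_
          congr 1
          ring
      _ = _ := by
          rw [sum_const, card_Cl, smul_eq_mul]
          ring

lemma sum_ge (k r j q L : ℕ) (hL : 1 ≤ L) (w : ℕ → ℕ) (T1 T2 : ℕ)
    (hZ : ∀ t : ℕ, T1 ≤ t → t ≤ T2 → ∃ v : ℤ, isZ k r j w v ∧ v ≤ t ∧ (t : ℤ) < v + L)
    (α : ℕ) (i : ℕ) (hα : ∀ i' < i, ∀ x ∈ Cl j q i', x ^ k + w x ≤ α)
    (v : ℤ) (hv1 : (T1 : ℤ) + L + i * α ≤ v) (hv2 : v ≤ T2) :
    q ^ i ≤ ∑ d ∈ range (2 * L), ff k r j q L w i (v - d) := by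
  induction i generalizing v with
  | zero => simpa using sum0_ge k r j q L hL w T1 T2 hZ v (by simpa using hv1) hv2
  | succ i ih =>
    simp only [ff_succ]
    rw [sum_comm]
    calc q ^ (i + 1) = ∑ x ∈ Cl j q i, q ^ i := by
          rw [sum_const, card_Cl, smul_eq_mul]
          ring
      _ ≤ ∑ x ∈ Cl j q i, ∑ d ∈ range (2 * L), ff k r j q L w i (v - d - ((x ^ k + w x : ℕ) : ℤ)) := by
          refine sum_le_sum fun x hx => ?_
          have h1 := hα i (by omega) x hx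
          have h2 : ((x ^ k + w x : ℕ) : ℤ) ≤ α := by exact_mod_cast h1
          have h3 : (0 : ℤ) ≤ ((x ^ k + w x : ℕ) : ℤ) := by positivity
          have := ih (fun i' hi' => hα i' (by omega)) (v - ((x ^ k + w x : ℕ) : ℤ)) (by
            push_cast at hv1 h2 ⊢
            linarith [(by ring : ((i : ℤ) + 1) * α = i * α + α)]) (by omega)
          refine this.trans (le_of_eq ?_)
          refine sum_congr rfl fun d _ => ?_
          congr 1
          ring

lemma exists_of_ff_pos (k r j q L : ℕ) (w : ℕ → ℕ) (i : ℕ) (v : ℤ) (h : 0 < ff k r j q L w i v) :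
    ∃ x : Fin (r + i) → ℕ, (∀ l, 1 ≤ x l) ∧ ((∑ l, ((x l) ^ k + w (x l)) : ℕ) : ℤ) = v := by
  induction i generalizing v with
  | zero =>
    simp only [ff] at h
    split_ifs at h with h1
    · obtain ⟨z, hz1, hz2⟩ := h1.1
      exact ⟨z, fun l => (hz1 l).1, hz2⟩
    · omega
  | succ i ih =>
    rw [ff_succ] at h
    obtain ⟨x0, hx0, hx0'⟩ : ∃ x0 ∈ Cl j q i, 0 < ff k r j q L w i (v - ((x0 ^ k + w x0 : ℕ) : ℤ)) := by
      by_contra hcon
      push Not at hcon
      have : ∑ x ∈ Cl j q i, ff k r j q L w i (v - ((x ^ k + w x : ℕ) : ℤ)) = 0 :=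
        sum_eq_zero fun x hx => by have := hcon x hx; omega
      omega
    obtain ⟨x, hx1, hx2⟩ := ih _ hx0'
    refine ⟨(Fin.cons x0 x : Fin (r + i + 1) → ℕ), ?_, ?_⟩
    · intro l
      refine Fin.cases ?_ (fun i => ?_) l
      · simp only [Fin.cons_zero]
        unfold Cl at hx0
        rw [mem_Ico] at hx0
        have := Nat.one_le_two_pow (n := j)
        omega
      · simp only [Fin.cons_succ]
        exact hx1 i
    · have h1 : (∑ l, (((Fin.cons x0 x : Fin (r + i + 1) → ℕ) l) ^ k +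
          w ((Fin.cons x0 x : Fin (r + i + 1) → ℕ) l))) = (x0 ^ k + w x0) + ∑ l, ((x l) ^ k + w (x l)) := by
        rw [Fin.sum_univ_succ]
        simp only [Fin.cons_zero, Fin.cons_succ]
      have h2 : (∑ l : Fin (r + (i + 1)), (((Fin.cons x0 x : Fin (r + i + 1) → ℕ) l) ^ k +
          w ((Fin.cons x0 x : Fin (r + i + 1) → ℕ) l))) = (x0 ^ k + w x0) + ∑ l, ((x l) ^ k + w (x l)) := h1
      rw [h2]
      push_cast at hx2 ⊢
      rw [hx2]
      ring

end Pool.Agent.X30.PP
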