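import Mathlib
import Pool.Agent.X30.PP1
import Pool.Agent.X30.PP3

/-!
# Perturbed powers: the two conditional probability estimates
-/

set_option autoImplicit false

namespace Pool.Agent.X30.PP

open Finset MeasureTheory ProbabilityTheory
open Pool.Agent.X30.WP (unif_ae unif_integral)

/-- extension by zero -/
def ext (B : Finset ℕ) (b : B → ℕ) (n : ℕ) : ℕ := if h : n ∈ B then b ⟨n, h⟩ else 0

lemma ff_ext (k r j q L : ℕ) (i : ℕ) (hi : (i + 1) * q ≤ 2 ^ j) (w : ℕ → ℕ) :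
    ff k r j q L (ext (range (2 ^ (j + 6)) \ Cl j q i) (fun n => w n)) i = ff k r j q L w i := by
  have hmul : (i + 1) * q = i * q + q := by ring
  apply ff_congr k r j q L _ _ i (by omega)
  intro n hn hn'
  have hB : n ∈ range (2 ^ (j + 6)) \ Cl j q i := by
    rw [mem_sdiff, mem_range]
    refine ⟨hn, ?_⟩
    unfold Cl
    rw [mem_Ico]
    intro hcon
    apply hn'
    have hpow1 : 2 ^ (j + 1) = 2 * 2 ^ j := by ring
    omega
  unfold ext
  rw [dif_pos hB]

variable {Ω : Type*} [MeasurableSpace Ω] {μ : Measure Ω} [IsProbabilityMeasure μ]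

lemma step_prob (δ : ℕ → Ω → ℕ) (hm : ∀ m, Measurable (δ m)) (hind : iIndepFun δ μ)
    (Dm : ℕ → ℕ) (hD : ∀ m, 1 ≤ Dm m)
    (hu : ∀ m, ∀ d < Dm m, μ {ω | δ m ω = d} = 1 / (Dm m : ENNReal))
    (k r j q L i : ℕ) (hL : 1 ≤ L) (hi : (i + 1) * q ≤ 2 ^ j)
    (hDL : ∀ x ∈ Cl j q i, Dm x = 2 * L) (hqD : q ^ (i + 1) ≤ 2 * L) (T K : ℕ) (hT : 1 ≤ T) (hK : 1 ≤ K)
    (V1 : ℤ) (v : ℤ) (hv : v ≤ V1) :
    μ {ω | (∀ u ≤ V1, ff k r j q L (fun n => δ n ω) i u ≤ K) ∧
      13 * T * K < ff k r j q L (fun n => δ n ω) (i + 1) v} ≤ ENNReal.ofReal (Real.exp (-(T : ℝ))) := by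
  classical
  set A : Finset ℕ := Cl j q i with hA
  set B : Finset ℕ := range (2 ^ (j + 6)) \ A with hB
  set Q : (B → ℕ) → Set (A → ℕ) := fun b => {α | (∀ u ≤ V1, ff k r j q L (ext B b) i u ≤ K) ∧
    13 * T * K < ∑ x : A, ff k r j q L (ext B b) i (v - (((x : ℕ) ^ k + α x : ℕ) : ℤ))} with hQ
  have hsub : {ω | (∀ u ≤ V1, ff k r j q L (fun n => δ n ω) i u ≤ K) ∧
      13 * T * K < ff k r j q L (fun n => δ n ω) (i + 1) v} =
      {ω | (fun x : A => δ x ω) ∈ Q (fun x : B => δ x ω)} := by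
    ext ω
    simp only [hQ, Set.mem_ofPred_eq]
    have h1 : ff k r j q L (ext B (fun x : B => δ x ω)) i = ff k r j q L (fun n => δ n ω) i :=
      ff_ext k r j q L i hi (fun n => δ n ω)
    rw [h1, ff_succ]
    have h2 : ∑ x ∈ Cl j q i, ff k r j q L (fun n => δ n ω) i (v - ((x ^ k + δ x ω : ℕ) : ℤ)) =
        ∑ x : A, ff k r j q L (fun n => δ n ω) i (v - (((x : ℕ) ^ k + δ x ω : ℕ) : ℤ)) := by
      rw [← hA, ← Finset.sum_coe_sort A]
    rw [h2]
  rw [hsub]
  apply cond_bound δ hm hind A B sdiff_disjoint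
  intro b
  by_cases hb : ∀ u ≤ V1, ff k r j q L (ext B b) i u ≤ K
  · have hK0 : (0 : ℝ) < K := by exact_mod_cast hK
    have hL0 : (0 : ℝ) < L := by exact_mod_cast hL
    set g : ℕ → ℕ → ℝ := fun x d => (ff k r j q L (ext B b) i (v - ((x ^ k + d : ℕ) : ℤ)) : ℝ) / K with hg
    have h1 := upper_tail δ hm hind Dm hD hu A g (fun x _ d => by simp only [hg]; positivity)
      (fun x _ d => by
        simp only [hg]
        rw [div_le_one hK0]
        have : ff k r j q L (ext B b) i (v - ((x ^ k + d : ℕ) : ℤ)) ≤ K := by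
          apply hb
          have : (0 : ℤ) ≤ ((x ^ k + d : ℕ) : ℤ) := by positivity
          omega
        exact_mod_cast this) (13 * T) (3 / K) (by
        have h2 : ∀ x ∈ A, (∑ d ∈ range (Dm x), g x d) / Dm x ≤ 3 * q ^ i / (K * (2 * L)) := by
          intro x hx
          have h3 := sum_le k r j q L hL (ext B b) i (v - ((x ^ k : ℕ) : ℤ))
          have h4 : ∑ d ∈ range (Dm x), g x d =
              ((∑ d ∈ range (2 * L), ff k r j q L (ext B b) i (v - ((x ^ k : ℕ) : ℤ) - d) : ℕ) : ℝ) / K := by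
            rw [hDL x hx]
            simp only [hg]
            rw [← sum_div]
            congr 1
            push_cast
            refine sum_congr rfl fun d _ => ?_
            congr 2
            ring
          rw [h4, hDL x hx]
          have h5 : ((∑ d ∈ range (2 * L), ff k r j q L (ext B b) i (v - ((x ^ k : ℕ) : ℤ) - d) : ℕ) : ℝ) ≤
              3 * q ^ i := by exact_mod_cast h3
          rw [div_div]
          push_cast at h5 ⊢
          gcongr
        refine (sum_le_sum h2).trans ?_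
        rw [sum_const, hA, card_Cl, nsmul_eq_mul]
        have h6 : ((q : ℝ)) ^ (i + 1) ≤ 2 * L := by exact_mod_cast hqD
        calc (q : ℝ) * (3 * q ^ i / (K * (2 * L))) = 3 * (q : ℝ) ^ (i + 1) / (K * (2 * L)) := by
              rw [pow_succ]; ring
          _ ≤ 3 * (2 * L) / (K * (2 * L)) := by gcongr
          _ = 3 / K := by field_simp)
    have h2 : {ω | (fun x : A => δ x ω) ∈ Q b} ⊆ {ω | 13 * (T : ℝ) ≤ ∑ x ∈ A, g x (δ x ω)} := by
      intro ω hω
      simp only [hQ, Set.mem_ofPred_eq] at hω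
      rw [Set.mem_ofPred_eq]
      simp only [hg]
      rw [← sum_div, le_div_iff₀ hK0, ← Finset.sum_coe_sort A]
      exact_mod_cast hω.2.le
    rw [← ofReal_measureReal (μ := μ) (s := {ω | (fun x : A => δ x ω) ∈ Q b}) (measure_ne_top μ _)]
    apply ENNReal.ofReal_le_ofReal
    refine (measureReal_mono h2).trans (h1.trans ?_)
    rw [Real.exp_le_exp]
    have hT' : (1 : ℝ) ≤ T := by exact_mod_cast hT
    have hK' : (1 : ℝ) ≤ K := by exact_mod_cast hK
    have h3 : 3 / (K : ℝ) ≤ 3 := by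
      rw [div_le_iff₀ hK0]
      linarith
    linarith
  · have h1 : {ω | (fun x : A => δ x ω) ∈ Q b} = ∅ := by
      ext ω
      simp only [hQ, Set.mem_ofPred_eq, Set.mem_empty_iff_false, iff_false]
      intro h
      exact hb h.1
    rw [h1, measure_empty]
    exact zero_le

lemma final_prob (δ : ℕ → Ω → ℕ) (hm : ∀ m, Measurable (δ m)) (hind : iIndepFun δ μ)
    (Dm : ℕ → ℕ) (hD : ∀ m, 1 ≤ Dm m)
    (hu : ∀ m, ∀ d < Dm m, μ {ω | δ m ω = d} = 1 / (Dm m : ENNReal))
    (k r j q L i : ℕ) (hk : 1 ≤ k) (hL : 1 ≤ L) (hi : (i + 1) * q ≤ 2 ^ j)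
    (hDL : ∀ x ∈ Cl j q i, Dm x = 2 * L) (K : ℕ) (hK : 1 ≤ K) (T1 T2 : ℕ)
    (hZ : ∀ w, Ok k w → ∀ t : ℕ, T1 ≤ t → t ≤ T2 →
      ∃ v : ℤ, isZ k r j w v ∧ v ≤ t ∧ (t : ℤ) < v + L)
    (N : ℤ) (hN1 : (T1 : ℤ) + L + (i + 1) * ((2 * (2 ^ (j + 1)) ^ k : ℕ) : ℤ) ≤ N) (hN2 : N ≤ T2) :
    μ {ω | Ok k (fun n => δ n ω) ∧ (∀ u ≤ (T2 : ℤ), ff k r j q L (fun n => δ n ω) i u ≤ K) ∧
      ff k r j q L (fun n => δ n ω) (i + 1) N = 0} ≤
        ENNReal.ofReal (Real.exp (-((q : ℝ) ^ (i + 1) / (K * (2 * L)) / 2))) := by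
  classical
  set A : Finset ℕ := Cl j q i with hA
  set B : Finset ℕ := range (2 ^ (j + 6)) \ A with hB
  set Q : (B → ℕ) → Set (A → ℕ) := fun b => {α | Ok k (ext B b) ∧
    (∀ u ≤ (T2 : ℤ), ff k r j q L (ext B b) i u ≤ K) ∧
    ∑ x : A, ff k r j q L (ext B b) i (N - (((x : ℕ) ^ k + α x : ℕ) : ℤ)) = 0} with hQ
  have hsub : {ω | Ok k (fun n => δ n ω) ∧ (∀ u ≤ (T2 : ℤ), ff k r j q L (fun n => δ n ω) i u ≤ K) ∧
      ff k r j q L (fun n => δ n ω) (i + 1) N = 0} ⊆
      {ω | (fun x : A => δ x ω) ∈ Q (fun x : B => δ x ω)} := by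
    intro ω hω
    simp only [hQ, Set.mem_ofPred_eq] at hω ⊢
    have h1 : ff k r j q L (ext B (fun x : B => δ x ω)) i = ff k r j q L (fun n => δ n ω) i :=
      ff_ext k r j q L i hi (fun n => δ n ω)
    rw [ff_succ] at hω
    have h2 : ∑ x ∈ Cl j q i, ff k r j q L (fun n => δ n ω) i (N - ((x ^ k + δ x ω : ℕ) : ℤ)) =
        ∑ x : A, ff k r j q L (fun n => δ n ω) i (N - (((x : ℕ) ^ k + δ x ω : ℕ) : ℤ)) := by
      rw [← hA, ← Finset.sum_coe_sort A]
    rw [h2] at hω
    rw [h1]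
    refine ⟨?_, hω.2⟩
    intro n hn
    unfold ext
    split_ifs with h3
    · exact hω.1 n hn
    · exact Nat.zero_le _
  refine (measure_mono hsub).trans ?_
  apply cond_bound δ hm hind A B sdiff_disjoint
  intro b
  by_cases hb : Ok k (ext B b) ∧ ∀ u ≤ (T2 : ℤ), ff k r j q L (ext B b) i u ≤ K
  · have hK0 : (0 : ℝ) < K := by exact_mod_cast hK
    have hL0 : (0 : ℝ) < L := by exact_mod_cast hL
    have hpow1 : 2 ^ (j + 1) = 2 * 2 ^ j := by ring
    have hmul : (i + 1) * q = i * q + q := by ring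
    have hxk : ∀ i' ≤ i, ∀ x ∈ Cl j q i', 1 ≤ x ∧ x < 2 ^ (j + 1) := by
      intro i' hi' x hx
      unfold Cl at hx
      rw [mem_Ico] at hx
      have h1 := Nat.one_le_two_pow (n := j)
      have h2 : (i' + 1) * q ≤ (i + 1) * q := Nat.mul_le_mul_right _ (by omega)
      omega
    have hα : ∀ i' < i, ∀ x ∈ Cl j q i', x ^ k + ext B b x ≤ 2 * (2 ^ (j + 1)) ^ k := by
      intro i' hi' x hx
      obtain ⟨h1, h2⟩ := hxk i' hi'.le x hx
      have h3 := hb.1 x h1
      have h4 : x ^ k ≤ (2 ^ (j + 1)) ^ k := Nat.pow_le_pow_left h2.le k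
      have h5 : x ^ (k - 1) ≤ x ^ k := Nat.pow_le_pow_right h1 (by omega)
      omega
    set g : ℕ → ℕ → ℝ := fun x d =>
      if 0 < ff k r j q L (ext B b) i (N - ((x ^ k + d : ℕ) : ℤ)) then 1 else 0 with hg
    have hgK : ∀ x d, (ff k r j q L (ext B b) i (N - ((x ^ k + d : ℕ) : ℤ)) : ℝ) / K ≤ g x d := by
      intro x d
      simp only [hg]
      split_ifs with h1
      · rw [div_le_one hK0]
        have : ff k r j q L (ext B b) i (N - ((x ^ k + d : ℕ) : ℤ)) ≤ K := by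
          apply hb.2
          have : (0 : ℤ) ≤ ((x ^ k + d : ℕ) : ℤ) := by positivity
          omega
        exact_mod_cast this
      · have : ff k r j q L (ext B b) i (N - ((x ^ k + d : ℕ) : ℤ)) = 0 := by omega
        rw [this]
        simp
    have h1 := lower_tail δ hm hind Dm hD hu A g (fun x _ d => by simp only [hg]; split_ifs <;> norm_num)
      (fun x _ d => by simp only [hg]; split_ifs <;> norm_num) ((q : ℝ) ^ (i + 1) / (K * (2 * L))) (by
        have h2 : ∀ x ∈ A, (q : ℝ) ^ i / (K * (2 * L)) ≤ (∑ d ∈ range (Dm x), g x d) / Dm x := by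
          intro x hx
          obtain ⟨hx1, hx2⟩ := hxk i le_rfl x hx
          have hxk' : x ^ k ≤ (2 ^ (j + 1)) ^ k := Nat.pow_le_pow_left hx2.le k
          have hxk2 : ((x ^ k : ℕ) : ℤ) ≤ ((2 * (2 ^ (j + 1)) ^ k : ℕ) : ℤ) := by
            have : x ^ k ≤ 2 * (2 ^ (j + 1)) ^ k := by omega
            exact_mod_cast this
          have h3 := sum_ge k r j q L hL (ext B b) T1 T2 (hZ (ext B b) hb.1) (2 * (2 ^ (j + 1)) ^ k) i hα
            (N - ((x ^ k : ℕ) : ℤ)) (by
              have e1 : ((i : ℤ) + 1) * ((2 * (2 ^ (j + 1)) ^ k : ℕ) : ℤ) =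
                i * ((2 * (2 ^ (j + 1)) ^ k : ℕ) : ℤ) + ((2 * (2 ^ (j + 1)) ^ k : ℕ) : ℤ) := by ring
              rw [e1] at hN1
              linarith) (by
              have : (0 : ℤ) ≤ ((x ^ k : ℕ) : ℤ) := by positivity
              omega)
          have h4 : ((∑ d ∈ range (2 * L), ff k r j q L (ext B b) i (N - ((x ^ k : ℕ) : ℤ) - d) : ℕ) : ℝ) / K ≤
              ∑ d ∈ range (Dm x), g x d := by
            rw [hDL x hx]
            push_cast
            rw [sum_div]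
            refine sum_le_sum fun d _ => ?_
            refine le_trans (le_of_eq ?_) (hgK x d)
            congr 3
            push_cast
            ring
          rw [hDL x hx] at h4 ⊢
          have h5 : (q : ℝ) ^ i ≤
              ((∑ d ∈ range (2 * L), ff k r j q L (ext B b) i (N - ((x ^ k : ℕ) : ℤ) - d) : ℕ) : ℝ) := by
            exact_mod_cast h3
          rw [← div_div]
          have h6 : (((2 * L : ℕ)) : ℝ) = 2 * L := by push_cast; ring
          rw [h6]
          gcongr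
          refine le_trans ?_ h4
          gcongr
        calc (q : ℝ) ^ (i + 1) / (K * (2 * L)) = ∑ x ∈ A, (q : ℝ) ^ i / (K * (2 * L)) := by
              rw [sum_const, hA, card_Cl, nsmul_eq_mul, pow_succ]
              ring
          _ ≤ _ := sum_le_sum h2)
    have h2 : {ω | (fun x : A => δ x ω) ∈ Q b} ⊆ {ω | ∑ x ∈ A, g x (δ x ω) ≤ 0} := by
      intro ω hω
      simp only [hQ, Set.mem_ofPred_eq] at hω
      rw [Set.mem_ofPred_eq]
      have h3 := hω.2.2
      rw [Finset.sum_eq_zero_iff] at h3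
      refine le_of_eq (sum_eq_zero fun x hx => ?_)
      have h4 := h3 ⟨x, hx⟩ (mem_univ _)
      simp only at h4
      simp only [hg]
      rw [if_neg]
      rw [h4]
      exact lt_irrefl 0
    rw [← ofReal_measureReal (μ := μ) (s := {ω | (fun x : A => δ x ω) ∈ Q b}) (measure_ne_top μ _)]
    apply ENNReal.ofReal_le_ofReal
    exact (measureReal_mono h2).trans h1
  · have h1 : {ω | (fun x : A => δ x ω) ∈ Q b} = ∅ := by
      ext ω
      simp only [hQ, Set.mem_ofPred_eq, Set.mem_empty_iff_false, iff_false]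
      intro h
      exact hb ⟨h.1, h.2.1⟩
    rw [h1, measure_empty]
    exact zero_le

end Pool.Agent.X30.PP
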