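import Mathlib
import Pool.Agent.X30.PP4

/-!
# Sums of randomly perturbed powers: the main theorem
-/

set_option autoImplicit false

namespace Pool.Agent.X30.PP

open Finset MeasureTheory ProbabilityTheory
open Pool.Agent.X30.WP (unif_ae unif_integral)

lemma log_block {j n : ℕ} (h1 : 2 ^ j ≤ n) (h2 : n < 2 * 2 ^ j) : Nat.log 2 n = j :=
  Nat.log_eq_of_pow_le_of_lt_pow h1 (by rw [pow_succ]; linarith)

lemma size_le (k : ℕ) (hk : 1 ≤ k) (η : ℝ) (hη1 : η ≤ k - 1) (i : ℕ) :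
    2 ^ ⌊η * (i : ℝ)⌋₊ ≤ (2 ^ i) ^ (k - 1) := by
  rw [← pow_mul]
  apply Nat.pow_le_pow_right (by norm_num)
  have h1 : η * (i : ℝ) ≤ ((i * (k - 1) : ℕ) : ℝ) := by
    rw [Nat.cast_mul, Nat.cast_sub hk, mul_comm]
    gcongr
    simpa using hη1
  calc ⌊η * (i : ℝ)⌋₊ ≤ ⌊((i * (k - 1) : ℕ) : ℝ)⌋₊ := Nat.floor_le_floor h1
    _ = _ := Nat.floor_natCast _

/-- the constants of the last step -/
lemma growth (η : ℝ) (hη0 : 0 < η) :
    ∃ j0 : ℕ, ∀ j, j0 ≤ j → ∀ q L : ℕ, q = 2 ^ j / (⌊η⌋₊ + 1) → 2 * L = 2 ^ ⌊η * (j : ℝ)⌋₊ →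
      ((j ^ 2 : ℕ) : ℝ) ≤ (q : ℝ) ^ (⌊η⌋₊ + 1) / ((((13 * j ^ 2) ^ ⌊η⌋₊ : ℕ) : ℝ) * (2 * L)) / 2 := by
  set m := ⌊η⌋₊ with hm
  have hmη : η < m + 1 := Nat.lt_floor_add_one η
  set ρ : ℝ := (2 : ℝ) ^ ((m : ℝ) + 1 - η) with hρ
  have hρ1 : 1 < ρ := Real.one_lt_rpow (by norm_num) (by linarith)
  set c1 : ℝ := (2 * (m + 1)) ^ (m + 1) * 13 ^ m with hc1
  have hc10 : 0 < c1 := by positivity
  have htend := tendsto_pow_const_div_const_pow_of_one_lt (2 * m + 2) hρ1
  obtain ⟨j1, hj1⟩ := Filter.eventually_atTop.1 (htend.eventually_lt_const (show (0 : ℝ) < 1 / (2 * c1) by positivity))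
  refine ⟨max (max j1 1) (2 * m), fun j hj q L hq hL => ?_⟩
  have hjj1 : j1 ≤ j := (le_max_left _ _).trans ((le_max_left _ _).trans hj)
  have hj1' : 1 ≤ j := (le_max_right _ _).trans ((le_max_left _ _).trans hj)
  have hj2m : 2 * m ≤ j := (le_max_right _ _).trans hj
  have hj0 : (0 : ℝ) < j := by exact_mod_cast hj1'
  have h1 := hj1 j hjj1
  have hρj : (0 : ℝ) < ρ ^ j := by positivity
  rw [div_lt_div_iff₀ hρj (by positivity), one_mul] at h1
  -- q
  have hq1 : (2 : ℝ) ^ j / (2 * (m + 1)) ≤ q := by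
    have h2 : 2 ^ j < (q + 1) * (m + 1) := by
      rw [hq]
      have := Nat.lt_div_mul_add (a := 2 ^ j) (b := m + 1) (by omega)
      linarith [(by ring : (2 ^ j / (m + 1) + 1) * (m + 1) = 2 ^ j / (m + 1) * (m + 1) + (m + 1))]
    have h3 : 2 * m < 2 ^ j := hj2m.trans_lt Nat.lt_two_pow_self
    have h4 : 2 ^ j ≤ q * (2 * (m + 1)) := by
      have h5 : (q + 1) * (m + 1) = q * (m + 1) + (m + 1) := by ring
      have h6 : q * (2 * (m + 1)) = 2 * (q * (m + 1)) := by ring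
      omega
    rw [div_le_iff₀ (by positivity)]
    exact_mod_cast h4
  have hL0 : (0 : ℝ) < 2 * L := by
    have : 0 < 2 * L := by rw [hL]; positivity
    exact_mod_cast this
  have hL1 : (2 : ℝ) * L ≤ (2 : ℝ) ^ (η * j) := by
    have h2 : ((2 * L : ℕ) : ℝ) = ((2 ^ ⌊η * (j : ℝ)⌋₊ : ℕ) : ℝ) := by exact_mod_cast hL
    push_cast at h2
    rw [h2, ← Real.rpow_natCast]
    apply Real.rpow_le_rpow_of_exponent_le (by norm_num)
    exact Nat.floor_le (by positivity)
  rw [le_div_iff₀ (by norm_num), le_div_iff₀ (by positivity)]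
  push_cast
  calc (j : ℝ) ^ 2 * 2 * ((13 * (j : ℝ) ^ 2) ^ m * (2 * L))
      ≤ (j : ℝ) ^ 2 * 2 * ((13 * (j : ℝ) ^ 2) ^ m * (2 : ℝ) ^ (η * j)) := by gcongr
    _ = ((j : ℝ) ^ (2 * m + 2) * (2 * c1)) * (2 : ℝ) ^ (η * j) / (2 * (m + 1)) ^ (m + 1) := by
        rw [hc1, mul_pow 13, ← pow_mul, pow_add]
        field_simp
    _ ≤ ρ ^ j * (2 : ℝ) ^ (η * j) / (2 * (m + 1)) ^ (m + 1) := by gcongr
    _ = ((2 : ℝ) ^ j / (2 * (m + 1))) ^ (m + 1) := by
        rw [div_pow]
        congr 1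
        rw [hρ, ← Real.rpow_natCast ((2 : ℝ) ^ ((m : ℝ) + 1 - η)) j, ← Real.rpow_mul (by norm_num),
          ← Real.rpow_add (by norm_num), ← pow_mul, ← Real.rpow_natCast]
        congr 1
        push_cast
        ring
    _ ≤ (q : ℝ) ^ (m + 1) := by gcongr

variable {Ω : Type*} [MeasurableSpace Ω] {μ : Measure Ω} [IsProbabilityMeasure μ]

theorem perturbed (k r : ℕ) (hk : 2 ≤ k) (hr : 1 ≤ r) (η : ℝ)
    (hη : (k : ℝ) * (1 - 1 / (k : ℝ)) ^ r < η) (hη1 : η ≤ k - 1)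
    (δ : ℕ → Ω → ℕ) (hm : ∀ n, Measurable (δ n)) (hind : iIndepFun δ μ)
    (hu : ∀ n, ∀ d < 2 ^ ⌊η * Nat.log 2 n⌋₊,
      μ {ω | δ n ω = d} = 1 / ((2 ^ ⌊η * Nat.log 2 n⌋₊ : ℕ) : ENNReal)) :
    ∀ᵐ ω ∂μ, ∃ N0 : ℕ, ∀ N : ℕ, N0 ≤ N → ∃ x : Fin (r + ⌊η⌋₊ + 1) → ℕ, (∀ i, 1 ≤ x i) ∧
      N = ∑ i, (x i ^ k + δ (x i) ω) := by
  have hθ := theta_pos k hk
  have hk0 : (0 : ℝ) < k := by exact_mod_cast (by omega : 0 < k)
  have hη0 : 0 < η := lt_trans (by positivity) hη
  set m := ⌊η⌋₊ with hmdef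
  have hmη : (m : ℝ) ≤ η := Nat.floor_le hη0.le
  have hmk : m + 1 ≤ k := by
    have : ((m + 1 : ℕ) : ℝ) ≤ k := by push_cast; linarith
    exact_mod_cast this
  set Dm : ℕ → ℕ := fun n => 2 ^ ⌊η * Nat.log 2 n⌋₊ with hDm
  have hD : ∀ n, 1 ≤ Dm n := fun n => Nat.one_le_two_pow
  obtain ⟨j0, hj0⟩ := main_greedy k r hk hr η hη
  obtain ⟨j1, hj1⟩ := growth η hη0
  obtain ⟨j2, hj2⟩ := exists_nat_gt (1 / η)
  -- notation
  set q : ℕ → ℕ := fun j => 2 ^ j / (m + 1) with hq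
  set L : ℕ → ℕ := fun j => 2 ^ (⌊η * (j : ℝ)⌋₊ - 1) with hL
  set T2 : ℕ → ℕ := fun j => (2 ^ (j + 5)) ^ k with hT2
  set Bad : ℕ → Set Ω := fun j => {ω | Ok k (fun n => δ n ω) ∧ ∃ N : ℕ, (2 ^ (j + 4)) ^ k ≤ N ∧ N ≤ T2 j ∧
    ff k r j (q j) (L j) (fun n => δ n ω) (m + 1) N = 0} with hBad
  set C : ℝ := (m + 1) * (2 * 2 ^ (5 * k)) with hC
  have hBadm : ∀ j, max (max j0 j1) (max j2 (k + 1)) ≤ j → μ (Bad j) ≤ ENNReal.ofReal (C * (1 / 2) ^ j) := by
    intro j hj
    have hjj0 : j0 ≤ j := (le_max_left _ _).trans ((le_max_left _ _).trans hj)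
    have hjj1 : j1 ≤ j := (le_max_right _ _).trans ((le_max_left _ _).trans hj)
    have hjj2 : j2 ≤ j := (le_max_left _ _).trans ((le_max_right _ _).trans hj)
    have hjk : k + 1 ≤ j := (le_max_right _ _).trans ((le_max_right _ _).trans hj)
    have hηj : 1 ≤ ⌊η * (j : ℝ)⌋₊ := by
      apply Nat.le_floor
      push_cast
      have h1 : 1 / η < j := hj2.trans_le (by exact_mod_cast hjj2)
      rw [div_lt_iff₀ hη0] at h1
      linarith
    have h2L : 2 * L j = 2 ^ ⌊η * (j : ℝ)⌋₊ := by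
      simp only [hL]
      calc 2 * 2 ^ (⌊η * (j : ℝ)⌋₊ - 1) = 2 ^ (⌊η * (j : ℝ)⌋₊ - 1 + 1) := by rw [pow_succ]; ring
        _ = _ := by congr 1; omega
    have hL1 : 1 ≤ L j := Nat.one_le_two_pow
    have hqm : (m + 1) * q j ≤ 2 ^ j := Nat.mul_div_le _ _
    have hiq : ∀ i, i ≤ m → (i + 1) * q j ≤ 2 ^ j := fun i hi =>
      (Nat.mul_le_mul_right _ (by omega)).trans hqm
    have hDL : ∀ i ≤ m, ∀ x ∈ Cl j (q j) i, Dm x = 2 * L j := by
      intro i hi x hx
      unfold Cl at hx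
      rw [mem_Ico] at hx
      have h1 := hiq i hi
      simp only [hDm]
      rw [log_block (j := j) (by omega) (by omega), h2L]
    have hq2 : q j ≤ 2 ^ j := Nat.div_le_self _ _
    have hqD : ∀ i < m, q j ^ (i + 1) ≤ 2 * L j := by
      intro i hi
      rw [h2L]
      calc q j ^ (i + 1) ≤ (2 ^ j) ^ (i + 1) := Nat.pow_le_pow_left hq2 _
        _ = 2 ^ (j * (i + 1)) := by rw [← pow_mul]
        _ ≤ 2 ^ ⌊η * (j : ℝ)⌋₊ := by
            apply Nat.pow_le_pow_right (by norm_num)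
            apply Nat.le_floor
            push_cast
            have h1 : ((i : ℝ) + 1) ≤ m := by exact_mod_cast hi
            calc (j : ℝ) * (i + 1) ≤ j * m := by gcongr
              _ ≤ j * η := by gcongr
              _ = η * j := by ring
    have hj1' : 1 ≤ j := by omega
    have hT : 1 ≤ j ^ 2 := Nat.one_le_pow _ _ hj1'
    have hK : ∀ i, 1 ≤ (13 * j ^ 2) ^ i := fun i => Nat.one_le_pow _ _ (by omega)
    set p : ENNReal := ENNReal.ofReal (Real.exp (-((j ^ 2 : ℕ) : ℝ))) with hp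
    set E : ℕ → ℕ → Set Ω := fun i v => {ω | (∀ u ≤ (T2 j : ℤ), ff k r j (q j) (L j) (fun n => δ n ω) i u ≤
      (13 * j ^ 2) ^ i) ∧ 13 * j ^ 2 * (13 * j ^ 2) ^ i < ff k r j (q j) (L j) (fun n => δ n ω) (i + 1) (v : ℤ)}
      with hE
    set G : ℕ → Set Ω := fun N => {ω | Ok k (fun n => δ n ω) ∧ (∀ u ≤ (T2 j : ℤ),
      ff k r j (q j) (L j) (fun n => δ n ω) m u ≤ (13 * j ^ 2) ^ m) ∧
      ff k r j (q j) (L j) (fun n => δ n ω) (m + 1) (N : ℤ) = 0} with hG
    have hEp : ∀ i ∈ range m, ∀ v ∈ range (T2 j + 1), μ (E i v) ≤ p := by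
      intro i hi v hv
      rw [mem_range] at hi hv
      exact step_prob δ hm hind Dm hD hu k r j (q j) (L j) i hL1 (hiq i (by omega))
        (hDL i (by omega)) (hqD i hi) (j ^ 2) ((13 * j ^ 2) ^ i) hT (hK i) (T2 j) v (by
          have : v ≤ T2 j := by omega
          exact_mod_cast this)
    have hGp : ∀ N ∈ (range (T2 j + 1)).filter (fun N => (2 ^ (j + 4)) ^ k ≤ N), μ (G N) ≤ p := by
      intro N hN
      rw [mem_filter, mem_range] at hN
      refine (final_prob δ hm hind Dm hD hu k r j (q j) (L j) m (by omega) hL1 hqm (hDL m le_rfl)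
        ((13 * j ^ 2) ^ m) (hK m) ((2 ^ (j + 3)) ^ k) (T2 j)
        (fun w hw t ht1 ht2 => hj0 j hjj0 w hw t ht1 ht2) N ?_ ?_).trans ?_
      · have h1 : (2 ^ (j + 3)) ^ k + L j + (m + 1) * (2 * (2 ^ (j + 1)) ^ k) ≤ (2 ^ (j + 4)) ^ k := by
          set X := (2 ^ (j + 1)) ^ k with hX
          have hX0 : 1 ≤ X := Nat.one_le_pow _ _ (by positivity)
          have e1 : (2 ^ (j + 3)) ^ k = 4 ^ k * X := by
            rw [hX, ← mul_pow]
            congr 1
            ring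
          have e2 : (2 ^ (j + 4)) ^ k = 8 ^ k * X := by
            rw [hX, ← mul_pow]
            congr 1
            ring
          have e3 : L j ≤ X := by
            calc L j ≤ 2 * L j := by omega
              _ = 2 ^ ⌊η * (j : ℝ)⌋₊ := h2L
              _ ≤ (2 ^ j) ^ (k - 1) := size_le k (by omega) η hη1 j
              _ ≤ (2 ^ (j + 1)) ^ (k - 1) := Nat.pow_le_pow_left
                  (Nat.pow_le_pow_right (by norm_num) (by omega)) _
              _ ≤ X := Nat.pow_le_pow_right (by positivity) (by omega)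
          have e4 : 4 ^ k + (2 * k + 1) ≤ 8 ^ k := by
            have h8 : (8 : ℕ) ^ k = 2 ^ k * 4 ^ k := by rw [← mul_pow]; norm_num
            have h2k : 2 ≤ 2 ^ k := by
              calc 2 = 2 ^ 1 := by norm_num
                _ ≤ 2 ^ k := Nat.pow_le_pow_right (by norm_num) (by omega)
            have h4k : 2 * k + 1 ≤ 4 ^ k := by
              have h5 : (4 : ℕ) ^ k = 2 ^ k * 2 ^ k := by rw [← mul_pow]; norm_num
              have h6 : k < 2 ^ k := Nat.lt_two_pow_self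
              rw [h5]
              nlinarith
            rw [h8]
            nlinarith
          rw [e1, e2]
          calc 4 ^ k * X + L j + (m + 1) * (2 * X) ≤ 4 ^ k * X + X + k * (2 * X) := by gcongr
            _ = (4 ^ k + (2 * k + 1)) * X := by ring
            _ ≤ 8 ^ k * X := by gcongr
        have h2 := h1.trans hN.2
        have h3 : (((2 ^ (j + 3)) ^ k + L j + (m + 1) * (2 * (2 ^ (j + 1)) ^ k) : ℕ) : ℤ) ≤ (N : ℤ) := by
          exact_mod_cast h2
        refine le_trans (le_of_eq ?_) h3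
        push_cast
        ring
      · have : N ≤ T2 j := by omega
        exact_mod_cast this
      · rw [hp]
        apply ENNReal.ofReal_le_ofReal
        rw [Real.exp_le_exp, neg_le_neg_iff]
        exact hj1 j hjj1 (q j) (L j) rfl h2L
    have hsub : Bad j ⊆ (⋃ i ∈ range m, ⋃ v ∈ range (T2 j + 1), E i v) ∪
        ⋃ N ∈ (range (T2 j + 1)).filter (fun N => (2 ^ (j + 4)) ^ k ≤ N), G N := by
      intro ω hω
      simp only [hBad, Set.mem_ofPred_eq] at hω
      obtain ⟨hok, N, hN1, hN2, hN3⟩ := hω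
      by_cases hcase : ω ∈ ⋃ i ∈ range m, ⋃ v ∈ range (T2 j + 1), E i v
      · exact Or.inl hcase
      right
      have hgood : ∀ i, i ≤ m → ∀ u ≤ (T2 j : ℤ), ff k r j (q j) (L j) (fun n => δ n ω) i u ≤
          (13 * j ^ 2) ^ i := by
        intro i
        induction i with
        | zero =>
          intro _ u _
          rw [pow_zero]
          exact ff_zero_le_one _ _ _ _ _ _ _
        | succ i ih =>
          intro hi u hu'
          have ih' := ih (by omega)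
          rcases lt_or_ge u 0 with hneg | hpos
          · rw [ff_neg _ _ _ _ _ _ _ _ hneg]
            exact Nat.zero_le _
          · obtain ⟨v, rfl⟩ := Int.eq_ofNat_of_zero_le hpos
            by_contra hcon
            push Not at hcon
            apply hcase
            rw [Set.mem_iUnion₂]
            refine ⟨i, mem_range.2 (by omega), ?_⟩
            rw [Set.mem_iUnion₂]
            refine ⟨v, mem_range.2 (by
              have : v ≤ T2 j := by exact_mod_cast hu'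
              omega), ?_⟩
            simp only [hE, Set.mem_ofPred_eq]
            refine ⟨ih', ?_⟩
            rw [pow_succ] at hcon
            linarith [Nat.mul_comm ((13 * j ^ 2) ^ i) (13 * j ^ 2)]
      rw [Set.mem_iUnion₂]
      refine ⟨N, mem_filter.2 ⟨mem_range.2 (by omega), hN1⟩, ?_⟩
      simp only [hG, Set.mem_ofPred_eq]
      exact ⟨hok, hgood m le_rfl, hN3⟩
    have hmeas : μ (Bad j) ≤ ((m * (T2 j + 1) + (T2 j + 1) : ℕ) : ENNReal) * p := by
      refine (measure_mono hsub).trans ((measure_union_le _ _).trans ?_)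
      rw [Nat.cast_add, add_mul]
      refine add_le_add ?_ ?_
      · refine (measure_biUnion_finset_le _ _).trans ?_
        calc ∑ i ∈ range m, μ (⋃ v ∈ range (T2 j + 1), E i v)
            ≤ ∑ i ∈ range m, ((T2 j + 1 : ℕ) : ENNReal) * p := by
              refine sum_le_sum fun i hi => ?_
              refine (measure_biUnion_finset_le _ _).trans ?_
              refine (sum_le_sum (hEp i hi)).trans ?_
              rw [sum_const, card_range, nsmul_eq_mul]
          _ = _ := by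
              rw [sum_const, card_range, nsmul_eq_mul, ← mul_assoc]
              push_cast
              ring
      · refine (measure_biUnion_finset_le _ _).trans ?_
        refine (sum_le_sum hGp).trans ?_
        rw [sum_const, nsmul_eq_mul]
        gcongr
        refine (card_filter_le _ _).trans ?_
        rw [card_range]
    refine hmeas.trans ?_
    rw [hp, ← ENNReal.ofReal_natCast, ← ENNReal.ofReal_mul (by positivity)]
    apply ENNReal.ofReal_le_ofReal
    have hexp : Real.exp (-((j ^ 2 : ℕ) : ℝ)) ≤ (1 / 2 : ℝ) ^ (j ^ 2) := by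
      have h1 : Real.exp (-((j ^ 2 : ℕ) : ℝ)) = (Real.exp (-1)) ^ (j ^ 2) := by
        rw [← Real.exp_nat_mul]
        congr 1
        ring
      rw [h1]
      apply pow_le_pow_left₀ (Real.exp_pos _).le
      rw [Real.exp_neg, one_div]
      have h2 := Real.add_one_le_exp (1 : ℝ)
      gcongr
      linarith
    have hT2' : ((m * (T2 j + 1) + (T2 j + 1) : ℕ) : ℝ) ≤ C * 2 ^ (k * j) := by
      have h1 : ((m * (T2 j + 1) + (T2 j + 1) : ℕ) : ℝ) = (m + 1) * ((T2 j : ℝ) + 1) := by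
        push_cast; ring
      have h2 : (T2 j : ℝ) = 2 ^ (5 * k) * 2 ^ (k * j) := by
        simp only [hT2]
        push_cast
        rw [← pow_mul, ← pow_add]
        congr 1
        ring
      have h3 : (1 : ℝ) ≤ 2 ^ (5 * k) * 2 ^ (k * j) :=
        one_le_mul_of_one_le_of_one_le (one_le_pow₀ (by norm_num)) (one_le_pow₀ (by norm_num))
      rw [h1, hC, mul_assoc, h2]
      gcongr
      linarith
    calc ((m * (T2 j + 1) + (T2 j + 1) : ℕ) : ℝ) * Real.exp (-((j ^ 2 : ℕ) : ℝ))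
        ≤ (C * 2 ^ (k * j)) * (1 / 2 : ℝ) ^ (j ^ 2) := by gcongr
      _ ≤ (C * 2 ^ (k * j)) * ((1 / 2 : ℝ) ^ (k * j + j)) := by
          have h1 : k * j + j ≤ j ^ 2 := by nlinarith
          gcongr ?_ * ?_
          exact pow_le_pow_of_le_one (by norm_num) (by norm_num) h1
      _ = C * (1 / 2) ^ j := by
          rw [pow_add, one_div, inv_pow, inv_pow]
          field_simp
  set J : ℕ := max (max j0 j1) (max j2 (k + 1)) with hJ
  have hfin : ∑' i : ℕ, μ (Bad (i + J)) ≠ ⊤ := by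
    have h1 : ∀ i : ℕ, μ (Bad (i + J)) ≤ ENNReal.ofReal (C * (1 / 2) ^ (i + J)) := fun i =>
      hBadm _ (by omega)
    refine ne_top_of_le_ne_top ?_ (ENNReal.tsum_le_tsum h1)
    apply Summable.tsum_ofReal_ne_top
    apply Summable.mul_left
    exact (summable_nat_add_iff J).2 (summable_geometric_of_lt_one (by norm_num) (by norm_num))
  have hok : ∀ᵐ ω ∂μ, Ok k (fun n => δ n ω) := by
    have hδ : ∀ᵐ ω ∂μ, ∀ n, δ n ω < 2 ^ ⌊η * Nat.log 2 n⌋₊ :=
      ae_all_iff.2 fun n => unif_ae (δ n) (hm n) _ Nat.one_le_two_pow (hu n)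
    filter_upwards [hδ] with ω hω
    intro n hn
    refine (hω n).le.trans ((size_le k (by omega) η hη1 _).trans ?_)
    exact Nat.pow_le_pow_left (Nat.pow_log_le_self 2 (by omega)) _
  filter_upwards [hok, ae_eventually_notMem hfin] with ω hω1 hω2
  obtain ⟨j3, hj3⟩ := Filter.eventually_atTop.1 hω2
  refine ⟨(2 ^ k) ^ (j3 + J + 4), fun N hN => ?_⟩
  have hk1 : 1 < 2 ^ k := Nat.one_lt_two_pow (by omega)
  have hN0 : N ≠ 0 := by
    have : 0 < (2 ^ k) ^ (j3 + J + 4) := by positivity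
    omega
  have hlog : j3 + J + 4 ≤ Nat.log (2 ^ k) N := Nat.le_log_of_pow_le hk1 hN
  obtain ⟨j, hj⟩ : ∃ j, Nat.log (2 ^ k) N = j + 4 := ⟨Nat.log (2 ^ k) N - 4, by omega⟩
  have hN1 : (2 ^ k) ^ (j + 4) ≤ N := by
    rw [← hj]
    exact Nat.pow_log_le_self _ hN0
  have hN2 : N < (2 ^ k) ^ (j + 5) := by
    have := Nat.lt_pow_succ_log_self hk1 N
    rw [hj] at this
    exact this
  have hpow : ∀ i : ℕ, ((2 : ℕ) ^ k) ^ i = (2 ^ i) ^ k := fun i => by rw [← pow_mul, ← pow_mul, mul_comm]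
  rw [hpow] at hN1 hN2
  have h1 := hj3 (j - J) (by omega)
  rw [show j - J + J = j by omega] at h1
  simp only [hBad, Set.mem_ofPred_eq, not_and, not_exists] at h1
  have h2 := h1 hω1 N hN1 hN2.le
  obtain ⟨x, hx1, hx2⟩ := exists_of_ff_pos k r j (q j) (L j) (fun n => δ n ω) (m + 1) N (Nat.pos_of_ne_zero h2)
  refine ⟨x, hx1, ?_⟩
  have h3 : ((∑ l, ((x l) ^ k + δ (x l) ω) : ℕ) : ℤ) = (N : ℤ) := hx2
  have h4 : (∑ l, ((x l) ^ k + δ (x l) ω)) = N := by exact_mod_cast h3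
  exact h4.symm

end Pool.Agent.X30.PP
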