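import Mathlib
import Pool.Agent.X30.PP5

/-!
# Perturbed powers: `k` summands never suffice; arithmetic of the exponents
-/

set_option autoImplicit false

namespace Pool.Agent.X30.PP

open Finset

/-- at most `k` numbers `x ^ k + w x`, `x ≥ 1`, do not represent all large integers -/
theorem not_k (k : ℕ) (hk : 2 ≤ k) (w : ℕ → ℕ) (N0 : ℕ) :
    ∃ N : ℕ, N0 ≤ N ∧ ∀ t : ℕ, t ≤ k → ∀ x : Fin t → ℕ, (∀ i, 1 ≤ x i) → N ≠ ∑ i, ((x i) ^ k + w (x i)) := by
  classical
  by_contra hcon
  push Not at hcon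
  obtain ⟨k', rfl⟩ : ∃ k', k = k' + 2 := ⟨k - 2, by omega⟩
  set k := k' + 2 with hkdef
  set Y : ℕ := 2 * k ^ 2 + k + N0 + 1 with hY
  set X : ℕ := 2 * k * Y with hX
  have hXY : Y ≤ X := by rw [hX]; exact Nat.le_mul_of_pos_left _ (by omega)
  -- the values
  set a : ℕ → ℕ := fun x => if x = 0 then 0 else x ^ k + w x with ha
  set U : Finset (Fin k → ℕ) := Fintype.piFinset (fun _ : Fin k => range (X + 1)) with hU
  set A : Finset (Fin k → ℕ) := U.filter (fun f => ∑ i, a (f i) ≤ X ^ k) with hA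
  -- every N in [N0, X ^ k] is a value
  have hsurj : Icc N0 (X ^ k) ⊆ A.image (fun f => ∑ i, a (f i)) := by
    intro N hN
    rw [mem_Icc] at hN
    obtain ⟨t, ht, x, hx1, hx2⟩ := hcon N hN.1
    have hxX : ∀ i, x i ≤ X := by
      intro i
      have h1 : (x i) ^ k ≤ N := by
        rw [hx2]
        calc (x i) ^ k ≤ (x i) ^ k + w (x i) := by omega
          _ ≤ _ := single_le_sum (f := fun i => (x i) ^ k + w (x i)) (fun _ _ => Nat.zero_le _) (mem_univ i)
      exact le_of_pow_le_pow_left₀ (by omega) (by omega) (h1.trans hN.2)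
    set f : Fin k → ℕ := fun i => if h : (i : ℕ) < t then x ⟨i, h⟩ else 0 with hf
    have hval : ∑ i, a (f i) = N := by
      rw [hx2]
      have h1 : ∀ i : Fin t, (x i) ^ k + w (x i) = a (x i) := by
        intro i
        simp only [ha]
        rw [if_neg (by have := hx1 i; omega)]
      rw [sum_congr rfl (fun i _ => h1 i)]
      have h2 : ∑ i : Fin t, a (x i) = ∑ i ∈ range t, (if h : i < t then a (x ⟨i, h⟩) else 0) := by
        rw [Finset.sum_range]
        refine sum_congr rfl fun i _ => ?_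
        rw [dif_pos i.2]
      have h3 : ∑ i : Fin k, a (f i) = ∑ i ∈ range k, (if h : i < t then a (x ⟨i, h⟩) else 0) := by
        rw [Finset.sum_range]
        refine sum_congr rfl fun i _ => ?_
        simp only [hf]
        split_ifs with h
        · rfl
        · simp only [ha, if_true]
      rw [h2, h3]
      symm
      apply sum_subset (range_subset_range.2 ht)
      intro i _ hi
      rw [mem_range, not_lt] at hi
      rw [dif_neg (by omega)]
    rw [mem_image]
    refine ⟨f, ?_, hval⟩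
    rw [hA, mem_filter, hU, Fintype.mem_piFinset]
    refine ⟨fun i => ?_, by rw [hval]; exact hN.2⟩
    rw [mem_range]
    simp only [hf]
    split_ifs with h
    · have := hxX ⟨i, h⟩
      omega
    · omega
  have hcard1 : X ^ k + 1 - N0 ≤ A.card := by
    have h1 := (card_le_card hsurj).trans card_image_le
    rwa [Nat.card_Icc] at h1
  -- the tuples with two large entries
  set Bf : Fin k → Finset ℕ := fun i => if (i : ℕ) < 2 then Ioc (X - Y) X else range (X + 1) with hBf
  set B : Finset (Fin k → ℕ) := Fintype.piFinset Bf with hB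
  have hBU : B ⊆ U \ A := by
    intro f hf
    rw [hB, Fintype.mem_piFinset] at hf
    rw [mem_sdiff, hA, mem_filter, hU, Fintype.mem_piFinset]
    constructor
    · intro i
      have h1 := hf i
      simp only [hBf] at h1
      rw [mem_range]
      split_ifs at h1
      · rw [mem_Ioc] at h1; omega
      · rw [mem_range] at h1; exact h1
    · rintro ⟨_, h2⟩
      have h3 : ∀ i : Fin k, (i : ℕ) < 2 → (X - Y) ^ k < a (f i) := by
        intro i hi
        have h1 := hf i
        simp only [hBf] at h1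
        rw [if_pos hi, mem_Ioc] at h1
        simp only [ha]
        rw [if_neg (by omega)]
        calc (X - Y) ^ k < (f i) ^ k := Nat.pow_lt_pow_left h1.1 (by omega)
          _ ≤ _ := by omega
      have h4 : X ^ k ≤ 2 * (X - Y) ^ k := by
        have hX0 : (0 : ℝ) < X := by
          have : 0 < X := by omega
          exact_mod_cast this
        have hk0 : (0 : ℝ) < k := by positivity
        have h5 := one_add_mul_le_pow (a := -(1 / (2 * (k : ℝ)))) (by
          have : 1 / (2 * (k : ℝ)) ≤ 1 := by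
            rw [div_le_one (by positivity)]
            have : (1 : ℝ) ≤ k := by exact_mod_cast (by omega : 1 ≤ k)
            linarith
          linarith) k
        have h6 : ((X - Y : ℕ) : ℝ) = X * (1 + -(1 / (2 * (k : ℝ)))) := by
          rw [Nat.cast_sub hXY, hX]
          push_cast
          field_simp
          ring
        have h7 : (1 : ℝ) / 2 ≤ (1 + -(1 / (2 * (k : ℝ)))) ^ k := by
          refine le_trans (le_of_eq ?_) h5
          field_simp
          ring
        have h8 : ((X ^ k : ℕ) : ℝ) ≤ ((2 * (X - Y) ^ k : ℕ) : ℝ) := by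
          push_cast
          rw [h6, mul_pow]
          have : (0 : ℝ) < (X : ℝ) ^ k := by positivity
          nlinarith
        exact_mod_cast h8
      have h5 : a (f ⟨0, by omega⟩) + a (f ⟨1, by omega⟩) ≤ ∑ i, a (f i) := by
        have h6 : ∑ i ∈ ({⟨0, by omega⟩, ⟨1, by omega⟩} : Finset (Fin k)), a (f i) ≤ ∑ i, a (f i) :=
          sum_le_sum_of_subset (subset_univ _)
        rw [sum_pair (by
          intro h
          have := congrArg Fin.val h
          simp at this)] at h6
        exact h6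
      have h6 := h3 ⟨0, by omega⟩ (by simp)
      have h7 := h3 ⟨1, by omega⟩ (by simp)
      omega
  have hcardU : U.card = (X + 1) ^ k := by
    rw [hU, Fintype.card_piFinset]
    simp
  have hcardB : B.card = Y ^ 2 * (X + 1) ^ k' := by
    rw [hB, Fintype.card_piFinset]
    have h1 : ∀ i : Fin k, (Bf i).card = if (i : ℕ) < 2 then Y else X + 1 := by
      intro i
      simp only [hBf]
      split_ifs
      · rw [Nat.card_Ioc]
        omega
      · rw [card_range]
    rw [prod_congr rfl (fun i _ => h1 i)]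
    rw [← Finset.prod_range (fun i => if i < 2 then Y else X + 1)]
    rw [hkdef, show k' + 2 = 2 + k' by ring, prod_range_add]
    congr 1
    · rw [prod_congr rfl (fun i hi => if_pos (mem_range.1 hi)), prod_const, card_range]
    · rw [prod_congr rfl (fun i _ => if_neg (by omega)), prod_const, card_range]
  have hAle : A.card + B.card ≤ U.card := by
    have h1 : A.card + (U \ A).card = U.card := by
      rw [add_comm]
      exact card_sdiff_add_card_eq_card (filter_subset _ _)
    have h2 := card_le_card hBU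
    omega
  rw [hcardU, hcardB] at hAle
  -- Bernoulli
  have hbern : (X + 1) ^ k ≤ X ^ k + k * (X + 1) ^ (k' + 1) := by
    have hX0 : (0 : ℝ) < (X : ℝ) + 1 := by positivity
    have h5 := one_add_mul_le_pow (a := -(1 / ((X : ℝ) + 1))) (by
      have : 1 / ((X : ℝ) + 1) ≤ 1 := by
        rw [div_le_one hX0]
        have : (0 : ℝ) ≤ X := by positivity
        linarith
      linarith) k
    have h6 : (X : ℝ) = ((X : ℝ) + 1) * (1 + -(1 / ((X : ℝ) + 1))) := by
      field_simp
      ring
    have h7 : (((X + 1) ^ k : ℕ) : ℝ) ≤ ((X ^ k + k * (X + 1) ^ (k' + 1) : ℕ) : ℝ) := by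
      have h8 : (X : ℝ) ^ k = ((X : ℝ) + 1) ^ k * (1 + -(1 / ((X : ℝ) + 1))) ^ k := by
        rw [← mul_pow, ← h6]
      push_cast
      rw [h8]
      have h9 : (0 : ℝ) < ((X : ℝ) + 1) ^ k := by positivity
      have h10 : ((X : ℝ) + 1) ^ k * (1 + (k : ℝ) * -(1 / ((X : ℝ) + 1))) =
          ((X : ℝ) + 1) ^ k - k * ((X : ℝ) + 1) ^ (k' + 1) := by
        rw [hkdef, pow_succ ((X : ℝ) + 1) (k' + 1)]
        field_simp
        ring
      have h11 := mul_le_mul_of_nonneg_left h5 h9.le
      rw [h10] at h11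
      linarith
    exact_mod_cast h7
  -- the contradiction
  have hu0 : 1 ≤ (X + 1) ^ k' := Nat.one_le_pow _ _ (by omega)
  have hfin : k * (X + 1) + N0 < Y ^ 2 := by
    have h1 : k * (X + 1) = 2 * k ^ 2 * Y + k := by rw [hX]; ring
    rw [h1]
    have h2 : Y ^ 2 = 2 * k ^ 2 * Y + (k + N0 + 1) * Y := by
      nth_rewrite 1 [sq, hY]
      ring
    rw [h2]
    have h3 : 1 ≤ Y := by omega
    nlinarith
  have h1 : k * (X + 1) ^ (k' + 1) + N0 < Y ^ 2 * (X + 1) ^ k' := by
    calc k * (X + 1) ^ (k' + 1) + N0 ≤ k * (X + 1) ^ (k' + 1) + N0 * (X + 1) ^ k' := by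
          have : N0 ≤ N0 * (X + 1) ^ k' := Nat.le_mul_of_pos_right _ (by omega)
          omega
      _ = (k * (X + 1) + N0) * (X + 1) ^ k' := by rw [pow_succ]; ring
      _ < Y ^ 2 * (X + 1) ^ k' := Nat.mul_lt_mul_of_pos_right hfin (by omega)
  omega

/-- `(1 - 1 / k) ^ n ≤ exp (- n / k)` -/
lemma pow_le_exp (k n : ℕ) (hk : 1 ≤ k) : (1 - 1 / (k : ℝ)) ^ n ≤ Real.exp (-(n / k)) := by
  have hk0 : (0 : ℝ) < k := by exact_mod_cast hk
  have h1 : 1 - 1 / (k : ℝ) ≤ Real.exp (-(1 / k)) := by
    have := Real.add_one_le_exp (-(1 / (k : ℝ)))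
    linarith
  have h0 : 0 ≤ 1 - 1 / (k : ℝ) := by
    rw [sub_nonneg, div_le_one hk0]
    exact_mod_cast hk
  calc (1 - 1 / (k : ℝ)) ^ n ≤ (Real.exp (-(1 / k))) ^ n := pow_le_pow_left₀ h0 h1 n
    _ = _ := by
        rw [← Real.exp_nat_mul]
        congr 1
        ring

/-- `(1 - 1 / k) ^ n ≤ exp (- 2 n / (2 k - 1))` -/
lemma pow_le_exp' (k n : ℕ) (hk : 2 ≤ k) :
    (1 - 1 / (k : ℝ)) ^ n ≤ Real.exp (-(2 * n / (2 * k - 1))) := by
  have hk0 : (2 : ℝ) ≤ k := by exact_mod_cast hk
  have hpos : 0 < 1 - 1 / (k : ℝ) := theta_pos k hk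
  have h1 := Real.hasSum_log_one_add_inv (a := (k : ℝ) - 1) (by linarith)
  have h2 := le_hasSum h1 0 (fun i _ => by
    have : (0 : ℝ) ≤ 2 * ((k : ℝ) - 1) + 1 := by linarith
    positivity)
  have h3 : Real.log (1 - 1 / (k : ℝ)) = -Real.log (1 + ((k : ℝ) - 1)⁻¹) := by
    rw [← Real.log_inv]
    congr 1
    have hk1 : (k : ℝ) - 1 ≠ 0 := by linarith
    have hkne : (k : ℝ) ≠ 0 := by linarith
    have e1 : 1 + ((k : ℝ) - 1)⁻¹ = k / (k - 1) := by
      rw [eq_div_iff hk1, add_mul, inv_mul_cancel₀ hk1]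
      ring
    rw [e1, inv_div, sub_div, div_self hkne]
  have h4 : 2 / (2 * (k : ℝ) - 1) ≤ Real.log (1 + ((k : ℝ) - 1)⁻¹) := by
    refine le_trans (le_of_eq ?_) h2
    have : 2 * (k : ℝ) - 1 ≠ 0 := by linarith
    have h5 : 2 * ((k : ℝ) - 1) + 1 = 2 * k - 1 := by ring
    rw [h5]
    norm_num
    rw [div_eq_mul_inv]
  rw [← Real.exp_log hpos, ← Real.exp_nat_mul, Real.exp_le_exp, h3]
  have hn : (0 : ℝ) ≤ n := by positivity
  calc (n : ℝ) * -Real.log (1 + ((k : ℝ) - 1)⁻¹) = -(n * Real.log (1 + ((k : ℝ) - 1)⁻¹)) := by ring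
    _ ≤ -(n * (2 / (2 * (k : ℝ) - 1))) := by
        rw [neg_le_neg_iff]
        gcongr
    _ = _ := by ring

end Pool.Agent.X30.PP
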