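import Mathlib
import Pool.Agent.X30.PP6

/-!
# Perturbed powers: forms with a given number of summands
-/

set_option autoImplicit false

namespace Pool.Agent.X30.PP

open Finset MeasureTheory ProbabilityTheory

variable {Ω : Type*} [MeasurableSpace Ω] {μ : Measure Ω} [IsProbabilityMeasure μ]

theorem perturbed' (k s : ℕ) (hk : 2 ≤ k) (η : ℝ) (hs : ⌊η⌋₊ + 2 ≤ s)
    (hη : (k : ℝ) * (1 - 1 / (k : ℝ)) ^ (s - 1 - ⌊η⌋₊) < η) (hη1 : η ≤ k - 1)
    (δ : ℕ → Ω → ℕ) (hm : ∀ n, Measurable (δ n)) (hind : iIndepFun δ μ)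
    (hu : ∀ n, ∀ d < 2 ^ ⌊η * Nat.log 2 n⌋₊,
      μ {ω | δ n ω = d} = 1 / ((2 ^ ⌊η * Nat.log 2 n⌋₊ : ℕ) : ENNReal)) :
    ∀ᵐ ω ∂μ, ∃ N0 : ℕ, ∀ N : ℕ, N0 ≤ N → ∃ x : Fin s → ℕ, (∀ i, 1 ≤ x i) ∧
      N = ∑ i, (x i ^ k + δ (x i) ω) := by
  obtain ⟨r, rfl⟩ : ∃ r, s = r + ⌊η⌋₊ + 1 := ⟨s - 1 - ⌊η⌋₊, by omega⟩
  rw [show r + ⌊η⌋₊ + 1 - 1 - ⌊η⌋₊ = r by omega] at hη
  exact perturbed k r hk (by omega) η hη hη1 δ hm hind hu

lemma floor_lt (k : ℕ) (hk : 2 ≤ k) (η : ℝ) (hη1 : η ≤ k - 1) : ⌊η⌋₊ + 1 ≤ k := by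
  rcases le_or_gt η 0 with h | h
  · rw [Nat.floor_of_nonpos h]
    omega
  · have h1 := Nat.floor_le h.le
    have : ((⌊η⌋₊ + 1 : ℕ) : ℝ) ≤ k := by push_cast; linarith
    exact_mod_cast this

lemma exp_le_quad (x : ℝ) (h0 : 0 ≤ x) (h1 : x ≤ 1) : Real.exp x ≤ 1 + x + x ^ 2 := by
  have := Real.abs_exp_sub_one_sub_id_le (x := x) (by rw [abs_of_nonneg h0]; exact h1)
  have h7 := abs_le.1 this
  linarith [h7.2]

lemma cond2 (k : ℕ) (hk : 2 ≤ k) (η : ℝ) (hη1 : η ≤ k - 1)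
    (h : (k : ℝ) / 6 ≤ η ∨ (k : ℝ) * (1 - 1 / (k : ℝ)) ^ (2 * k - ⌊η⌋₊) < η) :
    (k : ℝ) * (1 - 1 / (k : ℝ)) ^ (2 * k + 1 - 1 - ⌊η⌋₊) < η := by
  rw [Nat.add_sub_cancel]
  rcases h with h | h
  swap
  · exact h
  have hk0 : (2 : ℝ) ≤ k := by exact_mod_cast hk
  have hkpos : (0 : ℝ) < k := by linarith
  have hη0 : 0 ≤ η := by linarith [(by positivity : (0 : ℝ) ≤ k / 6)]
  have hfl := floor_lt k hk η hη1
  set x : ℝ := η / k with hx
  have hxη : k * x = η := by rw [hx]; field_simp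
  have hx1 : 1 / 6 ≤ x := by
    rw [hx, le_div_iff₀ hkpos]
    linarith
  have hx2 : x ≤ 1 := by
    rw [hx, div_le_one hkpos]
    linarith
  have h1 := pow_le_exp k (2 * k - ⌊η⌋₊) (by omega)
  have h2 : Real.exp (-(((2 * k - ⌊η⌋₊ : ℕ) : ℝ) / k)) ≤ Real.exp (x - 2) := by
    rw [Real.exp_le_exp, Nat.cast_sub (by omega)]
    have h3 := Nat.floor_le hη0
    have h4 : ((2 * k : ℕ) : ℝ) - ⌊η⌋₊ ≥ 2 * k - η := by push_cast; linarith
    have h5 : (2 * k - η) / k ≤ (((2 * k : ℕ) : ℝ) - ⌊η⌋₊) / k := by gcongr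
    have h6 : (2 * k - η) / k = 2 - x := by rw [hx]; field_simp
    linarith
  have h3 : Real.exp (x - 2) < x := by
    have e1 : Real.exp (x - 2) = Real.exp x * Real.exp (-2) := by
      rw [← Real.exp_add]; congr 1
    have e2 : Real.exp (-2) ≤ 0.1354 := by
      have h4 := Real.exp_one_gt_d9
      have h5 : Real.exp (-2) = (Real.exp 1 ^ 2)⁻¹ := by
        rw [Real.exp_neg, ← Real.exp_nat_mul]
        norm_num
      rw [h5]
      have h6 : (7.387 : ℝ) ≤ Real.exp 1 ^ 2 := by nlinarith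
      calc (Real.exp 1 ^ 2)⁻¹ ≤ (7.387 : ℝ)⁻¹ := by gcongr
        _ ≤ 0.1354 := by norm_num
    rw [e1]
    have e3 := exp_le_quad x (by linarith) hx2
    calc Real.exp x * Real.exp (-2) ≤ (1 + x + x ^ 2) * 0.1354 := by
          apply mul_le_mul e3 e2 (Real.exp_pos _).le
          positivity
      _ < x := by nlinarith
  calc (k : ℝ) * (1 - 1 / (k : ℝ)) ^ (2 * k - ⌊η⌋₊) ≤ k * Real.exp (x - 2) := by
        gcongr
        exact h1.trans h2
    _ < k * x := by gcongr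
    _ = η := hxη

lemma exponent_bound (k c : ℕ) (hk : 2 ≤ k) (hc : 3 ≤ c) (η : ℝ) (hη0 : 0 ≤ η) (hη1 : η ≤ k - 1) :
    (1 - 1 / (k : ℝ)) ^ (c * k - 1 - ⌊η⌋₊) ≤ Real.exp (η / k - c) := by
  have hk0 : (2 : ℝ) ≤ k := by exact_mod_cast hk
  have hkpos : (0 : ℝ) < k := by linarith
  have hc0 : (3 : ℝ) ≤ c := by exact_mod_cast hc
  have hfl := floor_lt k hk η hη1
  refine (pow_le_exp' k _ hk).trans ?_
  rw [Real.exp_le_exp]
  have h0 : 1 + ⌊η⌋₊ ≤ c * k := by nlinarith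
  have h1 : (((c * k - 1 - ⌊η⌋₊ : ℕ)) : ℝ) = c * k - 1 - ⌊η⌋₊ := by
    rw [Nat.cast_sub (by omega), Nat.cast_sub (by omega)]
    push_cast
    ring
  have h2 := Nat.floor_le hη0
  have hpos : (0 : ℝ) < 2 * k - 1 := by linarith
  have h3 : c - η / k ≤ 2 * (((c * k - 1 - ⌊η⌋₊ : ℕ)) : ℝ) / (2 * k - 1) := by
    rw [h1, le_div_iff₀ hpos]
    have h4 : η / k * (2 * k - 1) = 2 * η - η / k := by field_simp
    have h5 : 0 ≤ η / k := by positivity
    have h6 : η / k ≤ 1 := by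
      rw [div_le_one hkpos]
      linarith
    have h7 : (c - η / k) * (2 * (k : ℝ) - 1) = 2 * (c * k) - c - η / k * (2 * k - 1) := by ring
    rw [h7, h4]
    linarith
  linarith

lemma cond4 (k : ℕ) (hk : 2 ≤ k) (η : ℝ) (hη1 : η ≤ k - 1)
    (h : (k : ℝ) / 53 ≤ η ∨ (k : ℝ) * (1 - 1 / (k : ℝ)) ^ (4 * k - 1 - ⌊η⌋₊) < η) :
    (k : ℝ) * (1 - 1 / (k : ℝ)) ^ (4 * k - 1 - ⌊η⌋₊) < η := by
  rcases h with h | h
  swap
  · exact h
  have hk0 : (2 : ℝ) ≤ k := by exact_mod_cast hk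
  have hkpos : (0 : ℝ) < k := by linarith
  have hη0 : 0 ≤ η := by linarith [(by positivity : (0 : ℝ) ≤ k / 53)]
  set x : ℝ := η / k with hx
  have hxη : k * x = η := by rw [hx]; field_simp
  have hx1 : 1 / 53 ≤ x := by
    rw [hx, le_div_iff₀ hkpos]
    linarith
  have hx2 : x ≤ 1 := by
    rw [hx, div_le_one hkpos]
    linarith
  have h1 := exponent_bound k 4 hk (by norm_num) η hη0 hη1
  rw [← hx] at h1
  push_cast at h1
  have h3 : Real.exp (x - 4) < x := by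
    have e1 : Real.exp (x - 4) = Real.exp x * Real.exp (-4) := by
      rw [← Real.exp_add]; congr 1
    have e2 : Real.exp (-4) ≤ 0.018325 := by
      have h4 := Real.exp_one_gt_d9
      have h5 : Real.exp (-4) = (Real.exp 1 ^ 4)⁻¹ := by
        rw [Real.exp_neg, ← Real.exp_nat_mul]
        norm_num
      rw [h5]
      have h6 : (2.718 : ℝ) ^ 4 ≤ Real.exp 1 ^ 4 := by
        gcongr
        linarith
      calc (Real.exp 1 ^ 4)⁻¹ ≤ ((2.718 : ℝ) ^ 4)⁻¹ := by gcongr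
        _ ≤ 0.018325 := by norm_num
    rw [e1]
    have e3 := exp_le_quad x (by linarith) hx2
    calc Real.exp x * Real.exp (-4) ≤ (1 + x + x ^ 2) * 0.018325 := by
          apply mul_le_mul e3 e2 (Real.exp_pos _).le
          positivity
      _ < x := by nlinarith
  calc (k : ℝ) * (1 - 1 / (k : ℝ)) ^ (4 * k - 1 - ⌊η⌋₊) ≤ k * Real.exp (x - 4) := by gcongr
    _ < k * x := by gcongr
    _ = η := hxη

lemma cond100 (k : ℕ) (hk : 2 ≤ k) (η : ℝ) (hη1 : η ≤ k - 1)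
    (h : (k : ℝ) / 2 ^ 144 ≤ η ∨ (k : ℝ) * (1 - 1 / (k : ℝ)) ^ (100 * k - 1 - ⌊η⌋₊) < η) :
    (k : ℝ) * (1 - 1 / (k : ℝ)) ^ (100 * k - 1 - ⌊η⌋₊) < η := by
  rcases h with h | h
  swap
  · exact h
  have hk0 : (2 : ℝ) ≤ k := by exact_mod_cast hk
  have hkpos : (0 : ℝ) < k := by linarith
  have hη0 : 0 ≤ η := by linarith [(by positivity : (0 : ℝ) ≤ k / 2 ^ 144)]
  set x : ℝ := η / k with hx
  have hxη : k * x = η := by rw [hx]; field_simp
  have hx1 : 1 / 2 ^ 144 ≤ x := by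
    rw [hx, le_div_iff₀ hkpos]
    calc 1 / 2 ^ 144 * (k : ℝ) = k / 2 ^ 144 := by ring
      _ ≤ η := h
  have hx2 : x ≤ 1 := by
    rw [hx, div_le_one hkpos]
    linarith
  have hx0 : 0 < x := lt_of_lt_of_le (by positivity) hx1
  have h1 := exponent_bound k 100 hk (by norm_num) η hη0 hη1
  rw [← hx] at h1
  push_cast at h1
  have h3 : Real.exp (x - 100) < x := by
    have e1 : Real.exp (x - 100) = Real.exp x * Real.exp (-100) := by
      rw [← Real.exp_add]; congr 1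
    have e2 : Real.exp (-100) ≤ (1 / 2 ^ 144) / 1.1 := by
      have h4 := Real.exp_one_gt_d9
      have h5 : Real.exp (-100) = (Real.exp 1 ^ 100)⁻¹ := by
        rw [Real.exp_neg, ← Real.exp_nat_mul]
        norm_num
      rw [h5]
      have h6 : (2.718 : ℝ) ^ 100 ≤ Real.exp 1 ^ 100 := by
        gcongr
        linarith
      calc (Real.exp 1 ^ 100)⁻¹ ≤ ((2.718 : ℝ) ^ 100)⁻¹ := by gcongr
        _ ≤ (1 / 2 ^ 144) / 1.1 := by norm_num
    rw [e1]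
    have e3 := exp_le_quad x hx0.le hx2
    have e4 : (1 : ℝ) / 2 ^ 144 ≤ 1 / 100 := by norm_num
    set a : ℝ := 1 / 2 ^ 144 with ha
    have ha0 : 0 < a := by rw [ha]; positivity
    calc Real.exp x * Real.exp (-100) ≤ (1 + x + x ^ 2) * (a / 1.1) := by
          apply mul_le_mul e3 e2 (Real.exp_pos _).le
          positivity
      _ ≤ (1 + 2 * x) * (a / 1.1) := by
          have e5 : 1 + x + x ^ 2 ≤ 1 + 2 * x := by nlinarith
          exact mul_le_mul_of_nonneg_right e5 (by positivity)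
      _ < x := by
          have h7 : (1 + 2 * x) * (a / 1.1) = a / 1.1 + x * (2 * a / 1.1) := by ring
          have h8 : x * (2 * a / 1.1) ≤ x * (2 / 110) := by
            apply mul_le_mul_of_nonneg_left _ hx0.le
            rw [div_le_iff₀ (by norm_num)]
            linarith
          have h9 : a / 1.1 ≤ x / 1.1 := by gcongr
          rw [h7]
          have h10 : x / 1.1 ≤ x * 0.91 := by
            rw [div_le_iff₀ (by norm_num)]
            nlinarith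
          linarith
  calc (k : ℝ) * (1 - 1 / (k : ℝ)) ^ (100 * k - 1 - ⌊η⌋₊) ≤ k * Real.exp (x - 100) := by gcongr
    _ < k * x := by gcongr
    _ = η := hxη

end Pool.Agent.X30.PP
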