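import Mathlib
import Pool.Agent.X30.WP3

/-!
# Sums of exact `k`-th powers: diminishing ranges
-/

set_option autoImplicit false

namespace Pool.Agent.X30.PQ

open Finset
open Pool.Agent.X30.WP (gp gp_add gp_ge gp_pos gp_mono gp_le)

/-- `n` is a sum of `u` positive `k`-th powers -/
def SP (k u n : ℕ) : Prop := ∃ z : Fin u → ℕ, (∀ i, 1 ≤ z i) ∧ n = ∑ i, (z i) ^ k

lemma dim (k : ℕ) (hk : 2 ≤ k) (u : ℕ) : ∃ c : ℝ, 0 < c ∧ ∃ X0 : ℕ, ∀ X : ℕ, X0 ≤ X → ∃ A : Finset ℕ,
    (∀ a ∈ A, a ≤ X ∧ SP k u a) ∧ c * (X : ℝ) ^ (1 - (1 - 1 / (k : ℝ)) ^ u) ≤ A.card := by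
  have hk0 : (0 : ℝ) < k := by exact_mod_cast (by omega : 0 < k)
  have hk2 : (2 : ℝ) ≤ k := by exact_mod_cast hk
  have hθ0 : 0 ≤ 1 - 1 / (k : ℝ) := by
    rw [sub_nonneg, div_le_one hk0]; linarith
  have hθ1 : 1 - 1 / (k : ℝ) ≤ 1 := by
    have : 0 ≤ 1 / (k : ℝ) := by positivity
    linarith
  induction u with
  | zero =>
    refine ⟨1, one_pos, 0, fun X _ => ⟨{0}, ?_, ?_⟩⟩
    · intro a ha
      rw [mem_singleton] at ha
      subst ha
      exact ⟨Nat.zero_le _, Fin.elim0, fun i => i.elim0, by simp⟩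
    · simp
  | succ u ih =>
    obtain ⟨c, hc, X0, hX0⟩ := ih
    set θ : ℝ := 1 - 1 / (k : ℝ) with hθ
    refine ⟨c / 16 ^ k, by positivity, 16 ^ k * (X0 + 1) ^ k, fun X hX => ?_⟩
    set R : ℝ := (X : ℝ) ^ (1 / (k : ℝ)) with hR
    have hRk : R ^ k = X := by
      rw [hR, ← Real.rpow_natCast, ← Real.rpow_mul (by positivity), one_div, inv_mul_cancel₀ hk0.ne',
        Real.rpow_one]
    have hR0 : 0 ≤ R := by rw [hR]; positivity
    have hRlow : 16 * ((X0 : ℝ) + 1) ≤ R := by
      have h1 : (16 * ((X0 : ℝ) + 1)) ^ k ≤ R ^ k := by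
        rw [hRk, mul_pow]
        exact_mod_cast hX
      exact le_of_pow_le_pow_left₀ (by omega) hR0 h1
    set y : ℕ := ⌊R / 8⌋₊ with hy
    have hy1 : (y : ℝ) ≤ R / 8 := Nat.floor_le (by positivity)
    have hy2 : R / 8 < y + 1 := Nat.lt_floor_add_one _
    have hX0R : (0 : ℝ) ≤ X0 := by positivity
    have hy3 : R / 16 ≤ y := by linarith
    have hyX0 : X0 + 1 ≤ y := by
      have : ((X0 + 1 : ℕ) : ℝ) ≤ y := by push_cast; linarith
      exact_mod_cast this
    have hy0 : 1 ≤ y := by omega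
    have hyk : X0 ≤ y ^ (k - 1) := by
      calc X0 ≤ y := by omega
        _ = y ^ 1 := (pow_one _).symm
        _ ≤ y ^ (k - 1) := Nat.pow_le_pow_right hy0 (by omega)
    obtain ⟨A, hA1, hA2⟩ := hX0 (y ^ (k - 1)) hyk
    have hgp : ∀ x, y ≤ x → y ^ (k - 1) < gp k x := by
      intro x hx
      obtain ⟨k', rfl⟩ : ∃ k', k = k' + 1 := ⟨k - 1, by omega⟩
      rw [Nat.add_sub_cancel]
      calc y ^ k' < (y + 1) ^ k' := Nat.pow_lt_pow_left (by omega) (by omega)
        _ ≤ (x + 1) ^ k' := Nat.pow_le_pow_left (by omega) _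
        _ ≤ _ := gp_ge k' x
    refine ⟨(Ico y (2 * y) ×ˢ A).image (fun p => p.1 ^ k + p.2), ?_, ?_⟩
    · intro a ha
      rw [mem_image] at ha
      obtain ⟨⟨x, b⟩, hp, rfl⟩ := ha
      rw [mem_product, mem_Ico] at hp
      obtain ⟨hb1, z, hz1, hz2⟩ := hA1 b hp.2
      simp only at hp ⊢
      constructor
      · have h1 : ((x ^ k + b : ℕ) : ℝ) ≤ X := by
          have e1 : (x : ℝ) ≤ R / 4 := by
            have : (x : ℝ) ≤ 2 * y := by exact_mod_cast hp.1.2.le
            linarith
          have e2 : (x : ℝ) ^ k ≤ R ^ k / 4 ^ k := by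
            rw [← div_pow]
            exact pow_le_pow_left₀ (by positivity) e1 k
          have e3 : (b : ℝ) ≤ (y : ℝ) ^ k := by
            have h2 : b ≤ y ^ k := hb1.trans (Nat.pow_le_pow_right hy0 (by omega))
            exact_mod_cast h2
          have e4 : (y : ℝ) ^ k ≤ R ^ k / 8 ^ k := by
            rw [← div_pow]
            exact pow_le_pow_left₀ (by positivity) hy1 k
          have e5 : R ^ k / 8 ^ k ≤ R ^ k / 2 := by
            gcongr
            calc (2 : ℝ) ≤ 8 ^ 1 := by norm_num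
              _ ≤ 8 ^ k := pow_le_pow_right₀ (by norm_num) (by omega)
          have e6 : R ^ k / 4 ^ k ≤ R ^ k / 2 := by
            gcongr
            calc (2 : ℝ) ≤ 4 ^ 1 := by norm_num
              _ ≤ 4 ^ k := pow_le_pow_right₀ (by norm_num) (by omega)
          push_cast
          rw [hRk] at e2 e4 e5 e6
          linarith
        exact_mod_cast h1
      · refine ⟨Fin.cons x z, fun i => ?_, ?_⟩
        · refine Fin.cases ?_ (fun i => ?_) i
          · simp only [Fin.cons_zero]; omega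
          · simp only [Fin.cons_succ]; exact hz1 i
        · rw [Fin.sum_univ_succ]
          simp only [Fin.cons_zero, Fin.cons_succ]
          rw [hz2]
    · rw [card_image_of_injOn, card_product, Nat.card_Ico]
      · have h1 : 2 * y - y = y := by omega
        rw [h1]
        push_cast
        have hy0R : (0 : ℝ) < y := by exact_mod_cast hy0
        have hθu : 0 ≤ 1 - θ ^ (u + 1) := by
          have := pow_le_one₀ (n := u + 1) hθ0 hθ1
          linarith
        have hθu1 : 1 - θ ^ (u + 1) ≤ 1 := by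
          have : 0 ≤ θ ^ (u + 1) := by positivity
          linarith
        have h2 : c * (y : ℝ) ^ ((k : ℝ) * (1 - θ ^ (u + 1))) ≤ y * A.card := by
          have h3 : (y : ℝ) ^ ((k : ℝ) * (1 - θ ^ (u + 1))) =
              y * (((y ^ (k - 1) : ℕ) : ℝ)) ^ (1 - θ ^ u) := by
            push_cast
            rw [← Real.rpow_natCast (y : ℝ) (k - 1), ← Real.rpow_mul hy0R.le]
            nth_rewrite 2 [← Real.rpow_one (y : ℝ)]
            rw [← Real.rpow_add hy0R]
            congr 1
            rw [Nat.cast_sub (by omega), pow_succ]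
            push_cast
            have h4 : (k : ℝ) * θ = k - 1 := by
              rw [hθ]; field_simp
            calc (k : ℝ) * (1 - θ ^ u * θ) = k - θ ^ u * (k * θ) := by ring
              _ = _ := by rw [h4]; ring
          rw [h3]
          calc c * (y * (((y ^ (k - 1) : ℕ) : ℝ)) ^ (1 - θ ^ u)) =
              y * (c * (((y ^ (k - 1) : ℕ) : ℝ)) ^ (1 - θ ^ u)) := by ring
            _ ≤ y * A.card := by gcongr
        refine le_trans ?_ h2
        rw [div_mul_eq_mul_div, mul_div_assoc]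
        gcongr
        calc (X : ℝ) ^ (1 - θ ^ (u + 1)) / 16 ^ k = (R ^ k) ^ (1 - θ ^ (u + 1)) / 16 ^ k := by rw [hRk]
          _ ≤ (R ^ k) ^ (1 - θ ^ (u + 1)) / (16 ^ k : ℝ) ^ (1 - θ ^ (u + 1)) := by
              gcongr
              calc ((16 : ℝ) ^ k) ^ (1 - θ ^ (u + 1)) ≤ ((16 : ℝ) ^ k) ^ (1 : ℝ) := by
                    apply Real.rpow_le_rpow_of_exponent_le _ hθu1
                    exact one_le_pow₀ (by norm_num)
                _ = 16 ^ k := Real.rpow_one _
          _ = ((R / 16) ^ k) ^ (1 - θ ^ (u + 1)) := by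
              rw [← Real.div_rpow (by positivity) (by positivity), div_pow]
          _ ≤ ((y : ℝ) ^ k) ^ (1 - θ ^ (u + 1)) := by gcongr
          _ = _ := by
              rw [← Real.rpow_natCast (y : ℝ) k, ← Real.rpow_mul hy0R.le]
      · rintro ⟨x, b⟩ hp ⟨x', b'⟩ hp' heq
        rw [mem_coe, mem_product, mem_Ico] at hp hp'
        simp only at hp hp' heq
        have hb := (hA1 b hp.2).1
        have hb' := (hA1 b' hp'.2).1
        have h1 := hgp x hp.1.1
        have h2 := hgp x' hp'.1.1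
        have h3 := gp_add k x
        have h4 := gp_add k x'
        have hxx : x = x' := by
          by_contra hne
          rcases Nat.lt_or_gt_of_ne hne with hlt | hlt
          · have h5 : (x + 1) ^ k ≤ x' ^ k := Nat.pow_le_pow_left hlt k
            omega
          · have h5 : (x' + 1) ^ k ≤ x ^ k := Nat.pow_le_pow_left hlt k
            omega
        subst hxx
        have : b = b' := by omega
        rw [this]

end Pool.Agent.X30.PQ
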