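import Mathlib
import Pool.Agent.X30.WP3
import Pool.Agent.X30.PP1

/-!
# Sums of elements of a fixed set and random elements of the gaps of the `k`-th powers
-/

set_option autoImplicit false

namespace Pool.Agent.X30.PQ

open Finset MeasureTheory ProbabilityTheory
open Pool.Agent.X30.WP (gp gp_add gp_ge gp_pos gp_mono gp_le)
open Pool.Agent.X30.PP (cond_bound upper_tail lower_tail)

open Classical in
/-- the number of representations of `v` as `a + ∑ (x_l ^ k + w x_l)`, `a ∈ A`, `x_l ∈ C l` -/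
noncomputable def hh (k : ℕ) (C : ℕ → Finset ℕ) (A : Finset ℕ) (w : ℕ → ℕ) : ℕ → ℤ → ℕ
  | 0, v => if ∃ a ∈ A, (a : ℤ) = v then 1 else 0
  | i + 1, v => ∑ x ∈ C i, hh k C A w i (v - ((x ^ k + w x : ℕ) : ℤ))

lemma hh_succ (k : ℕ) (C : ℕ → Finset ℕ) (A : Finset ℕ) (w : ℕ → ℕ) (i : ℕ) (v : ℤ) :
    hh k C A w (i + 1) v = ∑ x ∈ C i, hh k C A w i (v - ((x ^ k + w x : ℕ) : ℤ)) := rfl

lemma hh_congr (k : ℕ) (C : ℕ → Finset ℕ) (A : Finset ℕ) (w w' : ℕ → ℕ) (i : ℕ)
    (h : ∀ i' < i, ∀ x ∈ C i', w x = w' x) : hh k C A w i = hh k C A w' i := by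
  induction i with
  | zero => rfl
  | succ i ih =>
    have ih' := ih fun i' hi' => h i' (by omega)
    funext v
    rw [hh_succ, hh_succ, ih']
    refine sum_congr rfl fun x hx => ?_
    rw [h i (by omega) x hx]

lemma hh_zero_le_one (k : ℕ) (C : ℕ → Finset ℕ) (A : Finset ℕ) (w : ℕ → ℕ) (v : ℤ) :
    hh k C A w 0 v ≤ 1 := by
  simp only [hh]
  split_ifs <;> omega

lemma hh_neg (k : ℕ) (C : ℕ → Finset ℕ) (A : Finset ℕ) (w : ℕ → ℕ) (i : ℕ) (v : ℤ) (hv : v < 0) :
    hh k C A w i v = 0 := by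
  induction i generalizing v with
  | zero =>
    simp only [hh]
    rw [if_neg]
    rintro ⟨a, _, ha⟩
    omega
  | succ i ih =>
    rw [hh_succ]
    refine sum_eq_zero fun x _ => ih _ ?_
    have : (0 : ℤ) ≤ ((x ^ k + w x : ℕ) : ℤ) := by positivity
    omega

lemma mass_le (k : ℕ) (C : ℕ → Finset ℕ) (A : Finset ℕ) (w : ℕ → ℕ) (q i : ℕ)
    (hC : ∀ i' < i, (C i').card = q) (S : Finset ℕ) (v : ℤ) :
    ∑ y ∈ S, hh k C A w i (v - y) ≤ A.card * q ^ i := by
  classical
  induction i generalizing v with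
  | zero =>
    simp only [hh, pow_zero, mul_one]
    rw [← card_filter]
    apply card_le_card_of_injOn (fun y : ℕ => (v - (y : ℤ)).toNat)
    · intro y hy
      rw [mem_coe, mem_filter] at hy
      obtain ⟨_, a, ha, hav⟩ := hy
      show (v - (y : ℤ)).toNat ∈ (A : Set ℕ)
      rw [← hav, Int.toNat_natCast]
      exact ha
    · intro y hy y' hy' heq
      rw [mem_coe, mem_filter] at hy hy'
      obtain ⟨_, a, ha, hav⟩ := hy
      obtain ⟨_, a', ha', hav'⟩ := hy'
      simp only at heq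
      rw [← hav, ← hav', Int.toNat_natCast, Int.toNat_natCast] at heq
      omega
  | succ i ih =>
    simp only [hh_succ]
    rw [sum_comm]
    calc ∑ x ∈ C i, ∑ y ∈ S, hh k C A w i (v - y - ((x ^ k + w x : ℕ) : ℤ))
        ≤ ∑ x ∈ C i, A.card * q ^ i := by
          refine sum_le_sum fun x _ => ?_
          refine le_trans (le_of_eq ?_) (ih (fun i' hi' => hC i' (by omega)) (v - ((x ^ k + w x : ℕ) : ℤ)))
          refine sum_congr rfl fun y _ => ?_
          congr 1
          ring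
      _ = A.card * q ^ (i + 1) := by
          rw [sum_const, smul_eq_mul, hC i (by omega), pow_succ]; ring

lemma mass_ge (k : ℕ) (C : ℕ → Finset ℕ) (A : Finset ℕ) (w : ℕ → ℕ) (q i : ℕ)
    (hC : ∀ i' < i, (C i').card = q) (H U P Q : ℕ) (hH : ∀ i' < i, ∀ x ∈ C i', x ^ k + w x ≤ H)
    (hA : ∀ a ∈ A, a ≤ U) (v : ℤ) (hv1 : v < Q) (hv2 : ((P + U + i * H : ℕ) : ℤ) ≤ v) :
    A.card * q ^ i ≤ ∑ y ∈ Ico P Q, hh k C A w i (v - y) := by
  classical
  induction i generalizing v with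
  | zero =>
    simp only [hh, pow_zero, mul_one]
    rw [← card_filter]
    apply card_le_card_of_injOn (fun a : ℕ => (v - (a : ℤ)).toNat)
    · intro a ha
      rw [mem_coe] at ha
      rw [mem_coe, mem_filter, mem_Ico]
      have h1 := hA a ha
      have h2 : ((v - a).toNat : ℤ) = v - a := Int.toNat_of_nonneg (by push_cast at hv2; omega)
      refine ⟨⟨?_, ?_⟩, a, ha, by rw [h2]; ring⟩
      · have : (P : ℤ) ≤ ((v - a).toNat : ℤ) := by rw [h2]; push_cast at hv2; omega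
        exact_mod_cast this
      · have : ((v - a).toNat : ℤ) < Q := by rw [h2]; omega
        exact_mod_cast this
    · intro a ha a' ha' heq
      rw [mem_coe] at ha ha'
      have h1 := hA a ha
      have h1' := hA a' ha'
      simp only at heq
      have h2 : ((v - a).toNat : ℤ) = v - a := Int.toNat_of_nonneg (by push_cast at hv2; omega)
      have h2' : ((v - a').toNat : ℤ) = v - a' := Int.toNat_of_nonneg (by push_cast at hv2; omega)
      rw [heq, h2'] at h2
      omega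
  | succ i ih =>
    simp only [hh_succ]
    rw [sum_comm]
    calc A.card * q ^ (i + 1) = ∑ x ∈ C i, A.card * q ^ i := by
          rw [sum_const, smul_eq_mul, hC i (by omega), pow_succ]; ring
      _ ≤ ∑ x ∈ C i, ∑ y ∈ Ico P Q, hh k C A w i (v - y - ((x ^ k + w x : ℕ) : ℤ)) := by
          refine sum_le_sum fun x hx => ?_
          have hx1 := hH i (by omega) x hx
          refine (ih (fun i' hi' => hC i' (by omega)) (fun i' hi' => hH i' (by omega))
            (v - ((x ^ k + w x : ℕ) : ℤ)) ?_ ?_).trans (le_of_eq ?_)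
          · have : (0 : ℤ) ≤ ((x ^ k + w x : ℕ) : ℤ) := by positivity
            omega
          · have h2 : ((x ^ k + w x : ℕ) : ℤ) ≤ H := by exact_mod_cast hx1
            have h3 : ((P + U + (i + 1) * H : ℕ) : ℤ) = ((P + U + i * H : ℕ) : ℤ) + H := by
              push_cast; ring
            rw [h3] at hv2
            omega
          · refine sum_congr rfl fun y _ => ?_
            congr 1
            ring

lemma exists_of_hh_pos (k : ℕ) (C : ℕ → Finset ℕ) (A : Finset ℕ) (w : ℕ → ℕ) (i : ℕ) (v : ℤ)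
    (h : 0 < hh k C A w i v) :
    ∃ a ∈ A, ∃ x : Fin i → ℕ, (∀ l, ∃ i', x l ∈ C i') ∧ ((a + ∑ l, ((x l) ^ k + w (x l)) : ℕ) : ℤ) = v := by
  induction i generalizing v with
  | zero =>
    simp only [hh] at h
    split_ifs at h with h1
    · obtain ⟨a, ha, hav⟩ := h1
      exact ⟨a, ha, Fin.elim0, fun l => l.elim0, by simpa using hav⟩
    · omega
  | succ i ih =>
    rw [hh_succ] at h
    obtain ⟨x, hx, hpos⟩ := exists_ne_zero_of_sum_ne_zero h.ne'
    obtain ⟨a, ha, y, hy1, hy2⟩ := ih _ (Nat.pos_of_ne_zero hpos)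
    refine ⟨a, ha, Fin.snoc y x, fun l => ?_, ?_⟩
    · refine Fin.lastCases ?_ (fun l => ?_) l
      · simp only [Fin.snoc_last]
        exact ⟨i, hx⟩
      · simp only [Fin.snoc_castSucc]
        exact hy1 l
    · rw [Fin.sum_univ_castSucc]
      simp only [Fin.snoc_castSucc, Fin.snoc_last]
      push_cast at hy2 ⊢
      linarith

/-- the windows `[x ^ k, (x + 1) ^ k)` tile -/
lemma tile {M : Type*} [AddCommMonoid M] (k a b : ℕ) (hab : a ≤ b) (F : ℕ → M) :
    ∑ x ∈ Ico a b, ∑ d ∈ range (gp k x), F (x ^ k + d) = ∑ y ∈ Ico (a ^ k) (b ^ k), F y := by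
  induction b, hab using Nat.le_induction with
  | base => simp
  | succ n hn ih =>
    rw [sum_Ico_succ_top hn, ih]
    have h1 : n ^ k ≤ (n + 1) ^ k := Nat.pow_le_pow_left (by omega) k
    have h2 : a ^ k ≤ n ^ k := Nat.pow_le_pow_left hn k
    rw [← sum_Ico_consecutive F h2 h1]
    congr 1
    rw [sum_Ico_eq_sum_range]
    rfl

variable {Ω : Type*} [MeasurableSpace Ω] {μ : Measure Ω} [IsProbabilityMeasure μ]

/-- extension by zero -/
def ext0 (B : Finset ℕ) (b : B → ℕ) (n : ℕ) : ℕ := if h : n ∈ B then b ⟨n, h⟩ else 0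

lemma hh_ext (k : ℕ) (C : ℕ → Finset ℕ) (A : Finset ℕ) (M i : ℕ)
    (hM : ∀ i' < i, ∀ x ∈ C i', x < M) (hdisj : ∀ i' < i, ∀ x ∈ C i', x ∉ C i) (w : ℕ → ℕ) :
    hh k C A (ext0 (range M \ C i) (fun n => w n)) i = hh k C A w i := by
  apply hh_congr
  intro i' hi' x hx
  have hB : x ∈ range M \ C i := by
    rw [mem_sdiff, mem_range]
    exact ⟨hM i' hi' x hx, hdisj i' hi' x hx⟩
  unfold ext0
  rw [dif_pos hB]

lemma step_prob (δ : ℕ → Ω → ℕ) (hm : ∀ m, Measurable (δ m)) (hind : iIndepFun δ μ)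
    (k : ℕ) (hk : 1 ≤ k)
    (hu : ∀ m, ∀ d < gp k m, μ {ω | δ m ω = d} = 1 / (gp k m : ENNReal))
    (C : ℕ → Finset ℕ) (A : Finset ℕ) (M i q a b : ℕ) (hab : a ≤ b) (hCi : C i = Ico a b)
    (hCq : ∀ i' < i, (C i').card = q)
    (hM : ∀ i' < i, ∀ x ∈ C i', x < M) (hdisj : ∀ i' < i, ∀ x ∈ C i', x ∉ C i)
    (hG : A.card * q ^ i ≤ gp k a) (T K : ℕ) (hT : 1 ≤ T) (hK : 1 ≤ K)
    (V1 : ℤ) (v : ℤ) (hv : v ≤ V1) :
    μ {ω | (∀ u ≤ V1, hh k C A (fun n => δ n ω) i u ≤ K) ∧
      13 * T * K < hh k C A (fun n => δ n ω) (i + 1) v} ≤ ENNReal.ofReal (Real.exp (-(T : ℝ))) := by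
  classical
  have hD : ∀ m, 1 ≤ gp k m := fun m => gp_pos k m hk
  set A' : Finset ℕ := C i with hA'
  set B : Finset ℕ := range M \ A' with hB
  set Q : (B → ℕ) → Set (A' → ℕ) := fun b => {α | (∀ u ≤ V1, hh k C A (ext0 B b) i u ≤ K) ∧
    13 * T * K < ∑ x : A', hh k C A (ext0 B b) i (v - (((x : ℕ) ^ k + α x : ℕ) : ℤ))} with hQ
  have hsub : {ω | (∀ u ≤ V1, hh k C A (fun n => δ n ω) i u ≤ K) ∧
      13 * T * K < hh k C A (fun n => δ n ω) (i + 1) v} =
      {ω | (fun x : A' => δ x ω) ∈ Q (fun x : B => δ x ω)} := by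
    ext ω
    simp only [hQ, Set.mem_ofPred_eq]
    have h1 : hh k C A (ext0 B (fun x : B => δ x ω)) i = hh k C A (fun n => δ n ω) i :=
      hh_ext k C A M i hM hdisj (fun n => δ n ω)
    rw [h1, hh_succ]
    have h2 : ∑ x ∈ C i, hh k C A (fun n => δ n ω) i (v - ((x ^ k + δ x ω : ℕ) : ℤ)) =
        ∑ x : A', hh k C A (fun n => δ n ω) i (v - (((x : ℕ) ^ k + δ x ω : ℕ) : ℤ)) := by
      rw [← hA', ← Finset.sum_coe_sort A']
    rw [h2]
  rw [hsub]
  apply cond_bound δ hm hind A' B sdiff_disjoint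
  intro b'
  by_cases hb : ∀ u ≤ V1, hh k C A (ext0 B b') i u ≤ K
  · have hK0 : (0 : ℝ) < K := by exact_mod_cast hK
    set g : ℕ → ℕ → ℝ := fun x d => (hh k C A (ext0 B b') i (v - ((x ^ k + d : ℕ) : ℤ)) : ℝ) / K with hg
    have hg0 : ∀ x d, 0 ≤ g x d := fun x d => by simp only [hg]; positivity
    have hGpos : (0 : ℝ) < gp k a := by exact_mod_cast hD a
    have h1 := upper_tail δ hm hind (gp k) hD hu A' g (fun x _ d => hg0 x d)
      (fun x _ d => by
        simp only [hg]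
        rw [div_le_one hK0]
        have : hh k C A (ext0 B b') i (v - ((x ^ k + d : ℕ) : ℤ)) ≤ K := by
          apply hb
          have : (0 : ℤ) ≤ ((x ^ k + d : ℕ) : ℤ) := by positivity
          omega
        exact_mod_cast this) (13 * T) 1 (by
        have h2 : ∀ x ∈ A', (∑ d ∈ range (gp k x), g x d) / gp k x ≤ (∑ d ∈ range (gp k x), g x d) / gp k a := by
          intro x hx
          rw [hCi, mem_Ico] at hx
          have h3 : (gp k a : ℝ) ≤ gp k x := by exact_mod_cast gp_mono k hx.1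
          have h4 : 0 ≤ ∑ d ∈ range (gp k x), g x d := sum_nonneg fun d _ => hg0 x d
          gcongr
        refine (sum_le_sum h2).trans ?_
        rw [← sum_div, div_le_one hGpos, hCi]
        have h3 := tile k a b hab (fun y => (hh k C A (ext0 B b') i (v - (y : ℤ)) : ℝ) / K)
        have h4 : ∑ x ∈ Ico a b, ∑ d ∈ range (gp k x), g x d =
            ∑ y ∈ Ico (a ^ k) (b ^ k), (hh k C A (ext0 B b') i (v - (y : ℤ)) : ℝ) / K := by
          rw [← h3]
        rw [h4, ← sum_div]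
        have h5 := mass_le k C A (ext0 B b') q i hCq (Ico (a ^ k) (b ^ k)) v
        have h6 : (∑ y ∈ Ico (a ^ k) (b ^ k), (hh k C A (ext0 B b') i (v - (y : ℤ)) : ℝ)) ≤ gp k a := by
          exact_mod_cast h5.trans hG
        have hK1 : (1 : ℝ) ≤ K := by exact_mod_cast hK
        rw [div_le_iff₀ hK0]
        nlinarith)
    have h2 : {ω | (fun x : A' => δ x ω) ∈ Q b'} ⊆ {ω | 13 * (T : ℝ) ≤ ∑ x ∈ A', g x (δ x ω)} := by
      intro ω hω
      simp only [hQ, Set.mem_ofPred_eq] at hω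
      rw [Set.mem_ofPred_eq]
      simp only [hg]
      rw [← sum_div, le_div_iff₀ hK0, ← Finset.sum_coe_sort A']
      exact_mod_cast hω.2.le
    rw [← ofReal_measureReal (μ := μ) (s := {ω | (fun x : A' => δ x ω) ∈ Q b'}) (measure_ne_top μ _)]
    apply ENNReal.ofReal_le_ofReal
    refine (measureReal_mono h2).trans (h1.trans ?_)
    rw [Real.exp_le_exp]
    have hT' : (1 : ℝ) ≤ T := by exact_mod_cast hT
    linarith
  · have h1 : {ω | (fun x : A' => δ x ω) ∈ Q b'} = ∅ := by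
      ext ω
      simp only [hQ, Set.mem_ofPred_eq, Set.mem_empty_iff_false, iff_false]
      intro h
      exact hb h.1
    rw [h1, measure_empty]
    exact zero_le

lemma final_prob (δ : ℕ → Ω → ℕ) (hm : ∀ m, Measurable (δ m)) (hind : iIndepFun δ μ)
    (k : ℕ) (hk : 1 ≤ k)
    (hu : ∀ m, ∀ d < gp k m, μ {ω | δ m ω = d} = 1 / (gp k m : ENNReal))
    (C : ℕ → Finset ℕ) (A : Finset ℕ) (M i q a b : ℕ) (hab : a ≤ b) (hCi : C i = Ico a b)
    (hCq : ∀ i' < i, (C i').card = q)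
    (hM : ∀ i' < i, ∀ x ∈ C i', x < M) (hdisj : ∀ i' < i, ∀ x ∈ C i', x ∉ C i)
    (H U : ℕ) (hH : ∀ i' < i, ∀ x ∈ C i', (x + 1) ^ k ≤ H)
    (hA : ∀ a ∈ A, a ≤ U) (K : ℕ) (hK : 1 ≤ K) (V1 : ℤ) (v : ℤ) (hv : v ≤ V1) (hv1 : v < (b ^ k : ℕ))
    (hv2 : ((a ^ k + U + i * H : ℕ) : ℤ) ≤ v) :
    μ {ω | (∀ m, δ m ω < gp k m) ∧ (∀ u ≤ V1, hh k C A (fun n => δ n ω) i u ≤ K) ∧
      hh k C A (fun n => δ n ω) (i + 1) v = 0} ≤
        ENNReal.ofReal (Real.exp (-((A.card : ℝ) * (q : ℝ) ^ i / (K * gp k b) / 2))) := by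
  classical
  have hD : ∀ m, 1 ≤ gp k m := fun m => gp_pos k m hk
  set A' : Finset ℕ := C i with hA'
  set B : Finset ℕ := range M \ A' with hB
  set Q : (B → ℕ) → Set (A' → ℕ) := fun b => {α | (∀ m, ext0 B b m < gp k m) ∧
    (∀ u ≤ V1, hh k C A (ext0 B b) i u ≤ K) ∧
    ∑ x : A', hh k C A (ext0 B b) i (v - (((x : ℕ) ^ k + α x : ℕ) : ℤ)) = 0} with hQ
  have hsub : {ω | (∀ m, δ m ω < gp k m) ∧ (∀ u ≤ V1, hh k C A (fun n => δ n ω) i u ≤ K) ∧
      hh k C A (fun n => δ n ω) (i + 1) v = 0} ⊆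
      {ω | (fun x : A' => δ x ω) ∈ Q (fun x : B => δ x ω)} := by
    intro ω hω
    simp only [hQ, Set.mem_ofPred_eq] at hω ⊢
    have h1 : hh k C A (ext0 B (fun x : B => δ x ω)) i = hh k C A (fun n => δ n ω) i :=
      hh_ext k C A M i hM hdisj (fun n => δ n ω)
    rw [hh_succ] at hω
    have h2 : ∑ x ∈ C i, hh k C A (fun n => δ n ω) i (v - ((x ^ k + δ x ω : ℕ) : ℤ)) =
        ∑ x : A', hh k C A (fun n => δ n ω) i (v - (((x : ℕ) ^ k + δ x ω : ℕ) : ℤ)) := by
      rw [← hA', ← Finset.sum_coe_sort A']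
    rw [h2] at hω
    rw [h1]
    refine ⟨?_, hω.2⟩
    intro n
    unfold ext0
    split_ifs with h3
    · exact hω.1 n
    · exact hD n
  refine (measure_mono hsub).trans ?_
  apply cond_bound δ hm hind A' B sdiff_disjoint
  intro b'
  by_cases hb : (∀ m, ext0 B b' m < gp k m) ∧ ∀ u ≤ V1, hh k C A (ext0 B b') i u ≤ K
  · have hK0 : (0 : ℝ) < K := by exact_mod_cast hK
    have hbpos : (0 : ℝ) < gp k b := by exact_mod_cast hD b
    have hH' : ∀ i' < i, ∀ x ∈ C i', x ^ k + ext0 B b' x ≤ H := by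
      intro i' hi' x hx
      have h1 := hH i' hi' x hx
      have h2 := hb.1 x
      have h3 := gp_add k x
      omega
    set g : ℕ → ℕ → ℝ := fun x d =>
      if 0 < hh k C A (ext0 B b') i (v - ((x ^ k + d : ℕ) : ℤ)) then 1 else 0 with hg
    have hg0 : ∀ x d, 0 ≤ g x d := fun x d => by simp only [hg]; split_ifs <;> norm_num
    have hgK : ∀ x d, (hh k C A (ext0 B b') i (v - ((x ^ k + d : ℕ) : ℤ)) : ℝ) / K ≤ g x d := by
      intro x d
      simp only [hg]
      split_ifs with h1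
      · rw [div_le_one hK0]
        have : hh k C A (ext0 B b') i (v - ((x ^ k + d : ℕ) : ℤ)) ≤ K := by
          apply hb.2
          have : (0 : ℤ) ≤ ((x ^ k + d : ℕ) : ℤ) := by positivity
          omega
        exact_mod_cast this
      · have : hh k C A (ext0 B b') i (v - ((x ^ k + d : ℕ) : ℤ)) = 0 := by omega
        rw [this]
        simp
    have h1 := lower_tail δ hm hind (gp k) hD hu A' g (fun x _ d => hg0 x d)
      (fun x _ d => by simp only [hg]; split_ifs <;> norm_num)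
      ((A.card : ℝ) * (q : ℝ) ^ i / (K * gp k b)) (by
        have h2 : ∀ x ∈ A', (∑ d ∈ range (gp k x), g x d) / gp k b ≤ (∑ d ∈ range (gp k x), g x d) / gp k x := by
          intro x hx
          rw [hCi, mem_Ico] at hx
          have h3 : (gp k x : ℝ) ≤ gp k b := by exact_mod_cast gp_mono k hx.2.le
          have h4 : 0 ≤ ∑ d ∈ range (gp k x), g x d := sum_nonneg fun d _ => hg0 x d
          have h5 : (0 : ℝ) < gp k x := by exact_mod_cast hD x
          gcongr
        refine le_trans ?_ (sum_le_sum h2)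
        rw [← sum_div, ← div_div]
        gcongr
        rw [hCi]
        have h3 := tile k a b hab (fun y => (hh k C A (ext0 B b') i (v - (y : ℤ)) : ℝ) / K)
        have h4 : ∑ y ∈ Ico (a ^ k) (b ^ k), (hh k C A (ext0 B b') i (v - (y : ℤ)) : ℝ) / K ≤
            ∑ x ∈ Ico a b, ∑ d ∈ range (gp k x), g x d := by
          rw [← h3]
          exact sum_le_sum fun x _ => sum_le_sum fun d _ => hgK x d
        refine le_trans ?_ h4
        rw [← sum_div]
        gcongr
        have h5 := mass_ge k C A (ext0 B b') q i hCq H U (a ^ k) (b ^ k) hH' hA v hv1 hv2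
        exact_mod_cast h5)
    have h2 : {ω | (fun x : A' => δ x ω) ∈ Q b'} ⊆ {ω | ∑ x ∈ A', g x (δ x ω) ≤ 0} := by
      intro ω hω
      simp only [hQ, Set.mem_ofPred_eq] at hω
      rw [Set.mem_ofPred_eq]
      have h3 := hω.2.2
      rw [Finset.sum_eq_zero_iff] at h3
      refine le_of_eq (sum_eq_zero fun x hx => ?_)
      have h4 := h3 ⟨x, hx⟩ (mem_univ _)
      simp only at h4
      simp only [hg]
      rw [if_neg]
      rw [h4]
      exact lt_irrefl 0
    rw [← ofReal_measureReal (μ := μ) (s := {ω | (fun x : A' => δ x ω) ∈ Q b'}) (measure_ne_top μ _)]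
    apply ENNReal.ofReal_le_ofReal
    exact (measureReal_mono h2).trans h1
  · have h1 : {ω | (fun x : A' => δ x ω) ∈ Q b'} = ∅ := by
      ext ω
      simp only [hQ, Set.mem_ofPred_eq, Set.mem_empty_iff_false, iff_false]
      intro h
      exact hb ⟨h.1, h.2.1⟩
    rw [h1, measure_empty]
    exact zero_le

end Pool.Agent.X30.PQ
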