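import Mathlib
import Pool.Agent.X30.PQ2

/-!
# Window lemmas: a locally dense set plus perturbed powers
-/

set_option autoImplicit false

namespace Pool.Agent.X30.PQ

open Finset MeasureTheory ProbabilityTheory
open Pool.Agent.X30.PP (cond_bound upper_tail lower_tail)

lemma win_le (k : ℕ) (C : ℕ → Finset ℕ) (A : Finset ℕ) (w : ℕ → ℕ) (q W R i : ℕ)
    (hC : ∀ i' < i, (C i').card = q)
    (h0 : ∀ v : ℤ, ∑ d ∈ range W, hh k C A w 0 (v - d) ≤ R) (v : ℤ) :
    ∑ d ∈ range W, hh k C A w i (v - d) ≤ R * q ^ i := by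
  induction i generalizing v with
  | zero => simpa using h0 v
  | succ i ih =>
    simp only [hh_succ]
    rw [sum_comm]
    calc ∑ x ∈ C i, ∑ d ∈ range W, hh k C A w i (v - d - ((x ^ k + w x : ℕ) : ℤ))
        ≤ ∑ x ∈ C i, R * q ^ i := by
          refine sum_le_sum fun x _ => ?_
          refine le_trans (le_of_eq ?_) (ih (fun i' hi' => hC i' (by omega)) (v - ((x ^ k + w x : ℕ) : ℤ)))
          refine sum_congr rfl fun y _ => ?_
          congr 1
          ring
      _ = R * q ^ (i + 1) := by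
          rw [sum_const, smul_eq_mul, hC i (by omega), pow_succ]; ring

lemma win_ge (k : ℕ) (C : ℕ → Finset ℕ) (A : Finset ℕ) (w : ℕ → ℕ) (q W R i H : ℕ) (V0 V1 : ℤ)
    (hC : ∀ i' < i, (C i').card = q) (hH : ∀ i' < i, ∀ x ∈ C i', x ^ k + w x ≤ H)
    (h0 : ∀ v : ℤ, V0 ≤ v → v ≤ V1 → R ≤ ∑ d ∈ range W, hh k C A w 0 (v - d)) (v : ℤ)
    (hv1 : V0 + ((i * H : ℕ) : ℤ) ≤ v) (hv2 : v ≤ V1) :
    R * q ^ i ≤ ∑ d ∈ range W, hh k C A w i (v - d) := by
  induction i generalizing v with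
  | zero => simpa using h0 v (by simpa using hv1) hv2
  | succ i ih =>
    simp only [hh_succ]
    rw [sum_comm]
    calc R * q ^ (i + 1) = ∑ x ∈ C i, R * q ^ i := by
          rw [sum_const, smul_eq_mul, hC i (by omega), pow_succ]; ring
      _ ≤ ∑ x ∈ C i, ∑ d ∈ range W, hh k C A w i (v - d - ((x ^ k + w x : ℕ) : ℤ)) := by
          refine sum_le_sum fun x hx => ?_
          have hx1 := hH i (by omega) x hx
          have hx2 : ((x ^ k + w x : ℕ) : ℤ) ≤ H := by exact_mod_cast hx1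
          have hx3 : (0 : ℤ) ≤ ((x ^ k + w x : ℕ) : ℤ) := by positivity
          have hx4 : (((i + 1) * H : ℕ) : ℤ) = ((i * H : ℕ) : ℤ) + H := by push_cast; ring
          rw [hx4] at hv1
          refine (ih (fun i' hi' => hC i' (by omega)) (fun i' hi' => hH i' (by omega))
            (v - ((x ^ k + w x : ℕ) : ℤ)) (by omega) (by omega)).trans (le_of_eq ?_)
          refine sum_congr rfl fun y _ => ?_
          congr 1
          ring

variable {Ω : Type*} [MeasurableSpace Ω] {μ : Measure Ω} [IsProbabilityMeasure μ]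

lemma step_probW (δ : ℕ → Ω → ℕ) (hm : ∀ m, Measurable (δ m)) (hind : iIndepFun δ μ)
    (Dm : ℕ → ℕ) (hD : ∀ m, 1 ≤ Dm m)
    (hu : ∀ m, ∀ d < Dm m, μ {ω | δ m ω = d} = 1 / (Dm m : ENNReal))
    (k : ℕ) (C : ℕ → Finset ℕ) (A : Finset ℕ) (M i q W B0 : ℕ) (hW : 1 ≤ W)
    (hCq : ∀ i' ≤ i, (C i').card = q)
    (hM : ∀ i' < i, ∀ x ∈ C i', x < M) (hdisj : ∀ i' < i, ∀ x ∈ C i', x ∉ C i)
    (hDW : ∀ x ∈ C i, Dm x = W)
    (h0 : ∀ v : ℤ, ∑ d ∈ range W, hh k C A (fun _ => 0) 0 (v - d) ≤ 3 * B0)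
    (hG : B0 * q ^ (i + 1) ≤ W) (T K : ℕ) (hT : 1 ≤ T) (hK : 1 ≤ K)
    (V1 : ℤ) (v : ℤ) (hv : v ≤ V1) :
    μ {ω | (∀ u ≤ V1, hh k C A (fun n => δ n ω) i u ≤ K) ∧
      13 * T * K < hh k C A (fun n => δ n ω) (i + 1) v} ≤ ENNReal.ofReal (Real.exp (-(T : ℝ))) := by
  classical
  set A' : Finset ℕ := C i with hA'
  set B : Finset ℕ := range M \ A' with hB
  set Q : (B → ℕ) → Set (A' → ℕ) := fun b => {α | (∀ u ≤ V1, hh k C A (ext0 B b) i u ≤ K) ∧
    13 * T * K < ∑ x : A', hh k C A (ext0 B b) i (v - (((x : ℕ) ^ k + α x : ℕ) : ℤ))} with hQ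
  have hsub : {ω | (∀ u ≤ V1, hh k C A (fun n => δ n ω) i u ≤ K) ∧
      13 * T * K < hh k C A (fun n => δ n ω) (i + 1) v} =
      {ω | (fun x : A' => δ x ω) ∈ Q (fun x : B => δ x ω)} := by
    ext ω
    simp only [hQ, Set.mem_ofPred_eq]
    have h1 : hh k C A (ext0 B (fun x : B => δ x ω)) i = hh k C A (fun n => δ n ω) i :=
      hh_ext k C A M i hM hdisj (fun n => δ n ω)
    rw [h1, hh_succ]
    have h2 : ∑ x ∈ C i, hh k C A (fun n => δ n ω) i (v - ((x ^ k + δ x ω : ℕ) : ℤ)) =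
        ∑ x : A', hh k C A (fun n => δ n ω) i (v - (((x : ℕ) ^ k + δ x ω : ℕ) : ℤ)) := by
      rw [← hA', ← Finset.sum_coe_sort A']
    rw [h2]
  rw [hsub]
  apply cond_bound δ hm hind A' B sdiff_disjoint
  intro b'
  by_cases hb : ∀ u ≤ V1, hh k C A (ext0 B b') i u ≤ K
  · have hK0 : (0 : ℝ) < K := by exact_mod_cast hK
    have hW0 : (0 : ℝ) < W := by exact_mod_cast hW
    set g : ℕ → ℕ → ℝ := fun x d => (hh k C A (ext0 B b') i (v - ((x ^ k + d : ℕ) : ℤ)) : ℝ) / K with hg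
    have hg0 : ∀ x d, 0 ≤ g x d := fun x d => by simp only [hg]; positivity
    have h1 := upper_tail δ hm hind Dm hD hu A' g (fun x _ d => hg0 x d)
      (fun x _ d => by
        simp only [hg]
        rw [div_le_one hK0]
        have : hh k C A (ext0 B b') i (v - ((x ^ k + d : ℕ) : ℤ)) ≤ K := by
          apply hb
          have : (0 : ℤ) ≤ ((x ^ k + d : ℕ) : ℤ) := by positivity
          omega
        exact_mod_cast this) (13 * T) (3 / K) (by
        have h2 : ∀ x ∈ A', (∑ d ∈ range (Dm x), g x d) / Dm x ≤ 3 * B0 * q ^ i / (K * W) := by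
          intro x hx
          have h3 := win_le k C A (ext0 B b') q W (3 * B0) i (fun i' hi' => hCq i' hi'.le)
            (fun v => by
              have := h0 v
              exact this) (v - ((x ^ k : ℕ) : ℤ))
          have h4 : ∑ d ∈ range (Dm x), g x d =
              ((∑ d ∈ range W, hh k C A (ext0 B b') i (v - ((x ^ k : ℕ) : ℤ) - d) : ℕ) : ℝ) / K := by
            rw [hDW x hx]
            simp only [hg]
            rw [← sum_div]
            congr 1
            push_cast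
            refine sum_congr rfl fun d _ => ?_
            congr 2
            ring
          rw [h4, hDW x hx]
          have h5 : ((∑ d ∈ range W, hh k C A (ext0 B b') i (v - ((x ^ k : ℕ) : ℤ) - d) : ℕ) : ℝ) ≤
              3 * B0 * q ^ i := by exact_mod_cast h3
          rw [div_div]
          gcongr
        refine (sum_le_sum h2).trans ?_
        rw [sum_const, hA', hCq i le_rfl, nsmul_eq_mul]
        have h6 : (B0 : ℝ) * (q : ℝ) ^ (i + 1) ≤ W := by exact_mod_cast hG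
        calc (q : ℝ) * (3 * B0 * q ^ i / (K * W)) = 3 * (B0 * (q : ℝ) ^ (i + 1)) / (K * W) := by
              rw [pow_succ]; ring
          _ ≤ 3 * W / (K * W) := by gcongr
          _ = 3 / K := by field_simp)
    have h2 : {ω | (fun x : A' => δ x ω) ∈ Q b'} ⊆ {ω | 13 * (T : ℝ) ≤ ∑ x ∈ A', g x (δ x ω)} := by
      intro ω hω
      simp only [hQ, Set.mem_ofPred_eq] at hω
      rw [Set.mem_ofPred_eq]
      simp only [hg]
      rw [← sum_div, le_div_iff₀ hK0, ← Finset.sum_coe_sort A']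
      exact_mod_cast hω.2.le
    rw [← ofReal_measureReal (μ := μ) (s := {ω | (fun x : A' => δ x ω) ∈ Q b'}) (measure_ne_top μ _)]
    apply ENNReal.ofReal_le_ofReal
    refine (measureReal_mono h2).trans (h1.trans ?_)
    rw [Real.exp_le_exp]
    have hT' : (1 : ℝ) ≤ T := by exact_mod_cast hT
    have hK' : (1 : ℝ) ≤ K := by exact_mod_cast hK
    have h3 : 3 / (K : ℝ) ≤ 3 := by
      rw [div_le_iff₀ hK0]
      linarith
    linarith
  · have h1 : {ω | (fun x : A' => δ x ω) ∈ Q b'} = ∅ := by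
      ext ω
      simp only [hQ, Set.mem_ofPred_eq, Set.mem_empty_iff_false, iff_false]
      intro h
      exact hb h.1
    rw [h1, measure_empty]
    exact zero_le

lemma final_probW (δ : ℕ → Ω → ℕ) (hm : ∀ m, Measurable (δ m)) (hind : iIndepFun δ μ)
    (Dm : ℕ → ℕ) (hD : ∀ m, 1 ≤ Dm m)
    (hu : ∀ m, ∀ d < Dm m, μ {ω | δ m ω = d} = 1 / (Dm m : ENNReal))
    (k : ℕ) (C : ℕ → Finset ℕ) (A : Finset ℕ) (M i q W B0 : ℕ) (hW : 1 ≤ W)
    (hCq : ∀ i' ≤ i, (C i').card = q)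
    (hM : ∀ i' < i, ∀ x ∈ C i', x < M) (hdisj : ∀ i' < i, ∀ x ∈ C i', x ∉ C i)
    (hDW : ∀ x ∈ C i, Dm x = W) (H : ℕ) (hH : ∀ i' ≤ i, ∀ x ∈ C i', x ^ k + Dm x ≤ H) (V0 V1 : ℤ)
    (h0 : ∀ v : ℤ, V0 ≤ v → v ≤ V1 → B0 ≤ ∑ d ∈ range W, hh k C A (fun _ => 0) 0 (v - d))
    (K : ℕ) (hK : 1 ≤ K) (v : ℤ) (hv : v ≤ V1) (hv0 : V0 + (((i + 1) * H : ℕ) : ℤ) ≤ v) :
    μ {ω | (∀ m, δ m ω < Dm m) ∧ (∀ u ≤ V1, hh k C A (fun n => δ n ω) i u ≤ K) ∧
      hh k C A (fun n => δ n ω) (i + 1) v = 0} ≤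
        ENNReal.ofReal (Real.exp (-((B0 : ℝ) * (q : ℝ) ^ (i + 1) / (K * W) / 2))) := by
  classical
  set A' : Finset ℕ := C i with hA'
  set B : Finset ℕ := range M \ A' with hB
  set Q : (B → ℕ) → Set (A' → ℕ) := fun b => {α | (∀ m, ext0 B b m < Dm m) ∧
    (∀ u ≤ V1, hh k C A (ext0 B b) i u ≤ K) ∧
    ∑ x : A', hh k C A (ext0 B b) i (v - (((x : ℕ) ^ k + α x : ℕ) : ℤ)) = 0} with hQ
  have hsub : {ω | (∀ m, δ m ω < Dm m) ∧ (∀ u ≤ V1, hh k C A (fun n => δ n ω) i u ≤ K) ∧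
      hh k C A (fun n => δ n ω) (i + 1) v = 0} ⊆
      {ω | (fun x : A' => δ x ω) ∈ Q (fun x : B => δ x ω)} := by
    intro ω hω
    simp only [hQ, Set.mem_ofPred_eq] at hω ⊢
    have h1 : hh k C A (ext0 B (fun x : B => δ x ω)) i = hh k C A (fun n => δ n ω) i :=
      hh_ext k C A M i hM hdisj (fun n => δ n ω)
    rw [hh_succ] at hω
    have h2 : ∑ x ∈ C i, hh k C A (fun n => δ n ω) i (v - ((x ^ k + δ x ω : ℕ) : ℤ)) =
        ∑ x : A', hh k C A (fun n => δ n ω) i (v - (((x : ℕ) ^ k + δ x ω : ℕ) : ℤ)) := by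
      rw [← hA', ← Finset.sum_coe_sort A']
    rw [h2] at hω
    rw [h1]
    refine ⟨?_, hω.2⟩
    intro n
    unfold ext0
    split_ifs with h3
    · exact hω.1 n
    · exact hD n
  refine (measure_mono hsub).trans ?_
  apply cond_bound δ hm hind A' B sdiff_disjoint
  intro b'
  by_cases hb : (∀ m, ext0 B b' m < Dm m) ∧ ∀ u ≤ V1, hh k C A (ext0 B b') i u ≤ K
  · have hK0 : (0 : ℝ) < K := by exact_mod_cast hK
    have hW0 : (0 : ℝ) < W := by exact_mod_cast hW
    have hH' : ∀ i' < i, ∀ x ∈ C i', x ^ k + ext0 B b' x ≤ H := by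
      intro i' hi' x hx
      have h1 := hH i' hi'.le x hx
      have h2 := hb.1 x
      omega
    set g : ℕ → ℕ → ℝ := fun x d =>
      if 0 < hh k C A (ext0 B b') i (v - ((x ^ k + d : ℕ) : ℤ)) then 1 else 0 with hg
    have hg0 : ∀ x d, 0 ≤ g x d := fun x d => by simp only [hg]; split_ifs <;> norm_num
    have hgK : ∀ x d, (hh k C A (ext0 B b') i (v - ((x ^ k + d : ℕ) : ℤ)) : ℝ) / K ≤ g x d := by
      intro x d
      simp only [hg]
      split_ifs with h1
      · rw [div_le_one hK0]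
        have : hh k C A (ext0 B b') i (v - ((x ^ k + d : ℕ) : ℤ)) ≤ K := by
          apply hb.2
          have : (0 : ℤ) ≤ ((x ^ k + d : ℕ) : ℤ) := by positivity
          omega
        exact_mod_cast this
      · have : hh k C A (ext0 B b') i (v - ((x ^ k + d : ℕ) : ℤ)) = 0 := by omega
        rw [this]
        simp
    have h1 := lower_tail δ hm hind Dm hD hu A' g (fun x _ d => hg0 x d)
      (fun x _ d => by simp only [hg]; split_ifs <;> norm_num)
      ((B0 : ℝ) * (q : ℝ) ^ (i + 1) / (K * W)) (by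
        have h2 : ∀ x ∈ A', (B0 : ℝ) * (q : ℝ) ^ i / (K * W) ≤ (∑ d ∈ range (Dm x), g x d) / Dm x := by
          intro x hx
          have hxH := hH i le_rfl x hx
          have hxk2 : ((x ^ k : ℕ) : ℤ) ≤ H := by
            have : x ^ k ≤ H := by omega
            exact_mod_cast this
          have h3 := win_ge k C A (ext0 B b') q W B0 i H V0 V1 (fun i' hi' => hCq i' hi'.le) hH'
            (fun v h1 h2 => h0 v h1 h2) (v - ((x ^ k : ℕ) : ℤ)) (by
              have e1 : (((i + 1) * H : ℕ) : ℤ) = ((i * H : ℕ) : ℤ) + H := by push_cast; ring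
              rw [e1] at hv0
              omega) (by
              have : (0 : ℤ) ≤ ((x ^ k : ℕ) : ℤ) := by positivity
              omega)
          have h4 : ((∑ d ∈ range W, hh k C A (ext0 B b') i (v - ((x ^ k : ℕ) : ℤ) - d) : ℕ) : ℝ) / K ≤
              ∑ d ∈ range (Dm x), g x d := by
            rw [hDW x hx]
            push_cast
            rw [sum_div]
            refine sum_le_sum fun d _ => ?_
            refine le_trans (le_of_eq ?_) (hgK x d)
            congr 3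
            push_cast
            ring
          rw [hDW x hx] at h4 ⊢
          have h5 : (B0 : ℝ) * (q : ℝ) ^ i ≤
              ((∑ d ∈ range W, hh k C A (ext0 B b') i (v - ((x ^ k : ℕ) : ℤ) - d) : ℕ) : ℝ) := by
            exact_mod_cast h3
          rw [← div_div]
          gcongr
          refine le_trans ?_ h4
          gcongr
        calc (B0 : ℝ) * (q : ℝ) ^ (i + 1) / (K * W) = ∑ x ∈ A', (B0 : ℝ) * (q : ℝ) ^ i / (K * W) := by
              rw [sum_const, hA', hCq i le_rfl, nsmul_eq_mul, pow_succ]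
              ring
          _ ≤ _ := sum_le_sum h2)
    have h2 : {ω | (fun x : A' => δ x ω) ∈ Q b'} ⊆ {ω | ∑ x ∈ A', g x (δ x ω) ≤ 0} := by
      intro ω hω
      simp only [hQ, Set.mem_ofPred_eq] at hω
      rw [Set.mem_ofPred_eq]
      have h3 := hω.2.2
      rw [Finset.sum_eq_zero_iff] at h3
      refine le_of_eq (sum_eq_zero fun x hx => ?_)
      have h4 := h3 ⟨x, hx⟩ (mem_univ _)
      simp only at h4
      simp only [hg]
      rw [if_neg]
      rw [h4]
      exact lt_irrefl 0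
    rw [← ofReal_measureReal (μ := μ) (s := {ω | (fun x : A' => δ x ω) ∈ Q b'}) (measure_ne_top μ _)]
    apply ENNReal.ofReal_le_ofReal
    exact (measureReal_mono h2).trans h1
  · have h1 : {ω | (fun x : A' => δ x ω) ∈ Q b'} = ∅ := by
      ext ω
      simp only [hQ, Set.mem_ofPred_eq, Set.mem_empty_iff_false, iff_false]
      intro h
      exact hb ⟨h.1, h.2.1⟩
    rw [h1, measure_empty]
    exact zero_le

end Pool.Agent.X30.PQ
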