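import Mathlib
import Pool.Agent.X30.PR1
import Pool.Agent.X30.PQ1
import Pool.Agent.X30.PP5

/-!
# Sums of exact `k`-th powers in short intervals; cells
-/

set_option autoImplicit false

namespace Pool.Agent.X30.PQ

open Finset MeasureTheory ProbabilityTheory
open Pool.Agent.X30.PP (greedy Ok theta_pos)

lemma cells_le (k : ℕ) (C : ℕ → Finset ℕ) (w : ℕ → ℕ) (L B0 n0 : ℕ) (hL : 1 ≤ L) (S : ℕ → Finset ℕ)
    (hS : ∀ c, ∀ a ∈ S c, c * L ≤ a ∧ a < (c + 1) * L) (hcard : ∀ c, (S c).card = B0) (v : ℤ) :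
    ∑ d ∈ range (2 * L), hh k C ((range n0).biUnion S) w 0 (v - d) ≤ 3 * B0 := by
  classical
  simp only [hh]
  rw [← card_filter]
  set c0 : ℕ := v.toNat / L with hc0
  have h1 : ((range (2 * L)).filter (fun d : ℕ => ∃ a ∈ (range n0).biUnion S, (a : ℤ) = v - d)).card ≤
      ((Icc (c0 - 2) c0).biUnion S).card := by
    apply card_le_card_of_injOn (fun d : ℕ => (v - (d : ℤ)).toNat)
    · intro d hd
      rw [mem_coe, mem_filter, mem_range] at hd
      obtain ⟨hd1, a, ha, hav⟩ := hd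
      show (v - (d : ℤ)).toNat ∈ (((Icc (c0 - 2) c0).biUnion S : Finset ℕ) : Set ℕ)
      rw [← hav, Int.toNat_natCast, mem_coe, mem_biUnion]
      rw [mem_biUnion] at ha
      obtain ⟨c, _, hac⟩ := ha
      obtain ⟨e1, e2⟩ := hS c a hac
      have hv0 : v = (v.toNat : ℤ) := by omega
      have hva : v.toNat = a + d := by omega
      refine ⟨c, ?_, hac⟩
      rw [mem_Icc]
      constructor
      · have h2 : c0 < c + 1 + 2 := by
          rw [hc0, Nat.div_lt_iff_lt_mul (by omega)]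
          have : (c + 1 + 2) * L = (c + 1) * L + 2 * L := by ring
          omega
        omega
      · rw [hc0, Nat.le_div_iff_mul_le (by omega)]
        omega
    · intro d hd d' hd' heq
      rw [mem_coe, mem_filter] at hd hd'
      obtain ⟨_, a, ha, hav⟩ := hd
      obtain ⟨_, a', ha', hav'⟩ := hd'
      simp only at heq
      rw [← hav, ← hav', Int.toNat_natCast, Int.toNat_natCast] at heq
      omega
  refine h1.trans (card_biUnion_le.trans ?_)
  rw [sum_congr rfl (fun c _ => hcard c), sum_const, smul_eq_mul, Nat.card_Icc]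
  apply Nat.mul_le_mul_right
  omega

lemma cells_ge (k : ℕ) (C : ℕ → Finset ℕ) (w : ℕ → ℕ) (L B0 n0 : ℕ) (hL : 1 ≤ L) (S : ℕ → Finset ℕ)
    (hS : ∀ c, ∀ a ∈ S c, c * L ≤ a ∧ a < (c + 1) * L) (hcard : ∀ c, (S c).card = B0) (v : ℤ)
    (hv1 : ((2 * L : ℕ) : ℤ) ≤ v) (hv2 : v < ((n0 * L : ℕ) : ℤ)) :
    B0 ≤ ∑ d ∈ range (2 * L), hh k C ((range n0).biUnion S) w 0 (v - d) := by
  classical
  simp only [hh]
  rw [← card_filter]
  obtain ⟨V, rfl⟩ : ∃ V : ℕ, v = V := ⟨v.toNat, by omega⟩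
  have hV1 : 2 * L ≤ V := by exact_mod_cast hv1
  have hV2 : V < n0 * L := by exact_mod_cast hv2
  set c0 : ℕ := V / L with hc0
  have hc1 : c0 * L ≤ V := Nat.div_mul_le_self _ _
  have hc2 : V < (c0 + 1) * L := by
    have := Nat.lt_div_mul_add (a := V) (b := L) (by omega)
    calc V < V / L * L + L := this
      _ = _ := by rw [← hc0]; ring
  have hc3 : 2 ≤ c0 := by
    rw [hc0, Nat.le_div_iff_mul_le (by omega)]
    omega
  obtain ⟨c, hc⟩ : ∃ c, c0 = c + 1 := ⟨c0 - 1, by omega⟩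
  have hcn : c < n0 := by
    by_contra hcon
    push Not at hcon
    have : n0 * L ≤ c0 * L := Nat.mul_le_mul_right _ (by omega)
    omega
  rw [← hcard c]
  apply card_le_card_of_injOn (fun a : ℕ => ((V : ℤ) - (a : ℤ)).toNat)
  · intro a ha
    rw [mem_coe] at ha
    obtain ⟨e1, e2⟩ := hS c a ha
    have e3 : (c0 + 1) * L = c * L + 2 * L := by rw [hc]; ring
    have e4 : c0 * L = (c + 1) * L := by rw [hc]
    have h2 : (((V : ℤ) - (a : ℤ)).toNat : ℤ) = V - a := Int.toNat_of_nonneg (by omega)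
    show ((V : ℤ) - (a : ℤ)).toNat ∈ (((range (2 * L)).filter
      (fun d : ℕ => ∃ a ∈ (range n0).biUnion S, (a : ℤ) = V - d) : Finset ℕ) : Set ℕ)
    rw [mem_coe, mem_filter, mem_range]
    refine ⟨?_, a, mem_biUnion.2 ⟨c, mem_range.2 hcn, ha⟩, by rw [h2]; ring⟩
    have : (((V : ℤ) - (a : ℤ)).toNat : ℤ) < ((2 * L : ℕ) : ℤ) := by
      rw [h2]
      push_cast
      have : (V : ℤ) < a + 2 * L := by
        have : V < a + 2 * L := by omega
        exact_mod_cast this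
      omega
    exact_mod_cast this
  · intro a ha a' ha' heq
    rw [mem_coe] at ha ha'
    obtain ⟨e1, e2⟩ := hS c a ha
    obtain ⟨e1', e2'⟩ := hS c a' ha'
    have e4 : c0 * L = (c + 1) * L := by rw [hc]
    simp only at heq
    have h2 : (((V : ℤ) - (a : ℤ)).toNat : ℤ) = V - a := Int.toNat_of_nonneg (by omega)
    have h2' : (((V : ℤ) - (a' : ℤ)).toNat : ℤ) = V - a' := Int.toNat_of_nonneg (by omega)
    rw [heq, h2'] at h2
    omega

/-- sums of `r + u` exact powers in all cells -/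
lemma cells (k r u m : ℕ) (hk : 2 ≤ k) (η : ℝ) (hη : (k : ℝ) * (1 - 1 / (k : ℝ)) ^ r < η)
    (hη1 : η ≤ k - 1)
    (hmη : (m : ℝ) ≤ η * (1 - 1 / (k : ℝ)) ^ u) (κ : ℝ) (hκ : 0 < κ)
    (hκ2 : 2 * κ = (m : ℝ) + 1 - η * (1 - 1 / (k : ℝ)) ^ u) :
    ∃ j0 : ℕ, ∀ j, j0 ≤ j → ∃ (L B0 : ℕ) (S : ℕ → Finset ℕ), 2 * L = 2 ^ ⌊η * (j : ℝ)⌋₊ ∧ 1 ≤ L ∧
      (∀ c, ∀ a ∈ S c, c * L ≤ a ∧ a < (c + 1) * L) ∧ (∀ c, (S c).card = B0) ∧
      (∀ c, c * L ≤ (2 ^ (j + 4)) ^ k → ∀ a ∈ S c, SP k (r + u) a) ∧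
      B0 * (2 ^ j) ^ m ≤ 2 * L ∧ (2 : ℝ) ^ ((j : ℝ) * (η - m - 1 + κ)) ≤ B0 := by
  classical
  have hk0 : (0 : ℝ) < k := by exact_mod_cast (by omega : 0 < k)
  set θ : ℝ := 1 - 1 / (k : ℝ) with hθ
  have hθ0 : 0 < θ := theta_pos k hk
  have hθ1 : θ ≤ 1 := by
    have : 0 ≤ 1 / (k : ℝ) := by positivity
    rw [hθ]; linarith
  have hθu : θ ^ u ≤ 1 := pow_le_one₀ hθ0.le hθ1
  have hθu0 : 0 < θ ^ u := by positivity
  have hη0 : 0 < η := lt_trans (by positivity) hη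
  have hmη' : (m : ℝ) ≤ η := hmη.trans (mul_le_of_le_one_right hη0.le hθu)
  obtain ⟨Cg, hCg, t0, hg⟩ := greedy k hk r
  obtain ⟨c, hc, X0, hX0⟩ := dim k hk u
  -- thresholds
  have hgap : 0 < η - k * θ ^ r := by linarith
  have htend2 : Filter.Tendsto (fun j : ℕ => ((2 : ℝ) ^ (η - k * θ ^ r)) ^ j) Filter.atTop Filter.atTop :=
    tendsto_pow_atTop_atTop_of_one_lt (Real.one_lt_rpow (by norm_num) hgap)
  set E : ℝ := Cg * (2 : ℝ) ^ (5 * (k * θ ^ r)) with hE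
  obtain ⟨j1, hj1⟩ := Filter.eventually_atTop.1 (htend2.eventually_ge_atTop (8 * E))
  have htend3 : Filter.Tendsto (fun j : ℕ => ((2 : ℝ) ^ κ) ^ j) Filter.atTop Filter.atTop :=
    tendsto_pow_atTop_atTop_of_one_lt (Real.one_lt_rpow (by norm_num) hκ)
  obtain ⟨j2, hj2⟩ := Filter.eventually_atTop.1 (htend3.eventually_ge_atTop (16 / c))
  obtain ⟨j3, hj3⟩ := exists_nat_gt ((X0 + t0 + 4 : ℝ) / η)
  refine ⟨max (max j1 j2) (max j3 2), fun j hj => ?_⟩
  have hjj1 : j1 ≤ j := (le_max_left _ _).trans ((le_max_left _ _).trans hj)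
  have hjj2 : j2 ≤ j := (le_max_right _ _).trans ((le_max_left _ _).trans hj)
  have hjj3 : j3 ≤ j := (le_max_left _ _).trans ((le_max_right _ _).trans hj)
  have hj2' : 2 ≤ j := (le_max_right _ _).trans ((le_max_right _ _).trans hj)
  have hj0 : (0 : ℝ) ≤ j := by positivity
  have hj2R : (2 : ℝ) ≤ j := by exact_mod_cast hj2'
  set n : ℕ := ⌊η * (j : ℝ)⌋₊ with hn
  have hn1 : X0 + t0 + 4 ≤ n := by
    apply Nat.le_floor
    push_cast
    have h1 : ((X0 : ℝ) + t0 + 4) / η < j := hj3.trans_le (by exact_mod_cast hjj3)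
    rw [div_lt_iff₀ hη0] at h1
    linarith
  have hn2 : (n : ℝ) ≤ η * j := Nat.floor_le (by positivity)
  have hn3 : η * j < n + 1 := Nat.lt_floor_add_one _
  have hnm : j * m ≤ n := by
    apply Nat.le_floor
    push_cast
    nlinarith
  have hnk : n ≤ j * k := by
    have h1 : (n : ℝ) ≤ ((j * k : ℕ) : ℝ) := by
      push_cast
      refine hn2.trans ?_
      nlinarith
    exact_mod_cast h1
  obtain ⟨n', hn'⟩ : ∃ n', n = n' + 3 := ⟨n - 3, by omega⟩
  -- the set of small sums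
  have hX0' : X0 ≤ 2 ^ n' := by
    calc X0 ≤ n' := by omega
      _ ≤ 2 ^ n' := Nat.lt_two_pow_self.le
  obtain ⟨A0, hA01, hA02⟩ := hX0 (2 ^ n') hX0'
  obtain ⟨A1, hA1sub, hA1card⟩ := exists_subset_card_eq (min_le_left A0.card (2 ^ (n - j * m)))
  set B0 : ℕ := min A0.card (2 ^ (n - j * m)) with hB0
  set L : ℕ := 4 * 2 ^ n' with hL
  have h2n' : 1 ≤ 2 ^ n' := Nat.one_le_two_pow
  have hL2 : 2 * L = 2 ^ n := by
    rw [hL, hn', pow_add]; ring
  -- the greedy approximations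
  have hgr : ∀ c : ℕ, c * L ≤ (2 ^ (j + 4)) ^ k → ∃ σ : ℕ, SP k r σ ∧ c * L ≤ σ ∧ σ ≤ c * L + 2 * 2 ^ n' := by
    intro c' hc'
    set τ : ℕ := c' * L + 2 * 2 ^ n' with hτ
    have hτ0 : t0 ≤ τ := by
      have h1 : t0 ≤ 2 ^ n' := by
        calc t0 ≤ n' := by omega
          _ ≤ 2 ^ n' := Nat.lt_two_pow_self.le
      omega
    obtain ⟨z, hz1, hz2, hz3⟩ := hg (fun _ => 0) (fun n _ => Nat.zero_le _) τ hτ0
    simp only [add_zero] at hz2 hz3
    refine ⟨∑ l, (z l) ^ k, ⟨z, fun i => (hz1 i).1, rfl⟩, ?_, hz2⟩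
    have hsmall : 2 * 2 ^ n' ≤ (2 ^ (j + 4)) ^ k := by
      calc 2 * 2 ^ n' ≤ 2 ^ n := by rw [← hL2, hL]; omega
        _ ≤ 2 ^ (j * k) := Nat.pow_le_pow_right (by norm_num) hnk
        _ = (2 ^ j) ^ k := by rw [pow_mul]
        _ ≤ (2 ^ (j + 4)) ^ k := Nat.pow_le_pow_left (Nat.pow_le_pow_right (by norm_num) (by omega)) k
    have hτle : (τ : ℝ) ≤ (2 : ℝ) ^ ((k : ℝ) * (j + 5)) := by
      have h2 : τ ≤ (2 ^ (j + 5)) ^ k := by
        calc τ ≤ (2 ^ (j + 4)) ^ k + (2 ^ (j + 4)) ^ k := by omega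
          _ = 2 * (2 ^ (j + 4)) ^ k := by ring
          _ ≤ 2 ^ k * (2 ^ (j + 4)) ^ k := by
              gcongr
              calc 2 = 2 ^ 1 := by norm_num
                _ ≤ 2 ^ k := Nat.pow_le_pow_right (by norm_num) (by omega)
          _ = (2 ^ (j + 5)) ^ k := by rw [← mul_pow]; congr 1; ring
      have h3 : (τ : ℝ) ≤ (((2 ^ (j + 5)) ^ k : ℕ) : ℝ) := by exact_mod_cast h2
      refine h3.trans (le_of_eq ?_)
      push_cast
      rw [← pow_mul, ← Real.rpow_natCast]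
      congr 1
      push_cast
      ring
    have h1 : Cg * (τ : ℝ) ^ (θ ^ r) ≤ 2 * 2 ^ n' := by
      have h2 : (τ : ℝ) ^ (θ ^ r) ≤ (2 : ℝ) ^ (5 * (k * θ ^ r)) * (2 : ℝ) ^ ((k * θ ^ r) * j) := by
        calc (τ : ℝ) ^ (θ ^ r) ≤ ((2 : ℝ) ^ ((k : ℝ) * (j + 5))) ^ (θ ^ r) := by gcongr
          _ = _ := by
              rw [← Real.rpow_mul (by norm_num), ← Real.rpow_add (by norm_num)]
              congr 1
              ring
      have h3 : 8 * E * (2 : ℝ) ^ ((k * θ ^ r) * j) ≤ (2 : ℝ) ^ (η * j) := by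
        calc 8 * E * (2 : ℝ) ^ ((k * θ ^ r) * j) ≤
            ((2 : ℝ) ^ (η - k * θ ^ r)) ^ j * (2 : ℝ) ^ ((k * θ ^ r) * j) := by
              gcongr
              exact hj1 j hjj1
          _ = _ := by
              rw [← Real.rpow_natCast ((2 : ℝ) ^ (η - k * θ ^ r)) j, ← Real.rpow_mul (by norm_num),
                ← Real.rpow_add (by norm_num)]
              congr 1
              ring
      have h4 : (2 : ℝ) ^ (η * j) ≤ 16 * 2 ^ n' := by
        calc (2 : ℝ) ^ (η * j) ≤ (2 : ℝ) ^ ((n : ℝ) + 1) := by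
              apply Real.rpow_le_rpow_of_exponent_le (by norm_num) hn3.le
          _ = 16 * 2 ^ n' := by
              rw [hn', Real.rpow_add (by norm_num), Real.rpow_natCast, Real.rpow_one, pow_add]
              norm_num
              ring
      have h5 : Cg * (τ : ℝ) ^ (θ ^ r) ≤ E * (2 : ℝ) ^ ((k * θ ^ r) * j) := by
        rw [hE, mul_assoc]
        gcongr
      linarith
    have h2 : (τ : ℝ) - ((∑ l, (z l) ^ k : ℕ) : ℝ) ≤ ((2 * 2 ^ n' : ℕ) : ℝ) := by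
      push_cast
      push_cast at hz3
      linarith
    have h3 : (τ : ℝ) ≤ (((∑ l, (z l) ^ k) + 2 * 2 ^ n' : ℕ) : ℝ) := by
      have e1 : (((∑ l, (z l) ^ k) + 2 * 2 ^ n' : ℕ) : ℝ) = ((∑ l, (z l) ^ k : ℕ) : ℝ) +
        ((2 * 2 ^ n' : ℕ) : ℝ) := Nat.cast_add _ _
      rw [e1]
      linarith
    have h4 : τ ≤ (∑ l, (z l) ^ k) + 2 * 2 ^ n' := by exact_mod_cast h3
    omega
  choose! σ hσ1 hσ2 hσ3 using hgr
  set σ' : ℕ → ℕ := fun c => if c * L ≤ (2 ^ (j + 4)) ^ k then σ c else c * L with hσ'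
  have hσ'1 : ∀ c, c * L ≤ σ' c ∧ σ' c ≤ c * L + 2 * 2 ^ n' := by
    intro c
    simp only [hσ']
    split_ifs with h
    · exact ⟨hσ2 c h, hσ3 c h⟩
    · exact ⟨le_rfl, by omega⟩
  refine ⟨L, B0, fun c => A1.image (fun a => σ' c + a), hL2, by omega, ?_, ?_, ?_, ?_, ?_⟩
  · intro c' b hb
    rw [mem_image] at hb
    obtain ⟨a, ha, rfl⟩ := hb
    have h1 := (hA01 a (hA1sub ha)).1
    have h2 := hσ'1 c'
    have h3 : (c' + 1) * L = c' * L + L := by ring
    omega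
  · intro c'
    rw [card_image_of_injective _ (fun a b h => by simpa using h)]
    exact hA1card
  · intro c' hc' b hb
    rw [mem_image] at hb
    obtain ⟨a, ha, rfl⟩ := hb
    obtain ⟨z2, hz21, hz22⟩ := (hA01 a (hA1sub ha)).2
    simp only [hσ']
    rw [if_pos hc']
    obtain ⟨z1, hz11, hz12⟩ := hσ1 c' hc'
    refine ⟨Fin.append z1 z2, fun i => ?_, ?_⟩
    · refine Fin.addCases (fun i => ?_) (fun i => ?_) i
      · rw [Fin.append_left]; exact hz11 i
      · rw [Fin.append_right]; exact hz21 i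
    · rw [Fin.sum_univ_add]
      simp only [Fin.append_left, Fin.append_right]
      rw [← hz12, ← hz22]
  · rw [hL2]
    calc B0 * (2 ^ j) ^ m ≤ 2 ^ (n - j * m) * (2 ^ j) ^ m := Nat.mul_le_mul_right _ (min_le_right _ _)
      _ = 2 ^ n := by
          rw [← pow_mul, ← pow_add]
          congr 1
          omega
  · rw [hB0, Nat.cast_min]
    apply le_min
    · refine le_trans ?_ hA02
      have h1 : (2 : ℝ) ^ (η * j * (1 - θ ^ u)) / 16 ≤ (((2 ^ n' : ℕ)) : ℝ) ^ (1 - θ ^ u) := by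
        push_cast
        rw [← Real.rpow_natCast 2 n', ← Real.rpow_mul (by norm_num)]
        have h2 : (16 : ℝ) = (2 : ℝ) ^ (4 : ℝ) := by norm_num
        rw [h2, ← Real.rpow_sub (by norm_num)]
        apply Real.rpow_le_rpow_of_exponent_le (by norm_num)
        have h3 : (n : ℝ) = n' + 3 := by rw [hn']; push_cast; ring
        have h4 : η * j - 4 ≤ n' := by linarith
        have h5 : 0 ≤ 1 - θ ^ u := by linarith
        nlinarith
      have h2 : (2 : ℝ) ^ (η * j * (1 - θ ^ u)) =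
          (2 : ℝ) ^ ((j : ℝ) * (η - m - 1 + κ)) * ((2 : ℝ) ^ κ) ^ j := by
        rw [← Real.rpow_natCast ((2 : ℝ) ^ κ) j, ← Real.rpow_mul (by norm_num),
          ← Real.rpow_add (by norm_num)]
        congr 1
        have : η * θ ^ u = m + 1 - 2 * κ := by linarith
        calc η * j * (1 - θ ^ u) = j * (η - η * θ ^ u) := by ring
          _ = _ := by rw [this]; ring
      have h3 := hj2 j hjj2
      rw [div_le_iff₀ hc] at h3
      have h4 : (0 : ℝ) < (2 : ℝ) ^ ((j : ℝ) * (η - m - 1 + κ)) := by positivity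
      calc (2 : ℝ) ^ ((j : ℝ) * (η - m - 1 + κ)) ≤
          (2 : ℝ) ^ ((j : ℝ) * (η - m - 1 + κ)) * (((2 : ℝ) ^ κ) ^ j * c) / 16 := by
            rw [le_div_iff₀ (by norm_num)]
            gcongr
        _ = c * ((2 : ℝ) ^ (η * j * (1 - θ ^ u)) / 16) := by rw [h2]; ring
        _ ≤ _ := by gcongr
    · push_cast
      rw [← Real.rpow_natCast 2 (n - j * m)]
      apply Real.rpow_le_rpow_of_exponent_le (by norm_num)
      rw [Nat.cast_sub hnm]
      push_cast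
      have hκ1 : κ ≤ 1 / 2 := by linarith
      nlinarith

end Pool.Agent.X30.PQ
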