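import Mathlib
import Pool.Agent.X30.PP7
import Pool.Agent.X30.PR3

/-!
# Exact powers and few slightly perturbed powers: `k` summands never suffice; exponents
-/

set_option autoImplicit false

namespace Pool.Agent.X30.PS

open Finset MeasureTheory ProbabilityTheory
open Pool.Agent.X30.PP (theta_pos pow_le_exp floor_lt)

/-- at most `k` numbers `x ^ k + w i x`, `x ≥ 1`, do not represent all large integers -/
theorem not_k' (k : ℕ) (hk : 2 ≤ k) (w : ℕ → ℕ → ℕ) (N0 : ℕ) :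
    ∃ N : ℕ, N0 ≤ N ∧ ∀ t : ℕ, t ≤ k → ∀ x : Fin t → ℕ, (∀ i, 1 ≤ x i) → N ≠ ∑ i, ((x i) ^ k + w i (x i)) := by
  classical
  by_contra hcon
  push Not at hcon
  obtain ⟨k', rfl⟩ : ∃ k', k = k' + 2 := ⟨k - 2, by omega⟩
  set k := k' + 2 with hkdef
  set Y : ℕ := 2 * k ^ 2 + k + N0 + 1 with hY
  set X : ℕ := 2 * k * Y with hX
  have hXY : Y ≤ X := by rw [hX]; exact Nat.le_mul_of_pos_left _ (by omega)
  -- the values
  set a : ℕ → ℕ → ℕ := fun i x => if x = 0 then 0 else x ^ k + w i x with ha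
  set U : Finset (Fin k → ℕ) := Fintype.piFinset (fun _ : Fin k => range (X + 1)) with hU
  set A : Finset (Fin k → ℕ) := U.filter (fun f => ∑ i : Fin k, a i (f i) ≤ X ^ k) with hA
  -- every N in [N0, X ^ k] is a value
  have hsurj : Icc N0 (X ^ k) ⊆ A.image (fun f => ∑ i : Fin k, a i (f i)) := by
    intro N hN
    rw [mem_Icc] at hN
    obtain ⟨t, ht, x, hx1, hx2⟩ := hcon N hN.1
    have hxX : ∀ i, x i ≤ X := by
      intro i
      have h1 : (x i) ^ k ≤ N := by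
        rw [hx2]
        calc (x i) ^ k ≤ (x i) ^ k + w i (x i) := by omega
          _ ≤ _ := single_le_sum (f := fun i => (x i) ^ k + w i (x i)) (fun _ _ => Nat.zero_le _) (mem_univ i)
      exact le_of_pow_le_pow_left₀ (by omega) (by omega) (h1.trans hN.2)
    set f : Fin k → ℕ := fun i => if h : (i : ℕ) < t then x ⟨i, h⟩ else 0 with hf
    have hval : ∑ i : Fin k, a i (f i) = N := by
      rw [hx2]
      have h1 : ∀ i : Fin t, (x i) ^ k + w i (x i) = a i (x i) := by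
        intro i
        simp only [ha]
        rw [if_neg (by have := hx1 i; omega)]
      rw [sum_congr rfl (fun i _ => h1 i)]
      have h2 : ∑ i : Fin t, a i (x i) = ∑ i ∈ range t, (if h : i < t then a i (x ⟨i, h⟩) else 0) := by
        rw [Finset.sum_range]
        refine sum_congr rfl fun i _ => ?_
        rw [dif_pos i.2]
      have h3 : ∑ i : Fin k, a i (f i) = ∑ i ∈ range k, (if h : i < t then a i (x ⟨i, h⟩) else 0) := by
        rw [Finset.sum_range]
        refine sum_congr rfl fun i _ => ?_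
        simp only [hf]
        split_ifs with h
        · rfl
        · simp only [ha, if_true]
      rw [h2, h3]
      symm
      apply sum_subset (range_subset_range.2 ht)
      intro i _ hi
      rw [mem_range, not_lt] at hi
      rw [dif_neg (by omega)]
    rw [mem_image]
    refine ⟨f, ?_, hval⟩
    rw [hA, mem_filter, hU, Fintype.mem_piFinset]
    refine ⟨fun i => ?_, by rw [hval]; exact hN.2⟩
    rw [mem_range]
    simp only [hf]
    split_ifs with h
    · have := hxX ⟨i, h⟩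
      omega
    · omega
  have hcard1 : X ^ k + 1 - N0 ≤ A.card := by
    have h1 := (card_le_card hsurj).trans card_image_le
    rwa [Nat.card_Icc] at h1
  -- the tuples with two large entries
  set Bf : Fin k → Finset ℕ := fun i => if (i : ℕ) < 2 then Ioc (X - Y) X else range (X + 1) with hBf
  set B : Finset (Fin k → ℕ) := Fintype.piFinset Bf with hB
  have hBU : B ⊆ U \ A := by
    intro f hf
    rw [hB, Fintype.mem_piFinset] at hf
    rw [mem_sdiff, hA, mem_filter, hU, Fintype.mem_piFinset]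
    constructor
    · intro i
      have h1 := hf i
      simp only [hBf] at h1
      rw [mem_range]
      split_ifs at h1
      · rw [mem_Ioc] at h1; omega
      · rw [mem_range] at h1; exact h1
    · rintro ⟨_, h2⟩
      have h3 : ∀ i : Fin k, (i : ℕ) < 2 → (X - Y) ^ k < a (i : ℕ) (f i) := by
        intro i hi
        have h1 := hf i
        simp only [hBf] at h1
        rw [if_pos hi, mem_Ioc] at h1
        simp only [ha]
        rw [if_neg (by omega)]
        calc (X - Y) ^ k < (f i) ^ k := Nat.pow_lt_pow_left h1.1 (by omega)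
          _ ≤ _ := by omega
      have h4 : X ^ k ≤ 2 * (X - Y) ^ k := by
        have hX0 : (0 : ℝ) < X := by
          have : 0 < X := by omega
          exact_mod_cast this
        have hk0 : (0 : ℝ) < k := by positivity
        have h5 := one_add_mul_le_pow (a := -(1 / (2 * (k : ℝ)))) (by
          have : 1 / (2 * (k : ℝ)) ≤ 1 := by
            rw [div_le_one (by positivity)]
            have : (1 : ℝ) ≤ k := by exact_mod_cast (by omega : 1 ≤ k)
            linarith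
          linarith) k
        have h6 : ((X - Y : ℕ) : ℝ) = X * (1 + -(1 / (2 * (k : ℝ)))) := by
          rw [Nat.cast_sub hXY, hX]
          push_cast
          field_simp
          ring
        have h7 : (1 : ℝ) / 2 ≤ (1 + -(1 / (2 * (k : ℝ)))) ^ k := by
          refine le_trans (le_of_eq ?_) h5
          field_simp
          ring
        have h8 : ((X ^ k : ℕ) : ℝ) ≤ ((2 * (X - Y) ^ k : ℕ) : ℝ) := by
          push_cast
          rw [h6, mul_pow]
          have : (0 : ℝ) < (X : ℝ) ^ k := by positivity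
          nlinarith
        exact_mod_cast h8
      have h5 : a 0 (f ⟨0, by omega⟩) + a 1 (f ⟨1, by omega⟩) ≤ ∑ i : Fin k, a i (f i) := by
        have h6 : ∑ i ∈ ({⟨0, by omega⟩, ⟨1, by omega⟩} : Finset (Fin k)), a i (f i) ≤ ∑ i : Fin k, a i (f i) :=
          sum_le_sum_of_subset (subset_univ _)
        rw [sum_pair (by
          intro h
          have := congrArg Fin.val h
          simp at this)] at h6
        exact h6
      have h6 : (X - Y) ^ k < a 0 (f ⟨0, by omega⟩) := h3 ⟨0, by omega⟩ (by simp)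
      have h7 : (X - Y) ^ k < a 1 (f ⟨1, by omega⟩) := h3 ⟨1, by omega⟩ (by simp)
      omega
  have hcardU : U.card = (X + 1) ^ k := by
    rw [hU, Fintype.card_piFinset]
    simp
  have hcardB : B.card = Y ^ 2 * (X + 1) ^ k' := by
    rw [hB, Fintype.card_piFinset]
    have h1 : ∀ i : Fin k, (Bf i).card = if (i : ℕ) < 2 then Y else X + 1 := by
      intro i
      simp only [hBf]
      split_ifs
      · rw [Nat.card_Ioc]
        omega
      · rw [card_range]
    rw [prod_congr rfl (fun i _ => h1 i)]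
    rw [← Finset.prod_range (fun i => if i < 2 then Y else X + 1)]
    rw [hkdef, show k' + 2 = 2 + k' by ring, prod_range_add]
    congr 1
    · rw [prod_congr rfl (fun i hi => if_pos (mem_range.1 hi)), prod_const, card_range]
    · rw [prod_congr rfl (fun i _ => if_neg (by omega)), prod_const, card_range]
  have hAle : A.card + B.card ≤ U.card := by
    have h1 : A.card + (U \ A).card = U.card := by
      rw [add_comm]
      exact card_sdiff_add_card_eq_card (filter_subset _ _)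
    have h2 := card_le_card hBU
    omega
  rw [hcardU, hcardB] at hAle
  -- Bernoulli
  have hbern : (X + 1) ^ k ≤ X ^ k + k * (X + 1) ^ (k' + 1) := by
    have hX0 : (0 : ℝ) < (X : ℝ) + 1 := by positivity
    have h5 := one_add_mul_le_pow (a := -(1 / ((X : ℝ) + 1))) (by
      have : 1 / ((X : ℝ) + 1) ≤ 1 := by
        rw [div_le_one hX0]
        have : (0 : ℝ) ≤ X := by positivity
        linarith
      linarith) k
    have h6 : (X : ℝ) = ((X : ℝ) + 1) * (1 + -(1 / ((X : ℝ) + 1))) := by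
      field_simp
      ring
    have h7 : (((X + 1) ^ k : ℕ) : ℝ) ≤ ((X ^ k + k * (X + 1) ^ (k' + 1) : ℕ) : ℝ) := by
      have h8 : (X : ℝ) ^ k = ((X : ℝ) + 1) ^ k * (1 + -(1 / ((X : ℝ) + 1))) ^ k := by
        rw [← mul_pow, ← h6]
      push_cast
      rw [h8]
      have h9 : (0 : ℝ) < ((X : ℝ) + 1) ^ k := by positivity
      have h10 : ((X : ℝ) + 1) ^ k * (1 + (k : ℝ) * -(1 / ((X : ℝ) + 1))) =
          ((X : ℝ) + 1) ^ k - k * ((X : ℝ) + 1) ^ (k' + 1) := by
        rw [hkdef, pow_succ ((X : ℝ) + 1) (k' + 1)]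
        field_simp
        ring
      have h11 := mul_le_mul_of_nonneg_left h5 h9.le
      rw [h10] at h11
      linarith
    exact_mod_cast h7
  -- the contradiction
  have hu0 : 1 ≤ (X + 1) ^ k' := Nat.one_le_pow _ _ (by omega)
  have hfin : k * (X + 1) + N0 < Y ^ 2 := by
    have h1 : k * (X + 1) = 2 * k ^ 2 * Y + k := by rw [hX]; ring
    rw [h1]
    have h2 : Y ^ 2 = 2 * k ^ 2 * Y + (k + N0 + 1) * Y := by
      nth_rewrite 1 [sq, hY]
      ring
    rw [h2]
    have h3 : 1 ≤ Y := by omega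
    nlinarith
  have h1 : k * (X + 1) ^ (k' + 1) + N0 < Y ^ 2 * (X + 1) ^ k' := by
    calc k * (X + 1) ^ (k' + 1) + N0 ≤ k * (X + 1) ^ (k' + 1) + N0 * (X + 1) ^ k' := by
          have : N0 ≤ N0 * (X + 1) ^ k' := Nat.le_mul_of_pos_right _ (by omega)
          omega
      _ = (k * (X + 1) + N0) * (X + 1) ^ k' := by rw [pow_succ]; ring
      _ < Y ^ 2 * (X + 1) ^ k' := Nat.mul_lt_mul_of_pos_right hfin (by omega)
  omega


/-- fixed numbers `s` of exact and `t` of perturbed powers, `s + t ≤ k`, are not enough -/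
theorem not_mixed (k : ℕ) (hk : 2 ≤ k) (w : ℕ → ℕ) (s N0 : ℕ) :
    ∃ N : ℕ, N0 ≤ N ∧ ∀ t : ℕ, s + t ≤ k → ∀ z : Fin s → ℕ, ∀ x : Fin t → ℕ, (∀ i, 1 ≤ z i) →
      (∀ i, 1 ≤ x i) → N ≠ ∑ i, (z i) ^ k + ∑ i, ((x i) ^ k + w (x i)) := by
  obtain ⟨N, hN, h⟩ := not_k' k hk (fun i n => if i < s then 0 else w n) N0
  refine ⟨N, hN, fun t ht z x hz hx => ?_⟩
  have h1 := h (s + t) ht (Fin.append z x) (by
    intro i
    refine Fin.addCases (fun i => ?_) (fun i => ?_) i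
    · rw [Fin.append_left]; exact hz i
    · rw [Fin.append_right]; exact hx i)
  rw [Fin.sum_univ_add] at h1
  simp only [Fin.append_left, Fin.append_right, Fin.val_castAdd, Fin.is_lt, if_true, Fin.val_natAdd,
    add_zero] at h1
  have h2 : ∀ i : Fin t, ¬ (s + (i : ℕ) < s) := fun i => by omega
  simp only [if_neg (h2 _)] at h1
  exact h1

/-- `n` exact and `t` perturbed powers -/
theorem few (k n t : ℕ) (hk : 2 ≤ k) (η : ℝ) (hη1 : η ≤ k - 1)
    (h1 : (k : ℝ) * (1 - 1 / (k : ℝ)) ^ (n - 1) < t) (h2 : (k : ℝ) * (1 - 1 / (k : ℝ)) ^ n < η)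
    {Ω : Type*} [MeasurableSpace Ω] {μ : Measure Ω} [IsProbabilityMeasure μ]
    (δ : ℕ → Ω → ℕ) (hm : ∀ n, Measurable (δ n)) (hind : iIndepFun δ μ)
    (hu : ∀ n, ∀ d < 2 ^ ⌊η * Nat.log 2 n⌋₊,
      μ {ω | δ n ω = d} = 1 / ((2 ^ ⌊η * Nat.log 2 n⌋₊ : ℕ) : ENNReal)) :
    ∀ᵐ ω ∂μ, ∃ N0 : ℕ, ∀ N : ℕ, N0 ≤ N → ∃ z : Fin n → ℕ, ∃ x : Fin t → ℕ,
      (∀ i, 1 ≤ z i) ∧ (∀ i, 1 ≤ x i) ∧ N = ∑ i, (z i) ^ k + ∑ i, (x i ^ k + δ (x i) ω) := by
  classical
  have hθ0 := theta_pos k hk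
  have hk0 : (0 : ℝ) < k := by exact_mod_cast (by omega : 0 < k)
  have hex : ∃ r : ℕ, (k : ℝ) * (1 - 1 / (k : ℝ)) ^ r < η := ⟨n, h2⟩
  set r := Nat.find hex with hr
  have hr1 : (k : ℝ) * (1 - 1 / (k : ℝ)) ^ r < η := Nat.find_spec hex
  have hrn : r ≤ n := Nat.find_min' hex h2
  have hr0 : 1 ≤ r := by
    by_contra hcon
    have h0 : r = 0 := by omega
    rw [h0, pow_zero, mul_one] at hr1
    linarith
  have hr2 : η ≤ (k : ℝ) * (1 - 1 / (k : ℝ)) ^ (r - 1) := by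
    have := Nat.find_min hex (m := r - 1) (by omega)
    exact not_lt.1 this
  obtain ⟨u, hu'⟩ : ∃ u, n = r + u := ⟨n - r, by omega⟩
  have ht : η * (1 - 1 / (k : ℝ)) ^ u < t := by
    refine lt_of_le_of_lt ?_ h1
    calc η * (1 - 1 / (k : ℝ)) ^ u ≤ (k : ℝ) * (1 - 1 / (k : ℝ)) ^ (r - 1) * (1 - 1 / (k : ℝ)) ^ u := by
          gcongr
      _ = _ := by
          rw [mul_assoc, ← pow_add]
          congr 2
          omega
  rw [hu']
  exact Pool.Agent.X30.PQ.mixed k r u t hk η hr1 hη1 ht δ hm hind hu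

/-- numerical criterion -/
theorem few' (k s D : ℕ) (hk : 2 ≤ k) (hD : 1 ≤ D) (η : ℝ) (hη1 : η ≤ k - 1)
    (hη : (k : ℝ) / D ≤ η)
    (hc : (1 - 1 / (k : ℝ)) ^ (s - (k / D + 1) - 1) < 1 / D)
    {Ω : Type*} [MeasurableSpace Ω] {μ : Measure Ω} [IsProbabilityMeasure μ]
    (δ : ℕ → Ω → ℕ) (hm : ∀ n, Measurable (δ n)) (hind : iIndepFun δ μ)
    (hu : ∀ n, ∀ d < 2 ^ ⌊η * Nat.log 2 n⌋₊,
      μ {ω | δ n ω = d} = 1 / ((2 ^ ⌊η * Nat.log 2 n⌋₊ : ℕ) : ENNReal)) :
    ∀ᵐ ω ∂μ, ∃ N0 : ℕ, ∀ N : ℕ, N0 ≤ N → ∃ z : Fin (s - (k / D + 1)) → ℕ, ∃ x : Fin (k / D + 1) → ℕ,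
      (∀ i, 1 ≤ z i) ∧ (∀ i, 1 ≤ x i) ∧ N = ∑ i, (z i) ^ k + ∑ i, (x i ^ k + δ (x i) ω) := by
  have hk0 : (0 : ℝ) < k := by exact_mod_cast (by omega : 0 < k)
  have hD0 : (0 : ℝ) < D := by exact_mod_cast hD
  have hθ0 := theta_pos k hk
  have hθ1 : 1 - 1 / (k : ℝ) ≤ 1 := by
    have : 0 ≤ 1 / (k : ℝ) := by positivity
    linarith
  have h3 : (k : ℝ) / D < ((k / D + 1 : ℕ) : ℝ) := by
    have h4 : k < (k / D + 1) * D := by
      have := Nat.lt_div_mul_add (a := k) (b := D) (by omega)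
      calc k < k / D * D + D := this
        _ = _ := by ring
    rw [div_lt_iff₀ hD0]
    exact_mod_cast h4
  have h4 : (k : ℝ) * (1 - 1 / (k : ℝ)) ^ (s - (k / D + 1) - 1) < (k : ℝ) / D := by
    calc (k : ℝ) * (1 - 1 / (k : ℝ)) ^ (s - (k / D + 1) - 1) < k * (1 / D) := by gcongr
      _ = _ := by ring
  refine few k (s - (k / D + 1)) (k / D + 1) hk η hη1 (h4.trans h3) ?_ δ hm hind hu
  refine lt_of_le_of_lt ?_ (h4.trans_le hη)
  gcongr ?_ * ?_
  exact pow_le_pow_of_le_one hθ0.le hθ1 (by omega)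

open Pool.Agent.X30.PP (pow_le_exp' exp_le_quad) in
lemma crit4 (k : ℕ) (hk : 2 ≤ k) : (1 - 1 / (k : ℝ)) ^ (4 * k - (k / 53 + 1) - 1) < 1 / ((53 : ℕ) : ℝ) := by
  have hk0 : (2 : ℝ) ≤ k := by exact_mod_cast hk
  refine (pow_le_exp' k _ hk).trans_lt ?_
  have hq : ((k / 53 : ℕ) : ℝ) ≤ (k : ℝ) / 53 := by exact_mod_cast Nat.cast_div_le (α := ℝ) (m := k) (n := 53)
  have hn : ((4 * k - (k / 53 + 1) - 1 : ℕ) : ℝ) = 4 * k - ((k / 53 : ℕ) : ℝ) - 2 := by
    have h1 : k / 53 + 2 ≤ 4 * k := by omega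
    have h2 : 4 * k - (k / 53 + 1) - 1 = 4 * k - (k / 53 + 2) := by omega
    rw [h2, Nat.cast_sub h1]
    push_cast
    ring
  rw [hn]
  have h3 : 4 - 4 / 159 ≤ 2 * (4 * (k : ℝ) - ((k / 53 : ℕ) : ℝ) - 2) / (2 * k - 1) := by
    rw [le_div_iff₀ (by linarith)]
    nlinarith
  have h4 : Real.exp (-(4 - 4 / 159)) < 1 / ((53 : ℕ) : ℝ) := by
    have h5 : Real.exp (4 / 159) ≤ 1 + 4 / 159 + (4 / 159) ^ 2 := exp_le_quad _ (by norm_num) (by norm_num)
    have h6 : (2.7182818283 : ℝ) ^ 4 ≤ Real.exp 4 := by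
      have h7 : Real.exp 4 = (Real.exp 1) ^ 4 := by
        rw [← Real.exp_nat_mul]; norm_num
      rw [h7]
      exact pow_le_pow_left₀ (by norm_num) Real.exp_one_gt_d9.le 4
    have h8 : Real.exp (-(4 - 4 / 159)) = Real.exp (4 / 159) / Real.exp 4 := by
      rw [← Real.exp_sub]; congr 1; ring
    rw [h8, div_lt_div_iff₀ (Real.exp_pos 4) (by norm_num)]
    push_cast
    norm_num at h5 h6 ⊢
    linarith
  refine lt_of_le_of_lt (Real.exp_le_exp.2 ?_) h4
  linarith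

open Pool.Agent.X30.PP (pow_le_exp' exp_le_quad) in
lemma crit2 (k : ℕ) (hk : 2 ≤ k) : (1 - 1 / (k : ℝ)) ^ (2 * k + 1 - (k / 6 + 1) - 1) < 1 / ((6 : ℕ) : ℝ) := by
  have hk0 : (2 : ℝ) ≤ k := by exact_mod_cast hk
  refine (pow_le_exp' k _ hk).trans_lt ?_
  have hn : ((2 * k + 1 - (k / 6 + 1) - 1 : ℕ) : ℝ) = 2 * k - ((k / 6 : ℕ) : ℝ) - 1 := by
    have h1 : k / 6 + 1 ≤ 2 * k := by omega
    have h2 : 2 * k + 1 - (k / 6 + 1) - 1 = 2 * k - (k / 6 + 1) := by omega
    rw [h2, Nat.cast_sub h1]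
    push_cast
    ring
  rw [hn]
  have h3 : 2 - 2 / 11 ≤ 2 * (2 * (k : ℝ) - ((k / 6 : ℕ) : ℝ) - 1) / (2 * k - 1) := by
    rw [le_div_iff₀ (by linarith)]
    rcases lt_or_ge k 6 with h | h
    · have : k / 6 = 0 := Nat.div_eq_of_lt h
      rw [this]
      push_cast
      nlinarith
    · have h6 : (6 : ℝ) ≤ k := by exact_mod_cast h
      have hq : ((k / 6 : ℕ) : ℝ) ≤ (k : ℝ) / 6 := by
        exact_mod_cast Nat.cast_div_le (α := ℝ) (m := k) (n := 6)
      nlinarith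
  have h4 : Real.exp (-(2 - 2 / 11)) < 1 / ((6 : ℕ) : ℝ) := by
    have h5 : Real.exp (2 / 11) ≤ 1 + 2 / 11 + (2 / 11) ^ 2 := exp_le_quad _ (by norm_num) (by norm_num)
    have h6 : (2.7182818283 : ℝ) ^ 2 ≤ Real.exp 2 := by
      have h7 : Real.exp 2 = (Real.exp 1) ^ 2 := by
        rw [← Real.exp_nat_mul]; norm_num
      rw [h7]
      exact pow_le_pow_left₀ (by norm_num) Real.exp_one_gt_d9.le 2
    have h8 : Real.exp (-(2 - 2 / 11)) = Real.exp (2 / 11) / Real.exp 2 := by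
      rw [← Real.exp_sub]; congr 1; ring
    rw [h8, div_lt_div_iff₀ (Real.exp_pos 2) (by norm_num)]
    push_cast
    norm_num at h5 h6 ⊢
    linarith
  refine lt_of_le_of_lt (Real.exp_le_exp.2 ?_) h4
  linarith

open Pool.Agent.X30.PP (pow_le_exp' exp_le_quad) in
lemma crit100 (k : ℕ) (hk : 2 ≤ k) :
    (1 - 1 / (k : ℝ)) ^ (100 * k - (k / 2 ^ 144 + 1) - 1) < 1 / ((2 ^ 144 : ℕ) : ℝ) := by
  have hk0 : (2 : ℝ) ≤ k := by exact_mod_cast hk
  refine (pow_le_exp' k _ hk).trans_lt ?_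
  have hq : ((k / 2 ^ 144 : ℕ) : ℝ) ≤ (k : ℝ) / 200 := by
    have h1 : k / 2 ^ 144 ≤ k / 200 := Nat.div_le_div_left (by norm_num) (by norm_num)
    calc ((k / 2 ^ 144 : ℕ) : ℝ) ≤ ((k / 200 : ℕ) : ℝ) := by exact_mod_cast h1
      _ ≤ _ := by exact_mod_cast Nat.cast_div_le (α := ℝ) (m := k) (n := 200)
  have hn : ((100 * k - (k / 2 ^ 144 + 1) - 1 : ℕ) : ℝ) = 100 * k - ((k / 2 ^ 144 : ℕ) : ℝ) - 2 := by
    have h0 : k / 2 ^ 144 ≤ k := Nat.div_le_self _ _
    have h1 : k / 2 ^ 144 + 2 ≤ 100 * k := by omega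
    have h2 : 100 * k - (k / 2 ^ 144 + 1) - 1 = 100 * k - (k / 2 ^ 144 + 2) := by omega
    rw [h2, Nat.cast_sub h1]
    push_cast
    ring
  rw [hn]
  have h3 : 100 - 1 / 100 ≤ 2 * (100 * (k : ℝ) - ((k / 2 ^ 144 : ℕ) : ℝ) - 2) / (2 * k - 1) := by
    rw [le_div_iff₀ (by linarith)]
    nlinarith
  have h4 : Real.exp (-(100 - 1 / 100)) < 1 / ((2 ^ 144 : ℕ) : ℝ) := by
    have h5 : Real.exp (1 / 100) ≤ 1 + 1 / 100 + (1 / 100) ^ 2 := exp_le_quad _ (by norm_num) (by norm_num)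
    have h6 : (2.718 : ℝ) ^ 100 ≤ Real.exp 100 := by
      have h7 : Real.exp 100 = (Real.exp 1) ^ 100 := by
        rw [← Real.exp_nat_mul]; norm_num
      rw [h7]
      exact pow_le_pow_left₀ (by norm_num) (by have := Real.exp_one_gt_d9; linarith) 100
    have h8 : Real.exp (-(100 - 1 / 100)) = Real.exp (1 / 100) / Real.exp 100 := by
      rw [← Real.exp_sub]; congr 1; ring
    rw [h8, div_lt_div_iff₀ (Real.exp_pos 100) (by positivity)]
    push_cast
    norm_num at h5 h6 ⊢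
    linarith
  refine lt_of_le_of_lt (Real.exp_le_exp.2 ?_) h4
  linarith

end Pool.Agent.X30.PS
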