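import Mathlib
import Pool.Agent.X30.WP7

/-!
# Mean square of the error term: Bessel's identity
-/

set_option autoImplicit false

namespace Pool.Agent.X30.WP

open Finset
open Pool.Agent.H469R2.NK (e norm_e e_add conj_e norm_sum_neg e_zero)

lemma bessel (M : ℕ) (hM : 1 ≤ M) (g : ℕ → ℂ) (D : ℕ → ℝ)
    (h : ∀ N, N < M → (M : ℂ) * ((D N : ℝ) : ℂ) = ∑ b ∈ range M, g b * e (-((b : ℝ) / M * N))) :
    (M : ℝ) * ∑ N ∈ range M, (D N) ^ 2 = ∑ b ∈ range M, ‖g b‖ ^ 2 := by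
  have hM0 : (M : ℂ) ≠ 0 := by exact_mod_cast (by omega : M ≠ 0)
  have h1 : ∀ N ∈ range M, ((M : ℂ) * ((D N : ℝ) : ℂ)) * ((M : ℂ) * ((D N : ℝ) : ℂ)) =
      ∑ b ∈ range M, ∑ b' ∈ range M, g b * (starRingEnd ℂ) (g b') *
        e ((N : ℝ) / M * (((b' : ℤ) - (b : ℤ) : ℤ) : ℝ)) := by
    intro N hN
    have h2 := h N (mem_range.1 hN)
    have h3 : (starRingEnd ℂ) ((M : ℂ) * ((D N : ℝ) : ℂ)) = (M : ℂ) * ((D N : ℝ) : ℂ) := by
      rw [map_mul, Complex.conj_ofReal, Complex.conj_natCast]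
    calc ((M : ℂ) * ((D N : ℝ) : ℂ)) * ((M : ℂ) * ((D N : ℝ) : ℂ)) =
        ((M : ℂ) * ((D N : ℝ) : ℂ)) * (starRingEnd ℂ) ((M : ℂ) * ((D N : ℝ) : ℂ)) := by rw [h3]
      _ = _ := by
        rw [h2, map_sum, sum_mul_sum]
        refine sum_congr rfl fun b _ => sum_congr rfl fun b' _ => ?_
        rw [map_mul, conj_e, neg_neg]
        have h4 : e ((N : ℝ) / M * (((b' : ℤ) - (b : ℤ) : ℤ) : ℝ)) =
            e (-((b : ℝ) / M * N)) * e ((b' : ℝ) / M * N) := by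
          rw [← e_add]; congr 1; push_cast; ring
        rw [h4]; ring
  have h2 : (M : ℂ) * ((M : ℂ) * ∑ N ∈ range M, ((D N : ℝ) : ℂ) ^ 2) =
      (M : ℂ) * ∑ b ∈ range M, g b * (starRingEnd ℂ) (g b) := by
    calc (M : ℂ) * ((M : ℂ) * ∑ N ∈ range M, ((D N : ℝ) : ℂ) ^ 2)
        = ∑ N ∈ range M, ((M : ℂ) * ((D N : ℝ) : ℂ)) * ((M : ℂ) * ((D N : ℝ) : ℂ)) := by
          rw [mul_sum, mul_sum]; exact sum_congr rfl fun N _ => by ring
      _ = ∑ N ∈ range M, ∑ b ∈ range M, ∑ b' ∈ range M, g b * (starRingEnd ℂ) (g b') *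
            e ((N : ℝ) / M * (((b' : ℤ) - (b : ℤ) : ℤ) : ℝ)) := sum_congr rfl h1
      _ = ∑ b ∈ range M, ∑ b' ∈ range M, g b * (starRingEnd ℂ) (g b') *
            ∑ N ∈ range M, e ((N : ℝ) / M * (((b' : ℤ) - (b : ℤ) : ℤ) : ℝ)) := by
          rw [sum_comm]
          refine sum_congr rfl fun b _ => ?_
          rw [sum_comm]
          refine sum_congr rfl fun b' _ => ?_
          rw [mul_sum]
      _ = ∑ b ∈ range M, ∑ b' ∈ range M, (if b' = b then g b * (starRingEnd ℂ) (g b') * M else 0) := by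
          refine sum_congr rfl fun b hb => sum_congr rfl fun b' hb' => ?_
          rw [mem_range] at hb hb'
          rw [orth M hM _ (by rw [abs_lt]; constructor <;> omega)]
          by_cases hbb : b' = b
          · rw [if_pos hbb, if_pos (by rw [hbb]; ring)]
          · rw [if_neg hbb, if_neg (by omega), mul_zero]
      _ = _ := by
          rw [mul_sum]
          refine sum_congr rfl fun b hb => ?_
          rw [sum_ite_eq' (range M) b, if_pos hb]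
          ring
  have h3 := mul_left_cancel₀ hM0 h2
  have h4 : ((((M : ℝ) * ∑ N ∈ range M, (D N) ^ 2 : ℝ)) : ℂ) = ((∑ b ∈ range M, ‖g b‖ ^ 2 : ℝ) : ℂ) := by
    push_cast
    rw [h3]
    refine sum_congr rfl fun b _ => ?_
    rw [Complex.mul_conj, Complex.normSq_eq_norm_sq]
    push_cast
    rfl
  exact_mod_cast h4

lemma far2 (k s : ℕ) (hk : 1 ≤ k) (hs : 2 ≤ s) (C1 ρ ξ κ κ1 : ℝ) (hC1 : 0 ≤ C1) (hξ : 0 < ξ)
    (hκ0 : 0 < κ) (hκ : κ ≤ ξ) (hκ1 : κ ≤ κ1) (hρ : ρ * s ≤ s - k - κ) (P : ℝ) (hP : 1 ≤ P) (x y : ℂ)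
    (U V β : ℝ) (hU : 0 ≤ U) (hV : 0 ≤ V) (hx : ‖x‖ ≤ P ^ ρ + U + V) (hβ1 : P ^ (ξ - k) ≤ β)
    (hβ2 : β ≤ 1 / 2) (hy : ‖y‖ ≤ 1 / (β * P ^ (k - 1)))
    (hU' : β * U ^ s ≤ C1 * P ^ ((s : ℝ) - k - κ1)) (hV' : β * V ^ s ≤ C1 * (2 * P) ^ ((s : ℝ) - k - κ1)) :
    β * (‖x‖ ^ s + ‖y‖ ^ s) ≤ (3 ^ s * (1 + C1 + C1 * 2 ^ s) + 1) * P ^ ((s : ℝ) - k - κ) := by
  have hP0 : 0 < P := by linarith
  have hβ0 : 0 < β := lt_of_lt_of_le (by positivity) hβ1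
  have hmono : P ^ ((s : ℝ) - k - κ1) ≤ P ^ ((s : ℝ) - k - κ) :=
    Real.rpow_le_rpow_of_exponent_le hP (by linarith)
  have h1 : β * (P ^ ρ) ^ s ≤ P ^ ((s : ℝ) - k - κ) := by
    calc β * (P ^ ρ) ^ s ≤ 1 * (P ^ ρ) ^ s := by gcongr; linarith
      _ = P ^ (ρ * s) := by rw [one_mul, ← Real.rpow_natCast (P ^ ρ) s, ← Real.rpow_mul hP0.le]
      _ ≤ _ := Real.rpow_le_rpow_of_exponent_le hP hρ
  have h2 : β * V ^ s ≤ C1 * 2 ^ s * P ^ ((s : ℝ) - k - κ) := by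
    refine hV'.trans ?_
    rw [Real.mul_rpow (by norm_num) hP0.le]
    have h3 : (2 : ℝ) ^ ((s : ℝ) - k - κ1) ≤ 2 ^ s := by
      rw [← Real.rpow_natCast 2 s]
      apply Real.rpow_le_rpow_of_exponent_le (by norm_num)
      have : (0 : ℝ) ≤ k := by positivity
      linarith
    calc C1 * ((2 : ℝ) ^ ((s : ℝ) - k - κ1) * P ^ ((s : ℝ) - k - κ1))
        ≤ C1 * (2 ^ s * P ^ ((s : ℝ) - k - κ)) := by gcongr
      _ = _ := by ring
  have h4 : β * ‖x‖ ^ s ≤ 3 ^ s * (1 + C1 + C1 * 2 ^ s) * P ^ ((s : ℝ) - k - κ) := by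
    calc β * ‖x‖ ^ s ≤ β * (P ^ ρ + U + V) ^ s := by gcongr
      _ ≤ β * (3 ^ s * ((P ^ ρ) ^ s + U ^ s + V ^ s)) := by
          gcongr
          exact add3_pow_le _ _ _ (by positivity) hU hV s
      _ = 3 ^ s * (β * (P ^ ρ) ^ s + β * U ^ s + β * V ^ s) := by ring
      _ ≤ 3 ^ s * (P ^ ((s : ℝ) - k - κ) + C1 * P ^ ((s : ℝ) - k - κ) +
            C1 * 2 ^ s * P ^ ((s : ℝ) - k - κ)) := by
          have hU2 : β * U ^ s ≤ C1 * P ^ ((s : ℝ) - k - κ) := hU'.trans (by gcongr)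
          exact mul_le_mul_of_nonneg_left (add_le_add (add_le_add h1 hU2) h2) (by positivity)
      _ = _ := by ring
  have h5 : β * ‖y‖ ^ s ≤ P ^ ((s : ℝ) - k - κ) := by
    obtain ⟨s', rfl⟩ : ∃ s', s = s' + 1 := ⟨s - 1, by omega⟩
    obtain ⟨k', rfl⟩ : ∃ k', k = k' + 1 := ⟨k - 1, by omega⟩
    rw [Nat.add_sub_cancel] at hy
    have h6 : β * ‖y‖ ≤ P ^ (-(k' : ℝ)) := by
      calc β * ‖y‖ ≤ β * (1 / (β * P ^ k')) := by gcongr
        _ = 1 / P ^ k' := by field_simp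
        _ = _ := by rw [Real.rpow_neg hP0.le, Real.rpow_natCast, one_div]
    have h7 : ‖y‖ ≤ P ^ (1 - ξ) := by
      refine hy.trans ?_
      calc 1 / (β * P ^ k') ≤ 1 / (P ^ (ξ - ((k' + 1 : ℕ) : ℝ)) * P ^ k') := by gcongr
        _ = P ^ (1 - ξ) := by
            rw [← Real.rpow_natCast P k', ← Real.rpow_add hP0, one_div, ← Real.rpow_neg hP0.le]
            congr 1
            push_cast
            ring
    calc β * ‖y‖ ^ (s' + 1) = (β * ‖y‖) * ‖y‖ ^ s' := by ring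
      _ ≤ P ^ (-(k' : ℝ)) * (P ^ (1 - ξ)) ^ s' := by gcongr
      _ = P ^ (-(k' : ℝ) + (1 - ξ) * s') := by
          rw [← Real.rpow_natCast (P ^ (1 - ξ)) s', ← Real.rpow_mul hP0.le, ← Real.rpow_add hP0]
      _ ≤ _ := by
          apply Real.rpow_le_rpow_of_exponent_le hP
          have h8 : (1 : ℝ) ≤ s' := by exact_mod_cast (by omega : 1 ≤ s')
          push_cast
          nlinarith
  calc β * (‖x‖ ^ s + ‖y‖ ^ s) = β * ‖x‖ ^ s + β * ‖y‖ ^ s := by ring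
    _ ≤ 3 ^ s * (1 + C1 + C1 * 2 ^ s) * P ^ ((s : ℝ) - k - κ) + P ^ ((s : ℝ) - k - κ) :=
        add_le_add h4 h5
    _ = _ := by ring

/-- mean square comparison of two systems -/
lemma compare2 {ι κ : Type*} [DecidableEq ι] [DecidableEq κ] (A : Finset ι) (w : ι → ℝ) (v : ι → ℕ)
    (B : Finset κ) (w' : κ → ℝ) (v' : κ → ℕ) (s M : ℕ) (hM : 1 ≤ M)
    (hA : ∀ f ∈ Fintype.piFinset (fun _ : Fin s => A), ∑ j, v (f j) < M)
    (hB : ∀ f ∈ Fintype.piFinset (fun _ : Fin s => B), ∑ j, v' (f j) < M) :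
    (M : ℝ) * ∑ N ∈ range M, (rep A w v s N - rep B w' v' s N) ^ 2 ≤ 2 * ∑ b ∈ range (M / 2 + 1),
      ‖F A w v ((b : ℝ) / M) ^ s - F B w' v' ((b : ℝ) / M) ^ s‖ ^ 2 := by
  have hM' : (0 : ℝ) < M := by exact_mod_cast hM
  rw [bessel M hM (fun b => F A w v ((b : ℝ) / M) ^ s - F B w' v' ((b : ℝ) / M) ^ s)
    (fun N => rep A w v s N - rep B w' v' s N) (by
      intro N hN
      have h1 := fourier A w v s N M hN hA
      have h2 := fourier B w' v' s N M hN hB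
      push_cast
      rw [mul_sub, ← h1, ← h2, ← sum_sub_distrib]
      refine sum_congr rfl fun b _ => by ring)]
  refine sum_half M (fun b => ‖F A w v ((b : ℝ) / M) ^ s - F B w' v' ((b : ℝ) / M) ^ s‖ ^ 2)
    (fun _ => by positivity) (by
      intro b hb1 hb2
      have e1 : (((M - b : ℕ) : ℝ)) / M = 1 - (b : ℝ) / M := by
        rw [Nat.cast_sub hb2.le, sub_div, div_self hM'.ne']
      simp only [e1, norm_F_reflect]
      rw [← map_pow, ← map_pow, ← map_sub, Complex.norm_conj])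

end Pool.Agent.X30.WP
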