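import Mathlib
import Pool.Agent.X30.WQ1

/-!
# The deterministic circle method in mean square
-/

set_option autoImplicit false

namespace Pool.Agent.X30.WP

open Finset
open Pool.Agent.H469R2.NK (e norm_e e_add conj_e norm_sum_neg e_zero)

/-- the deterministic circle method, mean square version -/
theorem determ2 (k q s : ℕ) (hq1 : 1 ≤ q) (hq : q + 2 ≤ k) (hs : (2 : ℝ) ^ q < ((2 * s : ℕ) : ℝ)) (η : ℝ)
    (hη : ((k : ℝ) - η) * (((2 * s : ℕ) : ℝ) + q * 2 ^ q) < ((2 * s : ℕ) : ℝ) * (q + 1)) (ρ : ℝ) (hρ0 : 0 ≤ ρ)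
    (hρ : ρ * ((2 * s : ℕ) : ℝ) < ((2 * s : ℕ) : ℝ) - k) :
    ∃ c κ K : ℝ, 0 < c ∧ 0 < κ ∧ 0 ≤ K ∧ ∃ P0 : ℕ, ∀ P D1 D2 : ℕ, P0 ≤ P → 1 ≤ D1 → 1 ≤ D2 →
      (P : ℝ) ^ η ≤ 2 * D1 →
      ((2 * P : ℕ) : ℝ) ^ η ≤ 2 * D2 → D1 ≤ (4 * P) ^ (k - 1) → D2 ≤ (4 * P) ^ (k - 1) →
      ∀ M : ℕ, M = 2 * s * (4 * P) ^ k →
      ∀ a : ℕ → ℕ, (∀ n ∈ Ico P (4 * P), a n < 2 * (4 * P) ^ k) →
      (∀ b : ℕ, b ≤ M / 2 →
        ‖F (Ico P (4 * P)) (fun _ => 1) a ((b : ℝ) / M) - Sh k P D1 D2 ((b : ℝ) / M)‖ ≤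
          (P : ℝ) ^ ρ) →
      (((Ico (2 * s * P ^ k) (s * (2 ^ (k + 1) * P ^ k))).filter (fun N =>
        ((((Fintype.piFinset (fun _ : Fin s => Ico P (4 * P))).filter
          (fun x => ∑ i, a (x i) = N)).card : ℝ) < c * ((P : ℝ) ^ s / (P : ℝ) ^ k)))).card : ℝ) ≤
        K * (P : ℝ) ^ ((k : ℝ) - κ) := by
  classical
  set S : ℕ := 2 * s with hS
  have hSR : (S : ℝ) = 2 * s := by rw [hS]; push_cast; ring
  have h2q : (2 : ℝ) ≤ 2 ^ q := by
    calc (2 : ℝ) = 2 ^ 1 := by norm_num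
      _ ≤ 2 ^ q := pow_le_pow_right₀ (by norm_num) hq1
  have hs2' : (2 : ℝ) < S := lt_of_le_of_lt h2q hs
  have hs2 : 2 ≤ S := by exact_mod_cast hs2'.le
  have hs1 : 1 ≤ s := by omega
  have hk0 : (3 : ℝ) ≤ k := by exact_mod_cast (by omega : 3 ≤ k)
  have hρ1 : ρ < 1 := by
    by_contra hcon
    push Not at hcon
    nlinarith
  set ξ : ℝ := (1 - ρ) / 3 with hξdef
  have hξ : 0 < ξ := by rw [hξdef]; linarith
  have hξ1 : ξ ≤ 1 / 3 := by rw [hξdef]; linarith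
  have hρξ : ρ + 3 * ξ = 1 := by rw [hξdef]; ring
  obtain ⟨κ1, C1, hκ1, hC1, hblock⟩ := block_bound k q S hq1 hq hs2 hs η hη ξ hξ
  obtain ⟨c, hc, hrep⟩ := rep_lower k s (by omega) (by omega)
  set κ : ℝ := min κ1 (min ξ (S - k - ρ * S)) with hκdef
  have hκ : 0 < κ := lt_min hκ1 (lt_min hξ (by linarith))
  have hκκ1 : κ ≤ κ1 := min_le_left _ _
  have hκξ : κ ≤ ξ := (min_le_right _ _).trans (min_le_left _ _)
  have hκρ : κ ≤ S - k - ρ * S := (min_le_right _ _).trans (min_le_right _ _)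
  set C3 : ℝ := 3 * (2 * Real.pi) * ((k + 1) * 4 ^ (k - 1)) with hC3
  have hC30 : 0 ≤ C3 := by positivity
  set c4 : ℝ := 2 * s * 4 ^ k with hc4
  have hc40 : 0 < c4 := by positivity
  set E1 : ℝ := s * (1 + C3) * 3 ^ (s - 1) with hE1
  have hE10 : 0 ≤ E1 := by positivity
  set E2 : ℝ := 3 ^ S * (1 + C1 + C1 * 2 ^ S) + 1 with hE2
  have hE20 : 0 ≤ E2 := by positivity
  set E3 : ℝ := E1 ^ 2 + 2 * E2 with hE3
  have hE30 : 0 ≤ E3 := by positivity
  set K1 : ℝ := 2 * (E1 ^ 2 + E3 * c4 * (1 + |Real.log c4|)) with hK1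
  set K2 : ℝ := 2 * (E3 * c4 * (k * (2 / κ))) with hK2
  have hK10 : 0 ≤ K1 := by positivity
  have hK20 : 0 ≤ K2 := by positivity
  refine ⟨c / 2, κ / 2, (K1 + K2) / (c4 * (c / 2) ^ 2), by positivity, by positivity, by positivity,
    2 * s + 1, fun P D1 D2 hPP hD1 hD2 hD1η hD2η hD1' hD2' M hM a ha hb => ?_⟩
  have hP2s : 2 * s ≤ P := by omega
  have hP2 : 2 ≤ P := by omega
  have hP1R : (1 : ℝ) ≤ P := by exact_mod_cast (by omega : 1 ≤ P)
  have hP0R : (0 : ℝ) < P := by linarith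
  have hM' : (M : ℝ) = c4 * (P : ℝ) ^ k := by
    rw [hM, hc4]; push_cast; rw [mul_pow, hSR]; ring
  have hM0 : 0 < M := by rw [hM]; positivity
  have hM0R : (0 : ℝ) < M := by exact_mod_cast hM0
  set Dd : ℕ → ℝ := fun N => rep (Ico P (4 * P)) (fun _ => (1 : ℝ)) a s N - rep (AZ k P) (wZ k) (vZ k) s N
    with hDd
  -- comparison
  have hcmp : (M : ℝ) * ∑ N ∈ range M, (Dd N) ^ 2 ≤
      (K1 + K2) * (P : ℝ) ^ (κ / 2) * (P : ℝ) ^ ((S : ℝ) - κ) := by
    refine (compare2 (Ico P (4 * P)) (fun _ => (1 : ℝ)) a (AZ k P) (wZ k) (vZ k) s M hM0 ?_ ?_).trans ?_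
    · intro f hf
      rw [Fintype.mem_piFinset] at hf
      calc ∑ j, a (f j) < ∑ _j : Fin s, 2 * (4 * P) ^ k := by
            apply sum_lt_sum_of_nonempty
            · exact ⟨⟨0, by omega⟩, mem_univ _⟩
            · exact fun i _ => ha _ (hf i)
        _ = M := by
            rw [sum_const, card_univ, Fintype.card_fin, smul_eq_mul, hM, hS]; ring
    · intro f hf
      rw [Fintype.mem_piFinset] at hf
      calc ∑ j, vZ k (f j) < ∑ _j : Fin s, 2 * (4 * P) ^ k := by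
            apply sum_lt_sum_of_nonempty
            · exact ⟨⟨0, by omega⟩, mem_univ _⟩
            · intro i _
              have h1 := mem_AZ.1 (hf i)
              unfold vZ
              have h2 := gp_add k (f i).1
              have h3 : ((f i).1 + 1) ^ k ≤ (4 * P) ^ k := Nat.pow_le_pow_left (by omega) k
              omega
        _ = M := by
            rw [sum_const, card_univ, Fintype.card_fin, smul_eq_mul, hM, hS]; ring
    · -- the main inequality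
      set T : ℕ → ℝ := fun b => ‖F (Ico P (4 * P)) (fun _ => (1 : ℝ)) a ((b : ℝ) / M) ^ s -
        F (AZ k P) (wZ k) (vZ k) ((b : ℝ) / M) ^ s‖ with hT
      have hTn : ∀ b, 0 ≤ T b := fun b => norm_nonneg _
      have hdiff : ∀ b : ℕ, b ≤ M / 2 → ‖F (Ico P (4 * P)) (fun _ => (1 : ℝ)) a ((b : ℝ) / M) -
          F (AZ k P) (wZ k) (vZ k) ((b : ℝ) / M)‖ ≤
            (P : ℝ) ^ ρ + C3 * ((b : ℝ) / M * (P : ℝ) ^ k) := by
        intro b hbM
        have h1 := hb b hbM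
        have h2 := Sh_sub_FZ k P D1 D2 (by omega) hD1 hD2 hD1' hD2' ((b : ℝ) / M) (by positivity)
        have h3 : F (Ico P (4 * P)) (fun _ => (1 : ℝ)) a ((b : ℝ) / M) -
            F (AZ k P) (wZ k) (vZ k) ((b : ℝ) / M) =
            (F (Ico P (4 * P)) (fun _ => (1 : ℝ)) a ((b : ℝ) / M) - Sh k P D1 D2 ((b : ℝ) / M)) +
            (Sh k P D1 D2 ((b : ℝ) / M) - F (AZ k P) (wZ k) (vZ k) ((b : ℝ) / M)) := by ring
        rw [h3]
        exact (norm_add_le _ _).trans (add_le_add h1 h2)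
      have hsq : ∀ x : ℝ, ((P : ℝ) ^ x) ^ 2 = (P : ℝ) ^ (2 * x) := by
        intro x
        rw [← Real.rpow_natCast ((P : ℝ) ^ x) 2, ← Real.rpow_mul hP0R.le]
        congr 1
        push_cast
        ring
      have hT0 : T 0 ^ 2 ≤ E1 ^ 2 * (P : ℝ) ^ ((S : ℝ) - κ) := by
        have h1 := near_bound k s (by omega) C3 ρ ξ κ hC30 hρξ hρ0 hξ hκξ P hP1R _ _
          (norm_FA_le P a (((0 : ℕ) : ℝ) / M)) (norm_FZ_le' k P (by omega) (((0 : ℕ) : ℝ) / M))
          (((0 : ℕ) : ℝ) / M) (by simp only [Nat.cast_zero, zero_div]; positivity)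
          (hdiff 0 (Nat.zero_le _))
        rw [← hE1] at h1
        calc T 0 ^ 2 ≤ (E1 * (P : ℝ) ^ ((s : ℝ) - ξ - κ)) ^ 2 := pow_le_pow_left₀ (hTn 0) h1 2
          _ = E1 ^ 2 * (P : ℝ) ^ (2 * ((s : ℝ) - ξ - κ)) := by rw [mul_pow, hsq]
          _ ≤ _ := by
              apply mul_le_mul_of_nonneg_left _ (sq_nonneg E1)
              exact Real.rpow_le_rpow_of_exponent_le hP1R (by rw [hSR]; linarith)
      have hTb : ∀ b : ℕ, 1 ≤ b → b ≤ M / 2 →
          T b ^ 2 ≤ E3 * (P : ℝ) ^ ((S : ℝ) - k - κ) * (M * (1 / b)) := by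
        intro b hb1 hbM
        have hb1R : (1 : ℝ) ≤ b := by exact_mod_cast hb1
        have hb0 : (0 : ℝ) < b := by linarith
        have hβ0 : 0 < (b : ℝ) / M := by positivity
        have hβ2 : (b : ℝ) / M ≤ 1 / 2 := by
          rw [div_le_div_iff₀ hM0R (by norm_num)]
          have : b * 2 ≤ M := by omega
          have h' : (b : ℝ) * 2 ≤ M := by exact_mod_cast this
          linarith
        rcases le_or_gt ((b : ℝ) / M) ((P : ℝ) ^ (ξ - k)) with hcase | hcase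
        · have h1 := near_bound k s (by omega) C3 ρ ξ κ hC30 hρξ hρ0 hξ hκξ P hP1R _ _
            (norm_FA_le P a ((b : ℝ) / M)) (norm_FZ_le' k P (by omega) ((b : ℝ) / M))
            ((b : ℝ) / M) hcase (hdiff b hbM)
          have h2 : 1 ≤ (P : ℝ) ^ (ξ - k) * (M * (1 / b)) := by
            have h3 : (b : ℝ) / M * (M * (1 / b)) = 1 := by field_simp
            calc (1 : ℝ) = (b : ℝ) / M * (M * (1 / b)) := h3.symm
              _ ≤ _ := by gcongr
          rw [← hE1] at h1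
          calc T b ^ 2 ≤ (E1 * (P : ℝ) ^ ((s : ℝ) - ξ - κ)) ^ 2 := pow_le_pow_left₀ (hTn b) h1 2
            _ = E1 ^ 2 * (P : ℝ) ^ (2 * ((s : ℝ) - ξ - κ)) := by rw [mul_pow, hsq]
            _ ≤ E1 ^ 2 * (P : ℝ) ^ (2 * ((s : ℝ) - ξ - κ)) * ((P : ℝ) ^ (ξ - k) * (M * (1 / b))) :=
                le_mul_of_one_le_right (by positivity) h2
            _ = E1 ^ 2 * ((P : ℝ) ^ (2 * ((s : ℝ) - ξ - κ)) * (P : ℝ) ^ (ξ - k)) * (M * (1 / b)) := by ring
            _ = E1 ^ 2 * (P : ℝ) ^ (2 * ((s : ℝ) - ξ - κ) + (ξ - k)) * (M * (1 / b)) := by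
                rw [← Real.rpow_add hP0R]
            _ ≤ _ := by
                have h5 : (P : ℝ) ^ (2 * ((s : ℝ) - ξ - κ) + (ξ - k)) ≤ (P : ℝ) ^ ((S : ℝ) - k - κ) :=
                  Real.rpow_le_rpow_of_exponent_le hP1R (by rw [hSR]; linarith)
                have h6 : E1 ^ 2 ≤ E3 := by rw [hE3]; linarith
                gcongr
        · have hU := hblock P D1 hP2 hD1 hD1η ((b : ℝ) / M) hcase.le hβ2
          have hβ3 : (((2 * P : ℕ)) : ℝ) ^ (ξ - k) ≤ (b : ℝ) / M := by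
            refine le_trans ?_ hcase.le
            apply Real.rpow_le_rpow_of_nonpos hP0R
            · push_cast; linarith
            · linarith
          have hV := hblock (2 * P) D2 (by omega) hD2 hD2η ((b : ℝ) / M) hβ3 hβ2
          have h1 := far2 k S (by omega) hs2 C1 ρ ξ κ κ1 hC1.le hξ hκ hκξ hκκ1 (by linarith) P hP1R
            (F (Ico P (4 * P)) (fun _ => (1 : ℝ)) a ((b : ℝ) / M))
            (F (AZ k P) (wZ k) (vZ k) ((b : ℝ) / M))
            (‖Kf D1 ((b : ℝ) / M)‖ * ‖W k P ((b : ℝ) / M)‖)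
            (‖Kf D2 ((b : ℝ) / M)‖ * ‖W k (2 * P) ((b : ℝ) / M)‖) ((b : ℝ) / M)
            (by positivity) (by positivity) (by
              have h2 := hb b hbM
              have h3 : ‖Sh k P D1 D2 ((b : ℝ) / M)‖ ≤ ‖Kf D1 ((b : ℝ) / M)‖ * ‖W k P ((b : ℝ) / M)‖ +
                  ‖Kf D2 ((b : ℝ) / M)‖ * ‖W k (2 * P) ((b : ℝ) / M)‖ := by
                unfold Sh
                refine (norm_add_le _ _).trans ?_
                rw [norm_mul, norm_mul]
              have h4 := norm_add_le (F (Ico P (4 * P)) (fun _ => (1 : ℝ)) a ((b : ℝ) / M) -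
                Sh k P D1 D2 ((b : ℝ) / M)) (Sh k P D1 D2 ((b : ℝ) / M))
              rw [sub_add_cancel] at h4
              linarith) hcase.le hβ2
            (norm_FZ_le k P (by omega) (by omega) hβ0 hβ2) hU (by
              have h5 := hV
              push_cast at h5
              exact h5)
          rw [← hE2] at h1
          have h3 : (M * (1 / b) : ℝ) * ((b : ℝ) / M) = 1 := by field_simp
          have h7 : T b ^ 2 ≤ 2 * (‖F (Ico P (4 * P)) (fun _ => (1 : ℝ)) a ((b : ℝ) / M)‖ ^ S +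
              ‖F (AZ k P) (wZ k) (vZ k) ((b : ℝ) / M)‖ ^ S) := by
            have h8 : T b ≤ ‖F (Ico P (4 * P)) (fun _ => (1 : ℝ)) a ((b : ℝ) / M)‖ ^ s +
                ‖F (AZ k P) (wZ k) (vZ k) ((b : ℝ) / M)‖ ^ s := by
              simp only [hT]
              refine (norm_sub_le _ _).trans ?_
              rw [norm_pow, norm_pow]
            have h9 := pow_le_pow_left₀ (hTn b) h8 2
            rw [hS, mul_comm 2 s, pow_mul, pow_mul]
            nlinarith [sq_nonneg (‖F (Ico P (4 * P)) (fun _ => (1 : ℝ)) a ((b : ℝ) / M)‖ ^ s -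
                ‖F (AZ k P) (wZ k) (vZ k) ((b : ℝ) / M)‖ ^ s)]
          calc T b ^ 2 = (M * (1 / b) : ℝ) * ((b : ℝ) / M * T b ^ 2) := by
                rw [← mul_assoc, h3, one_mul]
            _ ≤ (M * (1 / b) : ℝ) * ((b : ℝ) / M * (2 * (‖F (Ico P (4 * P)) (fun _ => (1 : ℝ)) a ((b : ℝ) / M)‖ ^ S +
                  ‖F (AZ k P) (wZ k) (vZ k) ((b : ℝ) / M)‖ ^ S))) := by gcongr
            _ = (M * (1 / b) : ℝ) * (2 * ((b : ℝ) / M * (‖F (Ico P (4 * P)) (fun _ => (1 : ℝ)) a ((b : ℝ) / M)‖ ^ S +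
                  ‖F (AZ k P) (wZ k) (vZ k) ((b : ℝ) / M)‖ ^ S))) := by ring
            _ ≤ (M * (1 / b) : ℝ) * (2 * (E2 * (P : ℝ) ^ ((S : ℝ) - k - κ))) := by gcongr
            _ = 2 * E2 * (P : ℝ) ^ ((S : ℝ) - k - κ) * (M * (1 / b)) := by ring
            _ ≤ _ := by
                have h6 : 2 * E2 ≤ E3 := by rw [hE3]; nlinarith [sq_nonneg E1]
                gcongr
      -- sum over b
      have hsum : ∑ b ∈ range (M / 2 + 1), T b ^ 2 ≤ E1 ^ 2 * (P : ℝ) ^ ((S : ℝ) - κ) +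
          E3 * (P : ℝ) ^ ((S : ℝ) - k - κ) * (M * (1 + Real.log M)) := by
        rw [sum_range_succ', add_comm]
        refine add_le_add hT0 ?_
        calc ∑ i ∈ range (M / 2), T (i + 1) ^ 2
            ≤ ∑ i ∈ range (M / 2), E3 * (P : ℝ) ^ ((S : ℝ) - k - κ) *
                (M * (1 / ((i + 1 : ℕ) : ℝ))) := by
              refine sum_le_sum fun i hi => ?_
              rw [mem_range] at hi
              exact hTb (i + 1) (by omega) (by omega)
          _ = E3 * (P : ℝ) ^ ((S : ℝ) - k - κ) * (M * (harmonic (M / 2) : ℝ)) := by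
              rw [← mul_sum, ← mul_sum]
              congr 2
              unfold harmonic
              push_cast
              refine sum_congr rfl fun i _ => by rw [one_div]
          _ ≤ _ := by
              gcongr
              refine (harmonic_le_one_add_log _).trans ?_
              gcongr
              · have : 1 ≤ M / 2 := by
                  have : 2 ≤ M := by
                    rw [hM]
                    calc 2 ≤ 2 * s := by omega
                      _ ≤ 2 * s * (4 * P) ^ k := Nat.le_mul_of_pos_right _ (by positivity)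
                  omega
                exact_mod_cast this
              · exact_mod_cast Nat.div_le_self M 2
      have hlog : Real.log M ≤ |Real.log c4| + k * (2 / κ) * (P : ℝ) ^ (κ / 2) := by
        rw [hM', Real.log_mul hc40.ne' (by positivity), Real.log_pow]
        have h1 := Real.log_le_rpow_div hP0R.le (by positivity : 0 < κ / 2)
        have h2 : (P : ℝ) ^ (κ / 2) / (κ / 2) = (2 / κ) * (P : ℝ) ^ (κ / 2) := by field_simp
        rw [h2] at h1
        have h3 := le_abs_self (Real.log c4)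
        have h4 : (k : ℝ) * Real.log P ≤ k * ((2 / κ) * (P : ℝ) ^ (κ / 2)) := by gcongr
        linarith
      have hPk1 : (1 : ℝ) ≤ (P : ℝ) ^ (κ / 2) := Real.one_le_rpow hP1R (by positivity)
      have hsplit : (P : ℝ) ^ ((S : ℝ) - k - κ) * M = c4 * (P : ℝ) ^ ((S : ℝ) - κ) := by
        rw [hM', ← Real.rpow_natCast (P : ℝ) k]
        have : (P : ℝ) ^ ((S : ℝ) - k - κ) * (P : ℝ) ^ (k : ℝ) = (P : ℝ) ^ ((S : ℝ) - κ) := by
          rw [← Real.rpow_add hP0R]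
          congr 1
          ring
        rw [← this]
        ring
      calc 2 * ∑ b ∈ range (M / 2 + 1), T b ^ 2
          ≤ 2 * (E1 ^ 2 * (P : ℝ) ^ ((S : ℝ) - κ) +
            E3 * (P : ℝ) ^ ((S : ℝ) - k - κ) * (M * (1 + Real.log M))) := by gcongr
        _ = 2 * (E1 ^ 2 + E3 * c4 * (1 + Real.log M)) * (P : ℝ) ^ ((S : ℝ) - κ) := by
            rw [show E3 * (P : ℝ) ^ ((S : ℝ) - k - κ) * (M * (1 + Real.log M)) =
              E3 * ((P : ℝ) ^ ((S : ℝ) - k - κ) * M) * (1 + Real.log M) by ring, hsplit]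
            ring
        _ ≤ 2 * (E1 ^ 2 + E3 * c4 * (1 + (|Real.log c4| + k * (2 / κ) * (P : ℝ) ^ (κ / 2)))) *
              (P : ℝ) ^ ((S : ℝ) - κ) := by gcongr
        _ = (K1 + K2 * (P : ℝ) ^ (κ / 2)) * (P : ℝ) ^ ((S : ℝ) - κ) := by
            rw [hK1, hK2]; ring
        _ ≤ ((K1 + K2) * (P : ℝ) ^ (κ / 2)) * (P : ℝ) ^ ((S : ℝ) - κ) := by
            gcongr
            nlinarith
  -- the exceptional set
  set Bad : Finset ℕ := (Ico (S * P ^ k) (s * (2 ^ (k + 1) * P ^ k))).filter (fun N =>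
        ((((Fintype.piFinset (fun _ : Fin s => Ico P (4 * P))).filter
          (fun x => ∑ i, a (x i) = N)).card : ℝ) < c / 2 * ((P : ℝ) ^ s / (P : ℝ) ^ k))) with hBad
  have hBM : Bad ⊆ range M := by
    intro N hN
    rw [hBad, mem_filter, mem_Ico] at hN
    rw [mem_range, hM, hS, mul_pow]
    have h1 : 2 ^ (k + 1) ≤ 2 * 4 ^ k := by
      have : (4 : ℕ) ^ k = 2 ^ k * 2 ^ k := by rw [← mul_pow]; norm_num
      have h2 : 1 ≤ 2 ^ k := Nat.one_le_two_pow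
      rw [this, pow_succ]
      nlinarith
    calc N < s * (2 ^ (k + 1) * P ^ k) := hN.1.2
      _ ≤ s * (2 * 4 ^ k * P ^ k) := by gcongr
      _ = _ := by ring
  have hbad : ∀ N ∈ Bad, (c / 2 * ((P : ℝ) ^ s / (P : ℝ) ^ k)) ^ 2 ≤ (Dd N) ^ 2 := by
    intro N hN
    rw [hBad, mem_filter, mem_Ico] at hN
    have h1 := hrep P N hP2s (by rw [← hS]; exact hN.1.1) hN.1.2
    have h2 := hN.2
    rw [← rep_one] at h2
    have h3 : c / 2 * ((P : ℝ) ^ s / (P : ℝ) ^ k) ≤ -(Dd N) := by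
      simp only [hDd]
      linarith
    have h4 : 0 ≤ c / 2 * ((P : ℝ) ^ s / (P : ℝ) ^ k) := by positivity
    nlinarith
  have h1 : (Bad.card : ℝ) * (c / 2 * ((P : ℝ) ^ s / (P : ℝ) ^ k)) ^ 2 ≤ ∑ N ∈ range M, (Dd N) ^ 2 := by
    calc (Bad.card : ℝ) * (c / 2 * ((P : ℝ) ^ s / (P : ℝ) ^ k)) ^ 2
        = ∑ _N ∈ Bad, (c / 2 * ((P : ℝ) ^ s / (P : ℝ) ^ k)) ^ 2 := by rw [sum_const, nsmul_eq_mul]
      _ ≤ ∑ N ∈ Bad, (Dd N) ^ 2 := sum_le_sum hbad
      _ ≤ _ := sum_le_sum_of_subset_of_nonneg hBM (fun _ _ _ => by positivity)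
  have h2 : (c4 * (P : ℝ) ^ k) * ((Bad.card : ℝ) * (c / 2 * ((P : ℝ) ^ s / (P : ℝ) ^ k)) ^ 2) ≤
      (K1 + K2) * (P : ℝ) ^ (κ / 2) * (P : ℝ) ^ ((S : ℝ) - κ) := by
    rw [← hM']
    exact (mul_le_mul_of_nonneg_left h1 hM0R.le).trans hcmp
  have hPS : (P : ℝ) ^ (κ / 2) * (P : ℝ) ^ ((S : ℝ) - κ) * (P : ℝ) ^ k =
      (P : ℝ) ^ ((k : ℝ) - κ / 2) * ((P : ℝ) ^ s) ^ 2 := by
    rw [← pow_mul, ← Real.rpow_natCast (P : ℝ) k, ← Real.rpow_natCast (P : ℝ) (s * 2),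
      ← Real.rpow_add hP0R, ← Real.rpow_add hP0R, ← Real.rpow_add hP0R]
    congr 1
    rw [hSR]
    push_cast
    ring
  have hPk : (0 : ℝ) < (P : ℝ) ^ k := by positivity
  have hPs : (0 : ℝ) < (P : ℝ) ^ s := by positivity
  rw [div_mul_eq_mul_div, le_div_iff₀ (by positivity)]
  have h3 : (Bad.card : ℝ) * (c4 * (c / 2) ^ 2) * (((P : ℝ) ^ s) ^ 2) =
      ((c4 * (P : ℝ) ^ k) * ((Bad.card : ℝ) * (c / 2 * ((P : ℝ) ^ s / (P : ℝ) ^ k)) ^ 2)) * (P : ℝ) ^ k := by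
    field_simp
  have h4 : (Bad.card : ℝ) * (c4 * (c / 2) ^ 2) * (((P : ℝ) ^ s) ^ 2) ≤
      (K1 + K2) * (P : ℝ) ^ ((k : ℝ) - κ / 2) * (((P : ℝ) ^ s) ^ 2) := by
    rw [h3]
    calc _ ≤ ((K1 + K2) * (P : ℝ) ^ (κ / 2) * (P : ℝ) ^ ((S : ℝ) - κ)) * (P : ℝ) ^ k := by gcongr
      _ = (K1 + K2) * ((P : ℝ) ^ (κ / 2) * (P : ℝ) ^ ((S : ℝ) - κ) * (P : ℝ) ^ k) := by ring
      _ = _ := by rw [hPS]; ring
  exact le_of_mul_le_mul_right h4 (by positivity)

end Pool.Agent.X30.WP
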