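import Mathlib
import Pool.Agent.X30.WQ1

/-!
# Almost all integers are sums of `s > k` shifted powers
-/

set_option autoImplicit false

namespace Pool.Agent.X30.WP

open Finset MeasureTheory ProbabilityTheory
open Pool.Agent.H469R2.NK (e norm_e e_add conj_e norm_sum_neg e_zero)

/-- from dyadic-type intervals to initial segments -/
lemma tiles (k s : ℕ) (hk : 1 ≤ k) (hs : 1 ≤ s) (κ K : ℝ) (hκk : κ < k) (hK : 0 ≤ K) (j0 : ℕ)
    (Bad : ℕ → Prop)
    (h : ∀ j, j0 ≤ j → ∀ B : Finset ℕ, (∀ N ∈ B, 2 * s * (2 ^ j) ^ k ≤ N ∧ N < s * (2 ^ (k + 1) * (2 ^ j) ^ k) ∧ Bad N) →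
      (B.card : ℝ) ≤ K * ((2 ^ j : ℕ) : ℝ) ^ ((k : ℝ) - κ)) :
    ∃ C : ℝ, 0 ≤ C ∧ ∀ X : ℕ, ∀ B : Finset ℕ, (∀ N ∈ B, N ≤ X ∧ Bad N) →
      (B.card : ℝ) ≤ C * ((X : ℝ) + 1) ^ (1 - κ / k) := by
  classical
  have hk0 : (0 : ℝ) < k := by exact_mod_cast (by omega : 0 < k)
  set r : ℝ := (2 : ℝ) ^ ((k : ℝ) - κ) with hr
  have hr1 : 1 < r := Real.one_lt_rpow (by norm_num) (by linarith)
  have hr0 : 0 < r := by linarith
  set A0 : ℕ := 2 * s * (2 ^ j0) ^ k with hA0
  refine ⟨A0 + K * (r / (r - 1)), by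
    have : 0 ≤ r / (r - 1) := div_nonneg hr0.le (by linarith)
    positivity, fun X B hB => ?_⟩
  have hX1 : (1 : ℝ) ≤ (X : ℝ) + 1 := by
    have : (0 : ℝ) ≤ X := by positivity
    linarith
  have hexp : 0 ≤ 1 - κ / k := by
    rw [sub_nonneg, div_le_one hk0]; exact hκk.le
  have hXpow : (1 : ℝ) ≤ ((X : ℝ) + 1) ^ (1 - κ / k) := Real.one_le_rpow hX1 hexp
  -- the largest exponent
  set J : ℕ := Nat.log (2 ^ k) (X + 1) with hJ
  have hk1 : 1 < 2 ^ k := Nat.one_lt_two_pow (by omega)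
  have hJ1 : (2 ^ k) ^ J ≤ X + 1 := Nat.pow_log_le_self _ (by omega)
  -- splitting
  set f : ℕ → ℕ := fun N => Nat.log (2 ^ k) (N / (2 * s)) with hf
  have hsplit : B ⊆ (B.filter (fun N => N < A0)) ∪ (Ico j0 (J + 1)).biUnion
      (fun j => B.filter (fun N => A0 ≤ N ∧ f N = j)) := by
    intro N hN
    rw [mem_union, mem_filter, mem_biUnion]
    by_cases hNA : N < A0
    · exact Or.inl ⟨hN, hNA⟩
    · right
      push Not at hNA
      refine ⟨f N, ?_, mem_filter.2 ⟨hN, hNA, rfl⟩⟩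
      rw [mem_Ico]
      constructor
      · simp only [hf]
        apply Nat.le_log_of_pow_le hk1
        rw [Nat.le_div_iff_mul_le (by omega)]
        calc (2 ^ k) ^ j0 * (2 * s) = A0 := by rw [hA0, ← pow_mul, ← pow_mul, mul_comm k j0]; ring
          _ ≤ N := hNA
      · have h1 : f N ≤ J := by
          simp only [hf, hJ]
          apply Nat.log_mono_right
          calc N / (2 * s) ≤ N := Nat.div_le_self _ _
            _ ≤ X + 1 := by have := (hB N hN).1; omega
        omega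
  have hc1 : ((B.filter (fun N => N < A0)).card : ℝ) ≤ A0 := by
    have h1 : (B.filter (fun N => N < A0)) ⊆ range A0 := by
      intro N hN
      rw [mem_filter] at hN
      exact mem_range.2 hN.2
    have h2 := card_le_card h1
    rw [card_range] at h2
    exact_mod_cast h2
  have hc2 : ∀ j ∈ Ico j0 (J + 1), ((B.filter (fun N => A0 ≤ N ∧ f N = j)).card : ℝ) ≤ K * r ^ j := by
    intro j hj
    rw [mem_Ico] at hj
    refine (h j hj.1 _ ?_).trans (le_of_eq ?_)
    · intro N hN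
      rw [mem_filter] at hN
      obtain ⟨hN1, hN2, hN3⟩ := hN
      have hy0 : N / (2 * s) ≠ 0 := by
        have h1 : 1 ≤ N / (2 * s) := by
          rw [Nat.le_div_iff_mul_le (by omega)]
          calc 1 * (2 * s) ≤ 2 * s * (2 ^ j0) ^ k := by
                rw [one_mul]; exact Nat.le_mul_of_pos_right _ (by positivity)
            _ ≤ N := hN2
        omega
      have h1 : (2 ^ k) ^ j ≤ N / (2 * s) := by
        rw [← hN3]; exact Nat.pow_log_le_self _ hy0
      have h2 : N / (2 * s) < (2 ^ k) ^ (j + 1) := by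
        rw [← hN3]; exact Nat.lt_pow_succ_log_self hk1 _
      have hpow : ((2 : ℕ) ^ k) ^ j = (2 ^ j) ^ k := by rw [← pow_mul, ← pow_mul, mul_comm]
      refine ⟨?_, ?_, (hB N hN1).2⟩
      · rw [← hpow]
        rw [Nat.le_div_iff_mul_le (by omega)] at h1
        linarith
      · have h3 : N < 2 * s * (N / (2 * s) + 1) := by
          have := Nat.lt_div_mul_add (a := N) (b := 2 * s) (by omega)
          calc N < N / (2 * s) * (2 * s) + 2 * s := this
            _ = _ := by ring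
        calc N < 2 * s * (N / (2 * s) + 1) := h3
          _ ≤ 2 * s * (2 ^ k) ^ (j + 1) := Nat.mul_le_mul_left _ h2
          _ = s * (2 ^ (k + 1) * (2 ^ j) ^ k) := by rw [← hpow, pow_succ, pow_succ]; ring
    · congr 1
      push_cast
      rw [hr, ← Real.rpow_natCast 2 j, ← Real.rpow_mul (by norm_num),
        ← Real.rpow_natCast ((2 : ℝ) ^ ((k : ℝ) - κ)) j, ← Real.rpow_mul (by norm_num), mul_comm]
  have hgeo : ∑ j ∈ Ico j0 (J + 1), r ^ j ≤ r / (r - 1) * r ^ J := by
    calc ∑ j ∈ Ico j0 (J + 1), r ^ j ≤ ∑ j ∈ range (J + 1), r ^ j :=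
          sum_le_sum_of_subset_of_nonneg (by
            intro j hj
            rw [mem_Ico] at hj
            exact mem_range.2 hj.2) (fun _ _ _ => by positivity)
      _ = (r ^ (J + 1) - 1) / (r - 1) := geom_sum_eq hr1.ne' _
      _ ≤ _ := by
          rw [div_mul_eq_mul_div]
          apply div_le_div_of_nonneg_right _ (by linarith)
          rw [pow_succ]
          linarith
  have hrJ : r ^ J ≤ ((X : ℝ) + 1) ^ (1 - κ / k) := by
    have h1 : r ^ J = (((2 : ℝ) ^ k) ^ J) ^ (1 - κ / k) := by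
      rw [hr, ← Real.rpow_natCast ((2 : ℝ) ^ ((k : ℝ) - κ)) J, ← Real.rpow_mul (by norm_num), ← pow_mul,
        ← Real.rpow_natCast 2 (k * J), ← Real.rpow_mul (by norm_num)]
      congr 1
      push_cast
      field_simp
    rw [h1]
    apply Real.rpow_le_rpow (by positivity) _ hexp
    have h2 : (((2 ^ k) ^ J : ℕ) : ℝ) ≤ ((X + 1 : ℕ) : ℝ) := by exact_mod_cast hJ1
    push_cast at h2
    exact h2
  have hr2 : 0 ≤ r / (r - 1) := div_nonneg hr0.le (by linarith)
  have hcard : (B.card : ℝ) ≤ A0 + K * (r / (r - 1) * r ^ J) := by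
    have h1 := (card_le_card hsplit).trans (card_union_le _ _)
    have h2 : ((B.card : ℕ) : ℝ) ≤ ((B.filter (fun N => N < A0)).card : ℝ) +
        ∑ j ∈ Ico j0 (J + 1), ((B.filter (fun N => A0 ≤ N ∧ f N = j)).card : ℝ) := by
      have h3 := h1.trans (Nat.add_le_add_left card_biUnion_le _)
      exact_mod_cast h3
    refine h2.trans (add_le_add hc1 ?_)
    calc ∑ j ∈ Ico j0 (J + 1), ((B.filter (fun N => A0 ≤ N ∧ f N = j)).card : ℝ)
        ≤ ∑ j ∈ Ico j0 (J + 1), K * r ^ j := sum_le_sum hc2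
      _ = K * ∑ j ∈ Ico j0 (J + 1), r ^ j := by rw [mul_sum]
      _ ≤ _ := by gcongr
  calc (B.card : ℝ) ≤ A0 + K * (r / (r - 1) * r ^ J) := hcard
    _ ≤ A0 * ((X : ℝ) + 1) ^ (1 - κ / k) + K * (r / (r - 1) * ((X : ℝ) + 1) ^ (1 - κ / k)) := by
        have h0 : (0 : ℝ) ≤ A0 := by positivity
        gcongr
        exact le_mul_of_one_le_right h0 hXpow
    _ = _ := by ring

end Pool.Agent.X30.WP
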