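import Mathlib
import Pool.Agent.X30.WQ2
import Pool.Agent.X30.WQ3

/-!
# Almost all integers have the expected number of representations by `s > k` shifted powers
-/

set_option autoImplicit false

namespace Pool.Agent.X30.WP

open Finset MeasureTheory ProbabilityTheory
open Pool.Agent.H469R2.NK (e norm_e e_add conj_e norm_sum_neg e_zero)

variable {Ω : Type*} [MeasurableSpace Ω] {μ : Measure Ω} [IsProbabilityMeasure μ]

theorem almost_all (k q s : ℕ) (hq1 : 1 ≤ q) (hq : q + 2 ≤ k) (hs : (2 : ℝ) ^ q < 2 * s) (η h : ℝ)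
    (hη : ((k : ℝ) - η) * (2 * s + q * 2 ^ q) < 2 * s * (q + 1)) (hη1 : η ≤ k - 1)
    (hh0 : 0 ≤ h) (hh : (k : ℝ) < s * (1 - h))
    (δ : ℕ → Ω → ℕ) (hm : ∀ m, Measurable (δ m)) (hind : iIndepFun δ μ)
    (hu : ∀ m, ∀ d < 2 ^ ⌊η * Nat.log 2 m⌋₊,
      μ {ω | δ m ω = d} = 1 / ((2 ^ ⌊η * Nat.log 2 m⌋₊ : ℕ) : ENNReal)) :
    ∃ c κ : ℝ, 0 < c ∧ 0 < κ ∧ ∀ᵐ ω ∂μ, ∃ C : ℝ, 0 ≤ C ∧ ∀ X : ℕ, ∀ B : Finset ℕ,
      (∀ N ∈ B, N ≤ X ∧ ¬ ∃ S : Finset (Fin s → ℕ),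
        (∀ x ∈ S, (∀ i, 1 ≤ x i) ∧ N = ∑ i, (x i ^ k + δ (tau h (x i)) ω)) ∧
        c * (N : ℝ) ^ ((s : ℝ) / k - 1) ≤ S.card) →
      (B.card : ℝ) ≤ C * ((X : ℝ) + 1) ^ (1 - κ) := by
  classical
  have hk0 : (3 : ℝ) ≤ k := by exact_mod_cast (by omega : 3 ≤ k)
  have h2q : (2 : ℝ) ≤ 2 ^ q := by
    calc (2 : ℝ) = 2 ^ 1 := by norm_num
      _ ≤ 2 ^ q := pow_le_pow_right₀ (by norm_num) hq1
  have hs2' : (1 : ℝ) < s := by linarith
  have hs0 : 1 ≤ s := by exact_mod_cast hs2'.le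
  have hh1 : h < 1 := by
    by_contra hcon
    push Not at hcon
    nlinarith
  have hη0 : 0 < η := by
    by_contra hcon
    push Not at hcon
    have h1 : (q : ℝ) + 2 ≤ k := by exact_mod_cast hq
    have h2 : (0 : ℝ) ≤ q * 2 ^ q := by positivity
    have h3 : (k : ℝ) * (2 * s + q * 2 ^ q) ≤ (k - η) * (2 * s + q * 2 ^ q) := by
      apply mul_le_mul_of_nonneg_right _ (by positivity)
      linarith
    have h4 : (2 * s : ℝ) * (q + 1) ≤ k * (2 * s + q * 2 ^ q) := by nlinarith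
    linarith
  set ε : ℝ := (s * (1 - h) - k) / (4 * s) with hε
  have hε0 : 0 < ε := by
    rw [hε]
    apply div_pos (by linarith) (by linarith)
  have hεs : ε * s = (s * (1 - h) - k) / 4 := by
    rw [hε]
    field_simp
  have hSR : ((2 * s : ℕ) : ℝ) = 2 * s := by push_cast; ring
  obtain ⟨c, κ, K, hc, hκ, hK, P0, hP0⟩ := determ2 k q s hq1 hq (by rw [hSR]; exact hs) η
    (by rw [hSR]; exact hη) ((1 + h) / 2 + ε) (by positivity) (by rw [hSR]; nlinarith)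
  have hsk : 0 ≤ (s : ℝ) / k - 1 := by
    rw [sub_nonneg, le_div_iff₀ (by linarith)]
    nlinarith
  set κ' : ℝ := min κ 1 with hκ'
  have hκ'0 : 0 < κ' := lt_min hκ one_pos
  set B0 : ℝ := (s * 2 ^ (k + 1) : ℝ) ^ ((s : ℝ) / k - 1) with hB0
  have hB0' : 0 < B0 := by positivity
  refine ⟨c / B0, κ' / k, by positivity, by positivity, ?_⟩
  have hδ : ∀ᵐ ω ∂μ, ∀ m, δ m ω < 2 ^ ⌊η * Nat.log 2 m⌋₊ :=
    ae_all_iff.2 fun m => unif_ae (δ m) (hm m) _ Nat.one_le_two_pow (hu m)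
  filter_upwards [hδ, close (μ := μ) k s η h ε hh0 hh1.le hε0 δ hm hind hu] with ω hω1 hω2
  obtain ⟨j0, hj0⟩ := hω2
  apply tiles k s (by omega) hs0 κ' K
    (lt_of_le_of_lt (min_le_right κ 1) (by linarith)) hK (max P0 j0)
    (fun N => ¬ ∃ S : Finset (Fin s → ℕ),
        (∀ x ∈ S, (∀ i, 1 ≤ x i) ∧ N = ∑ i, (x i ^ k + δ (tau h (x i)) ω)) ∧
        c / B0 * (N : ℝ) ^ ((s : ℝ) / k - 1) ≤ S.card)
  intro j hjmax B hB
  have hjP : P0 ≤ 2 ^ j := (le_max_left _ _).trans (hjmax.trans Nat.lt_two_pow_self.le)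
  have hjj : j0 ≤ j := (le_max_right _ _).trans hjmax
  have hfloor : ∀ i : ℕ, (2 : ℝ) ^ (η * i) ≤ 2 * ((2 ^ ⌊η * (i : ℝ)⌋₊ : ℕ) : ℝ) := by
    intro i
    have h1 := Nat.lt_floor_add_one (η * (i : ℝ))
    push_cast
    rw [← Real.rpow_natCast 2 ⌊η * (i : ℝ)⌋₊]
    calc (2 : ℝ) ^ (η * i) ≤ (2 : ℝ) ^ (1 + ((⌊η * (i : ℝ)⌋₊ : ℕ) : ℝ)) := by
          apply Real.rpow_le_rpow_of_exponent_le (by norm_num)
          linarith
      _ = _ := by rw [Real.rpow_add (by norm_num), Real.rpow_one]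
  have hcast : ∀ i : ℕ, (((2 ^ i : ℕ)) : ℝ) ^ η = (2 : ℝ) ^ (η * i) := by
    intro i
    push_cast
    rw [← Real.rpow_natCast 2 i, ← Real.rpow_mul (by norm_num), mul_comm]
  have hceil : ∀ i : ℕ, 2 ^ ⌊η * (i : ℝ)⌋₊ ≤ (2 ^ i) ^ (k - 1) := by
    intro i
    rw [← pow_mul]
    apply Nat.pow_le_pow_right (by norm_num)
    have h1 : η * (i : ℝ) ≤ ((i * (k - 1) : ℕ) : ℝ) := by
      rw [Nat.cast_mul, Nat.cast_sub (by omega), mul_comm]
      gcongr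
      simpa using hη1
    calc ⌊η * (i : ℝ)⌋₊ ≤ ⌊((i * (k - 1) : ℕ) : ℝ)⌋₊ := Nat.floor_le_floor h1
      _ = _ := Nat.floor_natCast _
  have hD1' : 2 ^ ⌊η * (j : ℝ)⌋₊ ≤ (4 * 2 ^ j) ^ (k - 1) :=
    (hceil j).trans (Nat.pow_le_pow_left (by omega) _)
  have hD2' : 2 ^ ⌊η * ((j + 1 : ℕ) : ℝ)⌋₊ ≤ (4 * 2 ^ j) ^ (k - 1) :=
    (hceil (j + 1)).trans (Nat.pow_le_pow_left (by rw [pow_succ]; omega) _)
  have hpos : 0 < 2 ^ j := by positivity
  have hfinal := hP0 (2 ^ j) (2 ^ ⌊η * (j : ℝ)⌋₊) (2 ^ ⌊η * ((j + 1 : ℕ) : ℝ)⌋₊) hjP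
    Nat.one_le_two_pow Nat.one_le_two_pow
    (by rw [hcast]; exact hfloor j)
    (by
      rw [show 2 * 2 ^ j = 2 ^ (j + 1) by rw [pow_succ]; ring, hcast]
      exact hfloor (j + 1))
    hD1' hD2' (2 * s * (4 * 2 ^ j) ^ k)
    rfl (fun n => n ^ k + δ (tau h n) ω)
    (by
      intro n hn
      rw [mem_Ico] at hn
      have h1 : n ^ k < (4 * 2 ^ j) ^ k := Nat.pow_lt_pow_left hn.2 (by omega)
      have h2 := hω1 (tau h n)
      rw [log_tau h hh1.le n (Nat.one_le_two_pow.trans hn.1)] at h2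
      have h3 : 2 ^ ⌊η * (Nat.log 2 n : ℝ)⌋₊ ≤ (4 * 2 ^ j) ^ k := by
        refine (hceil (Nat.log 2 n)).trans ?_
        have h4 : 2 ^ Nat.log 2 n ≤ n := Nat.pow_log_le_self 2 (by omega)
        calc (2 ^ Nat.log 2 n) ^ (k - 1) ≤ (4 * 2 ^ j) ^ (k - 1) :=
              Nat.pow_le_pow_left (by omega) _
          _ ≤ (4 * 2 ^ j) ^ k := Nat.pow_le_pow_right (by omega) (by omega)
      omega)
    (by
      intro b hb
      rw [F_sub_Sh k (2 ^ j) _ _ (fun n => 2 ^ ⌊η * (Nat.log 2 n : ℝ)⌋₊)]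
      · exact hj0 j hjj b hb
      · intro n hn
        rw [mem_Ico] at hn
        rw [log_block hn.1 hn.2]
      · intro n hn
        rw [mem_Ico] at hn
        rw [log_block (j := j + 1) (by rw [pow_succ]; linarith) (by rw [pow_succ]; linarith)])
  have hsub : B ⊆ (Ico (2 * s * (2 ^ j) ^ k) (s * (2 ^ (k + 1) * (2 ^ j) ^ k))).filter (fun N =>
        ((((Fintype.piFinset (fun _ : Fin s => Ico (2 ^ j) (4 * 2 ^ j))).filter
          (fun x => ∑ i, (fun n => n ^ k + δ (tau h n) ω) (x i) = N)).card : ℝ) <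
            c * (((2 ^ j : ℕ) : ℝ) ^ s / ((2 ^ j : ℕ) : ℝ) ^ k))) := by
    intro N hN
    obtain ⟨hN1, hNup, hN3⟩ := hB N hN
    rw [mem_filter, mem_Ico]
    refine ⟨⟨hN1, hNup⟩, ?_⟩
    by_contra hcon
    rw [not_lt] at hcon
    apply hN3
    refine ⟨_, ?_, le_trans ?_ hcon⟩
    · intro x hx
      rw [mem_filter, Fintype.mem_piFinset] at hx
      refine ⟨fun i => ?_, hx.2.symm⟩
      have := hx.1 i
      rw [mem_Ico] at this
      omega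
    · have hP0R : (0 : ℝ) < ((2 ^ j : ℕ) : ℝ) := by positivity
      have hN1 : (N : ℝ) ≤ (s * 2 ^ (k + 1)) * ((2 ^ j : ℕ) : ℝ) ^ k := by
        have h1 : (N : ℝ) ≤ ((s * (2 ^ (k + 1) * (2 ^ j) ^ k) : ℕ) : ℝ) := by exact_mod_cast hNup.le
        refine h1.trans (le_of_eq ?_)
        push_cast
        ring
      have h2 : (N : ℝ) ^ ((s : ℝ) / k - 1) ≤ B0 * (((2 ^ j : ℕ) : ℝ) ^ s / ((2 ^ j : ℕ) : ℝ) ^ k) := by
        calc (N : ℝ) ^ ((s : ℝ) / k - 1) ≤ ((s * 2 ^ (k + 1)) * ((2 ^ j : ℕ) : ℝ) ^ k) ^ ((s : ℝ) / k - 1) :=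
              Real.rpow_le_rpow (by positivity) hN1 hsk
          _ = B0 * (((2 ^ j : ℕ) : ℝ) ^ k) ^ ((s : ℝ) / k - 1) := by
              rw [Real.mul_rpow (by positivity) (by positivity)]
          _ = _ := by
              congr 1
              rw [← Real.rpow_natCast (((2 ^ j : ℕ) : ℝ)) k, ← Real.rpow_mul hP0R.le,
                ← Real.rpow_natCast (((2 ^ j : ℕ) : ℝ)) s, ← Real.rpow_sub hP0R]
              congr 1
              field_simp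
      calc c / B0 * (N : ℝ) ^ ((s : ℝ) / k - 1)
          ≤ c / B0 * (B0 * (((2 ^ j : ℕ) : ℝ) ^ s / ((2 ^ j : ℕ) : ℝ) ^ k)) := by gcongr
        _ = _ := by field_simp
  have h1 : (B.card : ℝ) ≤ K * ((2 ^ j : ℕ) : ℝ) ^ ((k : ℝ) - κ) := by
    refine le_trans ?_ hfinal
    exact_mod_cast card_le_card hsub
  refine h1.trans ?_
  gcongr
  · exact_mod_cast Nat.one_le_two_pow
  · exact min_le_left _ _

end Pool.Agent.X30.WP
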