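import Mathlib
import Pool.Agent.X30.WQ4

/-!
# A positive proportion of the integers is not a sum of `k` numbers `x ^ k + w x`
-/

set_option autoImplicit false

namespace Pool.Agent.X30.WP

open Finset

/-- `N` is a sum of `t` numbers `x ^ k + w x`, `x ≥ 1` -/
def SumOf (k t : ℕ) (w : ℕ → ℕ) (N : ℕ) : Prop :=
  ∃ x : Fin t → ℕ, (∀ i, 1 ≤ x i) ∧ N = ∑ i, ((x i) ^ k + w (x i))

/-- lower bound for the number of integers up to `(2 k Y) ^ k` that are not sums of at most `k` numbers
`x ^ k + w x` -/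
lemma missing0 (k' : ℕ) (w : ℕ → ℕ) (Y : ℕ) (hY : 2 * (2 * (k' + 2) ^ 2 + (k' + 2)) ≤ Y) (R : Finset ℕ)
    (hR : ∀ N, N ≤ (2 * (k' + 2) * Y) ^ (k' + 2) → (∀ t ≤ k' + 2, ¬ SumOf (k' + 2) t w N) → N ∈ R) :
    Y ^ 2 * (2 * (k' + 2) * Y + 1) ^ k' ≤ 2 * R.card := by
  classical
  set k := k' + 2 with hkdef
  have hk : 2 ≤ k := by omega
  set X : ℕ := 2 * k * Y with hX
  have hXY : Y ≤ X := by rw [hX]; exact Nat.le_mul_of_pos_left _ (by omega)
  -- the values
  set a : ℕ → ℕ := fun x => if x = 0 then 0 else x ^ k + w x with ha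
  set U : Finset (Fin k → ℕ) := Fintype.piFinset (fun _ : Fin k => range (X + 1)) with hU
  set A : Finset (Fin k → ℕ) := U.filter (fun f => ∑ i, a (f i) ≤ X ^ k) with hA
  -- every other N is a value
  have hsurj : range (X ^ k + 1) ⊆ R ∪ A.image (fun f => ∑ i, a (f i)) := by
    intro N hN'
    rw [mem_range] at hN'
    have hN2 : N ≤ X ^ k := by omega
    rw [mem_union]
    by_cases hcase : ∀ t ≤ k, ¬ SumOf k t w N
    · exact Or.inl (hR N hN2 hcase)
    right
    push Not at hcase
    obtain ⟨t, ht, x, hx1, hx2⟩ := hcase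
    have hxX : ∀ i, x i ≤ X := by
      intro i
      have h1 : (x i) ^ k ≤ N := by
        rw [hx2]
        calc (x i) ^ k ≤ (x i) ^ k + w (x i) := by omega
          _ ≤ _ := single_le_sum (f := fun i => (x i) ^ k + w (x i)) (fun _ _ => Nat.zero_le _) (mem_univ i)
      exact le_of_pow_le_pow_left₀ (by omega) (by omega) (h1.trans hN2)
    set f : Fin k → ℕ := fun i => if h : (i : ℕ) < t then x ⟨i, h⟩ else 0 with hf
    have hval : ∑ i, a (f i) = N := by
      rw [hx2]
      have h1 : ∀ i : Fin t, (x i) ^ k + w (x i) = a (x i) := by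
        intro i
        simp only [ha]
        rw [if_neg (by have := hx1 i; omega)]
      rw [sum_congr rfl (fun i _ => h1 i)]
      have h2 : ∑ i : Fin t, a (x i) = ∑ i ∈ range t, (if h : i < t then a (x ⟨i, h⟩) else 0) := by
        rw [Finset.sum_range]
        refine sum_congr rfl fun i _ => ?_
        rw [dif_pos i.2]
      have h3 : ∑ i : Fin k, a (f i) = ∑ i ∈ range k, (if h : i < t then a (x ⟨i, h⟩) else 0) := by
        rw [Finset.sum_range]
        refine sum_congr rfl fun i _ => ?_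
        simp only [hf]
        split_ifs with h
        · rfl
        · simp only [ha, if_true]
      rw [h2, h3]
      symm
      apply sum_subset (range_subset_range.2 ht)
      intro i _ hi
      rw [mem_range, not_lt] at hi
      rw [dif_neg (by omega)]
    rw [mem_image]
    refine ⟨f, ?_, hval⟩
    rw [hA, mem_filter, hU, Fintype.mem_piFinset]
    refine ⟨fun i => ?_, by rw [hval]; exact hN2⟩
    rw [mem_range]
    simp only [hf]
    split_ifs with h
    · have := hxX ⟨i, h⟩
      omega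
    · omega
  -- the tuples with two large entries
  set Bf : Fin k → Finset ℕ := fun i => if (i : ℕ) < 2 then Ioc (X - Y) X else range (X + 1) with hBf
  set B : Finset (Fin k → ℕ) := Fintype.piFinset Bf with hB
  have hBU : B ⊆ U \ A := by
    intro f hf
    rw [hB, Fintype.mem_piFinset] at hf
    rw [mem_sdiff, hA, mem_filter, hU, Fintype.mem_piFinset]
    constructor
    · intro i
      have h1 := hf i
      simp only [hBf] at h1
      rw [mem_range]
      split_ifs at h1
      · rw [mem_Ioc] at h1; omega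
      · rw [mem_range] at h1; exact h1
    · rintro ⟨_, h2⟩
      have h3 : ∀ i : Fin k, (i : ℕ) < 2 → (X - Y) ^ k < a (f i) := by
        intro i hi
        have h1 := hf i
        simp only [hBf] at h1
        rw [if_pos hi, mem_Ioc] at h1
        simp only [ha]
        rw [if_neg (by omega)]
        calc (X - Y) ^ k < (f i) ^ k := Nat.pow_lt_pow_left h1.1 (by omega)
          _ ≤ _ := by omega
      have h4 : X ^ k ≤ 2 * (X - Y) ^ k := by
        have hX0 : (0 : ℝ) < X := by
          have : 0 < X := by omega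
          exact_mod_cast this
        have hk0 : (0 : ℝ) < k := by positivity
        have h5 := one_add_mul_le_pow (a := -(1 / (2 * (k : ℝ)))) (by
          have : 1 / (2 * (k : ℝ)) ≤ 1 := by
            rw [div_le_one (by positivity)]
            have : (1 : ℝ) ≤ k := by exact_mod_cast (by omega : 1 ≤ k)
            linarith
          linarith) k
        have h6 : ((X - Y : ℕ) : ℝ) = X * (1 + -(1 / (2 * (k : ℝ)))) := by
          rw [Nat.cast_sub hXY, hX]
          push_cast
          field_simp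
          ring
        have h7 : (1 : ℝ) / 2 ≤ (1 + -(1 / (2 * (k : ℝ)))) ^ k := by
          refine le_trans (le_of_eq ?_) h5
          field_simp
          ring
        have h8 : ((X ^ k : ℕ) : ℝ) ≤ ((2 * (X - Y) ^ k : ℕ) : ℝ) := by
          push_cast
          rw [h6, mul_pow]
          have : (0 : ℝ) < (X : ℝ) ^ k := by positivity
          nlinarith
        exact_mod_cast h8
      have h5 : a (f ⟨0, by omega⟩) + a (f ⟨1, by omega⟩) ≤ ∑ i, a (f i) := by
        have h6 : ∑ i ∈ ({⟨0, by omega⟩, ⟨1, by omega⟩} : Finset (Fin k)), a (f i) ≤ ∑ i, a (f i) :=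
          sum_le_sum_of_subset (subset_univ _)
        rw [sum_pair (by
          intro h
          have := congrArg Fin.val h
          simp at this)] at h6
        exact h6
      have h6 := h3 ⟨0, by omega⟩ (by simp)
      have h7 := h3 ⟨1, by omega⟩ (by simp)
      omega
  have hcardU : U.card = (X + 1) ^ k := by
    rw [hU, Fintype.card_piFinset]
    simp
  have hcardB : B.card = Y ^ 2 * (X + 1) ^ k' := by
    rw [hB, Fintype.card_piFinset]
    have h1 : ∀ i : Fin k, (Bf i).card = if (i : ℕ) < 2 then Y else X + 1 := by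
      intro i
      simp only [hBf]
      split_ifs
      · rw [Nat.card_Ioc]
        omega
      · rw [card_range]
    rw [prod_congr rfl (fun i _ => h1 i)]
    rw [← Finset.prod_range (fun i => if i < 2 then Y else X + 1)]
    rw [hkdef, show k' + 2 = 2 + k' by ring, prod_range_add]
    congr 1
    · rw [prod_congr rfl (fun i hi => if_pos (mem_range.1 hi)), prod_const, card_range]
    · rw [prod_congr rfl (fun i _ => if_neg (by omega)), prod_const, card_range]
  have hAle : A.card + B.card ≤ U.card := by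
    have h1 : A.card + (U \ A).card = U.card := by
      rw [add_comm]
      exact card_sdiff_add_card_eq_card (filter_subset _ _)
    have h2 := card_le_card hBU
    omega
  rw [hcardU, hcardB] at hAle
  -- Bernoulli
  have hbern : (X + 1) ^ k ≤ X ^ k + k * (X + 1) ^ (k' + 1) := by
    have hX0 : (0 : ℝ) < (X : ℝ) + 1 := by positivity
    have h5 := one_add_mul_le_pow (a := -(1 / ((X : ℝ) + 1))) (by
      have : 1 / ((X : ℝ) + 1) ≤ 1 := by
        rw [div_le_one hX0]
        have : (0 : ℝ) ≤ X := by positivity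
        linarith
      linarith) k
    have h6 : (X : ℝ) = ((X : ℝ) + 1) * (1 + -(1 / ((X : ℝ) + 1))) := by
      field_simp
      ring
    have h7 : (((X + 1) ^ k : ℕ) : ℝ) ≤ ((X ^ k + k * (X + 1) ^ (k' + 1) : ℕ) : ℝ) := by
      have h8 : (X : ℝ) ^ k = ((X : ℝ) + 1) ^ k * (1 + -(1 / ((X : ℝ) + 1))) ^ k := by
        rw [← mul_pow, ← h6]
      push_cast
      rw [h8]
      have h9 : (0 : ℝ) < ((X : ℝ) + 1) ^ k := by positivity
      have h10 : ((X : ℝ) + 1) ^ k * (1 + (k : ℝ) * -(1 / ((X : ℝ) + 1))) =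
          ((X : ℝ) + 1) ^ k - k * ((X : ℝ) + 1) ^ (k' + 1) := by
        rw [hkdef, pow_succ ((X : ℝ) + 1) (k' + 1)]
        field_simp
        ring
      have h11 := mul_le_mul_of_nonneg_left h5 h9.le
      rw [h10] at h11
      linarith
    exact_mod_cast h7
  -- the conclusion
  have hcard1 : X ^ k + 1 ≤ R.card + A.card := by
    have h1 := (card_le_card hsurj).trans (card_union_le _ _)
    rw [card_range] at h1
    have h2 : (A.image (fun f => ∑ i, a (f i))).card ≤ A.card := card_image_le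
    omega
  have hfin : 2 * (k * (X + 1)) ≤ Y ^ 2 := by
    have h1 : 2 * (k * (X + 1)) = 2 * (2 * k ^ 2) * Y + 2 * k := by rw [hX]; ring
    rw [h1]
    have h3 : 1 ≤ Y := by
      have : 1 ≤ 2 * (2 * k ^ 2 + k) := by nlinarith
      omega
    calc 2 * (2 * k ^ 2) * Y + 2 * k ≤ 2 * (2 * k ^ 2) * Y + 2 * k * Y := by
          have : 2 * k * 1 ≤ 2 * k * Y := Nat.mul_le_mul_left _ h3
          omega
      _ = 2 * (2 * k ^ 2 + k) * Y := by ring
      _ ≤ Y * Y := Nat.mul_le_mul_right _ hY
      _ = Y ^ 2 := by ring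
  have h1 : 2 * (k * (X + 1) ^ (k' + 1)) ≤ Y ^ 2 * (X + 1) ^ k' := by
    calc 2 * (k * (X + 1) ^ (k' + 1)) = 2 * (k * (X + 1)) * (X + 1) ^ k' := by rw [pow_succ]; ring
      _ ≤ Y ^ 2 * (X + 1) ^ k' := Nat.mul_le_mul_right _ hfin
  omega

open Classical in
/-- a positive proportion of the integers is not a sum of at most `k` numbers `x ^ k + w x` -/
theorem missing (k : ℕ) (hk : 2 ≤ k) : ∃ Z0 : ℕ, ∀ w : ℕ → ℕ, ∀ Z : ℕ, Z0 ≤ Z →
    (Z : ℝ) / (8 * k ^ 2 * 2 ^ k) ≤ ((range (Z + 1)).filter (fun N => ∀ t ≤ k, ¬ SumOf k t w N)).card := by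
  obtain ⟨k', rfl⟩ : ∃ k', k = k' + 2 := ⟨k - 2, by omega⟩
  set k := k' + 2 with hkdef
  set Ym : ℕ := 2 * (2 * k ^ 2 + k) with hYm
  refine ⟨(4 * k * (Ym + 1)) ^ k, fun w Z hZ => ?_⟩
  have hk0 : (0 : ℝ) < k := by exact_mod_cast (by omega : 0 < k)
  set Rt : ℝ := (Z : ℝ) ^ (1 / (k : ℝ)) with hRt
  have hRt0 : 0 ≤ Rt := by positivity
  have hRk : Rt ^ k = Z := by
    rw [hRt, ← Real.rpow_natCast, ← Real.rpow_mul (by positivity), one_div, inv_mul_cancel₀ hk0.ne',
      Real.rpow_one]
  have hRlow : 4 * k * ((Ym : ℝ) + 1) ≤ Rt := by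
    have h1 : (4 * (k : ℝ) * ((Ym : ℝ) + 1)) ^ k ≤ Rt ^ k := by
      rw [hRk]
      have : (((4 * k * (Ym + 1)) ^ k : ℕ) : ℝ) ≤ Z := by exact_mod_cast hZ
      push_cast at this
      exact this
    exact le_of_pow_le_pow_left₀ (by omega) hRt0 h1
  set Y : ℕ := ⌊Rt / (2 * k)⌋₊ with hY
  have hY1 : (Y : ℝ) ≤ Rt / (2 * k) := Nat.floor_le (by positivity)
  have hY2 : Rt / (2 * k) < Y + 1 := Nat.lt_floor_add_one _
  have hRdiv : 2 * ((Ym : ℝ) + 1) ≤ Rt / (2 * k) := by
    rw [le_div_iff₀ (by positivity)]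
    linarith
  have hYm0 : (0 : ℝ) ≤ Ym := by positivity
  have hY3 : Rt / (4 * k) ≤ Y := by
    have h1 : Rt / (4 * k) = Rt / (2 * k) / 2 := by field_simp; norm_num
    rw [h1]
    linarith
  have hYbig : Ym ≤ Y := by
    have h1 : (Ym : ℝ) ≤ Y := by linarith
    exact_mod_cast h1
  have hYX : (2 * k * Y) ^ k ≤ Z := by
    have h1 : ((2 * k * Y : ℕ) : ℝ) ≤ Rt := by
      rw [le_div_iff₀ (by positivity)] at hY1
      push_cast
      linarith
    have h2 : (((2 * k * Y) ^ k : ℕ) : ℝ) ≤ Z := by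
      rw [← hRk]
      push_cast
      push_cast at h1
      exact pow_le_pow_left₀ (by positivity) h1 k
    exact_mod_cast h2
  have h1 := missing0 k' w Y hYbig ((range (Z + 1)).filter (fun N => ∀ t ≤ k, ¬ SumOf k t w N)) (by
    intro N hN1 hN2
    rw [mem_filter, mem_range]
    exact ⟨by
      have := hN1.trans hYX
      omega, hN2⟩)
  have h2 : ((Y : ℝ)) ^ 2 * (2 * k * Y) ^ k' ≤
      2 * (((range (Z + 1)).filter (fun N => ∀ t ≤ k, ¬ SumOf k t w N)).card : ℝ) := by
    have h3 : Y ^ 2 * (2 * k * Y) ^ k' ≤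
        2 * ((range (Z + 1)).filter (fun N => ∀ t ≤ k, ¬ SumOf k t w N)).card := by
      refine le_trans ?_ h1
      exact Nat.mul_le_mul_left _ (Nat.pow_le_pow_left (Nat.le_succ _) _)
    exact_mod_cast h3
  have h4 : (Rt / (4 * k)) ^ 2 * (Rt / 2) ^ k' ≤ ((Y : ℝ)) ^ 2 * (2 * k * Y) ^ k' := by
    have h5 : Rt / 2 ≤ 2 * k * Y := by
      rw [div_le_iff₀ (by positivity)] at hY3
      linarith
    gcongr
  have h6 : (Rt / (4 * k)) ^ 2 * (Rt / 2) ^ k' = 2 * ((Z : ℝ) / (8 * k ^ 2 * 2 ^ k)) := by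
    rw [← hRk, hkdef, pow_add Rt k' 2, pow_add (2 : ℝ) k' 2, div_pow, div_pow]
    field_simp
    ring
  rw [h6] at h4
  linarith

end Pool.Agent.X30.WP
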