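import Mathlib
import Pool.Agent.X30.WQ5

/-!
# Almost all integers: statements with `Set.ncard`
-/

set_option autoImplicit false

namespace Pool.Agent.X30.WP

open Finset MeasureTheory ProbabilityTheory

lemma ncard_le_of (κ C : ℝ) (hC : 0 ≤ C) (Bad : ℕ → Prop)
    (h : ∀ X : ℕ, ∀ B : Finset ℕ, (∀ N ∈ B, N ≤ X ∧ Bad N) → (B.card : ℝ) ≤ C * ((X : ℝ) + 1) ^ (1 - κ)) :
    ∀ X : ℕ, 1 ≤ X → (({N | N ≤ X ∧ Bad N} : Set ℕ).ncard : ℝ) ≤ C * 2 ^ |1 - κ| * (X : ℝ) ^ (1 - κ) := by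
  classical
  intro X hX
  set B : Finset ℕ := (range (X + 1)).filter Bad with hB
  have h1 : ({N | N ≤ X ∧ Bad N} : Set ℕ) = (B : Set ℕ) := by
    ext N
    simp only [Set.mem_ofPred_eq, hB, coe_filter, mem_range]
    constructor
    · rintro ⟨h1, h2⟩; exact ⟨by omega, h2⟩
    · rintro ⟨h1, h2⟩; exact ⟨by omega, h2⟩
  rw [h1, Set.ncard_coe_finset]
  have h2 := h X B (by
    intro N hN
    rw [hB, mem_filter, mem_range] at hN
    exact ⟨by omega, hN.2⟩)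
  refine h2.trans ?_
  rw [mul_assoc]
  apply mul_le_mul_of_nonneg_left _ hC
  have hX1 : (1 : ℝ) ≤ X := by exact_mod_cast hX
  rcases le_total 0 (1 - κ) with h3 | h3
  · rw [abs_of_nonneg h3, ← Real.mul_rpow (by norm_num) (by linarith)]
    apply Real.rpow_le_rpow (by linarith) (by linarith) h3
  · have h4 : ((X : ℝ) + 1) ^ (1 - κ) ≤ (X : ℝ) ^ (1 - κ) :=
      Real.rpow_le_rpow_of_nonpos (by linarith) (by linarith) h3
    have h5 : (1 : ℝ) ≤ 2 ^ |1 - κ| := Real.one_le_rpow (by norm_num) (abs_nonneg _)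
    have h6 : 0 ≤ (X : ℝ) ^ (1 - κ) := by positivity
    nlinarith

lemma missing_ncard (k : ℕ) (hk : 2 ≤ k) : ∃ Z0 : ℕ, ∀ w : ℕ → ℕ, ∀ Z : ℕ, Z0 ≤ Z →
    (Z : ℝ) / (8 * k ^ 2 * 2 ^ k) ≤ (({N | N ≤ Z ∧ ∀ t ≤ k, ¬ SumOf k t w N} : Set ℕ).ncard : ℝ) := by
  classical
  obtain ⟨Z0, hZ0⟩ := missing k hk
  refine ⟨Z0, fun w Z hZ => (hZ0 w Z hZ).trans (le_of_eq ?_)⟩
  have h1 : ({N | N ≤ Z ∧ ∀ t ≤ k, ¬ SumOf k t w N} : Set ℕ) =
      (((range (Z + 1)).filter (fun N => ∀ t ≤ k, ¬ SumOf k t w N) : Finset ℕ) : Set ℕ) := by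
    ext N
    simp only [Set.mem_ofPred_eq, coe_filter, mem_range]
    constructor
    · rintro ⟨h1, h2⟩; exact ⟨by omega, h2⟩
    · rintro ⟨h1, h2⟩; exact ⟨by omega, h2⟩
  rw [h1, Set.ncard_coe_finset]

end Pool.Agent.X30.WP
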