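import Mathlib
import Pool.Agent.X30.WQ6

/-!
# Spheres for almost all radii
-/

set_option autoImplicit false

namespace Pool.Agent.X30.WP

open Finset MeasureTheory ProbabilityTheory

lemma sphere_low (k s : ℕ) (hk : k ≠ 0) (w : ℕ → ℕ) (N : ℕ) (A : ℝ)
    (h : ∃ S : Finset (Fin s → ℕ), (∀ x ∈ S, (∀ i, 1 ≤ x i) ∧ N = ∑ i, (x i ^ k + w (x i))) ∧ A ≤ S.card) :
    A ≤ ({x : Fin s → ℤ | ∑ i, ((x i).natAbs ^ k + w (x i).natAbs) = N}.ncard : ℝ) := by
  obtain ⟨S, hS1, hS2⟩ := h
  set V : Set (Fin s → ℤ) := {x | ∑ i, ((x i).natAbs ^ k + w (x i).natAbs) = N} with hV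
  have hfin : V.Finite := by
    apply (Fintype.piFinset (fun _ : Fin s => Icc (-(N : ℤ)) N)).finite_toSet.subset
    intro x hx
    rw [mem_coe, Fintype.mem_piFinset]
    intro i
    rw [hV, Set.mem_ofPred_eq] at hx
    have h3 : (x i).natAbs ≤ N := by
      calc (x i).natAbs ≤ (x i).natAbs ^ k := Nat.le_self_pow hk _
        _ ≤ (x i).natAbs ^ k + w (x i).natAbs := Nat.le_add_right _ _
        _ ≤ ∑ i, ((x i).natAbs ^ k + w (x i).natAbs) :=
            single_le_sum (f := fun i => (x i).natAbs ^ k + w (x i).natAbs)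
              (fun _ _ => Nat.zero_le _) (mem_univ i)
        _ = N := hx
    rw [mem_Icc]
    omega
  refine hS2.trans ?_
  have h3 : (S.image (fun x : Fin s → ℕ => fun i => (x i : ℤ)) : Set (Fin s → ℤ)) ⊆ V := by
    intro y hy
    rw [mem_coe, mem_image] at hy
    obtain ⟨x, hx, rfl⟩ := hy
    rw [hV, Set.mem_ofPred_eq]
    simp only [Int.natAbs_natCast]
    exact (hS1 x hx).2.symm
  have h4 := Set.ncard_le_ncard h3 hfin
  rw [Set.ncard_coe_finset, card_image_of_injective] at h4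
  · exact_mod_cast h4
  · intro x y hxy
    funext i
    have := congrFun hxy i
    simpa using this

lemma sphere_empty (k e : ℕ) (hk : k ≠ 0) (he : e ≤ k) (w : ℕ → ℕ) (hw : w 0 = 0) (N : ℕ)
    (h : ∀ t ≤ k, ¬ SumOf k t w N) :
    ({x : Fin e → ℤ | ∑ i, ((x i).natAbs ^ k + w (x i).natAbs) = N} : Set (Fin e → ℤ)) = ∅ := by
  classical
  rw [Set.eq_empty_iff_forall_notMem]
  intro x hx
  rw [Set.mem_ofPred_eq] at hx
  set T : Finset (Fin e) := univ.filter (fun i => x i ≠ 0) with hT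
  have hTe : T.card ≤ k := by
    refine le_trans ?_ he
    calc T.card ≤ (univ : Finset (Fin e)).card := card_filter_le _ _
      _ = e := by simp
  apply h T.card hTe
  set E := T.equivFin with hE
  refine ⟨fun i => (x (E.symm i : Fin e)).natAbs, fun i => ?_, ?_⟩
  · have h1 : ∀ j ∈ T, x j ≠ 0 := by
      intro j hj
      rw [hT, mem_filter] at hj
      exact hj.2
    have h2 := h1 _ (E.symm i).2
    show 1 ≤ (x (E.symm i : Fin e)).natAbs
    omega
  · rw [← hx]
    have h1 : ∑ i, ((x i).natAbs ^ k + w (x i).natAbs) = ∑ i ∈ T, ((x i).natAbs ^ k + w (x i).natAbs) := by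
      symm
      refine sum_subset (subset_univ T) ?_
      intro i _ hi
      rw [hT, mem_filter] at hi
      have h2 : x i = 0 := by
        by_contra hcon
        exact hi ⟨mem_univ _, hcon⟩
      rw [h2, Int.natAbs_zero, zero_pow hk, hw, add_zero]
    rw [h1, ← sum_coe_sort T (fun i => (x i).natAbs ^ k + w (x i).natAbs)]
    exact (Equiv.sum_comp E.symm (fun i : T => ((x (i : Fin e)).natAbs ^ k + w (x (i : Fin e)).natAbs))).symm

end Pool.Agent.X30.WP
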