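import Mathlib
import Pool.Agent.X30.WR2
import Pool.Agent.X30.WQ1

/-!
# The full range: comparison of the number of representations with the smooth model (mean square)
-/

set_option autoImplicit false

namespace Pool.Agent.X30.WP

open Finset
open Pool.Agent.H469R2.NK (e norm_e e_add conj_e norm_sum_neg e_zero)

theorem full_cmp2 (k q s : ℕ) (hq1 : 1 ≤ q) (hq : q + 2 ≤ k) (hs : (2 : ℝ) ^ q < ((2 * s : ℕ) : ℝ)) (η : ℝ)
    (hη1 : η ≤ k - 1)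
    (hη : ((k : ℝ) - η) * (((2 * s : ℕ) : ℝ) + q * 2 ^ q) < ((2 * s : ℕ) : ℝ) * (q + 1)) (ρ : ℝ) (hρ0 : 1 / 2 ≤ ρ)
    (hρ : ρ * ((2 * s : ℕ) : ℝ) < ((2 * s : ℕ) : ℝ) - k) (hsk : k + 1 ≤ s) :
    ∃ κ : ℝ, 0 < κ ∧ ∃ J0 : ℕ, ∀ J : ℕ, J0 ≤ J → ∀ a : ℕ → ℕ, (∀ n < 2 ^ J, a n < 2 * (2 ^ J) ^ k) →
      (∀ i : ℕ, J ≤ 2 * i → i < J → ∀ b : ℕ, b ≤ 2 * s * (2 ^ J) ^ k / 2 →
        ‖F (Ico (2 ^ i : ℕ) (2 * 2 ^ i)) (fun _ => (1 : ℝ)) a ((b : ℝ) / (2 * s * (2 ^ J) ^ k : ℕ)) -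
          Kf (2 ^ ⌊η * i⌋₊) ((b : ℝ) / (2 * s * (2 ^ J) ^ k : ℕ)) *
            W k (2 ^ i) ((b : ℝ) / (2 * s * (2 ^ J) ^ k : ℕ))‖ ≤ ((2 ^ i : ℕ) : ℝ) ^ ρ) →
      ∑ N ∈ range (2 * s * (2 ^ J) ^ k), (rep (range (2 ^ J)) (fun _ => (1 : ℝ)) a s N -
        rep (AG k (2 ^ J)) (wZ k) (vZ k) s N) ^ 2 ≤ ((2 : ℝ) ^ J) ^ (2 * (s : ℝ) - k - κ) := by
  obtain ⟨κ0, C, hκ0, hκ0h, hC, hdiff⟩ := block_diff k q (2 * s) hq1 hq hs η hη ρ hρ0 hρ
  obtain ⟨s', rfl⟩ : ∃ s', s = s' + 1 := ⟨s - 1, by omega⟩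
  obtain ⟨S', hS'⟩ : ∃ S', 2 * (s' + 1) = S' + 1 := ⟨2 * s' + 1, by omega⟩
  rw [hS'] at hs hη hρ hdiff
  have hsk : 2 * k + 1 ≤ S' + 1 := by omega
  have hsR : (0 : ℝ) < ((S' + 1 : ℕ) : ℝ) := by positivity
  have hk3 : 3 ≤ k := by omega
  set κ2 : ℝ := κ0 / (2 * ((S' + 1 : ℕ) : ℝ)) with hκ2
  have hκ20 : 0 < κ2 := by positivity
  have hκ2κ : κ2 * ((S' + 1 : ℕ) : ℝ) = κ0 / 2 := by rw [hκ2]; field_simp
  have hs1 : (1 : ℝ) ≤ ((S' + 1 : ℕ) : ℝ) := by exact_mod_cast (by omega : 1 ≤ S' + 1)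
  have hκ2h : κ2 ≤ κ0 / 2 := by nlinarith
  set C7 : ℝ := ((s' : ℝ) + 1) * 2 ^ s' with hC7
  have hC70 : 0 < C7 := by positivity
  set C5 : ℝ := 2 * C7 ^ 2 * (3 ^ (S' + 1) * (4 ^ (S' + 1) + 1) + 3 ^ (S' + 1) * (4 ^ (S' + 1) + C)) with hC5
  have hC50 : 0 < C5 := by positivity
  set C6 : ℝ := 2 * ((s' : ℝ) + 1) + k + 1 with hC6
  have hC60 : 0 < C6 := by positivity
  obtain ⟨J0, hJ0⟩ := polylog (S' + 2) (2 * (C5 * C6)) (κ2 / 2) (by positivity)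
  refine ⟨κ2 / 2, by positivity, max J0 4, fun J hJ a ha hclose => ?_⟩
  have hJJ0 : J0 ≤ J := (le_max_left _ _).trans hJ
  have hJ4 : 4 ≤ J := (le_max_right _ _).trans hJ
  have hpoly := hJ0 J hJJ0
  set M : ℕ := 2 * (s' + 1) * (2 ^ J) ^ k with hM
  have hM0 : 0 < M := by positivity
  have hM0R : (0 : ℝ) < M := by exact_mod_cast hM0
  set L : ℝ := (2 : ℝ) ^ J with hL
  have hL1 : 1 ≤ L := one_le_pow₀ (by norm_num)
  have hL0 : 0 < L := by linarith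
  set i0 : ℕ := (J + 1) / 2 with hi0
  have hi0J : i0 ≤ J := by omega
  have hA : ∀ f ∈ Fintype.piFinset (fun _ : Fin (s' + 1) => range (2 ^ J)), ∑ j, a (f j) < M := by
    intro f hf
    rw [Fintype.mem_piFinset] at hf
    calc ∑ j, a (f j) < ∑ j : Fin (s' + 1), 2 * (2 ^ J) ^ k := by
          apply sum_lt_sum_of_nonempty univ_nonempty
          intro j _
          exact ha _ (mem_range.1 (hf j))
      _ = M := by
          rw [sum_const, card_univ, Fintype.card_fin, hM, smul_eq_mul]; ring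
  have hB : ∀ f ∈ Fintype.piFinset (fun _ : Fin (s' + 1) => AG k (2 ^ J)), ∑ j, vZ k (f j) < M := by
    intro f hf
    rw [Fintype.mem_piFinset] at hf
    calc ∑ j, vZ k (f j) < ∑ j : Fin (s' + 1), 2 * (2 ^ J) ^ k := by
          apply sum_lt_sum_of_nonempty univ_nonempty
          intro i _
          have h1 := mem_AG.1 (hf i)
          unfold vZ
          have h2 := gp_add k (f i).1
          have h3 : ((f i).1 + 1) ^ k ≤ (2 ^ J) ^ k := Nat.pow_le_pow_left (by omega) k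
          omega
      _ = M := by
          rw [sum_const, card_univ, Fintype.card_fin, hM, smul_eq_mul]; ring
  set x : ℕ → ℂ := fun b => F (range (2 ^ J)) (fun _ => (1 : ℝ)) a ((b : ℝ) / M) with hx
  set y : ℕ → ℂ := fun b => F (AG k (2 ^ J)) (wZ k) (vZ k) ((b : ℝ) / M) with hy
  set T : ℕ → ℝ := fun b => ‖x b ^ (s' + 1) - y b ^ (s' + 1)‖ ^ 2 with hT
  -- rpow facts
  have hcastL : ((2 ^ J : ℕ) : ℝ) = L := by rw [hL]; push_cast; rfl
  have hLsk : L ^ ((((S' + 1 : ℕ) : ℝ)) - k) = L ^ (S' + 1 - k) := by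
    rw [← Real.rpow_natCast L (S' + 1 - k), Nat.cast_sub (by omega)]
  have hi0L : ((2 : ℝ) ^ i0) ^ (S' + 1) * 2 ^ (S' + 1) ≤ 4 ^ (S' + 1) * L ^ ((((S' + 1 : ℕ) : ℝ)) - k - κ0) := by
    have h1 : ((2 : ℝ) ^ i0) ^ 2 ≤ 2 * L := by
      rw [← pow_mul, hL]
      calc (2 : ℝ) ^ (i0 * 2) ≤ 2 ^ (J + 1) := pow_le_pow_right₀ (by norm_num) (by omega)
        _ = 2 * 2 ^ J := by ring
    have h2 : (2 : ℝ) ^ i0 ≤ 2 * L ^ (1 / 2 : ℝ) := by
      apply le_of_pow_le_pow_left₀ two_ne_zero (by positivity)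
      rw [mul_pow, ← Real.rpow_natCast (L ^ (1 / 2 : ℝ)) 2, ← Real.rpow_mul hL0.le]
      norm_num
      linarith
    calc ((2 : ℝ) ^ i0) ^ (S' + 1) * 2 ^ (S' + 1) ≤ (2 * L ^ (1 / 2 : ℝ)) ^ (S' + 1) * 2 ^ (S' + 1) := by gcongr
      _ = 4 ^ (S' + 1) * L ^ ((1 / 2 : ℝ) * ((S' + 1 : ℕ) : ℝ)) := by
          rw [mul_pow, ← Real.rpow_natCast (L ^ (1 / 2 : ℝ)) (S' + 1), ← Real.rpow_mul hL0.le,
            show (4 : ℝ) = 2 * 2 by norm_num, mul_pow]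
          ring
      _ ≤ _ := by
          apply mul_le_mul_of_nonneg_left _ (by positivity)
          exact Real.rpow_le_rpow_of_exponent_le hL1 (by
            have h3 : (2 * (k : ℝ) + 1) ≤ ((S' + 1 : ℕ) : ℝ) := by exact_mod_cast hsk
            linarith)
  have hLmono : L ^ ((((S' + 1 : ℕ) : ℝ)) - k - κ0) ≤ L ^ ((((S' + 1 : ℕ) : ℝ)) - k) :=
    Real.rpow_le_rpow_of_exponent_le hL1 (by linarith)
  -- bounds for `b ≥ 1`
  have hbnd : ∀ b : ℕ, 1 ≤ b → b ≤ M / 2 →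
      ((b : ℝ) / M * ‖x b - y b‖ ^ (S' + 1) ≤
        3 ^ (S' + 1) * (4 ^ (S' + 1) + C) * ((J : ℝ) + 1) ^ (S' + 1) * L ^ ((((S' + 1 : ℕ) : ℝ)) - k - κ0)) ∧
      ((b : ℝ) / M * ‖y b‖ ^ (S' + 1) ≤
        3 ^ (S' + 1) * (4 ^ (S' + 1) + 1) * ((J : ℝ) + 1) ^ (S' + 1) * L ^ ((((S' + 1 : ℕ) : ℝ)) - k)) := by
    intro b hb1 hbM
    have hb1R : (1 : ℝ) ≤ b := by exact_mod_cast hb1
    have hb0 : (0 : ℝ) < b := by linarith
    set β : ℝ := (b : ℝ) / M with hβ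
    have hβ0 : 0 < β := by positivity
    have hβ2 : β ≤ 1 / 2 := by
      rw [hβ, div_le_div_iff₀ hM0R (by norm_num)]
      have : b * 2 ≤ M := by omega
      have h' : (b : ℝ) * 2 ≤ M := by exact_mod_cast this
      linarith
    have hxs : x b = F (range (2 ^ i0)) (fun _ => (1 : ℝ)) a β +
        ∑ i ∈ Ico i0 J, F (Ico (2 ^ i) (2 * 2 ^ i)) (fun _ => (1 : ℝ)) a β := F_split a β i0 J hi0J
    have hys : y b = ∑ n ∈ range (2 ^ i0), e (β * (n : ℝ) ^ k) * Kf (gp k n) β +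
        ∑ i ∈ Ico i0 J, Gb k (2 ^ i) β := by
      simp only [hy]
      rw [FG_eq k _ (by omega), split_sum _ i0 J hi0J]
      rfl
    have hY0 : ‖∑ n ∈ range (2 ^ i0), e (β * (n : ℝ) ^ k) * Kf (gp k n) β‖ ≤ (2 : ℝ) ^ i0 := by
      refine (norm_sum_le _ _).trans ?_
      calc ∑ n ∈ range (2 ^ i0), ‖e (β * (n : ℝ) ^ k) * Kf (gp k n) β‖ ≤ ∑ n ∈ range (2 ^ i0), (1 : ℝ) := by
            refine sum_le_sum fun n _ => ?_
            rw [norm_mul, norm_e, one_mul]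
            exact norm_Kf_le_one _ _
        _ = (2 : ℝ) ^ i0 := by rw [sum_const, card_range, nsmul_eq_mul, mul_one]; push_cast; rfl
    have hX0 : ‖F (range (2 ^ i0)) (fun _ => (1 : ℝ)) a β‖ ≤ (2 : ℝ) ^ i0 := by
      refine (norm_F_range _ _ _).trans (le_of_eq ?_)
      push_cast; rfl
    have h2i0 : (0 : ℝ) < 2 ^ i0 := by positivity
    have hLk : 0 ≤ L ^ ((((S' + 1 : ℕ) : ℝ)) - k - κ0) := by positivity
    have hLk' : 0 ≤ L ^ ((((S' + 1 : ℕ) : ℝ)) - k) := by positivity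
    constructor
    · have h1 : ‖x b - y b‖ ≤ 2 * (2 : ℝ) ^ i0 +
          ∑ i ∈ Ico i0 J, ‖F (Ico (2 ^ i) (2 * 2 ^ i)) (fun _ => (1 : ℝ)) a β - Gb k (2 ^ i) β‖ := by
        have h2 : x b - y b = (F (range (2 ^ i0)) (fun _ => (1 : ℝ)) a β -
            ∑ n ∈ range (2 ^ i0), e (β * (n : ℝ) ^ k) * Kf (gp k n) β) +
            ∑ i ∈ Ico i0 J, (F (Ico (2 ^ i) (2 * 2 ^ i)) (fun _ => (1 : ℝ)) a β - Gb k (2 ^ i) β) := by
          rw [hxs, hys, sum_sub_distrib]; ring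
        rw [h2]
        refine (norm_add_le _ _).trans (add_le_add ?_ (norm_sum_le _ _))
        refine (norm_sub_le _ _).trans ?_
        linarith
      have h3 := pieces (2 * (2 : ℝ) ^ i0)
        (fun i => ‖F (Ico (2 ^ i) (2 * 2 ^ i)) (fun _ => (1 : ℝ)) a β - Gb k (2 ^ i) β‖) i0 J S'
        (by positivity) (fun _ => norm_nonneg _) (L ^ ((((S' + 1 : ℕ) : ℝ)) - k - κ0)) (4 ^ (S' + 1)) C β hLk
        (by positivity) hC.le hβ0.le
        (by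
          calc β * (2 * (2 : ℝ) ^ i0) ^ (S' + 1) ≤ 1 * (2 * (2 : ℝ) ^ i0) ^ (S' + 1) := by gcongr; linarith
            _ = ((2 : ℝ) ^ i0) ^ (S' + 1) * 2 ^ (S' + 1) := by rw [one_mul, mul_pow]; ring
            _ ≤ _ := hi0L)
        (by
          intro i hi
          rw [mem_Ico] at hi
          have hi1 : 1 ≤ i := by omega
          have e2 : ((2 ^ i : ℕ) : ℝ) ^ η ≤ 2 * ((2 ^ ⌊η * (i : ℝ)⌋₊ : ℕ) : ℝ) := by
            push_cast
            rw [← Real.rpow_natCast 2 i, ← Real.rpow_mul (by norm_num), mul_comm (i : ℝ) η]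
            calc (2 : ℝ) ^ (η * i) ≤ (2 : ℝ) ^ ((⌊η * (i : ℝ)⌋₊ : ℝ) + 1) := by
                  apply Real.rpow_le_rpow_of_exponent_le (by norm_num)
                  exact (Nat.lt_floor_add_one _).le
              _ = 2 * 2 ^ ⌊η * (i : ℝ)⌋₊ := by
                  rw [Real.rpow_add (by norm_num), Real.rpow_one, Real.rpow_natCast]; ring
          have e3 : 2 ^ ⌊η * (i : ℝ)⌋₊ ≤ (2 ^ i) ^ (k - 1) := by
            rw [← pow_mul]
            apply Nat.pow_le_pow_right (by norm_num)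
            have h1 : η * (i : ℝ) ≤ ((i * (k - 1) : ℕ) : ℝ) := by
              rw [Nat.cast_mul, Nat.cast_sub (by omega), mul_comm]
              gcongr
              simpa using hη1
            calc ⌊η * (i : ℝ)⌋₊ ≤ ⌊((i * (k - 1) : ℕ) : ℝ)⌋₊ := Nat.floor_le_floor h1
              _ = _ := Nat.floor_natCast _
          have h4 := hdiff (2 ^ i) (2 ^ ⌊η * (i : ℝ)⌋₊) (by
            calc 2 = 2 ^ 1 := by norm_num
              _ ≤ 2 ^ i := Nat.pow_le_pow_right (by norm_num) hi1) Nat.one_le_two_pow e2 e3 β hβ0 hβ2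
            (F (Ico (2 ^ i) (2 * 2 ^ i)) (fun _ => (1 : ℝ)) a β) (hclose i (by omega) hi.2 b hbM)
          refine h4.trans ?_
          gcongr ?_ * ?_
          apply Real.rpow_le_rpow (by positivity)
          · push_cast
            rw [hL]
            exact pow_le_pow_right₀ (by norm_num) hi.2.le
          · have h3 : (2 * (k : ℝ) + 1) ≤ ((S' + 1 : ℕ) : ℝ) := by exact_mod_cast hsk
            have h5 : (0 : ℝ) ≤ k := by positivity
            linarith)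
      refine le_trans ?_ h3
      gcongr
    · have h1 : ‖y b‖ ≤ (2 : ℝ) ^ i0 + ∑ i ∈ Ico i0 J, ‖Gb k (2 ^ i) β‖ := by
        rw [hys]
        exact (norm_add_le _ _).trans (add_le_add hY0 (norm_sum_le _ _))
      have h3 := pieces ((2 : ℝ) ^ i0) (fun i => ‖Gb k (2 ^ i) β‖) i0 J S'
        (by positivity) (fun _ => norm_nonneg _) (L ^ ((((S' + 1 : ℕ) : ℝ)) - k)) (4 ^ (S' + 1)) 1 β hLk'
        (by positivity) one_pos.le hβ0.le
        (by
          calc β * ((2 : ℝ) ^ i0) ^ (S' + 1) ≤ 1 * ((2 : ℝ) ^ i0) ^ (S' + 1) := by gcongr; linarith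
            _ ≤ ((2 : ℝ) ^ i0) ^ (S' + 1) * 2 ^ (S' + 1) := by
                rw [one_mul]
                exact le_mul_of_one_le_right (by positivity) (one_le_pow₀ (by norm_num))
            _ ≤ 4 ^ (S' + 1) * L ^ ((((S' + 1 : ℕ) : ℝ)) - k - κ0) := hi0L
            _ ≤ _ := by gcongr)
        (by
          intro i hi
          rw [mem_Ico] at hi
          have h4 := Gb_mean k (2 ^ i) (S' + 1) (by omega) (by omega) Nat.one_le_two_pow hβ0 hβ2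
          refine h4.trans ?_
          rw [hLsk, one_mul, hL]
          push_cast
          apply pow_le_pow_left₀ (by positivity)
          exact pow_le_pow_right₀ (by norm_num) hi.2.le)
      refine le_trans ?_ h3
      gcongr
  -- the threshold
  set θ : ℝ := L ^ (-κ2) with hθ
  have hθ0 : 0 < θ := by positivity
  have hθ1 : θ ≤ 1 := Real.rpow_le_one_of_one_le_of_nonpos hL1 (by linarith)
  have hinv : ((1 / θ) ^ s') ^ 2 ≤ L ^ (κ0 / 2) := by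
    rw [← pow_mul, hθ, one_div, ← Real.rpow_neg hL0.le, neg_neg, ← Real.rpow_natCast (L ^ κ2) (s' * 2),
      ← Real.rpow_mul hL0.le]
    apply Real.rpow_le_rpow_of_exponent_le hL1
    rw [← hκ2κ]
    apply mul_le_mul_of_nonneg_left _ hκ20.le
    exact_mod_cast (by omega : s' * 2 ≤ S' + 1)
  have hθ2 : θ ^ 2 ≤ θ := by nlinarith
  have hJ1 : (1 : ℝ) ≤ (J : ℝ) + 1 := by
    have : (0 : ℝ) ≤ J := by positivity
    linarith
  have hTb : ∀ b : ℕ, 1 ≤ b → b ≤ M / 2 →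
      T b ≤ C5 * ((J : ℝ) + 1) ^ (S' + 1) * L ^ ((((S' + 1 : ℕ) : ℝ)) - k - κ2) * (M * (1 / b)) := by
    intro b hb1 hbM
    have hb1R : (1 : ℝ) ≤ b := by exact_mod_cast hb1
    have hb0 : (0 : ℝ) < b := by linarith
    obtain ⟨h1, h2⟩ := hbnd b hb1 hbM
    have h3 := thr (x b) (y b) θ hθ0 hθ1 s'
    have hβ0 : 0 < (b : ℝ) / M := by positivity
    have hone : (M * (1 / b) : ℝ) * ((b : ℝ) / M) = 1 := by field_simp
    have e1 : θ * L ^ ((((S' + 1 : ℕ) : ℝ)) - k) = L ^ ((((S' + 1 : ℕ) : ℝ)) - k - κ2) := by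
      rw [hθ, ← Real.rpow_add hL0]; congr 1; ring
    have e2 : L ^ (κ0 / 2) * L ^ ((((S' + 1 : ℕ) : ℝ)) - k - κ0) ≤ L ^ ((((S' + 1 : ℕ) : ℝ)) - k - κ2) := by
      rw [← Real.rpow_add hL0]
      exact Real.rpow_le_rpow_of_exponent_le hL1 (by linarith)
    have h4 : (b : ℝ) / M * T b ≤ C5 * ((J : ℝ) + 1) ^ (S' + 1) * L ^ ((((S' + 1 : ℕ) : ℝ)) - k - κ2) := by
      have hpy : (‖y b‖ ^ (s' + 1)) ^ 2 = ‖y b‖ ^ (S' + 1) := by rw [← pow_mul, ← hS']; congr 1; ring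
      have hpd : (‖x b - y b‖ ^ (s' + 1)) ^ 2 = ‖x b - y b‖ ^ (S' + 1) := by rw [← pow_mul, ← hS']; congr 1; ring
      have hsq : T b ≤ 2 * C7 ^ 2 * (θ ^ 2 * ‖y b‖ ^ (S' + 1) + ((1 / θ) ^ s') ^ 2 * ‖x b - y b‖ ^ (S' + 1)) := by
        calc T b ≤ (C7 * (θ * ‖y b‖ ^ (s' + 1) + (1 / θ) ^ s' * ‖x b - y b‖ ^ (s' + 1))) ^ 2 := by
              simp only [hT]
              exact pow_le_pow_left₀ (norm_nonneg _) h3 2
          _ = C7 ^ 2 * (θ * ‖y b‖ ^ (s' + 1) + (1 / θ) ^ s' * ‖x b - y b‖ ^ (s' + 1)) ^ 2 := by rw [mul_pow]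
          _ ≤ C7 ^ 2 * (2 * ((θ * ‖y b‖ ^ (s' + 1)) ^ 2 + ((1 / θ) ^ s' * ‖x b - y b‖ ^ (s' + 1)) ^ 2)) := by
              gcongr
              exact add_sq_le
          _ = _ := by rw [mul_pow θ, mul_pow ((1 / θ) ^ s'), hpy, hpd]; ring
      calc (b : ℝ) / M * T b ≤ (b : ℝ) / M * (2 * C7 ^ 2 *
            (θ * ‖y b‖ ^ (S' + 1) + ((1 / θ) ^ s') ^ 2 * ‖x b - y b‖ ^ (S' + 1))) := by
            apply mul_le_mul_of_nonneg_left _ hβ0.le
            refine hsq.trans ?_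
            gcongr
        _ = 2 * C7 ^ 2 * (θ * ((b : ℝ) / M * ‖y b‖ ^ (S' + 1)) +
              ((1 / θ) ^ s') ^ 2 * ((b : ℝ) / M * ‖x b - y b‖ ^ (S' + 1))) := by ring
        _ ≤ 2 * C7 ^ 2 * (θ * (3 ^ (S' + 1) * (4 ^ (S' + 1) + 1) * ((J : ℝ) + 1) ^ (S' + 1) *
                L ^ ((((S' + 1 : ℕ) : ℝ)) - k)) +
              L ^ (κ0 / 2) * (3 ^ (S' + 1) * (4 ^ (S' + 1) + C) * ((J : ℝ) + 1) ^ (S' + 1) *
                L ^ ((((S' + 1 : ℕ) : ℝ)) - k - κ0))) := by gcongr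
        _ = 2 * C7 ^ 2 * (3 ^ (S' + 1) * (4 ^ (S' + 1) + 1) * ((J : ℝ) + 1) ^ (S' + 1) *
                (θ * L ^ ((((S' + 1 : ℕ) : ℝ)) - k)) +
              3 ^ (S' + 1) * (4 ^ (S' + 1) + C) * ((J : ℝ) + 1) ^ (S' + 1) *
                (L ^ (κ0 / 2) * L ^ ((((S' + 1 : ℕ) : ℝ)) - k - κ0))) := by ring
        _ ≤ 2 * C7 ^ 2 * (3 ^ (S' + 1) * (4 ^ (S' + 1) + 1) * ((J : ℝ) + 1) ^ (S' + 1) *
                L ^ ((((S' + 1 : ℕ) : ℝ)) - k - κ2) +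
              3 ^ (S' + 1) * (4 ^ (S' + 1) + C) * ((J : ℝ) + 1) ^ (S' + 1) *
                L ^ ((((S' + 1 : ℕ) : ℝ)) - k - κ2)) := by rw [e1]; gcongr
        _ = _ := by rw [hC5]; ring
    calc T b = (M * (1 / b) : ℝ) * ((b : ℝ) / M * T b) := by rw [← mul_assoc, hone, one_mul]
      _ ≤ (M * (1 / b) : ℝ) * (C5 * ((J : ℝ) + 1) ^ (S' + 1) * L ^ ((((S' + 1 : ℕ) : ℝ)) - k - κ2)) := by gcongr
      _ = _ := by ring
  -- b = 0
  have hT0 : T 0 = 0 := by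
    have h1 : x 0 = y 0 := by
      simp only [hx, hy, Nat.cast_zero, zero_div]
      rw [FG_eq k _ (by omega)]
      unfold F Kf
      simp only [zero_mul, e_zero, mul_one]
      refine sum_congr rfl fun n _ => ?_
      rw [sum_const, card_range, nsmul_eq_mul, mul_one, div_self]
      · push_cast; ring
      · exact_mod_cast (gp_pos k n (by omega)).ne'
    simp only [hT]
    rw [h1, sub_self, norm_zero, zero_pow two_ne_zero]
  have hM2 : 1 ≤ M / 2 := by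
    have : 2 ≤ M := by
      rw [hM]
      calc 2 ≤ 2 * (s' + 1) := by omega
        _ ≤ 2 * (s' + 1) * (2 ^ J) ^ k := Nat.le_mul_of_pos_right _ (by positivity)
    omega
  have hlog : 1 + Real.log M ≤ C6 * ((J : ℝ) + 1) := by
    have h1 : (M : ℝ) = (2 * ((s' : ℝ) + 1)) * (2 : ℝ) ^ (J * k) := by
      rw [hM]; push_cast; rw [← pow_mul]
    rw [h1, Real.log_mul (by positivity) (by positivity), Real.log_pow]
    have h2 := Real.log_le_self (show 0 ≤ 2 * ((s' : ℝ) + 1) by positivity)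
    have h3 : Real.log 2 ≤ 1 := by
      have := Real.log_two_lt_d9
      linarith
    have h4 : ((J * k : ℕ) : ℝ) * Real.log 2 ≤ J * k := by
      push_cast
      have : (0 : ℝ) ≤ (J : ℝ) * k := by positivity
      nlinarith
    have h5 : (0 : ℝ) ≤ J := by positivity
    have h6 : (0 : ℝ) ≤ k := by positivity
    have h7 : (0 : ℝ) ≤ s' := by positivity
    rw [hC6]
    nlinarith
  have hsum : ∑ b ∈ range (M / 2 + 1), T b ≤
      C5 * ((J : ℝ) + 1) ^ (S' + 1) * L ^ ((((S' + 1 : ℕ) : ℝ)) - k - κ2) * (M * (1 + Real.log M)) := by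
    rw [sum_range_succ', hT0, add_zero]
    calc ∑ i ∈ range (M / 2), T (i + 1)
        ≤ ∑ i ∈ range (M / 2), C5 * ((J : ℝ) + 1) ^ (S' + 1) * L ^ ((((S' + 1 : ℕ) : ℝ)) - k - κ2) *
            (M * (1 / ((i + 1 : ℕ) : ℝ))) := by
          refine sum_le_sum fun i hi => ?_
          rw [mem_range] at hi
          exact hTb (i + 1) (by omega) (by omega)
      _ = C5 * ((J : ℝ) + 1) ^ (S' + 1) * L ^ ((((S' + 1 : ℕ) : ℝ)) - k - κ2) * (M * (harmonic (M / 2) : ℝ)) := by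
          rw [← mul_sum, ← mul_sum]
          congr 2
          unfold harmonic
          push_cast
          refine sum_congr rfl fun i _ => by rw [one_div]
      _ ≤ _ := by
          gcongr
          refine (harmonic_le_one_add_log _).trans ?_
          gcongr
          exact_mod_cast Nat.div_le_self M 2
  have hfin : 2 * ∑ b ∈ range (M / 2 + 1), T b ≤ M * L ^ ((((S' + 1 : ℕ) : ℝ)) - k - κ2 / 2) := by
    calc 2 * ∑ b ∈ range (M / 2 + 1), T b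
        ≤ 2 * (C5 * ((J : ℝ) + 1) ^ (S' + 1) * L ^ ((((S' + 1 : ℕ) : ℝ)) - k - κ2) * (M * (C6 * ((J : ℝ) + 1)))) := by
          gcongr
          refine hsum.trans ?_
          gcongr
      _ = M * (2 * (C5 * C6) * ((J : ℝ) + 1) ^ (S' + 2)) * L ^ ((((S' + 1 : ℕ) : ℝ)) - k - κ2) := by ring
      _ ≤ M * L ^ (κ2 / 2) * L ^ ((((S' + 1 : ℕ) : ℝ)) - k - κ2) := by gcongr
      _ = _ := by
          rw [mul_assoc, ← Real.rpow_add hL0]
          congr 2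
          ring
  have hc1 := compare2 (range (2 ^ J)) (fun _ => (1 : ℝ)) a (AG k (2 ^ J)) (wZ k) (vZ k) (s' + 1) M hM0 hA hB
  have hexp : (2 * ((s' + 1 : ℕ) : ℝ)) = ((S' + 1 : ℕ) : ℝ) := by rw [← hS']; push_cast; ring
  rw [hexp]
  exact le_of_mul_le_mul_left (hc1.trans hfin) hM0R

end Pool.Agent.X30.WP
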