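import Mathlib
import Pool.Agent.X30.WR5
import Pool.Agent.X30.WQ6
import Pool.Agent.X30.WS3

/-!
# The asymptotic formula for almost all integers
-/

set_option autoImplicit false

namespace Pool.Agent.X30.WS

open Finset Filter Topology MeasureTheory ProbabilityTheory
open Pool.Agent.X30.WP

variable {Ω : Type*} [MeasurableSpace Ω] {μ : Measure Ω} [IsProbabilityMeasure μ]

/-- the main term: expected number of representations in the smooth model -/
noncomputable def EE (k s N : ℕ) : ℝ := PowerSeries.coeff N ((PowerSeries.mk (u k)) ^ s)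

theorem waring_cmp2 (k q s : ℕ) (hq1 : 1 ≤ q) (hq : q + 2 ≤ k) (hs : (2 : ℝ) ^ q < 2 * s) (η h : ℝ)
    (hη : ((k : ℝ) - η) * (2 * s + q * 2 ^ q) < 2 * s * (q + 1)) (hη1 : η ≤ k - 1)
    (hh0 : 0 ≤ h) (hh : (k : ℝ) < s * (1 - h))
    (δ : ℕ → Ω → ℕ) (hm : ∀ m, Measurable (δ m)) (hind : iIndepFun δ μ)
    (hu : ∀ m, ∀ d < 2 ^ ⌊η * Nat.log 2 m⌋₊,
      μ {ω | δ m ω = d} = 1 / ((2 ^ ⌊η * Nat.log 2 m⌋₊ : ℕ) : ENNReal)) :
    ∃ κ K : ℝ, 0 < κ ∧ κ ≤ 1 ∧ 0 < K ∧ ∀ᵐ ω ∂μ, ∃ C : ℝ, 0 ≤ C ∧ ∀ X : ℕ, ∀ B : Finset ℕ,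
      (∀ N ∈ B, N ≤ X ∧ ¬ (
        |({x : Fin s → ℕ | ∑ i, (x i ^ k + δ (tau h (x i)) ω) = N}.ncard : ℝ) - EE k s N| ≤
          K * (N : ℝ) ^ ((s : ℝ) / k - 1 - κ) ∧
        |({x : Fin s → ℕ | (∀ i, 1 ≤ x i) ∧ ∑ i, (x i ^ k + δ (tau h (x i)) ω) = N}.ncard : ℝ) - EE k s N| ≤
          K * (N : ℝ) ^ ((s : ℝ) / k - 1 - κ))) →
      (B.card : ℝ) ≤ C * ((X : ℝ) + 1) ^ (1 - κ) := by
  classical
  have hk0 : (3 : ℝ) ≤ k := by exact_mod_cast (by omega : 3 ≤ k)
  have h2q : (2 : ℝ) ≤ 2 ^ q := by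
    calc (2 : ℝ) = 2 ^ 1 := by norm_num
      _ ≤ 2 ^ q := pow_le_pow_right₀ (by norm_num) hq1
  have hs2' : (1 : ℝ) < s := by linarith
  have hs0 : 1 ≤ s := by exact_mod_cast hs2'.le
  have hh1 : h < 1 := by
    by_contra hcon
    push Not at hcon
    nlinarith
  have hη0 : 0 < η := by
    by_contra hcon
    push Not at hcon
    have h1 : (q : ℝ) + 2 ≤ k := by exact_mod_cast hq
    have h2 : (0 : ℝ) ≤ q * 2 ^ q := by positivity
    have h3 : (k : ℝ) * (2 * s + q * 2 ^ q) ≤ (k - η) * (2 * s + q * 2 ^ q) := by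
      apply mul_le_mul_of_nonneg_right _ (by positivity)
      linarith
    have h4 : (2 * s : ℝ) * (q + 1) ≤ k * (2 * s + q * 2 ^ q) := by nlinarith
    linarith
  set ε : ℝ := (s * (1 - h) - k) / (4 * s) with hε
  have hε0 : 0 < ε := by
    rw [hε]
    apply div_pos (by linarith) (by linarith)
  have hεs : ε * s = (s * (1 - h) - k) / 4 := by
    rw [hε]
    field_simp
  have hSR : ((2 * s : ℕ) : ℝ) = 2 * s := by push_cast; ring
  have hks : k + 1 ≤ s := by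
    have h1 : (k : ℝ) < s := by nlinarith
    have h2 : k < s := by exact_mod_cast h1
    omega
  have hksR : (k : ℝ) + 1 ≤ s := by exact_mod_cast hks
  obtain ⟨κ1, hκ1, J1, hJ1⟩ := full_cmp2 k q s hq1 hq (by rw [hSR]; exact hs) η hη1
    (by rw [hSR]; exact hη) ((1 + h) / 2 + ε) (by linarith) (by rw [hSR]; nlinarith) hks
  set κ' : ℝ := min (κ1 / 4) 1 with hκ'
  have hκ'0 : 0 < κ' := lt_min (by positivity) one_pos
  have hκ'1 : κ' ≤ 1 := min_le_right _ _
  have hκ'2 : κ' ≤ κ1 / 4 := min_le_left _ _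
  set K : ℝ := 2 ^ ((s + 2) * s) with hK
  have hK0 : 0 < K := by positivity
  refine ⟨κ' / k, K, by positivity, by rw [div_le_one (by linarith)]; linarith, hK0, ?_⟩
  have hδ : ∀ᵐ ω ∂μ, ∀ m, δ m ω < 2 ^ ⌊η * Nat.log 2 m⌋₊ :=
    ae_all_iff.2 fun m => unif_ae (δ m) (hm m) _ Nat.one_le_two_pow (hu m)
  filter_upwards [hδ, closeFull (μ := μ) k s η h ε hh0 hh1.le hε0 δ hm hind hu] with ω hω1 hω2
  obtain ⟨J2, hJ2⟩ := hω2
  set a : ℕ → ℕ := fun n => n ^ k + δ (tau h n) ω with ha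
  have hsizeJ : ∀ J : ℕ, 1 ≤ J → ∀ n < 2 ^ J, a n < 2 * (2 ^ J) ^ k := by
    intro J hJ n hn
    obtain ⟨j, rfl⟩ : ∃ j, J = j + 1 := ⟨J - 1, by omega⟩
    simp only [ha]
    have h1 : n ^ k < (2 ^ (j + 1)) ^ k := Nat.pow_lt_pow_left hn (by omega)
    have h2 : δ (tau h n) ω < (2 ^ (j + 1)) ^ k := by
      refine (hω1 _).trans_le ?_
      rw [← pow_mul]
      apply Nat.pow_le_pow_right (by norm_num)
      have h3 : Nat.log 2 (tau h n) ≤ j := by
        rcases Nat.eq_zero_or_pos n with h0 | h0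
        · rw [h0]
          have : tau h 0 = 0 := by unfold tau; simp
          rw [this]; simp
        · rw [log_tau h hh1.le n h0]
          have : Nat.log 2 n < j + 1 := Nat.log_lt_of_lt_pow (by omega) hn
          omega
      have h4 : η * (Nat.log 2 (tau h n) : ℝ) ≤ (((j + 1) * k : ℕ) : ℝ) := by
        push_cast
        have h5 : (Nat.log 2 (tau h n) : ℝ) ≤ j := by exact_mod_cast h3
        have h6 : (0 : ℝ) ≤ (Nat.log 2 (tau h n) : ℝ) := by positivity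
        nlinarith
      calc ⌊η * (Nat.log 2 (tau h n) : ℝ)⌋₊ ≤ ⌊(((j + 1) * k : ℕ) : ℝ)⌋₊ := Nat.floor_le_floor h4
        _ = _ := Nat.floor_natCast _
    omega
  apply tiles k s (by omega) hs0 κ' (2 * 2 ^ ((s + 2) * k)) (by linarith) (by positivity) (J1 + J2)
    (fun N => ¬ (
        |({x : Fin s → ℕ | ∑ i, a (x i) = N}.ncard : ℝ) - EE k s N| ≤
          K * (N : ℝ) ^ ((s : ℝ) / k - 1 - κ' / k) ∧
        |({x : Fin s → ℕ | (∀ i, 1 ≤ x i) ∧ ∑ i, a (x i) = N}.ncard : ℝ) - EE k s N| ≤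
          K * (N : ℝ) ^ ((s : ℝ) / k - 1 - κ' / k)))
  intro j hj B hB
  set J : ℕ := j + s + 2 with hJ
  set L : ℝ := (2 : ℝ) ^ J with hL
  have hL1 : 1 ≤ L := one_le_pow₀ (by norm_num)
  have hL0 : 0 < L := by linarith
  set P : ℝ := (2 : ℝ) ^ j with hP
  have hP1 : 1 ≤ P := one_le_pow₀ (by norm_num)
  have hP0 : 0 < P := by linarith
  have hLP : L = 2 ^ (s + 2) * P := by rw [hL, hP, ← pow_add]; congr 1; omega
  have hNJ : ∀ N ∈ B, N < (2 ^ J) ^ k := by
    intro N hN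
    obtain ⟨_, h2, _⟩ := hB N hN
    refine h2.trans_le ?_
    calc s * (2 ^ (k + 1) * (2 ^ j) ^ k) ≤ 2 ^ s * (2 ^ (k + 1) * (2 ^ j) ^ k) :=
          Nat.mul_le_mul_right _ Nat.lt_two_pow_self.le
      _ = 2 ^ (s + (k + 1) + j * k) := by rw [← pow_mul, ← pow_add, ← pow_add]; congr 1; ring
      _ ≤ 2 ^ (J * k) := by
          apply Nat.pow_le_pow_right (by norm_num)
          rw [hJ]
          have h3 : s ≤ s * k := Nat.le_mul_of_pos_right _ (by omega)
          nlinarith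
      _ = (2 ^ J) ^ k := by rw [pow_mul]
  have hNM : ∀ N ∈ B, N < 2 * s * (2 ^ J) ^ k := by
    intro N hN
    exact (hNJ N hN).trans_le (Nat.le_mul_of_pos_left _ (by omega))
  set a' : ℕ → ℕ := fun n => if n = 0 then (2 ^ J) ^ k else a n with ha'
  have hclose : ∀ i : ℕ, J ≤ 2 * i → i < J → ∀ b : ℕ, b ≤ 2 * s * (2 ^ J) ^ k / 2 →
        ‖F (Ico (2 ^ i : ℕ) (2 * 2 ^ i)) (fun _ => (1 : ℝ)) a ((b : ℝ) / (2 * s * (2 ^ J) ^ k : ℕ)) -
          Kf (2 ^ ⌊η * i⌋₊) ((b : ℝ) / (2 * s * (2 ^ J) ^ k : ℕ)) *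
            W k (2 ^ i) ((b : ℝ) / (2 * s * (2 ^ J) ^ k : ℕ))‖ ≤ ((2 ^ i : ℕ) : ℝ) ^ ((1 + h) / 2 + ε) := by
    intro i hi1 hi2 b hb
    have h1 := hJ2 J (by omega) i hi1 hi2 b hb
    rw [F_sub1 k (2 ^ i) (2 ^ ⌊η * (i : ℝ)⌋₊) (fun n => 2 ^ ⌊η * (Nat.log 2 n : ℝ)⌋₊) (by
      intro n hn
      rw [mem_Ico] at hn
      rw [log_block hn.1 hn.2]) (fun n => δ (tau h n) ω)]
    exact h1
  have hm1 := hJ1 J (by omega) a (hsizeJ J (by omega)) hclose
  have hm2 := hJ1 J (by omega) a' (by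
      intro n hn
      simp only [ha']
      split_ifs with h0
      · have : 0 < (2 ^ J) ^ k := by positivity
        omega
      · exact hsizeJ J (by omega) n hn) (by
      intro i hi1 hi2 b hb
      have h3 := hclose i hi1 hi2 b hb
      have h4 : F (Ico (2 ^ i : ℕ) (2 * 2 ^ i)) (fun _ => (1 : ℝ)) a' ((b : ℝ) / (2 * s * (2 ^ J) ^ k : ℕ)) =
          F (Ico (2 ^ i : ℕ) (2 * 2 ^ i)) (fun _ => (1 : ℝ)) a ((b : ℝ) / (2 * s * (2 ^ J) ^ k : ℕ)) := by
        unfold F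
        refine sum_congr rfl fun n hn => ?_
        rw [mem_Ico] at hn
        have hn0 : n ≠ 0 := by
          have : 0 < 2 ^ i := by positivity
          omega
        simp only [ha', if_neg hn0]
      rw [h4]
      exact h3)
  set D1 : ℕ → ℝ := fun N => rep (range (2 ^ J)) (fun _ => (1 : ℝ)) a s N -
        rep (AG k (2 ^ J)) (wZ k) (vZ k) s N with hD1
  set D2 : ℕ → ℝ := fun N => rep (range (2 ^ J)) (fun _ => (1 : ℝ)) a' s N -
        rep (AG k (2 ^ J)) (wZ k) (vZ k) s N with hD2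
  have hsub : B ⊆ range (2 * s * (2 ^ J) ^ k) := fun N hN => mem_range.2 (hNM N hN)
  have hkey : ∀ N ∈ B, L ^ (2 * ((s : ℝ) - k - κ')) ≤ D1 N ^ 2 + D2 N ^ 2 := by
    intro N hN
    obtain ⟨hN1, hN2, hN3⟩ := hB N hN
    have hNk := hNJ N hN
    have e1 : ({x : Fin s → ℕ | ∑ i, a (x i) = N}.ncard : ℝ) - EE k s N = D1 N := by
      rw [(ncard_sol k s (by omega) a (fun n => Nat.le_add_right _ _) (2 ^ J) N hNk).2]
      simp only [hD1]
      rw [rep_AG k (2 ^ J) s N (by omega) hNk]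
      rfl
    have h5 : {x : Fin s → ℕ | (∀ i, 1 ≤ x i) ∧ ∑ i, a (x i) = N} = {x : Fin s → ℕ | ∑ i, a' (x i) = N} := by
      ext x
      simp only [Set.mem_ofPred_eq]
      constructor
      · rintro ⟨h6, h7⟩
        rw [← h7]
        refine sum_congr rfl fun i _ => ?_
        have : x i ≠ 0 := by have := h6 i; omega
        simp only [ha', if_neg this]
      · intro h6
        have h7 : ∀ i, 1 ≤ x i := by
          intro i
          by_contra hcon
          have h8 : x i = 0 := by omega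
          have h9 : a' (x i) ≤ ∑ i, a' (x i) :=
            single_le_sum (f := fun i => a' (x i)) (fun _ _ => Nat.zero_le _) (mem_univ i)
          rw [h6] at h9
          simp only [ha', h8, if_true] at h9
          omega
        refine ⟨h7, ?_⟩
        rw [← h6]
        refine sum_congr rfl fun i _ => ?_
        have : x i ≠ 0 := by have := h7 i; omega
        simp only [ha', if_neg this]
    have e2 : ({x : Fin s → ℕ | (∀ i, 1 ≤ x i) ∧ ∑ i, a (x i) = N}.ncard : ℝ) - EE k s N = D2 N := by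
      rw [h5, (ncard_sol k s (by omega) a' (by
        intro n
        simp only [ha']
        split_ifs with h0
        · rw [h0, zero_pow (by omega)]; omega
        · exact Nat.le_add_right _ _) (2 ^ J) N hNk).2]
      simp only [hD2]
      rw [rep_AG k (2 ^ J) s N (by omega) hNk]
      rfl
    rw [e1, e2] at hN3
    have hPN : P ^ k ≤ N := by
      have h1 : (2 ^ j) ^ k ≤ N := by
        calc (2 ^ j) ^ k ≤ 2 * s * (2 ^ j) ^ k := Nat.le_mul_of_pos_left _ (by omega)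
          _ ≤ N := hN1
      rw [hP]
      exact_mod_cast h1
    have hlow : L ^ ((s : ℝ) - k - κ') ≤ K * (N : ℝ) ^ ((s : ℝ) / k - 1 - κ' / k) := by
      rw [hLP, Real.mul_rpow (by positivity) hP0.le]
      gcongr ?_ * ?_
      · rw [hK, ← Real.rpow_natCast 2 (s + 2), ← Real.rpow_mul (by norm_num), ← Real.rpow_natCast 2 ((s + 2) * s)]
        apply Real.rpow_le_rpow_of_exponent_le (by norm_num)
        rw [Nat.cast_mul]
        apply mul_le_mul_of_nonneg_left _ (by positivity)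
        linarith
      · have h2 : P ^ ((s : ℝ) - k - κ') = (P ^ k) ^ ((s : ℝ) / k - 1 - κ' / k) := by
          rw [← Real.rpow_natCast P k, ← Real.rpow_mul hP0.le]
          congr 1
          field_simp
        rw [h2]
        apply Real.rpow_le_rpow (by positivity) hPN
        have : (s : ℝ) / k - 1 - κ' / k = (s - k - κ') / k := by field_simp
        rw [this]
        apply div_nonneg (by linarith) (by linarith)
    have hsq : L ^ (2 * ((s : ℝ) - k - κ')) = (L ^ ((s : ℝ) - k - κ')) ^ 2 := by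
      rw [← Real.rpow_natCast (L ^ ((s : ℝ) - k - κ')) 2, ← Real.rpow_mul hL0.le]
      congr 1
      push_cast
      ring
    rw [hsq]
    by_contra hcon
    push Not at hcon
    have hLp : 0 ≤ L ^ ((s : ℝ) - k - κ') := by positivity
    apply hN3
    constructor
    · refine le_trans ?_ hlow
      exact abs_le_of_sq_le_sq (by nlinarith [sq_nonneg (D2 N)]) hLp
    · refine le_trans ?_ hlow
      exact abs_le_of_sq_le_sq (by nlinarith [sq_nonneg (D1 N)]) hLp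
  have hsum1 : ∑ N ∈ B, D1 N ^ 2 ≤ L ^ (2 * (s : ℝ) - k - κ1) :=
    (sum_le_sum_of_subset_of_nonneg hsub (fun _ _ _ => sq_nonneg _)).trans hm1
  have hsum2 : ∑ N ∈ B, D2 N ^ 2 ≤ L ^ (2 * (s : ℝ) - k - κ1) :=
    (sum_le_sum_of_subset_of_nonneg hsub (fun _ _ _ => sq_nonneg _)).trans hm2
  have hcard : (B.card : ℝ) * L ^ (2 * ((s : ℝ) - k - κ')) ≤ 2 * L ^ (2 * (s : ℝ) - k - κ1) := by
    calc (B.card : ℝ) * L ^ (2 * ((s : ℝ) - k - κ')) = ∑ N ∈ B, L ^ (2 * ((s : ℝ) - k - κ')) := by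
          rw [sum_const, nsmul_eq_mul]
      _ ≤ ∑ N ∈ B, (D1 N ^ 2 + D2 N ^ 2) := sum_le_sum hkey
      _ = ∑ N ∈ B, D1 N ^ 2 + ∑ N ∈ B, D2 N ^ 2 := sum_add_distrib
      _ ≤ _ := by linarith
  have hcard2 : (B.card : ℝ) ≤ 2 * L ^ ((k : ℝ) - κ') := by
    have h1 : 2 * L ^ (2 * (s : ℝ) - k - κ1) ≤ (2 * L ^ ((k : ℝ) - κ')) * L ^ (2 * ((s : ℝ) - k - κ')) := by
      rw [mul_assoc, ← Real.rpow_add hL0]
      apply mul_le_mul_of_nonneg_left _ (by norm_num)
      apply Real.rpow_le_rpow_of_exponent_le hL1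
      linarith
    exact le_of_mul_le_mul_right (hcard.trans h1) (by positivity)
  refine hcard2.trans ?_
  rw [hLP, Real.mul_rpow (by positivity) hP0.le, ← mul_assoc]
  have hcastP : ((2 ^ j : ℕ) : ℝ) = P := by rw [hP]; push_cast; rfl
  rw [hcastP]
  gcongr
  rw [← Real.rpow_natCast 2 (s + 2), ← Real.rpow_mul (by norm_num), ← Real.rpow_natCast 2 ((s + 2) * k)]
  apply Real.rpow_le_rpow_of_exponent_le (by norm_num)
  rw [Nat.cast_mul]
  apply mul_le_mul_of_nonneg_left _ (by positivity)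
  linarith

end Pool.Agent.X30.WS
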