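import Mathlib
import Pool.Agent.X30.WR6
import Pool.Agent.X30.WQ7

/-!
# The asymptotic formula for almost all integers, final forms
-/

set_option autoImplicit false

namespace Pool.Agent.X30.WS

open Finset Filter Topology MeasureTheory ProbabilityTheory
open Pool.Agent.X30.WP

variable {Ω : Type*} [MeasurableSpace Ω] {μ : Measure Ω} [IsProbabilityMeasure μ]

/-- adding finitely many exceptions -/
lemma add_exceptions (κ C : ℝ) (hκ1 : κ ≤ 1) (hC : 0 ≤ C) (Bad Bad' : ℕ → Prop) (N0 : ℕ)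
    (himp : ∀ N, N0 ≤ N → Bad' N → Bad N)
    (h : ∀ X : ℕ, ∀ B : Finset ℕ, (∀ N ∈ B, N ≤ X ∧ Bad N) → (B.card : ℝ) ≤ C * ((X : ℝ) + 1) ^ (1 - κ)) :
    ∀ X : ℕ, ∀ B : Finset ℕ, (∀ N ∈ B, N ≤ X ∧ Bad' N) →
      (B.card : ℝ) ≤ (N0 + C) * ((X : ℝ) + 1) ^ (1 - κ) := by
  classical
  intro X B hB
  have h1 : (1 : ℝ) ≤ ((X : ℝ) + 1) ^ (1 - κ) := by
    apply Real.one_le_rpow _ (by linarith)
    have : (0 : ℝ) ≤ X := by positivity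
    linarith
  have h2 := h X (B.filter (fun N => N0 ≤ N)) (by
    intro N hN
    rw [mem_filter] at hN
    exact ⟨(hB N hN.1).1, himp N hN.2 (hB N hN.1).2⟩)
  have h3 : B ⊆ range N0 ∪ B.filter (fun N => N0 ≤ N) := by
    intro N hN
    rw [mem_union, mem_range, mem_filter]
    rcases lt_or_ge N N0 with h | h
    · exact Or.inl h
    · exact Or.inr ⟨hN, h⟩
  have h4 := (card_le_card h3).trans (card_union_le _ _)
  rw [card_range] at h4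
  have h5 : (B.card : ℝ) ≤ N0 + ((B.filter (fun N => N0 ≤ N)).card : ℝ) := by exact_mod_cast h4
  have h6 : (0 : ℝ) ≤ N0 := by positivity
  nlinarith

/-- the asymptotic formula for almost all integers -/
theorem aa_asymp (k q s : ℕ) (hq1 : 1 ≤ q) (hq : q + 2 ≤ k) (hs : (2 : ℝ) ^ q < 2 * s) (η h : ℝ)
    (hη : ((k : ℝ) - η) * (2 * s + q * 2 ^ q) < 2 * s * (q + 1)) (hη1 : η ≤ k - 1)
    (hh0 : 0 ≤ h) (hh : (k : ℝ) < s * (1 - h))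
    (δ : ℕ → Ω → ℕ) (hm : ∀ m, Measurable (δ m)) (hind : iIndepFun δ μ)
    (hu : ∀ m, ∀ d < 2 ^ ⌊η * Nat.log 2 m⌋₊,
      μ {ω | δ m ω = d} = 1 / ((2 ^ ⌊η * Nat.log 2 m⌋₊ : ℕ) : ENNReal)) :
    ∃ κ : ℝ, 0 < κ ∧ κ ≤ 1 ∧ ∀ᵐ ω ∂μ, ∀ ε : ℝ, 0 < ε → ∃ C : ℝ, 0 ≤ C ∧ ∀ X : ℕ, ∀ B : Finset ℕ,
      (∀ N ∈ B, N ≤ X ∧ ¬ (
        |({x : Fin s → ℕ | ∑ i, (x i ^ k + δ (tau h (x i)) ω) = N}.ncard : ℝ) / (N : ℝ) ^ ((s : ℝ) / k - 1) -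
          Real.Gamma (1 + 1 / k) ^ s / Real.Gamma (s / k)| ≤ ε ∧
        |({x : Fin s → ℕ | (∀ i, 1 ≤ x i) ∧ ∑ i, (x i ^ k + δ (tau h (x i)) ω) = N}.ncard : ℝ) /
          (N : ℝ) ^ ((s : ℝ) / k - 1) - Real.Gamma (1 + 1 / k) ^ s / Real.Gamma (s / k)| ≤ ε)) →
      (B.card : ℝ) ≤ C * ((X : ℝ) + 1) ^ (1 - κ) := by
  obtain ⟨κ, K, hκ, hκ1, hK, hmain⟩ := waring_cmp2 k q s hq1 hq hs η h hη hη1 hh0 hh δ hm hind hu
  have hs1 : 1 ≤ s := by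
    by_contra hcon
    have : s = 0 := by omega
    rw [this] at hs
    have : (0 : ℝ) < 2 ^ q := by positivity
    norm_num at hs
    linarith
  have hE := main_term k s (by omega) hs1
  refine ⟨κ, hκ, hκ1, ?_⟩
  filter_upwards [hmain] with ω hω ε hε
  obtain ⟨C, hC, h1⟩ := hω
  -- threshold
  obtain ⟨N1, hN1⟩ := (Metric.tendsto_atTop.1 hE) (ε / 2) (by positivity)
  have h2 : Tendsto (fun N : ℕ => K * (N : ℝ) ^ (-κ)) atTop (𝓝 0) := by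
    have := ((tendsto_rpow_neg_atTop hκ).comp tendsto_natCast_atTop_atTop).const_mul K
    rw [mul_zero] at this
    exact this
  obtain ⟨N2, hN2⟩ := (Metric.tendsto_atTop.1 h2) (ε / 2) (by positivity)
  refine ⟨((max (max N1 N2) 1 : ℕ) : ℝ) + C, by positivity, ?_⟩
  apply add_exceptions κ C hκ1 hC _ _ (max (max N1 N2) 1) _ h1
  intro N hN hbad hgood
  apply hbad
  have hNN1 : N1 ≤ N := (le_max_left _ _).trans ((le_max_left _ _).trans hN)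
  have hNN2 : N2 ≤ N := (le_max_right _ _).trans ((le_max_left _ _).trans hN)
  have hN0 : 1 ≤ N := (le_max_right _ _).trans hN
  have hN0' : (0 : ℝ) < N := by exact_mod_cast hN0
  have h3 := hN1 N hNN1
  have h4 := hN2 N hNN2
  rw [Real.dist_eq] at h3 h4
  rw [sub_zero, abs_of_pos (by positivity)] at h4
  have hgen : ∀ R : ℝ, |R - EE k s N| ≤ K * (N : ℝ) ^ ((s : ℝ) / k - 1 - κ) →
      |R / (N : ℝ) ^ ((s : ℝ) / k - 1) - Real.Gamma (1 + 1 / k) ^ s / Real.Gamma (s / k)| ≤ ε := by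
    intro R hR
    have e1 : |(R - EE k s N) / (N : ℝ) ^ ((s : ℝ) / k - 1)| ≤ ε / 2 := by
      rw [abs_div, abs_of_pos (by positivity : (0 : ℝ) < (N : ℝ) ^ ((s : ℝ) / k - 1)),
        div_le_iff₀ (by positivity)]
      refine hR.trans ?_
      have e2 : (N : ℝ) ^ ((s : ℝ) / k - 1 - κ) = (N : ℝ) ^ (-κ) * (N : ℝ) ^ ((s : ℝ) / k - 1) := by
        rw [← Real.rpow_add hN0']; congr 1; ring
      rw [e2, ← mul_assoc]
      gcongr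
    have e3 : R / (N : ℝ) ^ ((s : ℝ) / k - 1) - Real.Gamma (1 + 1 / k) ^ s / Real.Gamma (s / k) =
        (R - EE k s N) / (N : ℝ) ^ ((s : ℝ) / k - 1) +
        (EE k s N / (N : ℝ) ^ ((s : ℝ) / k - 1) - Real.Gamma (1 + 1 / k) ^ s / Real.Gamma (s / k)) := by
      rw [sub_div]; ring
    rw [e3]
    refine (abs_add_le _ _).trans ?_
    have h5 : |EE k s N / (N : ℝ) ^ ((s : ℝ) / k - 1) -
        Real.Gamma (1 + 1 / k) ^ s / Real.Gamma (s / k)| ≤ ε / 2 := h3.le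
    linarith
  exact ⟨hgen _ hgood.1, hgen _ hgood.2⟩

/-- the asymptotic formula for the number of points on almost all shifted spheres -/
theorem aa_sphere (k q s : ℕ) (hq1 : 1 ≤ q) (hq : q + 2 ≤ k) (hs : (2 : ℝ) ^ q < 2 * s) (η h : ℝ)
    (hη : ((k : ℝ) - η) * (2 * s + q * 2 ^ q) < 2 * s * (q + 1)) (hη1 : η ≤ k - 1)
    (hh0 : 0 ≤ h) (hh : (k : ℝ) < s * (1 - h))
    (δ : ℕ → Ω → ℕ) (hm : ∀ m, Measurable (δ m)) (hind : iIndepFun δ μ)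
    (hu : ∀ m, ∀ d < 2 ^ ⌊η * Nat.log 2 m⌋₊,
      μ {ω | δ m ω = d} = 1 / ((2 ^ ⌊η * Nat.log 2 m⌋₊ : ℕ) : ENNReal)) :
    ∃ κ : ℝ, 0 < κ ∧ κ ≤ 1 ∧ ∀ᵐ ω ∂μ, ∀ ε : ℝ, 0 < ε → ∃ C : ℝ, 0 ≤ C ∧ ∀ X : ℕ, ∀ B : Finset ℕ,
      (∀ N ∈ B, N ≤ X ∧ ¬ (
        |({x : Fin s → ℤ | ∑ i, ((x i).natAbs ^ k + δ (tau h (x i).natAbs) ω) = N}.ncard : ℝ) /
          (N : ℝ) ^ ((s : ℝ) / k - 1) - (2 * Real.Gamma (1 + 1 / k)) ^ s / Real.Gamma (s / k)| ≤ ε)) →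
      (B.card : ℝ) ≤ C * ((X : ℝ) + 1) ^ (1 - κ) := by
  obtain ⟨κ, hκ, hκ1, hmain⟩ := aa_asymp k q s hq1 hq hs η h hη hη1 hh0 hh δ hm hind hu
  refine ⟨κ, hκ, hκ1, ?_⟩
  filter_upwards [hmain] with ω hω ε hε
  have h2s : (0 : ℝ) < 2 ^ s := by positivity
  obtain ⟨C, hC, h1⟩ := hω (ε / 2 ^ s) (by positivity)
  refine ⟨C, hC, fun X B hB => h1 X B fun N hN => ⟨(hB N hN).1, ?_⟩⟩
  rintro ⟨g1, g2⟩
  apply (hB N hN).2
  obtain ⟨_, s1, s2⟩ := signs k s (fun n => n ^ k + δ (tau h n) ω) N (by omega) (fun n => Nat.le_add_right _ _)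
  set V : ℝ := ({x : Fin s → ℤ | ∑ i, ((x i).natAbs ^ k + δ (tau h (x i).natAbs) ω) = N}.ncard : ℝ) with hV
  set R0 : ℝ := ({x : Fin s → ℕ | ∑ i, (x i ^ k + δ (tau h (x i)) ω) = N}.ncard : ℝ) with hR0
  set R1 : ℝ := ({x : Fin s → ℕ | (∀ i, 1 ≤ x i) ∧ ∑ i, (x i ^ k + δ (tau h (x i)) ω) = N}.ncard : ℝ) with hR1
  have t1 : 2 ^ s * R1 ≤ V := by
    rw [hV, hR1]
    exact_mod_cast s1
  have t2 : V ≤ 2 ^ s * R0 := by
    rw [hV, hR0]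
    exact_mod_cast s2
  set p : ℝ := (N : ℝ) ^ ((s : ℝ) / k - 1) with hp
  have hp0 : 0 ≤ p := by positivity
  have u1 : 2 ^ s * (R1 / p) ≤ V / p := by
    rw [← mul_div_assoc]; exact div_le_div_of_nonneg_right t1 hp0
  have u2 : V / p ≤ 2 ^ s * (R0 / p) := by
    rw [← mul_div_assoc]; exact div_le_div_of_nonneg_right t2 hp0
  set G : ℝ := Real.Gamma (1 + 1 / k) ^ s / Real.Gamma (s / k) with hG
  have hG2 : (2 * Real.Gamma (1 + 1 / k)) ^ s / Real.Gamma (s / k) = 2 ^ s * G := by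
    rw [hG, mul_pow]; ring
  rw [hG2]
  rw [abs_le] at g1 g2 ⊢
  have v1 : 2 ^ s * (R0 / p - G) ≤ ε := by
    have := mul_le_mul_of_nonneg_left g1.2 h2s.le
    rwa [mul_div_cancel₀ _ h2s.ne'] at this
  have v2 : -ε ≤ 2 ^ s * (R1 / p - G) := by
    have := mul_le_mul_of_nonneg_left g2.1 h2s.le
    rwa [mul_neg, mul_div_cancel₀ _ h2s.ne'] at this
  constructor <;> nlinarith

end Pool.Agent.X30.WS
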