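import Mathlib
import Pool.Agent.X30.PQ1
import Pool.Agent.X30.PQ2
import Pool.Agent.X30.PP5

/-!
# A dense set plus few random elements of the gaps of the `k`-th powers
-/

set_option autoImplicit false

namespace Pool.Agent.X30.PQ

open Finset MeasureTheory ProbabilityTheory
open Pool.Agent.X30.WP (gp gp_add gp_ge gp_pos gp_mono gp_le unif_ae)

lemma growth (k m : ℕ) (hk : 2 ≤ k) (κ : ℝ) (hκ : 0 < κ) :
    ∃ j0 : ℕ, ∀ j, j0 ≤ j → ∀ q c : ℕ, q = 2 ^ j / (m + 1) →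
      (2 : ℝ) ^ ((j : ℝ) * ((k : ℝ) - m - 1 + κ)) ≤ c →
      ((j ^ 2 : ℕ) : ℝ) ≤ (c : ℝ) * (q : ℝ) ^ m / ((((13 * j ^ 2) ^ m : ℕ) : ℝ) * gp k (2 ^ (j + 3))) / 2 := by
  set ρ : ℝ := (2 : ℝ) ^ κ with hρ
  have hρ1 : 1 < ρ := Real.one_lt_rpow (by norm_num) hκ
  have hk0 : (0 : ℝ) < k := by exact_mod_cast (by omega : 0 < k)
  set c1 : ℝ := (2 * (m + 1)) ^ m * 13 ^ m * (k * (16 : ℝ) ^ (k - 1)) with hc1
  have hc10 : 0 < c1 := by positivity
  have htend := tendsto_pow_const_div_const_pow_of_one_lt (2 * m + 2) hρ1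
  obtain ⟨j1, hj1⟩ := Filter.eventually_atTop.1 (htend.eventually_lt_const (show (0 : ℝ) < 1 / (2 * c1) by positivity))
  refine ⟨max (max j1 1) (2 * m), fun j hj q c hq hc => ?_⟩
  have hjj1 : j1 ≤ j := (le_max_left _ _).trans ((le_max_left _ _).trans hj)
  have hj1' : 1 ≤ j := (le_max_right _ _).trans ((le_max_left _ _).trans hj)
  have hj2m : 2 * m ≤ j := (le_max_right _ _).trans hj
  have hj0 : (0 : ℝ) < j := by exact_mod_cast hj1'
  have h1 := hj1 j hjj1
  have hρj : (0 : ℝ) < ρ ^ j := by positivity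
  rw [div_lt_div_iff₀ hρj (by positivity), one_mul] at h1
  have hq1 : (2 : ℝ) ^ j / (2 * (m + 1)) ≤ q := by
    have h2 : 2 ^ j < (q + 1) * (m + 1) := by
      rw [hq]
      have := Nat.lt_div_mul_add (a := 2 ^ j) (b := m + 1) (by omega)
      linarith [(by ring : (2 ^ j / (m + 1) + 1) * (m + 1) = 2 ^ j / (m + 1) * (m + 1) + (m + 1))]
    have h3 : 2 * m < 2 ^ j := hj2m.trans_lt Nat.lt_two_pow_self
    have h4 : 2 ^ j ≤ q * (2 * (m + 1)) := by
      have h5 : (q + 1) * (m + 1) = q * (m + 1) + (m + 1) := by ring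
      have h6 : q * (2 * (m + 1)) = 2 * (q * (m + 1)) := by ring
      omega
    rw [div_le_iff₀ (by positivity)]
    exact_mod_cast h4
  have hgp : (gp k (2 ^ (j + 3)) : ℝ) ≤ (k * (16 : ℝ) ^ (k - 1)) * ((2 : ℝ) ^ j) ^ (k - 1) := by
    obtain ⟨k', rfl⟩ : ∃ k', k = k' + 1 := ⟨k - 1, by omega⟩
    have h2 := gp_le k' (2 ^ (j + 3))
    have h3 : 2 ^ (j + 3) + 1 ≤ 16 * 2 ^ j := by
      have : 1 ≤ 2 ^ j := Nat.one_le_two_pow
      rw [pow_add]
      omega
    have h4 : gp (k' + 1) (2 ^ (j + 3)) ≤ (k' + 1) * (16 * 2 ^ j) ^ k' :=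
      h2.trans (Nat.mul_le_mul_left _ (Nat.pow_le_pow_left h3 _))
    rw [Nat.add_sub_cancel, mul_assoc, ← mul_pow]
    exact_mod_cast h4
  have hgp0 : (0 : ℝ) < gp k (2 ^ (j + 3)) := by exact_mod_cast gp_pos k _ (by omega)
  rw [le_div_iff₀ (by norm_num), le_div_iff₀ (by positivity)]
  push_cast
  have hpw : (2 : ℝ) ^ ((j : ℝ) * ((k : ℝ) - m - 1 + κ)) * ((2 : ℝ) ^ j) ^ m = ρ ^ j * ((2 : ℝ) ^ j) ^ (k - 1) := by
    rw [hρ, ← Real.rpow_natCast ((2 : ℝ) ^ κ) j, ← Real.rpow_mul (by norm_num), ← pow_mul, ← pow_mul,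
      ← Real.rpow_natCast 2 (j * m), ← Real.rpow_natCast 2 (j * (k - 1)), ← Real.rpow_add (by norm_num),
      ← Real.rpow_add (by norm_num)]
    congr 1
    push_cast
    rw [Nat.cast_sub (by omega)]
    push_cast
    ring
  calc (j : ℝ) ^ 2 * 2 * ((13 * (j : ℝ) ^ 2) ^ m * gp k (2 ^ (j + 3)))
      ≤ (j : ℝ) ^ 2 * 2 * ((13 * (j : ℝ) ^ 2) ^ m * ((k * (16 : ℝ) ^ (k - 1)) * ((2 : ℝ) ^ j) ^ (k - 1))) := by
        gcongr
    _ = ((j : ℝ) ^ (2 * m + 2) * (2 * c1)) * ((2 : ℝ) ^ j) ^ (k - 1) / (2 * (m + 1)) ^ m := by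
        rw [hc1, mul_pow 13, ← pow_mul, pow_add]
        field_simp
    _ ≤ ρ ^ j * ((2 : ℝ) ^ j) ^ (k - 1) / (2 * (m + 1)) ^ m := by gcongr
    _ = (2 : ℝ) ^ ((j : ℝ) * ((k : ℝ) - m - 1 + κ)) * ((2 : ℝ) ^ j / (2 * (m + 1))) ^ m := by
        rw [← hpw, div_pow]; ring
    _ ≤ (c : ℝ) * (q : ℝ) ^ m := by gcongr

variable {Ω : Type*} [MeasurableSpace Ω] {μ : Measure Ω} [IsProbabilityMeasure μ]

theorem dense_plus (k m : ℕ) (hk : 2 ≤ k) (hmk : m ≤ k) (κ : ℝ) (hκ : 0 < κ) (𝒜 : Set ℕ)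
    (hA : ∃ j0 : ℕ, ∀ j, j0 ≤ j → ∃ A : Finset ℕ, (∀ a ∈ A, a ∈ 𝒜 ∧ a ≤ (2 ^ j) ^ k) ∧
      A.card ≤ 2 ^ (j * (k - m)) ∧ (2 : ℝ) ^ ((j : ℝ) * ((k : ℝ) - m - 1 + κ)) ≤ A.card)
    (δ : ℕ → Ω → ℕ) (hm : ∀ n, Measurable (δ n)) (hind : iIndepFun δ μ)
    (hu : ∀ n, ∀ d < gp k n, μ {ω | δ n ω = d} = 1 / (gp k n : ENNReal)) :
    ∀ᵐ ω ∂μ, ∃ N0 : ℕ, ∀ N : ℕ, N0 ≤ N → ∃ a ∈ 𝒜, ∃ x : Fin (m + 1) → ℕ, (∀ i, 1 ≤ x i) ∧
      N = a + ∑ i, (x i ^ k + δ (x i) ω) := by
  obtain ⟨j0, hj0⟩ := hA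
  choose! A hA1 hA2 hA3 using hj0
  obtain ⟨j1, hj1⟩ := growth k m hk κ hκ
  have hD : ∀ n, 1 ≤ gp k n := fun n => gp_pos k n (by omega)
  -- notation
  set q : ℕ → ℕ := fun j => 2 ^ j / (m + 1) with hq
  set Cc : ℕ → ℕ → Finset ℕ := fun j i =>
    if i < m then Ico (2 ^ j + i * q j) (2 ^ j + (i + 1) * q j) else Ico (2 ^ (j + 1)) (2 ^ (j + 3)) with hCc
  set T2 : ℕ → ℕ := fun j => (2 ^ (j + 3)) ^ k with hT2
  set Bad : ℕ → Set Ω := fun j => {ω | (∀ n, δ n ω < gp k n) ∧ ∃ N : ℕ, (2 ^ (j + 2)) ^ k ≤ N ∧ N < T2 j ∧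
    hh k (Cc j) (A j) (fun n => δ n ω) (m + 1) N = 0} with hBad
  set C : ℝ := (m + 1) * (2 * 2 ^ (3 * k)) with hC
  have hBadm : ∀ j, max (max j0 j1) (k + 1) ≤ j → μ (Bad j) ≤ ENNReal.ofReal (C * (1 / 2) ^ j) := by
    intro j hj
    have hjj0 : j0 ≤ j := (le_max_left _ _).trans ((le_max_left _ _).trans hj)
    have hjj1 : j1 ≤ j := (le_max_right _ _).trans ((le_max_left _ _).trans hj)
    have hjk : k + 1 ≤ j := (le_max_right _ _).trans hj
    have hqm : (m + 1) * q j ≤ 2 ^ j := Nat.mul_div_le _ _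
    have hiq : ∀ i, i ≤ m → (i + 1) * q j ≤ 2 ^ j := fun i hi =>
      (Nat.mul_le_mul_right _ (by omega)).trans hqm
    have hq2 : q j ≤ 2 ^ j := Nat.div_le_self _ _
    have hCi : ∀ i < m, Cc j i = Ico (2 ^ j + i * q j) (2 ^ j + (i + 1) * q j) := fun i hi => by
      simp only [hCc]; rw [if_pos hi]
    have hCm : Cc j m = Ico (2 ^ (j + 1)) (2 ^ (j + 3)) := by
      simp only [hCc]; rw [if_neg (lt_irrefl _)]
    have hmul : ∀ i : ℕ, (i + 1) * q j = i * q j + q j := fun i => by ring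
    have hcard : ∀ i < m, (Cc j i).card = q j := by
      intro i hi
      rw [hCi i hi, Nat.card_Ico, hmul]
      omega
    have h2j : 2 ^ (j + 1) = 2 * 2 ^ j := by rw [pow_succ]; ring
    have hmemlt : ∀ i < m, ∀ x ∈ Cc j i, 1 ≤ x ∧ x + 1 ≤ 2 ^ (j + 1) := by
      intro i hi x hx
      rw [hCi i hi, mem_Ico] at hx
      have h1 := hiq i hi.le
      have h2 := Nat.one_le_two_pow (n := j)
      omega
    have hmono : ∀ i i', i < i' → (i + 1) * q j ≤ i' * q j := fun i i' h => Nat.mul_le_mul_right _ h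
    have hdisj : ∀ i ≤ m, ∀ i' < i, ∀ x ∈ Cc j i', x ∉ Cc j i := by
      intro i hi i' hi' x hx hx'
      rcases lt_or_eq_of_le hi with hlt | heq
      · rw [hCi i hlt, mem_Ico] at hx'
        rw [hCi i' (by omega), mem_Ico] at hx
        have := hmono i' i hi'
        omega
      · subst heq
        rw [hCm, mem_Ico] at hx'
        have := (hmemlt i' (by omega) x hx).2
        omega
    have hM : ∀ i ≤ m, ∀ i' < i, ∀ x ∈ Cc j i', x < 2 ^ (j + 1) := by
      intro i hi i' hi' x hx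
      have := (hmemlt i' (by omega) x hx).2
      omega
    have hGap : ∀ i < m, (A j).card * q j ^ i ≤ gp k (2 ^ j + i * q j) := by
      intro i hi
      obtain ⟨k', rfl⟩ : ∃ k', k = k' + 1 := ⟨k - 1, by omega⟩
      calc (A j).card * q j ^ i ≤ 2 ^ (j * (k' + 1 - m)) * (2 ^ j) ^ i :=
            Nat.mul_le_mul (hA2 j hjj0) (Nat.pow_le_pow_left hq2 _)
        _ = 2 ^ (j * (k' + 1 - m + i)) := by rw [← pow_mul, ← pow_add]; ring_nf
        _ ≤ 2 ^ (j * k') := by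
            apply Nat.pow_le_pow_right (by norm_num)
            apply Nat.mul_le_mul_left
            omega
        _ = (2 ^ j) ^ k' := by rw [pow_mul]
        _ ≤ (2 ^ j + i * q j + 1) ^ k' := Nat.pow_le_pow_left (by omega) _
        _ ≤ _ := gp_ge k' _
    have hj1' : 1 ≤ j := by omega
    have hT : 1 ≤ j ^ 2 := Nat.one_le_pow _ _ hj1'
    have hK : ∀ i, 1 ≤ (13 * j ^ 2) ^ i := fun i => Nat.one_le_pow _ _ (by omega)
    set p : ENNReal := ENNReal.ofReal (Real.exp (-((j ^ 2 : ℕ) : ℝ))) with hp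
    set E : ℕ → ℕ → Set Ω := fun i v => {ω | (∀ u ≤ (T2 j : ℤ), hh k (Cc j) (A j) (fun n => δ n ω) i u ≤
      (13 * j ^ 2) ^ i) ∧ 13 * j ^ 2 * (13 * j ^ 2) ^ i < hh k (Cc j) (A j) (fun n => δ n ω) (i + 1) (v : ℤ)}
      with hE
    set G : ℕ → Set Ω := fun N => {ω | (∀ n, δ n ω < gp k n) ∧ (∀ u ≤ (T2 j : ℤ),
      hh k (Cc j) (A j) (fun n => δ n ω) m u ≤ (13 * j ^ 2) ^ m) ∧
      hh k (Cc j) (A j) (fun n => δ n ω) (m + 1) (N : ℤ) = 0} with hG
    have hEp : ∀ i ∈ range m, ∀ v ∈ range (T2 j + 1), μ (E i v) ≤ p := by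
      intro i hi v hv
      rw [mem_range] at hi hv
      exact step_prob δ hm hind k (by omega) hu (Cc j) (A j) (2 ^ (j + 1)) i (q j) (2 ^ j + i * q j)
        (2 ^ j + (i + 1) * q j) (by rw [hmul]; omega) (hCi i hi) (fun i' hi' => hcard i' (by omega))
        (hM i hi.le) (hdisj i hi.le) (hGap i hi) (j ^ 2) ((13 * j ^ 2) ^ i) hT (hK i) (T2 j) v (by
          have : v ≤ T2 j := by omega
          exact_mod_cast this)
    have hGp : ∀ N ∈ (range (T2 j)).filter (fun N => (2 ^ (j + 2)) ^ k ≤ N), μ (G N) ≤ p := by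
      intro N hN
      rw [mem_filter, mem_range] at hN
      refine (final_prob δ hm hind k (by omega) hu (Cc j) (A j) (2 ^ (j + 1)) m (q j) (2 ^ (j + 1))
        (2 ^ (j + 3)) (Nat.pow_le_pow_right (by norm_num) (by omega)) hCm hcard (hM m le_rfl)
        (hdisj m le_rfl) ((2 ^ (j + 1)) ^ k) ((2 ^ j) ^ k)
        (fun i' hi' x hx => Nat.pow_le_pow_left (hmemlt i' hi' x hx).2 k)
        (fun a ha => (hA1 j hjj0 a ha).2) ((13 * j ^ 2) ^ m) (hK m) (T2 j) N ?_ ?_ ?_).trans ?_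
      · exact_mod_cast hN.1.le
      · exact_mod_cast hN.1
      · have h1 : (2 ^ (j + 1)) ^ k + (2 ^ j) ^ k + m * (2 ^ (j + 1)) ^ k ≤ (2 ^ (j + 2)) ^ k := by
          set X := (2 ^ (j + 1)) ^ k with hX
          have e1 : (2 ^ (j + 2)) ^ k = 2 ^ k * X := by
            rw [hX, ← mul_pow]
            congr 1
            ring
          have e2 : (2 ^ j) ^ k ≤ X := Nat.pow_le_pow_left (Nat.pow_le_pow_right (by norm_num) (by omega)) k
          have e3 : ∀ n, 2 ≤ n → n + 2 ≤ 2 ^ n := by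
            intro n hn
            induction n, hn using Nat.le_induction with
            | base => norm_num
            | succ n _ ih =>
              rw [pow_succ]
              omega
          have e4 := e3 k hk
          rw [e1]
          calc X + (2 ^ j) ^ k + m * X ≤ X + X + k * X := by gcongr
            _ = (k + 2) * X := by ring
            _ ≤ 2 ^ k * X := by gcongr
        have h2 := h1.trans hN.2
        exact_mod_cast h2
      · rw [hp]
        apply ENNReal.ofReal_le_ofReal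
        rw [Real.exp_le_exp, neg_le_neg_iff]
        exact hj1 j hjj1 (q j) (A j).card rfl (hA3 j hjj0)
    have hsub : Bad j ⊆ (⋃ i ∈ range m, ⋃ v ∈ range (T2 j + 1), E i v) ∪
        ⋃ N ∈ (range (T2 j)).filter (fun N => (2 ^ (j + 2)) ^ k ≤ N), G N := by
      intro ω hω
      simp only [hBad, Set.mem_ofPred_eq] at hω
      obtain ⟨hok, N, hN1, hN2, hN3⟩ := hω
      by_cases hcase : ω ∈ ⋃ i ∈ range m, ⋃ v ∈ range (T2 j + 1), E i v
      · exact Or.inl hcase
      right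
      have hgood : ∀ i, i ≤ m → ∀ u ≤ (T2 j : ℤ), hh k (Cc j) (A j) (fun n => δ n ω) i u ≤
          (13 * j ^ 2) ^ i := by
        intro i
        induction i with
        | zero =>
          intro _ u _
          rw [pow_zero]
          exact hh_zero_le_one _ _ _ _ _
        | succ i ih =>
          intro hi u hu'
          have ih' := ih (by omega)
          rcases lt_or_ge u 0 with hneg | hpos
          · rw [hh_neg _ _ _ _ _ _ hneg]
            exact Nat.zero_le _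
          · obtain ⟨v, rfl⟩ := Int.eq_ofNat_of_zero_le hpos
            by_contra hcon
            push Not at hcon
            apply hcase
            rw [Set.mem_iUnion₂]
            refine ⟨i, mem_range.2 (by omega), ?_⟩
            rw [Set.mem_iUnion₂]
            refine ⟨v, mem_range.2 (by
              have : v ≤ T2 j := by exact_mod_cast hu'
              omega), ?_⟩
            simp only [hE, Set.mem_ofPred_eq]
            refine ⟨ih', ?_⟩
            rw [pow_succ] at hcon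
            linarith [Nat.mul_comm ((13 * j ^ 2) ^ i) (13 * j ^ 2)]
      rw [Set.mem_iUnion₂]
      refine ⟨N, mem_filter.2 ⟨mem_range.2 hN2, hN1⟩, ?_⟩
      simp only [hG, Set.mem_ofPred_eq]
      exact ⟨hok, hgood m le_rfl, hN3⟩
    have hmeas : μ (Bad j) ≤ ((m * (T2 j + 1) + (T2 j + 1) : ℕ) : ENNReal) * p := by
      refine (measure_mono hsub).trans ((measure_union_le _ _).trans ?_)
      rw [Nat.cast_add, add_mul]
      refine add_le_add ?_ ?_
      · refine (measure_biUnion_finset_le _ _).trans ?_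
        calc ∑ i ∈ range m, μ (⋃ v ∈ range (T2 j + 1), E i v)
            ≤ ∑ i ∈ range m, ((T2 j + 1 : ℕ) : ENNReal) * p := by
              refine sum_le_sum fun i hi => ?_
              refine (measure_biUnion_finset_le _ _).trans ?_
              refine (sum_le_sum (hEp i hi)).trans ?_
              rw [sum_const, card_range, nsmul_eq_mul]
          _ = _ := by
              rw [sum_const, card_range, nsmul_eq_mul, ← mul_assoc]
              push_cast
              ring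
      · refine (measure_biUnion_finset_le _ _).trans ?_
        refine (sum_le_sum hGp).trans ?_
        rw [sum_const, nsmul_eq_mul]
        gcongr
        refine (card_filter_le _ _).trans ?_
        rw [card_range]
        omega
    refine hmeas.trans ?_
    rw [hp, ← ENNReal.ofReal_natCast, ← ENNReal.ofReal_mul (by positivity)]
    apply ENNReal.ofReal_le_ofReal
    have hexp : Real.exp (-((j ^ 2 : ℕ) : ℝ)) ≤ (1 / 2 : ℝ) ^ (j ^ 2) := by
      have h1 : Real.exp (-((j ^ 2 : ℕ) : ℝ)) = (Real.exp (-1)) ^ (j ^ 2) := by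
        rw [← Real.exp_nat_mul]
        congr 1
        ring
      rw [h1]
      apply pow_le_pow_left₀ (Real.exp_pos _).le
      rw [Real.exp_neg, one_div]
      have h2 := Real.add_one_le_exp (1 : ℝ)
      gcongr
      linarith
    have hT2' : ((m * (T2 j + 1) + (T2 j + 1) : ℕ) : ℝ) ≤ C * 2 ^ (k * j) := by
      have h1 : ((m * (T2 j + 1) + (T2 j + 1) : ℕ) : ℝ) = (m + 1) * ((T2 j : ℝ) + 1) := by
        push_cast; ring
      have h2 : (T2 j : ℝ) = 2 ^ (3 * k) * 2 ^ (k * j) := by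
        simp only [hT2]
        push_cast
        rw [← pow_mul, ← pow_add]
        congr 1
        ring
      have h3 : (1 : ℝ) ≤ 2 ^ (3 * k) * 2 ^ (k * j) :=
        one_le_mul_of_one_le_of_one_le (one_le_pow₀ (by norm_num)) (one_le_pow₀ (by norm_num))
      rw [h1, hC, mul_assoc, h2]
      gcongr
      linarith
    calc ((m * (T2 j + 1) + (T2 j + 1) : ℕ) : ℝ) * Real.exp (-((j ^ 2 : ℕ) : ℝ))
        ≤ (C * 2 ^ (k * j)) * (1 / 2 : ℝ) ^ (j ^ 2) := by gcongr
      _ ≤ (C * 2 ^ (k * j)) * ((1 / 2 : ℝ) ^ (k * j + j)) := by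
          have h1 : k * j + j ≤ j ^ 2 := by nlinarith
          gcongr ?_ * ?_
          exact pow_le_pow_of_le_one (by norm_num) (by norm_num) h1
      _ = C * (1 / 2) ^ j := by
          rw [pow_add, one_div, inv_pow, inv_pow]
          field_simp
  set J : ℕ := max (max j0 j1) (k + 1) with hJ
  have hfin : ∑' i : ℕ, μ (Bad (i + J)) ≠ ⊤ := by
    have h1 : ∀ i : ℕ, μ (Bad (i + J)) ≤ ENNReal.ofReal (C * (1 / 2) ^ (i + J)) := fun i =>
      hBadm _ (by omega)
    refine ne_top_of_le_ne_top ?_ (ENNReal.tsum_le_tsum h1)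
    apply Summable.tsum_ofReal_ne_top
    apply Summable.mul_left
    exact (summable_nat_add_iff J).2 (summable_geometric_of_lt_one (by norm_num) (by norm_num))
  have hok : ∀ᵐ ω ∂μ, ∀ n, δ n ω < gp k n :=
    ae_all_iff.2 fun n => unif_ae (δ n) (hm n) _ (hD n) (hu n)
  filter_upwards [hok, ae_eventually_notMem hfin] with ω hω1 hω2
  obtain ⟨j3, hj3⟩ := Filter.eventually_atTop.1 hω2
  refine ⟨(2 ^ k) ^ (j3 + J + 2), fun N hN => ?_⟩
  have hk1 : 1 < 2 ^ k := Nat.one_lt_two_pow (by omega)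
  have hN0 : N ≠ 0 := by
    have : 0 < (2 ^ k) ^ (j3 + J + 2) := by positivity
    omega
  have hlog : j3 + J + 2 ≤ Nat.log (2 ^ k) N := Nat.le_log_of_pow_le hk1 hN
  obtain ⟨j, hj⟩ : ∃ j, Nat.log (2 ^ k) N = j + 2 := ⟨Nat.log (2 ^ k) N - 2, by omega⟩
  have hN1 : (2 ^ k) ^ (j + 2) ≤ N := by
    rw [← hj]
    exact Nat.pow_log_le_self _ hN0
  have hN2 : N < (2 ^ k) ^ (j + 3) := by
    have := Nat.lt_pow_succ_log_self hk1 N
    rw [hj] at this
    exact this
  have hpow : ∀ i : ℕ, ((2 : ℕ) ^ k) ^ i = (2 ^ i) ^ k := fun i => by rw [← pow_mul, ← pow_mul, mul_comm]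
  rw [hpow] at hN1 hN2
  have h1 := hj3 (j - J) (by omega)
  rw [show j - J + J = j by omega] at h1
  simp only [hBad, Set.mem_ofPred_eq, not_and, not_exists] at h1
  have h2 := h1 hω1 N hN1 hN2
  obtain ⟨a, ha, x, hx1, hx2⟩ := exists_of_hh_pos k (Cc j) (A j) (fun n => δ n ω) (m + 1) N
    (Nat.pos_of_ne_zero h2)
  refine ⟨a, (hA1 j (by omega) a ha).1, x, fun i => ?_, ?_⟩
  · obtain ⟨i', hi'⟩ := hx1 i
    simp only [hCc] at hi'
    have h5 := Nat.one_le_two_pow (n := j)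
    have h6 : 1 ≤ 2 ^ (j + 1) := Nat.one_le_two_pow
    split_ifs at hi' <;> rw [mem_Ico] at hi' <;> omega
  · exact_mod_cast hx2.symm

end Pool.Agent.X30.PQ
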