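import Mathlib
import Pool.Agent.X30.PQ3

/-!
# Waring's problem with mostly exact powers and few perturbed ones
-/

set_option autoImplicit false

namespace Pool.Agent.X30.PQ

open Finset MeasureTheory ProbabilityTheory
open Pool.Agent.X30.WP (gp gp_add gp_ge gp_pos gp_mono gp_le unif_ae)

variable {Ω : Type*} [MeasurableSpace Ω] {μ : Measure Ω} [IsProbabilityMeasure μ]

theorem mostly_exact (k u t : ℕ) (hk : 2 ≤ k) (ht : (k : ℝ) * (1 - 1 / (k : ℝ)) ^ u < t)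
    (δ : ℕ → Ω → ℕ) (hm : ∀ n, Measurable (δ n)) (hind : iIndepFun δ μ)
    (hu : ∀ n, ∀ d < gp k n, μ {ω | δ n ω = d} = 1 / (gp k n : ENNReal)) :
    ∀ᵐ ω ∂μ, ∃ N0 : ℕ, ∀ N : ℕ, N0 ≤ N → ∃ z : Fin u → ℕ, ∃ x : Fin t → ℕ,
      (∀ i, 1 ≤ z i) ∧ (∀ i, 1 ≤ x i) ∧ N = ∑ i, (z i) ^ k + ∑ i, (x i ^ k + δ (x i) ω) := by
  have hk0 : (0 : ℝ) < k := by exact_mod_cast (by omega : 0 < k)
  have hk2 : (2 : ℝ) ≤ k := by exact_mod_cast hk
  set θ : ℝ := 1 - 1 / (k : ℝ) with hθ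
  have hθ0 : 0 < θ := by
    have : 1 / (k : ℝ) ≤ 1 / 2 := by gcongr
    rw [hθ]; linarith
  have hθ1 : θ ≤ 1 := by
    have : 0 ≤ 1 / (k : ℝ) := by positivity
    rw [hθ]; linarith
  have hθu : θ ^ u ≤ 1 := pow_le_one₀ hθ0.le hθ1
  have hkθ0 : 0 ≤ (k : ℝ) * θ ^ u := by positivity
  set m : ℕ := ⌊(k : ℝ) * θ ^ u⌋₊ with hmdef
  have hm1 : (m : ℝ) ≤ (k : ℝ) * θ ^ u := Nat.floor_le hkθ0
  have hm2 : (k : ℝ) * θ ^ u < m + 1 := Nat.lt_floor_add_one _
  have hmk : m ≤ k := by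
    have h1 : (m : ℝ) ≤ k := hm1.trans (by nlinarith)
    exact_mod_cast h1
  have hmt : m + 1 ≤ t := by
    have h1 : (m : ℝ) < t := lt_of_le_of_lt hm1 ht
    have h2 : m < t := by exact_mod_cast h1
    omega
  set κ : ℝ := ((m : ℝ) + 1 - (k : ℝ) * θ ^ u) / 2 with hκ
  have hκ0 : 0 < κ := by rw [hκ]; linarith
  have hκ1 : κ ≤ 1 / 2 := by rw [hκ]; linarith
  obtain ⟨c, hc, X0, hX0⟩ := dim k hk u
  have hρ1 : 1 < (2 : ℝ) ^ κ := Real.one_lt_rpow (by norm_num) hκ0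
  obtain ⟨j1, hj1⟩ := Filter.eventually_atTop.1
    ((tendsto_pow_atTop_atTop_of_one_lt hρ1).eventually_ge_atTop (1 / c))
  have hmain := dense_plus k m hk hmk κ hκ0 {n | SP k u n} (by
    refine ⟨max X0 j1, fun j hj => ?_⟩
    have hjX : X0 ≤ (2 ^ j) ^ k := by
      calc X0 ≤ j := (le_max_left _ _).trans hj
        _ ≤ 2 ^ j := Nat.lt_two_pow_self.le
        _ ≤ (2 ^ j) ^ k := Nat.le_self_pow (by omega) _
    obtain ⟨A0, hA01, hA02⟩ := hX0 ((2 ^ j) ^ k) hjX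
    obtain ⟨A, hAsub, hAcard⟩ := exists_subset_card_eq (min_le_left A0.card (2 ^ (j * (k - m))))
    refine ⟨A, fun a ha => ⟨(hA01 a (hAsub ha)).2, (hA01 a (hAsub ha)).1⟩, ?_, ?_⟩
    · rw [hAcard]
      exact min_le_right _ _
    · rw [hAcard, Nat.cast_min]
      have hj0 : (0 : ℝ) ≤ j := by positivity
      apply le_min
      · refine le_trans ?_ hA02
        have h1 : (((2 ^ j) ^ k : ℕ) : ℝ) ^ (1 - θ ^ u) = (2 : ℝ) ^ ((j : ℝ) * (k - k * θ ^ u)) := by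
          push_cast
          rw [← pow_mul, ← Real.rpow_natCast 2 (j * k), ← Real.rpow_mul (by norm_num)]
          congr 1
          push_cast
          ring
        rw [h1]
        have h2 : (2 : ℝ) ^ ((j : ℝ) * (k - k * θ ^ u)) =
            (2 : ℝ) ^ ((j : ℝ) * ((k : ℝ) - m - 1 + κ)) * ((2 : ℝ) ^ κ) ^ j := by
          rw [← Real.rpow_natCast ((2 : ℝ) ^ κ) j, ← Real.rpow_mul (by norm_num),
            ← Real.rpow_add (by norm_num)]
          congr 1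
          rw [hκ]
          ring
        rw [h2]
        have h3 := hj1 j ((le_max_right _ _).trans hj)
        rw [div_le_iff₀ hc] at h3
        have h4 : (0 : ℝ) < (2 : ℝ) ^ ((j : ℝ) * ((k : ℝ) - m - 1 + κ)) := by positivity
        nlinarith
      · push_cast
        rw [← Real.rpow_natCast 2 (j * (k - m))]
        apply Real.rpow_le_rpow_of_exponent_le (by norm_num)
        rw [Nat.cast_mul, Nat.cast_sub hmk]
        apply mul_le_mul_of_nonneg_left _ hj0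
        linarith) δ hm hind hu
  filter_upwards [hmain] with ω hω
  obtain ⟨N0, hN0⟩ := hω
  set y1 : ℕ := 1 ^ k + δ 1 ω with hy1
  obtain ⟨r, rfl⟩ : ∃ r, t = (m + 1) + r := ⟨t - (m + 1), by omega⟩
  refine ⟨N0 + r * y1, fun N hN => ?_⟩
  obtain ⟨a, ⟨z, hz1, hz2⟩, x, hx1, hx2⟩ := hN0 (N - r * y1) (by omega)
  refine ⟨z, Fin.append x (fun _ => 1), hz1, fun i => ?_, ?_⟩
  · refine Fin.addCases (fun i => ?_) (fun i => ?_) i
    · rw [Fin.append_left]; exact hx1 i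
    · rw [Fin.append_right]
  · rw [Fin.sum_univ_add]
    simp only [Fin.append_left, Fin.append_right, sum_const, card_univ, Fintype.card_fin, smul_eq_mul]
    rw [← hy1, ← hz2]
    have h1 : N = (N - r * y1) + r * y1 := by omega
    rw [h1, hx2]
    ring

lemma pow_le_exp2 (k u : ℕ) (hk : 1 ≤ k) : (1 - 1 / (k : ℝ)) ^ u ≤ Real.exp (-(u / k)) := by
  have hk0 : (0 : ℝ) < k := by exact_mod_cast hk
  have h1 : 1 - 1 / (k : ℝ) ≤ Real.exp (-(1 / k)) := by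
    have := Real.add_one_le_exp (-(1 / (k : ℝ)))
    linarith
  have h0 : 0 ≤ 1 - 1 / (k : ℝ) := by
    rw [sub_nonneg, div_le_one hk0]
    exact_mod_cast hk
  calc (1 - 1 / (k : ℝ)) ^ u ≤ (Real.exp (-(1 / k))) ^ u := pow_le_pow_left₀ h0 h1 u
    _ = _ := by
        rw [← Real.exp_nat_mul]
        congr 1
        ring

/-- `t = ⌊k / D⌋ + 1` perturbed powers among `s` suffice if `exp (B - 1 / D - 1 / k) ≥ D`, `s ≥ B k` -/
lemma cond (k s D : ℕ) (B : ℝ) (hk : 1 ≤ k) (hD : 1 ≤ D) (hs : B * k ≤ s) (hts : k / D + 1 ≤ s)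
    (hB : (D : ℝ) ≤ Real.exp (B - 1 / D - 1 / k)) :
    (k : ℝ) * (1 - 1 / (k : ℝ)) ^ (s - (k / D + 1)) < ((k / D + 1 : ℕ) : ℝ) := by
  have hk0 : (0 : ℝ) < k := by exact_mod_cast hk
  have hD0 : (0 : ℝ) < D := by exact_mod_cast hD
  have h1 := pow_le_exp2 k (s - (k / D + 1)) hk
  have h2 : Real.exp (-(((s - (k / D + 1) : ℕ) : ℝ) / k)) ≤ 1 / D := by
    have h3 : B - 1 / D - 1 / k ≤ ((s - (k / D + 1) : ℕ) : ℝ) / k := by
      rw [Nat.cast_sub hts, le_div_iff₀ hk0]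
      have h4 : ((k / D : ℕ) : ℝ) ≤ (k : ℝ) / D := Nat.cast_div_le
      push_cast
      have h5 : (B - 1 / D - 1 / k) * k = B * k - (k : ℝ) / D - 1 := by field_simp
      rw [h5]
      linarith
    rw [Real.exp_neg, one_div]
    gcongr
    exact hB.trans (Real.exp_le_exp.2 h3)
  have h3 : (k : ℝ) / D < ((k / D + 1 : ℕ) : ℝ) := by
    have h4 : k < (k / D + 1) * D := by
      have := Nat.lt_div_mul_add (a := k) (b := D) (by omega)
      calc k < k / D * D + D := this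
        _ = _ := by ring
    rw [div_lt_iff₀ hD0]
    exact_mod_cast h4
  calc (k : ℝ) * (1 - 1 / (k : ℝ)) ^ (s - (k / D + 1)) ≤ k * (1 / D) := by
        gcongr
        exact h1.trans h2
    _ = (k : ℝ) / D := by ring
    _ < _ := h3

lemma exp99 : (10 : ℝ) ^ 42 ≤ Real.exp 99 := by
  have h1 : Real.exp 99 = (Real.exp 1) ^ 99 := by
    rw [← Real.exp_nat_mul]; norm_num
  have h2 : (2.7 : ℝ) ≤ Real.exp 1 := by
    have := Real.exp_one_gt_d9
    linarith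
  rw [h1]
  calc (10 : ℝ) ^ 42 ≤ 2.7 ^ 99 := by norm_num
    _ ≤ _ := pow_le_pow_left₀ (by norm_num) h2 99

end Pool.Agent.X30.PQ
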