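import Mathlib
import Pool.Agent.X30.WS3

/-!
# The asymptotic formula for representations by distinct terms
-/

set_option autoImplicit false

namespace Pool.Agent.X30.WS

open Finset Filter Topology MeasureTheory ProbabilityTheory
open Pool.Agent.X30.WP

variable {Ω : Type*} [MeasurableSpace Ω] {μ : Measure Ω} [IsProbabilityMeasure μ]

/-- solutions over all nonnegative integers -/
def SolSet (a : ℕ → ℕ) (s N : ℕ) : Set (Fin s → ℕ) := {x | ∑ i, a (x i) = N}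

lemma SolSet_finite (k s : ℕ) (hk : 1 ≤ k) (a : ℕ → ℕ) (ha : ∀ n, n ^ k ≤ a n) (N : ℕ) : (SolSet a s N).Finite := by
  apply (Fintype.piFinset (fun _ : Fin s => range (N + 1))).finite_toSet.subset
  intro x hx
  rw [mem_coe, Fintype.mem_piFinset]
  intro i
  rw [mem_range]
  have : x i ≤ N := by
    calc x i ≤ x i ^ k := Nat.le_self_pow (by omega) _
      _ ≤ a (x i) := ha _
      _ ≤ ∑ i, a (x i) := single_le_sum (f := fun i => a (x i)) (fun _ _ => Nat.zero_le _) (mem_univ i)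
      _ = N := hx
  omega

/-- solutions with two given equal coordinates -/
lemma pair_le (k n : ℕ) (hk : 1 ≤ k) (a : ℕ → ℕ) (ha : ∀ n, n ^ k ≤ a n) (N K : ℕ) (hK : N < K ^ k)
    (i j : Fin (n + 2)) (hij : i ≠ j) :
    ({x : Fin (n + 2) → ℕ | x i = x j ∧ ∑ l, a (x l) = N}.ncard) ≤
      ∑ m ∈ range K, (SolSet a n (N - 2 * a m)).ncard := by
  classical
  set T : Finset (Fin (n + 2)) := (univ.erase i).erase j with hT
  have hTc : T.card = n := by
    rw [hT, card_erase_of_mem, card_erase_of_mem (mem_univ i), card_univ, Fintype.card_fin]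
    · omega
    · exact mem_erase.2 ⟨hij.symm, mem_univ j⟩
  set E : Fin n ≃ T := (T.equivFinOfCardEq hTc).symm with hE
  have hsplit : ∀ f : Fin (n + 2) → ℕ, ∑ l, f l = f i + (f j + ∑ l : Fin n, f (E l)) := by
    intro f
    rw [← add_sum_erase univ f (mem_univ i), ← add_sum_erase (univ.erase i) f (mem_erase.2 ⟨hij.symm, mem_univ j⟩)]
    congr 2
    rw [← hT, ← sum_coe_sort T f]
    exact (Equiv.sum_comp E (fun l : T => f l)).symm
  set Fs : ℕ → Finset (Fin n → ℕ) := fun m => (SolSet_finite k n hk a ha (N - 2 * a m)).toFinset with hFs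
  have hcard : ∀ m, (SolSet a n (N - 2 * a m)).ncard = (Fs m).card := fun m => by
    rw [Set.ncard_eq_toFinset_card _ (SolSet_finite k n hk a ha (N - 2 * a m))]
  have hPfin : ({x : Fin (n + 2) → ℕ | x i = x j ∧ ∑ l, a (x l) = N}).Finite :=
    (SolSet_finite k (n + 2) hk a ha N).subset fun x hx => hx.2
  rw [Set.ncard_eq_toFinset_card _ hPfin]
  simp only [hcard]
  rw [← card_sigma]
  apply card_le_card_of_injOn (fun x => ⟨x i, fun l => x (E l)⟩)
  · intro x hx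
    rw [mem_coe, Set.Finite.mem_toFinset] at hx
    obtain ⟨h1, h2⟩ := hx
    have h3 := hsplit (fun l => a (x l))
    rw [h2, ← h1] at h3
    rw [mem_coe, mem_sigma]
    constructor
    · simp only [mem_range]
      have h4 : x i ^ k ≤ N := (ha _).trans (by omega)
      exact lt_of_pow_lt_pow_left₀ k (Nat.zero_le _) (h4.trans_lt hK)
    · simp only [hFs, Set.Finite.mem_toFinset]
      show ∑ l, a (x (E l)) = N - 2 * a (x i)
      omega
  · intro x hx y hy hxy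
    rw [mem_coe, Set.Finite.mem_toFinset] at hx hy
    have h1 : x i = y i := congrArg Sigma.fst hxy
    have h2 : (fun l => x (E l)) = fun l => y (E l) := by
      have := (Sigma.mk.inj_iff.1 hxy).2
      exact eq_of_heq this
    funext l
    by_cases hli : l = i
    · rw [hli, h1]
    · by_cases hlj : l = j
      · rw [hlj, ← hx.1, ← hy.1, h1]
      · have hlT : l ∈ T := by
          rw [hT]
          exact mem_erase.2 ⟨hlj, mem_erase.2 ⟨hli, mem_univ l⟩⟩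
        have h3 := congrFun h2 (E.symm ⟨l, hlT⟩)
        simpa using h3

/-- the number of solutions with positive coordinates which are not injective -/
lemma noninj_le (k n : ℕ) (hk : 1 ≤ k) (a : ℕ → ℕ) (ha : ∀ n, n ^ k ≤ a n) (N K : ℕ) (hK : N < K ^ k) (B : ℕ)
    (hB : ∀ m < K, (SolSet a n (N - 2 * a m)).ncard ≤ B) :
    {x : Fin (n + 2) → ℕ | (∀ i, 1 ≤ x i) ∧ ∑ i, a (x i) = N}.ncard ≤
      {x : Fin (n + 2) → ℕ | (∀ i, 1 ≤ x i) ∧ Function.Injective x ∧ ∑ i, a (x i) = N}.ncard +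
        (n + 2) * (n + 2) * (K * B) := by
  classical
  have hfin := SolSet_finite k (n + 2) hk a ha N
  set P : Fin (n + 2) × Fin (n + 2) → Set (Fin (n + 2) → ℕ) := fun p => {x | x p.1 = x p.2 ∧ ∑ l, a (x l) = N} with hP
  have hsub : {x : Fin (n + 2) → ℕ | (∀ i, 1 ≤ x i) ∧ ∑ i, a (x i) = N} ⊆
      {x : Fin (n + 2) → ℕ | (∀ i, 1 ≤ x i) ∧ Function.Injective x ∧ ∑ i, a (x i) = N} ∪
        ⋃ p ∈ (univ.filter (fun p : Fin (n + 2) × Fin (n + 2) => p.1 ≠ p.2)), P p := by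
    rintro x ⟨h1, h2⟩
    by_cases hinj : Function.Injective x
    · exact Or.inl ⟨h1, hinj, h2⟩
    · right
      rw [Function.Injective] at hinj
      push Not at hinj
      obtain ⟨i, j, h3, h4⟩ := hinj
      rw [Set.mem_iUnion₂]
      exact ⟨(i, j), mem_filter.2 ⟨mem_univ _, h4⟩, h3, h2⟩
  have hUfin : (⋃ p ∈ (univ.filter (fun p : Fin (n + 2) × Fin (n + 2) => p.1 ≠ p.2)), P p).Finite := by
    apply hfin.subset
    intro x hx
    rw [Set.mem_iUnion₂] at hx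
    obtain ⟨p, _, h3⟩ := hx
    exact h3.2
  have hIfin : {x : Fin (n + 2) → ℕ | (∀ i, 1 ≤ x i) ∧ Function.Injective x ∧ ∑ i, a (x i) = N}.Finite :=
    hfin.subset fun x hx => hx.2.2
  refine (Set.ncard_le_ncard hsub (hIfin.union hUfin)).trans ((Set.ncard_union_le _ _).trans ?_)
  apply Nat.add_le_add_left
  have h5 : (⋃ p ∈ (univ.filter (fun p : Fin (n + 2) × Fin (n + 2) => p.1 ≠ p.2)), P p).ncard ≤
      ∑ p ∈ (univ.filter (fun p : Fin (n + 2) × Fin (n + 2) => p.1 ≠ p.2)), (P p).ncard :=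
    Finset.set_ncard_biUnion_le _ _
  refine h5.trans ?_
  calc ∑ p ∈ (univ.filter (fun p : Fin (n + 2) × Fin (n + 2) => p.1 ≠ p.2)), (P p).ncard
      ≤ ∑ p ∈ (univ.filter (fun p : Fin (n + 2) × Fin (n + 2) => p.1 ≠ p.2)), K * B := by
        refine sum_le_sum fun p hp => ?_
        rw [mem_filter] at hp
        refine (pair_le k n hk a ha N K hK p.1 p.2 hp.2).trans ?_
        calc ∑ m ∈ range K, (SolSet a n (N - 2 * a m)).ncard ≤ ∑ m ∈ range K, B :=
              sum_le_sum fun m hm => hB m (mem_range.1 hm)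
          _ = K * B := by rw [sum_const, card_range, smul_eq_mul]
    _ ≤ ∑ p : Fin (n + 2) × Fin (n + 2), K * B := sum_le_sum_of_subset (filter_subset _ _)
    _ = _ := by
        rw [sum_const, card_univ, Fintype.card_prod, Fintype.card_fin, smul_eq_mul]

/-- replacing all solutions by injective ones -/
lemma inj_asymp (k n : ℕ) (hk : 1 ≤ k) (hkn : k ≤ n) (a : ℕ → ℕ) (ha : ∀ n, n ^ k ≤ a n) (G1 G : ℝ)
    (h1 : Tendsto (fun N : ℕ => ((SolSet a n N).ncard : ℝ) / (N : ℝ) ^ ((n : ℝ) / k - 1)) atTop (𝓝 G1))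
    (h2 : Tendsto (fun N : ℕ => ({x : Fin (n + 2) → ℕ | (∀ i, 1 ≤ x i) ∧ ∑ i, a (x i) = N}.ncard : ℝ) /
      (N : ℝ) ^ (((n + 2 : ℕ) : ℝ) / k - 1)) atTop (𝓝 G)) :
    Tendsto (fun N : ℕ => ({x : Fin (n + 2) → ℕ | (∀ i, 1 ≤ x i) ∧ Function.Injective x ∧
      ∑ i, a (x i) = N}.ncard : ℝ) / (N : ℝ) ^ (((n + 2 : ℕ) : ℝ) / k - 1)) atTop (𝓝 G) := by
  have hk0 : (0 : ℝ) < k := by exact_mod_cast hk
  have he : 0 ≤ (n : ℝ) / k - 1 := by
    rw [sub_nonneg, le_div_iff₀ hk0, one_mul]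
    exact_mod_cast hkn
  -- a bound for all numbers
  obtain ⟨C0, hC0⟩ := h1.bddAbove_range
  set C : ℝ := max C0 1 + (SolSet a n 0).ncard with hC
  have hCpos : 0 < C := by
    have : (1 : ℝ) ≤ max C0 1 := le_max_right _ _
    positivity
  have hbd : ∀ M N : ℕ, M ≤ N → 1 ≤ N → ((SolSet a n M).ncard : ℝ) ≤ C * (N : ℝ) ^ ((n : ℝ) / k - 1) := by
    intro M N hMN hN
    have hN1 : (1 : ℝ) ≤ N := by exact_mod_cast hN
    have hpow : (1 : ℝ) ≤ (N : ℝ) ^ ((n : ℝ) / k - 1) := Real.one_le_rpow hN1 he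
    have hmax : (1 : ℝ) ≤ max C0 1 := le_max_right _ _
    rcases Nat.eq_zero_or_pos M with h0 | h0
    · rw [h0]
      have : ((SolSet a n 0).ncard : ℝ) ≤ C := by rw [hC]; linarith
      calc ((SolSet a n 0).ncard : ℝ) ≤ C := this
        _ ≤ C * (N : ℝ) ^ ((n : ℝ) / k - 1) := le_mul_of_one_le_right hCpos.le hpow
    · have hM0 : (0 : ℝ) < M := by exact_mod_cast h0
      have h3 : ((SolSet a n M).ncard : ℝ) / (M : ℝ) ^ ((n : ℝ) / k - 1) ≤ C0 := hC0 ⟨M, rfl⟩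
      rw [div_le_iff₀ (by positivity)] at h3
      refine h3.trans ?_
      have h4 : (0 : ℝ) ≤ ((SolSet a n 0).ncard : ℝ) := by positivity
      have h5 : C0 ≤ C := by
        rw [hC]
        linarith [le_max_left C0 1]
      have hMN' : (M : ℝ) ≤ N := by exact_mod_cast hMN
      calc C0 * (M : ℝ) ^ ((n : ℝ) / k - 1) ≤ C * (M : ℝ) ^ ((n : ℝ) / k - 1) := by gcongr
        _ ≤ C * (N : ℝ) ^ ((n : ℝ) / k - 1) := by gcongr
  apply tendsto_of_close k (n + 2) (1 / k) ((n + 2) * (n + 2) * (2 * C)) (by positivity) _ 1 G _ h2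
  intro N hN
  have hN1 : (1 : ℝ) ≤ N := by exact_mod_cast hN
  have hN0 : (0 : ℝ) < N := by linarith
  -- the number of possible values
  set y : ℝ := (N : ℝ) ^ (1 / (k : ℝ)) with hy
  have hy1 : 1 ≤ y := Real.one_le_rpow hN1 (by positivity)
  set K : ℕ := ⌊y⌋₊ + 1 with hK
  have hKy : y < K := by rw [hK]; push_cast; exact Nat.lt_floor_add_one y
  have hKy2 : (K : ℝ) ≤ 2 * y := by
    rw [hK]; push_cast
    have := Nat.floor_le (show 0 ≤ y by linarith)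
    linarith
  have hNK : N < K ^ k := by
    have h3 : (N : ℝ) < (K : ℝ) ^ k := by
      calc (N : ℝ) = y ^ k := by
            rw [hy, ← Real.rpow_natCast, ← Real.rpow_mul hN0.le, one_div, inv_mul_cancel₀ hk0.ne', Real.rpow_one]
        _ < (K : ℝ) ^ k := pow_lt_pow_left₀ hKy (by linarith) (by omega)
    exact_mod_cast h3
  set Bb : ℕ := ⌊C * (N : ℝ) ^ ((n : ℝ) / k - 1)⌋₊ with hBb
  have h3 := noninj_le k n hk a ha N K hNK Bb (fun m _ => Nat.le_floor (hbd _ N (Nat.sub_le _ _) hN))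
  have h4 : {x : Fin (n + 2) → ℕ | (∀ i, 1 ≤ x i) ∧ Function.Injective x ∧ ∑ i, a (x i) = N}.ncard ≤
      {x : Fin (n + 2) → ℕ | (∀ i, 1 ≤ x i) ∧ ∑ i, a (x i) = N}.ncard :=
    Set.ncard_le_ncard (fun x hx => ⟨hx.1, hx.2.2⟩)
      ((SolSet_finite k (n + 2) hk a ha N).subset fun x hx => hx.2)
  have h5 : (Bb : ℝ) ≤ C * (N : ℝ) ^ ((n : ℝ) / k - 1) := Nat.floor_le (by positivity)
  have h6 : ((({x : Fin (n + 2) → ℕ | (∀ i, 1 ≤ x i) ∧ ∑ i, a (x i) = N}.ncard : ℕ)) : ℝ) ≤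
      ({x : Fin (n + 2) → ℕ | (∀ i, 1 ≤ x i) ∧ Function.Injective x ∧ ∑ i, a (x i) = N}.ncard : ℝ) +
        (n + 2) * (n + 2) * (K * Bb) := by exact_mod_cast h3
  have h7 : (({x : Fin (n + 2) → ℕ | (∀ i, 1 ≤ x i) ∧ Function.Injective x ∧ ∑ i, a (x i) = N}.ncard : ℕ) : ℝ) ≤
      ({x : Fin (n + 2) → ℕ | (∀ i, 1 ≤ x i) ∧ ∑ i, a (x i) = N}.ncard : ℝ) := by exact_mod_cast h4
  have h8 : ((n : ℝ) + 2) * (n + 2) * (K * Bb) ≤
      (n + 2) * (n + 2) * (2 * C) * (N : ℝ) ^ (((n + 2 : ℕ) : ℝ) / k - 1 - 1 / k) := by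
    calc ((n : ℝ) + 2) * (n + 2) * (K * Bb) ≤ (n + 2) * (n + 2) * (2 * y * (C * (N : ℝ) ^ ((n : ℝ) / k - 1))) := by
          gcongr
      _ = (n + 2) * (n + 2) * (2 * C) * (y * (N : ℝ) ^ ((n : ℝ) / k - 1)) := by ring
      _ = _ := by
          rw [hy, ← Real.rpow_add hN0]
          congr 2
          push_cast
          field_simp
          ring
  rw [abs_le]
  constructor
  · linarith
  · have : 0 ≤ ((n : ℝ) + 2) * (n + 2) * (2 * C) * (N : ℝ) ^ (((n + 2 : ℕ) : ℝ) / k - 1 - 1 / k) := by positivity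
    linarith

/-- the asymptotic formula for representations by distinct terms -/
theorem asymp_inj (k q s0 : ℕ) (hq1 : 1 ≤ q) (hq : q + 2 ≤ k) (hs : (2 : ℝ) ^ q < s0) (η h : ℝ)
    (hη : ((k : ℝ) - η) * (s0 + q * 2 ^ q) < s0 * (q + 1)) (hη1 : η ≤ k - 1)
    (hh0 : 0 ≤ h) (hh : 2 * (k : ℝ) < s0 * (1 - h))
    (δ : ℕ → Ω → ℕ) (hm : ∀ m, Measurable (δ m)) (hind : iIndepFun δ μ)
    (hu : ∀ m, ∀ d < 2 ^ ⌊η * Nat.log 2 m⌋₊,
      μ {ω | δ m ω = d} = 1 / ((2 ^ ⌊η * Nat.log 2 m⌋₊ : ℕ) : ENNReal)) :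
    ∀ᵐ ω ∂μ, ∀ s : ℕ, s0 + 2 ≤ s →
      Tendsto (fun N : ℕ => ({x : Fin s → ℕ | (∀ i, 1 ≤ x i) ∧ Function.Injective x ∧
        ∑ i, (x i ^ k + δ (tau h (x i)) ω) = N}.ncard : ℝ) /
        (N : ℝ) ^ ((s : ℝ) / k - 1)) atTop (𝓝 (Real.Gamma (1 + 1 / k) ^ s / Real.Gamma (s / k))) := by
  filter_upwards [asymp_all k q s0 hq1 hq hs η h hη hη1 hh0 hh δ hm hind hu] with ω hω s hs'
  obtain ⟨n, rfl⟩ : ∃ n, s = n + 2 := ⟨s - 2, by omega⟩
  have h2k : 2 * (k : ℝ) < s0 := by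
    have h0 : (0 : ℝ) ≤ s0 := by positivity
    nlinarith
  have h2k' : 2 * k < s0 := by exact_mod_cast h2k
  exact inj_asymp k n (by omega) (by omega) (fun n => n ^ k + δ (tau h n) ω) (fun n => Nat.le_add_right _ _)
    _ _ (hω n (by omega)).1 (hω (n + 2) (by omega)).2

end Pool.Agent.X30.WS
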