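import Mathlib
import Pool.Agent.X30.WR5

/-!
# Mean squares of representation numbers by `l ≤ k` shifted powers
-/

set_option autoImplicit false

namespace Pool.Agent.X30.WP

open Finset
open Pool.Agent.H469R2.NK (e norm_e e_add conj_e norm_sum_neg e_zero)

theorem ms_upper (k q : ℕ) (hq1 : 1 ≤ q) (hq : q + 2 ≤ k) (hs : (2 : ℝ) ^ q < ((2 * k : ℕ) : ℝ)) (η : ℝ)
    (hη1 : η ≤ k - 1)
    (hη : ((k : ℝ) - η) * (((2 * k : ℕ) : ℝ) + q * 2 ^ q) < ((2 * k : ℕ) : ℝ) * (q + 1)) (ε : ℝ) (hε : 0 < ε) :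
    ∃ J0 : ℕ, ∀ J : ℕ, J0 ≤ J → ∀ a : ℕ → ℕ,
      (∀ i : ℕ, J ≤ 2 * i → i < J → ∀ b : ℕ, b ≤ 2 * k * (2 ^ J) ^ k / 2 →
        ‖F (Ico (2 ^ i : ℕ) (2 * 2 ^ i)) (fun _ => (1 : ℝ)) a ((b : ℝ) / (2 * k * (2 ^ J) ^ k : ℕ)) -
          Kf (2 ^ ⌊η * i⌋₊) ((b : ℝ) / (2 * k * (2 ^ J) ^ k : ℕ)) *
            W k (2 ^ i) ((b : ℝ) / (2 * k * (2 ^ J) ^ k : ℕ))‖ ≤ ((2 ^ i : ℕ) : ℝ) ^ (1 / 2 + ε / (8 * k))) →
      ∑ b ∈ range (2 * k * (2 ^ J) ^ k), ‖F (range (2 ^ J)) (fun _ => (1 : ℝ)) a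
        ((b : ℝ) / (2 * k * (2 ^ J) ^ k : ℕ))‖ ^ (2 * k) ≤
          (2 * k * (2 ^ J) ^ k : ℕ) * ((2 : ℝ) ^ J) ^ ((k : ℝ) + ε) := by
  have hk3 : (3 : ℝ) ≤ k := by exact_mod_cast (by omega : 3 ≤ k)
  obtain ⟨κ1, C1, hκ1, hC1, hblock⟩ := block_bound k q (2 * k) hq1 hq (by omega) hs η hη (ε / 4) (by positivity)
  obtain ⟨S', hS'⟩ : ∃ S', 2 * k = S' + 1 := ⟨2 * k - 1, by omega⟩
  set B : ℝ := 2 ^ (2 * k) * (2 + C1) with hB
  have hB0 : 0 < B := by positivity
  set A : ℝ := 2 ^ k with hA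
  have hA0 : 0 < A := by positivity
  set C2 : ℝ := 3 ^ (S' + 1) * (A + B) with hC2
  have hC20 : 0 < C2 := by positivity
  set C6 : ℝ := 2 * (k : ℝ) + k + 1 with hC6
  have hC60 : 0 < C6 := by positivity
  obtain ⟨J0, hJ0⟩ := polylog (S' + 2) (2 * (1 + C2 * C6)) (ε / 2) (by positivity)
  refine ⟨max J0 4, fun J hJ a hclose => ?_⟩
  have hJJ0 : J0 ≤ J := (le_max_left _ _).trans hJ
  have hJ4 : 4 ≤ J := (le_max_right _ _).trans hJ
  have hpoly := hJ0 J hJJ0
  set M : ℕ := 2 * k * (2 ^ J) ^ k with hM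
  have hkpos : 0 < k := by omega
  have hM0 : 0 < M := by positivity
  have hM0R : (0 : ℝ) < M := by exact_mod_cast hM0
  set L : ℝ := (2 : ℝ) ^ J with hL
  have hL1 : 1 ≤ L := one_le_pow₀ (by norm_num)
  have hL0 : 0 < L := by linarith
  set i0 : ℕ := (J + 1) / 2 with hi0
  have hi0J : i0 ≤ J := by omega
  set x : ℕ → ℝ := fun b => ‖F (range (2 ^ J)) (fun _ => (1 : ℝ)) a ((b : ℝ) / M)‖ with hx
  set X : ℝ := L ^ ((k : ℝ) + ε / 4) with hX
  have hX0 : 0 < X := by positivity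
  have hLk : L ^ k ≤ X := by
    rw [hX, ← Real.rpow_natCast L k]
    exact Real.rpow_le_rpow_of_exponent_le hL1 (by linarith)
  -- pointwise bound
  have hpt : ∀ b : ℕ, 1 ≤ b → b ≤ M / 2 →
      (b : ℝ) / M * x b ^ (2 * k) ≤ C2 * ((J : ℝ) + 1) ^ (S' + 1) * X := by
    intro b hb1 hbM
    have hb1R : (1 : ℝ) ≤ b := by exact_mod_cast hb1
    have hb0 : (0 : ℝ) < b := by linarith
    set β : ℝ := (b : ℝ) / M with hβ
    have hβ0 : 0 < β := by positivity
    have hβ2 : β ≤ 1 / 2 := by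
      rw [hβ, div_le_div_iff₀ hM0R (by norm_num)]
      have : b * 2 ≤ M := by omega
      have h' : (b : ℝ) * 2 ≤ M := by exact_mod_cast this
      linarith
    have h1 : x b ≤ (2 : ℝ) ^ i0 + ∑ i ∈ Ico i0 J, ‖F (Ico (2 ^ i) (2 * 2 ^ i)) (fun _ => (1 : ℝ)) a β‖ := by
      simp only [hx]
      rw [← hβ, F_split a β i0 J hi0J]
      refine (norm_add_le _ _).trans (add_le_add ?_ (norm_sum_le _ _))
      refine (norm_F_range _ _ _).trans (le_of_eq ?_)
      push_cast; rfl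
    have h3 := pieces ((2 : ℝ) ^ i0)
        (fun i => ‖F (Ico (2 ^ i) (2 * 2 ^ i)) (fun _ => (1 : ℝ)) a β‖) i0 J S'
        (by positivity) (fun _ => norm_nonneg _) X A B β hX0.le hA0.le hB0.le hβ0.le
        (by
          rw [← hS']
          have h2 : ((2 : ℝ) ^ i0) ^ 2 ≤ 2 * L := by
            rw [← pow_mul, hL]
            calc (2 : ℝ) ^ (i0 * 2) ≤ 2 ^ (J + 1) := pow_le_pow_right₀ (by norm_num) (by omega)
              _ = 2 * 2 ^ J := by ring
          calc β * ((2 : ℝ) ^ i0) ^ (2 * k) ≤ 1 * ((2 : ℝ) ^ i0) ^ (2 * k) := by gcongr; linarith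
            _ = (((2 : ℝ) ^ i0) ^ 2) ^ k := by rw [one_mul, pow_mul]
            _ ≤ (2 * L) ^ k := by gcongr
            _ = A * L ^ k := by rw [mul_pow]
            _ ≤ _ := by gcongr)
        (by
          intro i hi
          rw [mem_Ico] at hi
          have hi1 : 1 ≤ i := by omega
          rw [← hS']
          set P : ℝ := ((2 ^ i : ℕ) : ℝ) with hP
          have hP1 : 1 ≤ P := by rw [hP]; exact_mod_cast Nat.one_le_two_pow
          have hP0 : 0 < P := by linarith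
          have hPL : P ≤ L := by
            rw [hP, hL]; push_cast
            exact pow_le_pow_right₀ (by norm_num) hi.2.le
          have e2 : ((2 ^ i : ℕ) : ℝ) ^ η ≤ 2 * ((2 ^ ⌊η * (i : ℝ)⌋₊ : ℕ) : ℝ) := by
            push_cast
            rw [← Real.rpow_natCast 2 i, ← Real.rpow_mul (by norm_num), mul_comm (i : ℝ) η]
            calc (2 : ℝ) ^ (η * i) ≤ (2 : ℝ) ^ ((⌊η * (i : ℝ)⌋₊ : ℝ) + 1) := by
                  apply Real.rpow_le_rpow_of_exponent_le (by norm_num)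
                  exact (Nat.lt_floor_add_one _).le
              _ = 2 * 2 ^ ⌊η * (i : ℝ)⌋₊ := by
                  rw [Real.rpow_add (by norm_num), Real.rpow_one, Real.rpow_natCast]; ring
          have hc := hclose i (by omega) hi.2 b hbM
          rw [← hβ] at hc
          set U : ℝ := ‖Kf (2 ^ ⌊η * (i : ℝ)⌋₊) β‖ * ‖W k (2 ^ i) β‖ with hU
          have hU0 : 0 ≤ U := by positivity
          have h4 : ‖F (Ico (2 ^ i) (2 * 2 ^ i)) (fun _ => (1 : ℝ)) a β‖ ≤ P ^ (1 / 2 + ε / (8 * k)) + U := by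
            calc ‖F (Ico (2 ^ i) (2 * 2 ^ i)) (fun _ => (1 : ℝ)) a β‖
                = ‖(F (Ico (2 ^ i) (2 * 2 ^ i)) (fun _ => (1 : ℝ)) a β -
                    Kf (2 ^ ⌊η * (i : ℝ)⌋₊) β * W k (2 ^ i) β) +
                    Kf (2 ^ ⌊η * (i : ℝ)⌋₊) β * W k (2 ^ i) β‖ := by congr 1; ring
              _ ≤ _ := by
                  refine (norm_add_le _ _).trans ?_
                  rw [norm_mul]
                  exact add_le_add hc le_rfl
          have h5 : (P ^ (1 / 2 + ε / (8 * k)) + U) ^ (2 * k) ≤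
              2 ^ (2 * k) * ((P ^ (1 / 2 + ε / (8 * k))) ^ (2 * k) + U ^ (2 * k)) := by
            rcases le_total (P ^ (1 / 2 + ε / (8 * k))) U with h | h
            · calc (P ^ (1 / 2 + ε / (8 * k)) + U) ^ (2 * k) ≤ (2 * U) ^ (2 * k) := by
                    gcongr; linarith
                _ = 2 ^ (2 * k) * U ^ (2 * k) := by rw [mul_pow]
                _ ≤ _ := by
                    have : 0 ≤ (P ^ (1 / 2 + ε / (8 * k))) ^ (2 * k) := by positivity
                    gcongr; linarith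
            · calc (P ^ (1 / 2 + ε / (8 * k)) + U) ^ (2 * k) ≤ (2 * P ^ (1 / 2 + ε / (8 * k))) ^ (2 * k) := by
                    gcongr; linarith
                _ = 2 ^ (2 * k) * (P ^ (1 / 2 + ε / (8 * k))) ^ (2 * k) := by rw [mul_pow]
                _ ≤ _ := by
                    have : 0 ≤ U ^ (2 * k) := by positivity
                    gcongr; linarith
          have h6 : (P ^ (1 / 2 + ε / (8 * k))) ^ (2 * k) ≤ X := by
            rw [← Real.rpow_natCast, ← Real.rpow_mul hP0.le, hX]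
            have e3 : (1 / 2 + ε / (8 * k)) * ((2 * k : ℕ) : ℝ) = (k : ℝ) + ε / 4 := by
              push_cast
              field_simp
              ring
            rw [e3]
            exact Real.rpow_le_rpow hP0.le hPL (by positivity)
          have h7 : β * U ^ (2 * k) ≤ (1 + C1) * X := by
            rcases le_or_gt (P ^ (ε / 4 - k)) β with hcase | hcase
            · have h8 := hblock (2 ^ i) (2 ^ ⌊η * (i : ℝ)⌋₊) (by
                calc 2 = 2 ^ 1 := by norm_num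
                  _ ≤ 2 ^ i := Nat.pow_le_pow_right (by norm_num) hi1) Nat.one_le_two_pow e2 β hcase hβ2
              refine h8.trans ?_
              have h9 : P ^ (((2 * k : ℕ) : ℝ) - k - κ1) ≤ X := by
                calc P ^ (((2 * k : ℕ) : ℝ) - k - κ1) ≤ P ^ ((k : ℝ) + ε / 4) := by
                      apply Real.rpow_le_rpow_of_exponent_le hP1
                      push_cast
                      linarith
                  _ ≤ X := Real.rpow_le_rpow hP0.le hPL (by positivity)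
              calc C1 * P ^ (((2 * k : ℕ) : ℝ) - k - κ1) ≤ C1 * X := by gcongr
                _ ≤ _ := by nlinarith
            · have h8 : U ≤ P := by
                rw [hU]
                calc ‖Kf (2 ^ ⌊η * (i : ℝ)⌋₊) β‖ * ‖W k (2 ^ i) β‖ ≤ 1 * P :=
                      mul_le_mul (norm_Kf_le_one _ _) (norm_W_le _ _ _) (norm_nonneg _) (by norm_num)
                  _ = P := one_mul _
              have h9 : P ^ (ε / 4 - k) * P ^ (2 * k) ≤ X := by
                rw [← Real.rpow_natCast P (2 * k), ← Real.rpow_add hP0]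
                have e3 : ε / 4 - k + ((2 * k : ℕ) : ℝ) = (k : ℝ) + ε / 4 := by push_cast; ring
                rw [e3]
                exact Real.rpow_le_rpow hP0.le hPL (by positivity)
              calc β * U ^ (2 * k) ≤ P ^ (ε / 4 - k) * P ^ (2 * k) := by gcongr
                _ ≤ X := h9
                _ ≤ _ := by nlinarith
          calc β * ‖F (Ico (2 ^ i) (2 * 2 ^ i)) (fun _ => (1 : ℝ)) a β‖ ^ (2 * k)
              ≤ β * (2 ^ (2 * k) * ((P ^ (1 / 2 + ε / (8 * k))) ^ (2 * k) + U ^ (2 * k))) := by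
                apply mul_le_mul_of_nonneg_left _ hβ0.le
                exact (pow_le_pow_left₀ (norm_nonneg _) h4 _).trans h5
            _ = 2 ^ (2 * k) * (β * (P ^ (1 / 2 + ε / (8 * k))) ^ (2 * k) + β * U ^ (2 * k)) := by ring
            _ ≤ 2 ^ (2 * k) * (1 * X + (1 + C1) * X) := by
                have e8 : β * (P ^ (1 / 2 + ε / (8 * k))) ^ (2 * k) ≤ 1 * X := by
                  apply mul_le_mul _ h6 (by positivity) (by norm_num)
                  linarith
                gcongr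
            _ = B * X := by rw [hB]; ring)
    rw [hS']
    calc β * x b ^ (S' + 1) ≤ β * ((2 : ℝ) ^ i0 +
          ∑ i ∈ Ico i0 J, ‖F (Ico (2 ^ i) (2 * 2 ^ i)) (fun _ => (1 : ℝ)) a β‖) ^ (S' + 1) := by
          gcongr
      _ ≤ _ := h3
  have hM2 : 1 ≤ M / 2 := by
    have : 2 ≤ M := by
      rw [hM]
      calc 2 ≤ 2 * k := by omega
        _ ≤ 2 * k * (2 ^ J) ^ k := Nat.le_mul_of_pos_right _ (by positivity)
    omega
  have hlog : 1 + Real.log M ≤ C6 * ((J : ℝ) + 1) := by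
    have h1 : (M : ℝ) = (2 * (k : ℝ)) * (2 : ℝ) ^ (J * k) := by
      rw [hM]; push_cast; rw [← pow_mul]
    rw [h1, Real.log_mul (by positivity) (by positivity), Real.log_pow]
    have h2 := Real.log_le_self (show 0 ≤ 2 * (k : ℝ) by positivity)
    have h3 : Real.log 2 ≤ 1 := by
      have := Real.log_two_lt_d9
      linarith
    have h4 : ((J * k : ℕ) : ℝ) * Real.log 2 ≤ J * k := by
      push_cast
      have : (0 : ℝ) ≤ (J : ℝ) * k := by positivity
      nlinarith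
    have h5 : (0 : ℝ) ≤ J := by positivity
    rw [hC6]
    nlinarith
  have hJ1 : (1 : ℝ) ≤ (J : ℝ) + 1 := by
    have : (0 : ℝ) ≤ J := by positivity
    linarith
  have hx0 : x 0 ^ (2 * k) ≤ M * X := by
    have h1 : x 0 ≤ L := by
      simp only [hx]
      refine (norm_F_range _ _ _).trans (le_of_eq ?_)
      rw [hL]; push_cast; rfl
    have h2 : L ^ k ≤ M := by
      rw [hM, hL]
      push_cast
      have : (0 : ℝ) ≤ ((2 : ℝ) ^ J) ^ k := by positivity
      nlinarith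
    calc x 0 ^ (2 * k) ≤ L ^ (2 * k) := pow_le_pow_left₀ (norm_nonneg _) h1 _
      _ = L ^ k * L ^ k := by rw [← pow_add]; congr 1; ring
      _ ≤ M * X := by gcongr
  have hsum : ∑ b ∈ range (M / 2 + 1), x b ^ (2 * k) ≤
      C2 * ((J : ℝ) + 1) ^ (S' + 1) * X * (M * (1 + Real.log M)) + M * X := by
    rw [sum_range_succ']
    refine add_le_add ?_ hx0
    calc ∑ i ∈ range (M / 2), x (i + 1) ^ (2 * k)
        ≤ ∑ i ∈ range (M / 2), C2 * ((J : ℝ) + 1) ^ (S' + 1) * X * (M * (1 / ((i + 1 : ℕ) : ℝ))) := by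
          refine sum_le_sum fun i hi => ?_
          rw [mem_range] at hi
          have h1 := hpt (i + 1) (by omega) (by omega)
          have hi0' : (0 : ℝ) < ((i + 1 : ℕ) : ℝ) := by positivity
          have h2 : x (i + 1) ^ (2 * k) = (M * (1 / ((i + 1 : ℕ) : ℝ))) *
              (((i + 1 : ℕ) : ℝ) / M * x (i + 1) ^ (2 * k)) := by
            field_simp
          rw [h2]
          calc _ ≤ (M * (1 / ((i + 1 : ℕ) : ℝ))) * (C2 * ((J : ℝ) + 1) ^ (S' + 1) * X) := by gcongr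
            _ = _ := by ring
      _ = C2 * ((J : ℝ) + 1) ^ (S' + 1) * X * (M * (harmonic (M / 2) : ℝ)) := by
          rw [← mul_sum, ← mul_sum]
          congr 2
          unfold harmonic
          push_cast
          refine sum_congr rfl fun i _ => by rw [one_div]
      _ ≤ _ := by
          gcongr
          refine (harmonic_le_one_add_log _).trans ?_
          gcongr
          exact_mod_cast Nat.div_le_self M 2
  have hhalf : ∑ b ∈ range M, x b ^ (2 * k) ≤ 2 * ∑ b ∈ range (M / 2 + 1), x b ^ (2 * k) := by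
    refine sum_half M (fun b => x b ^ (2 * k)) (fun _ => by positivity) (by
      intro b hb1 hb2
      have e1 : (((M - b : ℕ) : ℝ)) / M = 1 - (b : ℝ) / M := by
        rw [Nat.cast_sub hb2.le, sub_div, div_self hM0R.ne']
      simp only [hx, e1, norm_F_reflect]
      rw [Complex.norm_conj])
  calc ∑ b ∈ range M, x b ^ (2 * k) ≤ 2 * (C2 * ((J : ℝ) + 1) ^ (S' + 1) * X * (M * (1 + Real.log M)) + M * X) :=
        hhalf.trans (mul_le_mul_of_nonneg_left hsum (by norm_num))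
    _ ≤ 2 * (C2 * ((J : ℝ) + 1) ^ (S' + 1) * X * (M * (C6 * ((J : ℝ) + 1))) +
          M * X * ((J : ℝ) + 1) ^ (S' + 2)) := by
        have e1 : M * X ≤ M * X * ((J : ℝ) + 1) ^ (S' + 2) :=
          le_mul_of_one_le_right (by positivity) (one_le_pow₀ hJ1)
        have e2 : C2 * ((J : ℝ) + 1) ^ (S' + 1) * X * (M * (1 + Real.log M)) ≤
            C2 * ((J : ℝ) + 1) ^ (S' + 1) * X * (M * (C6 * ((J : ℝ) + 1))) := by gcongr
        linarith
    _ = M * (2 * (1 + C2 * C6) * ((J : ℝ) + 1) ^ (S' + 2)) * X := by ring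
    _ ≤ M * L ^ (ε / 2) * X := by gcongr
    _ = M * L ^ ((k : ℝ) + (3 / 4) * ε) := by
        rw [hX, mul_assoc, ← Real.rpow_add hL0]
        congr 2
        ring
    _ ≤ _ := by
        apply mul_le_mul_of_nonneg_left _ hM0R.le
        exact Real.rpow_le_rpow_of_exponent_le hL1 (by linarith)

/-- mean squares of the numbers of representations -/
theorem ms_rep (k q l : ℕ) (hl : l ≤ k) (hq1 : 1 ≤ q) (hq : q + 2 ≤ k) (hs : (2 : ℝ) ^ q < ((2 * k : ℕ) : ℝ))
    (η : ℝ) (hη1 : η ≤ k - 1)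
    (hη : ((k : ℝ) - η) * (((2 * k : ℕ) : ℝ) + q * 2 ^ q) < ((2 * k : ℕ) : ℝ) * (q + 1)) (ε : ℝ) (hε : 0 < ε) :
    ∃ J0 : ℕ, ∀ J : ℕ, J0 ≤ J → ∀ a : ℕ → ℕ, (∀ n < 2 ^ J, a n < 2 * (2 ^ J) ^ k) →
      (∀ i : ℕ, J ≤ 2 * i → i < J → ∀ b : ℕ, b ≤ 2 * k * (2 ^ J) ^ k / 2 →
        ‖F (Ico (2 ^ i : ℕ) (2 * 2 ^ i)) (fun _ => (1 : ℝ)) a ((b : ℝ) / (2 * k * (2 ^ J) ^ k : ℕ)) -
          Kf (2 ^ ⌊η * i⌋₊) ((b : ℝ) / (2 * k * (2 ^ J) ^ k : ℕ)) *
            W k (2 ^ i) ((b : ℝ) / (2 * k * (2 ^ J) ^ k : ℕ))‖ ≤ ((2 ^ i : ℕ) : ℝ) ^ (1 / 2 + ε / (8 * k))) →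
      ∑ N ∈ range (2 * k * (2 ^ J) ^ k), (rep (range (2 ^ J)) (fun _ => (1 : ℝ)) a l N) ^ 2 ≤
        2 * ((2 : ℝ) ^ J) ^ ((l : ℝ) + ε) := by
  obtain ⟨J0, hJ0⟩ := ms_upper k q hq1 hq hs η hη1 hη ε hε
  refine ⟨J0, fun J hJ a ha hclose => ?_⟩
  have hmean := hJ0 J hJ a hclose
  set M : ℕ := 2 * k * (2 ^ J) ^ k with hM
  have hkpos : 0 < k := by omega
  have hM0 : 0 < M := by positivity
  have hM0R : (0 : ℝ) < M := by exact_mod_cast hM0
  set L : ℝ := (2 : ℝ) ^ J with hL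
  have hL1 : 1 ≤ L := one_le_pow₀ (by norm_num)
  have hL0 : 0 < L := by linarith
  have hsumM : ∀ f ∈ Fintype.piFinset (fun _ : Fin l => range (2 ^ J)), ∑ j, a (f j) < M := by
    intro f hf
    rw [Fintype.mem_piFinset] at hf
    rcases Nat.eq_zero_or_pos l with h0 | h0
    · subst h0
      simpa using hM0
    · have : Nonempty (Fin l) := ⟨⟨0, h0⟩⟩
      calc ∑ j, a (f j) < ∑ j : Fin l, 2 * (2 ^ J) ^ k := by
            apply sum_lt_sum_of_nonempty univ_nonempty
            intro j _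
            exact ha _ (mem_range.1 (hf j))
        _ = l * (2 * (2 ^ J) ^ k) := by
            rw [sum_const, card_univ, Fintype.card_fin, smul_eq_mul]
        _ ≤ k * (2 * (2 ^ J) ^ k) := Nat.mul_le_mul_right _ hl
        _ = M := by rw [hM]; ring
  have hbes := bessel M hM0 (fun b => F (range (2 ^ J)) (fun _ => (1 : ℝ)) a ((b : ℝ) / M) ^ l)
    (fun N => rep (range (2 ^ J)) (fun _ => (1 : ℝ)) a l N) (by
      intro N hN
      exact (fourier (range (2 ^ J)) (fun _ => (1 : ℝ)) a l N M hN hsumM).symm)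
  have hpt : ∀ x : ℝ, 0 ≤ x → x ^ (2 * l) ≤ x ^ (2 * k) / L ^ (k - l) + L ^ l := by
    intro x hx
    rcases le_or_gt (x ^ 2) L with h | h
    · have h3 : x ^ (2 * l) ≤ L ^ l := by rw [pow_mul]; exact pow_le_pow_left₀ (by positivity) h l
      have h4 : 0 ≤ x ^ (2 * k) / L ^ (k - l) := by positivity
      linarith
    · have h4 : x ^ (2 * l) ≤ x ^ (2 * k) / L ^ (k - l) := by
        rw [le_div_iff₀ (by positivity)]
        calc x ^ (2 * l) * L ^ (k - l) ≤ x ^ (2 * l) * (x ^ 2) ^ (k - l) := by gcongr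
          _ = x ^ (2 * k) := by
              rw [← pow_mul, ← pow_add]; congr 1; omega
      have h5 : 0 ≤ L ^ l := by positivity
      linarith
  have hs2 : ∑ b ∈ range M, ‖F (range (2 ^ J)) (fun _ => (1 : ℝ)) a ((b : ℝ) / M) ^ l‖ ^ 2 ≤
      M * (2 * L ^ ((l : ℝ) + ε)) := by
    calc _ = ∑ b ∈ range M, ‖F (range (2 ^ J)) (fun _ => (1 : ℝ)) a ((b : ℝ) / M)‖ ^ (2 * l) := by
          refine sum_congr rfl fun b _ => ?_
          rw [norm_pow, ← pow_mul, mul_comm l 2]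
      _ ≤ ∑ b ∈ range M, (‖F (range (2 ^ J)) (fun _ => (1 : ℝ)) a ((b : ℝ) / M)‖ ^ (2 * k) / L ^ (k - l) + L ^ l) :=
          sum_le_sum fun b _ => hpt _ (norm_nonneg _)
      _ = (∑ b ∈ range M, ‖F (range (2 ^ J)) (fun _ => (1 : ℝ)) a ((b : ℝ) / M)‖ ^ (2 * k)) / L ^ (k - l) +
            M * L ^ l := by
          rw [sum_add_distrib, ← sum_div, sum_const, card_range, nsmul_eq_mul]
      _ ≤ (M * L ^ ((k : ℝ) + ε)) / L ^ (k - l) + M * L ^ l := by gcongr
      _ ≤ _ := by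
          have e1 : L ^ ((k : ℝ) + ε) / L ^ (k - l) = L ^ ((l : ℝ) + ε) := by
            rw [← Real.rpow_natCast L (k - l), ← Real.rpow_sub hL0, Nat.cast_sub hl]
            congr 1; ring
          have e2 : L ^ l ≤ L ^ ((l : ℝ) + ε) := by
            rw [← Real.rpow_natCast L l]
            exact Real.rpow_le_rpow_of_exponent_le hL1 (by linarith)
          rw [mul_div_assoc, e1]
          nlinarith
  rw [← hbes] at hs2
  exact le_of_mul_le_mul_left hs2 hM0R

end Pool.Agent.X30.WP
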