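import Mathlib
import Pool.Agent.X30.WT1
import Pool.Agent.X30.WR4

/-!
# Hypothesis `K*` and the number of sums of `l ≤ k` shifted powers in the random-shift model
-/

set_option autoImplicit false

namespace Pool.Agent.X30.WP

open Finset MeasureTheory ProbabilityTheory
open Pool.Agent.H469R2.NK (e norm_e e_add conj_e norm_sum_neg e_zero)

variable {Ω : Type*} [MeasurableSpace Ω] {μ : Measure Ω} [IsProbabilityMeasure μ]

lemma tau_zero (n : ℕ) : tau 0 n = n := by unfold tau; simp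

/-- mean squares, almost surely -/
theorem ms_as (k q : ℕ) (hq1 : 1 ≤ q) (hq : q + 2 ≤ k) (hs : (2 : ℝ) ^ q < ((2 * k : ℕ) : ℝ))
    (η : ℝ) (hη1 : η ≤ k - 1)
    (hη : ((k : ℝ) - η) * (((2 * k : ℕ) : ℝ) + q * 2 ^ q) < ((2 * k : ℕ) : ℝ) * (q + 1))
    (δ : ℕ → Ω → ℕ) (hm : ∀ m, Measurable (δ m)) (hind : iIndepFun δ μ)
    (hu : ∀ m, ∀ d < 2 ^ ⌊η * Nat.log 2 m⌋₊,
      μ {ω | δ m ω = d} = 1 / ((2 ^ ⌊η * Nat.log 2 m⌋₊ : ℕ) : ENNReal)) :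
    ∀ᵐ ω ∂μ, ∀ l ≤ k, ∀ ε : ℝ, 0 < ε → ∃ N0 : ℕ, ∀ X : ℕ, N0 ≤ X →
      ∑ N ∈ range (X + 1), ({x : Fin l → ℕ | ∑ i, (x i ^ k + δ (x i) ω) = N}.ncard : ℝ) ^ 2 ≤
        (X : ℝ) ^ ((l : ℝ) / k + ε) := by
  have hk3 : (3 : ℝ) ≤ k := by exact_mod_cast (by omega : 3 ≤ k)
  have hkpos : 0 < k := by omega
  have hη0 : 0 < η := by
    by_contra hcon
    push Not at hcon
    have h1 : (q : ℝ) + 2 ≤ k := by exact_mod_cast hq
    have h2 : (0 : ℝ) ≤ q * 2 ^ q := by positivity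
    have hS : (0 : ℝ) < ((2 * k : ℕ) : ℝ) := by positivity
    have h3 : (k : ℝ) * (((2 * k : ℕ) : ℝ) + q * 2 ^ q) ≤ (k - η) * (((2 * k : ℕ) : ℝ) + q * 2 ^ q) := by
      apply mul_le_mul_of_nonneg_right _ (by positivity)
      linarith
    have h4 : ((2 * k : ℕ) : ℝ) * (q + 1) ≤ k * (((2 * k : ℕ) : ℝ) + q * 2 ^ q) := by nlinarith
    linarith
  have hδ : ∀ᵐ ω ∂μ, ∀ m, δ m ω < 2 ^ ⌊η * Nat.log 2 m⌋₊ :=
    ae_all_iff.2 fun m => unif_ae (δ m) (hm m) _ Nat.one_le_two_pow (hu m)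
  have hcl : ∀ᵐ ω ∂μ, ∀ t : ℕ, ∃ J0 : ℕ, ∀ J : ℕ, J0 ≤ J → ∀ i : ℕ, J ≤ 2 * i → i < J →
      ∀ b : ℕ, b ≤ 2 * k * (2 ^ J) ^ k / 2 →
      ‖∑ n ∈ Ico (2 ^ i : ℕ) (2 * 2 ^ i), e ((b : ℝ) / (2 * k * (2 ^ J) ^ k : ℕ) * (n : ℝ) ^ k) *
        (e ((b : ℝ) / (2 * k * (2 ^ J) ^ k : ℕ) * δ (tau 0 n) ω) -
          Kf (2 ^ ⌊η * Nat.log 2 n⌋₊) ((b : ℝ) / (2 * k * (2 ^ J) ^ k : ℕ)))‖ ≤
        ((2 ^ i : ℕ) : ℝ) ^ ((1 + 0) / 2 + (1 / ((t : ℝ) + 1)) / (8 * k)) := by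
    rw [ae_all_iff]
    intro t
    exact closeFull (μ := μ) k k η 0 ((1 / ((t : ℝ) + 1)) / (8 * k)) le_rfl (by norm_num) (by positivity) δ hm hind hu
  filter_upwards [hδ, hcl] with ω hω1 hω2 l hl ε hε
  -- choice of `t`
  obtain ⟨t, ht⟩ := exists_nat_one_div_lt (show (0 : ℝ) < ε * k / 2 by positivity)
  set ε1 : ℝ := 1 / ((t : ℝ) + 1) with hε1
  have hε10 : 0 < ε1 := by positivity
  obtain ⟨J1, hJ1⟩ := ms_rep k q l hl hq1 hq hs η hη1 hη ε1 hε10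
  obtain ⟨J2, hJ2⟩ := hω2 t
  set a : ℕ → ℕ := fun n => n ^ k + δ n ω with ha
  -- absorbing constants
  obtain ⟨J3, hJ3⟩ := polylog 0 (2 * 2 ^ ((l : ℝ) + ε1)) (ε * k / 2) (by positivity)
  refine ⟨(2 ^ k) ^ (J1 + J2 + J3), fun X hX => ?_⟩
  have hk1 : 1 < 2 ^ k := Nat.one_lt_two_pow (by omega)
  have hX0 : X ≠ 0 := by
    have : 0 < (2 ^ k) ^ (J1 + J2 + J3) := by positivity
    omega
  set j : ℕ := Nat.log (2 ^ k) X with hj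
  have hj1 : (2 ^ k) ^ j ≤ X := Nat.pow_log_le_self _ hX0
  have hj2 : X < (2 ^ k) ^ (j + 1) := Nat.lt_pow_succ_log_self hk1 X
  have hjmax : J1 + J2 + J3 ≤ j := by
    rw [hj]
    exact Nat.le_log_of_pow_le hk1 hX
  have hpow : ∀ i : ℕ, ((2 : ℕ) ^ k) ^ i = (2 ^ i) ^ k := fun i => by rw [← pow_mul, ← pow_mul, mul_comm]
  rw [hpow] at hj1 hj2
  have hsize : ∀ n < 2 ^ (j + 1), a n < 2 * (2 ^ (j + 1)) ^ k := by
    intro n hn
    simp only [ha]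
    have h1 : n ^ k < (2 ^ (j + 1)) ^ k := Nat.pow_lt_pow_left hn (by omega)
    have h2 : δ n ω < (2 ^ (j + 1)) ^ k := by
      refine (hω1 _).trans_le ?_
      rw [← pow_mul]
      apply Nat.pow_le_pow_right (by norm_num)
      have h3 : Nat.log 2 n ≤ j := by
        rcases Nat.eq_zero_or_pos n with h0 | h0
        · rw [h0]; simp
        · have : Nat.log 2 n < j + 1 := Nat.log_lt_of_lt_pow (by omega) hn
          omega
      have h4 : η * (Nat.log 2 n : ℝ) ≤ (((j + 1) * k : ℕ) : ℝ) := by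
        push_cast
        have h5 : (Nat.log 2 n : ℝ) ≤ j := by exact_mod_cast h3
        have h6 : (0 : ℝ) ≤ (Nat.log 2 n : ℝ) := by positivity
        nlinarith
      calc ⌊η * (Nat.log 2 n : ℝ)⌋₊ ≤ ⌊(((j + 1) * k : ℕ) : ℝ)⌋₊ := Nat.floor_le_floor h4
        _ = _ := Nat.floor_natCast _
    omega
  have hmain := hJ1 (j + 1) (by omega) a hsize (by
    intro i hi1 hi2 b hb
    have h1 := hJ2 (j + 1) (by omega) i hi1 hi2 b hb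
    simp only [tau_zero] at h1
    rw [F_sub1 k (2 ^ i) (2 ^ ⌊η * (i : ℝ)⌋₊) (fun n => 2 ^ ⌊η * (Nat.log 2 n : ℝ)⌋₊) (by
      intro n hn
      rw [mem_Ico] at hn
      rw [log_block hn.1 hn.2]) (fun n => δ n ω)]
    rw [add_zero] at h1
    exact h1)
  have hsub : range (X + 1) ⊆ range (2 * k * (2 ^ (j + 1)) ^ k) := by
    apply range_subset_range.2
    have : (2 ^ (j + 1)) ^ k ≤ 2 * k * (2 ^ (j + 1)) ^ k := Nat.le_mul_of_pos_left _ (by omega)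
    omega
  have hP0 : (0 : ℝ) < 2 ^ j := by positivity
  have hP1 : (1 : ℝ) ≤ 2 ^ j := one_le_pow₀ (by norm_num)
  have hX1 : (1 : ℝ) ≤ X := by exact_mod_cast (by omega : 1 ≤ X)
  calc ∑ N ∈ range (X + 1), ({x : Fin l → ℕ | ∑ i, (x i ^ k + δ (x i) ω) = N}.ncard : ℝ) ^ 2
      = ∑ N ∈ range (X + 1), (rep (range (2 ^ (j + 1))) (fun _ => (1 : ℝ)) a l N) ^ 2 := by
        refine sum_congr rfl fun N hN => ?_
        rw [mem_range] at hN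
        rw [← (ncard_sol k l (by omega) a (fun n => Nat.le_add_right _ _) (2 ^ (j + 1)) N (by omega)).2]
    _ ≤ ∑ N ∈ range (2 * k * (2 ^ (j + 1)) ^ k), (rep (range (2 ^ (j + 1))) (fun _ => (1 : ℝ)) a l N) ^ 2 :=
        sum_le_sum_of_subset_of_nonneg hsub (fun _ _ _ => sq_nonneg _)
    _ ≤ 2 * ((2 : ℝ) ^ (j + 1)) ^ ((l : ℝ) + ε1) := hmain
    _ = (2 * 2 ^ ((l : ℝ) + ε1)) * ((2 : ℝ) ^ j) ^ ((l : ℝ) + ε1) := by
        rw [pow_succ, mul_comm ((2 : ℝ) ^ j) 2, Real.mul_rpow (by norm_num) hP0.le]; ring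
    _ ≤ ((2 : ℝ) ^ j) ^ (ε * k / 2) * ((2 : ℝ) ^ j) ^ ((l : ℝ) + ε * k / 2) := by
        have h1 := hJ3 j (by omega)
        rw [pow_zero, mul_one] at h1
        gcongr
    _ = ((2 : ℝ) ^ j) ^ ((l : ℝ) + ε * k) := by
        rw [← Real.rpow_add hP0]; congr 1; ring
    _ = (((2 : ℝ) ^ j) ^ k) ^ ((l : ℝ) / k + ε) := by
        rw [← Real.rpow_natCast ((2 : ℝ) ^ j) k, ← Real.rpow_mul hP0.le]
        congr 1
        field_simp
    _ ≤ (X : ℝ) ^ ((l : ℝ) / k + ε) := by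
        apply Real.rpow_le_rpow (by positivity) _ (by positivity)
        exact_mod_cast hj1

end Pool.Agent.X30.WP
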