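import Mathlib
import Pool.Agent.X30.WT2
import Pool.Agent.X30.WS5

/-!
# Hypothesis `K*` and the number of sums of `l ≤ k` shifted powers, final forms
-/

set_option autoImplicit false

namespace Pool.Agent.X30.WP

open Finset MeasureTheory ProbabilityTheory
open Pool.Agent.X30.WS (SolSet SolSet_finite)

variable {Ω : Type*} [MeasurableSpace Ω] {μ : Measure Ω} [IsProbabilityMeasure μ]

/-- number of representations by positive integers -/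
noncomputable def Rp (k l : ℕ) (w : ℕ → ℕ) (N : ℕ) : ℕ :=
  {x : Fin l → ℕ | (∀ i, 1 ≤ x i) ∧ ∑ i, (x i ^ k + w (x i)) = N}.ncard

lemma Rp_le (k l : ℕ) (hk : 1 ≤ k) (w : ℕ → ℕ) (N : ℕ) :
    Rp k l w N ≤ {x : Fin l → ℕ | ∑ i, (x i ^ k + w (x i)) = N}.ncard :=
  Set.ncard_le_ncard (fun x hx => hx.2)
    (SolSet_finite k l hk (fun n => n ^ k + w n) (fun _ => Nat.le_add_right _ _) N)

/-- lower bound for the first moment -/
lemma first_moment (k l : ℕ) (hk : 1 ≤ k) (w : ℕ → ℕ) (hw : ∀ n, 1 ≤ n → w n ≤ n ^ k) (X Y : ℕ)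
    (hY : l * (2 * Y ^ k) ≤ X) : Y ^ l ≤ ∑ N ∈ range (X + 1), Rp k l w N := by
  classical
  set A : Finset (Fin l → ℕ) := Fintype.piFinset (fun _ : Fin l => Icc 1 Y) with hA
  have hAc : A.card = Y ^ l := by
    rw [hA, Fintype.card_piFinset]
    simp
  have hmaps : ∀ x ∈ A, (∑ i, (x i ^ k + w (x i))) ∈ range (X + 1) := by
    intro x hx
    rw [hA, Fintype.mem_piFinset] at hx
    rw [mem_range]
    have h1 : ∑ i, (x i ^ k + w (x i)) ≤ ∑ i : Fin l, 2 * Y ^ k := by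
      refine sum_le_sum fun i _ => ?_
      have h2 := mem_Icc.1 (hx i)
      have h3 := hw (x i) h2.1
      have h4 : x i ^ k ≤ Y ^ k := Nat.pow_le_pow_left h2.2 k
      omega
    rw [sum_const, card_univ, Fintype.card_fin, smul_eq_mul] at h1
    omega
  rw [← hAc, card_eq_sum_card_fiberwise hmaps]
  refine sum_le_sum fun N _ => ?_
  unfold Rp
  have hfin : ({x : Fin l → ℕ | (∀ i, 1 ≤ x i) ∧ ∑ i, (x i ^ k + w (x i)) = N}).Finite :=
    (SolSet_finite k l hk (fun n => n ^ k + w n) (fun _ => Nat.le_add_right _ _) N).subset fun x hx => hx.2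
  rw [← Set.ncard_coe_finset]
  apply Set.ncard_le_ncard _ hfin
  intro x hx
  rw [mem_coe, mem_filter, hA, Fintype.mem_piFinset] at hx
  exact ⟨fun i => (mem_Icc.1 (hx.1 i)).1, hx.2⟩

/-- hypothesis K* in the model -/
theorem hypK (k q : ℕ) (hq1 : 1 ≤ q) (hq : q + 2 ≤ k) (hs : (2 : ℝ) ^ q < ((2 * k : ℕ) : ℝ))
    (η : ℝ) (hη1 : η ≤ k - 1)
    (hη : ((k : ℝ) - η) * (((2 * k : ℕ) : ℝ) + q * 2 ^ q) < ((2 * k : ℕ) : ℝ) * (q + 1))
    (δ : ℕ → Ω → ℕ) (hm : ∀ m, Measurable (δ m)) (hind : iIndepFun δ μ)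
    (hu : ∀ m, ∀ d < 2 ^ ⌊η * Nat.log 2 m⌋₊,
      μ {ω | δ m ω = d} = 1 / ((2 ^ ⌊η * Nat.log 2 m⌋₊ : ℕ) : ENNReal)) :
    ∀ᵐ ω ∂μ, ∀ ε : ℝ, 0 < ε → ∃ N0 : ℕ, ∀ X : ℕ, N0 ≤ X →
      ∑ N ∈ Icc 1 X, (Rp k k (fun n => δ n ω) N : ℝ) ^ 2 < (X : ℝ) ^ (1 + ε) := by
  filter_upwards [ms_as k q hq1 hq hs η hη1 hη δ hm hind hu] with ω hω ε hε
  obtain ⟨N0, hN0⟩ := hω k le_rfl (ε / 2) (by positivity)
  refine ⟨max N0 2, fun X hX => ?_⟩
  have h1 := hN0 X ((le_max_left _ _).trans hX)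
  have hX2 : 2 ≤ X := (le_max_right _ _).trans hX
  have hXR : (1 : ℝ) < X := by exact_mod_cast (by omega : 1 < X)
  have hk0 : (k : ℝ) ≠ 0 := by
    have : 0 < k := by omega
    positivity
  rw [div_self hk0] at h1
  have h2 : ∑ N ∈ Icc 1 X, (Rp k k (fun n => δ n ω) N : ℝ) ^ 2 ≤ (X : ℝ) ^ (1 + ε / 2) := by
    refine le_trans ?_ h1
    calc ∑ N ∈ Icc 1 X, (Rp k k (fun n => δ n ω) N : ℝ) ^ 2
        ≤ ∑ N ∈ range (X + 1), (Rp k k (fun n => δ n ω) N : ℝ) ^ 2 :=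
          sum_le_sum_of_subset_of_nonneg (by
            intro N hN
            rw [mem_Icc] at hN
            rw [mem_range]; omega) (fun _ _ _ => sq_nonneg _)
      _ ≤ _ := by
          refine sum_le_sum fun N _ => ?_
          have := Rp_le k k (by omega) (fun n => δ n ω) N
          gcongr
  exact h2.trans_lt (Real.rpow_lt_rpow_of_exponent_lt hXR (by linarith))

/-- the number of sums of `l` shifted powers in the model -/
theorem many_sums (k q : ℕ) (hq1 : 1 ≤ q) (hq : q + 2 ≤ k) (hs : (2 : ℝ) ^ q < ((2 * k : ℕ) : ℝ))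
    (η : ℝ) (hη1 : η ≤ k - 1)
    (hη : ((k : ℝ) - η) * (((2 * k : ℕ) : ℝ) + q * 2 ^ q) < ((2 * k : ℕ) : ℝ) * (q + 1))
    (δ : ℕ → Ω → ℕ) (hm : ∀ m, Measurable (δ m)) (hind : iIndepFun δ μ)
    (hu : ∀ m, ∀ d < 2 ^ ⌊η * Nat.log 2 m⌋₊,
      μ {ω | δ m ω = d} = 1 / ((2 ^ ⌊η * Nat.log 2 m⌋₊ : ℕ) : ENNReal)) :
    ∀ᵐ ω ∂μ, ∀ l : ℕ, 1 ≤ l → l ≤ k → ∀ ε : ℝ, 0 < ε → ∃ X0 : ℕ, ∀ X : ℕ, X0 ≤ X →
      (X : ℝ) ^ ((l : ℝ) / k - ε) < ({N : ℕ | N ≤ X ∧ ∃ x : Fin l → ℕ, (∀ i, 1 ≤ x i) ∧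
        ∑ i, (x i ^ k + δ (x i) ω) = N}.ncard : ℝ) := by
  classical
  have hδ : ∀ᵐ ω ∂μ, ∀ m, δ m ω < 2 ^ ⌊η * Nat.log 2 m⌋₊ :=
    ae_all_iff.2 fun m => unif_ae (δ m) (hm m) _ Nat.one_le_two_pow (hu m)
  filter_upwards [hδ, ms_as k q hq1 hq hs η hη1 hη δ hm hind hu] with ω hω1 hω l hl1 hl ε hε
  have hkpos : 0 < k := by omega
  have hk0 : (0 : ℝ) < k := by exact_mod_cast hkpos
  obtain ⟨N0, hN0⟩ := hω l hl (ε / 2) (by positivity)
  set w : ℕ → ℕ := fun n => δ n ω with hw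
  have hwle : ∀ n, 1 ≤ n → w n ≤ n ^ k := by
    intro n hn
    simp only [hw]
    refine (hω1 n).le.trans ?_
    have h1 : 2 ^ ⌊η * (Nat.log 2 n : ℝ)⌋₊ ≤ (2 ^ Nat.log 2 n) ^ k := by
      rw [← pow_mul]
      apply Nat.pow_le_pow_right (by norm_num)
      have h4 : η * (Nat.log 2 n : ℝ) ≤ ((Nat.log 2 n * k : ℕ) : ℝ) := by
        push_cast
        have h6 : (0 : ℝ) ≤ (Nat.log 2 n : ℝ) := by positivity
        nlinarith
      calc ⌊η * (Nat.log 2 n : ℝ)⌋₊ ≤ ⌊((Nat.log 2 n * k : ℕ) : ℝ)⌋₊ := Nat.floor_le_floor h4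
        _ = _ := Nat.floor_natCast _
    exact h1.trans (Nat.pow_le_pow_left (Nat.pow_log_le_self 2 (by omega)) k)
  -- constants
  set c : ℝ := (1 / (2 * (2 * (l : ℝ)) ^ (1 / (k : ℝ)))) ^ l with hc
  have hl0 : (0 : ℝ) < l := by exact_mod_cast hl1
  have hc0 : 0 < c := by positivity
  -- threshold for absorbing the constant
  have hlim := (tendsto_rpow_atTop (show (0 : ℝ) < ε / 2 by positivity)).comp (tendsto_natCast_atTop_atTop (R := ℝ))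
  obtain ⟨N1, hN1⟩ := Filter.eventually_atTop.1 (hlim.eventually_gt_atTop (1 / c ^ 2))
  refine ⟨max (max N0 N1) (2 * l), fun X hX => ?_⟩
  have hXN0 : N0 ≤ X := (le_max_left _ _).trans ((le_max_left _ _).trans hX)
  have hXN1 : N1 ≤ X := (le_max_right _ _).trans ((le_max_left _ _).trans hX)
  have hX2l : 2 * l ≤ X := (le_max_right _ _).trans hX
  have hX1 : 1 ≤ X := by omega
  have hX1R : (1 : ℝ) ≤ X := by exact_mod_cast hX1
  have hX0R : (0 : ℝ) < X := by linarith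
  have hms := hN0 X hXN0
  have hbig := hN1 X hXN1
  simp only [Function.comp] at hbig
  -- `Y`
  set y : ℝ := ((X : ℝ) / (2 * l)) ^ (1 / (k : ℝ)) with hy
  have hXl : (1 : ℝ) ≤ (X : ℝ) / (2 * l) := by
    rw [le_div_iff₀ (by positivity), one_mul]
    exact_mod_cast hX2l
  have hy1 : 1 ≤ y := Real.one_le_rpow hXl (by positivity)
  set Y : ℕ := ⌊y⌋₊ with hYdef
  have hYy : (Y : ℝ) ≤ y := Nat.floor_le (by linarith)
  have hYy2 : y / 2 ≤ Y := by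
    have h1 : y < Y + 1 := Nat.lt_floor_add_one y
    have h2 : (1 : ℝ) ≤ Y := by
      have : 1 ≤ Y := Nat.le_floor (by simpa using hy1)
      exact_mod_cast this
    linarith
  have hYk : l * (2 * Y ^ k) ≤ X := by
    have h1 : (Y : ℝ) ^ k ≤ (X : ℝ) / (2 * l) := by
      calc (Y : ℝ) ^ k ≤ y ^ k := by gcongr
        _ = (X : ℝ) / (2 * l) := by
            rw [hy, ← Real.rpow_natCast, ← Real.rpow_mul (by positivity), one_div, inv_mul_cancel₀ hk0.ne',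
              Real.rpow_one]
    have h2 : (l : ℝ) * (2 * (Y : ℝ) ^ k) ≤ X := by
      calc (l : ℝ) * (2 * (Y : ℝ) ^ k) ≤ (l : ℝ) * (2 * ((X : ℝ) / (2 * l))) := by gcongr
        _ = X := by field_simp
    exact_mod_cast h2
  have hfm := first_moment k l (by omega) w hwle X Y hYk
  have hlow : c * (X : ℝ) ^ ((l : ℝ) / k) ≤ (Y : ℝ) ^ l := by
    calc c * (X : ℝ) ^ ((l : ℝ) / k) = (y / 2) ^ l := by
          rw [hc, hy, Real.div_rpow hX0R.le (by positivity)]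
          have e1 : (X : ℝ) ^ ((l : ℝ) / k) = ((X : ℝ) ^ (1 / (k : ℝ))) ^ l := by
            rw [← Real.rpow_natCast, ← Real.rpow_mul hX0R.le]
            congr 1
            ring
          rw [e1, ← mul_pow]
          congr 1
          field_simp
      _ ≤ (Y : ℝ) ^ l := by gcongr
  -- Cauchy-Schwarz
  set B : Finset ℕ := (range (X + 1)).filter (fun N => Rp k l w N ≠ 0) with hB
  have hsumB : ∑ N ∈ range (X + 1), (Rp k l w N : ℝ) = ∑ N ∈ B, (Rp k l w N : ℝ) := by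
    rw [hB, sum_filter_of_ne]
    intro N _ h
    exact_mod_cast h
  have hcs := sq_sum_le_card_mul_sum_sq (s := B) (f := fun N => (Rp k l w N : ℝ))
  have hsq : ∑ N ∈ B, (Rp k l w N : ℝ) ^ 2 ≤ (X : ℝ) ^ ((l : ℝ) / k + ε / 2) := by
    refine le_trans ?_ hms
    calc ∑ N ∈ B, (Rp k l w N : ℝ) ^ 2 ≤ ∑ N ∈ range (X + 1), (Rp k l w N : ℝ) ^ 2 :=
          sum_le_sum_of_subset_of_nonneg (filter_subset _ _) (fun _ _ _ => sq_nonneg _)
      _ ≤ _ := by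
          refine sum_le_sum fun N _ => ?_
          have := Rp_le k l (by omega) w N
          gcongr
  have hfirst : c * (X : ℝ) ^ ((l : ℝ) / k) ≤ ∑ N ∈ B, (Rp k l w N : ℝ) := by
    rw [← hsumB]
    refine hlow.trans ?_
    exact_mod_cast hfm
  have hB2 : (c * (X : ℝ) ^ ((l : ℝ) / k)) ^ 2 ≤ B.card * (X : ℝ) ^ ((l : ℝ) / k + ε / 2) := by
    calc (c * (X : ℝ) ^ ((l : ℝ) / k)) ^ 2 ≤ (∑ N ∈ B, (Rp k l w N : ℝ)) ^ 2 := by gcongr
      _ ≤ B.card * ∑ N ∈ B, (Rp k l w N : ℝ) ^ 2 := hcs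
      _ ≤ _ := by gcongr
  have hBbig : (X : ℝ) ^ ((l : ℝ) / k - ε) < B.card := by
    have hp : (0 : ℝ) < (X : ℝ) ^ ((l : ℝ) / k + ε / 2) := by positivity
    have h5 : (X : ℝ) ^ ((l : ℝ) / k - ε) * (X : ℝ) ^ ((l : ℝ) / k + ε / 2) <
        (c * (X : ℝ) ^ ((l : ℝ) / k)) ^ 2 := by
      have e1 : (X : ℝ) ^ ((l : ℝ) / k - ε) * (X : ℝ) ^ ((l : ℝ) / k + ε / 2) * (X : ℝ) ^ (ε / 2) =
          ((X : ℝ) ^ ((l : ℝ) / k)) ^ 2 := by
        rw [← Real.rpow_add hX0R, ← Real.rpow_add hX0R, ← Real.rpow_natCast _ 2, ← Real.rpow_mul hX0R.le]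
        congr 1
        push_cast
        ring
      have hq0 : (0 : ℝ) < (X : ℝ) ^ ((l : ℝ) / k - ε) * (X : ℝ) ^ ((l : ℝ) / k + ε / 2) := by positivity
      rw [mul_pow, ← e1]
      have h6 : 1 < c ^ 2 * (X : ℝ) ^ (ε / 2) := by
        rw [div_lt_iff₀ (by positivity)] at hbig
        rw [mul_comm]
        exact hbig
      nlinarith
    exact lt_of_mul_lt_mul_right (h5.trans_le hB2) hp.le
  refine hBbig.trans_le ?_
  have hsub : (B : Set ℕ) ⊆ {N : ℕ | N ≤ X ∧ ∃ x : Fin l → ℕ, (∀ i, 1 ≤ x i) ∧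
        ∑ i, (x i ^ k + δ (x i) ω) = N} := by
    intro N hN
    rw [mem_coe, hB, mem_filter, mem_range] at hN
    refine ⟨by omega, ?_⟩
    have h7 := Set.nonempty_of_ncard_ne_zero hN.2
    obtain ⟨x, hx⟩ := h7
    exact ⟨x, hx.1, hx.2⟩
  have hfin : ({N : ℕ | N ≤ X ∧ ∃ x : Fin l → ℕ, (∀ i, 1 ≤ x i) ∧
        ∑ i, (x i ^ k + δ (x i) ω) = N} : Set ℕ).Finite := (Set.finite_Iic X).subset fun N hN => hN.1
  have h8 := Set.ncard_le_ncard hsub hfin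
  rw [Set.ncard_coe_finset] at h8
  exact_mod_cast h8

end Pool.Agent.X30.WP
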