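import Mathlib
import Pool.Agent.X30.PQ4

/-!
# Diminishing ranges with bases from a given set
-/

set_option autoImplicit false

namespace Pool.Agent.X30.PT

open Finset
open Pool.Agent.X30.WP (gp gp_add gp_ge gp_pos gp_mono gp_le)

/-- `n` is a sum of `u` `k`-th powers of positive elements of `B` -/
def SPB (k u : ℕ) (B : Set ℕ) (n : ℕ) : Prop := ∃ z : Fin u → ℕ, (∀ i, 1 ≤ z i ∧ z i ∈ B) ∧ n = ∑ i, (z i) ^ k

lemma dimB (k : ℕ) (hk : 2 ≤ k) (B : Set ℕ) (β : ℝ) (hβ0 : 0 ≤ β) (hβ1 : β ≤ 1)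
    (hB : ∀ ε : ℝ, 0 < ε → ∃ P0 : ℕ, ∀ P : ℕ, P0 ≤ P → (P : ℝ) ^ (β - ε) ≤ ((B ∩ Set.Ico P (2 * P)).ncard : ℝ))
    (u : ℕ) : ∀ ε : ℝ, 0 < ε → ∃ X0 : ℕ, ∀ X : ℕ, X0 ≤ X → ∃ A : Finset ℕ,
    (∀ a ∈ A, a ≤ X ∧ SPB k u B a) ∧ (X : ℝ) ^ (β * (1 - (1 - 1 / (k : ℝ)) ^ u) - ε) ≤ A.card := by
  classical
  have hk0 : (0 : ℝ) < k := by exact_mod_cast (by omega : 0 < k)
  have hk2 : (2 : ℝ) ≤ k := by exact_mod_cast hk
  have hθ0 : 0 ≤ 1 - 1 / (k : ℝ) := by
    rw [sub_nonneg, div_le_one hk0]; linarith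
  have hθ1 : 1 - 1 / (k : ℝ) ≤ 1 := by
    have : 0 ≤ 1 / (k : ℝ) := by positivity
    linarith
  induction u with
  | zero =>
    intro ε hε
    refine ⟨1, fun X hX => ⟨{0}, ?_, ?_⟩⟩
    · intro a ha
      rw [mem_singleton] at ha
      subst ha
      exact ⟨Nat.zero_le _, Fin.elim0, fun i => i.elim0, by simp⟩
    · rw [pow_zero, sub_self, mul_zero, zero_sub, card_singleton, Nat.cast_one]
      apply Real.rpow_le_one_of_one_le_of_nonpos
      · exact_mod_cast hX
      · linarith
  | succ u ih =>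
    intro ε hε
    obtain ⟨X0, hX0⟩ := ih (ε / 2) (by positivity)
    obtain ⟨P0, hP0⟩ := hB (ε / 2) (by positivity)
    set θ : ℝ := 1 - 1 / (k : ℝ) with hθ
    have htend : Filter.Tendsto (fun X : ℕ => (X : ℝ) ^ (ε / 2)) Filter.atTop Filter.atTop :=
      (tendsto_rpow_atTop (by positivity)).comp tendsto_natCast_atTop_atTop
    obtain ⟨X1, hX1⟩ := Filter.eventually_atTop.1 (htend.eventually_ge_atTop ((16 : ℝ) ^ k))
    refine ⟨max X1 (16 ^ k * (X0 + P0 + 1) ^ k), fun X hX' => ?_⟩
    have hXX1 : X1 ≤ X := (le_max_left _ _).trans hX'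
    have hX : 16 ^ k * (X0 + P0 + 1) ^ k ≤ X := (le_max_right _ _).trans hX'
    set R : ℝ := (X : ℝ) ^ (1 / (k : ℝ)) with hR
    have hRk : R ^ k = X := by
      rw [hR, ← Real.rpow_natCast, ← Real.rpow_mul (by positivity), one_div, inv_mul_cancel₀ hk0.ne',
        Real.rpow_one]
    have hR0 : 0 ≤ R := by rw [hR]; positivity
    have hRlow : 16 * ((X0 : ℝ) + P0 + 1) ≤ R := by
      have h1 : (16 * ((X0 : ℝ) + P0 + 1)) ^ k ≤ R ^ k := by
        rw [hRk, mul_pow]
        exact_mod_cast hX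
      exact le_of_pow_le_pow_left₀ (by omega) hR0 h1
    set y : ℕ := ⌊R / 8⌋₊ with hy
    have hy1 : (y : ℝ) ≤ R / 8 := Nat.floor_le (by positivity)
    have hy2 : R / 8 < y + 1 := Nat.lt_floor_add_one _
    have hX0R : (0 : ℝ) ≤ X0 := by positivity
    have hP0R : (0 : ℝ) ≤ P0 := by positivity
    have hy3 : R / 16 ≤ y := by linarith
    have hyX0 : X0 + P0 + 1 ≤ y := by
      have : ((X0 + P0 + 1 : ℕ) : ℝ) ≤ y := by push_cast; linarith
      exact_mod_cast this
    have hy0 : 1 ≤ y := by omega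
    have hyk : X0 ≤ y ^ (k - 1) := by
      calc X0 ≤ y := by omega
        _ = y ^ 1 := (pow_one _).symm
        _ ≤ y ^ (k - 1) := Nat.pow_le_pow_right hy0 (by omega)
    obtain ⟨A, hA1, hA2⟩ := hX0 (y ^ (k - 1)) hyk
    have hgp : ∀ x, y ≤ x → y ^ (k - 1) < gp k x := by
      intro x hx
      obtain ⟨k', rfl⟩ : ∃ k', k = k' + 1 := ⟨k - 1, by omega⟩
      rw [Nat.add_sub_cancel]
      calc y ^ k' < (y + 1) ^ k' := Nat.pow_lt_pow_left (by omega) (by omega)
        _ ≤ (x + 1) ^ k' := Nat.pow_le_pow_left (by omega) _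
        _ ≤ _ := gp_ge k' x
    set Y : Finset ℕ := (Ico y (2 * y)).filter (fun x => x ∈ B) with hY
    have hYcard : (y : ℝ) ^ (β - ε / 2) ≤ Y.card := by
      have h1 := hP0 y (by omega)
      have h2 : (B ∩ Set.Ico y (2 * y) : Set ℕ) = (Y : Set ℕ) := by
        ext x
        simp only [Set.mem_inter_iff, Set.mem_Ico, hY, coe_filter, mem_Ico]
        constructor
        · rintro ⟨h1, h2⟩; exact ⟨h2, h1⟩
        · rintro ⟨h1, h2⟩; exact ⟨h2, h1⟩
      rwa [h2, Set.ncard_coe_finset] at h1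
    refine ⟨(Y ×ˢ A).image (fun p => p.1 ^ k + p.2), ?_, ?_⟩
    · intro a ha
      rw [mem_image] at ha
      obtain ⟨⟨x, b⟩, hp, rfl⟩ := ha
      rw [mem_product, hY, mem_filter, mem_Ico] at hp
      obtain ⟨hb1, z, hz1, hz2⟩ := hA1 b hp.2
      simp only at hp ⊢
      constructor
      · have h1 : ((x ^ k + b : ℕ) : ℝ) ≤ X := by
          have e1 : (x : ℝ) ≤ R / 4 := by
            have : (x : ℝ) ≤ 2 * y := by exact_mod_cast hp.1.1.2.le
            linarith
          have e2 : (x : ℝ) ^ k ≤ R ^ k / 4 ^ k := by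
            rw [← div_pow]
            exact pow_le_pow_left₀ (by positivity) e1 k
          have e3 : (b : ℝ) ≤ (y : ℝ) ^ k := by
            have h2 : b ≤ y ^ k := hb1.trans (Nat.pow_le_pow_right hy0 (by omega))
            exact_mod_cast h2
          have e4 : (y : ℝ) ^ k ≤ R ^ k / 8 ^ k := by
            rw [← div_pow]
            exact pow_le_pow_left₀ (by positivity) hy1 k
          have e5 : R ^ k / 8 ^ k ≤ R ^ k / 2 := by
            gcongr
            calc (2 : ℝ) ≤ 8 ^ 1 := by norm_num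
              _ ≤ 8 ^ k := pow_le_pow_right₀ (by norm_num) (by omega)
          have e6 : R ^ k / 4 ^ k ≤ R ^ k / 2 := by
            gcongr
            calc (2 : ℝ) ≤ 4 ^ 1 := by norm_num
              _ ≤ 4 ^ k := pow_le_pow_right₀ (by norm_num) (by omega)
          push_cast
          rw [hRk] at e2 e4 e5 e6
          linarith
        exact_mod_cast h1
      · refine ⟨Fin.cons x z, fun i => ?_, ?_⟩
        · refine Fin.cases ?_ (fun i => ?_) i
          · simp only [Fin.cons_zero]; exact ⟨by omega, hp.1.2⟩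
          · simp only [Fin.cons_succ]; exact hz1 i
        · rw [Fin.sum_univ_succ]
          simp only [Fin.cons_zero, Fin.cons_succ]
          rw [hz2]
    · rw [card_image_of_injOn, card_product]
      · push_cast
        have hy0R : (0 : ℝ) < y := by exact_mod_cast hy0
        have hy1R : (1 : ℝ) ≤ y := by exact_mod_cast hy0
        set E : ℝ := β * (1 - θ ^ (u + 1)) - ε / 2 with hE
        have h2 : (y : ℝ) ^ ((k : ℝ) * E) ≤ Y.card * A.card := by
          have h3 : (y : ℝ) ^ ((k : ℝ) * E) =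
              (y : ℝ) ^ (β - ε / 2) * (((y ^ (k - 1) : ℕ) : ℝ)) ^ (β * (1 - θ ^ u) - ε / 2) := by
            push_cast
            rw [← Real.rpow_natCast (y : ℝ) (k - 1), ← Real.rpow_mul hy0R.le, ← Real.rpow_add hy0R]
            congr 1
            rw [Nat.cast_sub (by omega), hE, pow_succ]
            push_cast
            have h4 : (k : ℝ) * θ = k - 1 := by
              rw [hθ]; field_simp
            calc (k : ℝ) * (β * (1 - θ ^ u * θ) - ε / 2) = k * β - β * θ ^ u * (k * θ) - k * (ε / 2) := by ring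
              _ = _ := by rw [h4]; ring
          rw [h3]
          gcongr
        refine le_trans ?_ h2
        have hX1' : (1 : ℝ) ≤ X := by
          have : 1 ≤ X := le_trans (by
            have : 0 < 16 ^ k * (X0 + P0 + 1) ^ k := by positivity
            omega) hX
          exact_mod_cast this
        have hyk2 : (y : ℝ) ^ ((k : ℝ) * E) = ((y : ℝ) ^ k) ^ E := by
          rw [← Real.rpow_natCast (y : ℝ) k, ← Real.rpow_mul hy0R.le]
        have hEε : β * (1 - θ ^ (u + 1)) - ε = E - ε / 2 := by rw [hE]; ring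
        rw [hyk2, hEε, Real.rpow_sub (by linarith)]
        have h16 : (16 : ℝ) ^ k ≤ (X : ℝ) ^ (ε / 2) := hX1 X hXX1
        rcases le_total 0 E with h0 | h0
        · have hE1 : E ≤ 1 := by
            have h5 : 0 ≤ θ ^ (u + 1) := by positivity
            rw [hE]
            nlinarith
          have h6 : (X : ℝ) / 16 ^ k ≤ (y : ℝ) ^ k := by
            rw [← hRk, ← div_pow]
            exact pow_le_pow_left₀ (by positivity) hy3 k
          calc (X : ℝ) ^ E / (X : ℝ) ^ (ε / 2) ≤ (X : ℝ) ^ E / 16 ^ k := by gcongr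
            _ ≤ (X : ℝ) ^ E / ((16 : ℝ) ^ k) ^ E := by
                gcongr
                calc ((16 : ℝ) ^ k) ^ E ≤ ((16 : ℝ) ^ k) ^ (1 : ℝ) :=
                      Real.rpow_le_rpow_of_exponent_le (one_le_pow₀ (by norm_num)) hE1
                  _ = 16 ^ k := Real.rpow_one _
            _ = ((X : ℝ) / 16 ^ k) ^ E := by rw [Real.div_rpow (by positivity) (by positivity)]
            _ ≤ _ := Real.rpow_le_rpow (by positivity) h6 h0
        · have h6 : (y : ℝ) ^ k ≤ X := by
            rw [← hRk]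
            apply pow_le_pow_left₀ (by positivity)
            linarith
          have h7 : (1 : ℝ) ≤ (X : ℝ) ^ (ε / 2) := Real.one_le_rpow hX1' (by positivity)
          calc (X : ℝ) ^ E / (X : ℝ) ^ (ε / 2) ≤ (X : ℝ) ^ E / 1 := by gcongr
            _ = (X : ℝ) ^ E := div_one _
            _ ≤ _ := Real.rpow_le_rpow_of_nonpos (by positivity) h6 h0
      · rintro ⟨x, b⟩ hx ⟨x', b'⟩ hx' heq
        rw [mem_coe, mem_product, hY, mem_filter, mem_Ico] at hx hx'
        simp only at hx hx' heq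
        have hb := (hA1 b hx.2).1
        have hb' := (hA1 b' hx'.2).1
        have key : ∀ x x' b b' : ℕ, y ≤ x → b ≤ y ^ (k - 1) → x ^ k + b = x' ^ k + b' → x' ≤ x := by
          intro x x' b b' h1 h2 h3
          by_contra hcon
          push Not at hcon
          have h4 := hgp x h1
          have h5 := gp_add k x
          have h6 : (x + 1) ^ k ≤ x' ^ k := Nat.pow_le_pow_left hcon k
          omega
        have e1 := key x x' b b' hx.1.1.1 hb heq
        have e2 := key x' x b' b hx'.1.1.1 hb' heq.symm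
        have e3 : x = x' := by omega
        subst e3
        simp only [Prod.mk.injEq, true_and]
        omega

end Pool.Agent.X30.PT
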