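import Mathlib
import Pool.Agent.X30.PT1

/-!
# Waring's problem with restricted bases and few pseudo-powers
-/

set_option autoImplicit false

namespace Pool.Agent.X30.PT

open Finset MeasureTheory ProbabilityTheory
open Pool.Agent.X30.WP (gp gp_add gp_ge gp_pos gp_mono gp_le unif_ae)
open Pool.Agent.X30.PQ (dense_plus pow_le_exp2 exp99)

variable {Ω : Type*} [MeasurableSpace Ω] {μ : Measure Ω} [IsProbabilityMeasure μ]

theorem mostly_exactB (k u t : ℕ) (hk : 2 ≤ k) (B : Set ℕ) (β : ℝ) (hβ0 : 0 ≤ β) (hβ1 : β ≤ 1)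
    (hB : ∀ ε : ℝ, 0 < ε → ∃ P0 : ℕ, ∀ P : ℕ, P0 ≤ P → (P : ℝ) ^ (β - ε) ≤ ((B ∩ Set.Ico P (2 * P)).ncard : ℝ))
    (ht : (k : ℝ) * (1 - β * (1 - (1 - 1 / (k : ℝ)) ^ u)) < t)
    (δ : ℕ → Ω → ℕ) (hm : ∀ n, Measurable (δ n)) (hind : iIndepFun δ μ)
    (hu : ∀ n, ∀ d < gp k n, μ {ω | δ n ω = d} = 1 / (gp k n : ENNReal)) :
    ∀ᵐ ω ∂μ, ∃ N0 : ℕ, ∀ N : ℕ, N0 ≤ N → ∃ z : Fin u → ℕ, ∃ x : Fin t → ℕ,
      (∀ i, 1 ≤ z i ∧ z i ∈ B) ∧ (∀ i, 1 ≤ x i) ∧ N = ∑ i, (z i) ^ k + ∑ i, (x i ^ k + δ (x i) ω) := by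
  have hk0 : (0 : ℝ) < k := by exact_mod_cast (by omega : 0 < k)
  have hk2 : (2 : ℝ) ≤ k := by exact_mod_cast hk
  set θ : ℝ := 1 - 1 / (k : ℝ) with hθ
  have hθ0 : 0 < θ := by
    have : 1 / (k : ℝ) ≤ 1 / 2 := by gcongr
    rw [hθ]; linarith
  have hθ1 : θ ≤ 1 := by
    have : 0 ≤ 1 / (k : ℝ) := by positivity
    rw [hθ]; linarith
  have hθu : θ ^ u ≤ 1 := pow_le_one₀ hθ0.le hθ1
  have hθu0 : 0 ≤ θ ^ u := by positivity
  set lam : ℝ := 1 - β * (1 - θ ^ u) with hlam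
  have hlam0 : 0 ≤ lam := by rw [hlam]; nlinarith
  have hlam1 : lam ≤ 1 := by
    rw [hlam]
    have : 0 ≤ β * (1 - θ ^ u) := mul_nonneg hβ0 (by linarith)
    linarith
  have hkθ0 : 0 ≤ (k : ℝ) * lam := by positivity
  set m : ℕ := ⌊(k : ℝ) * lam⌋₊ with hmdef
  have hm1 : (m : ℝ) ≤ (k : ℝ) * lam := Nat.floor_le hkθ0
  have hm2 : (k : ℝ) * lam < m + 1 := Nat.lt_floor_add_one _
  have hmk : m ≤ k := by
    have h1 : (m : ℝ) ≤ k := hm1.trans (by nlinarith)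
    exact_mod_cast h1
  have hmt : m + 1 ≤ t := by
    have h1 : (m : ℝ) < t := lt_of_le_of_lt hm1 ht
    have h2 : m < t := by exact_mod_cast h1
    omega
  set κ : ℝ := ((m : ℝ) + 1 - (k : ℝ) * lam) / 2 with hκ
  have hκ0 : 0 < κ := by rw [hκ]; linarith
  have hκ1 : κ ≤ 1 / 2 := by rw [hκ]; linarith
  obtain ⟨X0, hX0⟩ := dimB k hk B β hβ0 hβ1 hB u (κ / k) (by positivity)
  have hmain := dense_plus k m hk hmk κ hκ0 {n | SPB k u B n} (by
    refine ⟨X0, fun j hj => ?_⟩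
    have hjX : X0 ≤ (2 ^ j) ^ k := by
      calc X0 ≤ j := hj
        _ ≤ 2 ^ j := Nat.lt_two_pow_self.le
        _ ≤ (2 ^ j) ^ k := Nat.le_self_pow (by omega) _
    obtain ⟨A0, hA01, hA02⟩ := hX0 ((2 ^ j) ^ k) hjX
    obtain ⟨A, hAsub, hAcard⟩ := exists_subset_card_eq (min_le_left A0.card (2 ^ (j * (k - m))))
    refine ⟨A, fun a ha => ⟨(hA01 a (hAsub ha)).2, (hA01 a (hAsub ha)).1⟩, ?_, ?_⟩
    · rw [hAcard]
      exact min_le_right _ _
    · rw [hAcard, Nat.cast_min]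
      have hj0 : (0 : ℝ) ≤ j := by positivity
      apply le_min
      · refine le_trans (le_of_eq ?_) hA02
        push_cast
        rw [← pow_mul, ← Real.rpow_natCast 2 (j * k), ← Real.rpow_mul (by norm_num)]
        congr 1
        push_cast
        have e1 : β * (1 - θ ^ u) = 1 - lam := by rw [hlam]; ring
        have e2 : (k : ℝ) * lam = m + 1 - 2 * κ := by rw [hκ]; ring
        rw [e1]
        calc (j : ℝ) * ((k : ℝ) - m - 1 + κ) = j * (k - (m + 1 - 2 * κ) - κ) := by ring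
          _ = j * (k - k * lam - κ) := by rw [e2]
          _ = _ := by field_simp
      · push_cast
        rw [← Real.rpow_natCast 2 (j * (k - m))]
        apply Real.rpow_le_rpow_of_exponent_le (by norm_num)
        rw [Nat.cast_mul, Nat.cast_sub hmk]
        apply mul_le_mul_of_nonneg_left _ hj0
        linarith) δ hm hind hu
  filter_upwards [hmain] with ω hω
  obtain ⟨N0, hN0⟩ := hω
  set y1 : ℕ := 1 ^ k + δ 1 ω with hy1
  obtain ⟨r, rfl⟩ : ∃ r, t = (m + 1) + r := ⟨t - (m + 1), by omega⟩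
  refine ⟨N0 + r * y1, fun N hN => ?_⟩
  obtain ⟨a, ⟨z, hz1, hz2⟩, x, hx1, hx2⟩ := hN0 (N - r * y1) (by omega)
  refine ⟨z, Fin.append x (fun _ => 1), hz1, fun i => ?_, ?_⟩
  · refine Fin.addCases (fun i => ?_) (fun i => ?_) i
    · rw [Fin.append_left]; exact hx1 i
    · rw [Fin.append_right]
  · rw [Fin.sum_univ_add]
    simp only [Fin.append_left, Fin.append_right, sum_const, card_univ, Fintype.card_fin, smul_eq_mul]
    rw [← hy1, ← hz2]
    have h1 : N = (N - r * y1) + r * y1 := by omega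
    rw [h1, hx2]
    ring

/-- the criterion for `100 k` summands -/
lemma crit (k t : ℕ) (hk : 2 ≤ k) (β : ℝ) (hβ0 : 0 ≤ β)
    (ht : (1 - β) * k + β * k / 10 ^ 42 < t) :
    (k : ℝ) * (1 - β * (1 - (1 - 1 / (k : ℝ)) ^ (100 * k - t))) < t := by
  have hk0 : (0 : ℝ) < k := by exact_mod_cast (by omega : 0 < k)
  have hk2 : (2 : ℝ) ≤ k := by exact_mod_cast hk
  have hθ0 : 0 ≤ 1 - 1 / (k : ℝ) := by
    rw [sub_nonneg, div_le_one hk0]; linarith
  have hθ1 : 1 - 1 / (k : ℝ) ≤ 1 := by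
    have : 0 ≤ 1 / (k : ℝ) := by positivity
    linarith
  rcases le_or_gt t k with h | h
  · have h1 := pow_le_exp2 k (100 * k - t) (by omega)
    have h2 : Real.exp (-(((100 * k - t : ℕ) : ℝ) / k)) ≤ 1 / 10 ^ 42 := by
      have h3 : (99 : ℝ) ≤ ((100 * k - t : ℕ) : ℝ) / k := by
        rw [le_div_iff₀ hk0]
        have : 99 * k ≤ 100 * k - t := by omega
        exact_mod_cast this
      rw [Real.exp_neg, one_div]
      gcongr
      exact exp99.trans (Real.exp_le_exp.2 h3)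
    have h4 := h1.trans h2
    calc (k : ℝ) * (1 - β * (1 - (1 - 1 / (k : ℝ)) ^ (100 * k - t)))
        = (1 - β) * k + β * k * (1 - 1 / (k : ℝ)) ^ (100 * k - t) := by ring
      _ ≤ (1 - β) * k + β * k * (1 / 10 ^ 42) := by gcongr
      _ = (1 - β) * k + β * k / 10 ^ 42 := by ring
      _ < t := ht
  · have h1 : (1 - 1 / (k : ℝ)) ^ (100 * k - t) ≤ 1 := pow_le_one₀ hθ0 hθ1
    have h2 : 0 ≤ β * (1 - (1 - 1 / (k : ℝ)) ^ (100 * k - t)) := mul_nonneg hβ0 (by linarith)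
    have h3 : (k : ℝ) < t := by exact_mod_cast h
    nlinarith

end Pool.Agent.X30.PT
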