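import Mathlib
import Pool.Agent.X30.WS6

/-!
# The asymptotic formula for representations by `2 k + 1` distinct terms, final form
-/

set_option autoImplicit false

namespace Pool.Agent.X30.WS

open Finset Filter Topology MeasureTheory ProbabilityTheory
open Pool.Agent.X30.WP

variable {Ω : Type*} [MeasurableSpace Ω] {μ : Measure Ω} [IsProbabilityMeasure μ]

/-- replacing all solutions by injective ones, with a given bound -/
lemma inj_asymp' (k n : ℕ) (hk : 1 ≤ k) (a : ℕ → ℕ) (ha : ∀ n, n ^ k ≤ a n) (G C e' κ : ℝ) (hC : 0 ≤ C)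
    (hκ : 0 < κ) (he : e' + 1 / k ≤ ((n + 2 : ℕ) : ℝ) / k - 1 - κ) (N0 : ℕ)
    (hbd : ∀ N : ℕ, N0 ≤ N → ∀ M : ℕ, M ≤ N → ((SolSet a n M).ncard : ℝ) ≤ C * (N : ℝ) ^ e')
    (h2 : Tendsto (fun N : ℕ => ({x : Fin (n + 2) → ℕ | (∀ i, 1 ≤ x i) ∧ ∑ i, a (x i) = N}.ncard : ℝ) /
      (N : ℝ) ^ (((n + 2 : ℕ) : ℝ) / k - 1)) atTop (𝓝 G)) :
    Tendsto (fun N : ℕ => ({x : Fin (n + 2) → ℕ | (∀ i, 1 ≤ x i) ∧ Function.Injective x ∧
      ∑ i, a (x i) = N}.ncard : ℝ) / (N : ℝ) ^ (((n + 2 : ℕ) : ℝ) / k - 1)) atTop (𝓝 G) := by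
  have hk0 : (0 : ℝ) < k := by exact_mod_cast hk
  apply tendsto_of_close k (n + 2) κ ((n + 2) * (n + 2) * (2 * C)) hκ _ (max N0 1) G _ h2
  intro N hN
  have hNN0 : N0 ≤ N := (le_max_left _ _).trans hN
  have hN1' : 1 ≤ N := (le_max_right _ _).trans hN
  have hN1 : (1 : ℝ) ≤ N := by exact_mod_cast hN1'
  have hN0 : (0 : ℝ) < N := by linarith
  set y : ℝ := (N : ℝ) ^ (1 / (k : ℝ)) with hy
  have hy1 : 1 ≤ y := Real.one_le_rpow hN1 (by positivity)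
  set K : ℕ := ⌊y⌋₊ + 1 with hK
  have hKy : y < K := by rw [hK]; push_cast; exact Nat.lt_floor_add_one y
  have hKy2 : (K : ℝ) ≤ 2 * y := by
    rw [hK]; push_cast
    have := Nat.floor_le (show 0 ≤ y by linarith)
    linarith
  have hNK : N < K ^ k := by
    have h3 : (N : ℝ) < (K : ℝ) ^ k := by
      calc (N : ℝ) = y ^ k := by
            rw [hy, ← Real.rpow_natCast, ← Real.rpow_mul hN0.le, one_div, inv_mul_cancel₀ hk0.ne', Real.rpow_one]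
        _ < (K : ℝ) ^ k := pow_lt_pow_left₀ hKy (by linarith) (by omega)
    exact_mod_cast h3
  set Bb : ℕ := ⌊C * (N : ℝ) ^ e'⌋₊ with hBb
  have h3 := noninj_le k n hk a ha N K hNK Bb (fun m _ => Nat.le_floor (hbd N hNN0 _ (Nat.sub_le _ _)))
  have h4 : {x : Fin (n + 2) → ℕ | (∀ i, 1 ≤ x i) ∧ Function.Injective x ∧ ∑ i, a (x i) = N}.ncard ≤
      {x : Fin (n + 2) → ℕ | (∀ i, 1 ≤ x i) ∧ ∑ i, a (x i) = N}.ncard :=
    Set.ncard_le_ncard (fun x hx => ⟨hx.1, hx.2.2⟩)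
      ((SolSet_finite k (n + 2) hk a ha N).subset fun x hx => hx.2)
  have h5 : (Bb : ℝ) ≤ C * (N : ℝ) ^ e' := Nat.floor_le (by positivity)
  have h6 : ((({x : Fin (n + 2) → ℕ | (∀ i, 1 ≤ x i) ∧ ∑ i, a (x i) = N}.ncard : ℕ)) : ℝ) ≤
      ({x : Fin (n + 2) → ℕ | (∀ i, 1 ≤ x i) ∧ Function.Injective x ∧ ∑ i, a (x i) = N}.ncard : ℝ) +
        (n + 2) * (n + 2) * (K * Bb) := by exact_mod_cast h3
  have h7 : (({x : Fin (n + 2) → ℕ | (∀ i, 1 ≤ x i) ∧ Function.Injective x ∧ ∑ i, a (x i) = N}.ncard : ℕ) : ℝ) ≤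
      ({x : Fin (n + 2) → ℕ | (∀ i, 1 ≤ x i) ∧ ∑ i, a (x i) = N}.ncard : ℝ) := by exact_mod_cast h4
  have h8 : ((n : ℝ) + 2) * (n + 2) * (K * Bb) ≤
      (n + 2) * (n + 2) * (2 * C) * (N : ℝ) ^ (((n + 2 : ℕ) : ℝ) / k - 1 - κ) := by
    calc ((n : ℝ) + 2) * (n + 2) * (K * Bb) ≤ (n + 2) * (n + 2) * (2 * y * (C * (N : ℝ) ^ e')) := by
          gcongr
      _ = (n + 2) * (n + 2) * (2 * C) * (y * (N : ℝ) ^ e') := by ring
      _ = (n + 2) * (n + 2) * (2 * C) * (N : ℝ) ^ (1 / (k : ℝ) + e') := by rw [hy, ← Real.rpow_add hN0]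
      _ ≤ _ := by
          apply mul_le_mul_of_nonneg_left _ (by positivity)
          exact Real.rpow_le_rpow_of_exponent_le hN1 (by linarith)
  rw [abs_le]
  constructor
  · linarith
  · have : 0 ≤ ((n : ℝ) + 2) * (n + 2) * (2 * C) * (N : ℝ) ^ (((n + 2 : ℕ) : ℝ) / k - 1 - κ) := by positivity
    linarith

/-- the asymptotic formula for representations by distinct terms -/
theorem asymp_inj2 (k q n : ℕ) (hq1 : 1 ≤ q) (hq : q + 2 ≤ k) (hs : (2 : ℝ) ^ q < ((n + 2 : ℕ) : ℝ)) (η h : ℝ)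
    (hη : ((k : ℝ) - η) * (((n + 2 : ℕ) : ℝ) + q * 2 ^ q) < ((n + 2 : ℕ) : ℝ) * (q + 1)) (hη1 : η ≤ k - 1)
    (hh0 : 0 ≤ h) (hh : 2 * (k : ℝ) < ((n + 2 : ℕ) : ℝ) * (1 - h))
    (δ : ℕ → Ω → ℕ) (hm : ∀ m, Measurable (δ m)) (hind : iIndepFun δ μ)
    (hu : ∀ m, ∀ d < 2 ^ ⌊η * Nat.log 2 m⌋₊,
      μ {ω | δ m ω = d} = 1 / ((2 ^ ⌊η * Nat.log 2 m⌋₊ : ℕ) : ENNReal)) :
    ∀ᵐ ω ∂μ,
      Tendsto (fun N : ℕ => ({x : Fin (n + 2) → ℕ | (∀ i, 1 ≤ x i) ∧ Function.Injective x ∧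
        ∑ i, (x i ^ k + δ (tau h (x i)) ω) = N}.ncard : ℝ) /
        (N : ℝ) ^ (((n + 2 : ℕ) : ℝ) / k - 1)) atTop
        (𝓝 (Real.Gamma (1 + 1 / k) ^ (n + 2) / Real.Gamma (((n + 2 : ℕ) : ℝ) / k))) := by
  have hk0 : (3 : ℝ) ≤ k := by exact_mod_cast (by omega : 3 ≤ k)
  have h2q : (2 : ℝ) ≤ 2 ^ q := by
    calc (2 : ℝ) = 2 ^ 1 := by norm_num
      _ ≤ 2 ^ q := pow_le_pow_right₀ (by norm_num) hq1
  set S : ℝ := ((n + 2 : ℕ) : ℝ) with hS
  have hnS : (n : ℝ) = S - 2 := by rw [hS]; push_cast; ring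
  have hs2' : (2 : ℝ) < S := lt_of_le_of_lt h2q hs
  have hh1 : h < 1 := by
    by_contra hcon
    push Not at hcon
    nlinarith
  have hη0 : 0 < η := by
    by_contra hcon
    push Not at hcon
    have h1 : (q : ℝ) + 2 ≤ k := by exact_mod_cast hq
    have h2 : (0 : ℝ) ≤ q * 2 ^ q := by positivity
    have h3 : (k : ℝ) * (S + q * 2 ^ q) ≤ (k - η) * (S + q * 2 ^ q) := by
      apply mul_le_mul_of_nonneg_right _ (by positivity)
      linarith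
    have h4 : S * (q + 1) ≤ k * (S + q * 2 ^ q) := by nlinarith
    linarith
  set ε : ℝ := (S * (1 - h) - 2 * k) / (4 * S) with hε
  have hε0 : 0 < ε := by
    rw [hε]
    apply div_pos (by linarith) (by linarith)
  have hεs : ε * S = (S * (1 - h) - 2 * k) / 4 := by
    rw [hε]
    field_simp
  have hSk : 2 * (k : ℝ) < S := by nlinarith
  have hsk1 : 2 * k + 1 ≤ n + 2 := by
    have h3 : 2 * (k : ℝ) < ((n + 2 : ℕ) : ℝ) := hSk
    have h2 : 2 * k < n + 2 := by exact_mod_cast h3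
    omega
  obtain ⟨C, hC, J1, hJ1⟩ := rep_small k q n hq1 hq hs η hη0.le hη ((1 + h) / 2 + ε) (by positivity)
    (by rw [← hS]; nlinarith) hsk1
  have hδ : ∀ᵐ ω ∂μ, ∀ m, δ m ω < 2 ^ ⌊η * Nat.log 2 m⌋₊ :=
    ae_all_iff.2 fun m => unif_ae (δ m) (hm m) _ Nat.one_le_two_pow (hu m)
  filter_upwards [hδ, closeFull (μ := μ) k (n + 2) η h ε hh0 hh1.le hε0 δ hm hind hu,
    asymp k q (n + 2) hq1 hq hs η h hη hη1 hh0 hh δ hm hind hu] with ω hω1 hω2 hω3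
  obtain ⟨J2, hJ2⟩ := hω2
  set a : ℕ → ℕ := fun n => n ^ k + δ (tau h n) ω with ha
  have hak : ∀ n, n ^ k ≤ a n := fun n => Nat.le_add_right _ _
  set E1 : ℝ := (S - k) * n / S with hE1
  have hE10 : 0 ≤ E1 := by
    rw [hE1]
    apply div_nonneg _ (by linarith)
    apply mul_nonneg (by linarith)
    positivity
  have hkR : (0 : ℝ) < k := by linarith
  refine inj_asymp' k n (by omega) a hak _ (C * 2 ^ E1) (E1 / k) ((S - 2 * k) / (S * k)) (by positivity)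
    (div_pos (by linarith) (by positivity)) ?_ ((2 ^ k) ^ (J1 + J2)) ?_ hω3.2
  · rw [hE1, hnS, ← hS]
    apply le_of_eq
    field_simp
    ring
  intro N hN M hMN
  have hk1 : 1 < 2 ^ k := Nat.one_lt_two_pow (by omega)
  have hN0 : N ≠ 0 := by
    have : 0 < (2 ^ k) ^ (J1 + J2) := by positivity
    omega
  set j : ℕ := Nat.log (2 ^ k) N with hj
  have hj1 : (2 ^ k) ^ j ≤ N := Nat.pow_log_le_self _ hN0
  have hj2 : N < (2 ^ k) ^ (j + 1) := Nat.lt_pow_succ_log_self hk1 N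
  have hjmax : J1 + J2 ≤ j := by
    rw [hj]
    exact Nat.le_log_of_pow_le hk1 hN
  have hpow : ∀ i : ℕ, ((2 : ℕ) ^ k) ^ i = (2 ^ i) ^ k := fun i => by rw [← pow_mul, ← pow_mul, mul_comm]
  rw [hpow] at hj1 hj2
  have hsize : ∀ n < 2 ^ (j + 1), a n < 2 * (2 ^ (j + 1)) ^ k := by
    intro n hn
    simp only [ha]
    have h1 : n ^ k < (2 ^ (j + 1)) ^ k := Nat.pow_lt_pow_left hn (by omega)
    have h2 : δ (tau h n) ω < (2 ^ (j + 1)) ^ k := by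
      refine (hω1 _).trans_le ?_
      rw [← pow_mul]
      apply Nat.pow_le_pow_right (by norm_num)
      have h3 : Nat.log 2 (tau h n) ≤ j := by
        rcases Nat.eq_zero_or_pos n with h0 | h0
        · rw [h0]
          have : tau h 0 = 0 := by unfold tau; simp
          rw [this]; simp
        · rw [log_tau h hh1.le n h0]
          have : Nat.log 2 n < j + 1 := Nat.log_lt_of_lt_pow (by omega) hn
          omega
      have h4 : η * (Nat.log 2 (tau h n) : ℝ) ≤ (((j + 1) * k : ℕ) : ℝ) := by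
        push_cast
        have h5 : (Nat.log 2 (tau h n) : ℝ) ≤ j := by exact_mod_cast h3
        have h6 : (0 : ℝ) ≤ (Nat.log 2 (tau h n) : ℝ) := by positivity
        nlinarith
      calc ⌊η * (Nat.log 2 (tau h n) : ℝ)⌋₊ ≤ ⌊(((j + 1) * k : ℕ) : ℝ)⌋₊ := Nat.floor_le_floor h4
        _ = _ := Nat.floor_natCast _
    omega
  have hmain := hJ1 (j + 1) (by omega) a hsize (by
    intro i hi1 hi2 b hb
    have h1 := hJ2 (j + 1) (by omega) i hi1 hi2 b hb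
    rw [F_sub1 k (2 ^ i) (2 ^ ⌊η * (i : ℝ)⌋₊) (fun n => 2 ^ ⌊η * (Nat.log 2 n : ℝ)⌋₊) (by
      intro n hn
      rw [mem_Ico] at hn
      rw [log_block hn.1 hn.2]) (fun n => δ (tau h n) ω)]
    exact h1) M (hMN.trans_lt hj2)
  have h9 := (ncard_sol k n (by omega) a hak (2 ^ (j + 1)) M (hMN.trans_lt hj2)).2
  have h10 : ((SolSet a n M).ncard : ℝ) = rep (range (2 ^ (j + 1))) (fun _ => (1 : ℝ)) a n M := h9
  rw [h10]
  refine hmain.trans ?_
  rw [mul_assoc]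
  apply mul_le_mul_of_nonneg_left _ hC.le
  have hP0 : (0 : ℝ) < 2 ^ j := by positivity
  rw [pow_succ, mul_comm ((2 : ℝ) ^ j) 2, Real.mul_rpow (by norm_num) hP0.le]
  apply mul_le_mul_of_nonneg_left _ (by positivity)
  have h11 : ((2 : ℝ) ^ j) ^ E1 = (((2 : ℝ) ^ j) ^ k) ^ (E1 / k) := by
    rw [← Real.rpow_natCast ((2 : ℝ) ^ j) k, ← Real.rpow_mul hP0.le]
    congr 1
    field_simp
  rw [h11]
  apply Real.rpow_le_rpow (by positivity) _ (by positivity)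
  exact_mod_cast hj1

end Pool.Agent.X30.WS
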