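import Mathlib

/-! # Truncated inclusion-exclusion: size and sign of the error (helper30) -/

set_option autoImplicit false

namespace Pool.Agent.X30.MF

open Finset

/-- truncated alternating sum -/
noncomputable def E (x : ℕ → ℝ) (P : Finset ℕ) (k : ℕ) : ℝ :=
  ∑ s ∈ P.powerset.filter (fun s => s.card ≤ k), (-1) ^ s.card * ∏ p ∈ s, x p

/-- signed error of the truncation -/
noncomputable def F (x : ℕ → ℝ) (P : Finset ℕ) (k : ℕ) : ℝ :=
  (-1) ^ k * (E x P k - ∏ p ∈ P, (1 - x p))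

lemma E_zero (x : ℕ → ℝ) (P : Finset ℕ) : E x P 0 = 1 := by
  unfold E
  have : P.powerset.filter (fun s => s.card ≤ 0) = {∅} := by
    ext s
    simp only [Finset.mem_filter, Finset.mem_powerset, Finset.mem_singleton, Nat.le_zero,
      Finset.card_eq_zero]
    constructor
    · rintro ⟨_, h⟩; exact h
    · rintro rfl; exact ⟨Finset.empty_subset _, rfl⟩
  rw [this]
  simp

lemma E_insert (x : ℕ → ℝ) (P : Finset ℕ) (y : ℕ) (hy : y ∉ P) (k : ℕ) :
    E x (insert y P) (k + 1) = E x P (k + 1) - x y * E x P k := by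
  unfold E
  rw [Finset.sum_filter, Finset.sum_powerset_insert hy, Finset.sum_filter, Finset.sum_filter,
    sub_eq_add_neg, Finset.mul_sum, ← Finset.sum_neg_distrib]
  congr 1
  apply Finset.sum_congr rfl
  intro s hs
  have hys : y ∉ s := fun h => hy (Finset.mem_powerset.1 hs h)
  rw [Finset.card_insert_of_notMem hys, Finset.prod_insert hys]
  by_cases h : s.card ≤ k
  · rw [if_pos (by omega), if_pos h]
    ring
  · rw [if_neg (by omega), if_neg h]
    ring

lemma F_insert (x : ℕ → ℝ) (P : Finset ℕ) (y : ℕ) (hy : y ∉ P) (k : ℕ) :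
    F x (insert y P) (k + 1) = F x P (k + 1) + x y * F x P k := by
  unfold F
  rw [E_insert x P y hy, Finset.prod_insert hy]
  ring

lemma F_zero (x : ℕ → ℝ) (P : Finset ℕ) : F x P 0 = 1 - ∏ p ∈ P, (1 - x p) := by
  unfold F
  rw [E_zero]
  ring

lemma prod_le_one' (x : ℕ → ℝ) (P : Finset ℕ) (h0 : ∀ p ∈ P, 0 ≤ x p) (h1 : ∀ p ∈ P, x p ≤ 1) :
    ∏ p ∈ P, (1 - x p) ≤ 1 :=
  Finset.prod_le_one (fun p hp => by linarith [h1 p hp]) (fun p hp => by linarith [h0 p hp])

lemma F_nonneg (x : ℕ → ℝ) (P : Finset ℕ) (h0 : ∀ p ∈ P, 0 ≤ x p) (h1 : ∀ p ∈ P, x p ≤ 1) :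
    ∀ k, 0 ≤ F x P k := by
  classical
  induction P using Finset.induction_on with
  | empty =>
    intro k
    cases k with
    | zero => rw [F_zero]; simp
    | succ k =>
      unfold F E
      have : (∅ : Finset ℕ).powerset.filter (fun s => s.card ≤ k + 1) = {∅} := by
        ext s
        simp only [Finset.powerset_empty, Finset.mem_filter, Finset.mem_singleton]
        constructor
        · rintro ⟨h, _⟩; exact h
        · rintro rfl; simp
      rw [this]
      simp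
  | insert y P hy ih =>
    have ih' := ih (fun p hp => h0 p (Finset.mem_insert_of_mem hp))
      (fun p hp => h1 p (Finset.mem_insert_of_mem hp))
    intro k
    cases k with
    | zero =>
      rw [F_zero]
      have := prod_le_one' x (insert y P) h0 h1
      linarith
    | succ k =>
      rw [F_insert x P y hy]
      have h2 := h0 y (Finset.mem_insert_self _ _)
      have h3 := mul_nonneg h2 (ih' k)
      linarith [ih' (k + 1)]

lemma F_union (x : ℕ → ℝ) (P Q : Finset ℕ) (hd : Disjoint P Q) (h0 : ∀ p ∈ P ∪ Q, 0 ≤ x p)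
    (h1 : ∀ p ∈ P ∪ Q, x p ≤ 1) (k : ℕ) :
    F x P k ≤ F x (P ∪ Q) k ∧ F x P (k + 1) + (∑ p ∈ Q, x p) * F x P k ≤ F x (P ∪ Q) (k + 1) := by
  classical
  induction Q using Finset.induction_on generalizing k with
  | empty => simp
  | insert y Q hy ih =>
    have hyP : y ∉ P := fun h => Finset.disjoint_left.1 hd h (Finset.mem_insert_self _ _)
    have hd' : Disjoint P Q := Finset.disjoint_of_subset_right (Finset.subset_insert _ _) hd
    have hsub : P ∪ Q ⊆ P ∪ insert y Q := Finset.union_subset_union_right (Finset.subset_insert _ _)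
    have h0' : ∀ p ∈ P ∪ Q, 0 ≤ x p := fun p hp => h0 p (hsub hp)
    have h1' : ∀ p ∈ P ∪ Q, x p ≤ 1 := fun p hp => h1 p (hsub hp)
    have ih' := ih hd' h0' h1'
    have hyPQ : y ∉ P ∪ Q := by
      rw [Finset.mem_union]
      rintro (h | h)
      · exact hyP h
      · exact hy h
    have hxy : 0 ≤ x y := h0 y (Finset.mem_union_right _ (Finset.mem_insert_self _ _))
    have hxy1 : x y ≤ 1 := h1 y (Finset.mem_union_right _ (Finset.mem_insert_self _ _))
    rw [Finset.union_insert, Finset.sum_insert hy]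
    have hnn := F_nonneg x (P ∪ Q) h0' h1'
    constructor
    · cases k with
      | zero =>
        refine (ih' 0).1.trans ?_
        rw [F_zero, F_zero, Finset.prod_insert hyPQ]
        have : 0 ≤ ∏ p ∈ P ∪ Q, (1 - x p) := Finset.prod_nonneg fun p hp => by linarith [h1' p hp]
        nlinarith
      | succ k =>
        refine (ih' (k + 1)).1.trans ?_
        rw [F_insert x _ y hyPQ]
        have := mul_nonneg hxy (hnn k)
        linarith
    · rw [F_insert x _ y hyPQ]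
      have h2 := (ih' k).2
      have h3 := (ih' k).1
      have h4 : x y * F x P k ≤ x y * F x (P ∪ Q) k := mul_le_mul_of_nonneg_left h3 hxy
      linarith [add_mul (x y) (∑ p ∈ Q, x p) (F x P k)]

/-- subsets with prescribed sum -/
lemma exists_sub (x : ℕ → ℝ) (m : ℝ) (P : Finset ℕ) (h0 : ∀ p ∈ P, 0 ≤ x p) (hm : ∀ p ∈ P, x p ≤ m)
    (lam : ℝ) (hl : 0 ≤ lam) (h : lam ≤ ∑ p ∈ P, x p) :
    ∃ Q, Q ⊆ P ∧ lam ≤ ∑ p ∈ Q, x p ∧ ∑ p ∈ Q, x p ≤ lam + m ∨ (∃ Q, Q ⊆ P ∧ lam ≤ ∑ p ∈ Q, x p ∧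
      ∑ p ∈ Q, x p ≤ lam) := by
  classical
  induction P using Finset.induction_on with
  | empty =>
    refine ⟨∅, Or.inr ⟨∅, Finset.Subset.refl _, ?_, ?_⟩⟩
    · simpa using h
    · simpa using hl
  | insert y P hy ih =>
    by_cases h2 : lam ≤ ∑ p ∈ P, x p
    · obtain ⟨Q, hQ⟩ := ih (fun p hp => h0 p (Finset.mem_insert_of_mem hp))
        (fun p hp => hm p (Finset.mem_insert_of_mem hp)) h2
      rcases hQ with ⟨h3, h4, h5⟩ | ⟨Q', h3, h4, h5⟩
      · exact ⟨Q, Or.inl ⟨h3.trans (Finset.subset_insert _ _), h4, h5⟩⟩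
      · exact ⟨Q, Or.inr ⟨Q', h3.trans (Finset.subset_insert _ _), h4, h5⟩⟩
    · refine ⟨insert y P, Or.inl ⟨Finset.Subset.refl _, h, ?_⟩⟩
      rw [Finset.sum_insert hy]
      have := hm y (Finset.mem_insert_self _ _)
      linarith [not_le.1 h2]

lemma exists_sub' (x : ℕ → ℝ) (m : ℝ) (hm0 : 0 ≤ m) (P : Finset ℕ) (h0 : ∀ p ∈ P, 0 ≤ x p)
    (hm : ∀ p ∈ P, x p ≤ m) (lam : ℝ) (hl : 0 ≤ lam) (h : lam ≤ ∑ p ∈ P, x p) :
    ∃ Q, Q ⊆ P ∧ lam ≤ ∑ p ∈ Q, x p ∧ ∑ p ∈ Q, x p ≤ lam + m := by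
  obtain ⟨Q, hQ⟩ := exists_sub x m P h0 hm lam hl h
  rcases hQ with h3 | ⟨Q', h3, h4, h5⟩
  · exact ⟨Q, h3⟩
  · exact ⟨Q', h3, h4, by linarith⟩

/-- lower bound for the error of the truncation -/
theorem F_lower (x : ℕ → ℝ) (m lam : ℝ) (hm0 : 0 ≤ m) (hm1 : m ≤ 1) (hl : 0 ≤ lam) (k : ℕ) :
    ∀ P : Finset ℕ, (∀ p ∈ P, 0 ≤ x p) → (∀ p ∈ P, x p ≤ m) →
      (k + 1) * (lam + m) ≤ ∑ p ∈ P, x p → lam ^ k * (1 - Real.exp (-lam)) ≤ F x P k := by
  classical
  induction k with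
  | zero =>
    intro P h0 h1 h2
    rw [F_zero, pow_zero, one_mul]
    have h3 : ∏ p ∈ P, (1 - x p) ≤ Real.exp (-lam) := by
      calc ∏ p ∈ P, (1 - x p) ≤ ∏ p ∈ P, Real.exp (-(x p)) := by
            apply Finset.prod_le_prod
            · intro p hp; linarith [h1 p hp]
            · intro p _
              have := Real.add_one_le_exp (-(x p))
              linarith
        _ = Real.exp (-∑ p ∈ P, x p) := by rw [← Real.exp_sum, Finset.sum_neg_distrib]
        _ ≤ Real.exp (-lam) := by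
            apply Real.exp_le_exp.2
            norm_num at h2
            linarith
    linarith
  | succ k ih =>
    intro P h0 h1 h2
    push_cast at h2
    have h3 : lam ≤ ∑ p ∈ P, x p := by
      have h5 : (0 : ℝ) ≤ k := Nat.cast_nonneg k
      have h6 : 0 ≤ (k + 1) * (lam + m) := by positivity
      nlinarith
    obtain ⟨Q, hQ, h4, h5⟩ := exists_sub' x m hm0 P h0 h1 lam hl h3
    have hPQ : P \ Q ∪ Q = P := Finset.sdiff_union_of_subset hQ
    have hd : Disjoint (P \ Q) Q := Finset.sdiff_disjoint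
    have hsum : ∑ p ∈ P, x p = ∑ p ∈ P \ Q, x p + ∑ p ∈ Q, x p := by
      rw [← Finset.sum_union hd, hPQ]
    have h6 : (k + 1) * (lam + m) ≤ ∑ p ∈ P \ Q, x p := by
      rw [hsum] at h2
      nlinarith
    have h7 := ih (P \ Q) (fun p hp => h0 p (Finset.mem_sdiff.1 hp).1)
      (fun p hp => h1 p (Finset.mem_sdiff.1 hp).1) h6
    have h8 := (F_union x (P \ Q) Q hd (by rw [hPQ]; exact h0)
      (by rw [hPQ]; exact fun p hp => (h1 p hp).trans hm1) k).2
    rw [hPQ] at h8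
    have h9 := F_nonneg x (P \ Q) (fun p hp => h0 p (Finset.mem_sdiff.1 hp).1)
      (fun p hp => (h1 p (Finset.mem_sdiff.1 hp).1).trans hm1) (k + 1)
    have h10 : 0 ≤ 1 - Real.exp (-lam) := by
      have : Real.exp (-lam) ≤ 1 := Real.exp_le_one_iff.2 (by linarith)
      linarith
    calc lam ^ (k + 1) * (1 - Real.exp (-lam)) = lam * (lam ^ k * (1 - Real.exp (-lam))) := by ring
      _ ≤ (∑ p ∈ Q, x p) * F x (P \ Q) k :=
          mul_le_mul h4 h7 (by positivity) (hl.trans h4)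
      _ ≤ _ := by linarith

/-- exact count of the integers without prime factors in `P`, if no integer up to `Y` has more than
`k` prime factors in `P` -/
theorem count_eq (P : Finset ℕ) (hP : ∀ p ∈ P, p.Prime) (Y k : ℕ)
    (hk : ∀ s, s ⊆ P → s.card = k + 1 → Y < ∏ p ∈ s, p) :
    (((Icc 1 Y).filter (fun h => ∀ p ∈ P, ¬ p ∣ h)).card : ℝ) =
      ∑ s ∈ P.powerset.filter (fun s => s.card ≤ k), (-1 : ℝ) ^ s.card * ((Y / ∏ p ∈ s, p : ℕ) : ℝ) := by
  classical
  have hcop : ∀ s, s ⊆ P → ∀ h : ℕ, (∏ p ∈ s, p) ∣ h ↔ ∀ p ∈ s, p ∣ h := by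
    intro s hs h
    constructor
    · intro h1 p hp
      exact (Finset.dvd_prod_of_mem _ hp).trans h1
    · intro h1
      refine Finset.prod_primes_dvd h (fun p hp => (hP p (hs hp)).prime) h1
  have hmult : ∀ s, s ⊆ P → ((Y / ∏ p ∈ s, p : ℕ) : ℝ) =
      ∑ h ∈ Icc 1 Y, if (∀ p ∈ s, p ∣ h) then (1 : ℝ) else 0 := by
    intro s hs
    have h1 := Nat.card_multiples' Y (∏ p ∈ s, p)
    rw [← h1, ← Finset.sum_filter, Finset.sum_const, nsmul_eq_mul, mul_one]
    congr 1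
    apply congrArg
    ext h
    simp only [Finset.mem_filter, Finset.mem_range, Finset.mem_Icc, ← hcop s hs h]
    constructor
    · rintro ⟨h2, h3, h4⟩
      exact ⟨⟨by omega, by omega⟩, h4⟩
    · rintro ⟨⟨h2, h3⟩, h4⟩
      exact ⟨by omega, by omega, h4⟩
  have h1 : ∑ s ∈ P.powerset.filter (fun s => s.card ≤ k), (-1 : ℝ) ^ s.card * ((Y / ∏ p ∈ s, p : ℕ) : ℝ) =
      ∑ h ∈ Icc 1 Y, ∑ s ∈ P.powerset.filter (fun s => s.card ≤ k),
        (-1 : ℝ) ^ s.card * (if (∀ p ∈ s, p ∣ h) then (1 : ℝ) else 0) := by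
    rw [Finset.sum_comm]
    apply Finset.sum_congr rfl
    intro s hs
    rw [Finset.mem_filter, Finset.mem_powerset] at hs
    rw [hmult s hs.1, Finset.mul_sum]
  rw [h1, Finset.card_filter]
  push_cast
  apply Finset.sum_congr rfl
  intro h hh
  rw [Finset.mem_Icc] at hh
  set Dh := P.filter (fun p => p ∣ h) with hDh
  have hDcard : Dh.card ≤ k := by
    by_contra hcon
    obtain ⟨s, hs, hsc⟩ := Finset.exists_subset_card_eq (s := Dh) (n := k + 1) (by omega)
    have h2 := hk s (hs.trans (Finset.filter_subset _ _)) hsc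
    have h3 : (∏ p ∈ s, p) ∣ h := (hcop s (hs.trans (Finset.filter_subset _ _)) h).2
      (fun p hp => (Finset.mem_filter.1 (hs hp)).2)
    have h4 := Nat.le_of_dvd (by omega) h3
    omega
  have h5 : ∑ s ∈ P.powerset.filter (fun s => s.card ≤ k),
        (-1 : ℝ) ^ s.card * (if (∀ p ∈ s, p ∣ h) then (1 : ℝ) else 0) =
      ∑ s ∈ Dh.powerset, (-1 : ℝ) ^ s.card := by
    simp_rw [mul_ite, mul_one, mul_zero]
    rw [← Finset.sum_filter]
    apply Finset.sum_congr _ (fun _ _ => rfl)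
    ext s
    simp only [Finset.mem_filter, Finset.mem_powerset]
    constructor
    · rintro ⟨⟨h6, h7⟩, h8⟩
      intro p hp
      exact Finset.mem_filter.2 ⟨h6 hp, h8 p hp⟩
    · intro h6
      refine ⟨⟨h6.trans (Finset.filter_subset _ _), (Finset.card_le_card h6).trans hDcard⟩, ?_⟩
      intro p hp
      exact (Finset.mem_filter.1 (h6 hp)).2
  rw [h5]
  have h6 := Finset.sum_powerset_neg_one_pow_card (x := Dh)
  have h7 : ∑ s ∈ Dh.powerset, (-1 : ℝ) ^ s.card = ((∑ s ∈ Dh.powerset, (-1 : ℤ) ^ s.card : ℤ) : ℝ) := by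
    push_cast; rfl
  rw [h7, h6]
  by_cases h8 : Dh = ∅
  · rw [if_pos h8, if_pos]
    · norm_num
    · intro p hp hd
      have : p ∈ Dh := Finset.mem_filter.2 ⟨hp, hd⟩
      rw [h8] at this
      exact absurd this (Finset.notMem_empty _)
  · rw [if_neg h8, if_neg]
    · norm_num
    · intro h9
      apply h8
      rw [Finset.eq_empty_iff_forall_notMem]
      intro p hp
      rw [hDh, Finset.mem_filter] at hp
      exact h9 p hp.1 hp.2

/-- the count, with main term -/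
theorem count_approx (P : Finset ℕ) (hP : ∀ p ∈ P, p.Prime) (Y k b : ℕ) (hb : ∀ p ∈ P, p ≤ b)
    (hb1 : 1 ≤ b) (hk : ∀ s, s ⊆ P → s.card = k + 1 → Y < ∏ p ∈ s, p) :
    |(((Icc 1 Y).filter (fun h => ∀ p ∈ P, ¬ p ∣ h)).card : ℝ) - Y * E (fun p => 1 / (p : ℝ)) P k| ≤
      (b : ℝ) ^ k := by
  classical
  rw [count_eq P hP Y k hk]
  unfold E
  rw [Finset.mul_sum, ← Finset.sum_sub_distrib]
  refine (Finset.abs_sum_le_sum_abs _ _).trans ?_
  have h1 : ∀ s ∈ P.powerset.filter (fun s => s.card ≤ k),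
      |(-1 : ℝ) ^ s.card * ((Y / ∏ p ∈ s, p : ℕ) : ℝ) - Y * ((-1) ^ s.card * ∏ p ∈ s, 1 / (p : ℝ))| ≤ 1 := by
    intro s hs
    rw [Finset.mem_filter, Finset.mem_powerset] at hs
    have hpos : 0 < ∏ p ∈ s, p := Finset.prod_pos fun p hp => (hP p (hs.1 hp)).pos
    have h2 : (Y : ℝ) * ((-1) ^ s.card * ∏ p ∈ s, 1 / (p : ℝ)) =
        (-1) ^ s.card * ((Y : ℝ) / ((∏ p ∈ s, p : ℕ) : ℝ)) := by
      push_cast
      rw [Finset.prod_div_distrib, Finset.prod_const_one]
      ring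
    rw [h2, ← mul_sub, abs_mul, abs_pow, abs_neg, abs_one, one_pow, one_mul]
    have h3 : ((Y / ∏ p ∈ s, p : ℕ) : ℝ) ≤ (Y : ℝ) / ((∏ p ∈ s, p : ℕ) : ℝ) := Nat.cast_div_le
    have h4 : (Y : ℝ) / ((∏ p ∈ s, p : ℕ) : ℝ) < ((Y / ∏ p ∈ s, p : ℕ) : ℝ) + 1 := by
      rw [div_lt_iff₀ (by exact_mod_cast hpos)]
      have := Nat.lt_div_mul_add (a := Y) hpos
      have h5 : Y < (Y / (∏ p ∈ s, p) + 1) * ∏ p ∈ s, p := by
        rw [add_mul, one_mul]
        exact this
      exact_mod_cast h5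
    rw [abs_le]
    constructor <;> linarith
  refine (Finset.sum_le_sum h1).trans ?_
  rw [Finset.sum_const, nsmul_eq_mul, mul_one]
  have h6 : (P.powerset.filter (fun s => s.card ≤ k)).card ≤ (Icc 1 (b ^ k)).card := by
    apply Finset.card_le_card_of_injOn (fun s => ∏ p ∈ s, p)
    · intro s hs
      rw [Finset.mem_coe, Finset.mem_filter, Finset.mem_powerset] at hs
      rw [Finset.mem_coe, Finset.mem_Icc]
      refine ⟨Finset.prod_pos fun p hp => (hP p (hs.1 hp)).pos, ?_⟩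
      calc ∏ p ∈ s, p ≤ ∏ _p ∈ s, b := Finset.prod_le_prod' fun p hp => hb p (hs.1 hp)
        _ = b ^ s.card := by rw [Finset.prod_const]
        _ ≤ b ^ k := Nat.pow_le_pow_right hb1 hs.2
    · intro s hs t ht hst
      rw [Finset.mem_coe, Finset.mem_filter, Finset.mem_powerset] at hs ht
      have h7 := Nat.primeFactors_prod (s := s) (fun p hp => hP p (hs.1 hp))
      have h8 := Nat.primeFactors_prod (s := t) (fun p hp => hP p (ht.1 hp))
      rw [← h7, ← h8]
      exact congrArg Nat.primeFactors hst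
  rw [Nat.card_Icc, Nat.add_sub_cancel] at h6
  exact_mod_cast h6

end Pool.Agent.X30.MF
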