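import Mathlib
import Pool.Agent.H510R2.Maier.MB9
import Pool.Agent.X30.MaierF

/-! # The integers without prime factors in a suitable range of primes (helper30) -/

set_option autoImplicit false

open Finset Filter Topology
open Pool.Agent.H378R2 Pool.Agent.H510R2.Maier

namespace Pool.Agent.X30.MG

theorem R1pow (α β : ℝ) (hα : 0 < α) (hβ : 0 < β) :
    Tendsto (fun y : ℝ => R1 ⌊y ^ β⌋₊ - R1 ⌊y ^ α⌋₊) atTop (𝓝 (Real.log (β / α))) := by
  obtain ⟨M, hM⟩ := R1_real
  have h1 := hM.comp (tendsto_rpow_atTop hβ)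
  have h2 := hM.comp (tendsto_rpow_atTop hα)
  have h3 := (h1.sub h2).add_const (Real.log (β / α))
  rw [sub_self, zero_add] at h3
  refine h3.congr' ?_
  filter_upwards [eventually_gt_atTop (1 : ℝ)] with y hy
  have hl : 0 < Real.log y := Real.log_pos hy
  have hy0 : 0 < y := by linarith
  simp only [Function.comp]
  rw [Real.log_rpow hy0, Real.log_rpow hy0, Real.log_mul hβ.ne' hl.ne', Real.log_mul hα.ne' hl.ne',
    Real.log_div hβ.ne' hα.ne']
  ring

/-- the primes of the modulus -/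
noncomputable def PR (X : ℝ) (S : Finset ℕ) (ps a b : ℕ) : Finset ℕ :=
  (PW X S ps).filter (fun p => a < p ∧ p ≤ b)

theorem VV_eq (P : Finset ℕ) (hP : ∀ p ∈ P, p.Prime) (Y : ℕ) :
    VV (∏ p ∈ P, p) 0 Y = ((Icc 1 Y).filter (fun h => ∀ p ∈ P, ¬ p ∣ h)).card := by
  unfold VV
  congr 1
  apply Finset.filter_congr
  intro h _
  rw [zero_add, Nat.coprime_prod_right_iff]
  constructor
  · intro h1 p hp hd
    have := h1 p hp
    rw [Nat.coprime_comm, Nat.Prime.coprime_iff_not_dvd (hP p hp)] at this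
    exact this hd
  · intro h1 p hp
    rw [Nat.coprime_comm, Nat.Prime.coprime_iff_not_dvd (hP p hp)]
    exact h1 p hp

/-- the exponents -/
noncomputable def al (k : ℕ) : ℝ := 1 / (k + 1)
noncomputable def be (k : ℕ) : ℝ := 2 / (2 * k + 1)

lemma al_pos (k : ℕ) : 0 < al k := by unfold al; positivity
lemma be_pos (k : ℕ) : 0 < be k := by unfold be; positivity

lemma ratio (k : ℕ) : be k / al k = (2 * k + 2) / (2 * k + 1) := by
  unfold al be
  field_simp

lemma lr_pos (k : ℕ) : 0 < Real.log (be k / al k) := by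
  rw [ratio]
  apply Real.log_pos
  rw [one_lt_div (by positivity)]
  linarith

lemma lr_le (k : ℕ) (hk : 1 ≤ k) : Real.log (be k / al k) ≤ 1 / 3 := by
  rw [ratio]
  have hk' : (1 : ℝ) ≤ k := by exact_mod_cast hk
  have h1 := Real.log_le_sub_one_of_pos (show (0 : ℝ) < (2 * k + 2) / (2 * k + 1) by positivity)
  refine h1.trans ?_
  rw [div_sub_one (by positivity), div_le_div_iff₀ (by positivity) (by norm_num)]
  linarith

theorem side (k : ℕ) (hk : 1 ≤ k) : ∃ δ : ℝ, 0 < δ ∧ δ ≤ 1 / 2 ∧ ∃ η : ℝ, 0 < η ∧ ∃ Y0 : ℝ, 1 ≤ Y0 ∧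
    ∀ (X : ℝ) (S : Finset ℕ) (ps Y : ℕ), Y0 ≤ Y → ⌊(Y : ℝ) ^ be k⌋₊ ≤ yy X →
      (∀ q ∈ S, q.Prime) → ∑ q ∈ S, (1 : ℝ) / q ≤ η →
      δ * Y ≤ (-1) ^ k * ((VV (∏ p ∈ PR X S ps ⌊(Y : ℝ) ^ al k⌋₊ ⌊(Y : ℝ) ^ be k⌋₊, p) 0 Y : ℝ) -
        Y * BE (PR X S ps ⌊(Y : ℝ) ^ al k⌋₊ ⌊(Y : ℝ) ^ be k⌋₊)) ∧
      1 / 2 ≤ BE (PR X S ps ⌊(Y : ℝ) ^ al k⌋₊ ⌊(Y : ℝ) ^ be k⌋₊) := by
  classical
  set lr := Real.log (be k / al k) with hlr
  have hlr0 : 0 < lr := lr_pos k
  have hlr1 : lr ≤ 1 / 3 := lr_le k hk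
  have hk0 : (0 : ℝ) < (k : ℝ) + 1 := by positivity
  set lam := lr / (4 * (k + 1)) with hlam
  have hlam0 : 0 < lam := by positivity
  have hlam1 : lam ≤ 1 := by
    rw [hlam, div_le_one (by positivity)]
    have : (1 : ℝ) ≤ k := by exact_mod_cast hk
    linarith
  set δ0 := lam ^ k * (1 - Real.exp (-lam)) with hδ0
  have hexp : 0 < 1 - Real.exp (-lam) := by
    have : Real.exp (-lam) < Real.exp 0 := Real.exp_lt_exp.2 (by linarith)
    rw [Real.exp_zero] at this
    linarith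
  have hδ00 : 0 < δ0 := by positivity
  have hδ01 : δ0 ≤ 1 := by
    have h1 : lam ^ k ≤ 1 := pow_le_one₀ hlam0.le hlam1
    have h2 : 1 - Real.exp (-lam) ≤ 1 := by linarith [Real.exp_pos (-lam)]
    calc δ0 ≤ 1 * 1 := mul_le_mul h1 h2 hexp.le (by norm_num)
      _ = 1 := by ring
  have e1 := (R1pow (al k) (be k) (al_pos k) (be_pos k)).eventually_const_lt (show 3 / 4 * lr < Real.log (be k / al k) by
    rw [← hlr]; linarith)
  have e2 := (R1pow (al k) (be k) (al_pos k) (be_pos k)).eventually_lt_const (show Real.log (be k / al k) < 1 / 2 by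
    rw [← hlr]; linarith)
  have e3 := (tendsto_rpow_atTop (al_pos k)).eventually_ge_atTop (1 / lam + 8 / lr)
  have hbk : 0 < 1 - be k * k := by
    unfold be
    have : 1 - 2 / (2 * (k : ℝ) + 1) * k = 1 / (2 * k + 1) := by field_simp; ring
    rw [this]; positivity
  have e4 := (tendsto_rpow_atTop hbk).eventually_ge_atTop (2 / δ0)
  obtain ⟨Y0, hY0⟩ := eventually_atTop.1 ((((e1.and e2).and e3).and e4).and (eventually_ge_atTop (1 : ℝ)))
  refine ⟨δ0 / 2, by positivity, by linarith, lr / 8, by positivity, max Y0 1, le_max_right _ _, ?_⟩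
  intro X S ps Y hY hby hSp hS
  obtain ⟨⟨⟨⟨g1, g2⟩, g3⟩, g4⟩, g5⟩ := hY0 Y ((le_max_left _ _).trans hY)
  set a := ⌊(Y : ℝ) ^ al k⌋₊ with ha
  set b := ⌊(Y : ℝ) ^ be k⌋₊ with hb
  set P := PR X S ps a b with hP
  have hYpos : (0 : ℝ) < Y := by linarith
  have halbe : al k ≤ be k := by
    unfold al be
    rw [div_le_div_iff₀ (by positivity) (by positivity)]
    linarith
  have hab : a ≤ b := Nat.floor_le_floor (Real.rpow_le_rpow_of_exponent_le g5 halbe)
  have hb1 : 1 ≤ b := by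
    rw [hb]
    apply Nat.le_floor
    rw [Nat.cast_one]
    exact Real.one_le_rpow g5 (be_pos k).le
  have hPp : ∀ p ∈ P, p.Prime := fun p hp => (mem_PW.1 (Finset.mem_filter.1 hp).1).2.1
  have hPa : ∀ p ∈ P, a < p := fun p hp => (Finset.mem_filter.1 hp).2.1
  have hPb : ∀ p ∈ P, p ≤ b := fun p hp => (Finset.mem_filter.1 hp).2.2
  have hay : (Y : ℝ) ^ al k < (a : ℝ) + 1 := Nat.lt_floor_add_one _
  have hPY : ∀ p ∈ P, (Y : ℝ) ^ al k < p := by
    intro p hp
    have h1 : (a : ℝ) + 1 ≤ p := by exact_mod_cast hPa p hp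
    linarith
  have hsmall : ∀ p : ℕ, (Y : ℝ) ^ al k < p → (1 : ℝ) / p ≤ lam ∧ (1 : ℝ) / p ≤ lr / 8 := by
    intro p hp
    have h1 : 0 < 1 / lam := by positivity
    have h2 : 0 < 8 / lr := by positivity
    have h3 : 1 / lam ≤ p := by linarith
    have h4 : 8 / lr ≤ p := by linarith
    have hp0 : (0 : ℝ) < p := by linarith
    constructor
    · rw [div_le_iff₀ hp0]
      rw [div_le_iff₀ hlam0] at h3
      linarith
    · rw [div_le_iff₀ hp0]
      rw [div_le_iff₀ hlr0] at h4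
      linarith
  have hx0 : ∀ p ∈ P, (0 : ℝ) ≤ 1 / (p : ℝ) := fun p _ => by positivity
  have hxm : ∀ p ∈ P, (1 : ℝ) / (p : ℝ) ≤ lam := fun p hp => (hsmall p (hPY p hp)).1
  -- sum over P, upper bound
  have hsub : P ⊆ PI a b := by
    intro p hp
    exact mem_PI.2 ⟨⟨hPa p hp, hPb p hp⟩, hPp p hp⟩
  have hsumup : ∑ p ∈ P, (1 : ℝ) / p ≤ 1 / 2 := by
    refine (Finset.sum_le_sum_of_subset_of_nonneg hsub (fun p _ _ => by positivity)).trans ?_
    rw [sum_PI_inv hab]
    exact g2.le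
  have hsumlow : lr / 2 ≤ ∑ p ∈ P, (1 : ℝ) / p := by
    have h1 : ∑ p ∈ PI a b, (1 : ℝ) / p ≤ ∑ p ∈ P, (1 : ℝ) / p + ∑ p ∈ S, (1 : ℝ) / p + lr / 8 := by
      have h2 : PI a b ⊆ (P ∪ S) ∪ ((PI a b).filter (fun p => p = ps)) := by
        intro p hp
        rw [Finset.mem_union, Finset.mem_union, Finset.mem_filter]
        by_cases h3 : p ∈ S
        · exact Or.inl (Or.inr h3)
        by_cases h4 : p = ps
        · exact Or.inr ⟨hp, h4⟩
        left; left
        have h5 := mem_PI.1 hp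
        refine Finset.mem_filter.2 ⟨mem_PW.2 ⟨h5.1.2.trans hby, h5.2, h3, h4⟩, h5.1⟩
      have h3 : ∑ p ∈ (PI a b).filter (fun p => p = ps), (1 : ℝ) / p ≤ lr / 8 := by
        by_cases h4 : ps ∈ PI a b
        · have : (PI a b).filter (fun p => p = ps) = {ps} := by
            ext q
            rw [Finset.mem_filter, Finset.mem_singleton]
            constructor
            · rintro ⟨_, h⟩; exact h
            · rintro rfl; exact ⟨h4, rfl⟩
          rw [this, Finset.sum_singleton]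
          have h5 := (mem_PI.1 h4).1.1
          have h6 : (a : ℝ) + 1 ≤ ps := by exact_mod_cast h5
          exact (hsmall ps (by linarith)).2
        · have : (PI a b).filter (fun p => p = ps) = ∅ := by
            rw [Finset.eq_empty_iff_forall_notMem]
            intro q hq
            rw [Finset.mem_filter] at hq
            exact h4 (hq.2 ▸ hq.1)
          rw [this, Finset.sum_empty]
          positivity
      calc ∑ p ∈ PI a b, (1 : ℝ) / p ≤ ∑ p ∈ (P ∪ S) ∪ ((PI a b).filter (fun p => p = ps)), (1 : ℝ) / p :=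
            Finset.sum_le_sum_of_subset_of_nonneg h2 (fun p _ _ => by positivity)
        _ ≤ ∑ p ∈ P ∪ S, (1 : ℝ) / p + ∑ p ∈ (PI a b).filter (fun p => p = ps), (1 : ℝ) / p := by
            rw [← Finset.sum_union_inter]
            have : 0 ≤ ∑ p ∈ (P ∪ S) ∩ ((PI a b).filter (fun p => p = ps)), (1 : ℝ) / p :=
              Finset.sum_nonneg fun p _ => by positivity
            linarith
        _ ≤ (∑ p ∈ P, (1 : ℝ) / p + ∑ p ∈ S, (1 : ℝ) / p) + lr / 8 := by
            apply add_le_add _ h3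
            rw [← Finset.sum_union_inter]
            have : 0 ≤ ∑ p ∈ P ∩ S, (1 : ℝ) / p := Finset.sum_nonneg fun p _ => by positivity
            linarith
        _ = _ := by ring
    rw [sum_PI_inv hab] at h1
    linarith
  have hF := Pool.Agent.X30.MF.F_lower (fun p : ℕ => 1 / (p : ℝ)) lam lam hlam0.le hlam1 hlam0.le k P hx0 hxm (by
    have : ((k : ℝ) + 1) * (lam + lam) = lr / 2 := by
      rw [hlam]; field_simp; ring
    rw [this]
    exact hsumlow)
  have hprodk : ∀ s, s ⊆ P → s.card = k + 1 → Y < ∏ p ∈ s, p := by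
    intro s hs hsc
    have h1 : ((Y : ℝ) ^ al k) ^ (k + 1) < ((∏ p ∈ s, p : ℕ) : ℝ) := by
      push_cast
      rw [← hsc, ← Finset.prod_const]
      apply Finset.prod_lt_prod_of_nonempty
      · intro p _
        exact Real.rpow_pos_of_pos hYpos _
      · intro p hp
        exact hPY p (hs hp)
      · rw [← Finset.card_pos, hsc]; omega
    have h2 : ((Y : ℝ) ^ al k) ^ (k + 1) = Y := by
      rw [← Real.rpow_natCast, ← Real.rpow_mul hYpos.le]
      have : al k * ((k + 1 : ℕ) : ℝ) = 1 := by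
        unfold al; push_cast; field_simp
      rw [this, Real.rpow_one]
    rw [h2] at h1
    exact_mod_cast h1
  have hcnt := Pool.Agent.X30.MF.count_approx P hPp Y k b hPb hb1 hprodk
  rw [← VV_eq P hPp Y] at hcnt
  have hbk' : (b : ℝ) ^ k ≤ δ0 / 2 * Y := by
    have h1 : (b : ℝ) ≤ (Y : ℝ) ^ be k := Nat.floor_le (Real.rpow_nonneg hYpos.le _)
    have h2 : (b : ℝ) ^ k ≤ (Y : ℝ) ^ (be k * k) := by
      calc (b : ℝ) ^ k ≤ ((Y : ℝ) ^ be k) ^ k := pow_le_pow_left₀ (Nat.cast_nonneg _) h1 k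
        _ = (Y : ℝ) ^ (be k * k) := by rw [← Real.rpow_natCast, ← Real.rpow_mul hYpos.le]
    refine h2.trans ?_
    have h3 : (Y : ℝ) = (Y : ℝ) ^ (be k * k) * (Y : ℝ) ^ (1 - be k * k) := by
      rw [← Real.rpow_add hYpos]
      simp
    have h4 : 0 < (Y : ℝ) ^ (be k * k) := Real.rpow_pos_of_pos hYpos _
    calc (Y : ℝ) ^ (be k * k) = δ0 / 2 * ((Y : ℝ) ^ (be k * k) * (2 / δ0)) := by field_simp
      _ ≤ δ0 / 2 * ((Y : ℝ) ^ (be k * k) * (Y : ℝ) ^ (1 - be k * k)) := by gcongr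
      _ = δ0 / 2 * Y := by rw [← h3]
  constructor
  · set V : ℝ := (VV (∏ p ∈ P, p) 0 Y : ℝ) with hV
    set E := Pool.Agent.X30.MF.E (fun p : ℕ => 1 / (p : ℝ)) P k with hE
    have hFdef : Pool.Agent.X30.MF.F (fun p : ℕ => 1 / (p : ℝ)) P k = (-1) ^ k * (E - BE P) := rfl
    rw [hFdef] at hF
    have h1 : (-1 : ℝ) ^ k * (V - Y * BE P) = (-1) ^ k * (V - Y * E) + Y * ((-1) ^ k * (E - BE P)) := by ring
    rw [h1]
    have h2 : |(-1 : ℝ) ^ k * (V - Y * E)| ≤ δ0 / 2 * Y := by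
      rw [abs_mul, abs_pow, abs_neg, abs_one, one_pow, one_mul]
      exact hcnt.trans hbk'
    have h3 := (abs_le.1 h2).1
    have h4 : δ0 * Y ≤ Y * ((-1) ^ k * (E - BE P)) := by
      rw [mul_comm]
      exact mul_le_mul_of_nonneg_left hF hYpos.le
    linarith
  · have h1 := weier P (fun p => 1 / (p : ℝ)) (fun p hp => hx0 p hp) (fun p hp => (hxm p hp).trans hlam1)
    have h2 : BE P = ∏ i ∈ P, (1 - 1 / (i : ℝ)) := rfl
    rw [h2]
    linarith

end Pool.Agent.X30.MG
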