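import Mathlib
import Pool.Agent.H510R2.Maier.MB5

/-! # Rows of the Maier matrix for divisors of the big modulus and longer windows

Adapted from `Pool.Agent.H510R2.Maier.MB5` (windows up to `(log X)^3`, modulus the product of the primes up to
`log X / D`): here the windows have length up to `(log X)^A` for any `A`, and the modulus is the product of any set of
primes of the big modulus. -/

set_option autoImplicit false

open Finset Filter Topology
open Pool.Agent.H378R2 Pool.Agent.H510R2.Maier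

namespace Pool.Agent.X30.MR

theorem ev_smallA (A : ℕ) : ∀ᶠ L : ℝ in atTop,
    L ^ A * (4 * L ^ A * (2 * L) + 8 * Real.exp (L / 2) * (2 * L)) * Real.exp (L / 700) ≤ Real.exp L := by
  have h1 : Tendsto (fun L : ℝ => L ^ (2 * A + 1) * Real.exp (-(1 / 4) * L)) atTop (𝓝 0) := by
    have := Real.tendsto_pow_mul_exp_neg_atTop_nhds_zero (2 * A + 1)
    have h2 := this.comp (tendsto_id.const_mul_atTop (show (0 : ℝ) < 1 / 4 by norm_num))
    have h3 := h2.const_mul ((4 : ℝ) ^ (2 * A + 1))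
    rw [mul_zero] at h3
    refine h3.congr fun L => ?_
    simp only [Function.comp, id]
    rw [show -(1 / 4) * L = -(1 / 4 * L) by ring, mul_pow, ← mul_assoc, ← mul_assoc, ← mul_pow]
    norm_num
  have h2 : ∀ᶠ L : ℝ in atTop, L ^ (2 * A + 1) * Real.exp (-(1 / 4) * L) < 1 / 24 :=
    h1.eventually_lt_const (by norm_num)
  filter_upwards [h2, eventually_ge_atTop (1 : ℝ)] with L h3 hL
  have hL0 : 0 < L := by linarith
  have e1 : L ^ A * (4 * L ^ A * (2 * L) + 8 * Real.exp (L / 2) * (2 * L)) ≤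
      24 * L ^ (2 * A + 1) * Real.exp (L / 2) := by
    have a1 : 1 ≤ Real.exp (L / 2) := Real.one_le_exp (by positivity)
    have a2 : L ^ (A + 1) ≤ L ^ (2 * A + 1) := pow_le_pow_right₀ hL (by omega)
    have a3 : 0 < L ^ (2 * A + 1) := by positivity
    have : L ^ A * (4 * L ^ A * (2 * L) + 8 * Real.exp (L / 2) * (2 * L)) =
        8 * L ^ (2 * A + 1) + 16 * L ^ (A + 1) * Real.exp (L / 2) := by
      rw [show 2 * A + 1 = A + A + 1 by ring, pow_add, pow_add, pow_one, pow_add, pow_one]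
      ring
    rw [this]
    have a4 : 8 * L ^ (2 * A + 1) ≤ 8 * L ^ (2 * A + 1) * Real.exp (L / 2) := by nlinarith
    have a5 : 16 * L ^ (A + 1) * Real.exp (L / 2) ≤ 16 * L ^ (2 * A + 1) * Real.exp (L / 2) := by gcongr
    linarith
  calc L ^ A * (4 * L ^ A * (2 * L) + 8 * Real.exp (L / 2) * (2 * L)) * Real.exp (L / 700)
      ≤ 24 * L ^ (2 * A + 1) * Real.exp (L / 2) * Real.exp (L / 700) := by gcongr
    _ ≤ 24 * L ^ (2 * A + 1) * Real.exp (L / 2) * Real.exp (L / 4) := by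
        gcongr
        linarith
    _ = 24 * (L ^ (2 * A + 1) * Real.exp (-(1 / 4) * L)) * Real.exp L := by
        have e2 : Real.exp L = Real.exp (L / 2) * Real.exp (L / 4) * Real.exp (L / 4) := by
          rw [← Real.exp_add, ← Real.exp_add]; congr 1; ring
        have e3 : Real.exp (-(1 / 4) * L) * Real.exp (L / 4) = 1 := by
          rw [← Real.exp_add, show -(1 / 4) * L + L / 4 = 0 by ring, Real.exp_zero]
        rw [e2]
        calc 24 * L ^ (2 * A + 1) * Real.exp (L / 2) * Real.exp (L / 4)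
            = 24 * L ^ (2 * A + 1) * Real.exp (L / 2) * Real.exp (L / 4) * 1 := by ring
          _ = 24 * L ^ (2 * A + 1) * Real.exp (L / 2) * Real.exp (L / 4) *
              (Real.exp (-(1 / 4) * L) * Real.exp (L / 4)) := by rw [e3]
          _ = _ := by ring
    _ ≤ 1 * Real.exp L := by
        apply mul_le_mul_of_nonneg_right _ (Real.exp_pos _).le
        linarith
    _ = Real.exp L := one_mul _

theorem sub_decomp (X : ℝ) (S : Finset ℕ) (ps : ℕ) (P : Finset ℕ) (hP : P ⊆ PW X S ps) :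
    ∃ W2 : ℕ, 0 < W2 ∧ (∏ p ∈ P, p).Coprime W2 ∧
    (∏ p ∈ P, p) * W2 = WW X S ps ∧ ((∏ p ∈ P, p : ℕ) : ℝ) ≤ WW X S ps := by
  classical
  set B := PW X S ps \ P with hB
  have hBp : ∀ p ∈ B, p.Prime := fun p hp => (mem_PW.1 (Finset.mem_sdiff.1 hp).1).2.1
  have hAp : ∀ p ∈ P, p.Prime := fun p hp => (mem_PW.1 (hP hp)).2.1
  have hdis : Disjoint P B := Finset.disjoint_sdiff
  have hprod : (∏ p ∈ P, p) * ∏ p ∈ B, p = WW X S ps := by
    unfold WW
    rw [← Finset.prod_union hdis]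
    congr 1
    exact Finset.union_sdiff_of_subset hP
  have hpos : 0 < ∏ p ∈ B, p := Finset.prod_pos fun p hp => (hBp p hp).pos
  refine ⟨∏ p ∈ B, p, hpos, prod_coprime_of_disjoint hAp hBp hdis, hprod, ?_⟩
  have : ∏ p ∈ P, p ≤ WW X S ps := by
    rw [← hprod]
    exact Nat.le_mul_of_pos_right _ hpos
  exact_mod_cast this

set_option maxHeartbeats 4000000 in
/-- weighted sums over the rows -/
theorem rows_sumsA (A : ℕ) (ε : ℝ) (hε : 0 < ε) (hε1 : ε ≤ 1) (Z : ℕ) : ∃ X0 : ℝ, ∀ X : ℝ, X0 ≤ X →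
    ∃ (ps : ℕ) (S : Finset ℕ), GoodP Z ps ∧ GoodS X S ∧
      ∀ P : Finset ℕ, P ⊆ PW X S ps → ∀ r Y : ℕ, (Y : ℝ) ≤ (Real.log X) ^ A →
        (1 - ε / 4) * ((VV (∏ p ∈ P, p) r Y : ℝ) * (MPhi X / (∏ p ∈ P, p).totient)) -
            40 * (MPhi X / (∏ p ∈ P, p).totient) ≤
          ∑ n ∈ Icc 1 ⌊3 * X⌋₊, nu X (∏ p ∈ P, p) r n * thw n Y ∧
        ∑ n ∈ Icc 1 ⌊3 * X⌋₊, nu X (∏ p ∈ P, p) r n * thw n Y ≤
          (1 + ε / 4) * ((VV (∏ p ∈ P, p) r Y : ℝ) * (MPhi X / (∏ p ∈ P, p).totient)) +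
            40 * (MPhi X / (∏ p ∈ P, p).totient) ∧
        (1 - ε / 4) * (MPhi X / (∏ p ∈ P, p : ℕ)) ≤ ∑ n ∈ Icc 1 ⌊3 * X⌋₊, nu X (∏ p ∈ P, p) r n ∧
        ∑ n ∈ Icc 1 ⌊3 * X⌋₊, nu X (∏ p ∈ P, p) r n ≤ (1 + ε / 4) * (MPhi X / (∏ p ∈ P, p : ℕ)) := by
  obtain ⟨X1, hX1⟩ := bvrel_holds A Z
  have hlogtop : Tendsto Real.log atTop atTop := Real.tendsto_log_atTop
  have ev1 := lphi_mphi (ε / 80) (by positivity)
  have ev2 : ∀ᶠ X : ℝ in atTop, (Real.log X) ^ A * (4 * (Real.log X) ^ A * (2 * Real.log X) +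
      8 * Real.exp (Real.log X / 2) * (2 * Real.log X)) * Real.exp (Real.log X / 700) ≤ Real.exp (Real.log X) :=
    hlogtop.eventually (ev_smallA A)
  have ev3 : ∀ᶠ X : ℝ in atTop, (Real.log X) ^ A ≤ X / 2 := by
    have h1 := (Real.isLittleO_pow_log_id_atTop (n := A)).bound (show (0 : ℝ) < 1 / 2 by norm_num)
    filter_upwards [h1, eventually_ge_atTop (1 : ℝ)] with X h2 h3
    rw [Real.norm_of_nonneg (pow_nonneg (Real.log_nonneg h3) A), id, Real.norm_of_nonneg (by linarith)] at h2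
    linarith
  have ev4 : ∀ᶠ X : ℝ in atTop, 400 / ε * Real.exp (Real.log X / 700) ≤ X := by
    have h1 : Tendsto (fun L : ℝ => Real.exp (-(699 / 700) * L)) atTop (𝓝 0) := by
      apply Real.tendsto_exp_atBot.comp
      exact tendsto_id.const_mul_atTop_of_neg (by norm_num)
    have h2 : ∀ᶠ X : ℝ in atTop, Real.exp (-(699 / 700) * Real.log X) < ε / 400 :=
      hlogtop.eventually (h1.eventually_lt_const (by positivity))
    filter_upwards [h2, eventually_gt_atTop (0 : ℝ)] with X h3 h4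
    have h5 : Real.exp (Real.log X / 700) = X * Real.exp (-(699 / 700) * Real.log X) := by
      nth_rewrite 2 [← Real.exp_log h4]
      rw [← Real.exp_add]
      congr 1
      ring
    rw [h5]
    calc 400 / ε * (X * Real.exp (-(699 / 700) * Real.log X)) ≤ 400 / ε * (X * (ε / 400)) := by gcongr
      _ = X := by field_simp
  have hev := ((((ev1.and ev2).and ev3).and ev4).and (eventually_ge_atTop X1)).and
    ((eventually_ge_atTop (40 : ℝ)).and (hlogtop.eventually_ge_atTop (2 : ℝ)))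
  obtain ⟨X0, hX0⟩ := eventually_atTop.1 hev
  refine ⟨X0, fun X hX => ?_⟩
  obtain ⟨⟨⟨⟨⟨h1, h2⟩, h3⟩, h4⟩, h5⟩, h6, h7⟩ := hX0 X hX
  obtain ⟨ps, S, hps, hS, hbv⟩ := hX1 X h5
  refine ⟨ps, S, hps, hS, fun P hPW r Y hY => ?_⟩
  have hXpos : 0 < X := by linarith
  obtain ⟨W2, hW2, hco, hWprod, hWDle⟩ := sub_decomp X S ps P hPW
  set W := ∏ p ∈ P, p with hW
  have hW0 : 0 < W := Finset.prod_pos fun p hp => (mem_PW.1 (hPW hp)).2.1.pos
  have hWr : (0 : ℝ) < W := by exact_mod_cast hW0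
  have hφ0 : (0 : ℝ) < W.totient := by exact_mod_cast Nat.totient_pos.2 hW0
  have hφ2 : (0 : ℝ) < W2.totient := by exact_mod_cast Nat.totient_pos.2 hW2
  have hφle : (W.totient : ℝ) ≤ W := by exact_mod_cast Nat.totient_le W
  have hWle : (W : ℝ) ≤ Real.exp (Real.log X / 700) := hWDle.trans (WW_le X (by linarith) S ps)
  set L := Real.log X with hL
  have hexpL : Real.exp L = X := Real.exp_log hXpos
  have hsqrt : Real.sqrt X = Real.exp (L / 2) := by
    rw [← hexpL, Real.sqrt_eq_iff_mul_self_eq (Real.exp_pos _).le (Real.exp_pos _).le, ← Real.exp_add]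
    congr 1; ring
  have hl4 : Real.log (4 * X) ≤ 2 * L := by
    rw [Real.log_mul (by norm_num) hXpos.ne']
    have : Real.log 4 ≤ 2 := by
      rw [show (4 : ℝ) = 2 ^ 2 by norm_num, Real.log_pow]
      have := Real.log_two_lt_d9
      push_cast; linarith
    linarith
  have hl40 : 0 ≤ Real.log (4 * X) := Real.log_nonneg (by linarith)
  set E0 := X / (((WW X S ps).totient : ℝ) * L ^ A) with hE0
  have hEb0 := single_bound X (WW X S ps) ps A (by linarith) E0 hbv
  have hWp0 : ∀ p : ℕ, p.Prime → p ∣ WW X S ps → (p : ℝ) ≤ X := by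
    intro p hp hpW
    have h8 := (mem_PW.1 ((prime_dvd_WW hp).1 hpW)).1
    have h9 : (p : ℝ) ≤ yy X := by exact_mod_cast h8
    have h10 : (yy X : ℝ) ≤ L / 1000 := Nat.floor_le (by positivity)
    have h11 : L ≤ X := by
      have := Real.add_one_le_exp L
      linarith
    linarith
  have hWp : ∀ p : ℕ, p.Prime → p ∣ W → (p : ℝ) ≤ X := fun p hp hd =>
    hWp0 p hp (hd.trans ⟨W2, hWprod.symm⟩)
  have hWp2 : ∀ p : ℕ, p.Prime → p ∣ W2 → (p : ℝ) ≤ X := fun p hp hd =>
    hWp0 p hp (hd.trans ⟨W, by rw [← hWprod]; ring⟩)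
  set E := (W2.totient : ℝ) * E0 + 2 * Real.sqrt (3 * X) * Real.log (3 * X) with hE
  have hEb : ∀ b : ℕ, b.Coprime W → |EPhi X W b| ≤ E := by
    intro b hb
    apply EPhi_sub X (by linarith) W W2 hW0 hW2 hco hWp2 E0 _ b hb
    rw [hWprod]
    exact hEb0
  have hE0eq : (W2.totient : ℝ) * E0 = X / (W.totient * L ^ A) := by
    rw [hE0, ← hWprod, Nat.totient_mul hco]
    push_cast
    field_simp
  have hmat := matrix_sum X (by linarith) W r Y (by linarith) hWp E hEb
  have hM1 := MPhi_ge X h6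
  set M := MPhi X with hM
  have hM0 : 0 < M := by linarith
  -- the error
  have h3X : 2 * Real.sqrt (3 * X) * Real.log (3 * X) ≤ 4 * Real.sqrt X * Real.log (4 * X) := by
    have a1 : Real.sqrt (3 * X) ≤ 2 * Real.sqrt X := by
      rw [show 2 * Real.sqrt X = Real.sqrt (4 * X) by
        rw [Real.sqrt_mul (by norm_num), show (4 : ℝ) = 2 ^ 2 by norm_num, Real.sqrt_sq (by norm_num)]]
      exact Real.sqrt_le_sqrt (by linarith)
    have a2 : Real.log (3 * X) ≤ Real.log (4 * X) := Real.log_le_log (by linarith) (by linarith)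
    have a3 : 0 ≤ Real.log (3 * X) := Real.log_nonneg (by linarith)
    calc 2 * Real.sqrt (3 * X) * Real.log (3 * X) ≤ 2 * (2 * Real.sqrt X) * Real.log (4 * X) := by gcongr
      _ = _ := by ring
  have herr : Y * (E + (4 * Y * Real.log (4 * X) + 4 * Real.sqrt X * Real.log (4 * X))) ≤ 40 * (M / W.totient) := by
    have hY0 : (0 : ℝ) ≤ Y := Nat.cast_nonneg _
    have b1 : Y * ((W2.totient : ℝ) * E0) ≤ X / W.totient := by
      rw [hE0eq]
      calc Y * (X / (W.totient * L ^ A)) ≤ L ^ A * (X / (W.totient * L ^ A)) := by gcongr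
        _ = X / W.totient := by field_simp
    have b2 : Y * (4 * Y * Real.log (4 * X) + 8 * Real.sqrt X * Real.log (4 * X)) ≤ X / W.totient := by
      rw [le_div_iff₀ hφ0]
      calc Y * (4 * Y * Real.log (4 * X) + 8 * Real.sqrt X * Real.log (4 * X)) * W.totient
          ≤ L ^ A * (4 * L ^ A * (2 * L) + 8 * Real.exp (L / 2) * (2 * L)) * Real.exp (L / 700) := by
            rw [hsqrt]
            have := hφle.trans hWle
            gcongr
        _ ≤ X := by rw [← hexpL]; exact h2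
    have b3 : X / W.totient ≤ 20 * (M / W.totient) := by
      rw [mul_div_assoc']
      gcongr
      linarith
    calc Y * (E + (4 * Y * Real.log (4 * X) + 4 * Real.sqrt X * Real.log (4 * X)))
        ≤ Y * (((W2.totient : ℝ) * E0 + 4 * Real.sqrt X * Real.log (4 * X)) +
            (4 * Y * Real.log (4 * X) + 4 * Real.sqrt X * Real.log (4 * X))) := by
          apply mul_le_mul_of_nonneg_left _ hY0
          rw [hE]
          linarith
      _ = Y * ((W2.totient : ℝ) * E0) + Y * (4 * Y * Real.log (4 * X) + 8 * Real.sqrt X * Real.log (4 * X)) := by ring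
      _ ≤ X / W.totient + X / W.totient := add_le_add b1 b2
      _ ≤ _ := by linarith
  have hLM : |LPhi X - M| ≤ ε / 4 * M := by
    refine h1.trans ?_
    nlinarith
  rw [abs_le] at hLM
  have hnu := sum_nu X (by linarith) W r hW0 (by
    have : (400 : ℝ) ≤ 400 / ε := by
      rw [le_div_iff₀ hε]; nlinarith
    nlinarith [Real.exp_pos (L / 700)])
  rw [abs_le] at hnu hmat
  set N1 := ∑ n ∈ Icc 1 ⌊3 * X⌋₊, nu X W r n with hN1
  set T1 := ∑ n ∈ Icc 1 ⌊3 * X⌋₊, nu X W r n * thw n Y with hT1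
  have hMW : 5 ≤ ε / 4 * (M / W) := by
    have c1 : 400 / ε * W ≤ X := by
      refine le_trans ?_ h4
      gcongr
    have c2 : 400 * W ≤ ε * X := by
      calc 400 * (W : ℝ) = ε * (400 / ε * W) := by field_simp
        _ ≤ ε * X := by gcongr
    have c3 : 20 ≤ ε * (M / W) := by
      rw [mul_div_assoc', le_div_iff₀ hWr]
      nlinarith
    linarith
  have hMW' : M * (1 / (W : ℝ)) = M / W := by ring
  rw [hMW'] at hnu
  set V : ℝ := (VV W r Y : ℝ) with hV
  have hV0 : 0 ≤ V := Nat.cast_nonneg _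
  have hK0 : 0 < M / W.totient := by positivity
  refine ⟨?_, ?_, by linarith [hnu.1], by linarith [hnu.2]⟩
  · have d1 : (1 - ε / 4) * (V * (M / W.totient)) ≤ V * (LPhi X * (1 / W.totient)) := by
      have : (1 - ε / 4) * M ≤ LPhi X := by linarith [hLM.1]
      calc (1 - ε / 4) * (V * (M / W.totient)) = V * (((1 - ε / 4) * M) * (1 / W.totient)) := by ring
        _ ≤ _ := by gcongr
    linarith [hmat.1]
  · have d1 : V * (LPhi X * (1 / W.totient)) ≤ (1 + ε / 4) * (V * (M / W.totient)) := by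
      have : LPhi X ≤ (1 + ε / 4) * M := by linarith [hLM.2]
      calc V * (LPhi X * (1 / W.totient)) ≤ V * (((1 + ε / 4) * M) * (1 / W.totient)) := by gcongr
        _ = _ := by ring
    linarith [hmat.2]

end Pool.Agent.X30.MR
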