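import Mathlib
import Pool.Agent.H510R2.Maier.MB9
import Pool.Agent.X30.MaierR
import Pool.Agent.X30.MaierG

/-! # Frequency of the irregularities of Maier (helper30) -/

set_option autoImplicit false

open Finset Filter Topology
open Pool.Agent.H378R2 Pool.Agent.H510R2.Maier Pool.Agent.X30.MR Pool.Agent.X30.MG

namespace Pool.Agent.X30.MH

theorem cnt_Ioc (n Y : ℕ) : cnt n Y = ((Ioc n (n + Y)).filter Nat.Prime).card := by
  unfold cnt
  apply Finset.card_bij (fun h _ => n + h)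
  · intro h hh
    rw [Finset.mem_filter, Finset.mem_Icc] at hh
    rw [Finset.mem_filter, Finset.mem_Ioc]
    exact ⟨⟨by omega, by omega⟩, hh.2⟩
  · intro h _ h' _ heq
    omega
  · intro p hp
    rw [Finset.mem_filter, Finset.mem_Ioc] at hp
    refine ⟨p - n, ?_, by omega⟩
    rw [Finset.mem_filter, Finset.mem_Icc]
    refine ⟨⟨by omega, by omega⟩, ?_⟩
    rw [show n + (p - n) = p by omega]
    exact hp.2

/-- growth -/
theorem growth (ε₁ ε c : ℝ) (hε₁ : 0 < ε₁) (hε : ε₁ < ε) (hc : 0 < c) (A : ℕ) : ∀ᶠ L : ℝ in atTop,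
    3 * Real.exp (-L ^ ε) ≤ c * (Real.exp (-(3 * L ^ ε₁)) / L ^ A) := by
  have h1 := (tendsto_rpow_atTop (show 0 < ε - ε₁ by linarith)).eventually_ge_atTop (6 : ℝ)
  have h2 := (isLittleO_log_rpow_atTop (show 0 < ε by linarith)).def
    (show (0 : ℝ) < 1 / (4 * (A + 1)) by positivity)
  have h3 := (tendsto_rpow_atTop (show 0 < ε by linarith)).eventually_ge_atTop (4 * |Real.log 3 - Real.log c|)
  filter_upwards [h1, h2, h3, eventually_ge_atTop (1 : ℝ)] with L g1 g2 g3 g4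
  have hL0 : 0 < L := by linarith
  rw [Real.norm_of_nonneg (Real.log_nonneg g4), Real.norm_of_nonneg (Real.rpow_nonneg hL0.le _)] at g2
  have e1 : 3 * Real.exp (-L ^ ε) = Real.exp (Real.log 3 - L ^ ε) := by
    rw [sub_eq_add_neg, Real.exp_add, Real.exp_log (by norm_num)]
  have e2 : c * (Real.exp (-(3 * L ^ ε₁)) / L ^ A) =
      Real.exp (Real.log c - 3 * L ^ ε₁ - A * Real.log L) := by
    rw [Real.exp_sub, Real.exp_sub, Real.exp_log hc, Real.exp_nat_mul, Real.exp_log hL0, Real.exp_neg]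
    field_simp
  rw [e1, e2]
  apply Real.exp_le_exp.2
  have e3 : L ^ ε = L ^ ε₁ * L ^ (ε - ε₁) := by
    rw [← Real.rpow_add hL0]; congr 1; ring
  have e4 : 3 * L ^ ε₁ ≤ 1 / 2 * L ^ ε := by
    rw [e3]
    have : 0 < L ^ ε₁ := Real.rpow_pos_of_pos hL0 _
    nlinarith
  have e5 : A * Real.log L ≤ 1 / 4 * L ^ ε := by
    have e6 : 0 ≤ Real.log L := Real.log_nonneg g4
    have e7 : (A : ℝ) * Real.log L ≤ (A + 1) * Real.log L := by linarith
    refine e7.trans ?_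
    calc ((A : ℝ) + 1) * Real.log L ≤ (A + 1) * (1 / (4 * (A + 1)) * L ^ ε) := by gcongr
      _ = 1 / 4 * L ^ ε := by field_simp
  have e6 := le_abs_self (Real.log 3 - Real.log c)
  linarith

set_option maxHeartbeats 4000000 in
theorem setup (B : ℝ) (hB : 1 ≤ B) (k : ℕ) (hk : 1 ≤ k) (hBk : B * be k ≤ 1 / 4) :
    ∃ δ : ℝ, 0 < δ ∧ δ ≤ 1 / 2 ∧ ∀ᶠ X : ℝ in atTop, ∀ Y : ℕ, (Real.log X) ^ B - 1 ≤ Y →
      (Y : ℝ) ≤ (Real.log X + 2) ^ B → ∃ W : ℕ, 0 < W ∧
        (W : ℝ) ≤ Real.exp (3 / 2 * (Real.log X + 2) ^ (B * be k)) ∧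
        (Even k → (1 + δ / 2) * Y * (MPhi X / W) ≤ ∑ n ∈ Icc 1 ⌊3 * X⌋₊, nu X W 0 n * thw n Y) ∧
        (Odd k → ∑ n ∈ Icc 1 ⌊3 * X⌋₊, nu X W 0 n * thw n Y ≤ (1 - 3 * δ / 4) * Y * (MPhi X / W)) ∧
        (1 - δ / 40) * (MPhi X / W) ≤ ∑ n ∈ Icc 1 ⌊3 * X⌋₊, nu X W 0 n ∧
        ∑ n ∈ Icc 1 ⌊3 * X⌋₊, nu X W 0 n ≤ (1 + δ / 40) * (MPhi X / W) := by
  classical
  obtain ⟨δ, hδ0, hδ1, η, hη0, Y0, hY0, hside⟩ := side k hk
  set A : ℕ := ⌈B⌉₊ + 1 with hA
  obtain ⟨X0, hX0⟩ := rows_sumsA A (δ / 10) (by positivity) (by linarith) 1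
  refine ⟨δ, hδ0, hδ1, ?_⟩
  have hlog : Tendsto Real.log atTop atTop := Real.tendsto_log_atTop
  have hB0 : 0 < B := by linarith
  have hBA : B + 1 ≤ A := by
    have := Nat.le_ceil B
    rw [hA]; push_cast; linarith
  have e1 : ∀ᶠ L : ℝ in atTop, (L + 2) ^ B ≤ L ^ A := by
    filter_upwards [eventually_ge_atTop (2 : ℝ), (eventually_ge_atTop ((2 : ℝ) ^ B))] with L h1 h2
    have hL0 : 0 < L := by linarith
    calc (L + 2) ^ B ≤ (2 * L) ^ B := Real.rpow_le_rpow (by linarith) (by linarith) hB0.le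
      _ = 2 ^ B * L ^ B := Real.mul_rpow (by norm_num) hL0.le
      _ ≤ L * L ^ B := by gcongr
      _ = L ^ (B + 1) := by rw [Real.rpow_add hL0, Real.rpow_one]; ring
      _ ≤ L ^ (A : ℝ) := Real.rpow_le_rpow_of_exponent_le (by linarith) hBA
      _ = L ^ A := Real.rpow_natCast _ _
  have e2 : ∀ᶠ L : ℝ in atTop, (L + 2) ^ (1 / 4 : ℝ) ≤ L / 1000 := by
    have h1 := (tendsto_rpow_atTop (show (0 : ℝ) < 3 / 4 by norm_num)).eventually_ge_atTop (2000 : ℝ)
    filter_upwards [h1, eventually_ge_atTop (2 : ℝ)] with L h2 h3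
    have hL0 : 0 < L := by linarith
    have h4 : (L + 2) ^ (1 / 4 : ℝ) ≤ 2 * L ^ (1 / 4 : ℝ) := by
      calc (L + 2) ^ (1 / 4 : ℝ) ≤ (2 * L) ^ (1 / 4 : ℝ) := Real.rpow_le_rpow (by linarith) (by linarith) (by norm_num)
        _ = 2 ^ (1 / 4 : ℝ) * L ^ (1 / 4 : ℝ) := Real.mul_rpow (by norm_num) hL0.le
        _ ≤ 2 * L ^ (1 / 4 : ℝ) := by
            gcongr
            calc (2 : ℝ) ^ (1 / 4 : ℝ) ≤ 2 ^ (1 : ℝ) := Real.rpow_le_rpow_of_exponent_le (by norm_num) (by norm_num)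
              _ = 2 := Real.rpow_one _
    have h5 : L = L ^ (1 / 4 : ℝ) * L ^ (3 / 4 : ℝ) := by
      rw [← Real.rpow_add hL0]; norm_num
    have h6 : 0 < L ^ (1 / 4 : ℝ) := Real.rpow_pos_of_pos hL0 _
    rw [le_div_iff₀ (by norm_num)]
    calc (L + 2) ^ (1 / 4 : ℝ) * 1000 ≤ 2 * L ^ (1 / 4 : ℝ) * 1000 := by gcongr
      _ = L ^ (1 / 4 : ℝ) * 2000 := by ring
      _ ≤ L ^ (1 / 4 : ℝ) * L ^ (3 / 4 : ℝ) := by gcongr
      _ = L := h5.symm
  have e3 : ∀ᶠ L : ℝ in atTop, max Y0 (400 / δ) + 1 ≤ L ^ B := (tendsto_rpow_atTop hB0).eventually_ge_atTop _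
  have e4 : ∀ᶠ L : ℝ in atTop, 6 / (Real.log L) ^ 2 ≤ η := by
    have h1 : Tendsto (fun L : ℝ => 6 / (Real.log L) ^ 2) atTop (𝓝 0) := by
      apply Tendsto.div_atTop tendsto_const_nhds
      exact (tendsto_pow_atTop (by norm_num)).comp Real.tendsto_log_atTop
    exact (h1.eventually_lt_const hη0).mono fun L h => h.le
  filter_upwards [hlog.eventually e1, hlog.eventually e2, hlog.eventually e3, hlog.eventually e4,
    eventually_ge_atTop X0, eventually_ge_atTop (40 : ℝ), hlog.eventually_ge_atTop (1 : ℝ)] with X g1 g2 g3 g4 g5 g6 g7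
  intro Y hYl hYu
  obtain ⟨ps, S, hps, hS, hr⟩ := hX0 X g5
  set L := Real.log X with hL
  have hL0 : 0 < L := by linarith
  have hYY : max Y0 (400 / δ) ≤ Y := by linarith
  have hYpos : (1 : ℝ) ≤ Y := hY0.trans ((le_max_left _ _).trans hYY)
  have hbb : ⌊(Y : ℝ) ^ be k⌋₊ ≤ yy X := by
    apply Nat.floor_le_floor
    calc (Y : ℝ) ^ be k ≤ ((L + 2) ^ B) ^ be k := Real.rpow_le_rpow (by linarith) hYu (be_pos k).le
      _ = (L + 2) ^ (B * be k) := by rw [← Real.rpow_mul (by linarith)]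
      _ ≤ (L + 2) ^ (1 / 4 : ℝ) := Real.rpow_le_rpow_of_exponent_le (by linarith) hBk
      _ ≤ L / 1000 := g2
  obtain ⟨s1, s2⟩ := hside X S ps Y ((le_max_left _ _).trans hYY) hbb (fun q hq => (hS.1 q hq).1)
    (hS.2.trans g4)
  set P := PR X S ps ⌊(Y : ℝ) ^ al k⌋₊ ⌊(Y : ℝ) ^ be k⌋₊ with hP
  have hPW : P ⊆ PW X S ps := Finset.filter_subset _ _
  have hPp : ∀ p ∈ P, p.Prime := fun p hp => (mem_PW.1 (hPW hp)).2.1
  obtain ⟨r1, r2, r3, r4⟩ := hr P hPW 0 Y (hYu.trans g1)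
  set W := ∏ p ∈ P, p with hW
  have hW0 : 0 < W := Finset.prod_pos fun p hp => (hPp p hp).pos
  have hWr : (0 : ℝ) < W := by exact_mod_cast hW0
  set b := BE P with hb
  have hb0 : 0 < b := BE_pos hPp
  have hb1 : b ≤ 1 := BE_le_one hPp
  have hφ : (W.totient : ℝ) = W * b := totient_prod _ hPp
  have hM1 := MPhi_ge X g6
  set M := MPhi X with hM
  have hM0 : 0 < M := by linarith
  set V : ℝ := (VV W 0 Y : ℝ) with hV
  have hMW : 0 < M / W := by positivity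
  have hMφ : M / W.totient = (M / W) * (1 / b) := by
    rw [hφ]; field_simp
  have hib : 1 / b ≤ 2 := by
    rw [div_le_iff₀ hb0]; linarith
  have hib0 : 0 < 1 / b := by positivity
  have h400 : 400 ≤ δ * Y := by
    have h1 := (le_max_right Y0 (400 / δ)).trans hYY
    rw [div_le_iff₀ hδ0] at h1
    linarith
  refine ⟨W, hW0, ?_, ?_, ?_, ?_, ?_⟩
  · -- size of W
    have h1 : W ≤ primorial ⌊(Y : ℝ) ^ be k⌋₊ := by
      rw [hW]
      unfold primorial
      apply Finset.prod_le_prod_of_subset_of_one_le'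
      · intro p hp
        rw [Finset.mem_filter, Finset.mem_range]
        exact ⟨Nat.lt_succ_of_le (Finset.mem_filter.1 hp).2.2, hPp p hp⟩
      · intro i hi _
        exact (Finset.mem_filter.1 hi).2.one_lt.le
    have h2 : (W : ℝ) ≤ (4 : ℝ) ^ ⌊(Y : ℝ) ^ be k⌋₊ := by
      exact_mod_cast h1.trans (primorial_le_four_pow _)
    refine h2.trans ?_
    rw [← Real.rpow_natCast, Real.rpow_def_of_pos (by norm_num)]
    apply Real.exp_le_exp.2
    have h3 : (⌊(Y : ℝ) ^ be k⌋₊ : ℝ) ≤ (L + 2) ^ (B * be k) := by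
      calc (⌊(Y : ℝ) ^ be k⌋₊ : ℝ) ≤ (Y : ℝ) ^ be k := Nat.floor_le (by positivity)
        _ ≤ ((L + 2) ^ B) ^ be k := Real.rpow_le_rpow (by linarith) hYu (be_pos k).le
        _ = (L + 2) ^ (B * be k) := by rw [← Real.rpow_mul (by linarith)]
    have h4 : Real.log 4 ≤ 3 / 2 := by
      rw [show (4 : ℝ) = 2 ^ 2 by norm_num, Real.log_pow]
      have := Real.log_two_lt_d9
      push_cast; linarith
    apply mul_le_mul h4 h3 (Nat.cast_nonneg _) (by norm_num)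
  · intro hke
    rw [hke.neg_one_pow, one_mul] at s1
    refine le_trans ?_ r1
    rw [hMφ]
    have h1 : (1 + δ) * (Y * b) ≤ V := by
      have : δ * (Y * b) ≤ δ * Y := by
        have : (Y : ℝ) * b ≤ Y := mul_le_of_le_one_right (by linarith) hb1
        gcongr
      linarith
    have h2 : (1 + δ) * Y ≤ V * (1 / b) := by
      calc (1 + δ) * Y = (1 + δ) * (Y * b) * (1 / b) := by field_simp
        _ ≤ V * (1 / b) := by gcongr
    have h3 : (1 + δ / 2) * Y + 80 ≤ (1 - δ / 10 / 4) * ((1 + δ) * Y) := by nlinarith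
    have h4 : (1 - δ / 10 / 4) * ((1 + δ) * Y) ≤ (1 - δ / 10 / 4) * (V * (1 / b)) := by
      apply mul_le_mul_of_nonneg_left h2
      linarith
    calc (1 + δ / 2) * Y * (M / W) = ((1 + δ / 2) * Y + 80) * (M / W) - 80 * (M / W) := by ring
      _ ≤ (1 - δ / 10 / 4) * (V * (1 / b)) * (M / W) - 40 * ((M / W) * (1 / b)) := by
          have h5 : ((1 + δ / 2) * Y + 80) * (M / W) ≤ (1 - δ / 10 / 4) * (V * (1 / b)) * (M / W) :=
            mul_le_mul_of_nonneg_right (h3.trans h4) hMW.le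
          have h6 : 40 * ((M / W) * (1 / b)) ≤ 80 * (M / W) := by
            have : (M / W) * (1 / b) ≤ (M / W) * 2 := mul_le_mul_of_nonneg_left hib hMW.le
            linarith
          linarith
      _ = _ := by ring
  · intro hko
    rw [hko.neg_one_pow] at s1
    refine r2.trans ?_
    rw [hMφ]
    have h1 : V ≤ (1 - δ) * (Y * b) := by
      have : δ * (Y * b) ≤ δ * Y := by
        have : (Y : ℝ) * b ≤ Y := mul_le_of_le_one_right (by linarith) hb1
        gcongr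
      linarith
    have h2 : V * (1 / b) ≤ (1 - δ) * Y := by
      calc V * (1 / b) ≤ (1 - δ) * (Y * b) * (1 / b) := by gcongr
        _ = (1 - δ) * Y := by field_simp
    have h3 : (1 + δ / 10 / 4) * ((1 - δ) * Y) + 80 ≤ (1 - 3 * δ / 4) * Y := by nlinarith
    calc (1 + δ / 10 / 4) * (V * ((M / W) * (1 / b))) + 40 * ((M / W) * (1 / b))
        = (1 + δ / 10 / 4) * (V * (1 / b)) * (M / W) + 40 * (1 / b) * (M / W) := by ring
      _ ≤ (1 + δ / 10 / 4) * ((1 - δ) * Y) * (M / W) + 80 * (M / W) := by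
          have h5 : (1 + δ / 10 / 4) * (V * (1 / b)) * (M / W) ≤ (1 + δ / 10 / 4) * ((1 - δ) * Y) * (M / W) := by
            apply mul_le_mul_of_nonneg_right _ hMW.le
            apply mul_le_mul_of_nonneg_left h2
            linarith
          have h6 : 40 * (1 / b) * (M / W) ≤ 80 * (M / W) := by
            apply mul_le_mul_of_nonneg_right _ hMW.le
            linarith
          linarith
      _ = ((1 + δ / 10 / 4) * ((1 - δ) * Y) + 80) * (M / W) := by ring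
      _ ≤ _ := mul_le_mul_of_nonneg_right h3 hMW.le
  · refine le_trans (le_of_eq ?_) r3
    ring
  · refine r4.trans (le_of_eq ?_)
    ring

end Pool.Agent.X30.MH
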