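import Mathlib
import Pool.Agent.X30.MaierH

/-! # Frequency of the irregularities of Maier: conclusion (helper30) -/

set_option autoImplicit false

open Finset Filter Topology
open Pool.Agent.H378R2 Pool.Agent.H510R2.Maier Pool.Agent.X30.MR Pool.Agent.X30.MG Pool.Agent.X30.MH

namespace Pool.Agent.X30.MI

theorem ratio_ev (B q : ℝ) (hq : 1 < q) : ∀ᶠ L : ℝ in atTop, (L + 2) ^ B ≤ q * L ^ B := by
  have h1 : Tendsto (fun L : ℝ => (1 + 2 / L) ^ B) atTop (𝓝 1) := by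
    have h2 : Tendsto (fun L : ℝ => 1 + 2 / L) atTop (𝓝 (1 + 0)) :=
      tendsto_const_nhds.add (Tendsto.div_atTop tendsto_const_nhds tendsto_id)
    rw [add_zero] at h2
    have h3 := h2.rpow_const (p := B) (Or.inl one_ne_zero)
    rwa [Real.one_rpow] at h3
  filter_upwards [h1.eventually_lt_const hq, eventually_gt_atTop (0 : ℝ)] with L h2 h3
  have h4 : L + 2 = (1 + 2 / L) * L := by field_simp
  rw [h4, Real.mul_rpow (by positivity) h3.le]
  exact mul_le_mul_of_nonneg_right h2.le (Real.rpow_nonneg h3.le _)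

theorem two_ev (θ : ℝ) (h0 : 0 < θ) (hθ : θ ≤ 1) : ∀ᶠ L : ℝ in atTop, 3 / 2 * (L + 2) ^ θ ≤ 3 * L ^ θ := by
  filter_upwards [eventually_ge_atTop (2 : ℝ)] with L hL
  have h1 : (L + 2) ^ θ ≤ 2 * L ^ θ := by
    calc (L + 2) ^ θ ≤ (2 * L) ^ θ := Real.rpow_le_rpow (by linarith) (by linarith) h0.le
      _ = 2 ^ θ * L ^ θ := Real.mul_rpow (by norm_num) (by linarith)
      _ ≤ 2 * L ^ θ := by
          have : (2 : ℝ) ^ θ ≤ 2 := by
            calc (2 : ℝ) ^ θ ≤ 2 ^ (1 : ℝ) := Real.rpow_le_rpow_of_exponent_le (by norm_num) hθ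
              _ = 2 := Real.rpow_one _
          have h2 : 0 ≤ L ^ θ := Real.rpow_nonneg (by linarith) _
          nlinarith
  linarith

/-- the number of primes `p` with `n < p ≤ n + (log n)^B` -/
noncomputable def win (B : ℝ) (n : ℕ) : ℕ :=
  ((Ioc n ⌊(n : ℝ) + (Real.log n) ^ B⌋₊).filter Nat.Prime).card

theorem win_le (B : ℝ) (hB : 0 ≤ B) (n Y : ℕ) (L : ℝ) (h0 : 0 ≤ Real.log n) (h1 : Real.log n ≤ L) (hY : ⌊L ^ B⌋₊ ≤ Y) :
    win B n ≤ cnt n Y := by
  rw [cnt_Ioc]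
  unfold win
  apply Finset.card_le_card
  apply Finset.filter_subset_filter
  apply Finset.Ioc_subset_Ioc_right
  rw [add_comm (n : ℝ), Nat.floor_add_natCast (Real.rpow_nonneg h0 _)]
  have : ⌊(Real.log n) ^ B⌋₊ ≤ ⌊L ^ B⌋₊ := Nat.floor_le_floor (Real.rpow_le_rpow h0 h1 hB)
  omega

theorem win_ge (B : ℝ) (hB : 0 ≤ B) (n Y : ℕ) (L : ℝ) (h0 : 0 ≤ L) (h1 : L ≤ Real.log n) (hY : Y ≤ ⌊L ^ B⌋₊) :
    cnt n Y ≤ win B n := by
  rw [cnt_Ioc]
  unfold win
  apply Finset.card_le_card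
  apply Finset.filter_subset_filter
  apply Finset.Ioc_subset_Ioc_right
  rw [add_comm (n : ℝ), Nat.floor_add_natCast (Real.rpow_nonneg (h0.trans h1) _)]
  have : ⌊L ^ B⌋₊ ≤ ⌊(Real.log n) ^ B⌋₊ := Nat.floor_le_floor (Real.rpow_le_rpow h0 h1 hB)
  omega

set_option maxHeartbeats 4000000 in
theorem few (B ε : ℝ) (hB : 1 ≤ B) (k : ℕ) (hk : 1 ≤ k) (hko : Odd k) (hBk : B * be k ≤ 1 / 4)
    (hBε : B * be k < ε) : ∃ δ : ℝ, 0 < δ ∧ ∀ᶠ X : ℝ in atTop,
      3 * X * Real.exp (-(Real.log (3 * X)) ^ ε) ≤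
        (((Icc 1 ⌊3 * X⌋₊).filter (fun n : ℕ => (win B n : ℝ) ≤ (1 - δ) * (Real.log n) ^ (B - 1))).card : ℝ) := by
  classical
  obtain ⟨δ, hδ0, hδ1, hset⟩ := setup B hB k hk hBk
  have hB0 : 0 < B := by linarith
  have hθ0 : 0 < B * be k := mul_pos hB0 (be_pos k)
  have hε0 : 0 < ε := by linarith
  refine ⟨δ / 8, by positivity, ?_⟩
  have hlog : Tendsto Real.log atTop atTop := Real.tendsto_log_atTop
  have e1 := growth (B * be k) ε (δ / 1280) hθ0 hBε (by positivity) 0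
  have e2 := two_ev (B * be k) hθ0 (by linarith)
  have e3 := ratio_ev B ((1 - δ / 8) / (1 - δ / 4)) (by rw [one_lt_div (by linarith)]; linarith)
  have e5 : ∀ᶠ L : ℝ in atTop, (2 : ℝ) ≤ L ^ B := (tendsto_rpow_atTop hB0).eventually_ge_atTop 2
  filter_upwards [hset, hlog.eventually e1, hlog.eventually e2, hlog.eventually e3, hlog.eventually e5,
    eventually_ge_atTop (40 : ℝ), hlog.eventually_ge_atTop (2 : ℝ)] with X g1 g2 g3 g4 g5 g6 g7
  have hX0 : 0 < X := by linarith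
  set L := Real.log X with hL
  have hL0 : 0 < L := by linarith
  set Y := ⌊(L + 2) ^ B⌋₊ with hY
  have hYu : (Y : ℝ) ≤ (L + 2) ^ B := Nat.floor_le (by positivity)
  have hLL : L ^ B ≤ (L + 2) ^ B := Real.rpow_le_rpow hL0.le (by linarith) hB0.le
  have hYl : L ^ B - 1 ≤ Y := by
    have := Nat.sub_one_lt_floor ((L + 2) ^ B)
    linarith
  have hY1 : (1 : ℝ) ≤ Y := by linarith
  obtain ⟨W, hW0, hWle, -, hodd, hN1, hN2⟩ := g1 Y hYl hYu
  have hT := hodd hko
  have hM1 := MPhi_ge X g6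
  set M := MPhi X with hM
  have hWr : (0 : ℝ) < W := by exact_mod_cast hW0
  have hMW : 0 < M / W := by
    have : 0 < M := by linarith
    positivity
  set N1 := ∑ n ∈ Icc 1 ⌊3 * X⌋₊, nu X W 0 n with hN1d
  have hA0 : 0 < (1 - δ / 2) * (Y : ℝ) := by
    apply mul_pos <;> linarith
  have hcnt := count_few X hX0 W 0 (fun n => thw n Y) (fun n => thw_nonneg n Y) ((1 - δ / 2) * Y) (δ / 8) N1 hA0
    (by positivity) (by linarith) rfl (by
      refine hT.trans ?_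
      have h1 : (1 - 3 * δ / 4) * (Y : ℝ) * (M / W) ≤ (1 - δ / 2) * Y * (M / W) :=
        mul_le_mul_of_nonneg_right (mul_le_mul_of_nonneg_right (by linarith) (by linarith)) hMW.le
      have h2 : M / W ≤ (1 + δ / 8 / 2) * N1 := by
        calc M / W ≤ (1 + δ / 8 / 2) * ((1 - δ / 40) * (M / W)) := by
              have h3 : 1 ≤ (1 + δ / 8 / 2) * (1 - δ / 40) := by nlinarith
              calc M / W = 1 * (M / W) := (one_mul _).symm
                _ ≤ ((1 + δ / 8 / 2) * (1 - δ / 40)) * (M / W) := mul_le_mul_of_nonneg_right h3 hMW.le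
                _ = _ := by ring
          _ ≤ (1 + δ / 8 / 2) * N1 := by gcongr
      calc (1 - 3 * δ / 4) * (Y : ℝ) * (M / W) ≤ (1 - δ / 2) * Y * (M / W) := h1
        _ ≤ (1 - δ / 2) * Y * ((1 + δ / 8 / 2) * N1) := mul_le_mul_of_nonneg_left h2 hA0.le
        _ = _ := by ring)
  have hsub : rowset X (fun n => thw n Y ≤ (1 + δ / 8) * ((1 - δ / 2) * Y)) ⊆
      (Icc 1 ⌊3 * X⌋₊).filter (fun n : ℕ => (win B n : ℝ) ≤ (1 - δ / 8) * (Real.log n) ^ (B - 1)) := by
    intro n hn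
    obtain ⟨m1, m2, m3, m4⟩ := mem_rowset.1 hn
    refine Finset.mem_filter.2 ⟨Finset.mem_Icc.2 m1, ?_⟩
    obtain ⟨l1, l2⟩ := G.log_bounds hX0 m2 m3
    rw [← hL] at l1 l2
    have s0 : (win B n : ℝ) ≤ cnt n Y := by
      exact_mod_cast win_le B hB0.le n Y (L + 2) (by linarith) l2 le_rfl
    have s1 : L * cnt n Y ≤ (1 + δ / 8) * ((1 - δ / 2) * Y) := (thw_ge n Y X hX0 m2).trans m4
    have s2 : (1 + δ / 8) * ((1 - δ / 2) * (Y : ℝ)) ≤ (1 - δ / 4) * (L + 2) ^ B := by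
      calc (1 + δ / 8) * ((1 - δ / 2) * (Y : ℝ)) = ((1 + δ / 8) * (1 - δ / 2)) * Y := by ring
        _ ≤ (1 - δ / 4) * Y := by
            apply mul_le_mul_of_nonneg_right _ (by linarith)
            nlinarith
        _ ≤ (1 - δ / 4) * (L + 2) ^ B := by
            apply mul_le_mul_of_nonneg_left hYu
            linarith
    have s3 : (1 - δ / 4) * (L + 2) ^ B ≤ (1 - δ / 8) * L ^ B := by
      have h1 : (L + 2) ^ B ≤ (1 - δ / 8) / (1 - δ / 4) * L ^ B := g4
      have h2 : 0 < 1 - δ / 4 := by linarith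
      calc (1 - δ / 4) * (L + 2) ^ B ≤ (1 - δ / 4) * ((1 - δ / 8) / (1 - δ / 4) * L ^ B) := by gcongr
        _ = ((1 - δ / 4) / (1 - δ / 4)) * ((1 - δ / 8) * L ^ B) := by ring
        _ = (1 - δ / 8) * L ^ B := by rw [div_self h2.ne', one_mul]
    have s4 : L ^ B = L * L ^ (B - 1) := by
      rw [← Real.rpow_one_add' hL0.le (by linarith)]
      congr 1; ring
    have s5 : (cnt n Y : ℝ) ≤ (1 - δ / 8) * L ^ (B - 1) := by
      have h1 : L * cnt n Y ≤ L * ((1 - δ / 8) * L ^ (B - 1)) := by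
        calc L * cnt n Y ≤ (1 - δ / 8) * L ^ B := s1.trans (s2.trans s3)
          _ = _ := by rw [s4]; ring
      exact le_of_mul_le_mul_left h1 hL0
    refine s0.trans (s5.trans ?_)
    apply mul_le_mul_of_nonneg_left _ (by linarith)
    exact Real.rpow_le_rpow hL0.le l1 (by linarith)
  have hcard : ((rowset X (fun n => thw n Y ≤ (1 + δ / 8) * ((1 - δ / 2) * Y))).card : ℝ) ≤
      (((Icc 1 ⌊3 * X⌋₊).filter (fun n : ℕ => (win B n : ℝ) ≤ (1 - δ / 8) * (Real.log n) ^ (B - 1))).card : ℝ) := by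
    exact_mod_cast Finset.card_le_card hsub
  refine le_trans ?_ (hcnt.trans hcard)
  have q1 : X / 40 / W ≤ N1 := by
    refine le_trans ?_ hN1
    have : 1 / 2 ≤ 1 - δ / 40 := by linarith
    calc X / 40 / W = 1 / 2 * (X / 20 / W) := by ring
      _ ≤ (1 - δ / 40) * (M / W) := by gcongr
  have q2 : Real.exp (-L ^ ε) ≥ Real.exp (-(Real.log (3 * X)) ^ ε) := by
    apply Real.exp_le_exp.2
    have h1 : L ≤ Real.log (3 * X) := Real.log_le_log hX0 (by linarith)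
    have h2 := Real.rpow_le_rpow hL0.le h1 hε0.le
    linarith
  calc 3 * X * Real.exp (-(Real.log (3 * X)) ^ ε) ≤ 3 * X * Real.exp (-L ^ ε) := by gcongr
    _ = X * (3 * Real.exp (-L ^ ε)) := by ring
    _ ≤ X * (δ / 1280 * (Real.exp (-(3 * L ^ (B * be k))) / L ^ 0)) := by gcongr
    _ = δ / 32 * (X / 40 * Real.exp (-(3 * L ^ (B * be k)))) := by rw [pow_zero]; ring
    _ ≤ δ / 32 * (X / 40 / W) := by
        have h1 : (W : ℝ) ≤ Real.exp (3 * L ^ (B * be k)) := hWle.trans (Real.exp_le_exp.2 g3)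
        rw [Real.exp_neg, ← div_eq_mul_inv]
        gcongr
    _ = δ / 8 / 4 * (X / 40 / W) := by ring
    _ ≤ δ / 8 / 4 * N1 := by gcongr

set_option maxHeartbeats 4000000 in
theorem many (B ε : ℝ) (hB : 1 ≤ B) (k : ℕ) (hk : 1 ≤ k) (hke : Even k) (hBk : B * be k ≤ 1 / 4)
    (hBε : B * be k < ε) : ∃ δ : ℝ, 0 < δ ∧ ∀ᶠ X : ℝ in atTop,
      3 * X * Real.exp (-(Real.log (3 * X)) ^ ε) ≤
        (((Icc 1 ⌊3 * X⌋₊).filter (fun n : ℕ => (1 + δ) * (Real.log n) ^ (B - 1) ≤ (win B n : ℝ))).card : ℝ) := by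
  classical
  obtain ⟨δ, hδ0, hδ1, hset⟩ := setup B hB k hk hBk
  have hB0 : 0 < B := by linarith
  have hθ0 : 0 < B * be k := mul_pos hB0 (be_pos k)
  have hε0 : 0 < ε := by linarith
  refine ⟨δ / 16, by positivity, ?_⟩
  have hlog : Tendsto Real.log atTop atTop := Real.tendsto_log_atTop
  set A : ℕ := ⌈B⌉₊ + 1 with hA
  have hBA : B + 1 ≤ A := by
    have := Nat.le_ceil B
    rw [hA]; push_cast; linarith
  have e1 := growth (B * be k) ε (δ / 2560) hθ0 hBε (by positivity) A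
  have e2 := two_ev (B * be k) hθ0 (by linarith)
  have e3 := ratio_ev B (1 + δ / 64) (by linarith)
  have e5 : ∀ᶠ L : ℝ in atTop, 64 / δ + 2 ≤ L ^ B := (tendsto_rpow_atTop hB0).eventually_ge_atTop _
  have e6 : ∀ᶠ X : ℝ in atTop, (Real.log X) ^ A ≤ X := by
    have h1 := (Real.isLittleO_pow_log_id_atTop (n := A)).bound (show (0 : ℝ) < 1 by norm_num)
    filter_upwards [h1, eventually_ge_atTop (1 : ℝ)] with X h2 h3
    rw [Real.norm_of_nonneg (pow_nonneg (Real.log_nonneg h3) A), id, Real.norm_of_nonneg (by linarith)] at h2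
    linarith
  filter_upwards [hset, hlog.eventually e1, hlog.eventually e2, hlog.eventually e3, hlog.eventually e5,
    eventually_ge_atTop (40 : ℝ), hlog.eventually_ge_atTop (2 : ℝ), e6] with X g1 g2 g3 g4 g5 g6 g7 g8
  have hX0 : 0 < X := by linarith
  set L := Real.log X with hL
  have hL0 : 0 < L := by linarith
  set Y := ⌊L ^ B⌋₊ with hY
  have hLL : L ^ B ≤ (L + 2) ^ B := Real.rpow_le_rpow hL0.le (by linarith) hB0.le
  have hYu' : (Y : ℝ) ≤ L ^ B := Nat.floor_le (by positivity)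
  have hYu : (Y : ℝ) ≤ (L + 2) ^ B := hYu'.trans hLL
  have hYl : L ^ B - 1 ≤ Y := (Nat.sub_one_lt_floor _).le
  have h64 : 0 < 64 / δ := by positivity
  have hY1 : (1 : ℝ) ≤ Y := by linarith
  have hLA : L ^ B * L ≤ L ^ A := by
    calc L ^ B * L = L ^ (B + 1) := by rw [Real.rpow_add hL0, Real.rpow_one]
      _ ≤ L ^ (A : ℝ) := Real.rpow_le_rpow_of_exponent_le (by linarith) hBA
      _ = L ^ A := Real.rpow_natCast _ _
  have hYX : (Y : ℝ) ≤ X := by
    have : L ^ B ≤ L ^ B * L := le_mul_of_one_le_right (by positivity) (by linarith)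
    linarith
  obtain ⟨W, hW0, hWle, heven, -, hN1, hN2⟩ := g1 Y hYl hYu
  have hT := heven hke
  have hM1 := MPhi_ge X g6
  set M := MPhi X with hM
  have hWr : (0 : ℝ) < W := by exact_mod_cast hW0
  have hMW : 0 < M / W := by
    have : 0 < M := by linarith
    positivity
  have hl4 : Real.log (4 * X) ≤ L + 2 := by
    rw [Real.log_mul (by norm_num) hX0.ne']
    have : Real.log 4 ≤ 2 := by
      rw [show (4 : ℝ) = 2 ^ 2 by norm_num, Real.log_pow]
      have := Real.log_two_lt_d9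
      push_cast; linarith
    linarith
  have hl40 : 0 < Real.log (4 * X) := Real.log_pos (by linarith)
  set N1 := ∑ n ∈ Icc 1 ⌊3 * X⌋₊, nu X W 0 n with hN1d
  set K := (L + 2) * (Y : ℝ) with hK
  have hK0 : 0 < K := by positivity
  have hcnt := count_many X hX0 W 0 (fun n => thw n Y) ((1 + δ / 4) * Y) (δ / 16) N1 K (by nlinarith)
    (by positivity) (by linarith) (by
      intro n h1 h2
      have hn0 : 0 < n := by
        have : (0 : ℝ) < n := by linarith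
        exact_mod_cast this
      have h3 := thw_le n Y (4 * X) (by linarith) hn0
      refine h3.trans ?_
      have h4 : (cnt n Y : ℝ) ≤ Y := by exact_mod_cast G.cnt_le n Y
      rw [hK]
      exact mul_le_mul hl4 h4 (Nat.cast_nonneg _) (by linarith)) rfl (by
      refine le_trans ?_ hT
      have h1 : (1 - δ / 16 / 2) * ((1 + δ / 4) * Y) * N1 ≤ ((1 + δ / 4) * Y) * N1 := by
        have hN10 : 0 ≤ N1 := Finset.sum_nonneg fun n _ => nu_nonneg _ _ _ _
        have h2 : (1 - δ / 16 / 2) * ((1 + δ / 4) * (Y : ℝ)) ≤ (1 + δ / 4) * Y := by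
          have : 0 ≤ (1 + δ / 4) * (Y : ℝ) := by positivity
          nlinarith
        exact mul_le_mul_of_nonneg_right h2 hN10
      refine h1.trans ?_
      calc ((1 + δ / 4) * Y) * N1 ≤ ((1 + δ / 4) * Y) * ((1 + δ / 40) * (M / W)) := by gcongr
        _ = ((1 + δ / 4) * (1 + δ / 40)) * Y * (M / W) := by ring
        _ ≤ (1 + δ / 2) * Y * (M / W) := by
            gcongr
            nlinarith)
  have hsub : rowset X (fun n => (1 - δ / 16) * ((1 + δ / 4) * Y) ≤ thw n Y) ⊆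
      (Icc 1 ⌊3 * X⌋₊).filter (fun n : ℕ => (1 + δ / 16) * (Real.log n) ^ (B - 1) ≤ (win B n : ℝ)) := by
    intro n hn
    obtain ⟨m1, m2, m3, m4⟩ := mem_rowset.1 hn
    refine Finset.mem_filter.2 ⟨Finset.mem_Icc.2 m1, ?_⟩
    obtain ⟨l1, l2⟩ := G.log_bounds hX0 m2 m3
    rw [← hL] at l1 l2
    have s0 : (cnt n Y : ℝ) ≤ win B n := by
      exact_mod_cast win_ge B hB0.le n Y L hL0.le l1 le_rfl
    have s1 : (1 - δ / 16) * ((1 + δ / 4) * Y) ≤ (L + 2) * cnt n Y := by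
      refine m4.trans ((thw_le n Y (4 * X) (by linarith) (by omega)).trans ?_)
      gcongr
    have s2 : (1 + δ / 8) * (L ^ B - 1) ≤ (1 - δ / 16) * ((1 + δ / 4) * Y) := by
      calc (1 + δ / 8) * (L ^ B - 1) ≤ (1 + δ / 8) * Y := by gcongr
        _ ≤ ((1 - δ / 16) * (1 + δ / 4)) * Y := by
            gcongr
            nlinarith
        _ = _ := by ring
    have s3 : (1 + δ / 16) * (L + 2) ^ B ≤ (1 + δ / 8) * (L ^ B - 1) := by
      have h1 : 64 + 2 * δ ≤ δ * L ^ B := by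
        have h2 : δ * (64 / δ + 2) ≤ δ * L ^ B := by gcongr
        have h3 : δ * (64 / δ + 2) = 64 + 2 * δ := by field_simp
        linarith
      have h4 : (1 + δ / 16) * (L + 2) ^ B ≤ (1 + δ / 16) * ((1 + δ / 64) * L ^ B) := by gcongr
      have h5 : (1 + δ / 16) * (1 + δ / 64) ≤ 1 + 3 * δ / 32 := by nlinarith
      have h6 : (1 + δ / 16) * ((1 + δ / 64) * L ^ B) ≤ (1 + 3 * δ / 32) * L ^ B := by
        rw [← mul_assoc]
        have : 0 ≤ L ^ B := by positivity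
        exact mul_le_mul_of_nonneg_right h5 this
      nlinarith
    have s4 : (L + 2) ^ B = (L + 2) * (L + 2) ^ (B - 1) := by
      rw [← Real.rpow_one_add' (by linarith) (by linarith)]
      congr 1; ring
    have s5 : (1 + δ / 16) * (L + 2) ^ (B - 1) ≤ (cnt n Y : ℝ) := by
      have h1 : (L + 2) * ((1 + δ / 16) * (L + 2) ^ (B - 1)) ≤ (L + 2) * cnt n Y := by
        calc (L + 2) * ((1 + δ / 16) * (L + 2) ^ (B - 1)) = (1 + δ / 16) * (L + 2) ^ B := by rw [s4]; ring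
          _ ≤ _ := s3.trans (s2.trans s1)
      exact le_of_mul_le_mul_left h1 (by linarith)
    refine le_trans ?_ (s5.trans s0)
    apply mul_le_mul_of_nonneg_left _ (by linarith)
    exact Real.rpow_le_rpow (by linarith) l2 (by linarith)
  have hcard : ((rowset X (fun n => (1 - δ / 16) * ((1 + δ / 4) * Y) ≤ thw n Y)).card : ℝ) ≤
      (((Icc 1 ⌊3 * X⌋₊).filter (fun n : ℕ => (1 + δ / 16) * (Real.log n) ^ (B - 1) ≤ (win B n : ℝ))).card : ℝ) := by
    exact_mod_cast Finset.card_le_card hsub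
  have q1 : X / 40 / W ≤ N1 := by
    refine le_trans ?_ hN1
    have : 1 / 2 ≤ 1 - δ / 40 := by linarith
    calc X / 40 / W = 1 / 2 * (X / 20 / W) := by ring
      _ ≤ (1 - δ / 40) * (M / W) := by gcongr
  have q2 : Real.exp (-L ^ ε) ≥ Real.exp (-(Real.log (3 * X)) ^ ε) := by
    apply Real.exp_le_exp.2
    have h1 : L ≤ Real.log (3 * X) := Real.log_le_log hX0 (by linarith)
    have h2 := Real.rpow_le_rpow hL0.le h1 hε0.le
    linarith
  have hKA : K ≤ 2 * L ^ A := by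
    calc K ≤ (2 * L) * L ^ B := by
          rw [hK]
          exact mul_le_mul (by linarith) hYu' (Nat.cast_nonneg _) (by linarith)
      _ = 2 * (L ^ B * L) := by ring
      _ ≤ 2 * L ^ A := by gcongr
  have hfin : 3 * X * Real.exp (-(Real.log (3 * X)) ^ ε) ≤ δ / 16 / 2 * N1 / K := by
    calc 3 * X * Real.exp (-(Real.log (3 * X)) ^ ε) ≤ 3 * X * Real.exp (-L ^ ε) := by gcongr
      _ = X * (3 * Real.exp (-L ^ ε)) := by ring
      _ ≤ X * (δ / 2560 * (Real.exp (-(3 * L ^ (B * be k))) / L ^ A)) := by gcongr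
      _ = δ / 32 * (X / 40 * Real.exp (-(3 * L ^ (B * be k)))) / (2 * L ^ A) := by
          field_simp
          ring
      _ ≤ δ / 32 * (X / 40 / W) / (2 * L ^ A) := by
          have h1 : (W : ℝ) ≤ Real.exp (3 * L ^ (B * be k)) := hWle.trans (Real.exp_le_exp.2 g3)
          rw [Real.exp_neg, ← div_eq_mul_inv]
          gcongr
      _ ≤ δ / 32 * N1 / (2 * L ^ A) := by gcongr
      _ ≤ δ / 32 * N1 / K := by
          have hN10 : 0 ≤ N1 := Finset.sum_nonneg fun n _ => nu_nonneg _ _ _ _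
          gcongr
      _ = _ := by ring
  refine hfin.trans ?_
  rw [div_le_iff₀ hK0, mul_comm _ K]
  refine hcnt.trans ?_
  gcongr

theorem exists_k (B ε : ℝ) (hB : 1 ≤ B) (hε : 0 < ε) : ∃ m : ℕ, 1 ≤ m ∧ ∀ k : ℕ, m ≤ k →
    B * be k ≤ 1 / 4 ∧ B * be k < ε := by
  obtain ⟨m, hm⟩ := exists_nat_gt (B / ε + 4 * B)
  have hB0 : 0 < B := by linarith
  refine ⟨m + 1, by omega, fun k hk => ?_⟩
  have h1 : (m : ℝ) + 1 ≤ k := by exact_mod_cast hk
  have h2 : 0 < B / ε := by positivity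
  have h3 : B / ε < k := by linarith
  have h4 : 4 * B ≤ k := by linarith
  rw [div_lt_iff₀ hε] at h3
  have hk0 : (0 : ℝ) < 2 * k + 1 := by positivity
  have h5 : B * be k = 2 * B / (2 * k + 1) := by unfold be; ring
  rw [h5]
  constructor
  · rw [div_le_iff₀ hk0]; linarith
  · rw [div_lt_iff₀ hk0]; nlinarith

theorem main (B ε : ℝ) (hB : 1 ≤ B) (hε : 0 < ε) : ∃ δ : ℝ, 0 < δ ∧ ∃ X₀ : ℝ, ∀ X : ℝ, X₀ ≤ X →
    X * Real.exp (-(Real.log X) ^ ε) ≤
        (((Icc 1 ⌊X⌋₊).filter (fun n : ℕ => (1 + δ) * (Real.log n) ^ (B - 1) ≤ (win B n : ℝ))).card : ℝ) ∧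
    X * Real.exp (-(Real.log X) ^ ε) ≤
        (((Icc 1 ⌊X⌋₊).filter (fun n : ℕ => (win B n : ℝ) ≤ (1 - δ) * (Real.log n) ^ (B - 1))).card : ℝ) := by
  obtain ⟨m, hm1, hm⟩ := exists_k B ε hB hε
  obtain ⟨δ1, hδ1, h1⟩ := many B ε hB (2 * m) (by omega) ⟨m, by ring⟩ (hm _ (by omega)).1 (hm _ (by omega)).2
  obtain ⟨δ2, hδ2, h2⟩ := few B ε hB (2 * m + 1) (by omega) ⟨m, rfl⟩ (hm _ (by omega)).1 (hm _ (by omega)).2
  have htend : Tendsto (fun x : ℝ => x / 3) atTop atTop := tendsto_id.atTop_div_const (by norm_num)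
  obtain ⟨X₀, hX₀⟩ := eventually_atTop.1 ((htend.eventually h1).and (htend.eventually h2))
  refine ⟨min δ1 δ2, lt_min hδ1 hδ2, X₀, fun X hX => ?_⟩
  obtain ⟨h3, h4⟩ := hX₀ X hX
  have h5 : 3 * (X / 3) = X := by ring
  rw [h5] at h3 h4
  constructor
  · refine h3.trans ?_
    have : ((Icc 1 ⌊X⌋₊).filter (fun n : ℕ => (1 + δ1) * (Real.log n) ^ (B - 1) ≤ (win B n : ℝ))) ⊆
        ((Icc 1 ⌊X⌋₊).filter (fun n : ℕ => (1 + min δ1 δ2) * (Real.log n) ^ (B - 1) ≤ (win B n : ℝ))) := by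
      intro n hn
      rw [Finset.mem_filter] at hn ⊢
      refine ⟨hn.1, le_trans ?_ hn.2⟩
      have : 0 ≤ (Real.log n) ^ (B - 1) := Real.rpow_nonneg (Real.log_natCast_nonneg n) _
      have := min_le_left δ1 δ2
      gcongr
    exact_mod_cast Finset.card_le_card this
  · refine h4.trans ?_
    have : ((Icc 1 ⌊X⌋₊).filter (fun n : ℕ => (win B n : ℝ) ≤ (1 - δ2) * (Real.log n) ^ (B - 1))) ⊆
        ((Icc 1 ⌊X⌋₊).filter (fun n : ℕ => (win B n : ℝ) ≤ (1 - min δ1 δ2) * (Real.log n) ^ (B - 1))) := by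
      intro n hn
      rw [Finset.mem_filter] at hn ⊢
      refine ⟨hn.1, le_trans hn.2 ?_⟩
      have : 0 ≤ (Real.log n) ^ (B - 1) := Real.rpow_nonneg (Real.log_natCast_nonneg n) _
      have := min_le_right δ1 δ2
      gcongr
    exact_mod_cast Finset.card_le_card this

end Pool.Agent.X30.MI
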