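import Mathlib
import Pool.Agent.X30.MaierI

/-! # Linear combinations of the numbers of primes in windows at several scales (helper30)

`transfer`: for every divisor `W` of the big modulus the linear combinations of the normalised numbers of
primes in the windows `(n, n + (log n) ^ B i]` reach, for many `n`, the value of the same linear
combination of the densities of the integers prime to `W` in `(0, (log n) ^ B i]`. -/

set_option autoImplicit false

open Finset Filter Topology
open Pool.Agent.H378R2 Pool.Agent.H510R2.Maier Pool.Agent.X30.MR Pool.Agent.X30.MG Pool.Agent.X30.MH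
open Pool.Agent.X30.MI

namespace Pool.Agent.X30.MT

/-- the normalised number of primes in `(n, n + (log n) ^ B]` -/
noncomputable def dens (B : ℝ) (n : ℕ) : ℝ := (win B n : ℝ) / (Real.log n) ^ (B - 1)

/-- the window used for the coefficient `c` -/
noncomputable def Yc (B c L : ℝ) : ℕ := if 0 ≤ c then ⌊L ^ B⌋₊ else ⌊(L + 2) ^ B⌋₊

/-- the weight used for the coefficient `c` -/
noncomputable def ac (B c L : ℝ) : ℝ :=
  if 0 ≤ c then L / ((L + 2) * (L + 2) ^ B) else (L + 2) / (L * L ^ B)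

lemma ac_pos (B c L : ℝ) (hL : 0 < L) : 0 < ac B c L := by
  unfold ac
  split_ifs <;> positivity

lemma ratio_one (B : ℝ) : Tendsto (fun L : ℝ => (L + 2) ^ B / L ^ B) atTop (𝓝 1) := by
  have h1 : Tendsto (fun L : ℝ => (1 + 2 / L) ^ B) atTop (𝓝 1) := by
    have h2 : Tendsto (fun L : ℝ => 1 + 2 / L) atTop (𝓝 (1 + 0)) :=
      tendsto_const_nhds.add (Tendsto.div_atTop tendsto_const_nhds tendsto_id)
    rw [add_zero] at h2
    have h3 := h2.rpow_const (p := B) (Or.inl one_ne_zero)
    rwa [Real.one_rpow] at h3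
  refine h1.congr' ?_
  filter_upwards [eventually_gt_atTop (0 : ℝ)] with L hL
  rw [← Real.div_rpow (by linarith) hL.le]
  congr 1
  field_simp

lemma ac_lim (B c : ℝ) : Tendsto (fun L : ℝ => ac B c L * L ^ B) atTop (𝓝 1) := by
  have h1 := ratio_one B
  have h2 := ratio_one 1
  unfold ac
  split_ifs with hc
  · have h3 := (h1.mul h2).inv₀ (by norm_num)
    rw [one_mul, inv_one] at h3
    refine h3.congr' ?_
    filter_upwards [eventually_gt_atTop (0 : ℝ)] with L hL
    rw [Real.rpow_one, Real.rpow_one]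
    have a1 : (0 : ℝ) < L + 2 := by linarith
    have a2 : 0 < (L + 2) ^ B := Real.rpow_pos_of_pos a1 _
    have a3 : 0 < L ^ B := Real.rpow_pos_of_pos hL _
    field_simp
  · refine h2.congr' ?_
    filter_upwards [eventually_gt_atTop (0 : ℝ)] with L hL
    rw [Real.rpow_one, Real.rpow_one]
    have a3 : 0 < L ^ B := Real.rpow_pos_of_pos hL _
    field_simp

lemma Yc_ev (B c : ℝ) (_hB : 0 < B) : ∀ᶠ L : ℝ in atTop, (Yc B c L : ℝ) ≤ 2 * L ^ B := by
  filter_upwards [ratio_ev B 2 (by norm_num), eventually_gt_atTop (0 : ℝ)] with L h1 hL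
  have a3 : 0 < L ^ B := Real.rpow_pos_of_pos hL _
  unfold Yc
  split_ifs
  · have := Nat.floor_le a3.le
    linarith
  · exact (Nat.floor_le (Real.rpow_nonneg (by linarith) _)).trans h1

lemma Yc_le_pow (B c : ℝ) (hB : 0 < B) (A : ℕ) (hA : B + 1 ≤ A) :
    ∀ᶠ L : ℝ in atTop, (Yc B c L : ℝ) ≤ L ^ A := by
  filter_upwards [Yc_ev B c hB, eventually_ge_atTop (2 : ℝ)] with L h1 hL
  have hL0 : 0 < L := by linarith
  calc (Yc B c L : ℝ) ≤ 2 * L ^ B := h1
    _ ≤ L * L ^ B := by
        have := Real.rpow_pos_of_pos hL0 B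
        nlinarith
    _ = L ^ (B + 1) := by rw [Real.rpow_add hL0, Real.rpow_one]; ring
    _ ≤ L ^ (A : ℝ) := Real.rpow_le_rpow_of_exponent_le (by linarith) hA
    _ = L ^ A := Real.rpow_natCast _ _

/-- pointwise comparison -/
lemma point (B c : ℝ) (hB : 0 < B) (X : ℝ) (hX : 40 ≤ X) (hL2 : 2 ≤ Real.log X)
    (hYX : (Yc B c (Real.log X) : ℝ) ≤ X) (n : ℕ) (h1 : X < n) (h2 : (n : ℝ) < 3 * X) :
    c * (ac B c (Real.log X) * thw n (Yc B c (Real.log X))) ≤ c * dens B n := by
  set L := Real.log X with hL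
  have hX0 : 0 < X := by linarith
  have hL0 : 0 < L := by linarith
  obtain ⟨l1, l2⟩ := G.log_bounds hX0 h1 h2
  rw [← hL] at l1 l2
  have hl0 : 0 < Real.log n := by linarith
  have hlB : 0 < (Real.log n) ^ B := Real.rpow_pos_of_pos hl0 _
  have hLB : 0 < L ^ B := Real.rpow_pos_of_pos hL0 _
  have hLB2 : 0 < (L + 2) ^ B := Real.rpow_pos_of_pos (by linarith) _
  have hd : dens B n = win B n * Real.log n / (Real.log n) ^ B := by
    unfold dens
    rw [Real.rpow_sub hl0, Real.rpow_one]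
    field_simp
  rw [hd]
  unfold Yc at hYX ⊢
  unfold ac
  by_cases hc : 0 ≤ c
  · rw [if_pos hc] at hYX
    rw [if_pos hc, if_pos hc]
    apply mul_le_mul_of_nonneg_left _ hc
    set Y := ⌊L ^ B⌋₊ with hY
    have w1 : (cnt n Y : ℝ) ≤ win B n := by
      exact_mod_cast win_ge B hB.le n Y L hL0.le l1 le_rfl
    have w2 : thw n Y ≤ Real.log (4 * X) * cnt n Y := thw_le n Y (4 * X) (by linarith) (by
      have : (0 : ℝ) < n := by linarith
      exact_mod_cast this)
    have w3 : Real.log (4 * X) ≤ L + 2 := by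
      rw [Real.log_mul (by norm_num) hX0.ne', ← hL]
      have : Real.log 4 ≤ 2 := by
        rw [show (4 : ℝ) = 2 ^ 2 by norm_num, Real.log_pow]
        have := Real.log_two_lt_d9
        push_cast; linarith
      linarith
    have hcn : (0 : ℝ) ≤ cnt n Y := Nat.cast_nonneg _
    have w4 : thw n Y ≤ (L + 2) * cnt n Y := w2.trans (mul_le_mul_of_nonneg_right w3 hcn)
    calc L / ((L + 2) * (L + 2) ^ B) * thw n Y ≤ L / ((L + 2) * (L + 2) ^ B) * ((L + 2) * cnt n Y) := by
          apply mul_le_mul_of_nonneg_left w4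
          positivity
      _ = cnt n Y * L / (L + 2) ^ B := by
          have : (0 : ℝ) < L + 2 := by linarith
          field_simp
      _ ≤ win B n * Real.log n / (Real.log n) ^ B := by
          apply div_le_div₀ (by positivity) (mul_le_mul w1 l1 hL0.le (Nat.cast_nonneg _)) hlB
          exact Real.rpow_le_rpow hl0.le l2 hB.le
  · rw [if_neg hc] at hYX
    rw [if_neg hc, if_neg hc]
    apply mul_le_mul_of_nonpos_left _ (not_le.1 hc).le
    set Y := ⌊(L + 2) ^ B⌋₊ with hY
    have w1 : (win B n : ℝ) ≤ cnt n Y := by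
      exact_mod_cast win_le B hB.le n Y (L + 2) hl0.le l2 le_rfl
    have w2 : L * cnt n Y ≤ thw n Y := thw_ge n Y X hX0 h1
    have hcn : (0 : ℝ) ≤ cnt n Y := Nat.cast_nonneg _
    calc win B n * Real.log n / (Real.log n) ^ B ≤ cnt n Y * (L + 2) / L ^ B := by
          apply div_le_div₀ (by positivity) (mul_le_mul w1 l2 hl0.le hcn) hLB
          exact Real.rpow_le_rpow hL0.le l1 hB.le
      _ = (L + 2) / (L * L ^ B) * (L * cnt n Y) := by field_simp
      _ ≤ (L + 2) / (L * L ^ B) * thw n Y := by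
          apply mul_le_mul_of_nonneg_left w2
          positivity

/-- **Transfer.** -/
theorem transfer {ι : Type*} (I : Finset ι) (B c : ι → ℝ) (hB : ∀ i ∈ I, 0 < B i) (K δ : ℝ) (hK : 1 ≤ K) (hδ : 0 < δ)
    (Z : ℕ) : ∃ κ : ℝ, 0 < κ ∧ ∃ X0 : ℝ, ∀ X : ℝ, X0 ≤ X →
    ∃ (ps : ℕ) (S : Finset ℕ), GoodP Z ps ∧ GoodS X S ∧
      ∀ P : Finset ℕ, P ⊆ PW X S ps → 1 / K ≤ BE P → ∀ T : ℝ, |T| ≤ K →
        T + δ ≤ (1 / BE P) * ∑ i ∈ I, c i *
          ((VV (∏ p ∈ P, p) 0 (Yc (B i) (c i) (Real.log X)) : ℝ) / (Real.log X) ^ B i) →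
        κ * (X / ((∏ p ∈ P, p : ℕ) * Real.log X)) ≤
          ((rowset X (fun n => T ≤ ∑ i ∈ I, c i * dens (B i) n)).card : ℝ) := by
  classical
  set C : ℝ := ∑ i ∈ I, |c i| + 1 with hC
  have hC1 : 1 ≤ C := by
    have : 0 ≤ ∑ i ∈ I, |c i| := Finset.sum_nonneg fun i _ => abs_nonneg _
    linarith
  set ε : ℝ := min (1 / 8) (δ / (64 * K * C)) with hε
  have hε0 : 0 < ε := by positivity
  have hε1 : ε ≤ 1 / 8 := min_le_left _ _
  have hε2 : 64 * K * C * ε ≤ δ := by
    have : ε ≤ δ / (64 * K * C) := min_le_right _ _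
    rw [le_div_iff₀ (by positivity)] at this
    linarith
  obtain ⟨A, hA⟩ : ∃ A : ℕ, ∀ i ∈ I, B i + 1 ≤ A := by
    obtain ⟨A, hA⟩ := exists_nat_ge (∑ i ∈ I, |B i| + 1)
    refine ⟨A, fun i hi => ?_⟩
    have h1 : |B i| ≤ ∑ i ∈ I, |B i| := Finset.single_le_sum (f := fun i => |B i|) (fun i _ => abs_nonneg _) hi
    have h2 := le_abs_self (B i)
    linarith
  obtain ⟨X1, hX1⟩ := rows_sumsA A ε hε0 (by linarith) Z
  have hlog : Tendsto Real.log atTop atTop := Real.tendsto_log_atTop
  have ev1 : ∀ᶠ L : ℝ in atTop, ∀ i ∈ I, |ac (B i) (c i) L * L ^ B i - 1| ≤ ε := by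
    rw [Filter.eventually_all_finset]
    intro i _
    have h1 := (ac_lim (B i) (c i)).eventually (Metric.ball_mem_nhds (1 : ℝ) hε0)
    filter_upwards [h1] with L hL
    have h2 := (Metric.mem_ball.1 hL).le
    rwa [Real.dist_eq] at h2
  have ev2 : ∀ᶠ L : ℝ in atTop, ∀ i ∈ I, (Yc (B i) (c i) L : ℝ) ≤ 2 * L ^ B i := by
    rw [Filter.eventually_all_finset]
    exact fun i hi => Yc_ev (B i) (c i) (hB i hi)
  have ev3 : ∀ᶠ L : ℝ in atTop, ∀ i ∈ I, (Yc (B i) (c i) L : ℝ) ≤ L ^ A := by
    rw [Filter.eventually_all_finset]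
    exact fun i hi => Yc_le_pow (B i) (c i) (hB i hi) A (hA i hi)
  have ev4 : ∀ᶠ L : ℝ in atTop, ∀ i ∈ I, 80 / ε ≤ L ^ B i := by
    rw [Filter.eventually_all_finset]
    exact fun i hi => (tendsto_rpow_atTop (hB i hi)).eventually_ge_atTop _
  have ev5 : ∀ᶠ X : ℝ in atTop, (Real.log X) ^ A ≤ X := by
    have h1 := (Real.isLittleO_pow_log_id_atTop (n := A)).bound (show (0 : ℝ) < 1 by norm_num)
    filter_upwards [h1, eventually_ge_atTop (1 : ℝ)] with X h2 h3
    rwa [Real.norm_of_nonneg (pow_nonneg (Real.log_nonneg h3) A), id, Real.norm_of_nonneg (by linarith),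
      one_mul] at h2
  have hev := (((hlog.eventually ev1).and (hlog.eventually ev2)).and ((hlog.eventually ev3).and
    (hlog.eventually ev4))).and ((ev5.and (eventually_ge_atTop X1)).and
    ((eventually_ge_atTop (40 : ℝ)).and (hlog.eventually_ge_atTop (2 : ℝ))))
  obtain ⟨X0, hX0⟩ := eventually_atTop.1 hev
  refine ⟨δ / (320 * (4 * C + K)), by positivity, X0, fun X hX => ?_⟩
  obtain ⟨⟨⟨g1, g2⟩, g3, g4⟩, ⟨g5, g6⟩, g7, g8⟩ := hX0 X hX
  obtain ⟨ps, S, hps, hS, hr⟩ := hX1 X g6
  refine ⟨ps, S, hps, hS, fun P hPW hBE T hTK hT => ?_⟩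
  set L := Real.log X with hL
  have hX0' : 0 < X := by linarith
  have hL0 : 0 < L := by linarith
  have hPp : ∀ p ∈ P, p.Prime := fun p hp => (mem_PW.1 (hPW hp)).2.1
  set W := ∏ p ∈ P, p with hW
  have hW0 : 0 < W := Finset.prod_pos fun p hp => (hPp p hp).pos
  have hWr : (0 : ℝ) < W := by exact_mod_cast hW0
  set b := BE P with hb
  have hb0 : 0 < b := BE_pos hPp
  have hφ : (W.totient : ℝ) = W * b := totient_prod _ hPp
  have hM1 := MPhi_ge X g7
  set M := MPhi X with hM
  have hM0 : 0 < M := by linarith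
  have hMW : 0 < M / W := by positivity
  have hMφ : M / W.totient = (M / W) * (1 / b) := by
    rw [hφ]; field_simp
  have hib0 : 0 < 1 / b := by positivity
  have hibK : 1 / b ≤ K := by
    rw [div_le_iff₀ (by linarith)] at hBE
    rw [div_le_iff₀ hb0]
    linarith
  -- abbreviations
  set Y : ι → ℕ := fun i => Yc (B i) (c i) L with hY
  set a : ι → ℝ := fun i => ac (B i) (c i) L with ha
  set V : ι → ℝ := fun i => (VV W 0 (Y i) : ℝ) with hV
  have ha0 : ∀ i, 0 < a i := fun i => ac_pos _ _ _ hL0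
  have hLB : ∀ i, 0 < L ^ B i := fun i => Real.rpow_pos_of_pos hL0 _
  have hV0 : ∀ i, 0 ≤ V i := fun i => Nat.cast_nonneg _
  have hVY : ∀ i, V i ≤ Y i := fun i => by
    simp only [hV]
    exact_mod_cast VV_le W 0 (Y i)
  -- the sums over the rows
  have hrow : ∀ i ∈ I, |∑ n ∈ Icc 1 ⌊3 * X⌋₊, nu X W 0 n * thw n (Y i) - V i * ((M / W) * (1 / b))| ≤
      (ε / 4 * V i + 40) * ((M / W) * (1 / b)) := by
    intro i hi
    obtain ⟨r1, r2, -, -⟩ := hr P hPW 0 (Y i) (g3 i hi)
    rw [hMφ] at r1 r2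
    rw [abs_le]
    constructor
    · linarith
    · linarith
  obtain ⟨-, -, r3, r4⟩ := hr P hPW 0 0 (by simp; positivity)
  set N := ∑ n ∈ Icc 1 ⌊3 * X⌋₊, nu X W 0 n with hN
  set F : ℕ → ℝ := fun n => ∑ i ∈ I, c i * (a i * thw n (Y i)) with hF
  -- the mean of F
  have hmean : (M / W) * (T + δ / 2) ≤ ∑ n ∈ Icc 1 ⌊3 * X⌋₊, nu X W 0 n * F n := by
    have e1 : ∑ n ∈ Icc 1 ⌊3 * X⌋₊, nu X W 0 n * F n =
        ∑ i ∈ I, c i * (a i * ∑ n ∈ Icc 1 ⌊3 * X⌋₊, nu X W 0 n * thw n (Y i)) := by
      simp only [hF, Finset.mul_sum]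
      rw [Finset.sum_comm]
      refine Finset.sum_congr rfl fun i _ => Finset.sum_congr rfl fun n _ => ?_
      ring
    have e2 : ∀ i ∈ I, |c i * (a i * ∑ n ∈ Icc 1 ⌊3 * X⌋₊, nu X W 0 n * thw n (Y i)) -
        ((M / W) * (1 / b)) * (c i * (V i / L ^ B i))| ≤ |c i| * (4 * ε) * ((M / W) * (1 / b)) := by
      intro i hi
      have f1 : c i * (a i * ∑ n ∈ Icc 1 ⌊3 * X⌋₊, nu X W 0 n * thw n (Y i)) -
          ((M / W) * (1 / b)) * (c i * (V i / L ^ B i)) =
          c i * (a i * (∑ n ∈ Icc 1 ⌊3 * X⌋₊, nu X W 0 n * thw n (Y i) - V i * ((M / W) * (1 / b))) +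
            (a i * L ^ B i - 1) * (V i / L ^ B i) * ((M / W) * (1 / b))) := by
        have := (hLB i).ne'
        field_simp
        ring
      rw [f1, abs_mul, mul_assoc (|c i|)]
      apply mul_le_mul_of_nonneg_left _ (abs_nonneg _)
      have hv2 : V i / L ^ B i ≤ 2 := by
        rw [div_le_iff₀ (hLB i)]
        exact (hVY i).trans (g2 i hi)
      have hv0 : 0 ≤ V i / L ^ B i := div_nonneg (hV0 i) (hLB i).le
      have haL : a i * L ^ B i ≤ 1 + ε := by
        have := (abs_le.1 (g1 i hi)).2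
        linarith
      have haV : a i * V i ≤ 9 / 4 := by
        calc a i * V i = (a i * L ^ B i) * (V i / L ^ B i) := by
              have := (hLB i).ne'
              field_simp
          _ ≤ (1 + ε) * 2 := mul_le_mul haL hv2 hv0 (by linarith)
          _ ≤ 9 / 4 := by linarith
      have ha40 : a i * 40 ≤ ε * (9 / 16) := by
        have h5 := g4 i hi
        rw [div_le_iff₀ hε0] at h5
        have h6 : a i * 80 ≤ a i * (L ^ B i * ε) := mul_le_mul_of_nonneg_left h5 (ha0 i).le
        have h7 : a i * (L ^ B i * ε) ≤ (9 / 8) * ε := by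
          calc a i * (L ^ B i * ε) = (a i * L ^ B i) * ε := by ring
            _ ≤ (9 / 8) * ε := by
              apply mul_le_mul_of_nonneg_right _ hε0.le
              linarith
        linarith
      have hG : 0 < (M / W) * (1 / b) := by positivity
      calc |a i * (∑ n ∈ Icc 1 ⌊3 * X⌋₊, nu X W 0 n * thw n (Y i) - V i * ((M / W) * (1 / b))) +
            (a i * L ^ B i - 1) * (V i / L ^ B i) * ((M / W) * (1 / b))|
          ≤ |a i * (∑ n ∈ Icc 1 ⌊3 * X⌋₊, nu X W 0 n * thw n (Y i) - V i * ((M / W) * (1 / b)))| +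
            |(a i * L ^ B i - 1) * (V i / L ^ B i) * ((M / W) * (1 / b))| := abs_add_le _ _
        _ ≤ a i * ((ε / 4 * V i + 40) * ((M / W) * (1 / b))) + ε * 2 * ((M / W) * (1 / b)) := by
            apply add_le_add
            · rw [abs_mul, abs_of_pos (ha0 i)]
              exact mul_le_mul_of_nonneg_left (hrow i hi) (ha0 i).le
            · rw [abs_mul, abs_mul, abs_of_pos hG, abs_of_nonneg hv0]
              apply mul_le_mul_of_nonneg_right _ hG.le
              exact mul_le_mul (g1 i hi) hv2 hv0 hε0.le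
        _ = (ε / 4 * (a i * V i) + a i * 40 + 2 * ε) * ((M / W) * (1 / b)) := by ring
        _ ≤ 4 * ε * ((M / W) * (1 / b)) := by
            apply mul_le_mul_of_nonneg_right _ hG.le
            nlinarith
    have e3 : |∑ i ∈ I, c i * (a i * ∑ n ∈ Icc 1 ⌊3 * X⌋₊, nu X W 0 n * thw n (Y i)) -
        ((M / W) * (1 / b)) * ∑ i ∈ I, c i * (V i / L ^ B i)| ≤ C * (4 * ε) * ((M / W) * (1 / b)) := by
      rw [Finset.mul_sum, ← Finset.sum_sub_distrib]
      refine (Finset.abs_sum_le_sum_abs _ _).trans ((Finset.sum_le_sum e2).trans ?_)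
      rw [← Finset.sum_mul, ← Finset.sum_mul]
      apply mul_le_mul_of_nonneg_right _ (by positivity)
      apply mul_le_mul_of_nonneg_right _ (by positivity)
      rw [hC]; linarith
    have e4 := (abs_le.1 e3).1
    have e5 : (M / W) * (T + δ) ≤ ((M / W) * (1 / b)) * ∑ i ∈ I, c i * (V i / L ^ B i) := by
      rw [mul_assoc]
      exact mul_le_mul_of_nonneg_left hT hMW.le
    have e6 : C * (4 * ε) * ((M / W) * (1 / b)) ≤ (M / W) * (δ / 16) := by
      have : C * (4 * ε) * (1 / b) ≤ δ / 16 := by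
        calc C * (4 * ε) * (1 / b) ≤ C * (4 * ε) * K := by gcongr
          _ = (64 * K * C * ε) / 16 := by ring
          _ ≤ δ / 16 := by gcongr
      calc C * (4 * ε) * ((M / W) * (1 / b)) = (M / W) * (C * (4 * ε) * (1 / b)) := by ring
        _ ≤ _ := mul_le_mul_of_nonneg_left this hMW.le
    rw [e1]
    have e7 : (M / W) * (T + δ / 2) = (M / W) * (T + δ) - (M / W) * (δ / 2) := by ring
    have e8 : (M / W) * (δ / 16) ≤ (M / W) * (δ / 2) := mul_le_mul_of_nonneg_left (by linarith) hMW.le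
    linarith
  -- the weights
  have hTN : T * N ≤ (M / W) * (T + δ / 4) := by
    have hTa := abs_le.1 hTK
    have h1 : |N - M / W| ≤ ε * (M / W) := by
      rw [abs_le]
      constructor
      · nlinarith
      · nlinarith
    have h2 : T * N = T * (M / W) + T * (N - M / W) := by ring
    have h3 : T * (N - M / W) ≤ K * (ε * (M / W)) := by
      calc T * (N - M / W) ≤ |T * (N - M / W)| := le_abs_self _
        _ = |T| * |N - M / W| := abs_mul _ _
        _ ≤ K * (ε * (M / W)) := mul_le_mul hTK h1 (abs_nonneg _) (by linarith)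
    have h4 : K * ε ≤ δ / 4 := by
      have h5 : 64 * K * ε ≤ 64 * K * C * ε := by
        have : 64 * K * ε * 1 ≤ 64 * K * ε * C := mul_le_mul_of_nonneg_left hC1 (by positivity)
        linarith
      have h6 : 0 ≤ K * ε := by positivity
      linarith
    rw [h2]
    calc T * (M / W) + T * (N - M / W) ≤ T * (M / W) + K * (ε * (M / W)) := by linarith
      _ = T * (M / W) + (K * ε) * (M / W) := by ring
      _ ≤ T * (M / W) + (δ / 4) * (M / W) := by gcongr
      _ = _ := by ring
  have hdiff : (M / W) * (δ / 4) ≤ ∑ n ∈ Icc 1 ⌊3 * X⌋₊, nu X W 0 n * (F n - T) := by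
    have : ∑ n ∈ Icc 1 ⌊3 * X⌋₊, nu X W 0 n * (F n - T) =
        ∑ n ∈ Icc 1 ⌊3 * X⌋₊, nu X W 0 n * F n - T * N := by
      rw [hN, Finset.mul_sum, ← Finset.sum_sub_distrib]
      exact Finset.sum_congr rfl fun n _ => by ring
    rw [this]
    have e7 : (M / W) * (δ / 4) = (M / W) * (T + δ / 2) - (M / W) * (T + δ / 4) := by ring
    linarith
  rw [rowset_sum X hX0' W 0 (fun n => T ≤ F n) (fun n => F n - T)] at hdiff
  have hneg : ∑ n ∈ rowset X (fun n => ¬ T ≤ F n), nu X W 0 n * (F n - T) ≤ 0 := by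
    apply Finset.sum_nonpos
    intro n hn
    have h1 := (mem_rowset.1 hn).2.2.2
    apply mul_nonpos_of_nonneg_of_nonpos (nu_nonneg _ _ _ _)
    linarith [not_le.1 h1]
  have hbound : ∀ n ∈ rowset X (fun n => T ≤ F n), nu X W 0 n * (F n - T) ≤ (4 * C + K) * (2 * L) := by
    intro n hn
    obtain ⟨-, m2, m3, m4⟩ := mem_rowset.1 hn
    have hFT : 0 ≤ F n - T := by
      have : T ≤ F n := m4
      linarith
    have hnu1 : nu X W 0 n ≤ 1 := by
      unfold nu
      split_ifs
      · exact Phi_le_one _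
      · norm_num
    have hth : ∀ i ∈ I, thw n (Y i) ≤ Y i * (2 * L) := by
      intro i hi
      have hYX : (Y i : ℝ) ≤ X := (g3 i hi).trans g5
      unfold thw
      calc ∑ h ∈ Icc 1 (Y i), th (n + h) ≤ ∑ _h ∈ Icc 1 (Y i), 2 * L := by
            apply Finset.sum_le_sum
            intro h hh
            unfold th
            split_ifs
            · have hhY : (h : ℝ) ≤ Y i := by exact_mod_cast (Finset.mem_Icc.1 hh).2
              have h1 : Real.log ((n + h : ℕ) : ℝ) ≤ Real.log (4 * X) := by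
                apply Real.log_le_log
                · have : (0 : ℝ) < n := by linarith
                  push_cast
                  positivity
                · push_cast
                  linarith
              refine h1.trans ?_
              rw [Real.log_mul (by norm_num) hX0'.ne', ← hL]
              have : Real.log 4 ≤ 2 := by
                rw [show (4 : ℝ) = 2 ^ 2 by norm_num, Real.log_pow]
                have := Real.log_two_lt_d9
                push_cast; linarith
              linarith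
            · linarith
        _ = Y i * (2 * L) := by
            rw [Finset.sum_const, Nat.card_Icc, nsmul_eq_mul]
            simp
    have hF1 : F n ≤ C * (4 * (2 * L)) := by
      have h1 : F n ≤ ∑ i ∈ I, |c i| * (4 * (2 * L)) := by
        simp only [hF]
        apply Finset.sum_le_sum
        intro i hi
        have h2 : a i * thw n (Y i) ≤ 4 * (2 * L) := by
          have h3 : a i * (Y i : ℝ) ≤ 4 := by
            have haL : a i * L ^ B i ≤ 1 + ε := by
              have := (abs_le.1 (g1 i hi)).2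
              linarith
            calc a i * (Y i : ℝ) ≤ a i * (2 * L ^ B i) := mul_le_mul_of_nonneg_left (g2 i hi) (ha0 i).le
              _ = 2 * (a i * L ^ B i) := by ring
              _ ≤ 4 := by linarith
          calc a i * thw n (Y i) ≤ a i * (Y i * (2 * L)) := mul_le_mul_of_nonneg_left (hth i hi) (ha0 i).le
            _ = (a i * Y i) * (2 * L) := by ring
            _ ≤ 4 * (2 * L) := mul_le_mul_of_nonneg_right h3 (by linarith)
        have h4 : 0 ≤ a i * thw n (Y i) := mul_nonneg (ha0 i).le (thw_nonneg _ _)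
        calc c i * (a i * thw n (Y i)) ≤ |c i| * (a i * thw n (Y i)) :=
              mul_le_mul_of_nonneg_right (le_abs_self _) h4
          _ ≤ |c i| * (4 * (2 * L)) := mul_le_mul_of_nonneg_left h2 (abs_nonneg _)
      refine h1.trans ?_
      rw [← Finset.sum_mul]
      apply mul_le_mul_of_nonneg_right _ (by positivity)
      rw [hC]; linarith
    have hT1 : -T ≤ K * (2 * L) := by
      have h1 : -T ≤ K := (neg_le_abs T).trans hTK
      have h2 : K * 1 ≤ K * (2 * L) := mul_le_mul_of_nonneg_left (by linarith) (by linarith)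
      linarith
    calc nu X W 0 n * (F n - T) ≤ 1 * (F n - T) := mul_le_mul_of_nonneg_right hnu1 hFT
      _ ≤ (4 * C + K) * (2 * L) := by linarith
  have hcard1 : (M / W) * (δ / 4) ≤ ((rowset X (fun n => T ≤ F n)).card : ℝ) * ((4 * C + K) * (2 * L)) := by
    have h1 : ∑ n ∈ rowset X (fun n => T ≤ F n), nu X W 0 n * (F n - T) ≤
        ((rowset X (fun n => T ≤ F n)).card : ℝ) * ((4 * C + K) * (2 * L)) := by
      rw [← nsmul_eq_mul]
      exact Finset.sum_le_card_nsmul _ _ _ hbound
    linarith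
  have hsub : rowset X (fun n => T ≤ F n) ⊆ rowset X (fun n => T ≤ ∑ i ∈ I, c i * dens (B i) n) := by
    intro n hn
    obtain ⟨m1, m2, m3, m4⟩ := mem_rowset.1 hn
    refine mem_rowset.2 ⟨m1, m2, m3, ?_⟩
    have h1 : T ≤ F n := m4
    refine h1.trans ?_
    simp only [hF]
    apply Finset.sum_le_sum
    intro i hi
    exact point (B i) (c i) (hB i hi) X g7 g8 ((g3 i hi).trans g5) n m2 m3
  have hcard2 : ((rowset X (fun n => T ≤ F n)).card : ℝ) ≤
      ((rowset X (fun n => T ≤ ∑ i ∈ I, c i * dens (B i) n)).card : ℝ) := by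
    exact_mod_cast Finset.card_le_card hsub
  refine le_trans ?_ hcard2
  have hCK : 0 < 4 * C + K := by positivity
  have h1 : X / 20 / W * (δ / 4) ≤ ((rowset X (fun n => T ≤ F n)).card : ℝ) * ((4 * C + K) * (2 * L)) := by
    refine le_trans ?_ hcard1
    gcongr
  have h2 : δ / (320 * (4 * C + K)) * (X / (W * L)) = (X / 20 / W * (δ / 4)) / ((4 * C + K) * (2 * L)) / 2 := by
    field_simp
    ring
  rw [h2]
  have h3 : (X / 20 / W * (δ / 4)) / ((4 * C + K) * (2 * L)) ≤ ((rowset X (fun n => T ≤ F n)).card : ℝ) := by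
    rw [div_le_iff₀ (by positivity)]
    exact h1
  have h4 : 0 ≤ (X / 20 / W * (δ / 4)) / ((4 * C + K) * (2 * L)) := by positivity
  linarith

end Pool.Agent.X30.MT
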