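import Mathlib
import Pool.Agent.X30.MaierT

/-! # Comparison of the scales (helper30)

`block`: for primes in `((log X)^a, (log X)^b]` the truncated inclusion-exclusion at every scale. -/

set_option autoImplicit false

open Finset Filter Topology
open Pool.Agent.H378R2 Pool.Agent.H510R2.Maier Pool.Agent.X30.MR Pool.Agent.X30.MG Pool.Agent.X30.MH
open Pool.Agent.X30.MI Pool.Agent.X30.MT

namespace Pool.Agent.X30.MV

open Pool.Agent.X30.MF in
theorem F_upper (x : ℕ → ℝ) (P : Finset ℕ) (h0 : ∀ p ∈ P, 0 ≤ x p) (h1 : ∀ p ∈ P, x p ≤ 1) :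
    ∀ k, F x P k ≤ (∑ p ∈ P, x p) ^ (k + 1) := by
  classical
  induction P using Finset.induction_on with
  | empty =>
    intro k
    have h2 : F x ∅ k = 0 := by
      cases k with
      | zero => rw [F_zero]; simp
      | succ k =>
        unfold F E
        have : (∅ : Finset ℕ).powerset.filter (fun s => s.card ≤ k + 1) = {∅} := by
          ext s
          simp only [Finset.powerset_empty, Finset.mem_filter, Finset.mem_singleton]
          constructor
          · rintro ⟨h, _⟩; exact h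
          · rintro rfl; simp
        rw [this]
        simp
    rw [h2, Finset.sum_empty]
    positivity
  | insert y P hy ih =>
    have h0' : ∀ p ∈ P, 0 ≤ x p := fun p hp => h0 p (Finset.mem_insert_of_mem hp)
    have ih' := ih h0' (fun p hp => h1 p (Finset.mem_insert_of_mem hp))
    have hs : 0 ≤ ∑ p ∈ P, x p := Finset.sum_nonneg h0'
    have hxy : 0 ≤ x y := h0 y (Finset.mem_insert_self _ _)
    intro k
    rw [Finset.sum_insert hy]
    cases k with
    | zero =>
      rw [F_zero, zero_add, pow_one, Finset.prod_insert hy]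
      have h3 := ih' 0
      rw [F_zero, zero_add, pow_one] at h3
      have h4 : ∏ p ∈ P, (1 - x p) ≤ 1 := prod_le_one' x P h0' (fun p hp => h1 p (Finset.mem_insert_of_mem hp))
      nlinarith
    | succ k =>
      rw [F_insert x P y hy]
      have h3 := ih' (k + 1)
      have h4 := ih' k
      have h5 : (∑ p ∈ P, x p) ^ (k + 1 + 1) + x y * (∑ p ∈ P, x p) ^ (k + 1) =
          (x y + ∑ p ∈ P, x p) * (∑ p ∈ P, x p) ^ (k + 1) := by ring
      calc F x P (k + 1) + x y * F x P k ≤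
          (∑ p ∈ P, x p) ^ (k + 1 + 1) + x y * (∑ p ∈ P, x p) ^ (k + 1) :=
            add_le_add h3 (mul_le_mul_of_nonneg_left h4 hxy)
        _ = (x y + ∑ p ∈ P, x p) * (∑ p ∈ P, x p) ^ (k + 1) := h5
        _ ≤ (x y + ∑ p ∈ P, x p) * (x y + ∑ p ∈ P, x p) ^ (k + 1) := by
            apply mul_le_mul_of_nonneg_left _ (by positivity)
            exact pow_le_pow_left₀ hs (by linarith) _
        _ = _ := by ring

/-- the number of primes in the block and the sum of their inverses -/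
theorem block_sum (a b : ℝ) (ha : 0 < a) (hab : a < b) (hb : b < 1) :
    ∀ᶠ X : ℝ in atTop, ∀ (S : Finset ℕ) (ps : ℕ), GoodS X S →
      Real.log (b / a) / 2 ≤ ∑ p ∈ PR X S ps ⌊(Real.log X) ^ a⌋₊ ⌊(Real.log X) ^ b⌋₊, (1 : ℝ) / p ∧
      ∑ p ∈ PR X S ps ⌊(Real.log X) ^ a⌋₊ ⌊(Real.log X) ^ b⌋₊, (1 : ℝ) / p ≤ 2 * Real.log (b / a) := by
  classical
  set lr := Real.log (b / a) with hlr
  have hlr0 : 0 < lr := Real.log_pos (by rw [one_lt_div ha]; exact hab)
  have hb0 : 0 < b := ha.trans hab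
  have hlog : Tendsto Real.log atTop atTop := Real.tendsto_log_atTop
  have e1 := (R1pow a b ha hb0).eventually_const_lt (show 3 / 4 * lr < Real.log (b / a) by
    rw [← hlr]; linarith)
  have e2 := (R1pow a b ha hb0).eventually_lt_const (show Real.log (b / a) < 2 * lr by
    rw [← hlr]; linarith)
  have e3 := (tendsto_rpow_atTop ha).eventually_ge_atTop (8 / lr)
  have e4 : ∀ᶠ L : ℝ in atTop, 6 / (Real.log L) ^ 2 ≤ lr / 8 := by
    have h1 : Tendsto (fun L : ℝ => 6 / (Real.log L) ^ 2) atTop (𝓝 0) := by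
      apply Tendsto.div_atTop tendsto_const_nhds
      exact (tendsto_pow_atTop (by norm_num)).comp Real.tendsto_log_atTop
    exact (h1.eventually_lt_const (by positivity)).mono fun L h => h.le
  have e5 : ∀ᶠ L : ℝ in atTop, L ^ b ≤ L / 1000 := by
    have h1 := (tendsto_rpow_atTop (show (0 : ℝ) < 1 - b by linarith)).eventually_ge_atTop (1000 : ℝ)
    filter_upwards [h1, eventually_gt_atTop (0 : ℝ)] with L h2 hL0
    have h5 : L = L ^ b * L ^ (1 - b) := by
      rw [← Real.rpow_add hL0]; simp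
    have h6 : 0 < L ^ b := Real.rpow_pos_of_pos hL0 _
    rw [le_div_iff₀ (by norm_num)]
    calc L ^ b * 1000 ≤ L ^ b * L ^ (1 - b) := by gcongr
      _ = L := h5.symm
  filter_upwards [hlog.eventually e1, hlog.eventually e2, hlog.eventually e3, hlog.eventually e4,
    hlog.eventually e5, hlog.eventually_ge_atTop (1 : ℝ)] with X g1 g2 g3 g4 g5 g6
  intro S ps hS
  set L := Real.log X with hL
  set a' := ⌊L ^ a⌋₊ with ha'
  set b' := ⌊L ^ b⌋₊ with hb'
  set P := PR X S ps a' b' with hP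
  have hab' : a' ≤ b' := Nat.floor_le_floor (Real.rpow_le_rpow_of_exponent_le g6 hab.le)
  have hby : b' ≤ yy X := Nat.floor_le_floor g5
  have hsmall : ∀ p : ℕ, a' < p → (1 : ℝ) / p ≤ lr / 8 := by
    intro p hp
    have h1 : (a' : ℝ) + 1 ≤ p := by exact_mod_cast hp
    have hay : L ^ a < (a' : ℝ) + 1 := Nat.lt_floor_add_one _
    have h2 : 0 < 8 / lr := by positivity
    have h4 : 8 / lr ≤ p := by linarith
    have hp0 : (0 : ℝ) < p := by linarith
    rw [div_le_iff₀ hp0]
    rw [div_le_iff₀ hlr0] at h4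
    linarith
  have hsub : P ⊆ PI a' b' := by
    intro p hp
    have h1 := Finset.mem_filter.1 hp
    exact mem_PI.2 ⟨h1.2, (mem_PW.1 h1.1).2.1⟩
  constructor
  · have h1 : ∑ p ∈ PI a' b', (1 : ℝ) / p ≤ ∑ p ∈ P, (1 : ℝ) / p + ∑ p ∈ S, (1 : ℝ) / p + lr / 8 := by
      have h2 : PI a' b' ⊆ (P ∪ S) ∪ ((PI a' b').filter (fun p => p = ps)) := by
        intro p hp
        rw [Finset.mem_union, Finset.mem_union, Finset.mem_filter]
        by_cases h3 : p ∈ S
        · exact Or.inl (Or.inr h3)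
        by_cases h4 : p = ps
        · exact Or.inr ⟨hp, h4⟩
        left; left
        have h5 := mem_PI.1 hp
        refine Finset.mem_filter.2 ⟨mem_PW.2 ⟨h5.1.2.trans hby, h5.2, h3, h4⟩, h5.1⟩
      have h3 : ∑ p ∈ (PI a' b').filter (fun p => p = ps), (1 : ℝ) / p ≤ lr / 8 := by
        by_cases h4 : ps ∈ PI a' b'
        · have : (PI a' b').filter (fun p => p = ps) = {ps} := by
            ext q
            rw [Finset.mem_filter, Finset.mem_singleton]
            constructor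
            · rintro ⟨_, h⟩; exact h
            · rintro rfl; exact ⟨h4, rfl⟩
          rw [this, Finset.sum_singleton]
          exact hsmall ps (mem_PI.1 h4).1.1
        · have : (PI a' b').filter (fun p => p = ps) = ∅ := by
            rw [Finset.eq_empty_iff_forall_notMem]
            intro q hq
            rw [Finset.mem_filter] at hq
            exact h4 (hq.2 ▸ hq.1)
          rw [this, Finset.sum_empty]
          positivity
      calc ∑ p ∈ PI a' b', (1 : ℝ) / p ≤ ∑ p ∈ (P ∪ S) ∪ ((PI a' b').filter (fun p => p = ps)), (1 : ℝ) / p :=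
            Finset.sum_le_sum_of_subset_of_nonneg h2 (fun p _ _ => by positivity)
        _ ≤ ∑ p ∈ P ∪ S, (1 : ℝ) / p + ∑ p ∈ (PI a' b').filter (fun p => p = ps), (1 : ℝ) / p := by
            rw [← Finset.sum_union_inter]
            have : 0 ≤ ∑ p ∈ (P ∪ S) ∩ ((PI a' b').filter (fun p => p = ps)), (1 : ℝ) / p :=
              Finset.sum_nonneg fun p _ => by positivity
            linarith
        _ ≤ (∑ p ∈ P, (1 : ℝ) / p + ∑ p ∈ S, (1 : ℝ) / p) + lr / 8 := by
            apply add_le_add _ h3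
            rw [← Finset.sum_union_inter]
            have : 0 ≤ ∑ p ∈ P ∩ S, (1 : ℝ) / p := Finset.sum_nonneg fun p _ => by positivity
            linarith
        _ = _ := by ring
    rw [sum_PI_inv hab'] at h1
    have h2 := hS.2.trans g4
    linarith
  · refine (Finset.sum_le_sum_of_subset_of_nonneg hsub (fun p _ _ => by positivity)).trans ?_
    rw [sum_PI_inv hab']
    exact g2.le

/-- `Yc / L ^ B` tends to `1` -/
lemma Yc_lim (B c : ℝ) (hB : 0 < B) : Tendsto (fun L : ℝ => (Yc B c L : ℝ) / L ^ B) atTop (𝓝 1) := by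
  have h0 : Tendsto (fun L : ℝ => (1 : ℝ) - 1 / L ^ B) atTop (𝓝 1) := by
    have h1 : Tendsto (fun L : ℝ => 1 / L ^ B) atTop (𝓝 0) :=
      Tendsto.div_atTop tendsto_const_nhds (tendsto_rpow_atTop hB)
    simpa using h1.const_sub 1
  have h2 := ratio_one B
  refine tendsto_of_tendsto_of_tendsto_of_le_of_le' h0 h2 ?_ ?_
  · filter_upwards [eventually_gt_atTop (0 : ℝ)] with L hL
    have a3 : 0 < L ^ B := Real.rpow_pos_of_pos hL _
    have a4 : L ^ B ≤ (L + 2) ^ B := Real.rpow_le_rpow hL.le (by linarith) hB.le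
    rw [le_div_iff₀ a3]
    have e : (1 - 1 / L ^ B) * L ^ B = L ^ B - 1 := by field_simp
    rw [e]
    unfold Yc
    split_ifs
    · exact (Nat.sub_one_lt_floor _).le
    · have := Nat.sub_one_lt_floor ((L + 2) ^ B)
      linarith
  · filter_upwards [eventually_gt_atTop (0 : ℝ)] with L hL
    have a3 : 0 < L ^ B := Real.rpow_pos_of_pos hL _
    have a4 : L ^ B ≤ (L + 2) ^ B := Real.rpow_le_rpow hL.le (by linarith) hB.le
    apply div_le_div_of_nonneg_right _ a3.le
    unfold Yc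
    split_ifs
    · exact (Nat.floor_le a3.le).trans a4
    · exact Nat.floor_le (by positivity)

/-- one scale -/
theorem one_scale (a b B c : ℝ) (k : ℕ) (ha : 0 < a) (hab : a < b) (hb : b < 1) (hB : 0 < B) (hk1 : k * b < B)
    (hk2 : B < (k + 1) * a) (hl : 2 * Real.log (b / a) ≤ 1) (η : ℝ) (hη : 0 < η) :
    ∀ᶠ X : ℝ in atTop, ∀ (S : Finset ℕ) (ps : ℕ), GoodS X S →
      |(VV (∏ p ∈ PR X S ps ⌊(Real.log X) ^ a⌋₊ ⌊(Real.log X) ^ b⌋₊, p) 0 (Yc B c (Real.log X)) : ℝ) /
          (Real.log X) ^ B -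
        Pool.Agent.X30.MF.E (fun p : ℕ => 1 / (p : ℝ))
          (PR X S ps ⌊(Real.log X) ^ a⌋₊ ⌊(Real.log X) ^ b⌋₊) k| ≤ η := by
  classical
  have hlog : Tendsto Real.log atTop atTop := Real.tendsto_log_atTop
  have hb0 : 0 < b := ha.trans hab
  have e1 : ∀ᶠ L : ℝ in atTop, |(Yc B c L : ℝ) / L ^ B - 1| ≤ η / 4 := by
    have h1 := (Yc_lim B c hB).eventually (Metric.ball_mem_nhds (1 : ℝ) (show 0 < η / 4 by positivity))
    filter_upwards [h1] with L hL
    have h2 := (Metric.mem_ball.1 hL).le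
    rwa [Real.dist_eq] at h2
  have e2 : ∀ᶠ L : ℝ in atTop, (Yc B c L : ℝ) ≤ 2 * L ^ B := Yc_ev B c hB
  have e3 : ∀ᶠ L : ℝ in atTop, 2 * L ^ B ≤ L ^ ((k + 1) * a) := by
    have h1 := (tendsto_rpow_atTop (show 0 < (k + 1) * a - B by linarith)).eventually_ge_atTop (2 : ℝ)
    filter_upwards [h1, eventually_gt_atTop (0 : ℝ)] with L h2 hL0
    have h5 : L ^ ((k + 1) * a) = L ^ B * L ^ ((k + 1) * a - B) := by
      rw [← Real.rpow_add hL0]; congr 1; ring
    rw [h5]
    have h6 : 0 < L ^ B := Real.rpow_pos_of_pos hL0 _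
    calc 2 * L ^ B = L ^ B * 2 := by ring
      _ ≤ _ := by gcongr
  have e4 : ∀ᶠ L : ℝ in atTop, L ^ (k * b) ≤ η / 4 * L ^ B := by
    have h1 := (tendsto_rpow_atTop (show 0 < B - k * b by linarith)).eventually_ge_atTop (4 / η)
    filter_upwards [h1, eventually_gt_atTop (0 : ℝ)] with L h2 hL0
    have h5 : L ^ B = L ^ (k * b) * L ^ (B - k * b) := by
      rw [← Real.rpow_add hL0]; congr 1; ring
    rw [h5]
    have h6 : 0 < L ^ (k * b) := Real.rpow_pos_of_pos hL0 _
    calc L ^ (k * b) = η / 4 * (L ^ (k * b) * (4 / η)) := by field_simp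
      _ ≤ _ := by gcongr
  filter_upwards [hlog.eventually e1, hlog.eventually e2, hlog.eventually e3, hlog.eventually e4,
    block_sum a b ha hab hb, hlog.eventually_ge_atTop (1 : ℝ)] with X g1 g2 g3 g4 g5 g6
  intro S ps hS
  obtain ⟨-, s2⟩ := g5 S ps hS
  set L := Real.log X with hL
  have hL0 : 0 < L := by linarith
  set a' := ⌊L ^ a⌋₊ with ha'
  set b' := ⌊L ^ b⌋₊ with hb'
  set P := PR X S ps a' b' with hP
  set Y := Yc B c L with hY
  have hb1 : 1 ≤ b' := by
    rw [hb']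
    apply Nat.le_floor
    rw [Nat.cast_one]
    exact Real.one_le_rpow g6 hb0.le
  have hPp : ∀ p ∈ P, p.Prime := fun p hp => (mem_PW.1 (Finset.mem_filter.1 hp).1).2.1
  have hPa : ∀ p ∈ P, a' < p := fun p hp => (Finset.mem_filter.1 hp).2.1
  have hPb : ∀ p ∈ P, p ≤ b' := fun p hp => (Finset.mem_filter.1 hp).2.2
  have hPY : ∀ p ∈ P, L ^ a < p := by
    intro p hp
    have hay : L ^ a < (a' : ℝ) + 1 := Nat.lt_floor_add_one _
    have h1 : (a' : ℝ) + 1 ≤ p := by exact_mod_cast hPa p hp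
    linarith
  have hx0 : ∀ p ∈ P, (0 : ℝ) ≤ 1 / (p : ℝ) := fun p _ => by positivity
  have hx1 : ∀ p ∈ P, (1 : ℝ) / (p : ℝ) ≤ 1 := by
    intro p hp
    have : (1 : ℝ) ≤ p := by exact_mod_cast (hPp p hp).one_lt.le
    rw [div_le_one (by linarith)]
    exact this
  have hprodk : ∀ s, s ⊆ P → s.card = k + 1 → Y < ∏ p ∈ s, p := by
    intro s hs hsc
    have h1 : (L ^ a) ^ (k + 1) < ((∏ p ∈ s, p : ℕ) : ℝ) := by
      push_cast
      rw [← hsc, ← Finset.prod_const]
      apply Finset.prod_lt_prod_of_nonempty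
      · intro p _
        exact Real.rpow_pos_of_pos hL0 _
      · intro p hp
        exact hPY p (hs hp)
      · rw [← Finset.card_pos, hsc]; omega
    have h2 : (L ^ a) ^ (k + 1) = L ^ ((k + 1) * a) := by
      rw [← Real.rpow_natCast, ← Real.rpow_mul hL0.le]
      congr 1; push_cast; ring
    rw [h2] at h1
    have h3 : (Y : ℝ) < ((∏ p ∈ s, p : ℕ) : ℝ) := by linarith
    exact_mod_cast h3
  have hcnt := Pool.Agent.X30.MF.count_approx P hPp Y k b' hPb hb1 hprodk
  rw [← VV_eq P hPp Y] at hcnt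
  set V : ℝ := (VV (∏ p ∈ P, p) 0 Y : ℝ) with hV
  set E := Pool.Agent.X30.MF.E (fun p : ℕ => 1 / (p : ℝ)) P k with hE
  have hLB : 0 < L ^ B := Real.rpow_pos_of_pos hL0 _
  have hbk' : (b' : ℝ) ^ k ≤ η / 4 * L ^ B := by
    have h1 : (b' : ℝ) ≤ L ^ b := Nat.floor_le (Real.rpow_nonneg hL0.le _)
    refine le_trans ?_ g4
    calc (b' : ℝ) ^ k ≤ (L ^ b) ^ k := pow_le_pow_left₀ (Nat.cast_nonneg _) h1 k
      _ = L ^ (k * b) := by rw [← Real.rpow_natCast, ← Real.rpow_mul hL0.le]; congr 1; ring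
  have hFdef : Pool.Agent.X30.MF.F (fun p : ℕ => 1 / (p : ℝ)) P k = (-1) ^ k * (E - BE P) := rfl
  have hE2 : |E| ≤ 2 := by
    have h1 : 0 ≤ Pool.Agent.X30.MF.F (fun p : ℕ => 1 / (p : ℝ)) P k := Pool.Agent.X30.MF.F_nonneg _ P hx0 hx1 k
    have h2 : Pool.Agent.X30.MF.F (fun p : ℕ => 1 / (p : ℝ)) P k ≤ 1 := by
      refine (F_upper _ P hx0 hx1 k).trans ?_
      apply pow_le_one₀ (Finset.sum_nonneg hx0)
      linarith
    have h3 : |E - BE P| ≤ 1 := by
      have h4 : |Pool.Agent.X30.MF.F (fun p : ℕ => 1 / (p : ℝ)) P k| = |E - BE P| := by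
        rw [hFdef, abs_mul, abs_pow, abs_neg, abs_one, one_pow, one_mul]
      rw [← h4, abs_of_nonneg h1]
      exact h2
    have h5 : 0 ≤ BE P := (BE_pos hPp).le
    have h6 : BE P ≤ 1 := BE_le_one hPp
    rw [abs_le] at h3 ⊢
    constructor <;> linarith
  have h1 : V / L ^ B - E = (V - Y * E) / L ^ B + ((Y : ℝ) / L ^ B - 1) * E := by
    field_simp
    ring
  rw [h1]
  refine (abs_add_le _ _).trans ?_
  have h2 : |(V - Y * E) / L ^ B| ≤ η / 4 := by
    rw [abs_div, abs_of_pos hLB, div_le_iff₀ hLB]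
    exact hcnt.trans hbk'
  have h3 : |((Y : ℝ) / L ^ B - 1) * E| ≤ η / 4 * 2 := by
    rw [abs_mul]
    exact mul_le_mul g1 hE2 (abs_nonneg _) (by positivity)
  linarith

end Pool.Agent.X30.MV
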