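import Mathlib
import Pool.Agent.X30.MaierV

/-! # No linear relation between the prime densities at different scales (helper30) -/

set_option autoImplicit false

open Finset Filter Topology
open Pool.Agent.H378R2 Pool.Agent.H510R2.Maier Pool.Agent.X30.MR Pool.Agent.X30.MG Pool.Agent.X30.MH
open Pool.Agent.X30.MI Pool.Agent.X30.MT Pool.Agent.X30.MV

namespace Pool.Agent.X30.MWW

theorem choose_scale {ι : Type*} (I : Finset ι) (B : ι → ℝ) (i0 : ι) (hi0 : i0 ∈ I) (hB : ∀ i ∈ I, 0 < B i)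
    (hmin : ∀ i ∈ I, i ≠ i0 → B i0 < B i) (ε : ℝ) (hε : 0 < ε) (par : ℕ) :
    ∃ (a : ℝ) (k : ι → ℕ), 0 < a ∧ a < ε ∧ (k i0 + par) % 2 = 0 ∧
      (∀ i ∈ I, k i * a < B i ∧ B i < (k i + 1) * a) ∧ ∀ i ∈ I, i ≠ i0 → k i0 + 1 ≤ k i := by
  classical
  have hb0 := hB i0 hi0
  -- choice of the size
  have e1 : ∀ᶠ M : ℝ in atTop, B i0 / M < ε := by
    have : Tendsto (fun M : ℝ => B i0 / M) atTop (𝓝 0) := Tendsto.div_atTop tendsto_const_nhds tendsto_id
    exact this.eventually_lt_const hε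
  have e2 : ∀ᶠ M : ℝ in atTop, ∀ i ∈ I, i ≠ i0 → B i0 / M < B i - B i0 := by
    rw [Filter.eventually_all_finset]
    intro i hi
    by_cases h : i = i0
    · exact Filter.Eventually.of_forall fun M h' => absurd h h'
    · have : Tendsto (fun M : ℝ => B i0 / M) atTop (𝓝 0) := Tendsto.div_atTop tendsto_const_nhds tendsto_id
      have h2 := this.eventually_lt_const (show (0 : ℝ) < B i - B i0 by linarith [hmin i hi h])
      exact h2.mono fun M h3 _ => h3
  obtain ⟨M0, hM0⟩ := eventually_atTop.1 (e1.and e2)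
  obtain ⟨N, hN⟩ := exists_nat_ge (max M0 1)
  set m : ℕ := 2 * N + par with hm
  have hNm : (N : ℝ) ≤ m := by
    have : N ≤ m := by omega
    exact_mod_cast this
  have hm1 : (1 : ℝ) ≤ m := ((le_max_right _ _).trans hN).trans hNm
  obtain ⟨g1, g2⟩ := hM0 m (((le_max_left _ _).trans hN).trans hNm)
  -- generic `a`
  set bad : Set ℝ := ⋃ i ∈ I, Set.range (fun j : ℕ => B i / j) with hbad
  have hcount : bad.Countable := by
    rw [hbad]
    exact Set.Countable.biUnion (Finset.countable_toSet I) fun i _ => Set.countable_range _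
  have hlt : B i0 / (m + 1) < B i0 / m := by
    apply div_lt_div_of_pos_left hb0 (by linarith) (by linarith)
  obtain ⟨a, ha1, ha2, ha3⟩ := (hcount.dense_compl ℝ).exists_between hlt
  have ha0 : 0 < a := lt_trans (by positivity) ha2
  have hxi : ∀ i ∈ I, ∀ j : ℕ, B i ≠ j * a := by
    intro i hi j hj
    apply ha1
    rw [hbad, Set.mem_iUnion₂]
    refine ⟨i, hi, j, ?_⟩
    have hj0 : (j : ℝ) ≠ 0 := by
      intro h0
      rw [h0, zero_mul] at hj
      exact (hB i hi).ne' hj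
    show B i / j = a
    rw [hj]; field_simp
  have hk : ∀ i ∈ I, (⌊B i / a⌋₊ : ℝ) * a < B i ∧ B i < ((⌊B i / a⌋₊ : ℝ) + 1) * a := by
    intro i hi
    have h1 : (⌊B i / a⌋₊ : ℝ) ≤ B i / a := Nat.floor_le (div_nonneg (hB i hi).le ha0.le)
    have h2 : B i / a < (⌊B i / a⌋₊ : ℝ) + 1 := Nat.lt_floor_add_one _
    rw [le_div_iff₀ ha0] at h1
    rw [div_lt_iff₀ ha0] at h2
    exact ⟨lt_of_le_of_ne h1 (fun h => hxi i hi _ h.symm), h2⟩
  have hk0 : ⌊B i0 / a⌋₊ = m := by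
    rw [Nat.floor_eq_iff (by positivity)]
    constructor
    · rw [le_div_iff₀ ha0]
      rw [lt_div_iff₀ (by linarith)] at ha3
      linarith
    · rw [div_lt_iff₀ ha0]
      rw [div_lt_iff₀ (by linarith)] at ha2
      linarith
  refine ⟨a, fun i => ⌊B i / a⌋₊, ha0, ha3.trans g1, ?_, hk, ?_⟩
  · show (⌊B i0 / a⌋₊ + par) % 2 = 0
    rw [hk0, hm]; omega
  · intro i hi hne
    simp only
    rw [hk0]
    apply Nat.le_floor
    rw [le_div_iff₀ ha0]
    push_cast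
    have h1 := g2 i hi hne
    rw [lt_div_iff₀ (by linarith)] at ha3
    have h2 : a < B i - B i0 := lt_trans (by
      rw [lt_div_iff₀ (by linarith)]
      exact ha3) h1
    nlinarith

/-- choice of the right end point of the block -/
theorem choose_right {ι : Type*} (I : Finset ι) (B : ι → ℝ) (k : ι → ℕ) (a : ℝ) (ha : 0 < a) (ε lam : ℝ)
    (hε : a < ε) (hlam : 0 < lam) (hk : ∀ i ∈ I, k i * a < B i) :
    ∃ b : ℝ, a < b ∧ b < ε ∧ (∀ i ∈ I, k i * b < B i) ∧ Real.log (b / a) ≤ lam := by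
  have e1 : ∀ᶠ b : ℝ in 𝓝 a, b < ε := eventually_lt_nhds hε
  have e2 : ∀ᶠ b : ℝ in 𝓝 a, ∀ i ∈ I, k i * b < B i := by
    rw [Filter.eventually_all_finset]
    intro i hi
    have h1 : Tendsto (fun b : ℝ => (k i : ℝ) * b) (𝓝 a) (𝓝 (k i * a)) := tendsto_id.const_mul _
    exact h1.eventually_lt_const (hk i hi)
  have e3 : ∀ᶠ b : ℝ in 𝓝 a, Real.log (b / a) < lam := by
    have h1 : Tendsto (fun b : ℝ => Real.log (b / a)) (𝓝 a) (𝓝 (Real.log (a / a))) := by
      apply Tendsto.log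
      · exact tendsto_id.div_const _
      · rw [div_self ha.ne']; norm_num
    rw [div_self ha.ne', Real.log_one] at h1
    exact h1.eventually_lt_const hlam
  have e4 : ∀ᶠ b : ℝ in 𝓝[>] a, a < b := eventually_mem_nhdsWithin
  obtain ⟨b, ⟨⟨h1, h2⟩, h3⟩, h4⟩ := (((e1.filter_mono nhdsWithin_le_nhds).and (e2.filter_mono nhdsWithin_le_nhds)).and
    (e3.filter_mono nhdsWithin_le_nhds)).and e4 |>.exists
  exact ⟨b, h4, h1, h2, h3.le⟩

theorem size_W (P : Finset ℕ) (hP : ∀ p ∈ P, p.Prime) (b : ℕ) (hb : ∀ p ∈ P, p ≤ b) :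
    ((∏ p ∈ P, p : ℕ) : ℝ) ≤ Real.exp (3 / 2 * b) := by
  have h1 : ∏ p ∈ P, p ≤ primorial b := by
    unfold primorial
    apply Finset.prod_le_prod_of_subset_of_one_le'
    · intro p hp
      rw [Finset.mem_filter, Finset.mem_range]
      exact ⟨Nat.lt_succ_of_le (hb p hp), hP p hp⟩
    · intro i hi _
      exact (Finset.mem_filter.1 hi).2.one_lt.le
  have h2 : ((∏ p ∈ P, p : ℕ) : ℝ) ≤ (4 : ℝ) ^ b := by
    exact_mod_cast h1.trans (primorial_le_four_pow _)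
  refine h2.trans ?_
  rw [← Real.rpow_natCast, Real.rpow_def_of_pos (by norm_num)]
  apply Real.exp_le_exp.2
  have h4 : Real.log 4 ≤ 3 / 2 := by
    rw [show (4 : ℝ) = 2 ^ 2 by norm_num, Real.log_pow]
    have := Real.log_two_lt_d9
    push_cast; linarith
  exact mul_le_mul_of_nonneg_right h4 (Nat.cast_nonneg _)

set_option maxHeartbeats 4000000 in
theorem main3 {ι : Type*} (I : Finset ι) (B c : ι → ℝ) (hB : ∀ i ∈ I, 0 < B i)
    (hinj : ∀ i ∈ I, ∀ j ∈ I, i ≠ j → B i ≠ B j) (hc : ∃ i ∈ I, c i ≠ 0) (hsum : ∑ i ∈ I, c i = 0)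
    (ε : ℝ) (hε : 0 < ε) : ∃ δ : ℝ, 0 < δ ∧ ∀ᶠ X : ℝ in atTop,
      3 * X * Real.exp (-(Real.log (3 * X)) ^ ε) ≤
        (((Icc 1 ⌊3 * X⌋₊).filter (fun n : ℕ => δ ≤ ∑ i ∈ I, c i * dens (B i) n)).card : ℝ) := by
  classical
  -- restrict to the support of `c`
  set J := I.filter (fun i => c i ≠ 0) with hJ
  have hJI : J ⊆ I := Finset.filter_subset _ _
  have hJne : J.Nonempty := by
    obtain ⟨i, hi, h⟩ := hc
    exact ⟨i, Finset.mem_filter.2 ⟨hi, h⟩⟩
  have hJsum : ∀ f : ι → ℝ, ∑ i ∈ J, c i * f i = ∑ i ∈ I, c i * f i := by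
    intro f
    apply Finset.sum_subset hJI
    intro i hi hni
    have : c i = 0 := by
      by_contra h
      exact hni (Finset.mem_filter.2 ⟨hi, h⟩)
    rw [this, zero_mul]
  have hJsum0 : ∑ i ∈ J, c i = 0 := by
    have := hJsum (fun _ => 1)
    simp only [mul_one] at this
    rw [this, hsum]
  obtain ⟨i0, hi0, hmin'⟩ := Finset.exists_min_image J B hJne
  have hmin : ∀ i ∈ J, i ≠ i0 → B i0 < B i := fun i hi hne =>
    lt_of_le_of_ne (hmin' i hi) (hinj i0 (hJI hi0) i (hJI hi) (Ne.symm hne))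
  have hBJ : ∀ i ∈ J, 0 < B i := fun i hi => hB i (hJI hi)
  have hci0 : c i0 ≠ 0 := (Finset.mem_filter.1 hi0).2
  set par : ℕ := if 0 < c i0 then 0 else 1 with hpar
  set ε' : ℝ := min ε 1 with hε'
  have hε'0 : 0 < ε' := by positivity
  obtain ⟨a, k, ha0, haε, hkpar, hk, hk'⟩ := choose_scale J B i0 hi0 hBJ hmin ε' hε'0 par
  have hsign : c i0 * (-1) ^ (k i0) = |c i0| := by
    by_cases h : 0 < c i0
    · have h1 : par = 0 := by rw [hpar, if_pos h]
      have h2 : Even (k i0) := by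
        rw [Nat.even_iff]; rw [h1] at hkpar; simpa using hkpar
      rw [h2.neg_one_pow, mul_one, abs_of_pos h]
    · have h1 : par = 1 := by rw [hpar, if_neg h]
      have h2 : Odd (k i0) := by
        rw [Nat.odd_iff]; omega
      rw [h2.neg_one_pow, abs_of_neg (lt_of_le_of_ne (not_lt.1 h) hci0)]
      ring
  set m := k i0 with hm
  set C : ℝ := ∑ i ∈ J, |c i| with hC
  have hCi0 : |c i0| ≤ C := Finset.single_le_sum (f := fun i => |c i|) (fun i _ => abs_nonneg _) hi0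
  have hci0' : 0 < |c i0| := abs_pos.2 hci0
  have hC0 : 0 < C := lt_of_lt_of_le hci0' hCi0
  -- size of the block
  set G : ℝ := |c i0| * (1 / (4 * ((m : ℝ) + 1))) ^ (m + 1) / 2 with hG
  have hG0 : 0 < G := by positivity
  obtain ⟨b, hab, hbε, hkb, hlr⟩ := choose_right J B k a ha0 ε' (min (1 / 4) (G / (2 * C * 2 ^ (m + 2)))) haε
    (by positivity) (fun i hi => (hk i hi).1)
  have hb0 : 0 < b := ha0.trans hab
  set lr := Real.log (b / a) with hlrdef
  have hlr0 : 0 < lr := Real.log_pos (by rw [one_lt_div ha0]; exact hab)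
  have hlr1 : lr ≤ 1 / 4 := hlr.trans (min_le_left _ _)
  have hlr2 : 2 * (C * 2 ^ (m + 2)) * lr ≤ G := by
    have := hlr.trans (min_le_right _ _)
    rw [le_div_iff₀ (by positivity)] at this
    linarith
  set δ0 : ℝ := G * lr ^ (m + 1) / 2 with hδ0
  have hδ00 : 0 < δ0 := by positivity
  set K : ℝ := max 2 δ0 with hK
  obtain ⟨κ, hκ0, X1, hX1⟩ := transfer J B c hBJ K (δ0 / 4) (le_trans (by norm_num) (le_max_left _ _))
    (by positivity) 1
  refine ⟨δ0 / 4, by positivity, ?_⟩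
  have hlog : Tendsto Real.log atTop atTop := Real.tendsto_log_atTop
  have hb1 : b < 1 := hbε.trans_le (min_le_right _ _)
  have hbε1 : b < ε := hbε.trans_le (min_le_left _ _)
  set lam : ℝ := lr / (4 * (m + 1)) with hlam
  have hlam0 : 0 < lam := by positivity
  have hlam1 : lam ≤ 1 := by
    rw [hlam, div_le_one (by positivity)]
    have : (0 : ℝ) ≤ m := Nat.cast_nonneg _
    linarith
  have e1 : ∀ᶠ X : ℝ in atTop, ∀ i ∈ J, ∀ (S : Finset ℕ) (ps : ℕ), GoodS X S →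
      |(VV (∏ p ∈ PR X S ps ⌊(Real.log X) ^ a⌋₊ ⌊(Real.log X) ^ b⌋₊, p) 0 (Yc (B i) (c i) (Real.log X)) : ℝ) /
          (Real.log X) ^ B i -
        Pool.Agent.X30.MF.E (fun p : ℕ => 1 / (p : ℝ))
          (PR X S ps ⌊(Real.log X) ^ a⌋₊ ⌊(Real.log X) ^ b⌋₊) (k i)| ≤ δ0 / (4 * C) := by
    rw [Filter.eventually_all_finset]
    intro i hi
    exact one_scale a b (B i) (c i) (k i) ha0 hab hb1 (hBJ i hi) (hkb i hi) (hk i hi).2 (by linarith)
      (δ0 / (4 * C)) (by positivity)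
  have e2 := block_sum a b ha0 hab hb1
  have e3 := (tendsto_rpow_atTop ha0).eventually_ge_atTop (1 / lam)
  have e4 := growth b ε (κ / 1) hb0 hbε1 (by positivity) 1
  filter_upwards [e1, e2, hlog.eventually e3, hlog.eventually e4, eventually_ge_atTop X1,
    hlog.eventually_ge_atTop (1 : ℝ), eventually_ge_atTop (1 : ℝ)] with X g1 g2 g3 g4 g5 g6 g7
  obtain ⟨ps, S, hps, hS, htr⟩ := hX1 X g5
  obtain ⟨s1, s2⟩ := g2 S ps hS
  have hX0 : 0 < X := by linarith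
  set L := Real.log X with hL
  have hL0 : 0 < L := by linarith
  set a' := ⌊L ^ a⌋₊ with ha'
  set b' := ⌊L ^ b⌋₊ with hb'
  set P := PR X S ps a' b' with hP
  have hPW : P ⊆ PW X S ps := Finset.filter_subset _ _
  have hPp : ∀ p ∈ P, p.Prime := fun p hp => (mem_PW.1 (hPW hp)).2.1
  have hPa : ∀ p ∈ P, a' < p := fun p hp => (Finset.mem_filter.1 hp).2.1
  have hPb : ∀ p ∈ P, p ≤ b' := fun p hp => (Finset.mem_filter.1 hp).2.2
  have hx0 : ∀ p ∈ P, (0 : ℝ) ≤ 1 / (p : ℝ) := fun p _ => by positivity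
  have hxm : ∀ p ∈ P, (1 : ℝ) / (p : ℝ) ≤ lam := by
    intro p hp
    have h1 : (a' : ℝ) + 1 ≤ p := by exact_mod_cast hPa p hp
    have hay : L ^ a < (a' : ℝ) + 1 := Nat.lt_floor_add_one _
    have h2 : 0 < 1 / lam := by positivity
    have h3 : 1 / lam ≤ p := by linarith
    have hp0 : (0 : ℝ) < p := by linarith
    rw [div_le_iff₀ hp0]
    rw [div_le_iff₀ hlam0] at h3
    linarith
  have hx1 : ∀ p ∈ P, (1 : ℝ) / (p : ℝ) ≤ 1 := fun p hp => (hxm p hp).trans hlam1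
  have hs0 : 0 ≤ ∑ p ∈ P, (1 : ℝ) / p := Finset.sum_nonneg hx0
  -- lower bound for the leading term
  have hF := Pool.Agent.X30.MF.F_lower (fun p : ℕ => 1 / (p : ℝ)) lam lam hlam0.le hlam1 hlam0.le m P hx0 hxm (by
    have : ((m : ℝ) + 1) * (lam + lam) = lr / 2 := by
      rw [hlam]; field_simp; ring
    rw [this]
    exact s1)
  have hexp : lam / 2 ≤ 1 - Real.exp (-lam) := by
    have h1 := Real.add_one_le_exp lam
    have h2 : Real.exp (-lam) ≤ 1 / (1 + lam) := by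
      rw [Real.exp_neg, ← one_div]
      apply one_div_le_one_div_of_le (by linarith) (by linarith)
    have h3 : lam / 2 ≤ 1 - 1 / (1 + lam) := by
      have h4 : 1 - 1 / (1 + lam) = lam / (1 + lam) := by field_simp; ring
      rw [h4, div_le_div_iff₀ (by norm_num) (by linarith)]
      nlinarith
    linarith
  have hF0 : lam ^ (m + 1) / 2 ≤ Pool.Agent.X30.MF.F (fun p : ℕ => 1 / (p : ℝ)) P m := by
    refine le_trans ?_ hF
    calc lam ^ (m + 1) / 2 = lam ^ m * (lam / 2) := by ring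
      _ ≤ lam ^ m * (1 - Real.exp (-lam)) := mul_le_mul_of_nonneg_left hexp (by positivity)
  have hlead : 2 * δ0 ≤ c i0 * ((-1) ^ m * Pool.Agent.X30.MF.F (fun p : ℕ => 1 / (p : ℝ)) P m) := by
    rw [← mul_assoc, hsign]
    have h1 : |c i0| * (lam ^ (m + 1) / 2) = 2 * δ0 := by
      rw [hδ0, hG, hlam, div_pow, div_pow, one_pow]
      ring
    rw [← h1]
    exact mul_le_mul_of_nonneg_left hF0 hci0'.le
  have hother : ∀ i ∈ J.erase i0, -(|c i| * (2 * lr) ^ (m + 2)) ≤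
      c i * ((-1) ^ k i * Pool.Agent.X30.MF.F (fun p : ℕ => 1 / (p : ℝ)) P (k i)) := by
    intro i hi
    obtain ⟨hne, hiJ⟩ := Finset.mem_erase.1 hi
    have h1 := F_upper (fun p : ℕ => 1 / (p : ℝ)) P hx0 hx1 (k i)
    have h2 := Pool.Agent.X30.MF.F_nonneg (fun p : ℕ => 1 / (p : ℝ)) P hx0 hx1 (k i)
    have h3 : Pool.Agent.X30.MF.F (fun p : ℕ => 1 / (p : ℝ)) P (k i) ≤ (2 * lr) ^ (m + 2) := by
      refine h1.trans ?_
      calc (∑ p ∈ P, (1 : ℝ) / p) ^ (k i + 1) ≤ (2 * lr) ^ (k i + 1) := pow_le_pow_left₀ hs0 s2 _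
        _ ≤ (2 * lr) ^ (m + 2) := by
            apply pow_le_pow_of_le_one (by positivity) (by linarith)
            have := hk' i hiJ hne
            omega
    have h4 : |c i * ((-1) ^ k i * Pool.Agent.X30.MF.F (fun p : ℕ => 1 / (p : ℝ)) P (k i))| ≤
        |c i| * (2 * lr) ^ (m + 2) := by
      rw [abs_mul, abs_mul, abs_pow, abs_neg, abs_one, one_pow, one_mul, abs_of_nonneg h2]
      exact mul_le_mul_of_nonneg_left h3 (abs_nonneg _)
    exact (abs_le.1 h4).1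
  have hEF : ∀ i, Pool.Agent.X30.MF.E (fun p : ℕ => 1 / (p : ℝ)) P (k i) =
      BE P + (-1) ^ k i * Pool.Agent.X30.MF.F (fun p : ℕ => 1 / (p : ℝ)) P (k i) := by
    intro i
    have h1 : Pool.Agent.X30.MF.F (fun p : ℕ => 1 / (p : ℝ)) P (k i) =
      (-1) ^ k i * (Pool.Agent.X30.MF.E (fun p : ℕ => 1 / (p : ℝ)) P (k i) - BE P) := rfl
    rw [h1, ← mul_assoc, ← mul_pow]
    norm_num
  have hE : δ0 ≤ ∑ i ∈ J, c i * Pool.Agent.X30.MF.E (fun p : ℕ => 1 / (p : ℝ)) P (k i) := by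
    have h1 : ∑ i ∈ J, c i * Pool.Agent.X30.MF.E (fun p : ℕ => 1 / (p : ℝ)) P (k i) =
        ∑ i ∈ J, c i * ((-1) ^ k i * Pool.Agent.X30.MF.F (fun p : ℕ => 1 / (p : ℝ)) P (k i)) := by
      have h2 : ∑ i ∈ J, c i * Pool.Agent.X30.MF.E (fun p : ℕ => 1 / (p : ℝ)) P (k i) =
          (∑ i ∈ J, c i) * BE P +
          ∑ i ∈ J, c i * ((-1) ^ k i * Pool.Agent.X30.MF.F (fun p : ℕ => 1 / (p : ℝ)) P (k i)) := by
        rw [Finset.sum_mul, ← Finset.sum_add_distrib]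
        refine Finset.sum_congr rfl fun i _ => ?_
        rw [hEF i]; ring
      rw [h2, hJsum0, zero_mul, zero_add]
    rw [h1, ← Finset.add_sum_erase J _ hi0]
    have h2 : -(C * (2 * lr) ^ (m + 2)) ≤
        ∑ i ∈ J.erase i0, c i * ((-1) ^ k i * Pool.Agent.X30.MF.F (fun p : ℕ => 1 / (p : ℝ)) P (k i)) := by
      refine le_trans ?_ (Finset.sum_le_sum hother)
      rw [Finset.sum_neg_distrib, ← Finset.sum_mul]
      apply neg_le_neg
      apply mul_le_mul_of_nonneg_right _ (by positivity)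
      exact Finset.sum_le_sum_of_subset_of_nonneg (Finset.erase_subset _ _) fun i _ _ => abs_nonneg _
    have h3 : C * (2 * lr) ^ (m + 2) ≤ δ0 := by
      calc C * (2 * lr) ^ (m + 2) = (2 * (C * 2 ^ (m + 2)) * lr) * lr ^ (m + 1) / 2 := by
            rw [mul_pow]; ring
        _ ≤ G * lr ^ (m + 1) / 2 := by gcongr
        _ = δ0 := rfl
    linarith
  have hBE : 1 / 2 ≤ BE P := by
    have h1 := weier P (fun p => 1 / (p : ℝ)) (fun p hp => hx0 p hp) (fun p hp => hx1 p hp)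
    have h2 : BE P = ∏ i ∈ P, (1 - 1 / (i : ℝ)) := rfl
    rw [h2]
    linarith
  have hBE1 : BE P ≤ 1 := BE_le_one hPp
  have hVsum : 3 / 4 * δ0 ≤ ∑ i ∈ J, c i *
      ((VV (∏ p ∈ P, p) 0 (Yc (B i) (c i) L) : ℝ) / L ^ B i) := by
    have h1 : ∑ i ∈ J, c i * Pool.Agent.X30.MF.E (fun p : ℕ => 1 / (p : ℝ)) P (k i) - δ0 / 4 ≤
        ∑ i ∈ J, c i * ((VV (∏ p ∈ P, p) 0 (Yc (B i) (c i) L) : ℝ) / L ^ B i) := by
      have h2 : ∀ i ∈ J, c i * Pool.Agent.X30.MF.E (fun p : ℕ => 1 / (p : ℝ)) P (k i) - |c i| * (δ0 / (4 * C)) ≤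
          c i * ((VV (∏ p ∈ P, p) 0 (Yc (B i) (c i) L) : ℝ) / L ^ B i) := by
        intro i hi
        have h3 := g1 i hi S ps hS
        have h4 : |c i * ((VV (∏ p ∈ P, p) 0 (Yc (B i) (c i) L) : ℝ) / L ^ B i -
            Pool.Agent.X30.MF.E (fun p : ℕ => 1 / (p : ℝ)) P (k i))| ≤ |c i| * (δ0 / (4 * C)) := by
          rw [abs_mul]
          exact mul_le_mul_of_nonneg_left h3 (abs_nonneg _)
        have h5 := (abs_le.1 h4).1
        rw [mul_sub] at h5
        linarith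
      have h6 := Finset.sum_le_sum h2
      rw [Finset.sum_sub_distrib, ← Finset.sum_mul] at h6
      have h7 : C * (δ0 / (4 * C)) = δ0 / 4 := by field_simp
      rw [← hC, h7] at h6
      exact h6
    linarith
  have hT := htr P hPW (by
      refine le_trans ?_ hBE
      exact one_div_le_one_div_of_le (by norm_num) (le_max_left _ _)) (δ0 / 4) (by
      rw [abs_of_pos (by positivity)]
      refine le_trans ?_ (le_max_right 2 δ0)
      linarith) (by
      have h1 : 1 ≤ 1 / BE P := by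
        rw [le_div_iff₀ (by linarith)]
        linarith
      calc δ0 / 4 + δ0 / 4 ≤ 1 * (3 / 4 * δ0) := by linarith
        _ ≤ (1 / BE P) * _ := mul_le_mul h1 hVsum (by positivity) (by positivity))
  have hsub : rowset X (fun n => δ0 / 4 ≤ ∑ i ∈ J, c i * dens (B i) n) ⊆
      (Icc 1 ⌊3 * X⌋₊).filter (fun n : ℕ => δ0 / 4 ≤ ∑ i ∈ I, c i * dens (B i) n) := by
    intro n hn
    obtain ⟨m1, m2, m3, m4⟩ := mem_rowset.1 hn
    refine Finset.mem_filter.2 ⟨Finset.mem_Icc.2 m1, ?_⟩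
    rw [← hJsum (fun i => dens (B i) n)]
    exact m4
  have hcard : ((rowset X (fun n => δ0 / 4 ≤ ∑ i ∈ J, c i * dens (B i) n)).card : ℝ) ≤
      (((Icc 1 ⌊3 * X⌋₊).filter (fun n : ℕ => δ0 / 4 ≤ ∑ i ∈ I, c i * dens (B i) n)).card : ℝ) := by
    exact_mod_cast Finset.card_le_card hsub
  refine le_trans ?_ (hT.trans hcard)
  have q2 : Real.exp (-L ^ ε) ≥ Real.exp (-(Real.log (3 * X)) ^ ε) := by
    apply Real.exp_le_exp.2
    have h1 : L ≤ Real.log (3 * X) := Real.log_le_log hX0 (by linarith)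
    have h2 := Real.rpow_le_rpow hL0.le h1 hε.le
    linarith
  have hWle : ((∏ p ∈ P, p : ℕ) : ℝ) ≤ Real.exp (3 * L ^ b) := by
    refine (size_W P hPp b' hPb).trans (Real.exp_le_exp.2 ?_)
    have h1 : (b' : ℝ) ≤ L ^ b := Nat.floor_le (Real.rpow_nonneg hL0.le _)
    have h2 : 0 ≤ L ^ b := Real.rpow_nonneg hL0.le _
    linarith
  have hW0 : (0 : ℝ) < ((∏ p ∈ P, p : ℕ) : ℝ) := by
    exact_mod_cast Finset.prod_pos fun p hp => (hPp p hp).pos
  calc 3 * X * Real.exp (-(Real.log (3 * X)) ^ ε) ≤ 3 * X * Real.exp (-L ^ ε) := by gcongr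
    _ = X * (3 * Real.exp (-L ^ ε)) := by ring
    _ ≤ X * (κ / 1 * (Real.exp (-(3 * L ^ b)) / L ^ 1)) := by gcongr
    _ = κ * (X / (Real.exp (3 * L ^ b) * L)) := by
        rw [Real.exp_neg, pow_one, div_one]
        field_simp
    _ ≤ κ * (X / ((∏ p ∈ P, p : ℕ) * L)) := by gcongr

theorem main {ι : Type*} (I : Finset ι) (B c : ι → ℝ) (hB : ∀ i ∈ I, 0 < B i)
    (hinj : ∀ i ∈ I, ∀ j ∈ I, i ≠ j → B i ≠ B j) (hc : ∃ i ∈ I, c i ≠ 0) (hsum : ∑ i ∈ I, c i = 0)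
    (ε : ℝ) (hε : 0 < ε) : ∃ δ : ℝ, 0 < δ ∧ ∃ X₀ : ℝ, ∀ X : ℝ, X₀ ≤ X →
      X * Real.exp (-(Real.log X) ^ ε) ≤
        (((Icc 1 ⌊X⌋₊).filter (fun n : ℕ => δ ≤ ∑ i ∈ I, c i * dens (B i) n)).card : ℝ) := by
  obtain ⟨δ, hδ, h1⟩ := main3 I B c hB hinj hc hsum ε hε
  have htend : Tendsto (fun x : ℝ => x / 3) atTop atTop := tendsto_id.atTop_div_const (by norm_num)
  obtain ⟨X₀, hX₀⟩ := eventually_atTop.1 (htend.eventually h1)
  refine ⟨δ, hδ, X₀, fun X hX => ?_⟩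
  have h3 := hX₀ X hX
  have h5 : 3 * (X / 3) = X := by ring
  rwa [h5] at h3

end Pool.Agent.X30.MWW
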