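import Mathlib
import Pool.Agent.X30.MaierW

/-! # Sifted integers of a residue class (helper30) -/

set_option autoImplicit false

open Finset Filter Topology
open Pool.Agent.H378R2 Pool.Agent.H510R2.Maier Pool.Agent.X30.MR Pool.Agent.X30.MG Pool.Agent.X30.MH
open Pool.Agent.X30.MI Pool.Agent.X30.MT Pool.Agent.X30.MV

namespace Pool.Agent.X30.AP

/-- inclusion-exclusion -/
theorem incl_excl (P : Finset ℕ) (hP : ∀ p ∈ P, p.Prime) (H : Finset ℕ) (Y k : ℕ)
    (hH : ∀ h ∈ H, 1 ≤ h ∧ h ≤ Y) (hk : ∀ s, s ⊆ P → s.card = k + 1 → Y < ∏ p ∈ s, p) :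
    ((H.filter (fun h => ∀ p ∈ P, ¬ p ∣ h)).card : ℝ) =
      ∑ s ∈ P.powerset.filter (fun s => s.card ≤ k),
        (-1 : ℝ) ^ s.card * ((H.filter (fun h => (∏ p ∈ s, p) ∣ h)).card : ℝ) := by
  classical
  have hcop : ∀ s, s ⊆ P → ∀ h : ℕ, (∏ p ∈ s, p) ∣ h ↔ ∀ p ∈ s, p ∣ h := by
    intro s hs h
    constructor
    · intro h1 p hp
      exact (Finset.dvd_prod_of_mem _ hp).trans h1
    · intro h1
      refine Finset.prod_primes_dvd h (fun p hp => (hP p (hs hp)).prime) h1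
  have hmult : ∀ s, s ⊆ P → ((H.filter (fun h => (∏ p ∈ s, p) ∣ h)).card : ℝ) =
      ∑ h ∈ H, if (∀ p ∈ s, p ∣ h) then (1 : ℝ) else 0 := by
    intro s hs
    rw [← Finset.sum_filter, Finset.sum_const, nsmul_eq_mul, mul_one]
    congr 1
    apply congrArg
    apply Finset.filter_congr
    intro h _
    exact hcop s hs h
  have h1 : ∑ s ∈ P.powerset.filter (fun s => s.card ≤ k),
      (-1 : ℝ) ^ s.card * ((H.filter (fun h => (∏ p ∈ s, p) ∣ h)).card : ℝ) =
      ∑ h ∈ H, ∑ s ∈ P.powerset.filter (fun s => s.card ≤ k),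
        (-1 : ℝ) ^ s.card * (if (∀ p ∈ s, p ∣ h) then (1 : ℝ) else 0) := by
    rw [Finset.sum_comm]
    apply Finset.sum_congr rfl
    intro s hs
    rw [Finset.mem_filter, Finset.mem_powerset] at hs
    rw [hmult s hs.1, Finset.mul_sum]
  rw [h1, Finset.card_filter]
  push_cast
  apply Finset.sum_congr rfl
  intro h hh
  have hhY := hH h hh
  set Dh := P.filter (fun p => p ∣ h) with hDh
  have hDcard : Dh.card ≤ k := by
    by_contra hcon
    obtain ⟨s, hs, hsc⟩ := Finset.exists_subset_card_eq (s := Dh) (n := k + 1) (by omega)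
    have h2 := hk s (hs.trans (Finset.filter_subset _ _)) hsc
    have h3 : (∏ p ∈ s, p) ∣ h := (hcop s (hs.trans (Finset.filter_subset _ _)) h).2
      (fun p hp => (Finset.mem_filter.1 (hs hp)).2)
    have h4 := Nat.le_of_dvd (by omega) h3
    omega
  have h5 : ∑ s ∈ P.powerset.filter (fun s => s.card ≤ k),
        (-1 : ℝ) ^ s.card * (if (∀ p ∈ s, p ∣ h) then (1 : ℝ) else 0) =
      ∑ s ∈ Dh.powerset, (-1 : ℝ) ^ s.card := by
    simp_rw [mul_ite, mul_one, mul_zero]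
    rw [← Finset.sum_filter]
    apply Finset.sum_congr _ (fun _ _ => rfl)
    ext s
    simp only [Finset.mem_filter, Finset.mem_powerset]
    constructor
    · rintro ⟨⟨h6, h7⟩, h8⟩
      intro p hp
      exact Finset.mem_filter.2 ⟨h6 hp, h8 p hp⟩
    · intro h6
      refine ⟨⟨h6.trans (Finset.filter_subset _ _), (Finset.card_le_card h6).trans hDcard⟩, ?_⟩
      intro p hp
      exact (Finset.mem_filter.1 (h6 hp)).2
  rw [h5]
  have h6 := Finset.sum_powerset_neg_one_pow_card (x := Dh)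
  have h7 : ∑ s ∈ Dh.powerset, (-1 : ℝ) ^ s.card = ((∑ s ∈ Dh.powerset, (-1 : ℤ) ^ s.card : ℤ) : ℝ) := by
    push_cast; rfl
  rw [h7, h6]
  by_cases h8 : Dh = ∅
  · rw [if_pos h8, if_pos]
    · norm_num
    · intro p hp hd
      have : p ∈ Dh := Finset.mem_filter.2 ⟨hp, hd⟩
      rw [h8] at this
      exact absurd this (Finset.notMem_empty _)
  · rw [if_neg h8, if_neg]
    · norm_num
    · intro h9
      apply h8
      rw [Finset.eq_empty_iff_forall_notMem]
      intro p hp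
      rw [hDh, Finset.mem_filter] at hp
      exact h9 p hp.1 hp.2

/-- integers `1 ≤ h ≤ Y` of a class -/
theorem class_count (r v Y : ℕ) (hr : 0 < r) :
    |((((Icc 1 Y).filter (fun h => h ≡ v [MOD r])).card : ℝ)) - (Y : ℝ) / r| ≤ 1 := by
  have h1 : (Icc 1 Y).filter (fun h => h ≡ v [MOD r]) = (Ioc 0 Y).filter (fun h => h ≡ v [MOD r]) := by
    congr 1
  rw [h1]
  have h2 := Nat.Ioc_filter_modEq_card 0 Y hr v
  have hrr : (0 : ℚ) < r := by exact_mod_cast hr
  have e1 := Int.floor_le (((Y : ℚ) - v) / r)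
  have e2 := Int.lt_floor_add_one (((Y : ℚ) - v) / r)
  have e3 := Int.floor_le ((((0 : ℕ) : ℚ) - v) / r)
  have e4 := Int.lt_floor_add_one ((((0 : ℕ) : ℚ) - v) / r)
  have e5 : ((Y : ℚ) - v) / r - (((0 : ℕ) : ℚ) - v) / r = Y / r := by
    push_cast
    field_simp
    ring
  have e6 : (0 : ℚ) ≤ Y / r := by positivity
  have h3 : ((((Ioc 0 Y).filter (fun h => h ≡ v [MOD r])).card : ℕ) : ℚ) =
      ((max (⌊((Y : ℚ) - v) / r⌋ - ⌊(((0 : ℕ) : ℚ) - v) / r⌋) 0 : ℤ) : ℚ) := by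
    rw [← h2]
    push_cast
    rfl
  have h4 : ⌊(((0 : ℕ) : ℚ) - v) / r⌋ ≤ ⌊((Y : ℚ) - v) / r⌋ := by
    apply Int.floor_le_floor
    linarith
  rw [max_eq_left (by omega)] at h3
  have h5 : |((((Ioc 0 Y).filter (fun h => h ≡ v [MOD r])).card : ℕ) : ℚ) - (Y : ℚ) / r| ≤ 1 := by
    rw [h3, abs_le]
    push_cast at *
    constructor <;> linarith
  have h6 : (((|((((Ioc 0 Y).filter (fun h => h ≡ v [MOD r])).card : ℕ) : ℚ) - (Y : ℚ) / r| : ℚ)) : ℝ) ≤ ((1 : ℚ) : ℝ) := by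
    exact_mod_cast h5
  push_cast at h6
  exact h6

/-- the number of the integers `1 ≤ h ≤ Y` in the class `a` mod `q` without prime factor in `P` -/
def VQ (q a : ℕ) (P : Finset ℕ) (Y : ℕ) : ℕ :=
  ((Icc 1 Y).filter (fun h => h ≡ a [MOD q] ∧ ∀ p ∈ P, ¬ p ∣ h)).card

theorem VQ_le (q a : ℕ) (P : Finset ℕ) (Y : ℕ) : VQ q a P Y ≤ Y := by
  unfold VQ
  refine (Finset.card_filter_le _ _).trans ?_
  simp

/-- the count, with main term -/
theorem VQ_approx (q a : ℕ) (hq : 0 < q) (P : Finset ℕ) (hP : ∀ p ∈ P, p.Prime)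
    (hPq : ∀ p ∈ P, ¬ p ∣ q) (Y k b : ℕ) (hb : ∀ p ∈ P, p ≤ b)
    (hb1 : 1 ≤ b) (hk : ∀ s, s ⊆ P → s.card = k + 1 → Y < ∏ p ∈ s, p) :
    |(VQ q a P Y : ℝ) - (Y : ℝ) / q * Pool.Agent.X30.MF.E (fun p => 1 / (p : ℝ)) P k| ≤
      (b : ℝ) ^ k := by
  classical
  have hqr : (0 : ℝ) < q := by exact_mod_cast hq
  set H := (Icc 1 Y).filter (fun h => h ≡ a [MOD q]) with hH
  have e0 : VQ q a P Y = (H.filter (fun h => ∀ p ∈ P, ¬ p ∣ h)).card := by
    unfold VQ
    rw [hH, Finset.filter_filter]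
  rw [e0, incl_excl P hP H Y k (fun h hh => by
    rw [hH, Finset.mem_filter, Finset.mem_Icc] at hh
    exact hh.1) hk]
  unfold Pool.Agent.X30.MF.E
  rw [Finset.mul_sum, ← Finset.sum_sub_distrib]
  refine (Finset.abs_sum_le_sum_abs _ _).trans ?_
  have h1 : ∀ s ∈ P.powerset.filter (fun s => s.card ≤ k),
      |(-1 : ℝ) ^ s.card * ((H.filter (fun h => (∏ p ∈ s, p) ∣ h)).card : ℝ) -
        (Y : ℝ) / q * ((-1) ^ s.card * ∏ p ∈ s, 1 / (p : ℝ))| ≤ 1 := by
    intro s hs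
    rw [Finset.mem_filter, Finset.mem_powerset] at hs
    obtain ⟨d, hd⟩ : ∃ d, d = ∏ p ∈ s, p := ⟨_, rfl⟩
    have hpos : 0 < d := by
      rw [hd]
      exact Finset.prod_pos fun p hp => (hP p (hs.1 hp)).pos
    have hdr : (0 : ℝ) < d := by exact_mod_cast hpos
    have hcq : d.Coprime q := by
      rw [hd]
      apply Nat.Coprime.prod_left
      intro p hp
      exact (Nat.Prime.coprime_iff_not_dvd (hP p (hs.1 hp))).2 (hPq p (hs.1 hp))
    have h2 : (Y : ℝ) / q * ((-1) ^ s.card * ∏ p ∈ s, 1 / (p : ℝ)) =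
        (-1) ^ s.card * ((Y : ℝ) / ((d * q : ℕ) : ℝ)) := by
      have : ∏ p ∈ s, 1 / (p : ℝ) = 1 / (d : ℝ) := by
        rw [hd, Finset.prod_div_distrib, Finset.prod_const_one]
        push_cast
        rfl
      rw [this]
      push_cast
      field_simp
    rw [h2, ← mul_sub, abs_mul, abs_pow, abs_neg, abs_one, one_pow, one_mul, ← hd]
    obtain ⟨v, hv1, hv2⟩ := Nat.chineseRemainder hcq 0 a
    have h3 : H.filter (fun h => d ∣ h) = (Icc 1 Y).filter (fun h => h ≡ v [MOD d * q]) := by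
      rw [hH, Finset.filter_filter]
      apply Finset.filter_congr
      intro h _
      rw [← Nat.modEq_and_modEq_iff_modEq_mul hcq, ← Nat.modEq_zero_iff_dvd]
      constructor
      · rintro ⟨h4, h5⟩
        exact ⟨h5.trans hv1.symm, h4.trans hv2.symm⟩
      · rintro ⟨h4, h5⟩
        exact ⟨h5.trans hv2, h4.trans hv1⟩
    rw [h3]
    exact class_count (d * q) v Y (Nat.mul_pos hpos hq)
  refine (Finset.sum_le_sum h1).trans ?_
  rw [Finset.sum_const, nsmul_eq_mul, mul_one]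
  have h6 : (P.powerset.filter (fun s => s.card ≤ k)).card ≤ (Icc 1 (b ^ k)).card := by
    apply Finset.card_le_card_of_injOn (fun s => ∏ p ∈ s, p)
    · intro s hs
      rw [Finset.mem_coe, Finset.mem_filter, Finset.mem_powerset] at hs
      rw [Finset.mem_coe, Finset.mem_Icc]
      refine ⟨Finset.prod_pos fun p hp => (hP p (hs.1 hp)).pos, ?_⟩
      calc ∏ p ∈ s, p ≤ ∏ _p ∈ s, b := Finset.prod_le_prod' fun p hp => hb p (hs.1 hp)
        _ = b ^ s.card := by rw [Finset.prod_const]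
        _ ≤ b ^ k := Nat.pow_le_pow_right hb1 hs.2
    · intro s hs t ht hst
      rw [Finset.mem_coe, Finset.mem_filter, Finset.mem_powerset] at hs ht
      have h7 := Nat.primeFactors_prod (s := s) (fun p hp => hP p (hs.1 hp))
      have h8 := Nat.primeFactors_prod (s := t) (fun p hp => hP p (ht.1 hp))
      rw [← h7, ← h8]
      exact congrArg Nat.primeFactors hst
  rw [Nat.card_Icc, Nat.add_sub_cancel] at h6
  exact_mod_cast h6

/-- the window used for the coefficient `c` -/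
noncomputable def Yl (lam B c L : ℝ) : ℕ := if 0 ≤ c then ⌊lam * L ^ B⌋₊ else ⌊lam * (L + 2) ^ B⌋₊

/-- the weight used for the coefficient `c` -/
noncomputable def al (lam B c L : ℝ) : ℝ :=
  if 0 ≤ c then L / ((L + 2) * (lam * (L + 2) ^ B)) else (L + 2) / (L * (lam * L ^ B))

lemma al_pos (lam B c L : ℝ) (hlam : 0 < lam) (hL : 0 < L) : 0 < al lam B c L := by
  unfold al
  split_ifs <;> positivity

lemma al_lim (lam B c : ℝ) (hlam : 0 < lam) : Tendsto (fun L : ℝ => al lam B c L * (lam * L ^ B)) atTop (𝓝 1) := by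
  have h1 := ratio_one B
  have h2 := ratio_one 1
  unfold al
  split_ifs with hc
  · have h3 := (h1.mul h2).inv₀ (by norm_num)
    rw [one_mul, inv_one] at h3
    refine h3.congr' ?_
    filter_upwards [eventually_gt_atTop (0 : ℝ)] with L hL
    rw [Real.rpow_one, Real.rpow_one]
    have a1 : (0 : ℝ) < L + 2 := by linarith
    have a2 : 0 < (L + 2) ^ B := Real.rpow_pos_of_pos a1 _
    have a3 : 0 < L ^ B := Real.rpow_pos_of_pos hL _
    field_simp
  · refine h2.congr' ?_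
    filter_upwards [eventually_gt_atTop (0 : ℝ)] with L hL
    rw [Real.rpow_one, Real.rpow_one]
    have a3 : 0 < L ^ B := Real.rpow_pos_of_pos hL _
    field_simp

lemma Yl_ev (lam B c : ℝ) (hlam : 0 < lam) : ∀ᶠ L : ℝ in atTop, (Yl lam B c L : ℝ) ≤ 2 * (lam * L ^ B) := by
  filter_upwards [ratio_ev B 2 (by norm_num), eventually_gt_atTop (0 : ℝ)] with L h1 hL
  have a3 : 0 < L ^ B := Real.rpow_pos_of_pos hL _
  have a4 : 0 < lam * L ^ B := by positivity
  unfold Yl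
  split_ifs
  · have := Nat.floor_le a4.le
    linarith
  · refine (Nat.floor_le (mul_nonneg hlam.le (Real.rpow_nonneg (by linarith) _))).trans ?_
    calc lam * (L + 2) ^ B ≤ lam * (2 * L ^ B) := mul_le_mul_of_nonneg_left h1 hlam.le
      _ = _ := by ring

lemma Yl_le_pow (lam B c : ℝ) (hlam : 0 < lam) (A : ℕ) (hA : B + 1 ≤ A) :
    ∀ᶠ L : ℝ in atTop, (Yl lam B c L : ℝ) ≤ L ^ A := by
  filter_upwards [Yl_ev lam B c hlam, eventually_ge_atTop (2 * lam), eventually_ge_atTop (1 : ℝ)] with L h1 hL hL1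
  have hL0 : 0 < L := by linarith
  calc (Yl lam B c L : ℝ) ≤ 2 * (lam * L ^ B) := h1
    _ = (2 * lam) * L ^ B := by ring
    _ ≤ L * L ^ B := by
        have := Real.rpow_pos_of_pos hL0 B
        nlinarith
    _ = L ^ (B + 1) := by rw [Real.rpow_add hL0, Real.rpow_one]; ring
    _ ≤ L ^ (A : ℝ) := Real.rpow_le_rpow_of_exponent_le hL1 hA
    _ = L ^ A := Real.rpow_natCast _ _

/-- `Yl / (lam L ^ B)` tends to `1` -/
lemma Yl_lim (lam B c : ℝ) (hlam : 0 < lam) (hB : 0 < B) :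
    Tendsto (fun L : ℝ => (Yl lam B c L : ℝ) / (lam * L ^ B)) atTop (𝓝 1) := by
  have h0 : Tendsto (fun L : ℝ => (1 : ℝ) - 1 / (lam * L ^ B)) atTop (𝓝 1) := by
    have h1 : Tendsto (fun L : ℝ => 1 / (lam * L ^ B)) atTop (𝓝 0) :=
      Tendsto.div_atTop tendsto_const_nhds ((tendsto_rpow_atTop hB).const_mul_atTop hlam)
    simpa using h1.const_sub 1
  have h2 := ratio_one B
  refine tendsto_of_tendsto_of_tendsto_of_le_of_le' h0 h2 ?_ ?_
  · filter_upwards [eventually_gt_atTop (0 : ℝ)] with L hL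
    have a3 : 0 < L ^ B := Real.rpow_pos_of_pos hL _
    have a5 : 0 < lam * L ^ B := by positivity
    have a4 : lam * L ^ B ≤ lam * (L + 2) ^ B :=
      mul_le_mul_of_nonneg_left (Real.rpow_le_rpow hL.le (by linarith) hB.le) hlam.le
    rw [le_div_iff₀ a5]
    have e : (1 - 1 / (lam * L ^ B)) * (lam * L ^ B) = lam * L ^ B - 1 := by field_simp
    rw [e]
    unfold Yl
    split_ifs
    · exact (Nat.sub_one_lt_floor _).le
    · have := Nat.sub_one_lt_floor (lam * (L + 2) ^ B)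
      linarith
  · filter_upwards [eventually_gt_atTop (0 : ℝ)] with L hL
    have a3 : 0 < L ^ B := Real.rpow_pos_of_pos hL _
    have a5 : 0 < lam * L ^ B := by positivity
    have a6 : 0 < (L + 2) ^ B := Real.rpow_pos_of_pos (by linarith) _
    have a4 : lam * L ^ B ≤ lam * (L + 2) ^ B :=
      mul_le_mul_of_nonneg_left (Real.rpow_le_rpow hL.le (by linarith) hB.le) hlam.le
    have e : (L + 2) ^ B / L ^ B = (lam * (L + 2) ^ B) / (lam * L ^ B) := by
      field_simp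
    rw [e]
    apply div_le_div_of_nonneg_right _ a5.le
    unfold Yl
    split_ifs
    · exact (Nat.floor_le a5.le).trans a4
    · exact Nat.floor_le (by positivity)

/-- one scale -/
theorem one_scale (q cl : ℕ) (hq : 0 < q) (a b lam B c : ℝ) (k : ℕ) (ha : 0 < a) (hab : a < b) (hb : b < 1)
    (hlam : 0 < lam) (hB : 0 < B) (hk1 : k * b < B)
    (hk2 : B < (k + 1) * a) (hl : 2 * Real.log (b / a) ≤ 1) (η : ℝ) (hη : 0 < η) :
    ∀ᶠ X : ℝ in atTop, ∀ (S : Finset ℕ) (ps : ℕ), GoodS X S →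
      |(q : ℝ) * (VQ q cl (PR X S ps ⌊(Real.log X) ^ a⌋₊ ⌊(Real.log X) ^ b⌋₊) (Yl lam B c (Real.log X)) : ℝ) /
          (lam * (Real.log X) ^ B) -
        Pool.Agent.X30.MF.E (fun p : ℕ => 1 / (p : ℝ))
          (PR X S ps ⌊(Real.log X) ^ a⌋₊ ⌊(Real.log X) ^ b⌋₊) k| ≤ η := by
  classical
  have hqr : (0 : ℝ) < q := by exact_mod_cast hq
  have hlog : Tendsto Real.log atTop atTop := Real.tendsto_log_atTop
  have hb0 : 0 < b := ha.trans hab
  have e1 : ∀ᶠ L : ℝ in atTop, |(Yl lam B c L : ℝ) / (lam * L ^ B) - 1| ≤ η / 4 := by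
    have h1 := (Yl_lim lam B c hlam hB).eventually (Metric.ball_mem_nhds (1 : ℝ) (show 0 < η / 4 by positivity))
    filter_upwards [h1] with L hL
    have h2 := (Metric.mem_ball.1 hL).le
    rwa [Real.dist_eq] at h2
  have e2 : ∀ᶠ L : ℝ in atTop, (Yl lam B c L : ℝ) ≤ 2 * (lam * L ^ B) := Yl_ev lam B c hlam
  have e3 : ∀ᶠ L : ℝ in atTop, 2 * (lam * L ^ B) ≤ L ^ ((k + 1) * a) := by
    have h1 := (tendsto_rpow_atTop (show 0 < (k + 1) * a - B by linarith)).eventually_ge_atTop (2 * lam : ℝ)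
    filter_upwards [h1, eventually_gt_atTop (0 : ℝ)] with L h2 hL0
    have h5 : L ^ ((k + 1) * a) = L ^ B * L ^ ((k + 1) * a - B) := by
      rw [← Real.rpow_add hL0]; congr 1; ring
    rw [h5]
    have h6 : 0 < L ^ B := Real.rpow_pos_of_pos hL0 _
    calc 2 * (lam * L ^ B) = L ^ B * (2 * lam) := by ring
      _ ≤ _ := by gcongr
  have e4 : ∀ᶠ L : ℝ in atTop, q * L ^ (k * b) ≤ η / 4 * (lam * L ^ B) := by
    have h1 := (tendsto_rpow_atTop (show 0 < B - k * b by linarith)).eventually_ge_atTop (4 * q / (η * lam))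
    filter_upwards [h1, eventually_gt_atTop (0 : ℝ)] with L h2 hL0
    have h5 : L ^ B = L ^ (k * b) * L ^ (B - k * b) := by
      rw [← Real.rpow_add hL0]; congr 1; ring
    rw [h5]
    have h6 : 0 < L ^ (k * b) := Real.rpow_pos_of_pos hL0 _
    calc q * L ^ (k * b) = η / 4 * (lam * (L ^ (k * b) * (4 * q / (η * lam)))) := by field_simp
      _ ≤ _ := by gcongr
  have e5 := (tendsto_rpow_atTop ha).eventually_ge_atTop (q : ℝ)
  filter_upwards [hlog.eventually e1, hlog.eventually e2, hlog.eventually e3, hlog.eventually e4,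
    block_sum a b ha hab hb, hlog.eventually_ge_atTop (1 : ℝ), hlog.eventually e5] with X g1 g2 g3 g4 g5 g6 g7
  intro S ps hS
  obtain ⟨-, s2⟩ := g5 S ps hS
  set L := Real.log X with hL
  have hL0 : 0 < L := by linarith
  set a' := ⌊L ^ a⌋₊ with ha'
  set b' := ⌊L ^ b⌋₊ with hb'
  set P := PR X S ps a' b' with hP
  set Y := Yl lam B c L with hY
  have hb1 : 1 ≤ b' := by
    rw [hb']
    apply Nat.le_floor
    rw [Nat.cast_one]
    exact Real.one_le_rpow g6 hb0.le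
  have hPp : ∀ p ∈ P, p.Prime := fun p hp => (mem_PW.1 (Finset.mem_filter.1 hp).1).2.1
  have hPa : ∀ p ∈ P, a' < p := fun p hp => (Finset.mem_filter.1 hp).2.1
  have hPb : ∀ p ∈ P, p ≤ b' := fun p hp => (Finset.mem_filter.1 hp).2.2
  have hPY : ∀ p ∈ P, L ^ a < p := by
    intro p hp
    have hay : L ^ a < (a' : ℝ) + 1 := Nat.lt_floor_add_one _
    have h1 : (a' : ℝ) + 1 ≤ p := by exact_mod_cast hPa p hp
    linarith
  have hPq : ∀ p ∈ P, ¬ p ∣ q := by
    intro p hp hd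
    have h1 := hPY p hp
    have h2 : p ≤ q := Nat.le_of_dvd hq hd
    have h3 : (p : ℝ) ≤ q := by exact_mod_cast h2
    linarith
  have hx0 : ∀ p ∈ P, (0 : ℝ) ≤ 1 / (p : ℝ) := fun p _ => by positivity
  have hx1 : ∀ p ∈ P, (1 : ℝ) / (p : ℝ) ≤ 1 := by
    intro p hp
    have : (1 : ℝ) ≤ p := by exact_mod_cast (hPp p hp).one_lt.le
    rw [div_le_one (by linarith)]
    exact this
  have hprodk : ∀ s, s ⊆ P → s.card = k + 1 → Y < ∏ p ∈ s, p := by
    intro s hs hsc
    have h1 : (L ^ a) ^ (k + 1) < ((∏ p ∈ s, p : ℕ) : ℝ) := by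
      push_cast
      rw [← hsc, ← Finset.prod_const]
      apply Finset.prod_lt_prod_of_nonempty
      · intro p _
        exact Real.rpow_pos_of_pos hL0 _
      · intro p hp
        exact hPY p (hs hp)
      · rw [← Finset.card_pos, hsc]; omega
    have h2 : (L ^ a) ^ (k + 1) = L ^ ((k + 1) * a) := by
      rw [← Real.rpow_natCast, ← Real.rpow_mul hL0.le]
      congr 1; push_cast; ring
    rw [h2] at h1
    have h3 : (Y : ℝ) < ((∏ p ∈ s, p : ℕ) : ℝ) := by linarith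
    exact_mod_cast h3
  have hcnt := VQ_approx q cl hq P hPp hPq Y k b' hPb hb1 hprodk
  set V : ℝ := (VQ q cl P Y : ℝ) with hV
  set E := Pool.Agent.X30.MF.E (fun p : ℕ => 1 / (p : ℝ)) P k with hE
  have hLB : 0 < L ^ B := Real.rpow_pos_of_pos hL0 _
  have hlB : 0 < lam * L ^ B := by positivity
  have hbk' : q * (b' : ℝ) ^ k ≤ η / 4 * (lam * L ^ B) := by
    have h1 : (b' : ℝ) ≤ L ^ b := Nat.floor_le (Real.rpow_nonneg hL0.le _)
    refine le_trans ?_ g4
    apply mul_le_mul_of_nonneg_left _ hqr.le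
    calc (b' : ℝ) ^ k ≤ (L ^ b) ^ k := pow_le_pow_left₀ (Nat.cast_nonneg _) h1 k
      _ = L ^ (k * b) := by rw [← Real.rpow_natCast, ← Real.rpow_mul hL0.le]; congr 1; ring
  have hFdef : Pool.Agent.X30.MF.F (fun p : ℕ => 1 / (p : ℝ)) P k = (-1) ^ k * (E - BE P) := rfl
  have hE2 : |E| ≤ 2 := by
    have h1 : 0 ≤ Pool.Agent.X30.MF.F (fun p : ℕ => 1 / (p : ℝ)) P k := Pool.Agent.X30.MF.F_nonneg _ P hx0 hx1 k
    have h2 : Pool.Agent.X30.MF.F (fun p : ℕ => 1 / (p : ℝ)) P k ≤ 1 := by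
      refine (F_upper _ P hx0 hx1 k).trans ?_
      apply pow_le_one₀ (Finset.sum_nonneg hx0)
      linarith
    have h3 : |E - BE P| ≤ 1 := by
      have h4 : |Pool.Agent.X30.MF.F (fun p : ℕ => 1 / (p : ℝ)) P k| = |E - BE P| := by
        rw [hFdef, abs_mul, abs_pow, abs_neg, abs_one, one_pow, one_mul]
      rw [← h4, abs_of_nonneg h1]
      exact h2
    have h5 : 0 ≤ BE P := (BE_pos hPp).le
    have h6 : BE P ≤ 1 := BE_le_one hPp
    rw [abs_le] at h3 ⊢
    constructor <;> linarith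
  have h1 : (q : ℝ) * V / (lam * L ^ B) - E =
      q * (V - (Y : ℝ) / q * E) / (lam * L ^ B) + ((Y : ℝ) / (lam * L ^ B) - 1) * E := by
    field_simp
    ring
  rw [h1]
  refine (abs_add_le _ _).trans ?_
  have h2 : |q * (V - (Y : ℝ) / q * E) / (lam * L ^ B)| ≤ η / 4 := by
    rw [abs_div, abs_of_pos hlB, div_le_iff₀ hlB, abs_mul, abs_of_pos hqr]
    exact (mul_le_mul_of_nonneg_left hcnt hqr.le).trans hbk'
  have h3 : |((Y : ℝ) / (lam * L ^ B) - 1) * E| ≤ η / 4 * 2 := by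
    rw [abs_mul]
    exact mul_le_mul g1 hE2 (abs_nonneg _) (by positivity)
  linarith

end Pool.Agent.X30.AP
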