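import Mathlib

/-! # Smooth numbers: a simple superexponential upper bound (helper30) -/

set_option autoImplicit false

namespace Pool.Agent.X30.FW

open Finset
open ArithmeticFunction (vonMangoldt)

/-- `n` has no prime factor above `z` -/
def sm (z n : ℕ) : Prop := ∀ p : ℕ, p.Prime → p ∣ n → p ≤ z

open Classical in
/-- the `z`-smooth integers in `(t / 2, t]` -/
noncomputable def DS (z t : ℕ) : Finset ℕ := (Ioc (t / 2) t).filter (sm z)

open Classical in
/-- the `z`-smooth integers in `[1, t]` -/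
noncomputable def PS (z t : ℕ) : Finset ℕ := (Icc 1 t).filter (sm z)

lemma mem_DS {z t n : ℕ} : n ∈ DS z t ↔ (t / 2 < n ∧ n ≤ t) ∧ sm z n := by
  classical
  unfold DS
  rw [Finset.mem_filter, Finset.mem_Ioc]

lemma mem_PS {z t n : ℕ} : n ∈ PS z t ↔ (1 ≤ n ∧ n ≤ t) ∧ sm z n := by
  classical
  unfold PS
  rw [Finset.mem_filter, Finset.mem_Icc]

lemma DS_le (z t : ℕ) : (DS z t).card ≤ t := by
  classical
  unfold DS
  refine (Finset.card_filter_le _ _).trans ?_
  rw [Nat.card_Ioc]
  omega

lemma PS_le (z t : ℕ) : (PS z t).card ≤ t := by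
  classical
  unfold PS
  refine (Finset.card_filter_le _ _).trans ?_
  rw [Nat.card_Icc]
  omega

lemma PS_rec (z t : ℕ) (_ht : 1 ≤ t) : (PS z t).card = (DS z t).card + (PS z (t / 2)).card := by
  classical
  have h1 : PS z t = DS z t ∪ PS z (t / 2) := by
    ext n
    rw [Finset.mem_union, mem_PS, mem_DS, mem_PS]
    constructor
    · rintro ⟨⟨h1, h2⟩, h3⟩
      by_cases h : t / 2 < n
      · exact Or.inl ⟨⟨h, h2⟩, h3⟩
      · exact Or.inr ⟨⟨h1, not_lt.1 h⟩, h3⟩
    · rintro (⟨⟨h1, h2⟩, h3⟩ | ⟨⟨h1, h2⟩, h3⟩)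
      · exact ⟨⟨by omega, h2⟩, h3⟩
      · exact ⟨⟨h1, by omega⟩, h3⟩
  rw [h1, Finset.card_union_of_disjoint]
  rw [Finset.disjoint_left]
  intro n hn hn'
  have := (mem_DS.1 hn).1.1
  have := (mem_PS.1 hn').1.2
  omega

/-- the integers of `DS z t` divisible by `d` -/
lemma card_dvd (z t d : ℕ) (hd : 0 < d) :
    ((DS z t).filter (fun n => d ∣ n)).card ≤ (DS z (t / d)).card := by
  classical
  apply Finset.card_le_card_of_injOn (fun n => n / d)
  · intro n hn
    rw [Finset.mem_coe, Finset.mem_filter, mem_DS] at hn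
    obtain ⟨⟨⟨h1, h2⟩, h3⟩, m, rfl⟩ := hn
    rw [Finset.mem_coe, mem_DS]
    have hm : d * m / d = m := Nat.mul_div_cancel_left m hd
    simp only [hm]
    refine ⟨⟨?_, ?_⟩, fun p hp hpm => h3 p hp (hpm.trans (Dvd.intro_left d rfl))⟩
    · have h4 : t < 2 * (d * m) := by omega
      have h5 : t / d < 2 * m := by
        rw [Nat.div_lt_iff_lt_mul hd]
        calc t < 2 * (d * m) := h4
          _ = 2 * m * d := by ring
      omega
    · rw [Nat.le_div_iff_mul_le hd, mul_comm]
      exact h2
  · intro n hn n' hn' h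
    rw [Finset.mem_coe, Finset.mem_filter] at hn hn'
    obtain ⟨m, rfl⟩ := hn.2
    obtain ⟨m', rfl⟩ := hn'.2
    simp only [Nat.mul_div_cancel_left _ hd] at h
    rw [h]

/-- the fundamental inequality -/
lemma log_sum (z t : ℕ) :
    ∑ n ∈ DS z t, Real.log n ≤
      ∑ d ∈ Icc 1 t, (if d ≤ z ∨ ¬ d.Prime then vonMangoldt d else 0) * (DS z (t / d)).card := by
  classical
  have h1 : ∀ n ∈ DS z t, Real.log n ≤
      ∑ d ∈ Icc 1 t, (if d ≤ z ∨ ¬ d.Prime then vonMangoldt d else 0) * (if d ∣ n then 1 else 0) := by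
    intro n hn
    obtain ⟨⟨h2, h3⟩, h4⟩ := mem_DS.1 hn
    have hn0 : n ≠ 0 := by omega
    rw [← ArithmeticFunction.vonMangoldt_sum]
    have h5 : n.divisors ⊆ Icc 1 t := by
      intro d hd
      rw [Nat.mem_divisors] at hd
      rw [Finset.mem_Icc]
      exact ⟨Nat.pos_of_dvd_of_pos hd.1 (by omega), (Nat.le_of_dvd (by omega) hd.1).trans h3⟩
    calc ∑ i ∈ n.divisors, vonMangoldt i
        = ∑ d ∈ n.divisors, (if d ≤ z ∨ ¬ d.Prime then vonMangoldt d else 0) * (if d ∣ n then 1 else 0) := by
          apply Finset.sum_congr rfl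
          intro d hd
          have hd' := (Nat.mem_divisors.1 hd).1
          rw [if_pos hd', mul_one, if_pos]
          by_cases hp : d.Prime
          · exact Or.inl (h4 d hp hd')
          · exact Or.inr hp
      _ ≤ _ := by
          apply Finset.sum_le_sum_of_subset_of_nonneg h5
          intro d _ _
          apply mul_nonneg
          · split_ifs
            · exact ArithmeticFunction.vonMangoldt_nonneg
            · exact le_rfl
          · split_ifs <;> norm_num
  refine (Finset.sum_le_sum h1).trans ?_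
  rw [Finset.sum_comm]
  apply Finset.sum_le_sum
  intro d hd
  rw [← Finset.mul_sum]
  apply mul_le_mul_of_nonneg_left
  · rw [← Finset.sum_filter, Finset.sum_const, nsmul_eq_mul, mul_one]
    exact_mod_cast card_dvd z t d (Finset.mem_Icc.1 hd).1
  · split_ifs
    · exact ArithmeticFunction.vonMangoldt_nonneg
    · exact le_rfl

/-- tail of the non-prime prime powers -/
lemma tail : ∃ C : ℝ, 0 ≤ C ∧ ∀ z t : ℕ, 1 ≤ z → z ≤ t →
    ∑ d ∈ (Ioc z t).filter (fun d => ¬ d.Prime), vonMangoldt d / d ≤ C / Real.sqrt z := by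
  obtain ⟨C0, hC0⟩ := Chebyshev.psi_sub_theta_le_mul_sqrt
  set C : ℝ := |C0| with hC
  have hCn : 0 ≤ C := abs_nonneg _
  set A : ℕ → ℝ := fun m => ∑ d ∈ (Ioc 0 m).filter (fun d => ¬ d.Prime), vonMangoldt d with hA
  have hAb : ∀ m : ℕ, A m ≤ C * Real.sqrt m := by
    intro m
    have h1 := Chebyshev.psi_sub_theta_eq_sum_not_prime (m : ℝ)
    rw [Nat.floor_natCast] at h1
    have h2 := hC0 m
    rw [h1] at h2
    refine h2.trans ?_
    exact mul_le_mul_of_nonneg_right (le_abs_self _) (Real.sqrt_nonneg _)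
  refine ⟨2 * C, by positivity, fun z t hz hzt => ?_⟩
  have key : ∀ s : ℕ, ∑ d ∈ (Ioc z (z + s)).filter (fun d => ¬ d.Prime), vonMangoldt d / d ≤
      A (z + s) / ((z + s : ℕ) : ℝ) + C * (2 / Real.sqrt z - 2 / Real.sqrt ((z + s : ℕ) : ℝ)) := by
    intro s
    induction s with
    | zero =>
      have h1 : 0 ≤ A z := Finset.sum_nonneg fun d _ => ArithmeticFunction.vonMangoldt_nonneg
      simp only [add_zero, Finset.Ioc_self, Finset.filter_empty, Finset.sum_empty, sub_self, mul_zero]
      positivity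
    | succ s ih =>
      set m := z + s with hm
      have hm0 : (0 : ℝ) < m := by
        have : 0 < m := by omega
        exact_mod_cast this
      have e1 : z + (s + 1) = m + 1 := by omega
      rw [e1]
      have hsplit : ∀ (g : ℕ → ℝ) (l : ℕ), l ≤ m → ∑ d ∈ (Ioc l (m + 1)).filter (fun d => ¬ d.Prime), g d =
          ∑ d ∈ (Ioc l m).filter (fun d => ¬ d.Prime), g d + (if ¬ (m + 1).Prime then g (m + 1) else 0) := by
        intro g l hl
        rw [Finset.sum_filter, Finset.sum_filter, Finset.sum_Ioc_succ_top hl]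
      rw [hsplit (fun d => vonMangoldt d / d) z (by omega)]
      have hA1 : A (m + 1) = A m + (if ¬ (m + 1).Prime then vonMangoldt (m + 1) else 0) :=
        hsplit (fun d => vonMangoldt d) 0 (by omega)
      rw [hA1]
      have e2 : (if ¬ (m + 1).Prime then vonMangoldt (m + 1) / ((m + 1 : ℕ) : ℝ) else 0) =
          (if ¬ (m + 1).Prime then vonMangoldt (m + 1) else 0) / ((m + 1 : ℕ) : ℝ) := by
        split_ifs <;> simp
      rw [e2, add_div]
      have hAm := hAb m
      have e3 : A m / (m : ℝ) - A m / ((m + 1 : ℕ) : ℝ) ≤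
          C * (2 / Real.sqrt (m : ℝ) - 2 / Real.sqrt ((m + 1 : ℕ) : ℝ)) := by
        push_cast
        set a := Real.sqrt (m : ℝ) with ha
        set b := Real.sqrt ((m : ℝ) + 1) with hb
        have ha0 : 0 < a := Real.sqrt_pos.2 hm0
        have hb0 : 0 < b := Real.sqrt_pos.2 (by linarith)
        have ha2 : a ^ 2 = m := Real.sq_sqrt hm0.le
        have hb2 : b ^ 2 = m + 1 := Real.sq_sqrt (by linarith)
        have hab : a ≤ b := Real.sqrt_le_sqrt (by linarith)
        have h1 : A m / (m : ℝ) - A m / ((m : ℝ) + 1) = A m / (m * (m + 1)) := by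
          field_simp; ring
        rw [h1]
        have h2 : A m / ((m : ℝ) * (m + 1)) ≤ C / (a * b ^ 2) := by
          rw [hb2, div_le_div_iff₀ (by positivity) (by positivity)]
          calc A m * (a * ((m : ℝ) + 1)) ≤ (C * a) * (a * ((m : ℝ) + 1)) :=
                mul_le_mul_of_nonneg_right hAm (by positivity)
            _ = C * (a ^ 2 * (m + 1)) := by ring
            _ = C * (m * (m + 1)) := by rw [ha2]
        refine h2.trans ?_
        have h3 : 2 / a - 2 / b = 2 / (a * b * (a + b)) := by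
          have h4 : (b - a) * (a + b) = 1 := by
            have : (b - a) * (a + b) = b ^ 2 - a ^ 2 := by ring
            rw [this, ha2, hb2]; ring
          have h5 : 2 / a - 2 / b = 2 * (b - a) / (a * b) := by field_simp
          rw [h5, div_eq_div_iff (by positivity) (by positivity)]
          calc 2 * (b - a) * (a * b * (a + b)) = 2 * (a * b) * ((b - a) * (a + b)) := by ring
            _ = 2 * (a * b) := by rw [h4, mul_one]
        rw [h3, mul_div_assoc', div_le_div_iff₀ (by positivity) (by positivity)]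
        have h4 : a * b * (a + b) ≤ 2 * (a * b ^ 2) := by
          have : a * b * (a + b) ≤ a * b * (b + b) := mul_le_mul_of_nonneg_left (by linarith) (by positivity)
          linarith
        calc C * (a * b * (a + b)) ≤ C * (2 * (a * b ^ 2)) := mul_le_mul_of_nonneg_left h4 hCn
          _ = C * 2 * (a * b ^ 2) := by ring
      have e4 : C * (2 / Real.sqrt z - 2 / Real.sqrt ((m + 1 : ℕ) : ℝ)) =
          C * (2 / Real.sqrt z - 2 / Real.sqrt ((m : ℕ) : ℝ)) +
          C * (2 / Real.sqrt (m : ℝ) - 2 / Real.sqrt ((m + 1 : ℕ) : ℝ)) := by ring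
      rw [e4]
      linarith
  obtain ⟨s, rfl⟩ := Nat.exists_eq_add_of_le hzt
  refine (key s).trans ?_
  set m := z + s with hm
  have hm0 : (0 : ℝ) < m := by
    have : 0 < m := by omega
    exact_mod_cast this
  have hsq : 0 < Real.sqrt (m : ℝ) := Real.sqrt_pos.2 hm0
  have h1 : A m / (m : ℝ) ≤ C / Real.sqrt m := by
    rw [div_le_div_iff₀ hm0 hsq]
    calc A m * Real.sqrt m ≤ (C * Real.sqrt m) * Real.sqrt m := mul_le_mul_of_nonneg_right (hAb m) hsq.le
      _ = C * m := by rw [mul_assoc, Real.mul_self_sqrt hm0.le]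
  have h2 : C * (2 / Real.sqrt z - 2 / Real.sqrt (m : ℝ)) = 2 * C / Real.sqrt z - 2 * (C / Real.sqrt m) := by
    ring
  have h3 : 0 ≤ C / Real.sqrt m := by positivity
  linarith

/-- Mertens' first theorem, upper bound -/
lemma mertens : ∃ C : ℝ, 0 ≤ C ∧ ∀ z : ℕ, 1 ≤ z →
    ∑ d ∈ Icc 1 z, vonMangoldt d / d ≤ Real.log z + C := by
  refine ⟨Real.log 4 + 4, by positivity, fun z hz => ?_⟩
  have hz0 : (0 : ℝ) < z := by exact_mod_cast hz
  -- sum of logarithms
  have h1 : ∑ n ∈ Icc 1 z, Real.log n ≤ z * Real.log z := by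
    calc ∑ n ∈ Icc 1 z, Real.log n ≤ ∑ _n ∈ Icc 1 z, Real.log z := by
          apply Finset.sum_le_sum
          intro n hn
          rw [Finset.mem_Icc] at hn
          apply Real.log_le_log
          · exact_mod_cast hn.1
          · exact_mod_cast hn.2
      _ = z * Real.log z := by
          rw [Finset.sum_const, Nat.card_Icc, nsmul_eq_mul]
          simp
  have h2 : ∑ n ∈ Icc 1 z, Real.log n = ∑ d ∈ Icc 1 z, vonMangoldt d * ((z / d : ℕ) : ℝ) := by
    have h3 : ∀ n ∈ Icc 1 z, Real.log n = ∑ d ∈ Icc 1 z, vonMangoldt d * (if d ∣ n then (1 : ℝ) else 0) := by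
      intro n hn
      rw [Finset.mem_Icc] at hn
      rw [← ArithmeticFunction.vonMangoldt_sum]
      simp_rw [mul_ite, mul_one, mul_zero]
      rw [← Finset.sum_filter]
      apply Finset.sum_congr _ (fun _ _ => rfl)
      ext d
      rw [Nat.mem_divisors, Finset.mem_filter, Finset.mem_Icc]
      constructor
      · rintro ⟨h4, h5⟩
        exact ⟨⟨Nat.pos_of_dvd_of_pos h4 (by omega), (Nat.le_of_dvd (by omega) h4).trans hn.2⟩, h4⟩
      · rintro ⟨h4, h5⟩
        exact ⟨h5, by omega⟩
    rw [Finset.sum_congr rfl h3, Finset.sum_comm]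
    apply Finset.sum_congr rfl
    intro d hd
    rw [← Finset.mul_sum, ← Finset.sum_filter, Finset.sum_const, nsmul_eq_mul, mul_one]
    congr 1
    have h4 := Nat.card_multiples' z d
    rw [← h4]
    congr 1
    apply congrArg
    ext n
    rw [Finset.mem_filter, Finset.mem_filter, Finset.mem_Icc, Finset.mem_range]
    constructor
    · rintro ⟨h5, h6⟩; exact ⟨by omega, by omega, h6⟩
    · rintro ⟨h5, h6, h7⟩; exact ⟨by omega, h7⟩
  have h3 : ∑ d ∈ Icc 1 z, vonMangoldt d * ((z : ℝ) / d - 1) ≤ z * Real.log z := by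
    refine le_trans ?_ h1
    rw [h2]
    apply Finset.sum_le_sum
    intro d hd
    apply mul_le_mul_of_nonneg_left _ ArithmeticFunction.vonMangoldt_nonneg
    have hd0 : 0 < d := (Finset.mem_Icc.1 hd).1
    have h4 : (z : ℝ) / d < ((z / d : ℕ) : ℝ) + 1 := by
      rw [div_lt_iff₀ (by exact_mod_cast hd0)]
      have h5 : z < (z / d + 1) * d := by
        rw [add_mul, one_mul]
        exact Nat.lt_div_mul_add hd0
      exact_mod_cast h5
    linarith
  have h4 : ∑ d ∈ Icc 1 z, vonMangoldt d ≤ (Real.log 4 + 4) * z := by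
    have h5 := Chebyshev.psi_le_const_mul_self hz0.le
    unfold Chebyshev.psi at h5
    rw [Nat.floor_natCast] at h5
    exact h5
  have h5 : ∑ d ∈ Icc 1 z, vonMangoldt d * ((z : ℝ) / d - 1) =
      z * ∑ d ∈ Icc 1 z, vonMangoldt d / d - ∑ d ∈ Icc 1 z, vonMangoldt d := by
    rw [Finset.mul_sum, ← Finset.sum_sub_distrib]
    apply Finset.sum_congr rfl
    intro d _
    ring
  rw [h5] at h3
  have h6 : z * ∑ d ∈ Icc 1 z, vonMangoldt d / d ≤ z * (Real.log z + (Real.log 4 + 4)) := by
    rw [mul_add]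
    linarith
  exact le_of_mul_le_mul_left h6 hz0

/-- **Smooth numbers.** -/
theorem smooth : ∃ (C : ℝ) (z₀ : ℕ), 0 ≤ C ∧ 3 ≤ z₀ ∧ ∀ z : ℕ, z₀ ≤ z → ∀ k t : ℕ, z ^ k ≤ t →
    ((DS z t).card : ℝ) ≤ t * (2 ^ k / (k.factorial : ℝ) + C / Real.sqrt z) := by
  obtain ⟨C1, hC1, h1⟩ := mertens
  obtain ⟨C2, hC2, h2⟩ := tail
  obtain ⟨z₀, hz₀⟩ := Filter.eventually_atTop.1
    ((Real.tendsto_log_atTop.comp tendsto_natCast_atTop_atTop).eventually_ge_atTop (4 * C1 + 4 * C2 + 12))
  refine ⟨C2, max z₀ 3, hC2, le_max_right _ _, fun z hz => ?_⟩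
  have hlz : 4 * C1 + 4 * C2 + 12 ≤ Real.log z := hz₀ z ((le_max_left _ _).trans hz)
  have hz3 : 3 ≤ z := (le_max_right _ _).trans hz
  have hz1 : (1 : ℝ) ≤ z := by
    have : 1 ≤ z := by omega
    exact_mod_cast this
  have hsz : 1 ≤ Real.sqrt z := Real.one_le_sqrt.2 hz1
  have hη : 0 ≤ C2 / Real.sqrt z := by positivity
  have hη1 : C2 / Real.sqrt z ≤ C2 := div_le_self hC2 hsz
  set η := C2 / Real.sqrt z with hηdef
  -- the recurrence
  have step : ∀ (k : ℕ) (M : ℝ), 0 ≤ M → (∀ t : ℕ, z ^ k ≤ t → ((DS z t).card : ℝ) ≤ t * M) →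
      ∀ t : ℕ, z ^ (k + 1) ≤ t → ((DS z t).card : ℝ) ≤
        t * ((M * (Real.log z + C1) + η) / ((k + 1) * (Real.log z - 1))) := by
    intro k M hM ih t ht
    have hzt : z ≤ t := le_trans (by rw [pow_succ]; exact Nat.le_mul_of_pos_left _ (by positivity)) ht
    have ht0 : (0 : ℝ) < t := by
      have : 0 < t := by omega
      exact_mod_cast this
    have hden : 0 < ((k : ℝ) + 1) * (Real.log z - 1) := by
      apply mul_pos (by positivity)
      linarith
    -- lower bound of the sum of logarithms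
    have e1 : (DS z t).card * (((k : ℝ) + 1) * (Real.log z - 1)) ≤ ∑ n ∈ DS z t, Real.log n := by
      rw [← nsmul_eq_mul]
      apply Finset.card_nsmul_le_sum
      intro n hn
      obtain ⟨⟨h3, h4⟩, -⟩ := mem_DS.1 hn
      have h5 : (t : ℝ) ≤ 2 * n := by
        have : t ≤ 2 * n := by omega
        exact_mod_cast this
      have h6 : ((z : ℝ)) ^ (k + 1) ≤ 2 * n := le_trans (by exact_mod_cast ht) h5
      have h7 : Real.log ((z : ℝ) ^ (k + 1)) ≤ Real.log (2 * n) := Real.log_le_log (by positivity) h6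
      have hn0 : (n : ℝ) ≠ 0 := by
        intro h8
        rw [h8] at h5
        linarith
      rw [Real.log_pow, Real.log_mul (by norm_num) hn0] at h7
      have h8 : Real.log 2 ≤ 1 := by
        have := Real.log_two_lt_d9
        linarith
      push_cast at h7
      have h9 : (0 : ℝ) ≤ k := Nat.cast_nonneg k
      nlinarith
    -- upper bound
    have e2 := log_sum z t
    have e3 : ∑ d ∈ Icc 1 t, (if d ≤ z ∨ ¬ d.Prime then vonMangoldt d else 0) * ((DS z (t / d)).card : ℝ) ≤
        t * (M * (Real.log z + C1) + η) := by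
      have hsplit : Icc 1 t = Icc 1 z ∪ Ioc z t := by
        ext d
        rw [Finset.mem_union, Finset.mem_Icc, Finset.mem_Icc, Finset.mem_Ioc]
        omega
      have hdis : Disjoint (Icc 1 z) (Ioc z t) := by
        rw [Finset.disjoint_left]
        intro d hd hd'
        rw [Finset.mem_Icc] at hd
        rw [Finset.mem_Ioc] at hd'
        omega
      rw [hsplit, Finset.sum_union hdis]
      have e4 : ∑ d ∈ Icc 1 z, (if d ≤ z ∨ ¬ d.Prime then vonMangoldt d else 0) * ((DS z (t / d)).card : ℝ) ≤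
          t * (M * (Real.log z + C1)) := by
        calc ∑ d ∈ Icc 1 z, (if d ≤ z ∨ ¬ d.Prime then vonMangoldt d else 0) * ((DS z (t / d)).card : ℝ)
            ≤ ∑ d ∈ Icc 1 z, t * M * (vonMangoldt d / d) := by
              apply Finset.sum_le_sum
              intro d hd
              rw [Finset.mem_Icc] at hd
              rw [if_pos (Or.inl hd.2)]
              have hd0 : (0 : ℝ) < d := by exact_mod_cast hd.1
              have h3 : z ^ k ≤ t / d := by
                rw [Nat.le_div_iff_mul_le (by omega)]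
                calc z ^ k * d ≤ z ^ k * z := Nat.mul_le_mul_left _ hd.2
                  _ = z ^ (k + 1) := by rw [pow_succ]
                  _ ≤ t := ht
              have h4 := ih (t / d) h3
              have h5 : ((t / d : ℕ) : ℝ) ≤ (t : ℝ) / d := Nat.cast_div_le
              calc vonMangoldt d * ((DS z (t / d)).card : ℝ) ≤ vonMangoldt d * ((t : ℝ) / d * M) := by
                    apply mul_le_mul_of_nonneg_left _ ArithmeticFunction.vonMangoldt_nonneg
                    exact h4.trans (mul_le_mul_of_nonneg_right h5 hM)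
                _ = t * M * (vonMangoldt d / d) := by ring
          _ = t * M * ∑ d ∈ Icc 1 z, vonMangoldt d / d := by rw [← Finset.mul_sum]
          _ ≤ t * M * (Real.log z + C1) := mul_le_mul_of_nonneg_left (h1 z (by omega)) (by positivity)
          _ = _ := by ring
      have e5 : ∑ d ∈ Ioc z t, (if d ≤ z ∨ ¬ d.Prime then vonMangoldt d else 0) * ((DS z (t / d)).card : ℝ) ≤
          t * η := by
        calc ∑ d ∈ Ioc z t, (if d ≤ z ∨ ¬ d.Prime then vonMangoldt d else 0) * ((DS z (t / d)).card : ℝ)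
            ≤ ∑ d ∈ Ioc z t, (if ¬ d.Prime then t * (vonMangoldt d / d) else 0) := by
              apply Finset.sum_le_sum
              intro d hd
              rw [Finset.mem_Ioc] at hd
              have hd0 : (0 : ℝ) < d := by
                have : 0 < d := by omega
                exact_mod_cast this
              by_cases hp : d.Prime
              · rw [if_neg (by rintro (h | h); · omega
                               · exact h hp), zero_mul, if_neg (not_not.2 hp)]
              · rw [if_pos (Or.inr hp), if_pos hp]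
                have h4 : ((DS z (t / d)).card : ℝ) ≤ (t : ℝ) / d := by
                  have : ((DS z (t / d)).card : ℝ) ≤ ((t / d : ℕ) : ℝ) := by exact_mod_cast DS_le z (t / d)
                  exact this.trans Nat.cast_div_le
                calc vonMangoldt d * ((DS z (t / d)).card : ℝ) ≤ vonMangoldt d * ((t : ℝ) / d) :=
                      mul_le_mul_of_nonneg_left h4 ArithmeticFunction.vonMangoldt_nonneg
                  _ = t * (vonMangoldt d / d) := by ring
          _ = t * ∑ d ∈ (Ioc z t).filter (fun d => ¬ d.Prime), vonMangoldt d / d := by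
              rw [← Finset.sum_filter, Finset.mul_sum]
          _ ≤ t * η := mul_le_mul_of_nonneg_left (h2 z t (by omega) hzt) ht0.le
      calc _ ≤ t * (M * (Real.log z + C1)) + t * η := add_le_add e4 e5
        _ = _ := by ring
    rw [mul_div_assoc', le_div_iff₀ hden]
    linarith
  have hL1 : 0 < Real.log z - 1 := by linarith
  intro k
  induction k with
  | zero =>
    intro t _
    have h3 : ((DS z t).card : ℝ) ≤ t := by exact_mod_cast DS_le z t
    have h4 : (0 : ℝ) ≤ t := Nat.cast_nonneg t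
    simp only [pow_zero, Nat.factorial_zero, Nat.cast_one, div_one]
    nlinarith
  | succ k ih =>
    intro t ht
    rcases Nat.eq_zero_or_pos k with rfl | hk
    · have h3 := step 0 1 (by norm_num) (fun t _ => by
        rw [mul_one]
        exact_mod_cast DS_le z t) t ht
      refine h3.trans (mul_le_mul_of_nonneg_left ?_ (Nat.cast_nonneg t))
      simp only [zero_add, pow_one, Nat.factorial_one, Nat.cast_one, div_one, Nat.cast_zero, one_mul]
      rw [div_le_iff₀ hL1]
      nlinarith
    · have h3 := step k _ (by positivity) ih t ht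
      refine h3.trans (mul_le_mul_of_nonneg_left ?_ (Nat.cast_nonneg t))
      have hk1 : (1 : ℝ) ≤ k := by exact_mod_cast hk
      have hden : 0 < ((k : ℝ) + 1) * (Real.log z - 1) := by positivity
      rw [div_le_iff₀ hden, pow_succ, Nat.factorial_succ]
      push_cast
      set F : ℝ := 2 ^ k / (k.factorial : ℝ) with hF
      have hF0 : 0 ≤ F := by positivity
      have h4 : 2 ^ k * 2 / (((k : ℝ) + 1) * (k.factorial : ℝ)) * (((k : ℝ) + 1) * (Real.log z - 1)) =
          F * (2 * (Real.log z - 1)) := by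
        rw [hF]; field_simp
      rw [add_mul (2 ^ k * 2 / (((k : ℝ) + 1) * (k.factorial : ℝ))), h4]
      have h5 : F * (Real.log z + C1) ≤ F * (2 * (Real.log z - 1)) := by
        apply mul_le_mul_of_nonneg_left _ hF0
        linarith
      have h6 : η * (Real.log z + C1) + η ≤ η * (((k : ℝ) + 1) * (Real.log z - 1)) := by
        have h7 : η * (Real.log z + C1) + η = η * (Real.log z + C1 + 1) := by ring
        rw [h7]
        apply mul_le_mul_of_nonneg_left _ hη
        nlinarith
      linarith [add_mul F η (Real.log z + C1)]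

theorem smoothPS : ∃ (C : ℝ) (z₀ : ℕ), 0 ≤ C ∧ 3 ≤ z₀ ∧ ∀ z : ℕ, z₀ ≤ z → ∀ k t : ℕ,
    ((PS z t).card : ℝ) ≤ 2 * t * (2 ^ k / (k.factorial : ℝ) + C / Real.sqrt z) + z ^ k := by
  obtain ⟨C, z₀, hC, hz3, h⟩ := smooth
  refine ⟨C, z₀, hC, hz3, fun z hz k t => ?_⟩
  set M : ℝ := 2 ^ k / (k.factorial : ℝ) + C / Real.sqrt z with hM
  have hM0 : 0 ≤ M := by positivity
  induction t using Nat.strong_induction_on with
  | _ t ih =>
    by_cases ht : z ^ k ≤ t
    · have ht1 : 1 ≤ t := le_trans (Nat.one_le_pow _ _ (by omega)) ht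
      rw [PS_rec z t ht1]
      push_cast
      have h1 := h z hz k t ht
      have h2 := ih (t / 2) (by omega)
      have h3 : ((t / 2 : ℕ) : ℝ) ≤ (t : ℝ) / 2 := Nat.cast_div_le
      have h4 : 2 * ((t / 2 : ℕ) : ℝ) * M ≤ t * M := by
        apply mul_le_mul_of_nonneg_right _ hM0
        linarith
      linarith
    · have h1 : ((PS z t).card : ℝ) ≤ t := by exact_mod_cast PS_le z t
      have h2 : (t : ℝ) ≤ (z : ℝ) ^ k := by exact_mod_cast (not_le.1 ht).le
      have h3 : 0 ≤ 2 * (t : ℝ) * M := by positivity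
      linarith

end Pool.Agent.X30.FW
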