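import Mathlib
import Pool.Agent.X30.Few1
import Pool.Agent.Helper602.MK.J3
import Pool.Agent.H510R2.Maier.MB9

/-! # Windows with few primes: survivors of the sieve and averages over a progression (helper30) -/

set_option autoImplicit false

namespace Pool.Agent.X30.FW

open Finset Filter Topology
open Pool.Agent.H378R2 Pool.Agent.H510R2.Maier

/-- the number of primes in `(n, n + y]` -/
def pw (n y : ℕ) : ℕ := ((Ioc n (n + y)).filter Nat.Prime).card

/-- the survivors -/
def SV (P : Finset ℕ) (y : ℕ) : Finset ℕ := (Icc 1 y).filter (fun h => ∀ p ∈ P, ¬ p ∣ h)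

lemma SV_card_le (P : Finset ℕ) (y : ℕ) : (SV P y).card ≤ y := by
  unfold SV
  refine (Finset.card_filter_le _ _).trans ?_
  rw [Nat.card_Icc]; omega

theorem survivors (z b y : ℕ) :
    (SV (PI z b) y).card ≤ (PS z y).card + ∑ s ∈ Icc 1 (y / (b + 1)), Nat.primeCounting (y / s) := by
  classical
  have h1 : SV (PI z b) y ⊆ PS z y ∪ (Icc 1 (y / (b + 1))).biUnion
      (fun s => ((Icc 1 (y / s)).filter Nat.Prime).image (fun q => q * s)) := by
    intro h hh
    unfold SV at hh
    rw [Finset.mem_filter, Finset.mem_Icc] at hh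
    obtain ⟨⟨h1, h2⟩, h3⟩ := hh
    rw [Finset.mem_union]
    by_cases hs : sm z h
    · exact Or.inl (mem_PS.2 ⟨⟨h1, h2⟩, hs⟩)
    · right
      unfold sm at hs
      push Not at hs
      obtain ⟨q, hq, ⟨s, rfl⟩, hqz⟩ := hs
      have hqb : b < q := by
        by_contra hcon
        exact h3 q (mem_PI.2 ⟨⟨hqz, not_lt.1 hcon⟩, hq⟩) (Dvd.intro s rfl)
      have hs1 : 1 ≤ s := by
        rcases Nat.eq_zero_or_pos s with h0 | h0
        · rw [h0, mul_zero] at h1; omega
        · exact h0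
      rw [Finset.mem_biUnion]
      refine ⟨s, ?_, ?_⟩
      · rw [Finset.mem_Icc]
        refine ⟨hs1, ?_⟩
        rw [Nat.le_div_iff_mul_le (by omega)]
        calc s * (b + 1) ≤ s * q := Nat.mul_le_mul_left _ hqb
          _ = q * s := mul_comm _ _
          _ ≤ y := h2
      · rw [Finset.mem_image]
        refine ⟨q, ?_, rfl⟩
        rw [Finset.mem_filter, Finset.mem_Icc]
        refine ⟨⟨hq.one_lt.le, ?_⟩, hq⟩
        rw [Nat.le_div_iff_mul_le (by omega)]
        exact h2
  refine (Finset.card_le_card h1).trans ((Finset.card_union_le _ _).trans ?_)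
  apply Nat.add_le_add_left
  refine Finset.card_biUnion_le.trans ?_
  apply Finset.sum_le_sum
  intro s _
  refine Finset.card_image_le.trans ?_
  rw [Nat.primeCounting, Nat.primeCounting', Nat.count_eq_card_filter_range]
  apply Finset.card_le_card
  intro q hq
  rw [Finset.mem_filter, Finset.mem_Icc] at hq
  rw [Finset.mem_filter, Finset.mem_range]
  exact ⟨by omega, hq.2⟩

/-- the sum over the cofactors -/
theorem cofactors : ∃ b₀ : ℕ, 2 ≤ b₀ ∧ ∀ b y : ℕ, b₀ ≤ b → b + 1 ≤ y →
    ∑ s ∈ Icc 1 (y / (b + 1)), (Nat.primeCounting (y / s) : ℝ) ≤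
      2 * y / Real.log (b + 1) * (1 + Real.log (y / (b + 1))) := by
  have h1 := Chebyshev.eventually_primeCounting_le (show (0 : ℝ) < 2 - Real.log 4 by
    have : Real.log 4 < 2 := by
      rw [show (4 : ℝ) = 2 ^ 2 by norm_num, Real.log_pow]
      have := Real.log_two_lt_d9
      push_cast; linarith
    linarith)
  obtain ⟨x₀, hx₀⟩ := eventually_atTop.1 h1
  obtain ⟨b₀, hb₀⟩ := exists_nat_ge (max x₀ 2)
  have hb2 : (2 : ℝ) ≤ b₀ := (le_max_right _ _).trans hb₀
  refine ⟨b₀, by exact_mod_cast hb2, fun b y hb hy => ?_⟩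
  have hbr : (b₀ : ℝ) ≤ b := by exact_mod_cast hb
  have hl : 0 < Real.log ((b : ℝ) + 1) := Real.log_pos (by linarith)
  have hyr : (b : ℝ) + 1 ≤ y := by exact_mod_cast hy
  have hy0 : (0 : ℝ) < y := by linarith
  have h2 : ∀ s ∈ Icc 1 (y / (b + 1)), (Nat.primeCounting (y / s) : ℝ) ≤
      2 * y / Real.log (b + 1) * ((s : ℝ))⁻¹ := by
    intro s hs
    rw [Finset.mem_Icc, Nat.le_div_iff_mul_le (by omega)] at hs
    have hs0 : (0 : ℝ) < s := by exact_mod_cast hs.1
    have h3 : b + 1 ≤ y / s := by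
      rw [Nat.le_div_iff_mul_le (by omega), mul_comm]
      exact hs.2
    have h4 : (b : ℝ) + 1 ≤ ((y / s : ℕ) : ℝ) := by exact_mod_cast h3
    have h5 := hx₀ ((y / s : ℕ) : ℝ) (by
      have := (le_max_left x₀ 2).trans hb₀
      linarith)
    rw [Nat.floor_natCast] at h5
    refine h5.trans ?_
    have h6 : ((y / s : ℕ) : ℝ) ≤ (y : ℝ) / s := Nat.cast_div_le
    have h7 : Real.log ((b : ℝ) + 1) ≤ Real.log ((y / s : ℕ) : ℝ) := Real.log_le_log (by linarith) h4
    calc (Real.log 4 + (2 - Real.log 4)) * ((y / s : ℕ) : ℝ) / Real.log ((y / s : ℕ) : ℝ)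
        = 2 * ((y / s : ℕ) : ℝ) / Real.log ((y / s : ℕ) : ℝ) := by ring
      _ ≤ 2 * ((y : ℝ) / s) / Real.log ((b : ℝ) + 1) := by gcongr
      _ = _ := by field_simp
  refine (Finset.sum_le_sum h2).trans ?_
  rw [← Finset.mul_sum]
  apply mul_le_mul_of_nonneg_left _ (by positivity)
  have h3 := harmonic_le_one_add_log (y / (b + 1))
  rw [harmonic_eq_sum_Icc] at h3
  push_cast at h3
  refine h3.trans ?_
  have h4 : 1 ≤ y / (b + 1) := by
    rw [Nat.le_div_iff_mul_le (by omega)]; omega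
  have h5 : ((y / (b + 1) : ℕ) : ℝ) ≤ (y : ℝ) / ((b : ℝ) + 1) := by
    have := Nat.cast_div_le (α := ℝ) (m := y) (n := b + 1)
    push_cast at this
    exact this
  have h6 : Real.log ((y / (b + 1) : ℕ) : ℝ) ≤ Real.log ((y : ℝ) / (b + 1)) :=
    Real.log_le_log (by exact_mod_cast h4) h5
  linarith

/-- the density of the integers prime to the primes of `(z, b]` -/
theorem BE_low : ∃ z₁ : ℕ, 3 ≤ z₁ ∧ ∀ z b : ℕ, z₁ ≤ z → z ≤ b →
    1 / BE (PI z b) ≤ Real.exp 4 * (Real.log b / Real.log z) := by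
  obtain ⟨M, hM⟩ := R1_real
  have h1 := hM.eventually (Metric.ball_mem_nhds M (show (0 : ℝ) < 1 by norm_num))
  obtain ⟨x₀, hx₀⟩ := eventually_atTop.1 h1
  obtain ⟨z₁, hz₁⟩ := exists_nat_ge (max x₀ 3)
  have hz3 : (3 : ℝ) ≤ z₁ := (le_max_right _ _).trans hz₁
  refine ⟨z₁, by exact_mod_cast hz3, fun z b hz hzb => ?_⟩
  have hzr : (z₁ : ℝ) ≤ z := by exact_mod_cast hz
  have hzbr : (z : ℝ) ≤ b := by exact_mod_cast hzb
  have hz3' : (3 : ℝ) ≤ z := hz3.trans hzr
  have hx0 : x₀ ≤ z := (le_max_left _ _).trans (hz₁.trans hzr)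
  have hlz : 1 < Real.log z := by
    rw [Real.lt_log_iff_exp_lt (by linarith)]
    have := Real.exp_one_lt_d9
    linarith
  have hlb : Real.log z ≤ Real.log b := Real.log_le_log (by linarith) hzbr
  have h2 := hx₀ z hx0
  have h3 := hx₀ b (hx0.trans hzbr)
  rw [Real.dist_eq, Nat.floor_natCast, abs_lt] at h2 h3
  have hPp : ∀ p ∈ PI z b, p.Prime := fun p hp => (mem_PI.1 hp).2
  have hsum : ∑ p ∈ PI z b, (1 : ℝ) / p ≤ Real.log (Real.log b) - Real.log (Real.log z) + 2 := by
    rw [sum_PI_inv hzb]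
    linarith [h2.1, h3.2]
  have hsq : ∑ p ∈ PI z b, (1 : ℝ) / (p : ℝ) ^ 2 ≤ 1 := by
    have h4 := sum_Ioc_inv_sq_le_sub (α := ℝ) (k := z) (n := b) (by
      intro h0
      rw [h0] at hz3'
      norm_num at hz3') hzb
    have h5 : ∑ p ∈ PI z b, (1 : ℝ) / (p : ℝ) ^ 2 ≤ ∑ i ∈ Ioc z b, ((i : ℝ) ^ 2)⁻¹ := by
      unfold PI
      refine (Finset.sum_le_sum_of_subset_of_nonneg (Finset.filter_subset _ _)
        (fun i _ _ => by positivity)).trans (le_of_eq ?_)
      exact Finset.sum_congr rfl fun i _ => one_div _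
    have h6 : ((z : ℝ))⁻¹ ≤ 1 := inv_le_one_of_one_le₀ (by linarith)
    have h7 : 0 ≤ ((b : ℝ))⁻¹ := by positivity
    linarith
  have hlow : Real.exp (-(∑ p ∈ PI z b, (1 : ℝ) / p + 2 * ∑ p ∈ PI z b, (1 : ℝ) / (p : ℝ) ^ 2)) ≤ BE (PI z b) := by
    unfold BE
    rw [Finset.mul_sum, ← Finset.sum_add_distrib, ← Finset.sum_neg_distrib, Real.exp_sum]
    apply Finset.prod_le_prod
    · intro i _; exact (Real.exp_pos _).le
    · intro p hp
      have hp2 : (2 : ℝ) ≤ p := by exact_mod_cast (hPp p hp).two_le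
      have hx : 0 < 1 - 1 / (p : ℝ) := by
        rw [sub_pos, div_lt_one (by linarith)]
        linarith
      rw [← Real.le_log_iff_exp_le hx]
      have h4 := Real.one_sub_inv_le_log_of_pos hx
      refine le_trans ?_ h4
      have h5 : 1 - (1 - 1 / (p : ℝ))⁻¹ = -(1 / ((p : ℝ) - 1)) := by
        have : (p : ℝ) - 1 ≠ 0 := by
          intro h; linarith
        have hp0 : (p : ℝ) ≠ 0 := by linarith
        field_simp
        ring
      rw [h5]
      apply neg_le_neg
      have hp1 : 0 < (p : ℝ) - 1 := by linarith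
      rw [div_add' _ _ _ (by positivity), div_le_div_iff₀ hp1 (by positivity)]
      have h6 : 2 * (1 / (p : ℝ) ^ 2) * p = 2 / p := by field_simp
      have h7 : (1 : ℝ) ≤ (1 + 2 * (1 / (p : ℝ) ^ 2) * p) * (p - 1) / p := by
        rw [h6, le_div_iff₀ (by linarith)]
        have h8 : (1 + 2 / (p : ℝ)) * (p - 1) = p - 1 + 2 - 2 / p := by field_simp; ring
        rw [h8]
        have h9 : 2 / (p : ℝ) ≤ 1 := by
          rw [div_le_one (by linarith)]
          exact hp2
        linarith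
      rw [le_div_iff₀ (by linarith)] at h7
      linarith
  have hB0 : 0 < BE (PI z b) := BE_pos hPp
  have h4 : 1 / BE (PI z b) ≤
      Real.exp (∑ p ∈ PI z b, (1 : ℝ) / p + 2 * ∑ p ∈ PI z b, (1 : ℝ) / (p : ℝ) ^ 2) := by
    rw [div_le_iff₀ hB0]
    have h5 := mul_le_mul_of_nonneg_left hlow
      (Real.exp_pos (∑ p ∈ PI z b, (1 : ℝ) / p + 2 * ∑ p ∈ PI z b, (1 : ℝ) / (p : ℝ) ^ 2)).le
    rw [← Real.exp_add, add_neg_cancel, Real.exp_zero] at h5
    exact h5
  refine h4.trans ?_
  calc Real.exp (∑ p ∈ PI z b, (1 : ℝ) / p + 2 * ∑ p ∈ PI z b, (1 : ℝ) / (p : ℝ) ^ 2)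
      ≤ Real.exp (4 + (Real.log (Real.log b) - Real.log (Real.log z))) :=
        Real.exp_le_exp.2 (by linarith)
    _ = Real.exp 4 * (Real.log b / Real.log z) := by
        rw [Real.exp_add, Real.exp_sub, Real.exp_log (by linarith), Real.exp_log (by linarith)]

/-- average over a progression -/
theorem average : ∃ C : ℝ, 1 ≤ C ∧ ∀ (P : Finset ℕ), (∀ p ∈ P, p.Prime) → ∀ X M y N : ℕ, 1 ≤ y →
    2 ≤ N → N * (∏ p ∈ P, p) ≤ X →
    (N : ℝ) / 2 ≤ (((Ioc M (M + X)).filter (fun n => (pw n y : ℝ) ≤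
      2 * (C * ((SV P y).card * (1 / BE P) / Real.log N)))).card : ℝ) := by
  classical
  obtain ⟨C, hC1, hC⟩ := Pool.Agent.Helper602.MK.N_J3.J3
  refine ⟨C, hC1, fun P hP X M y N hy hN hNX => ?_⟩
  set W := ∏ p ∈ P, p with hW
  have hW0 : 0 < W := Finset.prod_pos fun p hp => (hP p hp).pos
  set n0 := W * (M / W + 1) with hn0
  have hn0M : M < n0 := by
    rw [hn0]
    exact Nat.lt_mul_div_succ M hW0
  have hn0W : W ≤ n0 := Nat.le_mul_of_pos_right _ (Nat.succ_pos _)
  have hn0u : n0 ≤ M + W := by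
    rw [hn0, mul_add, mul_one]
    exact Nat.add_le_add_right (Nat.mul_div_le M W) W
  have hN2 : (2 : ℝ) ≤ N := by exact_mod_cast hN
  have hlN : 0 < Real.log N := Real.log_pos (by linarith)
  have hφ : (W.totient : ℝ) = W * BE P := totient_prod P hP
  have hB0 : 0 < BE P := BE_pos hP
  have hWr : (0 : ℝ) < W := by exact_mod_cast hW0
  have hratio : (W : ℝ) / W.totient = 1 / BE P := by rw [hφ]; field_simp
  set V : ℝ := ((SV P y).card : ℝ) with hV
  have hV1 : 1 ≤ V := by
    have h1 : 1 ∈ SV P y := by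
      unfold SV
      rw [Finset.mem_filter, Finset.mem_Icc]
      refine ⟨⟨le_rfl, hy⟩, fun p hp hd => ?_⟩
      exact (hP p hp).one_lt.ne' (Nat.dvd_one.1 hd)
    have h2 : 0 < (SV P y).card := Finset.card_pos.2 ⟨1, h1⟩
    rw [hV]
    exact_mod_cast h2
  set A : ℝ := C * (V * (1 / BE P) / Real.log N) with hA
  have hA0 : 0 < A := by positivity
  -- the sum
  have hsum : ∑ t ∈ range N, (pw (n0 + t * W) y : ℝ) ≤ N * A := by
    have h1 : ∀ t, (pw (n0 + t * W) y : ℝ) = ∑ h ∈ Icc 1 y, (if (n0 + t * W + h).Prime then (1 : ℝ) else 0) := by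
      intro t
      unfold pw
      rw [← Finset.sum_filter, Finset.sum_const, nsmul_eq_mul, mul_one]
      congr 1
      apply Finset.card_bij (fun q _ => q - (n0 + t * W))
      · intro q hq
        rw [Finset.mem_filter, Finset.mem_Ioc] at hq
        rw [Finset.mem_filter, Finset.mem_Icc]
        refine ⟨⟨by omega, by omega⟩, ?_⟩
        rw [show n0 + t * W + (q - (n0 + t * W)) = q by omega]
        exact hq.2
      · intro q hq q' hq' h
        rw [Finset.mem_filter, Finset.mem_Ioc] at hq hq'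
        omega
      · intro h hh
        rw [Finset.mem_filter, Finset.mem_Icc] at hh
        refine ⟨n0 + t * W + h, ?_, by omega⟩
        rw [Finset.mem_filter, Finset.mem_Ioc]
        exact ⟨⟨by omega, by omega⟩, hh.2⟩
    simp_rw [h1]
    rw [Finset.sum_comm]
    have h2 : ∀ h ∈ Icc 1 y, ∑ t ∈ range N, (if (n0 + t * W + h).Prime then (1 : ℝ) else 0) ≤
        if h ∈ SV P y then C * (1 / BE P) * N / Real.log N else 0 := by
      intro h hh
      split_ifs with hs
      · have h3 := hC (n0 + h) W N hW0 hN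
        rw [hratio] at h3
        rw [← Finset.sum_filter, Finset.sum_const, nsmul_eq_mul, mul_one]
        refine le_trans (le_of_eq ?_) h3
        congr 2
        apply Finset.filter_congr
        intro t _
        rw [show n0 + t * W + h = n0 + h + t * W by ring]
      · apply le_of_eq
        apply Finset.sum_eq_zero
        intro t _
        rw [if_neg]
        intro hprime
        apply hs
        unfold SV
        rw [Finset.mem_filter]
        refine ⟨hh, fun p hp hd => ?_⟩
        have hpW : p ∣ W := Finset.dvd_prod_of_mem _ hp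
        have hdvd : p ∣ n0 + t * W + h := by
          refine Dvd.dvd.add (Dvd.dvd.add ?_ (hpW.mul_left t)) hd
          exact hpW.mul_right _
        have hpe := (Nat.prime_dvd_prime_iff_eq (hP p hp) hprime).1 hdvd
        have hple : p ≤ W := Nat.le_of_dvd hW0 hpW
        have hh1 := (Finset.mem_Icc.1 hh).1
        omega
    refine (Finset.sum_le_sum h2).trans ?_
    rw [← Finset.sum_filter, Finset.sum_const, nsmul_eq_mul]
    have h3 : (Icc 1 y).filter (fun h => h ∈ SV P y) = SV P y := by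
      ext h
      rw [Finset.mem_filter]
      constructor
      · rintro ⟨_, h4⟩; exact h4
      · intro h4
        refine ⟨?_, h4⟩
        unfold SV at h4
        exact (Finset.mem_filter.1 h4).1
    rw [h3]
    apply le_of_eq
    rw [hA, hV]
    ring
  -- Markov
  set good := (range N).filter (fun t => (pw (n0 + t * W) y : ℝ) ≤ 2 * A) with hgood
  set bad := (range N).filter (fun t => ¬ (pw (n0 + t * W) y : ℝ) ≤ 2 * A) with hbad
  have hcard : (good.card : ℝ) + bad.card = N := by
    have := Finset.card_filter_add_card_filter_not (s := range N) (fun t => (pw (n0 + t * W) y : ℝ) ≤ 2 * A)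
    rw [Finset.card_range] at this
    exact_mod_cast this
  have hbadc : (bad.card : ℝ) ≤ N / 2 := by
    have h1 : (bad.card : ℝ) * (2 * A) ≤ ∑ t ∈ bad, (pw (n0 + t * W) y : ℝ) := by
      rw [← nsmul_eq_mul]
      apply Finset.card_nsmul_le_sum
      intro t ht
      exact (not_le.1 (Finset.mem_filter.1 ht).2).le
    have h2 : ∑ t ∈ bad, (pw (n0 + t * W) y : ℝ) ≤ N * A := by
      refine le_trans ?_ hsum
      exact Finset.sum_le_sum_of_subset_of_nonneg (Finset.filter_subset _ _) fun _ _ _ => Nat.cast_nonneg _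
    have h3 : (bad.card : ℝ) * (2 * A) ≤ N * A := h1.trans h2
    have h4 : (bad.card : ℝ) * 2 ≤ N := by
      have : ((bad.card : ℝ) * 2) * A ≤ N * A := by linarith
      exact le_of_mul_le_mul_right this hA0
    linarith
  have hfin : good.card ≤ ((Ioc M (M + X)).filter (fun n => (pw n y : ℝ) ≤ 2 * A)).card := by
    apply Finset.card_le_card_of_injOn (fun t => n0 + t * W)
    · intro t ht
      rw [Finset.mem_coe, hgood, Finset.mem_filter, Finset.mem_range] at ht
      rw [Finset.mem_coe, Finset.mem_filter, Finset.mem_Ioc]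
      have h1 : (t + 1) * W ≤ N * W := Nat.mul_le_mul_right _ ht.1
      have h2 : (t + 1) * W = t * W + W := by ring
      refine ⟨⟨?_, ?_⟩, ht.2⟩
      · show M < n0 + t * W
        omega
      · show n0 + t * W ≤ M + X
        omega
    · intro t _ t' _ h
      have h1 : t * W = t' * W := by
        have : n0 + t * W = n0 + t' * W := h
        omega
      exact Nat.eq_of_mul_eq_mul_right hW0 h1
  have hfin' : (good.card : ℝ) ≤ (((Ioc M (M + X)).filter (fun n => (pw n y : ℝ) ≤ 2 * A)).card : ℝ) := by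
    exact_mod_cast hfin
  linarith

end Pool.Agent.X30.FW
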