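import Mathlib
import Pool.Agent.X30.Few2

/-! # Windows with few primes: conclusion (helper30) -/

set_option autoImplicit false

namespace Pool.Agent.X30.FW

open Finset Filter Topology
open Pool.Agent.H378R2 Pool.Agent.H510R2.Maier

theorem prod_le_exp (z b : ℕ) : ((∏ p ∈ PI z b, p : ℕ) : ℝ) ≤ Real.exp (3 / 2 * b) := by
  have h1 : ∏ p ∈ PI z b, p ≤ primorial b := by
    unfold primorial
    apply Finset.prod_le_prod_of_subset_of_one_le'
    · intro p hp
      have := mem_PI.1 hp
      rw [Finset.mem_filter, Finset.mem_range]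
      exact ⟨Nat.lt_succ_of_le this.1.2, this.2⟩
    · intro i hi _
      exact (Finset.mem_filter.1 hi).2.one_lt.le
  have h2 : ((∏ p ∈ PI z b, p : ℕ) : ℝ) ≤ (4 : ℝ) ^ b := by
    exact_mod_cast h1.trans (primorial_le_four_pow _)
  refine h2.trans ?_
  rw [← Real.rpow_natCast, Real.rpow_def_of_pos (by norm_num)]
  apply Real.exp_le_exp.2
  have h4 : Real.log 4 ≤ 3 / 2 := by
    rw [show (4 : ℝ) = 2 ^ 2 by norm_num, Real.log_pow]
    have := Real.log_two_lt_d9
    push_cast; linarith
  exact mul_le_mul_of_nonneg_right h4 (Nat.cast_nonneg _)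

/-- the choice of the number of factors -/
theorem choice (x : ℝ) (hx : Real.exp 10 ≤ x) : ∃ m : ℕ, 1 ≤ m ∧ ((m : ℝ) + 1) ≤ 3 * (x / Real.log x) ∧
    ((m : ℝ) + 1) ≤ x ∧ 2 ^ m / (m.factorial : ℝ) ≤ Real.exp (-x) := by
  have hx0 : 0 < x := lt_of_lt_of_le (Real.exp_pos _) hx
  set w := Real.log x with hw
  have hw10 : 10 ≤ w := by
    rw [hw, ← Real.log_exp 10]
    exact Real.log_le_log (Real.exp_pos _) hx
  have hxw : Real.exp w = x := Real.exp_log hx0
  have hxw2 : 10 * w ≤ x := by
    have h1 : w ^ 2 / 2 ≤ Real.exp w := by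
      have := Real.quadratic_le_exp_of_nonneg (x := w) (by linarith)
      nlinarith
    have h2 : (w / 2) ^ 2 / 2 ≤ Real.exp (w / 2) := by
      have := Real.quadratic_le_exp_of_nonneg (x := w / 2) (by linarith)
      nlinarith
    have h3 : Real.exp w = Real.exp (w / 2) * Real.exp (w / 2) := by
      rw [← Real.exp_add]; congr 1; ring
    have h4 : (12.5 : ℝ) ≤ Real.exp (w / 2) := by nlinarith
    have h5 : Real.exp (w / 2) * Real.exp (w / 2) ≥ 12.5 * ((w / 2) ^ 2 / 2) := by
      apply mul_le_mul h4 h2 (by positivity) (by positivity)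
    rw [← hxw, h3]
    nlinarith
  have hw0 : 0 < w := by linarith
  set m : ℕ := ⌈2 * (x / w)⌉₊ with hm
  have hxw3 : 10 ≤ x / w := by
    rw [le_div_iff₀ hw0]; exact hxw2
  have hm1 : 2 * (x / w) ≤ m := Nat.le_ceil _
  have hm2 : (m : ℝ) < 2 * (x / w) + 1 := Nat.ceil_lt_add_one (by positivity)
  have hm20 : (20 : ℝ) ≤ m := by linarith
  have hxw4 : x / w ≤ x / 10 := by
    apply div_le_div_of_nonneg_left hx0.le (by norm_num) hw10
  refine ⟨m, by exact_mod_cast (show (1 : ℝ) ≤ m by linarith), by linarith, by linarith, ?_⟩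
  have hm0 : (0 : ℝ) < m := by linarith
  -- factorial
  have h1 : (m : ℝ) ^ m / (m.factorial : ℝ) ≤ Real.exp m := Real.pow_div_factorial_le_exp (m : ℝ) hm0.le m
  have hf : (0 : ℝ) < m.factorial := by exact_mod_cast m.factorial_pos
  have h2 : 1 / (m.factorial : ℝ) ≤ Real.exp m / (m : ℝ) ^ m := by
    rw [div_le_div_iff₀ hf (by positivity), one_mul]
    rw [div_le_iff₀ hf] at h1
    exact h1
  have h3 : 2 ^ m / (m.factorial : ℝ) ≤ 2 ^ m * (Real.exp m / (m : ℝ) ^ m) := by
    rw [div_eq_mul_one_div]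
    exact mul_le_mul_of_nonneg_left h2 (by positivity)
  refine h3.trans ?_
  have h4 : (2 : ℝ) ^ m * (Real.exp m / (m : ℝ) ^ m) = Real.exp (m * (1 + Real.log 2 - Real.log m)) := by
    have e1 : (2 : ℝ) ^ m = Real.exp (m * Real.log 2) := by
      rw [mul_comm, Real.exp_mul, Real.exp_log (by norm_num), Real.rpow_natCast]
    have e2 : (m : ℝ) ^ m = Real.exp (m * Real.log m) := by
      rw [mul_comm, Real.exp_mul, Real.exp_log hm0, Real.rpow_natCast]
    rw [e1, e2, ← Real.exp_sub, ← Real.exp_add]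
    congr 1; ring
  rw [h4]
  apply Real.exp_le_exp.2
  have h5 : Real.log 2 + (w - Real.log w) ≤ Real.log m := by
    have e1 : Real.log (2 * (x / w)) ≤ Real.log m := Real.log_le_log (by positivity) hm1
    rw [Real.log_mul (by norm_num) (by positivity), Real.log_div hx0.ne' hw0.ne'] at e1
    rw [← hw] at e1
    linarith
  have h6 : Real.log w ≤ w / 4 + 0.4 := by
    have e1 := Real.log_le_sub_one_of_pos (show 0 < w / 4 by positivity)
    rw [Real.log_div hw0.ne' (by norm_num)] at e1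
    have e2 : Real.log 4 ≤ 1.4 := by
      rw [show (4 : ℝ) = 2 ^ 2 by norm_num, Real.log_pow]
      have := Real.log_two_lt_d9
      push_cast; linarith
    linarith
  have h7 : w / 2 ≤ w - Real.log w - 1 := by linarith
  have h8 : (m : ℝ) * (1 + Real.log 2 - Real.log m) ≤ -(m * (w / 2)) := by
    have : 1 + Real.log 2 - Real.log m ≤ -(w / 2) := by linarith
    calc (m : ℝ) * (1 + Real.log 2 - Real.log m) ≤ m * -(w / 2) := mul_le_mul_of_nonneg_left this hm0.le
      _ = _ := by ring
  have h9 : x ≤ m * (w / 2) := by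
    calc x = 2 * (x / w) * (w / 2) := by field_simp
      _ ≤ m * (w / 2) := mul_le_mul_of_nonneg_right hm1 (by linarith)
  linarith

/-- the gain -/
noncomputable def GG (β : ℝ) : ℝ := β * (Real.log (1 / β) / Real.log (Real.log (1 / β)))

set_option maxHeartbeats 4000000 in
theorem few (ε : ℝ) (hε : 0 < ε) (hε1 : ε ≤ 1) : ∃ C X₀ : ℝ, ∀ X : ℕ, X₀ ≤ X → ∀ M y : ℕ,
    Real.exp 1 * Real.log X ≤ y → (y : ℝ) ≤ (Real.log X) ^ (5 / 4 : ℝ) →
    (X : ℝ) ^ (1 - ε) ≤ (((Ioc M (M + X)).filter (fun n => (pw n y : ℝ) ≤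
      C * ((y / Real.log X) * GG (Real.log (y / Real.log X) / Real.log (Real.log X))))).card : ℝ) := by
  classical
  obtain ⟨Cs, z0, hCs, hz03, hsm⟩ := smoothPS
  obtain ⟨b0, hb02, hcof⟩ := cofactors
  obtain ⟨z1, hz13, hBEl⟩ := BE_low
  obtain ⟨Ca, hCa1, hav⟩ := average
  set c : ℝ := ε / 4 with hc
  have hc0 : 0 < c := by positivity
  have hc1 : c ≤ 1 / 4 := by rw [hc]; linarith
  have hlc : Real.log c < 0 := Real.log_neg hc0 (by linarith)
  set CV : ℝ := 5 + 4 * (2 - Real.log c) with hCV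
  have hCV0 : 0 < CV := by linarith
  set x0 : ℝ := Real.exp 10 with hx0
  set Cfin : ℝ := max (2 * (Ca * (20 * Real.exp x0))) (2 * (Ca * (CV * (2 * Real.exp 4) * 2 * 3))) with hCfin
  -- eventually in `ℓ`
  have ev1 : ∀ᶠ l : ℝ in atTop, (Cs + 1) ^ 2 * l ^ 2 + z0 + z1 + l + 2 ≤ Real.exp (l / Real.log l) / 2 := by
    have a1 := (Real.isLittleO_pow_log_id_atTop (n := 2)).bound (show (0 : ℝ) < 1 / 4 by norm_num)
    set Kc : ℝ := (Cs + 1) ^ 2 + z0 + z1 + 3 with hKc
    filter_upwards [a1, eventually_ge_atTop (3 : ℝ), eventually_ge_atTop (2 * Kc)] with l h1 h2 h3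
    have hl1 : 1 ≤ Real.log l := by
      rw [Real.le_log_iff_exp_le (by linarith)]
      have := Real.exp_one_lt_d9
      linarith
    have hKc0 : 3 ≤ Kc := by
      have : 0 ≤ (Cs + 1) ^ 2 + z0 + z1 := by positivity
      linarith
    rw [id, Real.norm_of_nonneg (by positivity), Real.norm_of_nonneg (by linarith)] at h1
    have h4 : 4 * Real.log l ≤ l / Real.log l := by
      rw [le_div_iff₀ (by linarith)]
      nlinarith
    have h5 : l ^ 4 ≤ Real.exp (l / Real.log l) := by
      calc l ^ 4 = Real.exp (4 * Real.log l) := by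
            rw [mul_comm, Real.exp_mul, Real.exp_log (by linarith)]
            norm_num
        _ ≤ _ := Real.exp_le_exp.2 h4
    have h6 : Kc * l ^ 2 ≤ l ^ 4 / 2 := by
      have : 2 * Kc ≤ l ^ 2 := by nlinarith
      nlinarith [sq_nonneg l]
    have h7 : (Cs + 1) ^ 2 * l ^ 2 + z0 + z1 + l + 2 ≤ Kc * l ^ 2 := by
      have h8 : 1 ≤ l ^ 2 := by nlinarith
      have h9 : l ≤ l ^ 2 := by nlinarith
      have h10 : (0 : ℝ) ≤ z0 := Nat.cast_nonneg _
      have h11 : (0 : ℝ) ≤ z1 := Nat.cast_nonneg _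
      rw [hKc]
      nlinarith
    linarith
  have ev2 : ∀ᶠ l : ℝ in atTop, 2 ≤ l / Real.log l := by
    have a1 := Real.isLittleO_log_id_atTop.bound (show (0 : ℝ) < 1 / 2 by norm_num)
    filter_upwards [a1, eventually_ge_atTop (3 : ℝ)] with l h1 h2
    have hl1 : 0 < Real.log l := Real.log_pos (by linarith)
    rw [id, Real.norm_of_nonneg hl1.le, Real.norm_of_nonneg (by linarith)] at h1
    rw [le_div_iff₀ hl1]
    linarith
  -- eventually in `L`
  have ev3 : ∀ᶠ L : ℝ in atTop, L ^ (1 / 2 : ℝ) ≤ c * L - 1 := by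
    have a1 := (tendsto_rpow_atTop (show (0 : ℝ) < 1 / 2 by norm_num)).eventually_ge_atTop (2 / c)
    filter_upwards [a1, eventually_ge_atTop (2 / c), eventually_gt_atTop (0 : ℝ)] with L h1 h2 h3
    have h4 : L = L ^ (1 / 2 : ℝ) * L ^ (1 / 2 : ℝ) := by
      rw [← Real.rpow_add h3]; norm_num
    have h5 : 2 / c * L ^ (1 / 2 : ℝ) ≤ L := by
      calc 2 / c * L ^ (1 / 2 : ℝ) ≤ L ^ (1 / 2 : ℝ) * L ^ (1 / 2 : ℝ) := by gcongr
        _ = L := h4.symm
    have h6 : L ^ (1 / 2 : ℝ) ≤ c / 2 * L := by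
      calc L ^ (1 / 2 : ℝ) = c / 2 * (2 / c * L ^ (1 / 2 : ℝ)) := by field_simp
        _ ≤ c / 2 * L := by gcongr
    have h7 : 1 ≤ c / 2 * L := by
      calc (1 : ℝ) = c / 2 * (2 / c) := by field_simp
        _ ≤ c / 2 * L := by gcongr
    linarith
  have ev4 : ∀ᶠ L : ℝ in atTop, (b0 : ℝ) + 1 ≤ c * L := by
    filter_upwards [eventually_ge_atTop (((b0 : ℝ) + 1) / c)] with L h1
    rw [div_le_iff₀ hc0] at h1
    linarith
  -- eventually in `X`
  have ev5 : ∀ᶠ X : ℝ in atTop, 2 * X ^ (1 - ε) ≤ X ^ (1 - 3 * ε / 8) - 1 := by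
    have a1 := (tendsto_rpow_atTop (show (0 : ℝ) < 5 * ε / 8 by positivity)).eventually_ge_atTop (3 : ℝ)
    filter_upwards [a1, eventually_ge_atTop (1 : ℝ)] with X h1 h2
    have h3 : X ^ (1 - 3 * ε / 8) = X ^ (1 - ε) * X ^ (5 * ε / 8) := by
      rw [← Real.rpow_add (by linarith)]; congr 1; ring
    have h4 : 1 ≤ X ^ (1 - ε) := Real.one_le_rpow h2 (by linarith)
    rw [h3]
    nlinarith
  have ev6 : ∀ᶠ X : ℝ in atTop, X ^ (1 / 2 : ℝ) ≤ X ^ (1 - 3 * ε / 8) - 1 := by
    have a1 := (tendsto_rpow_atTop (show (0 : ℝ) < 1 / 2 - 3 * ε / 8 by linarith)).eventually_ge_atTop (2 : ℝ)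
    filter_upwards [a1, eventually_ge_atTop (1 : ℝ)] with X h1 h2
    have h3 : X ^ (1 - 3 * ε / 8) = X ^ (1 / 2 : ℝ) * X ^ (1 / 2 - 3 * ε / 8) := by
      rw [← Real.rpow_add (by linarith)]; congr 1; ring
    have h4 : 1 ≤ X ^ (1 / 2 : ℝ) := Real.one_le_rpow h2 (by norm_num)
    rw [h3]
    nlinarith
  have ev7 : ∀ᶠ X : ℝ in atTop, (2 : ℝ) ≤ X ^ (1 / 2 : ℝ) :=
    (tendsto_rpow_atTop (by norm_num)).eventually_ge_atTop _
  have ev8 : ∀ᶠ X : ℝ in atTop, 2 * X ^ (1 - ε) ≤ X := by
    have a1 := (tendsto_rpow_atTop hε).eventually_ge_atTop (2 : ℝ)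
    filter_upwards [a1, eventually_ge_atTop (1 : ℝ)] with X h1 h2
    have h3 : X = X ^ (1 - ε) * X ^ ε := by
      rw [← Real.rpow_add (by linarith)]; simp
    have h4 : 0 ≤ X ^ (1 - ε) := by positivity
    calc 2 * X ^ (1 - ε) ≤ X ^ (1 - ε) * X ^ ε := by nlinarith
      _ = X := h3.symm
  have hlog : Tendsto Real.log atTop atTop := Real.tendsto_log_atTop
  have hlog2 : Tendsto (fun X : ℝ => Real.log (Real.log X)) atTop atTop := hlog.comp hlog
  have hev := ((((hlog2.eventually ev1).and (hlog2.eventually ev2)).and ((hlog.eventually ev3).and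
    (hlog.eventually ev4))).and ((ev5.and ev6).and (ev7.and ev8))).and
    ((hlog2.eventually_ge_atTop (max 4 (-(2 * Real.log c)))).and (hlog.eventually_ge_atTop (3 : ℝ)))
  obtain ⟨X₀, hX₀⟩ := eventually_atTop.1 hev
  refine ⟨Cfin, max X₀ 4, fun X hX M y hy1 hy2 => ?_⟩
  obtain ⟨⟨⟨⟨g1, g2⟩, g3, g4⟩, ⟨g5, g6⟩, g7, g8⟩, g9, g10⟩ := hX₀ X ((le_max_left _ _).trans hX)
  have hX4 : (4 : ℝ) ≤ X := (le_max_right _ _).trans hX
  set L := Real.log (X : ℝ) with hL
  set l := Real.log L with hl
  have hL0 : 0 < L := by linarith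
  have hl4 : 4 ≤ l := (le_max_left _ _).trans g9
  have hlc2 : -(2 * Real.log c) ≤ l := (le_max_right _ _).trans g9
  have hl0 : 0 < l := by linarith
  have he1 : (2 : ℝ) ≤ Real.exp 1 := by
    have := Real.exp_one_gt_d9
    linarith
  have hy0 : (0 : ℝ) < y := by nlinarith
  have hyN : 1 ≤ y := by
    have : (0 : ℝ) < y := hy0
    exact_mod_cast this
  set β := Real.log (y / L) / l with hβ
  have hlyL1 : 1 ≤ Real.log (y / L) := by
    rw [Real.le_log_iff_exp_le (by positivity), le_div_iff₀ hL0]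
    exact hy1
  have hlyL2 : Real.log (y / L) ≤ l / 4 := by
    have h1 : (y : ℝ) / L ≤ L ^ (1 / 4 : ℝ) := by
      rw [div_le_iff₀ hL0]
      calc (y : ℝ) ≤ L ^ (5 / 4 : ℝ) := hy2
        _ = L ^ (1 / 4 : ℝ) * L := by
            rw [← Real.rpow_add_one hL0.ne']; norm_num
    have h2 : Real.log (y / L) ≤ Real.log (L ^ (1 / 4 : ℝ)) := Real.log_le_log (by positivity) h1
    rw [Real.log_rpow hL0] at h2
    linarith
  have hβ1 : 1 / l ≤ β := div_le_div_of_nonneg_right hlyL1 hl0.le
  have hβ2 : β ≤ 1 / 4 := by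
    rw [hβ, div_le_iff₀ hl0]; linarith
  have hβ0 : 0 < β := lt_of_lt_of_le (by positivity) hβ1
  have hβl : β * l = Real.log (y / L) := by rw [hβ]; field_simp
  set x := Real.log (1 / β) with hx
  have hβx : β = Real.exp (-x) := by
    rw [hx, Real.exp_neg, Real.exp_log (by positivity)]
    field_simp
  have hx4 : 1.38 ≤ x := by
    have h1 : Real.log 4 ≤ x := by
      apply Real.log_le_log (by norm_num)
      rw [le_div_iff₀ hβ0]; linarith
    have h2 : 1.38 ≤ Real.log 4 := by
      rw [show (4 : ℝ) = 2 ^ 2 by norm_num, Real.log_pow]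
      have := Real.log_two_gt_d9
      push_cast; linarith
    linarith
  have hxl : x ≤ Real.log l := by
    apply Real.log_le_log (by positivity)
    rw [div_le_iff₀ hβ0]
    rw [div_le_iff₀ hl0] at hβ1
    linarith
  have hlx0 : 0 < Real.log x := Real.log_pos (by linarith)
  have hGG : GG β = β * (x / Real.log x) := rfl
  have hyL0 : 0 < (y : ℝ) / L := by positivity
  have hGG0 : 0 < GG β := by rw [hGG]; positivity
  -- it suffices to find one bound
  have suff : ∀ (T : ℝ) (N : ℕ), T ≤ Cfin * ((y / L) * GG β) → 2 * (X : ℝ) ^ (1 - ε) ≤ N →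
      (N : ℝ) / 2 ≤ (((Ioc M (M + X)).filter (fun n => (pw n y : ℝ) ≤ T)).card : ℝ) →
      (X : ℝ) ^ (1 - ε) ≤ (((Ioc M (M + X)).filter (fun n => (pw n y : ℝ) ≤
        Cfin * ((y / L) * GG β))).card : ℝ) := by
    intro T N hT hN hcard
    have h1 : (((Ioc M (M + X)).filter (fun n => (pw n y : ℝ) ≤ T)).card : ℝ) ≤
        (((Ioc M (M + X)).filter (fun n => (pw n y : ℝ) ≤ Cfin * ((y / L) * GG β))).card : ℝ) := by
      apply Nat.cast_le.2
      apply Finset.card_le_card
      intro n hn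
      rw [Finset.mem_filter] at hn ⊢
      exact ⟨hn.1, hn.2.trans hT⟩
    linarith
  by_cases hcase : x0 ≤ x
  · -- the main case
    obtain ⟨m, hm1, hm2, hm3, hm4⟩ := choice x hcase
    rw [← hβx] at hm4
    have hm0 : (0 : ℝ) < (m : ℝ) + 1 := by positivity
    have hml : (m : ℝ) + 1 ≤ Real.log l := hm3.trans hxl
    have hll0 : 0 < Real.log l := by linarith
    set z : ℕ := ⌊Real.exp (l / (m + 1))⌋₊ with hz
    have hzle : (z : ℝ) ≤ Real.exp (l / (m + 1)) := Nat.floor_le (Real.exp_pos _).le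
    have hexp1 : Real.exp (l / Real.log l) ≤ Real.exp (l / (m + 1)) := by
      apply Real.exp_le_exp.2
      apply div_le_div_of_nonneg_left hl0.le hm0 hml
    have hzge : Real.exp (l / (m + 1)) / 2 ≤ z := by
      have h1 : Real.exp (l / (m + 1)) - 1 < z := by
        have := Nat.lt_floor_add_one (Real.exp (l / ((m : ℝ) + 1)))
        linarith
      have h2 : 2 ≤ Real.exp (l / (m + 1)) := by
        have h3 : 0 ≤ (Cs + 1) ^ 2 * l ^ 2 + z0 + z1 + l := by positivity
        linarith
      linarith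
    have hzbig : (Cs + 1) ^ 2 * l ^ 2 + z0 + z1 + l + 2 ≤ z := by linarith
    have hz0r : (z0 : ℝ) ≤ z := by
      have h3 : 0 ≤ (Cs + 1) ^ 2 * l ^ 2 + z1 + l := by positivity
      linarith
    have hz1r : (z1 : ℝ) ≤ z := by
      have h3 : 0 ≤ (Cs + 1) ^ 2 * l ^ 2 + z0 + l := by positivity
      linarith
    have hzl : l ≤ z := by
      have h3 : 0 ≤ (Cs + 1) ^ 2 * l ^ 2 + z0 + z1 := by positivity
      linarith
    have hzpos : (0 : ℝ) < z := by linarith
    have hzpow : (z : ℝ) ^ (m + 1) ≤ L := by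
      calc (z : ℝ) ^ (m + 1) ≤ (Real.exp (l / (m + 1))) ^ (m + 1) := pow_le_pow_left₀ hzpos.le hzle _
        _ = Real.exp l := by
            rw [← Real.exp_nat_mul]; congr 1; push_cast; field_simp
        _ = L := Real.exp_log hL0
    -- smooth numbers
    have hPS : ((PS z y).card : ℝ) ≤ 5 * y * β := by
      have h1 := hsm z (by exact_mod_cast hz0r) m y
      have h2 : Cs / Real.sqrt z ≤ β := by
        have h3 : (Cs + 1) * l ≤ Real.sqrt z := by
          apply Real.le_sqrt_of_sq_le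
          have h4 : (0 : ℝ) ≤ (z0 : ℝ) + z1 + l := by positivity
          nlinarith
        have h4 : 0 < Real.sqrt z := Real.sqrt_pos.2 hzpos
        rw [div_le_iff₀ h4]
        calc Cs ≤ Cs + 1 := by linarith
          _ = (1 / l) * ((Cs + 1) * l) := by field_simp
          _ ≤ β * Real.sqrt z := mul_le_mul hβ1 h3 (by positivity) hβ0.le
      have h3 : (z : ℝ) ^ m ≤ y * β := by
        have h4 : (z : ℝ) ^ m * z ≤ y := by
          calc (z : ℝ) ^ m * z = (z : ℝ) ^ (m + 1) := by rw [pow_succ]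
            _ ≤ L := hzpow
            _ ≤ y := by nlinarith
        have h5 : 1 ≤ z * β := by
          calc (1 : ℝ) = l * (1 / l) := by field_simp
            _ ≤ z * β := mul_le_mul hzl hβ1 (by positivity) hzpos.le
        have h6 : (0 : ℝ) ≤ (z : ℝ) ^ m := by positivity
        calc (z : ℝ) ^ m ≤ (z : ℝ) ^ m * (z * β) := le_mul_of_one_le_right h6 h5
          _ = ((z : ℝ) ^ m * z) * β := by ring
          _ ≤ y * β := mul_le_mul_of_nonneg_right h4 hβ0.le
      calc ((PS z y).card : ℝ) ≤ 2 * y * (2 ^ m / (m.factorial : ℝ) + Cs / Real.sqrt z) + z ^ m := h1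
        _ ≤ 2 * y * (β + β) + y * β := by gcongr
        _ = 5 * y * β := by ring
    -- the modulus
    set b : ℕ := ⌊c * L⌋₊ with hb
    have hble : (b : ℝ) ≤ c * L := Nat.floor_le (by positivity)
    have hbge : c * L < (b : ℝ) + 1 := Nat.lt_floor_add_one _
    have hb0r : (b0 : ℝ) ≤ b := by linarith
    have hby : b + 1 ≤ y := by
      have : (b : ℝ) + 1 ≤ y := by nlinarith
      exact_mod_cast this
    have hzb : z ≤ b := by
      have h1 : (z : ℝ) ≤ L ^ (1 / 2 : ℝ) := by
        refine hzle.trans ?_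
        rw [Real.rpow_def_of_pos hL0]
        apply Real.exp_le_exp.2
        rw [← hl, mul_one_div]
        apply div_le_div_of_nonneg_left hl0.le (by norm_num)
        have : (1 : ℝ) ≤ m := by exact_mod_cast hm1
        linarith
      have h2 : (z : ℝ) ≤ b := by linarith
      exact_mod_cast h2
    have hb2 : (2 : ℝ) ≤ b := by
      have : (2 : ℝ) ≤ b0 := by exact_mod_cast hb02
      linarith
    -- survivors
    have hSV : ((SV (PI z b) y).card : ℝ) ≤ CV * (y * β) := by
      have h1 : ((SV (PI z b) y).card : ℝ) ≤ ((PS z y).card : ℝ) +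
          ∑ s ∈ Icc 1 (y / (b + 1)), (Nat.primeCounting (y / s) : ℝ) := by
        exact_mod_cast survivors z b y
      have h2 := hcof b y (by exact_mod_cast hb0r) hby
      have h3 : l / 2 ≤ Real.log ((b : ℝ) + 1) := by
        have h4 : Real.log (c * L) ≤ Real.log ((b : ℝ) + 1) := Real.log_le_log (by positivity) hbge.le
        rw [Real.log_mul hc0.ne' hL0.ne', ← hl] at h4
        linarith
      have h4 : Real.log ((y : ℝ) / (b + 1)) ≤ β * l - Real.log c := by
        rw [hβl, ← Real.log_div (by positivity) hc0.ne']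
        apply Real.log_le_log (by positivity)
        rw [div_div]
        apply div_le_div_of_nonneg_left hy0.le (by positivity)
        rw [mul_comm]
        exact hbge.le
      have h5 : 0 ≤ 1 + Real.log ((y : ℝ) / (b + 1)) := by
        have : 0 ≤ Real.log ((y : ℝ) / (b + 1)) := by
          apply Real.log_nonneg
          rw [le_div_iff₀ (by positivity)]
          have : (b : ℝ) + 1 ≤ y := by exact_mod_cast hby
          linarith
        linarith
      have h6 : 2 * (y : ℝ) / Real.log (b + 1) * (1 + Real.log (y / (b + 1))) ≤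
          4 * (2 - Real.log c) * (y * β) := by
        calc 2 * (y : ℝ) / Real.log (b + 1) * (1 + Real.log (y / (b + 1)))
            ≤ 2 * (y : ℝ) / (l / 2) * (1 + (β * l - Real.log c)) := by gcongr
          _ = 4 * y * (β + (1 - Real.log c) * (1 / l)) := by field_simp; ring
          _ ≤ 4 * y * (β + (1 - Real.log c) * β) := by
              have : 0 ≤ 1 - Real.log c := by linarith
              gcongr
          _ = _ := by ring
      calc ((SV (PI z b) y).card : ℝ) ≤ 5 * y * β + 4 * (2 - Real.log c) * (y * β) := by linarith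
        _ = CV * (y * β) := by rw [hCV]; ring
    -- density
    have hPp : ∀ p ∈ PI z b, p.Prime := fun p hp => (mem_PI.1 hp).2
    have hBE0 : 0 < BE (PI z b) := BE_pos hPp
    have hBE : 1 / BE (PI z b) ≤ 2 * Real.exp 4 * (m + 1) := by
      refine (hBEl z b (by exact_mod_cast hz1r) hzb).trans ?_
      have h1 : Real.log b ≤ l := by
        apply Real.log_le_log (by linarith)
        refine hble.trans ?_
        nlinarith
      have h2 : l / (2 * (m + 1)) ≤ Real.log z := by
        have h3 : Real.log (Real.exp (l / (m + 1)) / 2) ≤ Real.log z := Real.log_le_log (by positivity) hzge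
        rw [Real.log_div (Real.exp_pos _).ne' (by norm_num), Real.log_exp] at h3
        have h4 : 2 ≤ l / ((m : ℝ) + 1) := g2.trans (by
          apply div_le_div_of_nonneg_left hl0.le hm0 hml)
        have h5 : Real.log 2 ≤ 1 := by
          have := Real.log_two_lt_d9
          linarith
        have h6 : l / (2 * ((m : ℝ) + 1)) = l / ((m : ℝ) + 1) / 2 := by field_simp
        rw [h6]
        linarith
      have h3 : 0 < l / (2 * ((m : ℝ) + 1)) := by positivity
      calc Real.exp 4 * (Real.log b / Real.log z) ≤ Real.exp 4 * (l / (l / (2 * (m + 1)))) := by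
            have h4 : 0 ≤ Real.log b := Real.log_nonneg (by linarith)
            gcongr
        _ = 2 * Real.exp 4 * (m + 1) := by field_simp
    -- the number of rows
    set W := ∏ p ∈ PI z b, p with hW
    have hW0 : 0 < W := Finset.prod_pos fun p hp => (hPp p hp).pos
    have hWr : (0 : ℝ) < W := by exact_mod_cast hW0
    have hWle : (W : ℝ) ≤ (X : ℝ) ^ (3 * ε / 8) := by
      refine (prod_le_exp z b).trans ?_
      rw [Real.rpow_def_of_pos (by linarith)]
      apply Real.exp_le_exp.2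
      rw [← hL]
      calc 3 / 2 * (b : ℝ) ≤ 3 / 2 * (c * L) := by gcongr
        _ = L * (3 * ε / 8) := by rw [hc]; ring
    set N : ℕ := X / W with hN
    have hNW : N * W ≤ X := Nat.div_mul_le_self X W
    have hNge : (X : ℝ) ^ (1 - 3 * ε / 8) - 1 ≤ N := by
      have h1 : (X : ℝ) / W < N + 1 := by
        rw [div_lt_iff₀ hWr]
        have := Nat.lt_div_mul_add (a := X) hW0
        have h2 : X < (X / W + 1) * W := by rw [add_mul, one_mul]; exact this
        exact_mod_cast h2
      have h2 : (X : ℝ) ^ (1 - 3 * ε / 8) ≤ X / W := by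
        rw [le_div_iff₀ hWr]
        calc (X : ℝ) ^ (1 - 3 * ε / 8) * W ≤ (X : ℝ) ^ (1 - 3 * ε / 8) * (X : ℝ) ^ (3 * ε / 8) := by gcongr
          _ = X := by
              rw [← Real.rpow_add (by linarith)]; simp
      linarith
    have hN12 : (X : ℝ) ^ (1 / 2 : ℝ) ≤ N := g6.trans hNge
    have hN2 : 2 ≤ N := by
      have : (2 : ℝ) ≤ N := g7.trans hN12
      exact_mod_cast this
    have hlogN : L / 2 ≤ Real.log N := by
      have h1 : Real.log ((X : ℝ) ^ (1 / 2 : ℝ)) ≤ Real.log N := Real.log_le_log (by positivity) hN12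
      rw [Real.log_rpow (by linarith), ← hL] at h1
      linarith
    have hlogN0 : 0 < Real.log N := by linarith
    have hcard := hav (PI z b) hPp X M y N hyN hN2 hNW
    refine suff _ N ?_ (g5.trans hNge) hcard
    have h1 : ((SV (PI z b) y).card : ℝ) * (1 / BE (PI z b)) / Real.log N ≤
        (CV * (2 * Real.exp 4) * 2 * 3) * ((y / L) * GG β) := by
      calc ((SV (PI z b) y).card : ℝ) * (1 / BE (PI z b)) / Real.log N
          ≤ (CV * (y * β)) * (2 * Real.exp 4 * (m + 1)) / (L / 2) := by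
            have : 0 ≤ 1 / BE (PI z b) := by positivity
            gcongr
        _ ≤ (CV * (y * β)) * (2 * Real.exp 4 * (3 * (x / Real.log x))) / (L / 2) := by gcongr
        _ = _ := by rw [hGG]; field_simp
    calc 2 * (Ca * (((SV (PI z b) y).card : ℝ) * (1 / BE (PI z b)) / Real.log N))
        ≤ 2 * (Ca * ((CV * (2 * Real.exp 4) * 2 * 3) * ((y / L) * GG β))) := by gcongr
      _ = 2 * (Ca * (CV * (2 * Real.exp 4) * 2 * 3)) * ((y / L) * GG β) := by ring
      _ ≤ Cfin * ((y / L) * GG β) := by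
          apply mul_le_mul_of_nonneg_right (le_max_right _ _) (by positivity)
  · -- the trivial case
    have hxx : x < x0 := not_le.1 hcase
    have hX2 : 2 ≤ X := by
      have : (2 : ℝ) ≤ X := by linarith
      exact_mod_cast this
    have hcard := hav ∅ (by simp) X M y X hyN hX2 (by simp)
    refine suff _ X ?_ g8 hcard
    have h1 : BE ∅ = 1 := by unfold BE; simp
    rw [h1]
    have h2 : ((SV ∅ y).card : ℝ) ≤ y := by exact_mod_cast SV_card_le ∅ y
    have h3 : 1 ≤ 10 * Real.exp x0 * GG β := by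
      rw [hGG, hβx]
      have h4 : Real.log x ≤ 10 := by
        rw [← Real.log_exp 10]
        exact Real.log_le_log (by linarith) hxx.le
      have h5 : 1 ≤ Real.exp x0 * Real.exp (-x) := by
        rw [← Real.exp_add]
        exact Real.one_le_exp (by linarith)
      have h6 : 1 ≤ 10 * (x / Real.log x) := by
        rw [mul_div_assoc', le_div_iff₀ hlx0]
        linarith
      calc (1 : ℝ) ≤ (Real.exp x0 * Real.exp (-x)) * (10 * (x / Real.log x)) := by
            have := mul_le_mul h5 h6 (by norm_num) (by positivity)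
            linarith
        _ = _ := by ring
    calc 2 * (Ca * (((SV ∅ y).card : ℝ) * (1 / 1) / Real.log X)) ≤ 2 * (Ca * ((y : ℝ) * (1 / 1) / L)) := by
          gcongr
      _ = 2 * (Ca * ((y : ℝ) / L)) * 1 := by ring
      _ ≤ 2 * (Ca * ((y : ℝ) / L)) * (10 * Real.exp x0 * GG β) := by gcongr
      _ ≤ 2 * (Ca * (20 * Real.exp x0)) * ((y / L) * GG β) := by
          have : 0 ≤ Ca * Real.exp x0 * ((y / L) * GG β) := by positivity
          nlinarith
      _ ≤ Cfin * ((y / L) * GG β) := by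
          apply mul_le_mul_of_nonneg_right (le_max_left _ _) (by positivity)

end Pool.Agent.X30.FW
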