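import Pool.Agent.Y831.RC4.AbundT
import Pool.Agent.Helper923.HUpperQ

set_option autoImplicit false
set_option linter.unusedVariables false

/-! # Choice of the classes for the primes up to `(log X)^θ`, `θ` fixed -/

namespace Pool.Agent.X30.Freq

open Finset Filter Pool.Agent.H256R2.SC Pool.Agent.Y831.RC

open Pool.Agent.Helper923.HRho Pool.Agent.Helper923.HB

open scoped Classical

/-- elementary limits -/
theorem ev_c (C ε₃ θ u K lε : ℝ) (hC : 0 < C) (hε : 0 < ε₃) (hθ : 0 < θ) (hu : 1 ≤ u)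
    (hθu : 1 / u < θ) :
    ∃ L₀ : ℝ, ∀ L : ℝ, L₀ ≤ L → 1 ≤ L ∧ K ≤ Real.log L ∧
      1 ≤ C * Real.log L - 1 / L ∧ Real.log C + Real.log (Real.log L) ≤ ε₃ * Real.log L ∧
      θ * Real.log L ≤ (1 + ε₃) * (θ * Real.log L + lε) ∧
      Real.log L / u ≤ θ * Real.log L + lε ∧ K ≤ θ * Real.log L + lε := by
  have t1 := Real.tendsto_log_atTop
  have hu0 : 0 < u := by linarith
  have h0 : ∀ᶠ L : ℝ in atTop, 1 ≤ L := eventually_ge_atTop _
  have h1 : ∀ᶠ L : ℝ in atTop, K ≤ Real.log L := t1.eventually_ge_atTop _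
  have h2 : ∀ᶠ L : ℝ in atTop, 1 ≤ C * Real.log L - 1 / L := by
    filter_upwards [t1.eventually_ge_atTop (2 / C), eventually_ge_atTop (1:ℝ)] with L hL hL1
    rw [div_le_iff₀ hC] at hL
    have : 1 / L ≤ 1 := by rw [div_le_one (by linarith)]; exact hL1
    linarith
  have h3 : ∀ᶠ L : ℝ in atTop, Real.log C + Real.log (Real.log L) ≤ ε₃ * Real.log L := by
    have e1 := (Real.isLittleO_log_id_atTop.comp_tendsto t1).def (show (0:ℝ) < ε₃ / 2 by positivity)
    filter_upwards [e1, t1.eventually_ge_atTop 1, t1.eventually_ge_atTop (2 / ε₃ * Real.log C)]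
      with L h1 h2 h3
    simp only [Function.comp, id] at h1
    rw [Real.norm_eq_abs, Real.norm_eq_abs, abs_of_nonneg (by linarith : 0 ≤ Real.log L)] at h1
    have h4 := le_abs_self (Real.log (Real.log L))
    have h5 : Real.log C ≤ ε₃ / 2 * Real.log L := by
      calc Real.log C = ε₃ / 2 * (2 / ε₃ * Real.log C) := by field_simp
        _ ≤ ε₃ / 2 * Real.log L := mul_le_mul_of_nonneg_left h3 (by positivity)
    linarith
  have h4 : ∀ᶠ L : ℝ in atTop, θ * Real.log L ≤ (1 + ε₃) * (θ * Real.log L + lε) := by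
    filter_upwards [t1.eventually_ge_atTop ((1 + ε₃) * |lε| / (ε₃ * θ))] with L h1
    rw [div_le_iff₀ (by positivity)] at h1
    have h2 : -|lε| ≤ lε := neg_abs_le lε
    nlinarith
  have h5 : ∀ᶠ L : ℝ in atTop, Real.log L / u ≤ θ * Real.log L + lε := by
    have hd : 0 < θ - 1 / u := by linarith
    filter_upwards [t1.eventually_ge_atTop (|lε| / (θ - 1 / u))] with L h1
    rw [div_le_iff₀ hd] at h1
    have h2 : -|lε| ≤ lε := neg_abs_le lε
    have h3 : Real.log L / u = Real.log L * (1 / u) := by ring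
    rw [h3]
    nlinarith
  have h6 : ∀ᶠ L : ℝ in atTop, K ≤ θ * Real.log L + lε := by
    filter_upwards [t1.eventually_ge_atTop ((K - lε) / θ)] with L h1
    rw [div_le_iff₀ hθ] at h1
    linarith
  exact Filter.eventually_atTop.1 (h0.and (h1.and (h2.and (h3.and (h4.and (h5.and h6))))))

/-- fixed smooth number bound with real parameters -/
theorem smooth_fix (u ε : ℝ) (hu : 1 ≤ u) (hε : 0 < ε) : ∃ Z₀ : ℝ, ∀ (Z : ℝ) (N : ℕ), Z₀ ≤ Z →
    u * Z ≤ Real.log N → Real.log N ≤ 2 * (u * Z) →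
    (((Finset.Icc 1 N).filter (fun n => ∀ p : ℕ, p.Prime → p ∣ n →
      (p : ℝ) ≤ Real.exp Z)).card : ℝ) ≤ N * (rho u + ε) := by
  obtain ⟨C₃, hC₃, hM⟩ := Pool.Agent.Helper923.HMertens.mertens_ratio
  have hu0 : 0 < u := by linarith
  obtain ⟨Y₀, hY₀⟩ := Pool.Agent.Helper923.HUpperQ.upper (Real.log (4 * u) + 1)
    (by have := Real.log_nonneg (show (1:ℝ) ≤ 4 * u by linarith); linarith) (ε / 2) (by positivity)
  refine ⟨max (Real.log (Y₀ + 2)) (max 2 (2 * (C₃ * (1 + 2 * u / ε)))), fun Z N hZ hN1 hN2 => ?_⟩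
  have z1 : Real.log (Y₀ + 2) ≤ Z := (le_max_left _ _).trans hZ
  have z2 : 2 ≤ Z := (le_max_left _ _).trans ((le_max_right _ _).trans hZ)
  have z3 : 2 * (C₃ * (1 + 2 * u / ε)) ≤ Z := (le_max_right _ _).trans ((le_max_right _ _).trans hZ)
  have hz : (Y₀ : ℝ) + 2 ≤ Real.exp Z := by
    rw [← Real.exp_log (show (0:ℝ) < Y₀ + 2 by positivity)]
    exact Real.exp_le_exp.2 z1
  have hz2 : 2 ≤ Real.exp Z := by
    have : (0:ℝ) ≤ Y₀ := Nat.cast_nonneg _
    linarith
  obtain ⟨f1, f2, f3, f4, f5, f6⟩ := floor_facts (Real.exp Z) hz2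
  rw [Real.log_exp] at f4 f5 f6
  set y : ℕ := ⌊Real.exp Z⌋₊ with hy
  have hYy : Y₀ ≤ y := by
    rw [hy]
    apply Nat.le_floor
    linarith
  have hZN : Z ≤ Real.log N := by
    have : 1 * Z ≤ u * Z := mul_le_mul_of_nonneg_right hu (by linarith)
    linarith
  have hNpos : (0:ℝ) < N := by
    by_contra h
    push Not at h
    have h0 : (N:ℝ) = 0 := le_antisymm h (Nat.cast_nonneg _)
    rw [h0, Real.log_zero] at hZN
    linarith
  have hyN : y ≤ N := by
    have : (y:ℝ) ≤ N := by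
      refine f2.trans ?_
      rw [← Real.exp_log hNpos]
      exact Real.exp_le_exp.2 hZN
    exact_mod_cast this
  have hm := abs_le.1 (hM y N f1 hyN)
  have hGs : Pool.Agent.Helper923.HUpperQ.Gs y N = ∑ p ∈ (Finset.Ioc y N).filter Nat.Prime, (1 : ℝ) / p := rfl
  rw [← hGs] at hm
  have hly : Z / 2 ≤ Real.log y := by linarith
  have hC : C₃ / Real.log y ≤ ε / (2 * u + ε) := by
    rw [div_le_iff₀ f3]
    have e1 : C₃ * (1 + 2 * u / ε) ≤ Real.log y := by linarith
    have e2 : ε / (2 * u + ε) * (C₃ * (1 + 2 * u / ε)) = C₃ := by field_simp; ring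
    calc C₃ = ε / (2 * u + ε) * (C₃ * (1 + 2 * u / ε)) := e2.symm
      _ ≤ ε / (2 * u + ε) * Real.log y := mul_le_mul_of_nonneg_left e1 (by positivity)
  have hC1 : ε / (2 * u + ε) ≤ 1 := by
    rw [div_le_one (by positivity)]
    linarith
  have hup : Pool.Agent.Helper923.HUpperQ.Gs y N ≤ Real.log (4 * u) + 1 := by
    have e1 : Real.log (Real.log N / Real.log y) ≤ Real.log (4 * u) := by
      apply Real.log_le_log
      · have : 0 < Real.log N := by linarith
        positivity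
      · rw [div_le_iff₀ f3]
        have : 4 * u * (Z / 2) ≤ 4 * u * Real.log y := mul_le_mul_of_nonneg_left hly (by positivity)
        linarith
    linarith [hm.2]
  have hlow : u - ε / 2 ≤ Real.exp (Pool.Agent.Helper923.HUpperQ.Gs y N) := by
    have e1 : Real.log u - ε / (2 * u + ε) ≤ Pool.Agent.Helper923.HUpperQ.Gs y N := by
      have e2 : Real.log u ≤ Real.log (Real.log N / Real.log y) := by
        apply Real.log_le_log hu0
        rw [le_div_iff₀ f3]
        calc u * Real.log y ≤ u * Z := mul_le_mul_of_nonneg_left f4 hu0.le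
          _ ≤ _ := hN1
      linarith [hm.1]
    refine le_trans ?_ (Real.exp_le_exp.2 e1)
    rw [Real.exp_sub, Real.exp_log hu0]
    have e3 : u * (1 - ε / (2 * u + ε)) ≤ u / Real.exp (ε / (2 * u + ε)) := by
      rw [le_div_iff₀ (Real.exp_pos _)]
      have e4 : (1 - ε / (2 * u + ε)) * Real.exp (ε / (2 * u + ε)) ≤ 1 := by
        have h := Real.add_one_le_exp (-(ε / (2 * u + ε)))
        have h2 : Real.exp (-(ε / (2 * u + ε))) * Real.exp (ε / (2 * u + ε)) = 1 := by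
          rw [← Real.exp_add]; simp
        calc (1 - ε / (2 * u + ε)) * Real.exp (ε / (2 * u + ε)) ≤
            Real.exp (-(ε / (2 * u + ε))) * Real.exp (ε / (2 * u + ε)) :=
              mul_le_mul_of_nonneg_right (by linarith) (Real.exp_pos _).le
          _ = 1 := h2
      calc u * (1 - ε / (2 * u + ε)) * Real.exp (ε / (2 * u + ε)) =
          u * ((1 - ε / (2 * u + ε)) * Real.exp (ε / (2 * u + ε))) := by ring
        _ ≤ u * 1 := mul_le_mul_of_nonneg_left e4 hu0.le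
        _ = u := mul_one u
    refine le_trans ?_ e3
    have e5 : u * (ε / (2 * u + ε)) ≤ ε / 2 := by
      rw [mul_div_assoc', div_le_iff₀ (by positivity)]
      nlinarith
    linarith
  have hrho : rho (Real.exp (Pool.Agent.Helper923.HUpperQ.Gs y N)) ≤ rho u + ε / 2 := by
    have h1 := rho_anti hlow
    have h2 := rho_lip (show u - ε / 2 ≤ u by linarith)
    linarith
  have hF := hY₀ y N hYy hyN hup
  have hsub : (Finset.Icc 1 N).filter (fun n => ∀ p : ℕ, p.Prime → p ∣ n →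
      (p : ℝ) ≤ Real.exp Z) ⊆
      Pool.Agent.Helper923.HCount.free (Pool.Agent.Helper923.HUpperQ.Pr y N) N := by
    intro n hn
    rw [Finset.mem_filter, Finset.mem_Icc] at hn
    rw [Pool.Agent.Helper923.HCount.mem_free]
    refine ⟨hn.1, fun a ha hd => ?_⟩
    rw [Pool.Agent.Helper923.HUpperQ.mem_Pr] at ha
    have h1 := hn.2 a ha.2 hd
    have h2 : a ≤ y := Nat.le_floor h1
    omega
  have hc : (((Finset.Icc 1 N).filter (fun n => ∀ p : ℕ, p.Prime → p ∣ n →
      (p : ℝ) ≤ Real.exp Z)).card : ℝ) ≤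
      (Pool.Agent.Helper923.HCount.F (Pool.Agent.Helper923.HUpperQ.Pr y N) N : ℝ) := by
    exact_mod_cast Finset.card_le_card hsub
  refine hc.trans (hF.trans ?_)
  apply mul_le_mul_of_nonneg_left _ hNpos.le
  linarith


theorem pick_eps (a b S : ℝ) (ha : 0 < a) (h : a * S < b) :
    ∃ ε : ℝ, 0 < ε ∧ ε ≤ 1 ∧ a * (S + 3 * ε) * (1 + ε) ≤ b := by
  have hc : Continuous fun ε : ℝ => a * (S + 3 * ε) * (1 + ε) := by fun_prop
  have h1 := (hc.tendsto 0).eventually (gt_mem_nhds (show a * (S + 3 * 0) * (1 + 0) < b by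
    simpa using h))
  have h2 : ∀ᶠ ε in nhdsWithin (0:ℝ) (Set.Ioi 0), a * (S + 3 * ε) * (1 + ε) < b :=
    h1.filter_mono nhdsWithin_le_nhds
  have h3 : ∀ᶠ ε in nhdsWithin (0:ℝ) (Set.Ioi 0), ε ∈ Set.Ioc (0:ℝ) 1 :=
    Ioc_mem_nhdsGT one_pos
  obtain ⟨ε, e1, e2⟩ := (h2.and h3).exists
  exact ⟨ε, e2.1, e2.2, e1.le⟩

/-- choice of the classes for the primes up to `ε₁ (log X)^θ` -/
theorem survC (b C κ₀ ε₁ θ u : ℝ) (hb1 : 1 ≤ b) (hC : 0 < C) (hε₁ : 0 < ε₁) (hε₁1 : ε₁ ≤ 1)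
    (hθ0 : 0 < θ) (hθ1 : θ < 1) (hu : 1 ≤ u) (hθu : 1 / u < θ)
    (hκ : b * C * u * (Real.log (1 / θ) + rho u) < κ₀ * θ) : ∃ X₀ : ℝ, ∀ X : ℝ, X₀ ≤ X →
    ∃ a : ℕ → ℕ, (∀ p : ℕ, p.Prime → (p : ℝ) ≤ ε₁ * (Real.log X) ^ θ → a p < p) ∧
      ∀ N : ℕ, (N : ℝ) ≤ C * (Real.log X * Real.log (Real.log X)) →
      (((Finset.Icc 1 N).filter (fun k => ∀ p : ℕ, p.Prime → (p : ℝ) ≤ ε₁ * (Real.log X) ^ θ →
        ¬ k ≡ a p [MOD p])).card : ℝ) ≤
      κ₀ * θ * (Real.log X * Real.log (Real.log X) * WW ((Real.log X) ^ b)) := by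
  have hu0 : 0 < u := by linarith
  have hb0 : 0 < b := by linarith
  have hbc : 0 < b * C * u := by positivity
  obtain ⟨ε, hε, hε1, hεκ⟩ := pick_eps _ _ _ hbc hκ
  obtain ⟨C₁, hC₁, hSR⟩ := sum_ratio
  obtain ⟨C₂, hC₂, hWR⟩ := WW_ratio
  obtain ⟨Z₀, hZ₀⟩ := smooth_fix u ε hu hε
  set K : ℝ := max (max 1 (u * Z₀)) (max (max (2 * u) (u * (2 * C₂ / ε))) (max 2 (2 * C₁ / ε))) with hK
  have k1 : 1 ≤ K := (le_max_left _ _).trans (le_max_left _ _)
  have k2 : u * Z₀ ≤ K := (le_max_right _ _).trans (le_max_left _ _)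
  have k3 : 2 * u ≤ K := (le_max_left _ _).trans ((le_max_left _ _).trans (le_max_right _ _))
  have k4 : u * (2 * C₂ / ε) ≤ K :=
    (le_max_right _ _).trans ((le_max_left _ _).trans (le_max_right _ _))
  have k5 : 2 ≤ K := (le_max_left _ _).trans ((le_max_right _ _).trans (le_max_right _ _))
  have k6 : 2 * C₁ / ε ≤ K := (le_max_right _ _).trans ((le_max_right _ _).trans (le_max_right _ _))
  clear_value K
  obtain ⟨L₀, hL₀⟩ := ev_c C (ε / 4) θ u K (Real.log ε₁) hC (by positivity) hθ0 hu hθu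
  refine ⟨Real.exp L₀, fun X hX => ?_⟩
  have hX0 : 0 < X := lt_of_lt_of_le (Real.exp_pos _) hX
  have hLL : L₀ ≤ Real.log X := by
    rw [← Real.log_exp L₀]
    exact Real.log_le_log (Real.exp_pos _) hX
  obtain ⟨g1, g2, g3, g4, g5, g6, g7⟩ := hL₀ (Real.log X) hLL
  clear hX hLL hL₀ hX0
  generalize Real.log X = L at *
  obtain ⟨l, hl⟩ : ∃ l, l = Real.log L := ⟨_, rfl⟩
  rw [← hl] at g2 g3 g4 g5 g6 g7 ⊢
  have pL : 0 < L := by linarith
  have pl : 0 < l := by linarith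
  obtain ⟨n₀, hn⟩ : ∃ n₀, n₀ = C * (L * l) := ⟨_, rfl⟩
  rw [← hn]
  have hn1 : L + 1 ≤ n₀ := by
    have h1 : L * 1 ≤ L * (C * l - 1 / L) := mul_le_mul_of_nonneg_left g3 pL.le
    have h2 : L * (C * l - 1 / L) = n₀ - 1 := by rw [hn]; field_simp
    linarith
  have hn0 : 0 < n₀ := by linarith
  set N₀ : ℕ := ⌊n₀⌋₊ with hN₀
  have hN₀le : (N₀ : ℝ) ≤ n₀ := Nat.floor_le hn0.le
  have hN₀L : L ≤ N₀ := by
    have := Nat.lt_floor_add_one n₀
    rw [← hN₀] at this
    linarith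
  have hN₀pos : (0:ℝ) < N₀ := by linarith
  have hlN1 : l ≤ Real.log N₀ := by
    rw [hl]; exact Real.log_le_log pL hN₀L
  have hlN2 : Real.log N₀ ≤ (1 + ε / 4) * l := by
    have h1 : Real.log N₀ ≤ Real.log n₀ := Real.log_le_log hN₀pos hN₀le
    rw [hn, Real.log_mul hC.ne' (by positivity), Real.log_mul pL.ne' pl.ne', ← hl] at h1
    linarith
  obtain ⟨Z, hZ⟩ : ∃ Z, Z = l / u := ⟨_, rfl⟩
  have huZ : u * Z = l := by rw [hZ]; field_simp
  have hZ2 : 2 ≤ Z := by
    rw [hZ, le_div_iff₀ hu0]; linarith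
  have hZ0 : 0 < Z := by linarith
  have hsm := hZ₀ Z N₀ (by
    rw [hZ, le_div_iff₀ hu0]; linarith) (by rw [huZ]; exact hlN1) (by rw [huZ]; nlinarith)
  -- the large primes
  obtain ⟨x, hx⟩ : ∃ x, x = ε₁ * L ^ θ := ⟨_, rfl⟩
  have hT0 : 0 < L ^ θ := Real.rpow_pos_of_pos pL _
  have hlogx : Real.log x = θ * l + Real.log ε₁ := by
    rw [hx, Real.log_mul hε₁.ne' hT0.ne', Real.log_rpow pL, ← hl]
    ring
  have hxpos : 0 < x := by rw [hx]; positivity
  have hlx0 : 0 < Real.log x := by rw [hlogx]; linarith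
  have hx2 : 2 ≤ x := by
    have h1 : 1 ≤ Real.log x := by rw [hlogx]; linarith
    have h2 : Real.exp 1 ≤ x := by
      rw [← Real.exp_log hxpos]
      exact Real.exp_le_exp.2 h1
    have h3 := Real.add_one_le_exp (1:ℝ)
    linarith
  have hxN : x ≤ N₀ := by
    refine le_trans ?_ hN₀L
    rw [hx]
    have h1 : L ^ θ ≤ L ^ (1:ℝ) := Real.rpow_le_rpow_of_exponent_le g1 hθ1.le
    rw [Real.rpow_one] at h1
    nlinarith
  have hsr := hSR x (N₀ : ℝ) hx2 hxN
  rw [Nat.floor_natCast] at hsr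
  have hlp : ∑ p ∈ (Finset.Ioc ⌊x⌋₊ N₀).filter Nat.Prime, (1 : ℝ) / p ≤ Real.log (1 / θ) + ε := by
    refine hsr.trans ?_
    have e1 : Real.log (Real.log N₀ / Real.log x) ≤ Real.log (1 / θ) + ε / 2 := by
      have e2 : Real.log N₀ / Real.log x ≤ (1 / θ) * ((1 + ε / 4) * (1 + ε / 4)) := by
        rw [div_le_iff₀ hlx0, hlogx]
        have e3 : (1 + ε / 4) * l ≤ (1 + ε / 4) * ((1 / θ) * ((1 + ε / 4) * (θ * l + Real.log ε₁))) := by
          apply mul_le_mul_of_nonneg_left _ (by positivity)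
          calc l = 1 / θ * (θ * l) := by field_simp
            _ ≤ 1 / θ * ((1 + ε / 4) * (θ * l + Real.log ε₁)) :=
                mul_le_mul_of_nonneg_left g5 (by positivity)
        calc Real.log N₀ ≤ (1 + ε / 4) * l := hlN2
          _ ≤ _ := e3
          _ = _ := by ring
      have e4 : 0 < Real.log N₀ / Real.log x := by
        have : 0 < Real.log N₀ := by linarith
        positivity
      have e5 := Real.log_le_log e4 e2
      rw [Real.log_mul (by positivity) (by positivity), Real.log_mul (by positivity)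
        (by positivity)] at e5
      have e6 := Real.log_le_sub_one_of_pos (show 0 < 1 + ε / 4 by positivity)
      linarith
    have e7 : C₁ / Real.log x ≤ ε / 2 := by
      rw [div_le_iff₀ hlx0, hlogx]
      rw [div_le_iff₀ hε] at k6
      have : ε * K ≤ ε * (θ * l + Real.log ε₁) := mul_le_mul_of_nonneg_left g7 hε.le
      linarith
    linarith
  set R : Finset ℕ := (Finset.Icc 1 N₀).filter (fun k => ∀ p : ℕ, p.Prime → Real.exp Z < p →
    (p : ℝ) ≤ x → ¬ p ∣ k) with hR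
  have hRcard : (R.card : ℝ) ≤ N₀ * (Real.log (1 / θ) + rho u + 3 * ε) := by
    have h1 := card_U0 N₀ (Real.exp Z) x hxpos.le
    have h2 : (N₀ : ℝ) * ∑ p ∈ (Finset.Ioc ⌊x⌋₊ N₀).filter Nat.Prime, (1 : ℝ) / p ≤
        N₀ * (Real.log (1 / θ) + ε) := mul_le_mul_of_nonneg_left hlp hN₀pos.le
    have h3 : (R.card : ℝ) ≤ N₀ * (rho u + ε) + N₀ * (Real.log (1 / θ) + ε) := by
      refine h1.trans ?_
      linarith
    have h4 : (N₀:ℝ) * (rho u + ε) + N₀ * (Real.log (1 / θ) + ε) =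
      N₀ * (Real.log (1 / θ) + rho u + 2 * ε) := by ring
    rw [h4] at h3
    refine h3.trans (mul_le_mul_of_nonneg_left (by linarith) hN₀pos.le)
  -- the greedy classes
  set S₂ : Finset ℕ := (Finset.Icc 1 ⌊Real.exp Z⌋₊).filter Nat.Prime with hS₂
  obtain ⟨g, hg1, hg2⟩ := greedy_all S₂ (fun p hp => (Finset.mem_filter.1 hp).2) R
  refine ⟨fun p => if (p : ℝ) ≤ Real.exp Z then g p else 0, ?_, ?_⟩
  · intro p hp _
    by_cases h : (p : ℝ) ≤ Real.exp Z
    · simp only [if_pos h]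
      apply hg1
      rw [hS₂, Finset.mem_filter, Finset.mem_Icc]
      exact ⟨⟨hp.one_lt.le, Nat.le_floor h⟩, hp⟩
    · simp only [if_neg h]
      exact hp.pos
  · intro N hN
    have hNN₀ : N ≤ N₀ := by
      rw [hN₀]
      exact Nat.le_floor hN
    have hzx : Real.exp Z ≤ x := by
      rw [← Real.exp_log hxpos, hlogx]
      apply Real.exp_le_exp.2
      rw [hZ]
      exact g6
    have hsub : (Finset.Icc 1 N).filter (fun k => ∀ p : ℕ, p.Prime → (p : ℝ) ≤ x →
        ¬ k ≡ (if (p : ℝ) ≤ Real.exp Z then g p else 0) [MOD p]) ⊆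
        R.filter (fun k => ∀ p ∈ S₂, ¬ k ≡ g p [MOD p]) := by
      intro k hk
      rw [Finset.mem_filter, Finset.mem_Icc] at hk
      rw [Finset.mem_filter, hR, Finset.mem_filter, Finset.mem_Icc]
      refine ⟨⟨⟨hk.1.1, hk.1.2.trans hNN₀⟩, ?_⟩, ?_⟩
      · intro p hp hpz hpx hpk
        have h1 := hk.2 p hp hpx
        rw [if_neg (not_le.2 hpz)] at h1
        exact h1 ((Nat.modEq_zero_iff_dvd).2 hpk)
      · intro p hp
        rw [hS₂, Finset.mem_filter, Finset.mem_Icc] at hp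
        have hpz : (p : ℝ) ≤ Real.exp Z := (Nat.le_floor_iff (Real.exp_pos _).le).1 hp.1.2
        have h1 := hk.2 p hp.2 (hpz.trans hzx)
        rwa [if_pos hpz] at h1
    have h1 : (((Finset.Icc 1 N).filter (fun k => ∀ p : ℕ, p.Prime → (p : ℝ) ≤ x →
        ¬ k ≡ (if (p : ℝ) ≤ Real.exp Z then g p else 0) [MOD p])).card : ℝ) ≤
        R.card * ∏ p ∈ S₂, (1 - 1 / (p : ℝ)) := by
      refine le_trans ?_ hg2
      exact_mod_cast Finset.card_le_card hsub
    rw [← hx]
    refine h1.trans ?_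
    have hWW : ∏ p ∈ S₂, (1 - 1 / (p : ℝ)) = WW (Real.exp Z) := rfl
    rw [hWW]
    have hLb : Real.log (L ^ b) = b * l := by rw [Real.log_rpow pL, ← hl]
    have hz2 : 2 ≤ Real.exp Z := by
      have := Real.add_one_le_exp Z
      linarith
    have hZl : Z ≤ l := by
      rw [← huZ]
      nlinarith
    have hzL : Real.exp Z ≤ L ^ b := by
      rw [← Real.exp_log (show 0 < L ^ b from Real.rpow_pos_of_pos pL _), hLb]
      apply Real.exp_le_exp.2
      nlinarith
    have h2 := hWR (Real.exp Z) (L ^ b) hz2 hzL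
    rw [hLb, Real.log_exp] at h2
    have hE : Real.exp (C₂ / Z) ≤ 1 + ε := by
      have h3 : C₂ / Z ≤ ε / 2 := by
        rw [div_le_iff₀ hZ0]
        have e1 : 2 * C₂ / ε ≤ Z := by
          rw [hZ, le_div_iff₀ hu0]
          linarith
        rw [div_le_iff₀ hε] at e1
        linarith
      have h5 := Real.exp_bound_div_one_sub_of_interval (x := C₂ / Z) (by positivity) (by linarith)
      refine h5.trans ?_
      rw [div_le_iff₀ (by linarith)]
      nlinarith
    have hWp : 0 < WW (L ^ b) := WW_pos _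
    have h6 : WW (Real.exp Z) ≤ WW (L ^ b) * (b * u) * (1 + ε) := by
      have e1 : b * l / Z = b * u := by
        rw [← huZ]; field_simp
      rw [e1] at h2
      exact h2.trans (mul_le_mul_of_nonneg_left hE (by positivity))
    have hρ : 0 < rho u := rho_pos u
    have hlθ : 0 < Real.log (1 / θ) := Real.log_pos (by rw [lt_div_iff₀ hθ0]; linarith)
    have hS0 : 0 ≤ Real.log (1 / θ) + rho u + 3 * ε := by positivity
    calc (R.card : ℝ) * WW (Real.exp Z)
        ≤ (N₀ * (Real.log (1 / θ) + rho u + 3 * ε)) * (WW (L ^ b) * (b * u) * (1 + ε)) :=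
          mul_le_mul hRcard h6 (WW_pos _).le (by positivity)
      _ ≤ (n₀ * (Real.log (1 / θ) + rho u + 3 * ε)) * (WW (L ^ b) * (b * u) * (1 + ε)) := by
          apply mul_le_mul_of_nonneg_right _ (by positivity)
          exact mul_le_mul_of_nonneg_right hN₀le hS0
      _ = (b * C * u * (Real.log (1 / θ) + rho u + 3 * ε) * (1 + ε)) * (L * l * WW (L ^ b)) := by
          rw [hn]; ring
      _ ≤ κ₀ * θ * (L * l * WW (L ^ b)) := by
          exact mul_le_mul_of_nonneg_right hεκ (by positivity)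

end Pool.Agent.X30.Freq
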