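import Pool.Agent.X30.FreqA

set_option autoImplicit false
set_option linter.unusedVariables false

/-! # Frequency of long runs: general assembly -/

namespace Pool.Agent.X30.Freq

open Finset Filter Pool.Agent.H256R2.SC Pool.Agent.Y831.RC

open scoped Classical

/-- from classes for the primes up to `t / 64 T` with few survivors to many starts of runs -/
theorem abundG (t η : ℝ) (ht : 0 < t) (ht4 : t ≤ 1 / 4) (hη : 0 < η) (hη1 : η ≤ 1) :
    ∃ X₀ : ℝ, ∀ X : ℝ, X₀ ≤ X → ∀ T : ℝ, (Real.log X) ^ η ≤ T → T ≤ Real.log X →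
      ∀ F : ℝ, 0 ≤ F → F ≤ ff X → ∀ a : ℕ → ℕ,
      (∀ p : ℕ, p.Prime → (p : ℝ) ≤ t / 64 * T → a p < p) →
      (((Finset.Icc 1 ⌊F⌋₊).filter (fun k => ∀ p : ℕ, p.Prime → (p : ℝ) ≤ t / 64 * T →
        ¬ k ≡ a p [MOD p])).card : ℝ) ≤
      (1 / 2 - t) * (1 - t) * (Real.log T / Real.log (Real.log X)) *
        (Real.log X * Real.log (Real.log X) * WW ((Real.log X) ^ (1 + t))) →
      ∀ M : ℝ, X * Real.exp (-T) ≤ ((RunSet M X F (X ^ (t / 8))).ncard : ℝ) := by
  have h12 : 0 < 1 / 2 - t := by linarith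
  obtain ⟨X₁, hX₁⟩ := covv (1 + t) (by linarith) (by linarith) t (η / 2) ht ht4 (by positivity)
  obtain ⟨X₃, hX₃⟩ := ev_run (1 + t) 1 t (by linarith) one_pos ht (by linarith)
  obtain ⟨L₀, hL₀⟩ := ev_abT t η (1 + t) ht hη
  refine ⟨max X₁ (max X₃ (Real.exp L₀)), fun X hX T hT1 hT2 F hF0 hFf a ha1 ha2 M => ?_⟩
  obtain ⟨g0, g1, g2, g3, g4, g5, g6⟩ := hX₃ X ((le_max_left _ _).trans ((le_max_right _ _).trans hX))
  rw [one_mul] at g1 g2 g6
  have hXL : Real.exp L₀ ≤ X := (le_max_right _ _).trans ((le_max_right _ _).trans hX)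
  have hLL : L₀ ≤ Real.log X := by
    rw [← Real.log_exp L₀]
    exact Real.log_le_log (Real.exp_pos _) hXL
  obtain ⟨k0, k1, k2, k3, k4, k5, k6⟩ := hL₀ (Real.log X) hLL
  have h1 := hX₁ X ((le_max_left _ _).trans hX)
    (400 * (Real.log X * (Real.log (Real.log X)) ^ 2 / T))
  have hX0 : 0 < X := by linarith
  have hXe : X = Real.exp (Real.log X) := (Real.exp_log hX0).symm
  set L := Real.log X with hL
  set l := Real.log L with hl
  have hl0 : 0 < l := by linarith
  have hL0 : 0 < L := by linarith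
  have hT4 : 4 ≤ T := k6.trans hT1
  have hT0 : 0 < T := by linarith
  have hlogT : 0 < Real.log T := Real.log_pos (by linarith)
  have hθη : η * l ≤ Real.log T := by
    rw [hl, ← Real.log_rpow hL0]
    exact Real.log_le_log (Real.rpow_pos_of_pos hL0 _) hT1
  obtain ⟨v, hv⟩ : ∃ v, v = 400 * (L * l ^ 2 / T) := ⟨_, rfl⟩
  rw [← hv] at h1
  have hv0 : 0 < v := by rw [hv]; positivity
  have hv1 : 960 * l ≤ t * v := by
    have e1 : 400 * l ^ 2 ≤ v := by
      rw [hv]
      apply mul_le_mul_of_nonneg_left _ (by norm_num)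
      rw [le_div_iff₀ hT0]
      calc l ^ 2 * T ≤ l ^ 2 * L := mul_le_mul_of_nonneg_left hT2 (by positivity)
        _ = L * l ^ 2 := by ring
    have e2 : t * (400 * l ^ 2) ≤ t * v := mul_le_mul_of_nonneg_left e1 ht.le
    have e3 : 960 * l ≤ 400 * t * l * l := mul_le_mul_of_nonneg_right k2 hl0.le
    nlinarith
  have hv2 : v ≤ L ^ (1 - η / 2) := by
    rw [hv, ← mul_div_assoc, div_le_iff₀ hT0]
    calc 400 * (L * l ^ 2) = L * (400 * l ^ 2) := by ring
      _ ≤ L * L ^ (η / 2) := mul_le_mul_of_nonneg_left k3 hL0.le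
      _ = L ^ (1 - η / 2) * L ^ η := by
          rw [← Real.rpow_add hL0]
          nth_rewrite 1 [← Real.rpow_one L]
          rw [← Real.rpow_add hL0]
          congr 1
          ring
      _ ≤ L ^ (1 - η / 2) * T := mul_le_mul_of_nonneg_left hT1 (Real.rpow_nonneg hL0.le _)
  have hcov := h1 hv1 hv2
  have hτ : 48 * (L / v * l ^ 2) = 48 / 400 * T := by
    rw [hv]
    field_simp
  rw [hτ] at hcov
  have hlogv : Real.log v = Real.log 400 + (l + 2 * Real.log l) - Real.log T := by
    rw [hv, Real.log_mul (by norm_num) (by positivity), Real.log_div (by positivity) hT0.ne',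
      Real.log_mul hL0.ne' (by positivity), Real.log_pow, ← hl]
    push_cast
    ring
  have hφ : (1 / 2 - t) * (1 - t) * (Real.log T / l) ≤ (1 / 2 - t) * (1 - Real.log v / l) := by
    rw [mul_assoc]
    apply mul_le_mul_of_nonneg_left _ h12.le
    have e1 : 1 - Real.log v / l = (l - Real.log v) / l := by field_simp
    rw [e1, ← mul_div_assoc]
    apply div_le_div_of_nonneg_right _ hl0.le
    rw [hlogv]
    have e2 : t * (η * l) ≤ t * Real.log T := mul_le_mul_of_nonneg_left hθη ht.le
    linarith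
  set x := t / 64 * T with hx
  have hx0 : 0 ≤ x := by rw [hx]; positivity
  have hxT : x ≤ T / 256 := by
    rw [hx]
    have : t / 64 * T ≤ 1 / 256 * T := mul_le_mul_of_nonneg_right (by linarith) hT0.le
    linarith
  have hxL : x ≤ L := by linarith
  have hFX' : 0 ≤ X - ff X := by
    by_contra h
    push Not at h
    have h2 : (X - ff X) / Real.exp (2 * (t / 64 * L)) < 0 :=
      div_neg_of_neg_of_pos h (Real.exp_pos _)
    have h3 : 0 ≤ X ^ (1 - t / 8) := Real.rpow_nonneg (by linarith) _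
    linarith
  have hFX : 0 ≤ X - F := by linarith
  have hprim := primorial_le_exp x hx0
  have hPpos : (0:ℝ) < (primorial ⌊x⌋₊ : ℝ) := by
    exact_mod_cast primorial_pos _
  have hlen1 : (X - F) / Real.exp (2 * x) ≤ (X - F) / (primorial ⌊x⌋₊ : ℝ) :=
    div_le_div_of_nonneg_left hFX hPpos hprim
  have hlen2 : (X - ff X) / Real.exp (2 * (t / 64 * L)) ≤
      (X - F) / Real.exp (2 * x) := by
    apply div_le_div₀ hFX (by linarith) (Real.exp_pos _)
    apply Real.exp_le_exp.2
    rw [hx]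
    have : t / 64 * T ≤ t / 64 * L := mul_le_mul_of_nonneg_left hT2 (by positivity)
    linarith
  have hxδ : x ≤ X ^ (t / 8) := by
    refine le_trans ?_ g5
    rw [hx]
    exact mul_le_mul_of_nonneg_left hT2 (by positivity)
  have hW0 : 0 ≤ L * l * WW (L ^ (1 + t)) := by
    have := WW_pos (L ^ (1 + t))
    positivity
  have hmain := run_cntK hcov hx0 (hxL.trans g4) ha1 hF0 (hFf.trans g2)
    (ha2.trans (mul_le_mul_of_nonneg_right hφ hW0)) M
    (by linarith) hxδ
  have hfin : X * Real.exp (-T) ≤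
      ((X - F) / (primorial ⌊x⌋₊ : ℝ) - 1) * Real.exp (-(48 / 400 * T)) := by
    have e1 : X / 2 ≤ X - F := by
      rw [← hXe] at k5
      linarith
    have e2 : X / 2 * Real.exp (-(2 * x)) ≤ (X - F) / (primorial ⌊x⌋₊ : ℝ) := by
      refine le_trans ?_ hlen1
      rw [Real.exp_neg, ← div_eq_mul_inv]
      exact div_le_div_of_nonneg_right e1 (Real.exp_pos _).le
    have e3 : (8:ℝ) ≤ X * Real.exp (-(2 * x)) := by
      rw [hXe, ← Real.exp_add]
      have e4 : L / 2 ≤ L + -(2 * x) := by linarith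
      have e5 : (8:ℝ) ≤ Real.exp (L / 2) := by
        have h6 : Real.exp (5 / 2) ≤ Real.exp (L / 2) := Real.exp_le_exp.2 (by linarith)
        have h7 : (8:ℝ) ≤ Real.exp (5 / 2) := by
          have h8 : Real.exp (5 / 2) = Real.exp 1 * Real.exp 1 * Real.exp (1 / 2) := by
            rw [← Real.exp_add, ← Real.exp_add]
            norm_num
          have h9 := Real.exp_one_gt_d9
          have h10 := Real.add_one_le_exp (1 / 2 : ℝ)
          rw [h8]
          have h11 : (2.7:ℝ) * 2.7 ≤ Real.exp 1 * Real.exp 1 := by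
            apply mul_le_mul <;> linarith
          nlinarith
        linarith
      exact e5.trans (Real.exp_le_exp.2 e4)
    have e6 : X * Real.exp (-(2 * x)) * Real.exp (-2) ≤
        (X - F) / (primorial ⌊x⌋₊ : ℝ) - 1 := by
      have e7 : Real.exp (-2) ≤ 3 / 8 := by
        rw [Real.exp_neg, inv_le_comm₀ (Real.exp_pos _) (by norm_num)]
        have := Real.add_one_le_exp (2:ℝ)
        linarith
      have e8 : 0 ≤ X * Real.exp (-(2 * x)) := by positivity
      nlinarith
    calc X * Real.exp (-T) ≤ X * Real.exp (-(2 * x) + -2 + -(48 / 400 * T)) := by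
          apply mul_le_mul_of_nonneg_left _ hX0.le
          apply Real.exp_le_exp.2
          linarith
      _ = X * Real.exp (-(2 * x)) * Real.exp (-2) * Real.exp (-(48 / 400 * T)) := by
          rw [Real.exp_add, Real.exp_add]
          ring
      _ ≤ _ := mul_le_mul_of_nonneg_right e6 (Real.exp_pos _).le
  exact hfin.trans hmain

end Pool.Agent.X30.Freq
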