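import Pool.Agent.X30.FreqB

set_option autoImplicit false
set_option linter.unusedVariables false

/-! # Frequency of runs of length `C log X loglog X` -/

namespace Pool.Agent.X30.Freq

open Finset Filter Pool.Agent.H256R2.SC Pool.Agent.Y831.RC

open Pool.Agent.Helper923.HRho

open scoped Classical

theorem rho_le_pow (k : ℕ) : ∀ v : ℝ, 1 ≤ v - k →
    Pool.Agent.Helper923.HRho.rho v ≤ ((v - k) ^ k)⁻¹ := by
  induction k with
  | zero => intro v _; simpa using Pool.Agent.Helper923.HRho.rho_le_one v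
  | succ k ih =>
    intro v hv
    push_cast at hv
    have h1 : 1 ≤ v - 1 - k := by linarith
    have h2 := ih (v - 1) h1
    have hk : (0:ℝ) ≤ k := Nat.cast_nonneg k
    have hv1 : 1 ≤ v := by linarith
    have h3 : v * Pool.Agent.Helper923.HRho.rho v ≤ Pool.Agent.Helper923.HRho.rho (v - 1) := by
      rw [rho_mul hv1]
      have h4 : (∫ s in (v - 1)..v, Pool.Agent.Helper923.HRho.rho s) ≤
          ∫ s in (v - 1)..v, Pool.Agent.Helper923.HRho.rho (v - 1) := by
        apply intervalIntegral.integral_mono_on (by linarith) (rho_cont.intervalIntegrable _ _)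
          intervalIntegrable_const
        intro s hs
        exact rho_anti hs.1
      rw [intervalIntegral.integral_const] at h4
      have e : (v - (v - 1)) • Pool.Agent.Helper923.HRho.rho (v - 1) =
          Pool.Agent.Helper923.HRho.rho (v - 1) := by
        rw [sub_sub_cancel, one_smul]
      rwa [e] at h4
    have hvp : 0 < v := by linarith
    have hw : 0 < v - 1 - k := by linarith
    have h5 : Pool.Agent.Helper923.HRho.rho v ≤ ((v - 1 - k) ^ k)⁻¹ / v := by
      rw [le_div_iff₀ hvp, mul_comm]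
      exact h3.trans h2
    refine h5.trans ?_
    have e1 : v - ((k + 1 : ℕ) : ℝ) = v - 1 - k := by push_cast; ring
    rw [e1, pow_succ, mul_inv, ← div_eq_mul_inv]
    apply div_le_div_of_nonneg_left (by positivity) hw
    linarith

/-- frequency with parameters -/
theorem freqT (C δ θ u : ℝ) (hC : 0 < C) (hδ : 0 < δ) (hθ0 : 0 < θ) (hθ1 : θ < 1) (hu : 1 ≤ u)
    (hθu : 1 / u < θ) (h : C * u * (Real.log (1 / θ) + Pool.Agent.Helper923.HRho.rho u) < θ / 2) :
    ∃ X₀ : ℝ, ∀ X : ℝ, X₀ ≤ X → ∀ M : ℝ,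
      X * Real.exp (-(Real.log X) ^ θ) ≤
        ((RunSet M X (C * (Real.log X * Real.log (Real.log X))) (X ^ δ)).ncard : ℝ) := by
  -- choice of t
  obtain ⟨t, ht, ht4, htδ, htc⟩ : ∃ t : ℝ, 0 < t ∧ t ≤ 1 / 4 ∧ t / 8 ≤ δ ∧
      (1 + t) * C * u * (Real.log (1 / θ) + rho u) < ((1 / 2 - t) * (1 - t)) * θ := by
    have hc : Continuous fun t : ℝ => (1 + t) * C * u * (Real.log (1 / θ) + rho u) -
        ((1 / 2 - t) * (1 - t)) * θ := by fun_prop
    have h1 := (hc.tendsto 0).eventually (gt_mem_nhds (show (1 + 0) * C * u *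
      (Real.log (1 / θ) + rho u) - ((1 / 2 - 0) * (1 - 0)) * θ < 0 by
        have e : (1 + 0) * C * u * (Real.log (1 / θ) + rho u) - ((1 / 2 - 0) * (1 - 0)) * θ =
          C * u * (Real.log (1 / θ) + rho u) - θ / 2 := by ring
        rw [e]; linarith))
    have h2 : ∀ᶠ t in nhdsWithin (0:ℝ) (Set.Ioi 0), (1 + t) * C * u *
      (Real.log (1 / θ) + rho u) - ((1 / 2 - t) * (1 - t)) * θ < 0 :=
      h1.filter_mono nhdsWithin_le_nhds
    have h3 : ∀ᶠ t in nhdsWithin (0:ℝ) (Set.Ioi 0), t ∈ Set.Ioc (0:ℝ) (min (1 / 4) δ) :=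
      Ioc_mem_nhdsGT (by positivity)
    obtain ⟨t, e1, e2⟩ := (h2.and h3).exists
    refine ⟨t, e2.1, e2.2.trans (min_le_left _ _), ?_, by linarith⟩
    have h4 := e2.2.trans (min_le_right _ _)
    have h5 := e2.1
    linarith
  obtain ⟨X₁, hX₁⟩ := abundG t θ ht ht4 hθ0 hθ1.le
  obtain ⟨X₂, hX₂⟩ := survC (1 + t) C ((1 / 2 - t) * (1 - t)) (t / 64) θ u (by linarith) hC
    (by positivity) (by linarith) hθ0 hθ1 hu hθu htc
  obtain ⟨X₃, hX₃⟩ := ev4 1
  have hlim : ∀ᶠ X : ℝ in atTop, C * (Real.log (Real.log (Real.log X))) ^ 2 ≤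
      Real.log (Real.log X) := by
    have t1 := Real.tendsto_log_atTop
    have e1 : (fun x : ℝ => (Real.log x) ^ (2:ℝ)) =o[atTop] (fun x : ℝ => x ^ (1:ℝ)) :=
      isLittleO_log_rpow_rpow_atTop 2 one_pos
    have e2 := e1.def (show (0:ℝ) < 1 / C by positivity)
    have e3 : ∀ᶠ x : ℝ in atTop, C * (Real.log x) ^ 2 ≤ x := by
      filter_upwards [e2, eventually_ge_atTop (1:ℝ)] with x hx hx1
      have hl0 := Real.log_nonneg hx1
      rw [Real.norm_eq_abs, Real.norm_eq_abs, abs_of_nonneg (Real.rpow_nonneg hl0 _),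
        abs_of_nonneg (Real.rpow_nonneg (by linarith) _), Real.rpow_one, Real.rpow_two,
        div_mul_eq_mul_div, one_mul, le_div_iff₀ hC] at hx
      linarith
    exact (t1.comp t1).eventually e3
  obtain ⟨X₄, hX₄⟩ := Filter.eventually_atTop.1 hlim
  refine ⟨max (max X₁ X₂) (max X₃ X₄), fun X hX M => ?_⟩
  have x1 : X₁ ≤ X := (le_max_left _ _).trans ((le_max_left _ _).trans hX)
  have x2 : X₂ ≤ X := (le_max_right _ _).trans ((le_max_left _ _).trans hX)
  have x3 : X₃ ≤ X := (le_max_left _ _).trans ((le_max_right _ _).trans hX)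
  have x4 : X₄ ≤ X := (le_max_right _ _).trans ((le_max_right _ _).trans hX)
  obtain ⟨m0, m4, m5, m3, m2, m1⟩ := hX₃ X x3
  obtain ⟨a4, a3, a2, a1⟩ := s_pos (le_refl (1:ℝ)) m4 m3 m2 m1
  have q1 := hX₄ X x4
  obtain ⟨a, ha1, ha2⟩ := hX₂ X x2
  have p4 : 0 < Real.log (Real.log (Real.log (Real.log X))) := by linarith
  have p3 : 0 < Real.log (Real.log (Real.log X)) := by linarith
  have p2 : 0 < Real.log (Real.log X) := by linarith
  have p1 : 0 < Real.log X := by linarith
  have hL1 : 1 ≤ Real.log X := by linarith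
  have hT2 : (Real.log X) ^ θ ≤ Real.log X := by
    have := Real.rpow_le_rpow_of_exponent_le hL1 hθ1.le
    rwa [Real.rpow_one] at this
  have hF0 : 0 ≤ C * (Real.log X * Real.log (Real.log X)) := by positivity
  have hFf : C * (Real.log X * Real.log (Real.log X)) ≤ ff X := by
    have e : ff X = Real.log X * (Real.log (Real.log X)) ^ 2 *
      Real.log (Real.log (Real.log (Real.log X))) / (Real.log (Real.log (Real.log X))) ^ 2 := rfl
    rw [e, le_div_iff₀ (by positivity)]
    calc C * (Real.log X * Real.log (Real.log X)) * (Real.log (Real.log (Real.log X))) ^ 2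
        = (C * (Real.log (Real.log (Real.log X))) ^ 2) * (Real.log X * Real.log (Real.log X)) := by
          ring
      _ ≤ Real.log (Real.log X) * (Real.log X * Real.log (Real.log X)) :=
          mul_le_mul_of_nonneg_right q1 (by positivity)
      _ = Real.log X * (Real.log (Real.log X)) ^ 2 * 1 := by ring
      _ ≤ _ := mul_le_mul_of_nonneg_left m4 (by positivity)
  have hlT : Real.log ((Real.log X) ^ θ) / Real.log (Real.log X) = θ := by
    rw [Real.log_rpow p1]
    field_simp
  have hmain := hX₁ X x1 ((Real.log X) ^ θ) le_rfl hT2 _ hF0 hFf a ha1 (by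
    rw [hlT]
    exact ha2 _ (Nat.floor_le hF0)) M
  refine hmain.trans ?_
  exact_mod_cast RunSet_mono M X _ _ _ hF0 (Real.rpow_le_rpow_of_exponent_le m0 htδ)

theorem ev_x (c η : ℝ) (hc : 0 < c) (hη : 0 < η) (hcη : c * (1 + η) < 1 / 2) :
    ∃ x₀ : ℝ, ∀ x : ℝ, x₀ ≤ x → 1 ≤ Real.log x ∧ Real.log x ≤ x ∧ 1 ≤ x ∧
      ∃ ε e : ℝ, 0 < ε ∧ ε < 1 / 6 ∧ 1 + η / 2 ≤ (1 - 3 * ε) * (1 + η) ∧
        Real.log (Real.log x) - Real.log ε ≤ ε * Real.log x ∧
        1 ≤ ε * ((1 + η) * x / Real.log x) ∧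
        0 < e ∧ e < 1 ∧ c * (1 + η) / (1 - e) + e < (1 - e) / 2 ∧
        c * Real.exp (-x) ≤ e ∧ (1 + η) * x * Real.exp (-(η / 2 * x)) ≤ e ∧
        2 ≤ (1 + η) * x / Real.log x * (1 - e) := by
  obtain ⟨e, he0, he1, he⟩ : ∃ e : ℝ, 0 < e ∧ e ≤ 1 / 2 ∧
      c * (1 + η) / (1 - e) + e < (1 - e) / 2 := by
    have hc' : ContinuousAt (fun e : ℝ => c * (1 + η) / (1 - e) + e - (1 - e) / 2) 0 := by
      apply ContinuousAt.sub
      · apply ContinuousAt.add _ continuousAt_id
        apply ContinuousAt.div continuousAt_const (by fun_prop) (by norm_num)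
      · fun_prop
    have h1 := hc'.eventually (gt_mem_nhds (show c * (1 + η) / (1 - 0) + 0 - (1 - 0) / 2 < 0 by
      simp only [sub_zero, div_one, add_zero]; linarith))
    have h2 : ∀ᶠ e in nhdsWithin (0:ℝ) (Set.Ioi 0),
      c * (1 + η) / (1 - e) + e - (1 - e) / 2 < 0 := h1.filter_mono nhdsWithin_le_nhds
    have h3 : ∀ᶠ t in nhdsWithin (0:ℝ) (Set.Ioi 0), t ∈ Set.Ioc (0:ℝ) (1 / 2) :=
      Ioc_mem_nhdsGT (by norm_num)
    obtain ⟨e, e1, e2⟩ := (h2.and h3).exists
    exact ⟨e, e2.1, e2.2, by linarith⟩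
  set ε : ℝ := η / (6 * (1 + η)) with hε
  have hε0 : 0 < ε := by positivity
  have hε1 : ε < 1 / 6 := by
    rw [hε, div_lt_iff₀ (by positivity)]; linarith
  have hε2 : 1 + η / 2 ≤ (1 - 3 * ε) * (1 + η) := by
    have : 3 * ε * (1 + η) = η / 2 := by rw [hε]; field_simp; ring
    linarith
  have t1 := Real.tendsto_log_atTop
  have f1 : ∀ᶠ x : ℝ in atTop, Real.log (Real.log x) - Real.log ε ≤ ε * Real.log x := by
    have e1 := (Real.isLittleO_log_id_atTop.comp_tendsto t1).def (show (0:ℝ) < ε / 2 by positivity)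
    filter_upwards [e1, t1.eventually_ge_atTop 1, t1.eventually_ge_atTop (2 / ε * (-Real.log ε))]
      with L h1 h2 h3
    simp only [Function.comp, id] at h1
    rw [Real.norm_eq_abs, Real.norm_eq_abs, abs_of_nonneg (by linarith : 0 ≤ Real.log L)] at h1
    have h4 := le_abs_self (Real.log (Real.log L))
    have h5 : -Real.log ε ≤ ε / 2 * Real.log L := by
      calc -Real.log ε = ε / 2 * (2 / ε * (-Real.log ε)) := by field_simp
        _ ≤ ε / 2 * Real.log L := mul_le_mul_of_nonneg_left h3 (by positivity)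
    linarith
  have f2 : Tendsto (fun x : ℝ => (1 + η) * x / Real.log x) atTop atTop := by
    have e1 : Tendsto (fun κ : ℝ => Real.log κ / κ) atTop (nhds 0) := by
      have := (Real.isLittleO_log_id_atTop).tendsto_div_nhds_zero
      simpa using this
    have e2 : Tendsto (fun κ : ℝ => (1 / (1 + η)) * (Real.log κ / κ)) atTop
        (nhdsWithin 0 (Set.Ioi 0)) := by
      rw [tendsto_nhdsWithin_iff]
      refine ⟨by simpa using e1.const_mul (1 / (1 + η)), ?_⟩
      filter_upwards [eventually_gt_atTop (1:ℝ)] with x hx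
      have := Real.log_pos hx
      have hx0 : 0 < x := by linarith
      show 0 < 1 / (1 + η) * (Real.log x / x)
      positivity
    refine (tendsto_inv_nhdsGT_zero.comp e2).congr' ?_
    filter_upwards [eventually_gt_atTop (1:ℝ)] with x hx
    have := Real.log_pos hx
    have hx0 : 0 < x := by linarith
    simp only [Function.comp]
    field_simp
  have f3 : ∀ᶠ x : ℝ in atTop, c * Real.exp (-x) ≤ e := by
    have h := (Real.tendsto_exp_neg_atTop_nhds_zero.const_mul c).eventually
      (gt_mem_nhds (show c * 0 < e by simpa using he0))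
    filter_upwards [h] with x hx using hx.le
  have f4 : ∀ᶠ x : ℝ in atTop, (1 + η) * x * Real.exp (-(η / 2 * x)) ≤ e := by
    have h := tendsto_rpow_mul_exp_neg_mul_atTop_nhds_zero 1 (η / 2) (by positivity)
    have h2 := (h.const_mul (1 + η)).eventually (gt_mem_nhds (show (1 + η) * 0 < e by
      simpa using he0))
    filter_upwards [h2] with x hx
    rw [Real.rpow_one] at hx
    have e1 : (1 + η) * x * Real.exp (-(η / 2 * x)) = (1 + η) * (x * Real.exp (-(η / 2) * x)) := by
      rw [mul_assoc]; congr 3; ring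
    rw [e1]; exact hx.le
  obtain ⟨x₀, hx₀⟩ := Filter.eventually_atTop.1 (f1.and ((f2.eventually_ge_atTop (1 / ε)).and
    (f3.and (f4.and ((t1.eventually_ge_atTop 1).and ((eventually_ge_atTop (1:ℝ)).and
    (f2.eventually_ge_atTop (2 / (1 - e)))))))))
  refine ⟨x₀, fun x hx => ?_⟩
  obtain ⟨g1, g2, g3, g4, g5, g6, g7⟩ := hx₀ x hx
  refine ⟨g5, ?_, g6, ε, e, hε0, hε1, hε2, g1, ?_, he0, by linarith, he, g3, g4, ?_⟩
  · have := Real.log_le_sub_one_of_pos (show 0 < x by linarith)
    linarith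
  · rw [div_le_iff₀ hε0] at g2
    linarith
  · rw [div_le_iff₀ (by linarith)] at g7
    exact g7

theorem ev_C (c η : ℝ) (hc : 0 < c) (hη : 0 < η) (hcη : c * (1 + η) < 1 / 2) :
    ∃ C₀ : ℝ, ∀ C : ℝ, C₀ ≤ C → ∃ u : ℝ, 0 < C ∧ 0 < 1 - c * Real.log (Real.log C) / (C * Real.log C) ∧
      1 - c * Real.log (Real.log C) / (C * Real.log C) < 1 ∧ 1 ≤ u ∧
      1 / u < 1 - c * Real.log (Real.log C) / (C * Real.log C) ∧
      C * u * (Real.log (1 / (1 - c * Real.log (Real.log C) / (C * Real.log C))) +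
        Pool.Agent.Helper923.HRho.rho u) <
        (1 - c * Real.log (Real.log C) / (C * Real.log C)) / 2 := by
  obtain ⟨x₀, hx₀⟩ := ev_x c η hc hη hcη
  refine ⟨Real.exp x₀, fun C hC => ?_⟩
  have hC0 : 0 < C := lt_of_lt_of_le (Real.exp_pos _) hC
  have hx : x₀ ≤ Real.log C := by
    rw [← Real.log_exp x₀]; exact Real.log_le_log (Real.exp_pos _) hC
  obtain ⟨g1, g2, g3, ε, e, h1, h2, h3, h4, h5, h6, h7, h8, h9, h10, h11⟩ := hx₀ _ hx
  clear hx₀
  generalize hxd : Real.log C = x at *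
  have hCx : C = Real.exp x := by rw [← hxd, Real.exp_log hC0]
  generalize hy : Real.log x = y at *
  have px : 0 < x := by linarith
  have py : 0 < y := by linarith
  obtain ⟨d, hd⟩ : ∃ d, d = c * y / (C * x) := ⟨_, rfl⟩
  rw [← hd]
  obtain ⟨u, hu⟩ : ∃ u, u = (1 + η) * x / y := ⟨_, rfl⟩
  rw [← hu] at h5 h11
  have hd0 : 0 < d := by rw [hd]; positivity
  have hde : d ≤ e := by
    refine le_trans ?_ h9
    rw [hd, hCx, Real.exp_neg, div_le_iff₀ (by positivity)]
    have e1 : c * (Real.exp x)⁻¹ * (Real.exp x * x) = c * x := by field_simp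
    rw [e1]
    exact mul_le_mul_of_nonneg_left g2 hc.le
  have h1e : 0 < 1 - e := by linarith
  have hu0 : 0 < u := by rw [hu]; positivity
  have hu1 : 1 ≤ u := by
    have : u * (1 - e) ≤ u * 1 := mul_le_mul_of_nonneg_left (by linarith) hu0.le
    linarith
  have hrho : Pool.Agent.Helper923.HRho.rho u ≤ Real.exp (-((1 + η / 2) * x)) := by
    set k : ℕ := ⌊(1 - ε) * u⌋₊ with hk
    have k1 : (k:ℝ) ≤ (1 - ε) * u := Nat.floor_le (by nlinarith)
    have k2 : (1 - ε) * u - 1 ≤ k := by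
      have := Nat.lt_floor_add_one ((1 - ε) * u)
      rw [← hk] at this
      linarith
    have k3 : ε * u ≤ u - k := by linarith
    have k4 := rho_le_pow k u (by linarith)
    refine k4.trans ?_
    have hεu : 0 < ε * u := by positivity
    have k5 : ((u - k) ^ k)⁻¹ ≤ ((ε * u) ^ k)⁻¹ := by
      apply inv_anti₀ (by positivity)
      exact pow_le_pow_left₀ hεu.le k3 k
    refine k5.trans ?_
    have k6 : ((ε * u) ^ k)⁻¹ = Real.exp (-(k * Real.log (ε * u))) := by
      rw [Real.exp_neg, ← Real.log_pow, Real.exp_log (by positivity)]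
    rw [k6]
    apply Real.exp_le_exp.2
    apply neg_le_neg
    have k7 : (1 - ε) * y ≤ Real.log (ε * u) := by
      rw [hu, Real.log_mul h1.ne' (by positivity), Real.log_div (by positivity) py.ne',
        Real.log_mul (by positivity) px.ne', hy]
      have := Real.log_nonneg (show (1:ℝ) ≤ 1 + η by linarith)
      linarith
    have k8 : (1 - 2 * ε) * u ≤ k := by linarith
    have huy : u * y = (1 + η) * x := by rw [hu]; field_simp
    calc (1 + η / 2) * x ≤ ((1 - 3 * ε) * (1 + η)) * x := mul_le_mul_of_nonneg_right h3 px.le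
      _ ≤ (((1 - 2 * ε) * (1 - ε)) * (1 + η)) * x := by
          apply mul_le_mul_of_nonneg_right _ px.le
          apply mul_le_mul_of_nonneg_right _ (by linarith)
          nlinarith
      _ = ((1 - 2 * ε) * u) * ((1 - ε) * y) := by
          have : ((1 - 2 * ε) * u) * ((1 - ε) * y) = (1 - 2 * ε) * (1 - ε) * (u * y) := by ring
          rw [this, huy]; ring
      _ ≤ k * Real.log (ε * u) := by
          apply mul_le_mul k8 k7 _ (Nat.cast_nonneg k)
          have : 0 < 1 - ε := by linarith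
          positivity
  refine ⟨u, hC0, by linarith, by linarith, hu1, ?_, ?_⟩
  · rw [div_lt_iff₀ hu0]
    have : u * (1 - e) ≤ u * (1 - d) := mul_le_mul_of_nonneg_left (by linarith) hu0.le
    linarith
  · have hlog : Real.log (1 / (1 - d)) ≤ d / (1 - d) := by
      have h1d : 0 < 1 - d := by linarith
      have := Real.log_le_sub_one_of_pos (show 0 < 1 / (1 - d) by positivity)
      have e1 : 1 / (1 - d) - 1 = d / (1 - d) := by field_simp; ring
      linarith
    have e1 : C * u * Real.log (1 / (1 - d)) ≤ c * (1 + η) / (1 - e) := by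
      have h1d : 0 < 1 - d := by linarith
      calc C * u * Real.log (1 / (1 - d)) ≤ C * u * (d / (1 - d)) :=
            mul_le_mul_of_nonneg_left hlog (by positivity)
        _ = c * (1 + η) / (1 - d) := by
            rw [hd, hu]; field_simp
        _ ≤ c * (1 + η) / (1 - e) := by
            apply div_le_div_of_nonneg_left (by positivity) h1e (by linarith)
    have e2 : C * u * Pool.Agent.Helper923.HRho.rho u ≤ e := by
      refine le_trans ?_ h10
      have e3 : C * Real.exp (-((1 + η / 2) * x)) = Real.exp (-(η / 2 * x)) := by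
        rw [hCx, ← Real.exp_add]; congr 1; ring
      have e4 : u ≤ (1 + η) * x := by
        rw [hu, div_le_iff₀ py]
        have : 0 < (1 + η) * x := by positivity
        nlinarith
      calc C * u * Pool.Agent.Helper923.HRho.rho u ≤ C * u * Real.exp (-((1 + η / 2) * x)) :=
            mul_le_mul_of_nonneg_left hrho (by positivity)
        _ = u * (C * Real.exp (-((1 + η / 2) * x))) := by ring
        _ = u * Real.exp (-(η / 2 * x)) := by rw [e3]
        _ ≤ (1 + η) * x * Real.exp (-(η / 2 * x)) :=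
            mul_le_mul_of_nonneg_right e4 (Real.exp_pos _).le
    have e5 : C * u * (Real.log (1 / (1 - d)) + Pool.Agent.Helper923.HRho.rho u) =
      C * u * Real.log (1 / (1 - d)) + C * u * Pool.Agent.Helper923.HRho.rho u := by ring
    rw [e5]
    have e6 : (1 - e) / 2 ≤ (1 - d) / 2 := by linarith
    linarith

theorem freq (c δ : ℝ) (hc : 0 < c) (hc2 : c < 1 / 2) (hδ : 0 < δ) : ∃ C₀ : ℝ, ∀ C : ℝ, C₀ ≤ C →
    ∃ X₀ : ℝ, ∀ X : ℝ, X₀ ≤ X → ∀ M : ℝ,
      X * Real.exp (-(Real.log X) ^ (1 - c * Real.log (Real.log C) / (C * Real.log C))) ≤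
        ((RunSet M X (C * (Real.log X * Real.log (Real.log X))) (X ^ δ)).ncard : ℝ) := by
  obtain ⟨η, hη, hcη⟩ : ∃ η : ℝ, 0 < η ∧ c * (1 + η) < 1 / 2 := by
    refine ⟨(1 / 2 - c) / (2 * c), div_pos (by linarith) (by positivity), ?_⟩
    have : c * (1 + (1 / 2 - c) / (2 * c)) = c + (1 / 2 - c) / 2 := by field_simp
    rw [this]; linarith
  obtain ⟨C₀, hC₀⟩ := ev_C c η hc hη hcη
  refine ⟨C₀, fun C hC => ?_⟩
  obtain ⟨u, h1, h2, h3, h4, h5, h6⟩ := hC₀ C hC
  exact freqT C δ _ u h1 hδ h2 h3 h4 h5 h6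

end Pool.Agent.X30.Freq
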