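import Mathlib
import Pool.Agent.X23.L3.Stm

set_option autoImplicit false

namespace Pool.Agent.X30.LT

open Pool.Agent.X23.L3 Matrix

/-- a nonzero vector orthogonal to a given one -/
lemma exists_orth (f : Fin 3 → ℝ) : ∃ v : Fin 3 → ℝ, v ≠ 0 ∧ f ⬝ᵥ v = 0 := by
  by_cases h : f 0 = 0
  · refine ⟨![1, 0, 0], ?_, ?_⟩
    · intro h1
      have := congrFun h1 0
      simp at this
    · simp [dotProduct, Fin.sum_univ_three, h]
  · refine ⟨![-f 1, f 0, 0], ?_, ?_⟩
    · intro h1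
      have := congrFun h1 1
      simp at this
      exact h this
    · simp [dotProduct, Fin.sum_univ_three]
      ring

theorem t_PT1 : S_SEG → S_EXTA → S_EXTB → S_FAC → S_PT1 := by
  intro hseg hexta hextb hfac n X S κ R hF hspan f T hfT hbd r
  classical
  obtain ⟨C, hC⟩ := hbd
  set c : Option S → Fin 3 → ℝ := fun j => j.elim f (fun s => X.a s) with hc
  set d : Option S → ℝ := fun j => j.elim T (fun s => X.b s) with hd
  have hfeas : ∀ x, (∀ j, c j ⬝ᵥ x ≤ d j) ↔ ((∀ s ∈ S, X.a s ⬝ᵥ x ≤ X.b s) ∧ f ⬝ᵥ x ≤ T) := by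
    intro x
    constructor
    · intro h
      refine ⟨fun s hs => ?_, ?_⟩
      · have := h (some ⟨s, hs⟩)
        simpa [hc, hd] using this
      · have := h none
        simpa [hc, hd] using this
    · rintro ⟨h1, h2⟩ j
      cases j with
      | none => simpa [hc, hd] using h2
      | some s => simpa [hc, hd] using h1 s s.2
  have hbd' : ∃ C : ℝ, ∀ x, (∀ j, c j ⬝ᵥ x ≤ d j) → ∀ k, |x k| ≤ C :=
    ⟨C, fun x hx => hC x ((hfeas x).1 hx).1 ((hfeas x).1 hx).2⟩
  have hoS : ∀ s ∈ S, X.a s ⬝ᵥ X.o ≤ X.b s := fun s _ => (X.ho s).le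
  have hoT : f ⬝ᵥ X.o < T := hfT X.o fun i => (X.ho i).le
  have hne : ∃ x, ∀ j, c j ⬝ᵥ x ≤ d j := ⟨X.o, (hfeas _).2 ⟨hoS, hoT.le⟩⟩
  by_cases hcase : ∀ x, (∀ s ∈ S, X.a s ⬝ᵥ x ≤ X.b s) → (∃ i ∈ R r, X.b i < X.a i ⬝ᵥ x) → f ⬝ᵥ x < T
  · -- case 1
    obtain ⟨i, hi⟩ := hF.ne r
    have hiS := hF.out r i hi
    -- a point of `Q` violating `i`
    have hai : 0 < X.a i ⬝ᵥ X.a i := by
      have h1 : X.a i ≠ 0 := by
        intro h0
        have h2 := X.ho i
        have h3 := X.hy i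
        rw [h0, zero_dotProduct] at h2 h3
        linarith
      rw [dotProduct]
      have h4 : ∀ k ∈ Finset.univ, 0 ≤ X.a i k * X.a i k := fun k _ => mul_self_nonneg _
      have h5 : ∃ k ∈ (Finset.univ : Finset (Fin 3)), 0 < X.a i k * X.a i k := by
        by_contra hcon
        push Not at hcon
        apply h1
        funext k
        have := hcon k (Finset.mem_univ _)
        have h6 := mul_self_nonneg (X.a i k)
        have h7 : X.a i k * X.a i k = 0 := le_antisymm this h6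
        simpa using h7
      exact Finset.sum_pos' h4 h5
    have hxex : ∃ x, (∀ s ∈ S, X.a s ⬝ᵥ x ≤ X.b s) ∧ X.b i < X.a i ⬝ᵥ x := by
      -- eventually in ε → 0+
      have hev : ∀ s ∈ S, ∀ᶠ ε : ℝ in nhdsWithin 0 (Set.Ioi 0), X.a s ⬝ᵥ (X.y i + ε • X.a i) ≤ X.b s := by
        intro s hs
        have hlt : X.a s ⬝ᵥ X.y i < X.b s := X.hy2 i s (fun h => hiS (h ▸ hs))
        have hcont : Filter.Tendsto (fun ε : ℝ => X.a s ⬝ᵥ (X.y i + ε • X.a i)) (nhdsWithin 0 (Set.Ioi 0))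
            (nhds (X.a s ⬝ᵥ X.y i)) := by
          have h1 : Continuous (fun ε : ℝ => X.a s ⬝ᵥ X.y i + ε * (X.a s ⬝ᵥ X.a i)) := by fun_prop
          have h2 := (h1.tendsto 0).mono_left (nhdsWithin_le_nhds (s := Set.Ioi (0 : ℝ)))
          simp only [zero_mul, add_zero] at h2
          refine h2.congr fun ε => ?_
          rw [dotProduct_add, dotProduct_smul, smul_eq_mul]
        exact (hcont.eventually (gt_mem_nhds hlt)).mono fun ε h => le_of_lt h
      have hev2 : ∀ᶠ ε : ℝ in nhdsWithin 0 (Set.Ioi 0), ∀ s ∈ S, X.a s ⬝ᵥ (X.y i + ε • X.a i) ≤ X.b s :=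
        (Filter.eventually_all_finset S).2 hev
      have hpos : ∀ᶠ ε : ℝ in nhdsWithin 0 (Set.Ioi 0), 0 < ε := self_mem_nhdsWithin
      obtain ⟨ε, hε1, hε2⟩ := (hev2.and hpos).exists
      refine ⟨X.y i + ε • X.a i, hε1, ?_⟩
      rw [dotProduct_add, dotProduct_smul, smul_eq_mul, X.hy i]
      have : 0 < ε * (X.a i ⬝ᵥ X.a i) := mul_pos hε2 hai
      linarith
    obtain ⟨x, hx1, hx2⟩ := hxex
    have hxT := hcase x hx1 ⟨i, hi, hx2⟩
    obtain ⟨q, hq1, hq2, hq3⟩ := hexta (Option S) c d hbd' hne (X.a i)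
    have hqf := (hfeas q).1 hq1
    have hqi : X.b i < X.a i ⬝ᵥ q := hx2.trans_le (hq2 x ((hfeas x).2 ⟨hx1, hxT.le⟩))
    have hqT := hcase q hqf.1 ⟨i, hi, hqi⟩
    obtain ⟨j, hj1, hj2⟩ := hfac (Option S) c d q hq1 hq3 f
    cases j with
    | none =>
      exfalso
      have h1 : f ⬝ᵥ q = T := by simpa [hc, hd] using hj1
      linarith
    | some s =>
      have hs1 : X.a s ⬝ᵥ q = X.b s := by simpa [hc, hd] using hj1
      refine ⟨q, s, s.2, hqf.1, hqf.2, hs1, ⟨i, hi, hqi⟩, ?_⟩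
      rcases hj2 with hj2 | hj2
      · left
        intro x hxS hxT hxs hxq
        exact hj2 x ((hfeas x).2 ⟨hxS, hxT⟩) (by simpa [hc, hd] using hxs) hxq
      · right
        intro x hxS hxT hxs hxq
        exact hj2 x ((hfeas x).2 ⟨hxS, hxT⟩) (by simpa [hc, hd] using hxs) hxq
  · -- case 2
    push Not at hcase
    obtain ⟨x0, hx1, hx2, hx3⟩ := hcase
    obtain ⟨q, hq1, hq2, hq3⟩ := hextb (Option S) c d hbd' hne f
    have hqf := (hfeas q).1 hq1
    -- a feasible point with `f = T`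
    have hden : 0 < f ⬝ᵥ x0 - f ⬝ᵥ X.o := by linarith
    set t : ℝ := (T - f ⬝ᵥ X.o) / (f ⬝ᵥ x0 - f ⬝ᵥ X.o) with ht
    have ht0 : 0 ≤ t := div_nonneg (by linarith) hden.le
    have ht1 : t ≤ 1 := by rw [ht, div_le_one hden]; linarith
    set p : Fin 3 → ℝ := X.o + t • (x0 - X.o) with hp
    have hpv : ∀ g : Fin 3 → ℝ, g ⬝ᵥ p = (1 - t) * (g ⬝ᵥ X.o) + t * (g ⬝ᵥ x0) := by
      intro g
      rw [hp, dotProduct_add, dotProduct_smul, dotProduct_sub, smul_eq_mul]
      ring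
    have hpS : ∀ s ∈ S, X.a s ⬝ᵥ p ≤ X.b s := by
      intro s hs
      rw [hpv]
      have h1 := hoS s hs
      have h2 := hx1 s hs
      nlinarith
    have hpT : f ⬝ᵥ p = T := by
      rw [hpv]
      have : t * (f ⬝ᵥ x0 - f ⬝ᵥ X.o) = T - f ⬝ᵥ X.o := by rw [ht]; field_simp
      linarith
    have hqT : f ⬝ᵥ q = T := by
      by_cases hpq : p = q
      · rw [← hpq, hpT]
      · have h1 := hq2 p ((hfeas p).2 ⟨hpS, hpT.le⟩) hpq
        have h2 : 0 ≤ f ⬝ᵥ (q - p) := by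
          rcases h1 with h1 | h1
          · exact h1.le
          · exact h1.1.ge
        rw [dotProduct_sub, hpT] at h2
        linarith [hqf.2]
    -- every point with `T ≤ f` is outside
    have hout : ∀ x, T ≤ f ⬝ᵥ x → ∃ k, X.b k < X.a k ⬝ᵥ x := by
      intro x hx
      by_contra hcon
      push Not at hcon
      exact absurd (hfT x hcon) (not_lt.2 hx)
    have hseg' := hseg n X S (R r) (fun k hk l hl htch => hF.cl r k l hk hl htch) x0 q hx1 hqf.1 (by
      intro u hu0 hu1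
      apply hout
      rw [dotProduct_add, dotProduct_smul, dotProduct_sub, smul_eq_mul, hqT]
      nlinarith) hx2
    obtain ⟨j, hj⟩ := hout q hqT.ge
    have hjR := hseg' j hj
    -- a tight constraint of `S`
    have hs : ∃ s ∈ S, X.a s ⬝ᵥ q = X.b s := by
      by_contra hcon
      push Not at hcon
      obtain ⟨v, hv, hfv⟩ := exists_orth f
      apply hv
      apply hq3 v
      intro j' hj'
      cases j' with
      | none => simpa [hc] using hfv
      | some s =>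
        exfalso
        exact hcon s s.2 (by simpa [hc, hd] using hj')
    obtain ⟨s, hsS, hsq⟩ := hs
    refine ⟨q, s, hsS, hqf.1, hqf.2, hsq, ⟨j, hjR, hj⟩, Or.inl ?_⟩
    intro x hxS hxT _ hxq
    exact hq2 x ((hfeas x).2 ⟨hxS, hxT⟩) hxq

end Pool.Agent.X30.LT
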