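import Mathlib
import Pool.Agent.X30.MaierR

/-! # Linear functionals of the rows of the Maier matrix

For a divisor `W` of the big modulus, each fixed column `h` of the matrix with the rows `n ≡ r (mod W)` is computed, and
so are arbitrary linear functionals `∑ φ h * θ (n + h)` of the rows. -/

set_option autoImplicit false

open Finset Filter Topology
open Pool.Agent.H378R2 Pool.Agent.H510R2.Maier

namespace Pool.Agent.X30.ML

/-- one column -/
theorem matrix_one (X : ℝ) (hX : 4 ≤ X) (W r Y : ℕ) (hY : (Y : ℝ) ≤ X / 2)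
    (hW : ∀ p : ℕ, p.Prime → p ∣ W → (p : ℝ) ≤ X) (E : ℝ)
    (hE : ∀ b : ℕ, b.Coprime W → |EPhi X W b| ≤ E) (h : ℕ) (hh : h ∈ Icc 1 Y) :
    |∑ n ∈ Icc 1 ⌊3 * X⌋₊, nu X W r n * th (n + h) -
      (if (r + h).Coprime W then LPhi X * (1 / (Nat.totient W : ℝ)) else 0)| ≤
      E + (4 * Y * Real.log (4 * X) + 4 * Real.sqrt X * Real.log (4 * X)) := by
  classical
  set N := ⌊3 * X⌋₊ with hN
  have hX0 : 0 < X := by linarith
  have hl : 0 ≤ Real.log (4 * X) := Real.log_nonneg (by linarith)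
  have hE0 : 0 ≤ E := (abs_nonneg _).trans (hE 1 (Nat.coprime_one_left W))
  rw [Finset.mem_Icc] at hh
  have hhY : (h : ℝ) ≤ Y := by exact_mod_cast hh.2
  have hsq : 0 ≤ 4 * Real.sqrt X * Real.log (4 * X) := by positivity
  by_cases hc : (r + h).Coprime W
  · rw [if_pos hc]
    have a1 := shift_bound X hX W r h (by linarith) (fun _ => (1 : ℝ)) 1 (fun _ => by simp)
    simp only [mul_one, one_mul] at a1
    have a2 := hE (r + h) hc
    rw [EPhi_eq] at a2
    have a3 : |∑ n ∈ Icc 1 N, nu X W r n * th (n + h) - LPhi X * (1 / (Nat.totient W : ℝ))| ≤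
        ((4 * h) * Real.log (4 * X) + 4 * Real.sqrt X * Real.log (4 * X)) + E := by
      have a4 : ∑ n ∈ (Icc 1 N).filter (fun n => n ≡ r + h [MOD W]),
          Phi (n / X) * ArithmeticFunction.vonMangoldt n =
          ∑ n ∈ Icc 1 N, (if n ≡ r + h [MOD W] then Phi (n / X) * ArithmeticFunction.vonMangoldt n else 0) := by
        rw [Finset.sum_filter]
      rw [a4] at a2
      rw [abs_le] at a1 a2 ⊢
      constructor
      · linarith [a1.1, a2.1]
      · linarith [a1.2, a2.2]
    refine a3.trans ?_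
    have : (4 * h) * Real.log (4 * X) ≤ 4 * Y * Real.log (4 * X) :=
      mul_le_mul_of_nonneg_right (by linarith) hl
    linarith
  · rw [if_neg hc, sub_zero]
    have hz : ∑ n ∈ Icc 1 N, nu X W r n * th (n + h) = 0 := by
      apply Finset.sum_eq_zero
      intro n hn
      unfold nu
      split_ifs with hmod
      · rcases le_or_gt (n : ℝ) X with hnX | hnX
        · rw [Phi_eq_zero_of_le (by positivity) (by rw [div_le_one hX0]; exact hnX), zero_mul]
        · unfold th
          split_ifs with hp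
          · exfalso
            obtain ⟨p, hpp, hp1, hp2⟩ := Nat.Prime.not_coprime_iff_dvd.1 hc
            have hmod2 : n + h ≡ r + h [MOD W] := Nat.ModEq.add_right _ hmod
            have hmod3 : n + h ≡ r + h [MOD p] := hmod2.of_dvd hp2
            have hdvd : p ∣ n + h := (Nat.ModEq.dvd_iff hmod3 dvd_rfl).2 hp1
            have heq : p = n + h := (Nat.prime_dvd_prime_iff_eq hpp hp).1 hdvd
            have := hW p hpp hp2
            rw [heq] at this
            push_cast at this
            have : (0 : ℝ) ≤ h := by positivity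
            linarith
          · rw [mul_zero]
      · rw [zero_mul]
    rw [hz, abs_zero]
    positivity

/-- all columns up to `(log X) ^ A` -/
theorem rows_each (A : ℕ) (ε : ℝ) (hε : 0 < ε) (hε1 : ε ≤ 1) (Z : ℕ) : ∃ X0 : ℝ, ∀ X : ℝ, X0 ≤ X →
    ∃ (ps : ℕ) (S : Finset ℕ), GoodP Z ps ∧ GoodS X S ∧
      ∀ P : Finset ℕ, P ⊆ PW X S ps → ∀ r : ℕ,
        (∀ h : ℕ, 1 ≤ h → (h : ℝ) ≤ (Real.log X) ^ A →
          |∑ n ∈ Icc 1 ⌊3 * X⌋₊, nu X (∏ p ∈ P, p) r n * th (n + h) -
            (if (r + h).Coprime (∏ p ∈ P, p) then MPhi X / (∏ p ∈ P, p).totient else 0)| ≤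
            ε * (MPhi X / (∏ p ∈ P, p).totient)) ∧
        (1 - ε) * (MPhi X / (∏ p ∈ P, p : ℕ)) ≤ ∑ n ∈ Icc 1 ⌊3 * X⌋₊, nu X (∏ p ∈ P, p) r n ∧
        ∑ n ∈ Icc 1 ⌊3 * X⌋₊, nu X (∏ p ∈ P, p) r n ≤ (1 + ε) * (MPhi X / (∏ p ∈ P, p : ℕ)) := by
  obtain ⟨X1, hX1⟩ := bvrel_holds (A + 1) Z
  have hlogtop : Tendsto Real.log atTop atTop := Real.tendsto_log_atTop
  have ev1 := lphi_mphi (ε / 80) (by positivity)
  have ev2 : ∀ᶠ X : ℝ in atTop, (Real.log X) ^ (A + 1) * (4 * (Real.log X) ^ (A + 1) * (2 * Real.log X) +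
      8 * Real.exp (Real.log X / 2) * (2 * Real.log X)) * Real.exp (Real.log X / 700) ≤ Real.exp (Real.log X) :=
    hlogtop.eventually (MR.ev_smallA (A + 1))
  have ev3 : ∀ᶠ X : ℝ in atTop, (Real.log X) ^ (A + 1) ≤ X / 2 := by
    have h1 := (Real.isLittleO_pow_log_id_atTop (n := A + 1)).bound (show (0 : ℝ) < 1 / 2 by norm_num)
    filter_upwards [h1, eventually_ge_atTop (1 : ℝ)] with X h2 h3
    rw [Real.norm_of_nonneg (pow_nonneg (Real.log_nonneg h3) (A + 1)), id, Real.norm_of_nonneg (by linarith)] at h2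
    linarith
  have ev4 : ∀ᶠ X : ℝ in atTop, 400 / ε * Real.exp (Real.log X / 700) ≤ X := by
    have h1 : Tendsto (fun L : ℝ => Real.exp (-(699 / 700) * L)) atTop (𝓝 0) := by
      apply Real.tendsto_exp_atBot.comp
      exact tendsto_id.const_mul_atTop_of_neg (by norm_num)
    have h2 : ∀ᶠ X : ℝ in atTop, Real.exp (-(699 / 700) * Real.log X) < ε / 400 :=
      hlogtop.eventually (h1.eventually_lt_const (by positivity))
    filter_upwards [h2, eventually_gt_atTop (0 : ℝ)] with X h3 h4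
    have h5 : Real.exp (Real.log X / 700) = X * Real.exp (-(699 / 700) * Real.log X) := by
      nth_rewrite 2 [← Real.exp_log h4]
      rw [← Real.exp_add]
      congr 1
      ring
    rw [h5]
    calc 400 / ε * (X * Real.exp (-(699 / 700) * Real.log X)) ≤ 400 / ε * (X * (ε / 400)) := by gcongr
      _ = X := by field_simp
  have hev := ((((ev1.and ev2).and ev3).and ev4).and (eventually_ge_atTop X1)).and
    ((eventually_ge_atTop (40 : ℝ)).and ((hlogtop.eventually_ge_atTop (2 : ℝ)).and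
      (hlogtop.eventually_ge_atTop (80 / ε))))
  obtain ⟨X0, hX0⟩ := eventually_atTop.1 hev
  refine ⟨X0, fun X hX => ?_⟩
  obtain ⟨⟨⟨⟨⟨h1, h2⟩, h3⟩, h4⟩, h5⟩, h6, h7, h8⟩ := hX0 X hX
  obtain ⟨ps, S, hps, hS, hbv⟩ := hX1 X h5
  refine ⟨ps, S, hps, hS, fun P hPW r => ?_⟩
  have hXpos : 0 < X := by linarith
  obtain ⟨W2, hW2, hco, hWprod, hWDle⟩ := MR.sub_decomp X S ps P hPW
  set W := ∏ p ∈ P, p with hW
  have hW0 : 0 < W := Finset.prod_pos fun p hp => (mem_PW.1 (hPW hp)).2.1.pos
  have hWr : (0 : ℝ) < W := by exact_mod_cast hW0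
  have hφ0 : (0 : ℝ) < W.totient := by exact_mod_cast Nat.totient_pos.2 hW0
  have hφ2 : (0 : ℝ) < W2.totient := by exact_mod_cast Nat.totient_pos.2 hW2
  have hφle : (W.totient : ℝ) ≤ W := by exact_mod_cast Nat.totient_le W
  have hWle : (W : ℝ) ≤ Real.exp (Real.log X / 700) := hWDle.trans (WW_le X (by linarith) S ps)
  set L := Real.log X with hL
  have hL0 : 0 < L := by linarith
  have hexpL : Real.exp L = X := Real.exp_log hXpos
  have hsqrt : Real.sqrt X = Real.exp (L / 2) := by
    rw [← hexpL, Real.sqrt_eq_iff_mul_self_eq (Real.exp_pos _).le (Real.exp_pos _).le, ← Real.exp_add]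
    congr 1; ring
  have hl4 : Real.log (4 * X) ≤ 2 * L := by
    rw [Real.log_mul (by norm_num) hXpos.ne']
    have : Real.log 4 ≤ 2 := by
      rw [show (4 : ℝ) = 2 ^ 2 by norm_num, Real.log_pow]
      have := Real.log_two_lt_d9
      push_cast; linarith
    linarith
  have hl40 : 0 ≤ Real.log (4 * X) := Real.log_nonneg (by linarith)
  set E0 := X / (((WW X S ps).totient : ℝ) * L ^ (A + 1)) with hE0
  have hEb0 := single_bound X (WW X S ps) ps (A + 1) (by linarith) E0 hbv
  have hWp0 : ∀ p : ℕ, p.Prime → p ∣ WW X S ps → (p : ℝ) ≤ X := by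
    intro p hp hpW
    have h8 := (mem_PW.1 ((prime_dvd_WW hp).1 hpW)).1
    have h9 : (p : ℝ) ≤ yy X := by exact_mod_cast h8
    have h10 : (yy X : ℝ) ≤ L / 1000 := Nat.floor_le (by positivity)
    have h11 : L ≤ X := by
      have := Real.add_one_le_exp L
      linarith
    linarith
  have hWp : ∀ p : ℕ, p.Prime → p ∣ W → (p : ℝ) ≤ X := fun p hp hd =>
    hWp0 p hp (hd.trans ⟨W2, hWprod.symm⟩)
  have hWp2 : ∀ p : ℕ, p.Prime → p ∣ W2 → (p : ℝ) ≤ X := fun p hp hd =>
    hWp0 p hp (hd.trans ⟨W, by rw [← hWprod]; ring⟩)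
  set E := (W2.totient : ℝ) * E0 + 2 * Real.sqrt (3 * X) * Real.log (3 * X) with hE
  have hEb : ∀ b : ℕ, b.Coprime W → |EPhi X W b| ≤ E := by
    intro b hb
    apply EPhi_sub X (by linarith) W W2 hW0 hW2 hco hWp2 E0 _ b hb
    rw [hWprod]
    exact hEb0
  have hE0eq : (W2.totient : ℝ) * E0 = X / (W.totient * L ^ (A + 1)) := by
    rw [hE0, ← hWprod, Nat.totient_mul hco]
    push_cast
    field_simp
  have hM1 := MPhi_ge X h6
  set M := MPhi X with hM
  have hM0 : 0 < M := by linarith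
  -- the window
  set Y : ℕ := ⌊L ^ (A + 1)⌋₊ with hY
  have hYle : (Y : ℝ) ≤ L ^ (A + 1) := Nat.floor_le (by positivity)
  -- the error
  have h3X : 2 * Real.sqrt (3 * X) * Real.log (3 * X) ≤ 4 * Real.sqrt X * Real.log (4 * X) := by
    have a1 : Real.sqrt (3 * X) ≤ 2 * Real.sqrt X := by
      rw [show 2 * Real.sqrt X = Real.sqrt (4 * X) by
        rw [Real.sqrt_mul (by norm_num), show (4 : ℝ) = 2 ^ 2 by norm_num, Real.sqrt_sq (by norm_num)]]
      exact Real.sqrt_le_sqrt (by linarith)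
    have a2 : Real.log (3 * X) ≤ Real.log (4 * X) := Real.log_le_log (by linarith) (by linarith)
    have a3 : 0 ≤ Real.log (3 * X) := Real.log_nonneg (by linarith)
    calc 2 * Real.sqrt (3 * X) * Real.log (3 * X) ≤ 2 * (2 * Real.sqrt X) * Real.log (4 * X) := by gcongr
      _ = _ := by ring
  have hLA : 0 < L ^ (A + 1) := by positivity
  have herr : E + (4 * Y * Real.log (4 * X) + 4 * Real.sqrt X * Real.log (4 * X)) ≤ ε / 2 * (M / W.totient) := by
    have b1 : L ^ (A + 1) * ((W2.totient : ℝ) * E0) = X / W.totient := by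
      rw [hE0eq]
      field_simp
    have b2 : L ^ (A + 1) * (4 * Y * Real.log (4 * X) + 8 * Real.sqrt X * Real.log (4 * X)) ≤ X / W.totient := by
      rw [le_div_iff₀ hφ0]
      calc L ^ (A + 1) * (4 * Y * Real.log (4 * X) + 8 * Real.sqrt X * Real.log (4 * X)) * W.totient
          ≤ L ^ (A + 1) * (4 * L ^ (A + 1) * (2 * L) + 8 * Real.exp (L / 2) * (2 * L)) * Real.exp (L / 700) := by
            rw [hsqrt]
            have := hφle.trans hWle
            gcongr
        _ ≤ X := by rw [← hexpL]; exact h2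
    have b3 : X / W.totient ≤ 20 * (M / W.totient) := by
      rw [mul_div_assoc']
      gcongr
      linarith
    have b4 : L ^ (A + 1) * (E + (4 * Y * Real.log (4 * X) + 4 * Real.sqrt X * Real.log (4 * X))) ≤
        40 * (M / W.totient) := by
      calc L ^ (A + 1) * (E + (4 * Y * Real.log (4 * X) + 4 * Real.sqrt X * Real.log (4 * X)))
          ≤ L ^ (A + 1) * (((W2.totient : ℝ) * E0 + 4 * Real.sqrt X * Real.log (4 * X)) +
              (4 * Y * Real.log (4 * X) + 4 * Real.sqrt X * Real.log (4 * X))) := by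
            apply mul_le_mul_of_nonneg_left _ hLA.le
            rw [hE]
            linarith
        _ = L ^ (A + 1) * ((W2.totient : ℝ) * E0) +
            L ^ (A + 1) * (4 * Y * Real.log (4 * X) + 8 * Real.sqrt X * Real.log (4 * X)) := by ring
        _ ≤ X / W.totient + X / W.totient := add_le_add b1.le b2
        _ ≤ _ := by linarith
    have b5 : 80 / ε ≤ L ^ (A + 1) := by
      calc 80 / ε ≤ L := h8
        _ = L ^ 1 := (pow_one L).symm
        _ ≤ L ^ (A + 1) := pow_le_pow_right₀ (by linarith) (by omega)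
    have b6 : 40 * (M / W.totient) ≤ L ^ (A + 1) * (ε / 2 * (M / W.totient)) := by
      have : 40 ≤ L ^ (A + 1) * (ε / 2) := by
        rw [div_le_iff₀ hε] at b5
        linarith
      calc 40 * (M / W.totient) ≤ (L ^ (A + 1) * (ε / 2)) * (M / W.totient) := by gcongr
        _ = _ := by ring
    exact le_of_mul_le_mul_left (b4.trans b6) hLA
  have hLM : |LPhi X - M| ≤ ε / 4 * M := by
    refine h1.trans ?_
    nlinarith
  have hnu := sum_nu X (by linarith) W r hW0 (by
    have : (400 : ℝ) ≤ 400 / ε := by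
      rw [le_div_iff₀ hε]; nlinarith
    nlinarith [Real.exp_pos (L / 700)])
  rw [abs_le] at hnu
  have hMW : 5 ≤ ε / 4 * (M / W) := by
    have c1 : 400 / ε * W ≤ X := by
      refine le_trans ?_ h4
      gcongr
    have c2 : 400 * W ≤ ε * X := by
      calc 400 * (W : ℝ) = ε * (400 / ε * W) := by field_simp
        _ ≤ ε * X := by gcongr
    have c3 : 20 ≤ ε * (M / W) := by
      rw [mul_div_assoc', le_div_iff₀ hWr]
      nlinarith
    linarith
  have hMW' : M * (1 / (W : ℝ)) = M / W := by ring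
  rw [hMW'] at hnu
  have hMW0 : 0 < M / W := by positivity
  refine ⟨?_, by nlinarith [hnu.1], by nlinarith [hnu.2]⟩
  intro h hh1 hhL
  have hhY : h ∈ Icc 1 Y := by
    rw [Finset.mem_Icc]
    refine ⟨hh1, ?_⟩
    rw [hY, Nat.le_floor_iff (by positivity)]
    refine hhL.trans ?_
    exact pow_le_pow_right₀ (by linarith) (by omega)
  have hone := matrix_one X (by linarith) W r Y (hYle.trans h3) hWp E hEb h hhY
  have hφM : |(if (r + h).Coprime W then LPhi X * (1 / (Nat.totient W : ℝ)) else 0) -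
      (if (r + h).Coprime W then M / W.totient else 0)| ≤ ε / 4 * (M / W.totient) := by
    split_ifs
    · have e1 : LPhi X * (1 / (W.totient : ℝ)) - M / W.totient = (LPhi X - M) / W.totient := by ring
      rw [e1, abs_div, abs_of_pos hφ0]
      calc |LPhi X - M| / W.totient ≤ (ε / 4 * M) / W.totient := by gcongr
        _ = _ := by ring
    · rw [sub_zero, abs_zero]
      positivity
  calc |∑ n ∈ Icc 1 ⌊3 * X⌋₊, nu X W r n * th (n + h) - (if (r + h).Coprime W then M / W.totient else 0)|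
      ≤ |∑ n ∈ Icc 1 ⌊3 * X⌋₊, nu X W r n * th (n + h) -
          (if (r + h).Coprime W then LPhi X * (1 / (Nat.totient W : ℝ)) else 0)| +
        |(if (r + h).Coprime W then LPhi X * (1 / (Nat.totient W : ℝ)) else 0) -
          (if (r + h).Coprime W then M / W.totient else 0)| := abs_sub_le _ _ _
    _ ≤ ε / 2 * (M / W.totient) + ε / 4 * (M / W.totient) := add_le_add (hone.trans herr) hφM
    _ ≤ ε * (M / W.totient) := by
        have : 0 < M / (W.totient : ℝ) := by positivity
        nlinarith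

end Pool.Agent.X30.ML
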