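import Mathlib
import Pool.Agent.H438R2.DL.App2

/-! # Multiples of almost every real number in an arbitrary set of integers (helper30): one range

`range_one`: for an arbitrary set `A` of natural numbers and `Y ^ (1 + δ) ≤ M`, for all real `x` in
`[Y, 2Y]` outside a set of measure `Y M ^ (-κ)` the number of `k` with `⌊k x⌋ ∈ A ∩ [1, M]` is
`|A ∩ [1, M]| / x` with an error `M ^ (1 - κ) / x`. -/

set_option autoImplicit false

open Finset MeasureTheory Filter Topology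

namespace Pool.Agent.X30.Met

/-- the number of `k` with `⌊k x⌋ ∈ P` -/
noncomputable def cnt (x : ℝ) (P : Finset ℕ) : ℕ := {k : ℕ | ⌊(k : ℝ) * x⌋₊ ∈ P}.ncard

open Classical in
/-- the elements of `A` in `[1, M]` -/
noncomputable def upto (A : Set ℕ) (M : ℕ) : Finset ℕ := (Icc 1 M).filter (fun n => n ∈ A)

lemma mem_upto {A : Set ℕ} {M n : ℕ} : n ∈ upto A M ↔ (1 ≤ n ∧ n ≤ M) ∧ n ∈ A := by
  classical
  unfold upto
  rw [Finset.mem_filter, Finset.mem_Icc]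

lemma fin_set (x : ℝ) (hx : 1 ≤ x) (P : Finset ℕ) : {k : ℕ | ⌊(k : ℝ) * x⌋₊ ∈ P}.Finite := by
  refine (Set.finite_Iic (P.sup id)).subset fun k hk => ?_
  have h1 : (⌊(k : ℝ) * x⌋₊ : ℕ) ≤ P.sup id := Finset.le_sup (f := id) hk
  have h2 : k ≤ ⌊(k : ℝ) * x⌋₊ := by
    apply Nat.le_floor
    have hk0 : (0 : ℝ) ≤ k := Nat.cast_nonneg k
    nlinarith
  exact h2.trans h1

lemma cnt_union (x : ℝ) (hx : 1 ≤ x) (P Q : Finset ℕ) (h : Disjoint P Q) :
    cnt x (P ∪ Q) = cnt x P + cnt x Q := by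
  unfold cnt
  rw [← Set.ncard_union_eq _ (fin_set x hx P) (fin_set x hx Q)]
  · congr 1
    ext k
    simp only [Finset.mem_union, Set.mem_ofPred_eq, Set.mem_union]
  · rw [Set.disjoint_left]
    intro k hk1 hk2
    exact Finset.disjoint_left.1 h hk1 hk2

lemma cnt_mono (x : ℝ) (hx : 1 ≤ x) (P Q : Finset ℕ) (h : P ⊆ Q) : cnt x P ≤ cnt x Q :=
  Set.ncard_le_ncard (fun _ hk => h hk) (fin_set x hx Q)

lemma cnt_empty (x : ℝ) : cnt x ∅ = 0 := by
  unfold cnt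
  simp

/-- for irrational `x` the pairs of `pairs_asymp` with `h = 1` are the `k` with `⌊k x⌋ ∈ P` -/
lemma pairs_eq (x : ℝ) (hx : 0 < x) (hirr : Irrational x) (P : Finset ℕ) (h0 : 0 ∉ P) :
    {q : ℕ × ℕ | q.2 ∈ P ∧ (q.1 : ℝ) * x - 1 < q.2 ∧ (q.2 : ℝ) < q.1 * x}.ncard = cnt x P := by
  unfold cnt
  have hinj : Set.InjOn (fun q : ℕ × ℕ => q.1)
      {q : ℕ × ℕ | q.2 ∈ P ∧ (q.1 : ℝ) * x - 1 < q.2 ∧ (q.2 : ℝ) < q.1 * x} := by
    rintro ⟨k, q⟩ ⟨h1, h2, h3⟩ ⟨k', q'⟩ ⟨h1', h2', h3'⟩ hkk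
    simp only at h1 h2 h3 h1' h2' h3' hkk
    subst hkk
    have e1 : ⌊(k : ℝ) * x⌋₊ = q := by
      rw [Nat.floor_eq_iff (by positivity)]
      constructor <;> linarith
    have e2 : ⌊(k : ℝ) * x⌋₊ = q' := by
      rw [Nat.floor_eq_iff (by positivity)]
      constructor <;> linarith
    rw [← e1, ← e2]
  rw [← Set.InjOn.ncard_image hinj]
  congr 1
  ext k
  simp only [Set.mem_image, Set.mem_ofPred_eq, Prod.exists]
  constructor
  · rintro ⟨a, b, ⟨h1, h2, h3⟩, rfl⟩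
    have e1 : ⌊(a : ℝ) * x⌋₊ = b := by
      rw [Nat.floor_eq_iff (by positivity)]
      constructor <;> linarith
    rw [e1]
    exact h1
  · intro hk
    have hk0 : 0 < k := by
      rcases Nat.eq_zero_or_pos k with h | h
      · exfalso
        rw [h, Nat.cast_zero, zero_mul, Nat.floor_zero] at hk
        exact h0 hk
      · exact h
    have hkr : (0 : ℝ) < k := by exact_mod_cast hk0
    refine ⟨k, ⌊(k : ℝ) * x⌋₊, ⟨hk, ?_, ?_⟩, rfl⟩
    · have := Nat.lt_floor_add_one ((k : ℝ) * x)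
      linarith
    · have h1 : ((⌊(k : ℝ) * x⌋₊ : ℕ) : ℝ) ≤ k * x := Nat.floor_le (by positivity)
      rcases h1.lt_or_eq with h | h
      · exact h
      · exfalso
        have h2 : Irrational ((k : ℝ) * x) := by
          have := hirr.natCast_mul (m := k) hk0.ne'
          exact this
        exact h2.ne_nat _ h.symm

/-- trivial bound -/
lemma cnt_le (x : ℝ) (hx : 1 ≤ x) (M : ℕ) (P : Finset ℕ) (hP : ∀ p ∈ P, 1 ≤ p ∧ p ≤ M) :
    (cnt x P : ℝ) ≤ (M + 1) / x := by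
  have hx0 : 0 < x := by linarith
  have h1 : cnt x P ≤ ⌊((M : ℝ) + 1) / x⌋₊ := by
    unfold cnt
    have h2 : {k : ℕ | ⌊(k : ℝ) * x⌋₊ ∈ P} ⊆ ((Finset.Icc 1 ⌊((M : ℝ) + 1) / x⌋₊ : Finset ℕ) : Set ℕ) := by
      intro k hk
      obtain ⟨h3, h4⟩ := hP _ hk
      rw [Finset.mem_coe, Finset.mem_Icc]
      constructor
      · by_contra hcon
        have : k = 0 := by omega
        rw [this, Nat.cast_zero, zero_mul, Nat.floor_zero] at h3
        omega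
      · apply Nat.le_floor
        rw [le_div_iff₀ hx0]
        have h5 := Nat.lt_floor_add_one ((k : ℝ) * x)
        have h6 : ((⌊(k : ℝ) * x⌋₊ : ℕ) : ℝ) ≤ M := by exact_mod_cast h4
        linarith
    have h7 := Set.ncard_le_ncard h2 (Finset.finite_toSet _)
    rw [Set.ncard_coe_finset, Nat.card_Icc, Nat.add_sub_cancel] at h7
    exact h7
  calc (cnt x P : ℝ) ≤ (⌊((M : ℝ) + 1) / x⌋₊ : ℕ) := by exact_mod_cast h1
    _ ≤ ((M : ℝ) + 1) / x := Nat.floor_le (by positivity)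

open Classical in
/-- the block of `A ∩ [1, M]` in `(2 ^ i M₀, 2 ^ (i + 1) M₀]` -/
noncomputable def block (A : Set ℕ) (M M₀ i : ℕ) : Finset ℕ :=
  (Ioc (2 ^ i * M₀) (2 * (2 ^ i * M₀))).filter (fun n => n ∈ A ∧ n ≤ M)

lemma upto_succ (A : Set ℕ) (M M₀ i : ℕ) :
    upto A (min M (2 ^ (i + 1) * M₀)) = upto A (min M (2 ^ i * M₀)) ∪ block A M M₀ i := by
  classical
  ext n
  rw [Finset.mem_union, mem_upto, mem_upto]
  unfold block
  rw [Finset.mem_filter, Finset.mem_Ioc, pow_succ]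
  have e : 2 ^ i * 2 * M₀ = 2 * (2 ^ i * M₀) := by ring
  rw [e]
  constructor
  · rintro ⟨⟨h1, h2⟩, h3⟩
    rw [le_min_iff] at h2
    by_cases h4 : n ≤ 2 ^ i * M₀
    · left
      exact ⟨⟨h1, le_min h2.1 h4⟩, h3⟩
    · right
      exact ⟨⟨by omega, h2.2⟩, h3, h2.1⟩
  · rintro (⟨⟨h1, h2⟩, h3⟩ | ⟨⟨h1, h2⟩, h3, h4⟩)
    · rw [le_min_iff] at h2
      exact ⟨⟨h1, le_min h2.1 (by omega)⟩, h3⟩
    · exact ⟨⟨by omega, le_min h4 h2⟩, h3⟩

lemma upto_disj (A : Set ℕ) (M M₀ i : ℕ) :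
    Disjoint (upto A (min M (2 ^ i * M₀))) (block A M M₀ i) := by
  classical
  rw [Finset.disjoint_left]
  intro n h1 h2
  rw [mem_upto, le_min_iff] at h1
  unfold block at h2
  rw [Finset.mem_filter, Finset.mem_Ioc] at h2
  omega

/-- summation over the blocks -/
lemma sum_blocks (A : Set ℕ) (M M₀ : ℕ) (hM₀ : 1 ≤ M₀) (x e : ℝ) (hx : 1 ≤ x) (I : ℕ)
    (h : ∀ i < I, |(cnt x (block A M M₀ i) : ℝ) - (block A M M₀ i).card / x| ≤ e) :
    |(cnt x (upto A (min M (2 ^ I * M₀))) : ℝ) - (upto A (min M (2 ^ I * M₀))).card / x| ≤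
      2 * M₀ / x + I * e := by
  have hx0 : 0 < x := by linarith
  have hM₀r : (1 : ℝ) ≤ M₀ := by exact_mod_cast hM₀
  induction I with
  | zero =>
    have h1 := cnt_le x hx M₀ (upto A (min M (2 ^ 0 * M₀))) (fun p hp => by
      rw [mem_upto, le_min_iff] at hp
      refine ⟨hp.1.1, ?_⟩
      simpa using hp.1.2.2)
    have h2 : ((upto A (min M (2 ^ 0 * M₀))).card : ℝ) ≤ M₀ := by
      have h3 : upto A (min M (2 ^ 0 * M₀)) ⊆ Icc 1 M₀ := by
        intro p hp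
        rw [mem_upto, le_min_iff] at hp
        rw [Finset.mem_Icc]
        refine ⟨hp.1.1, ?_⟩
        simpa using hp.1.2.2
      have h4 := Finset.card_le_card h3
      rw [Nat.card_Icc, Nat.add_sub_cancel] at h4
      exact_mod_cast h4
    have h5 : ((upto A (min M (2 ^ 0 * M₀))).card : ℝ) / x ≤ 2 * M₀ / x := by
      apply div_le_div_of_nonneg_right _ hx0.le
      linarith
    have h6 : ((M₀ : ℝ) + 1) / x ≤ 2 * M₀ / x := by
      apply div_le_div_of_nonneg_right _ hx0.le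
      linarith
    have h7 : (0 : ℝ) ≤ ((upto A (min M (2 ^ 0 * M₀))).card : ℝ) / x := by positivity
    have h8 : (0 : ℝ) ≤ (cnt x (upto A (min M (2 ^ 0 * M₀))) : ℝ) := Nat.cast_nonneg _
    rw [abs_le]
    push_cast
    constructor <;> linarith
  | succ I ih =>
    have h1 := ih (fun i hi => h i (by omega))
    have h2 := h I (by omega)
    rw [upto_succ, cnt_union x hx _ _ (upto_disj A M M₀ I), Finset.card_union_of_disjoint (upto_disj A M M₀ I)]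
    push_cast
    rw [add_div]
    rw [abs_le] at h1 h2 ⊢
    constructor
    · linarith [h1.1, h2.1]
    · linarith [h1.2, h2.2]

/-- `pairs_asymp` with `h = 1` and `κ ≤ 1` -/
lemma one_height (δ : ℝ) (hδ : 0 < δ) (hδ1 : δ < 1) : ∃ κ : ℝ, 0 < κ ∧ κ ≤ 1 ∧ ∃ X₀ : ℕ, ∀ X : ℕ, X₀ ≤ X →
    1 ≤ X → ∀ P : Finset ℕ, P ⊆ Ioc X (2 * X) → ∀ Y : ℝ, 1 ≤ Y → Y ≤ (X : ℝ) ^ (1 - δ) →
      ∃ E : Set ℝ, MeasurableSet E ∧ volume E ≤ ENNReal.ofReal (Y * (X : ℝ) ^ (-κ)) ∧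
      ∀ x : ℝ, Y ≤ x → x ≤ 2 * Y → x ∉ E →
        |({q : ℕ × ℕ | q.2 ∈ P ∧ (q.1 : ℝ) * x - 1 < q.2 ∧ (q.2 : ℝ) < q.1 * x}.ncard : ℝ) -
          (1 / x) * P.card| ≤ (1 / x) * (X : ℝ) ^ (1 - κ) := by
  obtain ⟨κ, hκ, X₀, hp⟩ := Pool.Agent.H438R2.DL.pairs_asymp δ hδ hδ1
  refine ⟨min κ 1, by positivity, min_le_right _ _, X₀, ?_⟩
  intro X hX hX1 P hP Y hY hYX
  have hXr : (1 : ℝ) ≤ X := by exact_mod_cast hX1
  have hm : min κ 1 ≤ κ := min_le_left _ _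
  obtain ⟨E, hE1, hE2, hE3⟩ := hp X hX P hP Y 1 (by linarith) hYX
    (Real.rpow_le_one_of_one_le_of_nonpos hXr (by linarith)) hY
  refine ⟨E, hE1, hE2.trans (ENNReal.ofReal_le_ofReal ?_), fun x hx1 hx2 hxE => (hE3 x hx1 hx2 hxE).trans ?_⟩
  · apply mul_le_mul_of_nonneg_left _ (by linarith)
    exact Real.rpow_le_rpow_of_exponent_le hXr (by linarith)
  · have hx0 : 0 < x := by linarith
    apply mul_le_mul_of_nonneg_left _ (by positivity)
    exact Real.rpow_le_rpow_of_exponent_le hXr (by linarith)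

/-- **one range** -/
theorem range_one (δ : ℝ) (hδ : 0 < δ) (hδ1 : δ ≤ 1) : ∃ κ : ℝ, 0 < κ ∧ κ ≤ 1 / 2 ∧ ∃ M₁ : ℕ, 1 ≤ M₁ ∧
    ∀ A : Set ℕ, ∀ Y : ℝ, 1 ≤ Y → ∀ M : ℕ, M₁ ≤ M → Y ^ (1 + δ) ≤ M →
      ∃ E : Set ℝ, MeasurableSet E ∧ volume E ≤ ENNReal.ofReal (Y * (M : ℝ) ^ (-κ)) ∧
      ∀ x : ℝ, Y ≤ x → x ≤ 2 * Y → x ∉ E →
        |(cnt x (upto A M) : ℝ) - (upto A M).card / x| ≤ (M : ℝ) ^ (1 - κ) / x := by
  classical
  obtain ⟨κ, hκ, hκ1, X₀, hp⟩ := one_height (δ / 8) (by positivity) (by linarith)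
  set κ' : ℝ := min (κ / 2) (δ / 8) with hκ'
  have hκ'0 : 0 < κ' := by positivity
  have hκ'1 : κ' ≤ κ / 2 := min_le_left _ _
  have hκ'2 : κ' ≤ δ / 8 := min_le_right _ _
  -- large `M`
  have hnat : Tendsto (fun M : ℕ => (M : ℝ)) atTop atTop := tendsto_natCast_atTop_atTop
  have ev1 : ∀ᶠ M : ℝ in atTop, (1 + 2 * Real.log M) * 8 ≤ M ^ (κ / 4) := by
    have h1 := (isLittleO_log_rpow_atTop (show 0 < κ / 4 by positivity)).bound (show (0 : ℝ) < 1 / 32 by norm_num)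
    have h2 := (tendsto_rpow_atTop (show 0 < κ / 4 by positivity)).eventually_ge_atTop (16 : ℝ)
    filter_upwards [h1, h2, eventually_ge_atTop (1 : ℝ)] with M h3 h4 h5
    rw [Real.norm_of_nonneg (Real.log_nonneg h5), Real.norm_of_nonneg (by positivity)] at h3
    linarith
  have ev2 : ∀ᶠ M : ℝ in atTop, 8 ≤ M ^ (δ / 8) :=
    (tendsto_rpow_atTop (show 0 < δ / 8 by positivity)).eventually_ge_atTop _
  have ev3 : ∀ᶠ M : ℝ in atTop, ((X₀ : ℝ) + 2) ≤ M ^ (1 - δ / 4) / 2 := by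
    have h1 := (tendsto_rpow_atTop (show 0 < 1 - δ / 4 by linarith)).eventually_ge_atTop (2 * ((X₀ : ℝ) + 2))
    filter_upwards [h1] with M h2
    linarith
  obtain ⟨M₁, hM₁⟩ := (hnat.eventually (((ev1.and ev2).and ev3).and (eventually_ge_atTop (2 : ℝ)))).exists_forall_of_atTop
  refine ⟨min κ' (1 / 2), by positivity, min_le_right _ _, max M₁ 1, le_max_right _ _, ?_⟩
  intro A Y hY M hM hYM
  obtain ⟨⟨⟨g1, g2⟩, g3⟩, g4⟩ := hM₁ M ((le_max_left _ _).trans hM)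
  have hMr0 : (0 : ℝ) < M := by linarith
  have hMr1 : (1 : ℝ) ≤ M := by linarith
  set M₀ : ℕ := ⌊(M : ℝ) ^ (1 - δ / 4)⌋₊ with hM₀
  have hM₀le : (M₀ : ℝ) ≤ (M : ℝ) ^ (1 - δ / 4) := Nat.floor_le (by positivity)
  have hM₀ge : (M : ℝ) ^ (1 - δ / 4) / 2 ≤ M₀ := by
    have h1 := Nat.lt_floor_add_one ((M : ℝ) ^ (1 - δ / 4))
    have h2 : (0 : ℝ) ≤ X₀ := Nat.cast_nonneg _
    rw [← hM₀] at h1
    linarith
  have hM₀X : (X₀ : ℝ) + 2 ≤ M₀ := g3.trans hM₀ge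
  have hM₀1 : 1 ≤ M₀ := by
    have : (1 : ℝ) ≤ M₀ := by
      have h2 : (0 : ℝ) ≤ X₀ := Nat.cast_nonneg _
      linarith
    exact_mod_cast this
  have hX₀M₀ : X₀ ≤ M₀ := by
    have : (X₀ : ℝ) ≤ M₀ := by linarith
    exact_mod_cast this
  have hM₀r1 : (1 : ℝ) ≤ M₀ := by exact_mod_cast hM₀1
  have hY0 : 0 < Y := by linarith
  -- `Y ≤ M₀ ^ (1 - δ / 8)`
  have hYM₀ : Y ≤ (M₀ : ℝ) ^ (1 - δ / 8) := by
    have h1 : Y ≤ (M : ℝ) ^ (1 - δ / 2) := by
      have h2 : Y ≤ (Y ^ (1 + δ)) ^ (1 - δ / 2) := by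
        rw [← Real.rpow_mul hY0.le]
        calc Y = Y ^ (1 : ℝ) := (Real.rpow_one _).symm
          _ ≤ Y ^ ((1 + δ) * (1 - δ / 2)) := Real.rpow_le_rpow_of_exponent_le hY (by nlinarith)
      refine h2.trans (Real.rpow_le_rpow (by positivity) hYM (by linarith))
    have h3 : (M : ℝ) ^ (1 - δ / 2) * 8 ≤ (M : ℝ) ^ (1 - 3 * δ / 8) := by
      have e : (1 - 3 * δ / 8) = (1 - δ / 2) + δ / 8 := by ring
      rw [e, Real.rpow_add hMr0]
      gcongr
    have h4 : (M : ℝ) ^ (1 - 3 * δ / 8) ≤ ((M : ℝ) ^ (1 - δ / 4)) ^ (1 - δ / 8) := by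
      rw [← Real.rpow_mul hMr0.le]
      apply Real.rpow_le_rpow_of_exponent_le hMr1
      nlinarith
    have h5 : ((M : ℝ) ^ (1 - δ / 4)) ^ (1 - δ / 8) ≤ (2 * (M₀ : ℝ)) ^ (1 - δ / 8) := by
      apply Real.rpow_le_rpow (by positivity) (by linarith) (by linarith)
    have h6 : (2 * (M₀ : ℝ)) ^ (1 - δ / 8) ≤ 2 * (M₀ : ℝ) ^ (1 - δ / 8) := by
      rw [Real.mul_rpow (by norm_num) (by positivity)]
      have : (2 : ℝ) ^ (1 - δ / 8) ≤ 2 ^ (1 : ℝ) := Real.rpow_le_rpow_of_exponent_le (by norm_num) (by linarith)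
      rw [Real.rpow_one] at this
      gcongr
    have h7 : (0 : ℝ) < (M : ℝ) ^ (1 - δ / 2) := by positivity
    linarith
  -- the number of blocks
  set I : ℕ := Nat.log 2 M + 1 with hI
  have hMI : M ≤ 2 ^ I := (Nat.lt_pow_succ_log_self (by norm_num) M).le
  have hIr : (I : ℝ) ≤ 1 + 2 * Real.log M := by
    rw [hI]
    push_cast
    have hMne : M ≠ 0 := by
      intro h
      rw [h] at hMr0
      simp at hMr0
    have h1 : (2 : ℝ) ^ (Nat.log 2 M) ≤ M := by exact_mod_cast Nat.pow_log_le_self 2 hMne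
    have h2 := Real.log_le_log (by positivity) h1
    rw [Real.log_pow] at h2
    have h3 := Real.log_two_gt_d9
    have h4 : (0 : ℝ) ≤ (Nat.log 2 M : ℕ) := Nat.cast_nonneg _
    nlinarith
  have hmin : min M (2 ^ I * M₀) = M := by
    apply min_eq_left
    calc M ≤ 2 ^ I := hMI
      _ = 2 ^ I * 1 := (mul_one _).symm
      _ ≤ 2 ^ I * M₀ := Nat.mul_le_mul_left _ hM₀1
  -- the exceptional sets
  have hblock : ∀ i : ℕ, ∃ E : Set ℝ, MeasurableSet E ∧ volume E ≤ ENNReal.ofReal (Y * (M₀ : ℝ) ^ (-κ)) ∧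
      ∀ x : ℝ, Y ≤ x → x ≤ 2 * Y → x ∉ E →
        |(cnt x (block A M M₀ i) : ℝ) - (block A M M₀ i).card / x| ≤ (M : ℝ) ^ (1 - κ) / x := by
    intro i
    set X : ℕ := 2 ^ i * M₀ with hX
    have hM₀X' : M₀ ≤ X := Nat.le_mul_of_pos_left _ (by positivity)
    have hM₀Xr : (M₀ : ℝ) ≤ X := by exact_mod_cast hM₀X'
    have hXr1 : (1 : ℝ) ≤ X := hM₀r1.trans hM₀Xr
    have hsub : block A M M₀ i ⊆ Ioc X (2 * X) := Finset.filter_subset _ _
    obtain ⟨E, hE1, hE2, hE3⟩ := hp X (hX₀M₀.trans hM₀X') (hM₀1.trans hM₀X') (block A M M₀ i) hsub Y hY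
      (hYM₀.trans (Real.rpow_le_rpow (by positivity) hM₀Xr (by linarith)))
    refine ⟨E ∪ Set.range ((↑) : ℚ → ℝ), hE1.union Pool.Agent.H438R2.DL.rat_meas, ?_, ?_⟩
    · refine (measure_union_le _ _).trans ?_
      rw [Pool.Agent.H438R2.DL.rat_null, add_zero]
      refine hE2.trans (ENNReal.ofReal_le_ofReal ?_)
      apply mul_le_mul_of_nonneg_left _ hY0.le
      exact Real.rpow_le_rpow_of_nonpos (by linarith) hM₀Xr (by linarith)
    · intro x hx1 hx2 hxE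
      rw [Set.mem_union, not_or] at hxE
      have hx0 : 0 < x := hY0.trans_le hx1
      have hirr : Irrational x := by
        intro h
        exact hxE.2 h
      have h1 := hE3 x hx1 hx2 hxE.1
      have h0 : 0 ∉ block A M M₀ i := by
        intro h
        have := (Finset.mem_Ioc.1 (hsub h)).1
        omega
      rw [pairs_eq x hx0 hirr _ h0] at h1
      by_cases hXM : X ≤ M
      · have hXMr : (X : ℝ) ≤ M := by exact_mod_cast hXM
        have e : (1 / x) * ((block A M M₀ i).card : ℝ) = (block A M M₀ i).card / x := by ring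
        rw [e] at h1
        refine h1.trans ?_
        rw [div_mul_eq_mul_div, one_mul]
        apply div_le_div_of_nonneg_right _ hx0.le
        exact Real.rpow_le_rpow (by positivity) hXMr (by linarith)
      · have hemp : block A M M₀ i = ∅ := by
          rw [Finset.eq_empty_iff_forall_notMem]
          intro n hn
          have h2 := (Finset.mem_Ioc.1 (hsub hn)).1
          have h3 := (Finset.mem_filter.1 hn).2.2
          omega
        rw [hemp, cnt_empty]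
        simp only [Nat.cast_zero, Finset.card_empty, zero_div, sub_zero, abs_zero]
        positivity
  choose E hE1 hE2 hE3 using hblock
  have hκκ : min κ' (1 / 2) = κ' := by
    apply min_eq_left
    linarith
  rw [hκκ]
  have hI0 : (0 : ℝ) ≤ I := Nat.cast_nonneg _
  refine ⟨⋃ i ∈ Finset.range I, E i, ?_, ?_, ?_⟩
  · exact Finset.measurableSet_biUnion _ fun i _ => hE1 i
  · refine (measure_biUnion_finset_le _ _).trans ?_
    calc ∑ i ∈ Finset.range I, volume (E i) ≤ ∑ _i ∈ Finset.range I, ENNReal.ofReal (Y * (M₀ : ℝ) ^ (-κ)) :=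
          Finset.sum_le_sum fun i _ => hE2 i
      _ = ENNReal.ofReal (I * (Y * (M₀ : ℝ) ^ (-κ))) := by
          rw [Finset.sum_const, Finset.card_range, nsmul_eq_mul, ENNReal.ofReal_mul hI0,
            ENNReal.ofReal_natCast]
      _ ≤ ENNReal.ofReal (Y * (M : ℝ) ^ (-κ')) := by
          apply ENNReal.ofReal_le_ofReal
          -- `I * M₀ ^ (-κ) ≤ M ^ (-κ / 2)`
          have h1 : (M₀ : ℝ) ^ (-κ) ≤ ((M : ℝ) ^ (1 - δ / 4) / 2) ^ (-κ) :=
            Real.rpow_le_rpow_of_nonpos (by positivity) hM₀ge (by linarith)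
          have h2 : ((M : ℝ) ^ (1 - δ / 4) / 2) ^ (-κ) = 2 ^ κ * (M : ℝ) ^ (-(κ * (1 - δ / 4))) := by
            rw [Real.div_rpow (by positivity) (by norm_num), ← Real.rpow_mul hMr0.le,
              Real.rpow_neg (by norm_num : (0 : ℝ) ≤ 2)]
            have : (1 - δ / 4) * -κ = -(κ * (1 - δ / 4)) := by ring
            rw [this]
            field_simp
          have h3 : (2 : ℝ) ^ κ ≤ 2 := by
            calc (2 : ℝ) ^ κ ≤ 2 ^ (1 : ℝ) := Real.rpow_le_rpow_of_exponent_le (by norm_num) hκ1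
              _ = 2 := Real.rpow_one _
          have h4 : (M : ℝ) ^ (-(κ * (1 - δ / 4))) ≤ (M : ℝ) ^ (-(3 * κ / 4)) :=
            Real.rpow_le_rpow_of_exponent_le hMr1 (by nlinarith)
          have h5 : (M : ℝ) ^ (-(3 * κ / 4)) * (M : ℝ) ^ (κ / 4) = (M : ℝ) ^ (-(κ / 2)) := by
            rw [← Real.rpow_add hMr0]
            congr 1
            ring
          have h6 : (M : ℝ) ^ (-(κ / 2)) ≤ (M : ℝ) ^ (-κ') :=
            Real.rpow_le_rpow_of_exponent_le hMr1 (by linarith)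
          have h7 : (0 : ℝ) < (M : ℝ) ^ (-(3 * κ / 4)) := by positivity
          have h8 : (I : ℝ) * 2 ≤ (M : ℝ) ^ (κ / 4) := by linarith
          calc (I : ℝ) * (Y * (M₀ : ℝ) ^ (-κ)) ≤ I * (Y * (2 * (M : ℝ) ^ (-(3 * κ / 4)))) := by
                have : (M₀ : ℝ) ^ (-κ) ≤ 2 * (M : ℝ) ^ (-(3 * κ / 4)) := by
                  refine h1.trans (h2.le.trans ?_)
                  exact mul_le_mul h3 h4 (by positivity) (by norm_num)
                gcongr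
            _ = Y * (((I : ℝ) * 2) * (M : ℝ) ^ (-(3 * κ / 4))) := by ring
            _ ≤ Y * ((M : ℝ) ^ (κ / 4) * (M : ℝ) ^ (-(3 * κ / 4))) := by gcongr
            _ = Y * (M : ℝ) ^ (-(κ / 2)) := by rw [← h5]; ring
            _ ≤ Y * (M : ℝ) ^ (-κ') := by gcongr
  · intro x hx1 hx2 hxE
    have hx0 : 0 < x := hY0.trans_le hx1
    have h1 := sum_blocks A M M₀ hM₀1 x ((M : ℝ) ^ (1 - κ) / x) (hY.trans hx1) I (fun i hi => hE3 i x hx1 hx2 (fun h =>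
      hxE (by
        simp only [Set.mem_iUnion]
        exact ⟨i, Finset.mem_range.2 hi, h⟩)))
    rw [hmin] at h1
    refine h1.trans ?_
    have e : 2 * (M₀ : ℝ) / x + I * ((M : ℝ) ^ (1 - κ) / x) = (2 * M₀ + I * (M : ℝ) ^ (1 - κ)) / x := by ring
    rw [e]
    apply div_le_div_of_nonneg_right _ hx0.le
    have h2 : 2 * (M₀ : ℝ) ≤ 1 / 4 * (M : ℝ) ^ (1 - κ') := by
      have h3 : (M : ℝ) ^ (1 - δ / 4) * 8 ≤ (M : ℝ) ^ (1 - δ / 8) := by
        have e2 : (1 - δ / 8) = (1 - δ / 4) + δ / 8 := by ring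
        rw [e2, Real.rpow_add hMr0]
        gcongr
      have h4 : (M : ℝ) ^ (1 - δ / 8) ≤ (M : ℝ) ^ (1 - κ') :=
        Real.rpow_le_rpow_of_exponent_le hMr1 (by linarith)
      linarith
    have h5 : (I : ℝ) * (M : ℝ) ^ (1 - κ) ≤ 1 / 2 * (M : ℝ) ^ (1 - κ') := by
      have h6 : (M : ℝ) ^ (κ / 4) * (M : ℝ) ^ (1 - κ) ≤ (M : ℝ) ^ (1 - κ') := by
        rw [← Real.rpow_add hMr0]
        exact Real.rpow_le_rpow_of_exponent_le hMr1 (by linarith)
      have h7 : (I : ℝ) ≤ 1 / 2 * (M : ℝ) ^ (κ / 4) := by linarith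
      calc (I : ℝ) * (M : ℝ) ^ (1 - κ) ≤ (1 / 2 * (M : ℝ) ^ (κ / 4)) * (M : ℝ) ^ (1 - κ) := by gcongr
        _ = 1 / 2 * ((M : ℝ) ^ (κ / 4) * (M : ℝ) ^ (1 - κ)) := by ring
        _ ≤ _ := by gcongr
    have h8 : (0 : ℝ) < (M : ℝ) ^ (1 - κ') := by positivity
    linarith

end Pool.Agent.X30.Met
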