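import Mathlib
import Pool.Agent.X30.Met1

/-! # Multiples of almost every real number in an arbitrary set of integers (helper30): all ranges

`all_ranges`: for every `δ > 0` there is `κ > 0` such that for every set `A` of natural numbers and all
large `Y` all real `x ∈ [Y, 2Y]`, outside a set of measure `Y ^ (1 - κ)`, satisfy for all `K ≥ Y ^ δ`: the
number of `k ≤ K` with `⌊k x⌋ ∈ A` is `|A ∩ [1, K x]| / x`, with an error at most `K ^ (1 - κ)`. -/

set_option autoImplicit false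

open Finset MeasureTheory Filter Topology

namespace Pool.Agent.X30.Met

lemma upto_mono (A : Set ℕ) {M N : ℕ} (h : M ≤ N) : upto A M ⊆ upto A N := by
  intro n hn
  rw [mem_upto] at hn ⊢
  exact ⟨⟨hn.1.1, hn.1.2.trans h⟩, hn.2⟩

lemma card_upto_sub (A : Set ℕ) {M N : ℕ} (h : M ≤ N) :
    ((upto A N).card : ℝ) ≤ (upto A M).card + ((N : ℝ) - M) := by
  classical
  have h1 : upto A N ⊆ upto A M ∪ Ioc M N := by
    intro n hn
    rw [mem_upto] at hn
    rw [Finset.mem_union, mem_upto, Finset.mem_Ioc]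
    by_cases h2 : n ≤ M
    · left
      exact ⟨⟨hn.1.1, h2⟩, hn.2⟩
    · right
      exact ⟨by omega, hn.1.2⟩
  have h2 := (Finset.card_le_card h1).trans (Finset.card_union_le _ _)
  rw [Nat.card_Ioc] at h2
  have h3 : (((upto A M).card + (N - M) : ℕ) : ℝ) = (upto A M).card + ((N : ℝ) - M) := by
    rw [Nat.cast_add, Nat.cast_sub h]
  rw [← h3]
  exact_mod_cast h2

open Classical in
/-- the multiples `k x`, `k ≤ K`, whose integer parts lie in `A` -/
noncomputable def mult (A : Set ℕ) (x : ℝ) (K : ℕ) : Finset ℕ :=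
  (Icc 1 K).filter (fun k : ℕ => ⌊(k : ℝ) * x⌋₊ ∈ A)

lemma cnt_eq (A : Set ℕ) (x : ℝ) (hx : 1 ≤ x) (K : ℕ) :
    cnt x (upto A ⌊(K : ℝ) * x⌋₊) = (mult A x K).card := by
  classical
  unfold cnt
  rw [← Set.ncard_coe_finset]
  congr 1
  ext k
  unfold mult
  rw [Set.mem_ofPred_eq, mem_upto, Finset.mem_coe, Finset.mem_filter, Finset.mem_Icc]
  have hx0 : 0 < x := by linarith
  constructor
  · rintro ⟨⟨h1, h2⟩, h3⟩
    refine ⟨⟨?_, ?_⟩, h3⟩
    · by_contra hcon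
      have : k = 0 := by omega
      rw [this, Nat.cast_zero, zero_mul, Nat.floor_zero] at h1
      omega
    · by_contra hcon
      have h4 : K + 1 ≤ k := by omega
      have h5 : (K : ℝ) + 1 ≤ k := by exact_mod_cast h4
      have h6 : (K : ℝ) * x + 1 ≤ k * x := by nlinarith
      have h7 : ⌊(K : ℝ) * x⌋₊ + 1 ≤ ⌊(k : ℝ) * x⌋₊ := by
        rw [← Nat.floor_add_one (by positivity)]
        exact Nat.floor_le_floor h6
      omega
  · rintro ⟨⟨h1, h2⟩, h3⟩
    refine ⟨⟨?_, ?_⟩, h3⟩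
    · apply Nat.le_floor
      have : (1 : ℝ) ≤ k := by exact_mod_cast h1
      push_cast
      nlinarith
    · apply Nat.floor_le_floor
      have : (k : ℝ) ≤ K := by exact_mod_cast h2
      nlinarith

lemma pow_diff (t r : ℕ) (ht : 1 ≤ t) (hr : 1 ≤ r) :
    ((t : ℝ) + 1) ^ r - (t : ℝ) ^ r ≤ r * 2 ^ (r - 1) * (t : ℝ) ^ (r - 1) := by
  have ht1 : (1 : ℝ) ≤ t := by exact_mod_cast ht
  have h1 : (∑ i ∈ Finset.range r, ((t : ℝ) + 1) ^ i * (t : ℝ) ^ (r - 1 - i)) * (((t : ℝ) + 1) - t) =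
      ((t : ℝ) + 1) ^ r - (t : ℝ) ^ r := by
    exact (Commute.all _ _).geom_sum₂_mul r
  rw [add_sub_cancel_left, mul_one] at h1
  rw [← h1]
  calc ∑ i ∈ Finset.range r, ((t : ℝ) + 1) ^ i * (t : ℝ) ^ (r - 1 - i) ≤
      ∑ _i ∈ Finset.range r, (2 : ℝ) ^ (r - 1) * (t : ℝ) ^ (r - 1) := by
        apply Finset.sum_le_sum
        intro i hi
        have hi' : i ≤ r - 1 := by
          have := Finset.mem_range.1 hi
          omega
        have h2 : ((t : ℝ) + 1) ^ i ≤ (2 * (t : ℝ)) ^ i := by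
          apply pow_le_pow_left₀ (by positivity)
          linarith
        have h3 : (2 * (t : ℝ)) ^ i * (t : ℝ) ^ (r - 1 - i) = 2 ^ i * (t : ℝ) ^ (r - 1) := by
          rw [mul_pow, mul_assoc, ← pow_add]
          congr 2
          omega
        calc ((t : ℝ) + 1) ^ i * (t : ℝ) ^ (r - 1 - i) ≤ (2 * (t : ℝ)) ^ i * (t : ℝ) ^ (r - 1 - i) := by gcongr
          _ = 2 ^ i * (t : ℝ) ^ (r - 1) := h3
          _ ≤ 2 ^ (r - 1) * (t : ℝ) ^ (r - 1) := by
            gcongr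
            norm_num
    _ = r * 2 ^ (r - 1) * (t : ℝ) ^ (r - 1) := by
        rw [Finset.sum_const, Finset.card_range, nsmul_eq_mul]
        ring

set_option maxHeartbeats 4000000 in
/-- **all ranges** -/
theorem all_ranges (δ : ℝ) (hδ : 0 < δ) (hδ1 : δ ≤ 1) : ∃ κ : ℝ, 0 < κ ∧ κ ≤ 1 / 2 ∧ ∃ Y₀ : ℝ, 1 ≤ Y₀ ∧
    ∀ A : Set ℕ, ∀ Y : ℝ, Y₀ ≤ Y →
      ∃ E : Set ℝ, MeasurableSet E ∧ volume E ≤ ENNReal.ofReal (Y ^ (1 - κ)) ∧
      ∀ x : ℝ, Y ≤ x → x ≤ 2 * Y → x ∉ E → ∀ K : ℕ, Y ^ δ ≤ K →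
        |((mult A x K).card : ℝ) - (upto A ⌊(K : ℝ) * x⌋₊).card / x| ≤ (K : ℝ) ^ (1 - κ) := by
  classical
  obtain ⟨κ₁, hκ₁, hκ₁2, M₁, hM₁1, hrange⟩ := range_one (δ / 2) (by positivity) (by linarith)
  obtain ⟨r, hr⟩ := exists_nat_ge (8 / κ₁)
  have hr0 : (0 : ℝ) < r := lt_of_lt_of_le (by positivity) hr
  have hrκ : 8 ≤ r * κ₁ := by
    rwa [div_le_iff₀ hκ₁] at hr
  have hr16 : (16 : ℝ) ≤ r := by nlinarith
  have hrn : 1 ≤ r := by
    have : (1 : ℝ) ≤ r := by linarith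
    exact_mod_cast this
  have hrne : r ≠ 0 := by omega
  have h1r : 1 / (r : ℝ) ≤ κ₁ / 8 := by
    rw [div_le_div_iff₀ hr0 (by norm_num)]
    linarith
  have h1r0 : 0 < 1 / (r : ℝ) := by positivity
  set κ : ℝ := 1 / (2 * r) with hκ
  have hκ0 : 0 < κ := by positivity
  have hκr : κ = (1 / r) / 2 := by rw [hκ]; field_simp
  have hκ12 : κ ≤ 1 / 2 := by
    rw [hκ, div_le_div_iff₀ (by positivity) (by norm_num)]
    linarith
  -- the constant in the sum over the grid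
  have hsum : Summable (fun t : ℕ => 1 / (t : ℝ) ^ 2) := Real.summable_one_div_nat_pow.2 (by norm_num)
  set C₂ : ℝ := ∑' t : ℕ, 1 / (t : ℝ) ^ 2 with hC₂
  have hC₂0 : 0 ≤ C₂ := tsum_nonneg fun t => by positivity
  set D : ℝ := r * 2 ^ (r - 1) + 2 ^ r with hD
  have hD0 : 0 < D := by positivity
  have ev1 : ∀ᶠ Y : ℝ in atTop, C₂ ≤ Y ^ (κ₁ / 4) :=
    (tendsto_rpow_atTop (by positivity)).eventually_ge_atTop _
  have ev2 : ∀ᶠ Y : ℝ in atTop, (2 : ℝ) ^ (r + 1) ≤ Y ^ (δ / 2) :=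
    (tendsto_rpow_atTop (by positivity)).eventually_ge_atTop _
  have ev3 : ∀ᶠ Y : ℝ in atTop, D ≤ Y ^ (δ * κ) :=
    (tendsto_rpow_atTop (by positivity)).eventually_ge_atTop _
  obtain ⟨Y₀, hY₀⟩ := ((((ev1.and ev2).and ev3).and (eventually_ge_atTop (M₁ : ℝ))).and
    (eventually_ge_atTop (2 : ℝ))).exists_forall_of_atTop
  refine ⟨κ, hκ0, hκ12, max Y₀ 1, le_max_right _ _, ?_⟩
  intro A Y hY
  obtain ⟨⟨⟨⟨g1, g2⟩, g3⟩, g4⟩, g5⟩ := hY₀ Y ((le_max_left _ _).trans hY)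
  have hY0 : 0 < Y := by linarith
  have hY1 : 1 ≤ Y := by linarith
  have hZY : Y ≤ Y ^ (1 + δ / 2) := by
    calc Y = Y ^ (1 : ℝ) := (Real.rpow_one _).symm
      _ ≤ Y ^ (1 + δ / 2) := Real.rpow_le_rpow_of_exponent_le hY1 (by linarith)
  -- the exceptional sets on the grid
  have hgrid : ∀ t : ℕ, ∃ E : Set ℝ, MeasurableSet E ∧
      volume E ≤ ENNReal.ofReal (Y ^ (1 - κ₁ / 2 - κ₁ / 4) * (1 / (t : ℝ) ^ 2)) ∧
      ∀ x : ℝ, Y ≤ x → x ≤ 2 * Y → x ∉ E → Y ^ (1 + δ / 2) ≤ (t : ℝ) ^ r →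
        |(cnt x (upto A (t ^ r)) : ℝ) - (upto A (t ^ r)).card / x| ≤ ((t : ℝ) ^ r) ^ (1 - κ₁) / x := by
    intro t
    by_cases hcond : Y ^ (1 + δ / 2) ≤ (t : ℝ) ^ r
    · have ht0 : 0 < t := by
        rcases Nat.eq_zero_or_pos t with h | h
        · exfalso
          rw [h, Nat.cast_zero, zero_pow hrne] at hcond
          have : 0 < Y ^ (1 + δ / 2) := by positivity
          linarith
        · exact h
      have htr : (0 : ℝ) < t := by exact_mod_cast ht0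
      have htM : M₁ ≤ t ^ r := by
        have : (M₁ : ℝ) ≤ (t : ℝ) ^ r := g4.trans (hZY.trans hcond)
        exact_mod_cast this
      obtain ⟨E, hE1, hE2, hE3⟩ := hrange A Y hY1 (t ^ r) htM (by push_cast; exact hcond)
      refine ⟨E, hE1, hE2.trans (ENNReal.ofReal_le_ofReal ?_), fun x hx1 hx2 hxE _ => ?_⟩
      · push_cast
        set M : ℝ := (t : ℝ) ^ r with hM
        have hM0 : 0 < M := by positivity
        have hYM : Y ≤ M := hZY.trans hcond
        have e1 : M ^ (-κ₁) = M ^ (-(κ₁ - 2 / r)) * M ^ (-(2 / (r : ℝ))) := by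
          rw [← Real.rpow_add hM0]
          congr 1
          ring
        have e2 : M ^ (-(2 / (r : ℝ))) = 1 / (t : ℝ) ^ 2 := by
          rw [hM, ← Real.rpow_natCast, ← Real.rpow_mul htr.le]
          have : (r : ℝ) * -(2 / r) = -2 := by field_simp
          rw [this, Real.rpow_neg htr.le]
          norm_num
        have e3 : 2 / (r : ℝ) ≤ κ₁ / 4 := by
          have : 2 / (r : ℝ) = 2 * (1 / r) := by ring
          rw [this]
          linarith
        have e4 : M ^ (-(κ₁ - 2 / r)) ≤ Y ^ (-(κ₁ / 2 + κ₁ / 4)) := by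
          calc M ^ (-(κ₁ - 2 / r)) ≤ Y ^ (-(κ₁ - 2 / r)) :=
                Real.rpow_le_rpow_of_nonpos hY0 hYM (by linarith)
            _ ≤ Y ^ (-(κ₁ / 2 + κ₁ / 4)) := Real.rpow_le_rpow_of_exponent_le hY1 (by linarith)
        have e5 : Y * Y ^ (-(κ₁ / 2 + κ₁ / 4)) = Y ^ (1 - κ₁ / 2 - κ₁ / 4) := by
          have : 1 - κ₁ / 2 - κ₁ / 4 = 1 + -(κ₁ / 2 + κ₁ / 4) := by ring
          rw [this, Real.rpow_add hY0, Real.rpow_one]
        rw [e1, e2, ← e5, ← mul_assoc]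
        apply mul_le_mul_of_nonneg_right _ (by positivity)
        exact mul_le_mul_of_nonneg_left e4 hY0.le
      · have := hE3 x hx1 hx2 hxE
        push_cast at this
        exact this
    · exact ⟨∅, MeasurableSet.empty, by simp, fun x _ _ _ h => absurd h hcond⟩
  choose E hE1 hE2 hE3 using hgrid
  refine ⟨⋃ t, E t, MeasurableSet.iUnion hE1, ?_, ?_⟩
  · refine (measure_iUnion_le _).trans ?_
    have hY' : 0 ≤ Y ^ (1 - κ₁ / 2 - κ₁ / 4) := by positivity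
    calc ∑' t, volume (E t) ≤ ∑' t : ℕ, ENNReal.ofReal (Y ^ (1 - κ₁ / 2 - κ₁ / 4) * (1 / (t : ℝ) ^ 2)) :=
          ENNReal.tsum_le_tsum hE2
      _ = ENNReal.ofReal (∑' t : ℕ, Y ^ (1 - κ₁ / 2 - κ₁ / 4) * (1 / (t : ℝ) ^ 2)) := by
          rw [ENNReal.ofReal_tsum_of_nonneg (fun t => by positivity) (hsum.mul_left _)]
      _ = ENNReal.ofReal (Y ^ (1 - κ₁ / 2 - κ₁ / 4) * C₂) := by rw [tsum_mul_left]
      _ ≤ ENNReal.ofReal (Y ^ (1 - κ)) := by
          apply ENNReal.ofReal_le_ofReal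
          calc Y ^ (1 - κ₁ / 2 - κ₁ / 4) * C₂ ≤ Y ^ (1 - κ₁ / 2 - κ₁ / 4) * Y ^ (κ₁ / 4) := by gcongr
            _ = Y ^ (1 - κ₁ / 2) := by
                rw [← Real.rpow_add hY0]
                congr 1
                ring
            _ ≤ Y ^ (1 - κ) := by
                apply Real.rpow_le_rpow_of_exponent_le hY1
                rw [hκr]
                linarith
  · intro x hx1 hx2 hxE K hK
    have hx0 : 0 < x := by linarith
    have hxx1 : 1 ≤ x := by linarith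
    have hxE' : ∀ t, x ∉ E t := fun t h => hxE (Set.mem_iUnion.2 ⟨t, h⟩)
    have hYδ : (1 : ℝ) ≤ Y ^ δ := Real.one_le_rpow hY1 hδ.le
    have hK1 : (1 : ℝ) ≤ K := hYδ.trans hK
    have hK0 : (0 : ℝ) < K := by linarith
    rw [← cnt_eq A x hxx1 K]
    set N : ℕ := ⌊(K : ℝ) * x⌋₊ with hN
    have hNle : (N : ℝ) ≤ K * x := Nat.floor_le (by positivity)
    have hNlt : (K : ℝ) * x < N + 1 := Nat.lt_floor_add_one _
    have hKx : Y ^ (1 + δ) ≤ K * x := by
      rw [Real.rpow_add hY0, Real.rpow_one, mul_comm]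
      exact mul_le_mul hK hx1 hY0.le (by positivity)
    have hY1δ : Y ≤ Y ^ (1 + δ) := by
      calc Y = Y ^ (1 : ℝ) := (Real.rpow_one _).symm
        _ ≤ Y ^ (1 + δ) := Real.rpow_le_rpow_of_exponent_le hY1 (by linarith)
    have hNge : Y ^ (1 + δ) / 2 ≤ N := by linarith
    have hN0 : (0 : ℝ) < N := lt_of_lt_of_le (by positivity) hNge
    have hN1 : (1 : ℝ) ≤ N := by
      have : 0 < N := by exact_mod_cast hN0
      exact_mod_cast this
    -- the grid points around `N`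
    set t : ℕ := ⌊(N : ℝ) ^ (1 / (r : ℝ))⌋₊ with ht
    have hroot : ((N : ℝ) ^ (1 / (r : ℝ))) ^ r = N := by
      rw [← Real.rpow_natCast, ← Real.rpow_mul hN0.le]
      have : 1 / (r : ℝ) * r = 1 := by field_simp
      rw [this, Real.rpow_one]
    have ht1 : 1 ≤ t := by
      apply Nat.le_floor
      push_cast
      exact Real.one_le_rpow hN1 h1r0.le
    have htr1 : (1 : ℝ) ≤ t := by exact_mod_cast ht1
    have htle : (t : ℝ) ≤ (N : ℝ) ^ (1 / (r : ℝ)) := Nat.floor_le (by positivity)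
    have htN : (t : ℝ) ^ r ≤ N := by
      rw [← hroot]
      exact pow_le_pow_left₀ (by positivity) htle r
    have htN' : (N : ℝ) < ((t : ℝ) + 1) ^ r := by
      rw [← hroot]
      apply pow_lt_pow_left₀ (Nat.lt_floor_add_one _) (by positivity) hrne
    have htN2 : (N : ℝ) ≤ 2 ^ r * (t : ℝ) ^ r := by
      refine htN'.le.trans ?_
      rw [← mul_pow]
      apply pow_le_pow_left₀ (by positivity)
      linarith
    have hcond : Y ^ (1 + δ / 2) ≤ (t : ℝ) ^ r := by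
      have h1 : Y ^ (1 + δ) = Y ^ (1 + δ / 2) * Y ^ (δ / 2) := by
        rw [← Real.rpow_add hY0]
        congr 1
        ring
      have h2 : Y ^ (1 + δ / 2) * 2 ^ (r + 1) ≤ 2 * (2 ^ r * (t : ℝ) ^ r) := by
        calc Y ^ (1 + δ / 2) * 2 ^ (r + 1) ≤ Y ^ (1 + δ / 2) * Y ^ (δ / 2) := by gcongr
          _ = Y ^ (1 + δ) := h1.symm
          _ ≤ 2 * N := by linarith
          _ ≤ _ := by gcongr
      have h3 : 2 * (2 ^ r * (t : ℝ) ^ r) = (t : ℝ) ^ r * 2 ^ (r + 1) := by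
        rw [pow_succ]
        ring
      rw [h3] at h2
      exact le_of_mul_le_mul_right h2 (by positivity)
    have hcond' : Y ^ (1 + δ / 2) ≤ ((t + 1 : ℕ) : ℝ) ^ r := by
      refine hcond.trans ?_
      push_cast
      apply pow_le_pow_left₀ (by positivity)
      linarith
    have hA1 := hE3 t x hx1 hx2 (hxE' t) hcond
    have hA2 := hE3 (t + 1) x hx1 hx2 (hxE' (t + 1)) hcond'
    have hn1 : t ^ r ≤ N := by exact_mod_cast htN
    have hn2 : N ≤ (t + 1) ^ r := by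
      have h1 : (N : ℝ) < (((t + 1) ^ r : ℕ) : ℝ) := by
        push_cast
        exact htN'
      exact_mod_cast h1.le
    have b1 : (cnt x (upto A (t ^ r)) : ℝ) ≤ cnt x (upto A N) := by
      exact_mod_cast cnt_mono x hxx1 _ _ (upto_mono A hn1)
    have b2 : (cnt x (upto A N) : ℝ) ≤ cnt x (upto A ((t + 1) ^ r)) := by
      exact_mod_cast cnt_mono x hxx1 _ _ (upto_mono A hn2)
    have b3 := card_upto_sub A hn1
    have b4 := card_upto_sub A hn2
    push_cast at b3 b4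
    have hdiff := pow_diff t r ht1 hrn
    push_cast at hA2
    -- bounds for the errors
    have htpow : (t : ℝ) ^ (r - 1) ≤ (N : ℝ) ^ (1 - 1 / (r : ℝ)) := by
      have h1 : (t : ℝ) ^ (r - 1) ≤ ((N : ℝ) ^ (1 / (r : ℝ))) ^ (r - 1) :=
        pow_le_pow_left₀ (by positivity) htle _
      refine h1.trans (le_of_eq ?_)
      rw [← Real.rpow_natCast, ← Real.rpow_mul hN0.le]
      congr 1
      rw [Nat.cast_sub hrn]
      field_simp
      push_cast
      ring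
    have hMM' : ((t : ℝ) + 1) ^ r ≤ 2 ^ r * N := by
      calc ((t : ℝ) + 1) ^ r ≤ (2 * (t : ℝ)) ^ r := by
            apply pow_le_pow_left₀ (by positivity)
            linarith
        _ = 2 ^ r * (t : ℝ) ^ r := by rw [mul_pow]
        _ ≤ 2 ^ r * N := by gcongr
    have hexp : 1 - κ₁ ≤ 1 - 1 / (r : ℝ) := by linarith
    have hP1 : ((t : ℝ) ^ r) ^ (1 - κ₁) ≤ 2 ^ r * (N : ℝ) ^ (1 - 1 / (r : ℝ)) := by
      calc ((t : ℝ) ^ r) ^ (1 - κ₁) ≤ (N : ℝ) ^ (1 - κ₁) :=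
            Real.rpow_le_rpow (by positivity) htN (by linarith)
        _ ≤ (N : ℝ) ^ (1 - 1 / (r : ℝ)) := Real.rpow_le_rpow_of_exponent_le hN1 hexp
        _ = 1 * (N : ℝ) ^ (1 - 1 / (r : ℝ)) := (one_mul _).symm
        _ ≤ 2 ^ r * (N : ℝ) ^ (1 - 1 / (r : ℝ)) := by
            gcongr
            exact one_le_pow₀ (by norm_num)
    have hP2 : (((t : ℝ) + 1) ^ r) ^ (1 - κ₁) ≤ 2 ^ r * (N : ℝ) ^ (1 - 1 / (r : ℝ)) := by
      calc (((t : ℝ) + 1) ^ r) ^ (1 - κ₁) ≤ (2 ^ r * (N : ℝ)) ^ (1 - κ₁) :=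
            Real.rpow_le_rpow (by positivity) hMM' (by linarith)
        _ = ((2 : ℝ) ^ r) ^ (1 - κ₁) * (N : ℝ) ^ (1 - κ₁) := Real.mul_rpow (by positivity) (by positivity)
        _ ≤ 2 ^ r * (N : ℝ) ^ (1 - 1 / (r : ℝ)) := by
            apply mul_le_mul _ (Real.rpow_le_rpow_of_exponent_le hN1 hexp) (by positivity) (by positivity)
            calc ((2 : ℝ) ^ r) ^ (1 - κ₁) ≤ ((2 : ℝ) ^ r) ^ (1 : ℝ) :=
                  Real.rpow_le_rpow_of_exponent_le (one_le_pow₀ (by norm_num)) (by linarith)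
              _ = 2 ^ r := Real.rpow_one _
    have hdiff2 : ((t : ℝ) + 1) ^ r - (t : ℝ) ^ r ≤ r * 2 ^ (r - 1) * (N : ℝ) ^ (1 - 1 / (r : ℝ)) := by
      refine hdiff.trans ?_
      gcongr
    have htot : (D * (N : ℝ) ^ (1 - 1 / (r : ℝ))) / x ≤ (K : ℝ) ^ (1 - κ) := by
      have h1 : (N : ℝ) ^ (1 - 1 / (r : ℝ)) ≤ (K : ℝ) ^ (1 - 1 / (r : ℝ)) * x := by
        calc (N : ℝ) ^ (1 - 1 / (r : ℝ)) ≤ ((K : ℝ) * x) ^ (1 - 1 / (r : ℝ)) :=
              Real.rpow_le_rpow hN0.le hNle (by linarith)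
          _ = (K : ℝ) ^ (1 - 1 / (r : ℝ)) * x ^ (1 - 1 / (r : ℝ)) := Real.mul_rpow hK0.le hx0.le
          _ ≤ (K : ℝ) ^ (1 - 1 / (r : ℝ)) * x := by
              apply mul_le_mul_of_nonneg_left _ (by positivity)
              calc x ^ (1 - 1 / (r : ℝ)) ≤ x ^ (1 : ℝ) := Real.rpow_le_rpow_of_exponent_le hxx1 (by linarith)
                _ = x := Real.rpow_one _
      have h2 : D ≤ (K : ℝ) ^ κ := by
        refine g3.trans ?_
        rw [Real.rpow_mul hY0.le]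
        exact Real.rpow_le_rpow (by positivity) hK hκ0.le
      rw [div_le_iff₀ hx0]
      calc D * (N : ℝ) ^ (1 - 1 / (r : ℝ)) ≤ (K : ℝ) ^ κ * ((K : ℝ) ^ (1 - 1 / (r : ℝ)) * x) := by gcongr
        _ = (K : ℝ) ^ (1 - κ) * x := by
            rw [← mul_assoc, ← Real.rpow_add hK0]
            congr 2
            rw [hκr]
            ring
    refine le_trans ?_ htot
    have hDdiv : (D * (N : ℝ) ^ (1 - 1 / (r : ℝ))) / x =
        (r * 2 ^ (r - 1) * (N : ℝ) ^ (1 - 1 / (r : ℝ))) / x + (2 ^ r * (N : ℝ) ^ (1 - 1 / (r : ℝ))) / x := by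
      rw [hD]
      ring
    rw [hDdiv]
    rw [abs_le] at hA1 hA2 ⊢
    have q1 := div_le_div_of_nonneg_right hdiff2 hx0.le
    have q2 := div_le_div_of_nonneg_right hP1 hx0.le
    have q3 := div_le_div_of_nonneg_right hP2 hx0.le
    constructor
    · have c1 : ((upto A N).card : ℝ) / x ≤ (upto A (t ^ r)).card / x + (((t : ℝ) + 1) ^ r - (t : ℝ) ^ r) / x := by
        rw [← add_div]
        apply div_le_div_of_nonneg_right _ hx0.le
        linarith
      linarith [hA1.1]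
    · have c1 : ((upto A ((t + 1) ^ r)).card : ℝ) / x ≤ (upto A N).card / x + (((t : ℝ) + 1) ^ r - (t : ℝ) ^ r) / x := by
        rw [← add_div]
        apply div_le_div_of_nonneg_right _ hx0.le
        linarith
      linarith [hA2.2]

end Pool.Agent.X30.Met
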