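import Mathlib
import Pool.Agent.X30.Met2
import Pool.Agent.H749R6.CM.Fin

/-! # Exactly `m` primes just below the multiples of almost every real number, at all ranges (helper30) -/

set_option autoImplicit false

open Finset MeasureTheory Filter Topology

namespace Pool.Agent.X30.Met

open Pool.Agent.H749R6.CM

/-- sets of positive lower density: the lower bound for the multiples -/
theorem lower_density (δ : ℝ) (hδ : 0 < δ) (hδ1 : δ ≤ 1) (A : Set ℕ) (c : ℝ) (hc : 0 < c) (N₀ : ℕ)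
    (hA : ∀ N : ℕ, N₀ ≤ N → c * N ≤ ((upto A N).card : ℝ)) :
    ∃ κ : ℝ, 0 < κ ∧ ∃ Y₀ : ℝ, 1 ≤ Y₀ ∧ ∀ Y : ℝ, Y₀ ≤ Y →
      ∃ E : Set ℝ, MeasurableSet E ∧ volume E ≤ ENNReal.ofReal (Y ^ (1 - κ)) ∧
      ∀ x : ℝ, Y ≤ x → x ≤ 2 * Y → x ∉ E → Irrational x ∧ ∀ K : ℕ, Y ^ δ ≤ K →
        c / 4 * K ≤ ((mult A x K).card : ℝ) := by
  obtain ⟨κ, hκ, hκ2, Y₁, hY₁, h⟩ := all_ranges δ hδ hδ1
  have ev1 : ∀ᶠ Y : ℝ in atTop, 4 / c ≤ Y ^ (δ * κ) :=
    (tendsto_rpow_atTop (by positivity)).eventually_ge_atTop _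
  obtain ⟨Y₀, hY₀⟩ := ((ev1.and (eventually_ge_atTop Y₁)).and
    (eventually_ge_atTop ((N₀ : ℝ) + 2))).exists_forall_of_atTop
  refine ⟨κ, hκ, max Y₀ 1, le_max_right _ _, fun Y hY => ?_⟩
  obtain ⟨⟨g1, g2⟩, g3⟩ := hY₀ Y ((le_max_left _ _).trans hY)
  obtain ⟨E, hE1, hE2, hE3⟩ := h A Y g2
  have hN₀0 : (0 : ℝ) ≤ N₀ := Nat.cast_nonneg _
  have hY1 : 1 ≤ Y := by linarith
  have hY0 : 0 < Y := by linarith
  refine ⟨E ∪ Set.range ((↑) : ℚ → ℝ), hE1.union Pool.Agent.H438R2.DL.rat_meas, ?_, ?_⟩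
  · refine (measure_union_le _ _).trans ?_
    rw [Pool.Agent.H438R2.DL.rat_null, add_zero]
    exact hE2
  · intro x hx1 hx2 hxE
    rw [Set.mem_union, not_or] at hxE
    refine ⟨fun h => hxE.2 h, fun K hK => ?_⟩
    have hx0 : 0 < x := by linarith
    have hYδ : (1 : ℝ) ≤ Y ^ δ := Real.one_le_rpow hY1 hδ.le
    have hK1 : (1 : ℝ) ≤ K := hYδ.trans hK
    have hK0 : (0 : ℝ) < K := by linarith
    have h1 := (abs_le.1 (hE3 x hx1 hx2 hxE.1 K hK)).1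
    have hKx : x ≤ K * x := by nlinarith
    have hNlt : (K : ℝ) * x < ⌊(K : ℝ) * x⌋₊ + 1 := Nat.lt_floor_add_one _
    have hN₀ : N₀ ≤ ⌊(K : ℝ) * x⌋₊ := by
      apply Nat.le_floor
      linarith
    have h2 := hA _ hN₀
    have h3 : (K : ℝ) * x / 2 ≤ ⌊(K : ℝ) * x⌋₊ := by linarith
    have h4 : c / 2 * K ≤ ((upto A ⌊(K : ℝ) * x⌋₊).card : ℝ) / x := by
      rw [le_div_iff₀ hx0]
      calc c / 2 * K * x = c * (K * x / 2) := by ring
        _ ≤ c * ⌊(K : ℝ) * x⌋₊ := by gcongr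
        _ ≤ _ := h2
    have h5 : (K : ℝ) ^ (1 - κ) ≤ c / 4 * K := by
      have h6 : 4 / c ≤ (K : ℝ) ^ κ := by
        refine g1.trans ?_
        rw [Real.rpow_mul hY0.le]
        exact Real.rpow_le_rpow (by positivity) hK hκ.le
      rw [div_le_iff₀ hc] at h6
      rw [Real.rpow_sub hK0, Real.rpow_one, div_le_iff₀ (by positivity)]
      nlinarith
    linarith

theorem multiples_all (δ lam Lam : ℝ) (m : ℕ) (hδ : 0 < δ) (hδ1 : δ ≤ 1) (hlam : 0 < lam) (hLam : lam ≤ Lam) :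
    ∃ c κ : ℝ, 0 < c ∧ 0 < κ ∧ ∃ Y₀ : ℝ, ∀ Y : ℝ, Y₀ ≤ Y →
      ∃ E : Set ℝ, MeasurableSet E ∧ volume E ≤ ENNReal.ofReal (Y ^ (1 - κ)) ∧
      ∀ x : ℝ, Y ≤ x → x ≤ 2 * Y → x ∉ E → ∀ K : ℕ, Y ^ δ ≤ K →
        c * K ≤ ({k : ℕ | 1 ≤ k ∧ k ≤ K ∧
          {p : ℕ | p.Prime ∧ k * x - lam * Real.log (k * x) < p ∧ (p : ℝ) < k * x}.ncard = m ∧
          ∀ p : ℕ, p.Prime → k * x - Lam * Real.log (k * x) < p → (p : ℝ) < k * x →
            k * x - lam * Real.log (k * x) < p}.ncard : ℝ) := by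
  classical
  obtain ⟨c₀, hc₀, N₀, hN₀⟩ := pois (lam / 2) (2 * Lam) m (by positivity) (by linarith)
  obtain ⟨n₂, hn₂1, hn₂⟩ := thresh lam hlam
  set S : Set ℕ := {n : ℕ | Nat.primeCounting ⌊(n : ℝ) + lam / 2 * Real.log n⌋₊ = Nat.primeCounting n + m ∧
        Nat.primeCounting n = Nat.primeCounting ⌊(n : ℝ) - 2 * Lam * Real.log n⌋₊} with hS
  set A : Set ℕ := {g : ℕ | ∃ n : ℕ, n₂ ≤ n ∧ n ∈ S ∧ gg lam n = g} with hA
  have hdens : ∀ N : ℕ, max (2 * N₀ + 2) (⌈8 * (n₂ : ℝ) / c₀⌉₊ + 4) ≤ N →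
      c₀ / 8 * N ≤ ((upto A N).card : ℝ) := by
    intro N hN
    have hN1 : 2 * N₀ + 2 ≤ N := (le_max_left _ _).trans hN
    have hN2 : ⌈8 * (n₂ : ℝ) / c₀⌉₊ + 4 ≤ N := (le_max_right _ _).trans hN
    have hN3 : 8 * (n₂ : ℝ) / c₀ + 4 ≤ N := by
      have h1 := Nat.le_ceil (8 * (n₂ : ℝ) / c₀)
      have h2 : ((⌈8 * (n₂ : ℝ) / c₀⌉₊ + 4 : ℕ) : ℝ) ≤ N := by exact_mod_cast hN2
      push_cast at h2
      linarith
    set N' : ℕ := N / 2 with hN'
    have h1 := hN₀ N' (by omega)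
    have h2N' : 2 * N' ≤ N := by omega
    have hN'ge : (N : ℝ) / 4 ≤ N' := by
      have : N ≤ 4 * N' := by omega
      have : (N : ℝ) ≤ 4 * N' := by exact_mod_cast this
      linarith
    set T : Finset ℕ := (Icc 1 N').filter (fun n => n₂ ≤ n ∧ n ∈ S) with hT
    have h2 : ({n : ℕ | n ∈ Finset.Icc 1 N' ∧
        Nat.primeCounting ⌊(n : ℝ) + lam / 2 * Real.log n⌋₊ = Nat.primeCounting n + m ∧
        Nat.primeCounting n = Nat.primeCounting ⌊(n : ℝ) - 2 * Lam * Real.log n⌋₊}.ncard : ℝ) ≤ T.card + n₂ := by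
      have h3 : {n : ℕ | n ∈ Finset.Icc 1 N' ∧
        Nat.primeCounting ⌊(n : ℝ) + lam / 2 * Real.log n⌋₊ = Nat.primeCounting n + m ∧
        Nat.primeCounting n = Nat.primeCounting ⌊(n : ℝ) - 2 * Lam * Real.log n⌋₊} ⊆
          ((T ∪ Finset.Icc 1 n₂ : Finset ℕ) : Set ℕ) := by
        rintro n ⟨h4, h5, h6⟩
        rw [Finset.mem_coe, Finset.mem_union]
        by_cases h7 : n₂ ≤ n
        · left
          exact Finset.mem_filter.2 ⟨h4, h7, h5, h6⟩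
        · right
          rw [Finset.mem_Icc] at h4 ⊢
          omega
      have h4 := Set.ncard_le_ncard h3 (Finset.finite_toSet _)
      rw [Set.ncard_coe_finset] at h4
      have h5 := h4.trans (Finset.card_union_le _ _)
      rw [Nat.card_Icc, Nat.add_sub_cancel] at h5
      exact_mod_cast h5
    have h3 : T.card ≤ (upto A N).card := by
      apply Finset.card_le_card_of_injOn (gg lam)
      · intro n hn
        have hn' := Finset.mem_filter.1 hn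
        obtain ⟨t1, t2, t3⟩ := hn₂ n hn'.2.1
        rw [Finset.mem_coe, mem_upto]
        have hn1 := Finset.mem_Icc.1 hn'.1
        refine ⟨⟨?_, ?_⟩, n, hn'.2.1, hn'.2.2, rfl⟩
        · unfold gg
          apply Nat.le_floor
          have : (1 : ℝ) ≤ n := by exact_mod_cast hn1.1
          push_cast
          linarith
        · have h4 : ((gg lam n : ℕ) : ℝ) ≤ N := by
            unfold gg
            refine (Nat.floor_le (by positivity)).trans ?_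
            have h5 : (n : ℝ) ≤ N' := by exact_mod_cast hn1.2
            have h6 : (2 : ℝ) * N' ≤ N := by exact_mod_cast h2N'
            linarith
          exact_mod_cast h4
      · intro a ha b hb hab
        have ha1 := (Finset.mem_Icc.1 (Finset.mem_filter.1 ha).1).1
        have hb1 := (Finset.mem_Icc.1 (Finset.mem_filter.1 hb).1).1
        by_contra hne
        rcases Nat.lt_or_gt_of_ne hne with h | h
        · exact absurd hab (gg_inj lam hlam ha1 h).ne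
        · exact absurd hab (gg_inj lam hlam hb1 h).ne'
    have h3' : (T.card : ℝ) ≤ ((upto A N).card : ℝ) := by exact_mod_cast h3
    have h4 : (n₂ : ℝ) ≤ c₀ / 8 * N := by
      have : 8 * (n₂ : ℝ) / c₀ ≤ N := by linarith
      rw [div_le_iff₀ hc₀] at this
      linarith
    have h5 : c₀ * (N / 4) ≤ c₀ * N' := by gcongr
    linarith
  obtain ⟨κ, hκ, Y₁, hY₁, h⟩ := lower_density δ hδ hδ1 A (c₀ / 8) (by positivity) _ hdens
  refine ⟨c₀ / 8 / 4, κ, by positivity, hκ, Y₁, fun Y hY => ?_⟩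
  obtain ⟨E, hE1, hE2, hE3⟩ := h Y hY
  refine ⟨E, hE1, hE2, fun x hx1 hx2 hxE K hK => ?_⟩
  obtain ⟨hirr, h5⟩ := hE3 x hx1 hx2 hxE
  refine (h5 K hK).trans ?_
  have hx0 : 0 < x := by linarith
  rw [← Set.ncard_coe_finset]
  apply Nat.cast_le.2
  apply Set.ncard_le_ncard
  · intro k hk
    rw [Finset.mem_coe] at hk
    unfold mult at hk
    rw [Finset.mem_filter, Finset.mem_Icc] at hk
    obtain ⟨⟨hk1, hk2⟩, n, hn2, hnS, hgg⟩ := hk
    refine ⟨hk1, hk2, ?_⟩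
    obtain ⟨t1, t2, t3⟩ := hn₂ n hn2
    have hk0 : (0 : ℝ) < k := by exact_mod_cast hk1
    have hy1 : ((⌊(n : ℝ) + lam / 2 * Real.log n⌋₊ : ℕ) : ℝ) < k * x := by
      have e : ⌊(n : ℝ) + lam / 2 * Real.log n⌋₊ = ⌊(k : ℝ) * x⌋₊ := hgg
      rw [e]
      have h1 : ((⌊(k : ℝ) * x⌋₊ : ℕ) : ℝ) ≤ k * x := Nat.floor_le (by positivity)
      rcases h1.lt_or_eq with h | h
      · exact h
      · exfalso
        have h2 : Irrational ((k : ℝ) * x) := hirr.natCast_mul (m := k) (by omega)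
        exact h2.ne_nat _ h.symm
    have hy2 : (k : ℝ) * x < (⌊(n : ℝ) + lam / 2 * Real.log n⌋₊ : ℕ) + 1 := by
      have e : ⌊(n : ℝ) + lam / 2 * Real.log n⌋₊ = ⌊(k : ℝ) * x⌋₊ := hgg
      rw [e]
      exact Nat.lt_floor_add_one _
    exact local_property lam Lam m hlam hLam n (by omega) t1 t2 hnS.1 hnS.2 (k * x) hy1 hy2
  · exact (Set.finite_Icc 1 K).subset fun k hk => ⟨hk.1, hk.2.1⟩

end Pool.Agent.X30.Met
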