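import Mathlib
import Pool.Agent.X30.Met2
import Pool.Agent.X30.MaierW

/-! # Sets with at least `N exp (-(log N) ^ ε)` elements up to `N`, and the multiples of almost every real number
(helper30) -/

set_option autoImplicit false

open Finset MeasureTheory Filter Topology

namespace Pool.Agent.X30.Met

lemma rpow_small (p q b : ℝ) (hpq : p < q) (hb : 0 < b) : ∀ᶠ L : ℝ in atTop, L ^ p ≤ b * L ^ q := by
  have h1 := (tendsto_rpow_neg_atTop (show 0 < q - p by linarith)).eventually_lt_const hb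
  filter_upwards [h1, eventually_gt_atTop (0 : ℝ)] with L h2 h3
  have e : L ^ p = L ^ (-(q - p)) * L ^ q := by
    rw [← Real.rpow_add h3]
    congr 1
    ring
  rw [e]
  gcongr

/-- sets which are not too thin -/
theorem thin_sets (δ ε : ℝ) (hδ : 0 < δ) (hδ1 : δ ≤ 1) (hε : 0 < ε) : ∃ κ : ℝ, 0 < κ ∧
    ∀ (A : Set ℕ) (N₀ : ℕ),
      (∀ N : ℕ, N₀ ≤ N → (N : ℝ) * Real.exp (-(Real.log N) ^ (min ε 1 / 2)) ≤ ((upto A N).card : ℝ)) →
    ∃ Y₀ : ℝ, 1 ≤ Y₀ ∧ ∀ Y : ℝ, Y₀ ≤ Y →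
      ∃ E : Set ℝ, MeasurableSet E ∧ volume E ≤ ENNReal.ofReal (Y ^ (1 - κ)) ∧
      ∀ x : ℝ, Y ≤ x → x ≤ 2 * Y → x ∉ E → ∀ K : ℕ, Y ^ δ ≤ K →
        (K : ℝ) * Real.exp (-(Real.log K) ^ ε) ≤ ((mult A x K).card : ℝ) := by
  obtain ⟨κ, hκ, hκ2, Y₁, hY₁, h⟩ := all_ranges δ hδ hδ1
  refine ⟨κ, hκ, fun A N₀ hA => ?_⟩
  set ε' : ℝ := min ε 1 / 2 with hε'
  have hε'0 : 0 < ε' := by positivity
  have hε'1 : ε' < ε := by
    have : min ε 1 ≤ ε := min_le_left _ _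
    linarith
  have hε'2 : ε' ≤ 1 / 2 := by
    have : min ε 1 ≤ 1 := min_le_right _ _
    linarith
  -- large `K`
  set C : ℝ := 2 + 1 / δ with hC
  have hC0 : 0 < C := by positivity
  have ev1 : ∀ᶠ L : ℝ in atTop, (C * L) ^ ε' + Real.log 4 ≤ L ^ ε := by
    have h1 := rpow_small ε' ε (1 / (2 * C ^ ε')) hε'1 (by positivity)
    have h2 := (tendsto_rpow_atTop hε).eventually_ge_atTop (2 * Real.log 4)
    filter_upwards [h1, h2, eventually_ge_atTop (1 : ℝ)] with L h3 h4 h5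
    have hL0 : 0 < L := by linarith
    rw [Real.mul_rpow hC0.le hL0.le]
    have h6 : C ^ ε' * L ^ ε' ≤ C ^ ε' * (1 / (2 * C ^ ε') * L ^ ε) := by gcongr
    have h7 : C ^ ε' * (1 / (2 * C ^ ε') * L ^ ε) = L ^ ε / 2 := by
      field_simp
    linarith
  have ev2 : ∀ᶠ L : ℝ in atTop, (C * L) ^ ε' + Real.log 4 ≤ κ * L := by
    have h1 := rpow_small ε' 1 (κ / (2 * C ^ ε')) (by linarith) (by positivity)
    filter_upwards [h1, eventually_ge_atTop (2 * Real.log 4 / κ), eventually_ge_atTop (1 : ℝ)] with L h3 h4 h5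
    have hL0 : 0 < L := by linarith
    rw [Real.rpow_one] at h3
    rw [Real.mul_rpow hC0.le hL0.le]
    have h6 : C ^ ε' * L ^ ε' ≤ C ^ ε' * (κ / (2 * C ^ ε') * L) := by gcongr
    have h7 : C ^ ε' * (κ / (2 * C ^ ε') * L) = κ * L / 2 := by
      field_simp
    rw [div_le_iff₀ hκ] at h4
    linarith
  have htY : Tendsto (fun Y : ℝ => δ * Real.log Y) atTop atTop :=
    Real.tendsto_log_atTop.const_mul_atTop hδ
  obtain ⟨L₀, hL₀⟩ := (ev1.and ev2).exists_forall_of_atTop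
  obtain ⟨Y₀, hY₀⟩ := (((htY.eventually_ge_atTop L₀).and (eventually_ge_atTop Y₁)).and
    (eventually_ge_atTop ((N₀ : ℝ) + 4))).exists_forall_of_atTop
  have ev3 : ∀ᶠ Y : ℝ in atTop, 2 ≤ Y ^ δ := (tendsto_rpow_atTop hδ).eventually_ge_atTop _
  obtain ⟨Y₂, hY₂⟩ := ev3.exists_forall_of_atTop
  refine ⟨max (max Y₀ Y₂) 1, le_max_right _ _, fun Y hY => ?_⟩
  obtain ⟨⟨g1, g2⟩, g3⟩ := hY₀ Y ((le_max_left _ _).trans ((le_max_left _ _).trans hY))
  have g4 := hY₂ Y ((le_max_right _ _).trans ((le_max_left _ _).trans hY))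
  obtain ⟨E, hE1, hE2, hE3⟩ := h A Y g2
  have hN₀0 : (0 : ℝ) ≤ N₀ := Nat.cast_nonneg _
  have hY1 : 1 ≤ Y := by linarith
  have hY0 : 0 < Y := by linarith
  refine ⟨E, hE1, hE2, fun x hx1 hx2 hxE K hK => ?_⟩
  have hx0 : 0 < x := by linarith
  have hK2 : (2 : ℝ) ≤ K := g4.trans hK
  have hK0 : (0 : ℝ) < K := by linarith
  have h1 := (abs_le.1 (hE3 x hx1 hx2 hxE K hK)).1
  have hKx : x ≤ K * x := by nlinarith
  have hNlt : (K : ℝ) * x < ⌊(K : ℝ) * x⌋₊ + 1 := Nat.lt_floor_add_one _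
  have hNle : ((⌊(K : ℝ) * x⌋₊ : ℕ) : ℝ) ≤ K * x := Nat.floor_le (by positivity)
  set N : ℕ := ⌊(K : ℝ) * x⌋₊ with hN
  have hN₀N : N₀ ≤ N := by
    apply Nat.le_floor
    linarith
  have h2 := hA N hN₀N
  have hNge : (K : ℝ) * x / 2 ≤ N := by linarith
  have hN1 : (1 : ℝ) ≤ N := by linarith
  -- `log N ≤ C log K`
  have hlogK : δ * Real.log Y ≤ Real.log K := by
    rw [← Real.log_rpow hY0]
    exact Real.log_le_log (by positivity) hK
  have hKL : L₀ ≤ Real.log K := g1.trans hlogK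
  obtain ⟨g5, g6⟩ := hL₀ (Real.log K) hKL
  have hlogK0 : 0 ≤ Real.log K := Real.log_nonneg (by linarith)
  have hlogN : Real.log N ≤ C * Real.log K := by
    have h3 : Real.log N ≤ Real.log (K * x) := Real.log_le_log (by linarith) hNle
    rw [Real.log_mul hK0.ne' hx0.ne'] at h3
    have h4 : Real.log x ≤ Real.log 2 + Real.log Y := by
      rw [← Real.log_mul (by norm_num) hY0.ne']
      exact Real.log_le_log hx0 hx2
    have h5 : Real.log 2 ≤ Real.log K := Real.log_le_log (by norm_num) hK2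
    have h6 : Real.log Y ≤ 1 / δ * Real.log K := by
      rw [div_mul_eq_mul_div, one_mul, le_div_iff₀ hδ]
      linarith
    rw [hC]
    have : (2 + 1 / δ) * Real.log K = 2 * Real.log K + 1 / δ * Real.log K := by ring
    linarith
  have hlogN0 : 0 ≤ Real.log N := Real.log_nonneg hN1
  have hexp : 4 * Real.exp (-(Real.log K) ^ ε) ≤ Real.exp (-(Real.log N) ^ ε') := by
    rw [show (4 : ℝ) = Real.exp (Real.log 4) from (Real.exp_log (by norm_num)).symm, ← Real.exp_add]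
    apply Real.exp_le_exp.2
    have h3 : (Real.log N) ^ ε' ≤ (C * Real.log K) ^ ε' := Real.rpow_le_rpow hlogN0 hlogN hε'0.le
    linarith
  have hexp2 : (K : ℝ) ^ (1 - κ) ≤ K * (Real.exp (-(Real.log N) ^ ε') / 4) := by
    rw [show 1 - κ = 1 + -κ by ring, Real.rpow_add hK0, Real.rpow_one]
    apply mul_le_mul_of_nonneg_left _ hK0.le
    rw [Real.rpow_def_of_pos hK0, le_div_iff₀ (by norm_num),
      show (4 : ℝ) = Real.exp (Real.log 4) from (Real.exp_log (by norm_num)).symm, ← Real.exp_add]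
    apply Real.exp_le_exp.2
    have h3 : (Real.log N) ^ ε' ≤ (C * Real.log K) ^ ε' := Real.rpow_le_rpow hlogN0 hlogN hε'0.le
    linarith
  have h3 : (K : ℝ) * (Real.exp (-(Real.log N) ^ ε') / 2) ≤ ((upto A N).card : ℝ) / x := by
    rw [le_div_iff₀ hx0]
    refine le_trans ?_ h2
    have h4 : (K : ℝ) * (Real.exp (-(Real.log N) ^ ε') / 2) * x = (K * x / 2) * Real.exp (-(Real.log N) ^ ε') := by
      ring
    rw [h4]
    gcongr
  have h4 : (K : ℝ) * Real.exp (-(Real.log K) ^ ε) ≤ K * (Real.exp (-(Real.log N) ^ ε') / 4) := by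
    apply mul_le_mul_of_nonneg_left _ hK0.le
    linarith
  have h5 : (K : ℝ) * (Real.exp (-(Real.log N) ^ ε') / 2) =
      K * (Real.exp (-(Real.log N) ^ ε') / 4) + K * (Real.exp (-(Real.log N) ^ ε') / 4) := by ring
  linarith

/-- **Contrasts between the scales at the multiples of almost every real number** -/
theorem contrasts (k : ℕ) (B c : Fin k → ℝ) (hB : ∀ i, 0 < B i) (hinj : Function.Injective B) (hc : c ≠ 0)
    (hsum : ∑ i, c i = 0) (δ ε : ℝ) (hδ : 0 < δ) (hδ1 : δ ≤ 1) (hε : 0 < ε) :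
    ∃ η κ : ℝ, 0 < η ∧ 0 < κ ∧ ∃ Y₀ : ℝ, 1 ≤ Y₀ ∧ ∀ Y : ℝ, Y₀ ≤ Y →
      ∃ E : Set ℝ, MeasurableSet E ∧ volume E ≤ ENNReal.ofReal (Y ^ (1 - κ)) ∧
      ∀ x : ℝ, Y ≤ x → x ≤ 2 * Y → x ∉ E → ∀ K : ℕ, Y ^ δ ≤ K →
        (K : ℝ) * Real.exp (-(Real.log K) ^ ε) ≤
          ((mult {n : ℕ | η ≤ ∑ i, c i * MT.dens (B i) n} x K).card : ℝ) := by
  classical
  have hc' : ∃ i ∈ (Finset.univ : Finset (Fin k)), c i ≠ 0 := by
    by_contra h
    push Not at h
    exact hc (funext fun i => h i (Finset.mem_univ i))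
  obtain ⟨η, hη, X₀, hX₀⟩ := MWW.main Finset.univ B c (fun i _ => hB i)
    (fun i _ j _ hij h => hij (hinj h)) hc' hsum (min ε 1 / 2) (by positivity)
  obtain ⟨κ, hκ, h⟩ := thin_sets δ ε hδ hδ1 hε
  obtain ⟨Y₀, hY₀1, hY₀⟩ := h {n : ℕ | η ≤ ∑ i, c i * MT.dens (B i) n} ⌈X₀⌉₊ (fun N hN => by
    have h1 : X₀ ≤ N := (Nat.le_ceil X₀).trans (by exact_mod_cast hN)
    have h2 := hX₀ N h1
    rw [Nat.floor_natCast] at h2
    refine h2.trans (le_of_eq ?_)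
    unfold upto
    congr 2)
  exact ⟨η, κ, hη, hκ, Y₀, hY₀1, hY₀⟩

end Pool.Agent.X30.Met
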