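import Pool.Agent.Y831.RC5.Abund5

set_option autoImplicit false
set_option linter.unusedVariables false

/-! # Moments of gaps between consecutive primes -/

namespace Pool.Agent.X30.Mom

open Finset Filter

open scoped Classical

/-- the length of the gap between consecutive primes that contains `m` -/
noncomputable def gapLength (m : ℕ) : ℕ :=
  Nat.nth Nat.Prime (Nat.primeCounting m) - Nat.nth Nat.Prime (Nat.primeCounting m - 1)

theorem gap_ge (n K : ℕ) (hn : 2 ≤ n) (hK : 1 ≤ K)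
    (h : ∀ k : ℕ, 1 ≤ k → k ≤ K → ¬ (n + k).Prime) : K + 1 ≤ gapLength (n + 1) := by
  unfold gapLength
  have h1 : Nat.primeCounting (n + 1) = Nat.primeCounting n := by
    unfold Nat.primeCounting Nat.primeCounting'
    rw [Nat.count_succ (p := Nat.Prime) (n + 1)]
    simp [h 1 le_rfl hK]
  have hpos : 0 < Nat.primeCounting n := by
    have : Nat.primeCounting 2 ≤ Nat.primeCounting n := Nat.monotone_primeCounting hn
    have h2 : Nat.primeCounting 2 = 1 := by decide
    omega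
  have h2 : Nat.nth Nat.Prime (Nat.primeCounting n - 1) < n + 1 := by
    apply Nat.nth_lt_of_lt_count
    have : Nat.count Nat.Prime (n + 1) = Nat.primeCounting n := rfl
    rw [this]; omega
  have h3 : n + 1 ≤ Nat.nth Nat.Prime (Nat.primeCounting n) :=
    (Nat.count_le_iff_le_nth Nat.infinite_setOfPred_prime).1 (le_refl (Nat.count Nat.Prime (n + 1)))
  have h4 : (Nat.nth Nat.Prime (Nat.primeCounting n)).Prime :=
    Nat.nth_mem_of_infinite Nat.infinite_setOfPred_prime _
  have h5 : n + K + 1 ≤ Nat.nth Nat.Prime (Nat.primeCounting n) := by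
    by_contra hc
    push Not at hc
    have := h (Nat.nth Nat.Prime (Nat.primeCounting n) - n) (by omega) (by omega)
    rw [Nat.add_sub_cancel' (by omega)] at this
    exact this h4
  rw [h1]
  omega


/-- the analytic facts on the exponent -/
theorem ev_k (r T₀ : ℝ) (hr : 1 < r) : ∃ κ₀ : ℝ, ∀ κ : ℝ, κ₀ ≤ κ →
    3 ≤ κ ∧ 1 ≤ Real.log κ ∧ T₀ ≤ κ / (4 * Real.log κ) ∧
    1 ≤ Real.log (κ / (4 * Real.log κ)) ∧
    2 * Real.exp (κ / (4 * Real.log κ)) * (Real.log κ) ^ κ ≤
      (r * Real.log (κ / (4 * Real.log κ))) ^ κ := by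
  have hlr : 0 < Real.log r := Real.log_pos hr
  have hr0 : 0 < r := by linarith
  have t1 := Real.tendsto_log_atTop
  have t2 : Tendsto (fun κ : ℝ => κ / (4 * Real.log κ)) atTop atTop := by
    have e1 : Tendsto (fun κ : ℝ => Real.log κ / κ) atTop (nhds 0) := by
      have := (Real.isLittleO_log_id_atTop).tendsto_div_nhds_zero
      simpa using this
    have e2 : Tendsto (fun κ : ℝ => 4 * (Real.log κ / κ)) atTop (nhdsWithin 0 (Set.Ioi 0)) := by
      rw [tendsto_nhdsWithin_iff]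
      refine ⟨by simpa using e1.const_mul 4, ?_⟩
      filter_upwards [eventually_gt_atTop (1:ℝ)] with x hx
      have := Real.log_pos hx
      have hx0 : 0 < x := by linarith
      show 0 < 4 * (Real.log x / x)
      positivity
    refine (tendsto_inv_nhdsGT_zero.comp e2).congr' ?_
    filter_upwards [eventually_gt_atTop (1:ℝ)] with x hx
    have := Real.log_pos hx
    have hx0 : 0 < x := by linarith
    simp only [Function.comp]
    field_simp
  have t3 : Tendsto (fun κ : ℝ => Real.log (κ / (4 * Real.log κ))) atTop atTop := t1.comp t2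
  -- log T ≥ s log κ with s = r^{-1/2}
  have hs : (0:ℝ) < 1 - r ^ (-(1/2):ℝ) := by
    have : r ^ (-(1/2):ℝ) < 1 := Real.rpow_lt_one_of_one_lt_of_neg hr (by norm_num)
    linarith
  have e3 : ∀ᶠ κ : ℝ in atTop, Real.log (4 * Real.log κ) ≤
      (1 - r ^ (-(1/2):ℝ)) * Real.log κ := by
    have a1 : Tendsto (fun κ : ℝ => 4 * Real.log κ) atTop atTop :=
      t1.const_mul_atTop (by norm_num)
    have a2 := (Real.isLittleO_log_id_atTop.comp_tendsto a1).def
      (show (0:ℝ) < (1 - r ^ (-(1/2):ℝ)) / 4 by positivity)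
    filter_upwards [a2, t1.eventually_ge_atTop 1] with κ h1 h2
    simp only [Function.comp, id] at h1
    rw [Real.norm_eq_abs, Real.norm_eq_abs, abs_of_nonneg (by linarith : 0 ≤ 4 * Real.log κ)] at h1
    have := le_abs_self (Real.log (4 * Real.log κ))
    linarith
  have h := ((eventually_ge_atTop (3:ℝ)).and ((t1.eventually_ge_atTop 1).and
    ((t2.eventually_ge_atTop T₀).and ((t3.eventually_ge_atTop 1).and
    (e3.and ((t1.eventually_ge_atTop (1 / Real.log r)).and
    (eventually_ge_atTop (4 * Real.log 2 / Real.log r))))))))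
  obtain ⟨κ₀, hκ₀⟩ := Filter.eventually_atTop.1 h
  refine ⟨κ₀, fun κ hκ => ?_⟩
  obtain ⟨f1, f2, f3, f4, f5, f6, f7⟩ := hκ₀ κ hκ
  refine ⟨f1, f2, f3, f4, ?_⟩
  have hκ0 : 0 < κ := by linarith
  have hl0 : 0 < Real.log κ := by linarith
  set T := κ / (4 * Real.log κ) with hT
  have hlT : Real.log T = Real.log κ - Real.log (4 * Real.log κ) := by
    rw [hT, Real.log_div hκ0.ne' (by positivity)]
  have g1 : r ^ (-(1/2):ℝ) * Real.log κ ≤ Real.log T := by
    rw [hlT]; linarith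
  have g2 : r ^ ((1/2):ℝ) * Real.log κ ≤ r * Real.log T := by
    have : r * (r ^ (-(1/2):ℝ) * Real.log κ) = r ^ ((1/2):ℝ) * Real.log κ := by
      rw [← mul_assoc]
      congr 1
      nth_rewrite 1 [← Real.rpow_one r]
      rw [← Real.rpow_add hr0]
      norm_num
    rw [← this]
    exact mul_le_mul_of_nonneg_left g1 hr0.le
  have g3 : (r ^ ((1/2):ℝ) * Real.log κ) ^ κ ≤ (r * Real.log T) ^ κ :=
    Real.rpow_le_rpow (by positivity) g2 hκ0.le
  refine le_trans ?_ g3
  rw [Real.mul_rpow (by positivity) hl0.le]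
  apply mul_le_mul_of_nonneg_right _ (by positivity)
  rw [← Real.rpow_mul hr0.le, Real.rpow_def_of_pos hr0]
  have g4 : T ≤ κ * Real.log r / 4 := by
    rw [hT, div_le_iff₀ (by positivity)]
    rw [div_le_iff₀ hlr] at f6
    nlinarith
  have g5 : Real.log 2 ≤ κ * Real.log r / 4 := by
    rw [div_le_iff₀ hlr] at f7
    linarith
  calc 2 * Real.exp T = Real.exp (Real.log 2) * Real.exp T := by
        rw [Real.exp_log (by norm_num)]
    _ = Real.exp (Real.log 2 + T) := by rw [Real.exp_add]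
    _ ≤ Real.exp (Real.log r * (1 / 2 * κ)) := by
        apply Real.exp_le_exp.2
        nlinarith

/-- the analytic facts on the length -/
theorem ev_X (X₁ : ℝ) : ∃ X₀ : ℝ, ∀ X : ℝ, X₀ ≤ X →
    X₁ ≤ X ∧ 3 ≤ X ∧ 1 ≤ Real.log (Real.log X) ∧ 2 * (X ^ ((1:ℝ)/4) + 2) ≤ X ^ ((3:ℝ)/4) := by
  have t1 := Real.tendsto_log_atTop
  have h3 : ∀ᶠ X : ℝ in atTop, 2 * (X ^ ((1:ℝ)/4) + 2) ≤ X ^ ((3:ℝ)/4) := by
    have a1 : Tendsto (fun X : ℝ => X ^ ((1:ℝ)/4)) atTop atTop := tendsto_rpow_atTop (by norm_num)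
    filter_upwards [a1.eventually_ge_atTop 3, eventually_ge_atTop (1:ℝ)] with X h1 h2
    have e : X ^ ((3:ℝ)/4) = (X ^ ((1:ℝ)/4)) ^ 3 := by
      rw [← Real.rpow_natCast, ← Real.rpow_mul (by linarith)]
      norm_num
    rw [e]
    set y := X ^ ((1:ℝ)/4)
    nlinarith [sq_nonneg (y - 3), mul_self_nonneg y]
  obtain ⟨X₀, hX₀⟩ := Filter.eventually_atTop.1
    ((eventually_ge_atTop X₁).and ((eventually_ge_atTop (3:ℝ)).and
      (((t1.comp t1).eventually_ge_atTop 1).and h3)))
  exact ⟨X₀, fun X hX => hX₀ X hX⟩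

theorem moments (c : ℝ) (hc : 0 < c) (hc2 : c < 1 / 2) :
    ∃ κ₀ X₀ : ℝ, ∀ X M : ℕ, X₀ ≤ X → ∀ κ : ℝ, κ₀ ≤ κ →
      κ ≤ Real.log X * Real.log (Real.log X) →
      (X : ℝ) * (c * (Real.log X * Real.log κ)) ^ κ ≤
        ∑ m ∈ Finset.Ioc M (M + X), (gapLength m : ℝ) ^ κ := by
  obtain ⟨c', hc', hc'2⟩ : ∃ c' : ℝ, c < c' ∧ c' < 1 / 2 :=
    ⟨(c + 1 / 2) / 2, by linarith, by linarith⟩
  have hc'0 : 0 < c' := hc.trans hc'
  obtain ⟨T₀, X₁, hA⟩ := Pool.Agent.Y831.RC.abund5 c' (1 / 4) hc'0 hc'2 (by norm_num)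
  have hr : 1 < c' / c := by rw [one_lt_div hc]; exact hc'
  obtain ⟨κ₀, hκ₀⟩ := ev_k (c' / c) T₀ hr
  obtain ⟨X₂, hX₂⟩ := ev_X (max X₁ (Real.exp (1 / c')))
  refine ⟨κ₀, X₂, fun X M hX κ hκ hκX => ?_⟩
  obtain ⟨g1, g2, g3, g4⟩ := hX₂ X hX
  obtain ⟨f1, f2, f3, f4, f5⟩ := hκ₀ κ hκ
  have hX1 : X₁ ≤ X := (le_max_left _ _).trans g1
  have hXe : Real.exp (1 / c') ≤ X := (le_max_right _ _).trans g1
  have hX0 : (0:ℝ) < X := by linarith
  have hκ0 : 0 < κ := by linarith
  have hL : 1 / c' ≤ Real.log X := by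
    rw [← Real.log_exp (1 / c')]
    exact Real.log_le_log (Real.exp_pos _) hXe
  have hL0 : 0 < Real.log X := lt_of_lt_of_le (by positivity) hL
  have hL1 : 1 ≤ Real.log X := by
    by_contra h
    push Not at h
    have : Real.log (Real.log X) ≤ 0 := Real.log_nonpos hL0.le h.le
    linarith
  set T := κ / (4 * Real.log κ) with hT
  have hTX : T ≤ Real.log X / 4 := by
    rw [hT, div_le_iff₀ (by positivity)]
    -- κ ≤ L log κ
    by_cases h : κ ≤ Real.log X
    · nlinarith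
    · push Not at h
      have h1 : Real.log (Real.log X) ≤ Real.log κ := Real.log_le_log hL0 h.le
      nlinarith
  have hTX' : T ≤ Real.log X := by linarith
  have hB := hA X hX1 T f3 hTX' M
  set F : ℝ := c' * (Real.log X * Real.log T) with hF
  have hF1 : 1 ≤ F := by
    rw [div_le_iff₀ hc'0] at hL
    have : 0 ≤ c' * Real.log X := by positivity
    rw [hF]
    nlinarith
  have hF0 : 0 < F := by linarith
  obtain ⟨Y, hY⟩ : ∃ Y : ℝ, Y = (X:ℝ) ^ ((1:ℝ)/4) := ⟨_, rfl⟩
  have hY0 : 0 < Y := by rw [hY]; positivity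
  rw [← hY] at hB g4
  set A : Finset ℕ := (Finset.Ioc M (M + X)).filter (fun m => F ≤ (gapLength m : ℝ)) with hA'
  have hsub : Pool.Agent.Y831.RC.RunSet (M:ℝ) X F Y ⊆
      ↑((A.image (fun m : ℕ => (m : ℤ) - 1)) ∪ (Finset.Icc (0:ℤ) (⌊Y⌋₊ + 1))) := by
    rintro n ⟨n1, n2, n3⟩
    have hn0 : (0:ℤ) ≤ n := by
      have : (0:ℝ) ≤ n := le_trans (Nat.cast_nonneg M) n1
      exact_mod_cast this
    lift n to ℕ using hn0
    have n1' : M ≤ n := by exact_mod_cast n1
    have n2' : ((n:ℕ) : ℝ) + F ≤ M + X := by exact_mod_cast n2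
    rw [Finset.coe_union, Set.mem_union]
    by_cases hn : (n : ℝ) ≤ Y + 1
    · right
      rw [Finset.mem_coe, Finset.mem_Icc]
      refine ⟨by positivity, ?_⟩
      have h1 : n ≤ ⌊Y + 1⌋₊ := Nat.le_floor hn
      rw [Nat.floor_add_one hY0.le] at h1
      exact_mod_cast h1
    · left
      push Not at hn
      rw [Finset.mem_coe, Finset.mem_image]
      refine ⟨n + 1, ?_, by push_cast; ring⟩
      rw [hA', Finset.mem_filter, Finset.mem_Ioc]
      have hn2 : 2 ≤ n := by
        by_contra h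
        push Not at h
        have : (n:ℝ) ≤ 1 := by exact_mod_cast (by omega : n ≤ 1)
        linarith
      refine ⟨⟨by omega, ?_⟩, ?_⟩
      · have : ((n + 1 : ℕ) : ℝ) ≤ ((M + X : ℕ) : ℝ) := by push_cast; linarith
        exact_mod_cast this
      · have hK : 1 ≤ ⌊F⌋₊ := Nat.le_floor (by simpa using hF1)
        have hgg := gap_ge n ⌊F⌋₊ hn2 hK (by
          intro k hk1 hk2 hpr
          obtain ⟨p, hp, hp1, hp2⟩ := n3 k hk1 ((Nat.le_floor_iff hF0.le).1 hk2)
          have hp2' : p ∣ n + k := by exact_mod_cast hp2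
          rcases (Nat.dvd_prime hpr).1 hp2' with h | h
          · exact hp.one_lt.ne' h
          · rw [h] at hp1
            push_cast at hp1
            have : (0:ℝ) ≤ k := Nat.cast_nonneg k
            linarith)
        have h2 : F < (⌊F⌋₊ : ℝ) + 1 := Nat.lt_floor_add_one F
        have h3 : ((⌊F⌋₊ + 1 : ℕ) : ℝ) ≤ (gapLength (n + 1) : ℝ) := by exact_mod_cast hgg
        push_cast at h3
        linarith
  have hcard : ((Pool.Agent.Y831.RC.RunSet (M:ℝ) X F Y).ncard : ℝ) ≤ A.card + (Y + 2) := by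
    have h1 := Set.ncard_le_ncard hsub (Finset.finite_toSet _)
    rw [Set.ncard_coe_finset] at h1
    have h2 := h1.trans (Finset.card_union_le _ _)
    have h3 : (A.image (fun m : ℕ => (m : ℤ) - 1)).card ≤ A.card := Finset.card_image_le
    have h4 : (Finset.Icc (0:ℤ) (⌊Y⌋₊ + 1)).card = ⌊Y⌋₊ + 2 := by
      rw [Int.card_Icc]; omega
    rw [h4] at h2
    have h5 : (Pool.Agent.Y831.RC.RunSet (M:ℝ) X F Y).ncard ≤ A.card + (⌊Y⌋₊ + 2) := by omega
    have h6 : ((Pool.Agent.Y831.RC.RunSet (M:ℝ) X F Y).ncard : ℝ) ≤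
      ((A.card + (⌊Y⌋₊ + 2) : ℕ) : ℝ) := by exact_mod_cast h5
    push_cast at h6
    have := Nat.floor_le hY0.le
    linarith
  have hXT : (X:ℝ) ^ ((3:ℝ)/4) ≤ X * Real.exp (-T) := by
    have e : (X:ℝ) * Real.exp (-T) = Real.exp (Real.log X + -T) := by
      rw [Real.exp_add, Real.exp_log hX0]
    rw [e, Real.rpow_def_of_pos hX0]
    apply Real.exp_le_exp.2
    linarith
  have hAc : (1/2) * (X * Real.exp (-T)) ≤ (A.card : ℝ) := by linarith
  have hsum : (A.card : ℝ) * F ^ κ ≤ ∑ m ∈ Finset.Ioc M (M + X), (gapLength m : ℝ) ^ κ := by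
    calc (A.card : ℝ) * F ^ κ = ∑ _m ∈ A, F ^ κ := by rw [Finset.sum_const, nsmul_eq_mul]
      _ ≤ ∑ m ∈ A, (gapLength m : ℝ) ^ κ := by
          apply Finset.sum_le_sum
          intro m hm
          exact Real.rpow_le_rpow hF0.le (Finset.mem_filter.1 hm).2 hκ0.le
      _ ≤ _ := by
          apply Finset.sum_le_sum_of_subset_of_nonneg (Finset.filter_subset _ _)
          intro m _ _
          positivity
  refine le_trans ?_ hsum
  refine le_trans ?_ (mul_le_mul_of_nonneg_right hAc (Real.rpow_nonneg hF0.le κ))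
  have hfin : 2 * Real.exp T * (c * (Real.log X * Real.log κ)) ^ κ ≤ F ^ κ := by
    have e1 : F = (c * Real.log X) * (c' / c * Real.log T) := by
      rw [hF]; field_simp
    have e2 : c * (Real.log X * Real.log κ) = (c * Real.log X) * Real.log κ := by ring
    have p1 : 0 ≤ c * Real.log X := by positivity
    have p2 : 0 ≤ c' / c * Real.log T := by
      have : 0 < c' / c := by positivity
      nlinarith
    rw [e1, e2, Real.mul_rpow p1 p2, Real.mul_rpow p1 (by linarith)]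
    calc 2 * Real.exp T * ((c * Real.log X) ^ κ * Real.log κ ^ κ)
        = (c * Real.log X) ^ κ * (2 * Real.exp T * Real.log κ ^ κ) := by ring
      _ ≤ _ := mul_le_mul_of_nonneg_left f5 (Real.rpow_nonneg p1 κ)
  have hee : Real.exp (-T) * Real.exp T = 1 := by rw [← Real.exp_add]; simp
  calc (X : ℝ) * (c * (Real.log X * Real.log κ)) ^ κ
      = 1 / 2 * (X * Real.exp (-T)) * (2 * Real.exp T * (c * (Real.log X * Real.log κ)) ^ κ) := by
        have : 1 / 2 * (X * Real.exp (-T)) * (2 * Real.exp T * (c * (Real.log X * Real.log κ)) ^ κ)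
          = (Real.exp (-T) * Real.exp T) * (X * (c * (Real.log X * Real.log κ)) ^ κ) := by ring
        rw [this, hee, one_mul]
    _ ≤ _ := mul_le_mul_of_nonneg_left hfin (by positivity)

end Pool.Agent.X30.Mom
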