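import Pool.Agent.TH464.PO.PolyExact

/-!
# The law of the gaps between the sifted values of a system of polynomials

`poly_gap`: for a system without translations the distance to the `k`-th predecessor has the
Gamma law, in all intervals `(X, X + Y]`, `Y ≥ X ^ θ`.
-/

set_option autoImplicit false

namespace Pool.Agent.X30.PG

open Polynomial Finset Filter
open Pool.Agent.W123.RP Pool.Agent.H373R2.T7 Pool.Agent.W123.RU Pool.Agent.W123.RU.Poly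
open Pool.Agent.TH464.PW Pool.Agent.TH464.PO

variable {ι : Type} [Fintype ι]

open Classical in
/-- `√Y` and `x1 / V` are small compared with `Y V` -/
lemma V_root [Nonempty ι] (f : ι → ℤ[X]) (hf : Sys f) (θ : ℝ) (hθ : 0 < θ) (r : ℕ) (hr : 2 ≤ r)
    (κ x1 : ℝ) (hκ : 0 < κ) (hx1 : 0 < x1) :
    ∀ᶠ X : ℕ in atTop, ∀ Y : ℕ, (X : ℝ) ^ θ ≤ Y →
      √(Y : ℝ) ≤ κ * (Y * Vq (Q f) ⌊(X : ℝ) ^ (1 / (r : ℝ))⌋₊) ∧
      x1 / Vq (Q f) ⌊(X : ℝ) ^ (1 / (r : ℝ))⌋₊ ≤ κ * (Y * Vq (Q f) ⌊(X : ℝ) ^ (1 / (r : ℝ))⌋₊) := by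
  obtain ⟨v, Cv, hv, hCv, hV⟩ := V_bounds f hf
  obtain ⟨k, hk⟩ : ∃ k, k = Fintype.card ι := ⟨_, rfl⟩
  rw [← hk] at hV
  have hpow2 : Tendsto (fun X : ℕ => (X : ℝ) ^ (1 / (2 * r : ℝ))) atTop atTop :=
    (tendsto_rpow_atTop (by positivity)).comp tendsto_natCast_atTop_atTop
  filter_upwards [hpow2.eventually_ge_atTop 3, eventually_ge_atTop 16,
    logpow_rpow k (1 / (κ * v)) (θ / 2) (by positivity) (by positivity),
    logpow_rpow (2 * k) (x1 / (κ * v ^ 2)) θ (by positivity) hθ] with X hX1 hX16 hX3 hX4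
  intro Y hXY
  obtain ⟨hy1, hy2, hy3, hy4⟩ := level_low r hr X (by omega) (by linarith)
  obtain ⟨y, hy⟩ : ∃ y, y = ⌊(X : ℝ) ^ (1 / (r : ℝ))⌋₊ := ⟨_, rfl⟩
  rw [← hy] at hy1 hy2 hy3 hy4 ⊢
  have hy3' : 3 ≤ y := by
    have : (3 : ℝ) ≤ y := by linarith
    exact_mod_cast this
  obtain ⟨hVlo, -⟩ := hV y hy3'
  have hX16r : (16 : ℝ) ≤ X := by exact_mod_cast hX16
  have hX0 : (0 : ℝ) < X := by linarith
  have hlogy : 0 < Real.log y := Real.log_pos (by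
    have : (3 : ℝ) ≤ y := by exact_mod_cast hy3'
    linarith)
  have hlogX : 0 < Real.log X := Real.log_pos (by linarith)
  have hVX : v / Real.log X ^ k ≤ Vq (Q f) y := by
    refine le_trans ?_ hVlo
    gcongr
  set V := Vq (Q f) y with hVdef
  have hV0 : 0 < V := lt_of_lt_of_le (by positivity) hVX
  have hXθ : 0 < (X : ℝ) ^ θ := by positivity
  have hY0 : (0 : ℝ) < Y := lt_of_lt_of_le hXθ hXY
  have hL : v ≤ V * Real.log X ^ k := by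
    rwa [div_le_iff₀ (by positivity)] at hVX
  constructor
  · have h1 : (X : ℝ) ^ (θ / 2) ≤ √(Y : ℝ) := by
      apply Real.le_sqrt_of_sq_le
      rw [← Real.rpow_natCast, ← Real.rpow_mul hX0.le]
      refine le_trans (le_of_eq ?_) hXY
      congr 1
      push_cast
      ring
    have h2 : 1 ≤ κ * V * √(Y : ℝ) := by
      have h3 := hX3.trans h1
      rw [div_mul_eq_mul_div, one_mul, div_le_iff₀ (by positivity)] at h3
      -- log^k ≤ √Y κ v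
      have h4 : Real.log X ^ k ≤ √(Y : ℝ) * (κ * (V * Real.log X ^ k)) := by
        refine h3.trans ?_
        gcongr
      have h5 : Real.log X ^ k * 1 ≤ Real.log X ^ k * (κ * V * √(Y : ℝ)) := by
        calc Real.log X ^ k * 1 = Real.log X ^ k := mul_one _
          _ ≤ √(Y : ℝ) * (κ * (V * Real.log X ^ k)) := h4
          _ = Real.log X ^ k * (κ * V * √(Y : ℝ)) := by ring
      exact le_of_mul_le_mul_left h5 (by positivity)
    have h6 : (Y : ℝ) = √(Y : ℝ) * √(Y : ℝ) := (Real.mul_self_sqrt hY0.le).symm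
    calc √(Y : ℝ) = √(Y : ℝ) * 1 := (mul_one _).symm
      _ ≤ √(Y : ℝ) * (κ * V * √(Y : ℝ)) := by gcongr
      _ = κ * ((√(Y : ℝ) * √(Y : ℝ)) * V) := by ring
      _ = κ * (Y * V) := by rw [← h6]
  · rw [div_le_iff₀ hV0]
    have h3 := hX4.trans hXY
    rw [div_mul_eq_mul_div, div_le_iff₀ (by positivity)] at h3
    have h4 : x1 * Real.log X ^ (2 * k) ≤ κ * (Y * V) * V * Real.log X ^ (2 * k) := by
      calc x1 * Real.log X ^ (2 * k) ≤ Y * (κ * v ^ 2) := h3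
        _ ≤ Y * (κ * (V * Real.log X ^ k) ^ 2) := by gcongr
        _ = κ * (Y * V) * V * Real.log X ^ (2 * k) := by ring
    exact le_of_mul_le_mul_right h4 (by positivity)

open Classical in
/-- **The gap law** for systems of polynomials. -/
theorem poly_gap [Nonempty ι] (f : ι → ℤ[X]) (hf : Sys f) (hT : NoTr f) (θ : ℝ) (hθ : 0 < θ)
    (k0 : ℕ) (x0 ε : ℝ) (hε : 0 < ε) :
    ∃ r0 : ℕ, ∀ r : ℕ, r0 ≤ r → ∀ᶠ X : ℕ in atTop, ∀ Y : ℕ, (X : ℝ) ^ θ ≤ Y →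
      ∀ k T : ℕ, (k ≤ k0 ∨ T * Vq (Q f) ⌊(X : ℝ) ^ (1 / (r : ℝ))⌋₊ ≤ x0) →
        |(Pk (Sf (Q f) ⌊(X : ℝ) ^ (1 / (r : ℝ))⌋₊) k T X Y : ℝ) -
          Y * Vq (Q f) ⌊(X : ℝ) ^ (1 / (r : ℝ))⌋₊ *
            Ck k (T * Vq (Q f) ⌊(X : ℝ) ^ (1 / (r : ℝ))⌋₊)| ≤
          ε * (Y * Vq (Q f) ⌊(X : ℝ) ^ (1 / (r : ℝ))⌋₊) := by
  obtain ⟨c, hc, hQ⟩ := exists_c f hf
  obtain ⟨K0, y0, T0, R0, η', κ, x1, hη', hκ, hx1, hgap⟩ := gen_gap c hc k0 x0 ε hε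
  obtain ⟨r0, h0⟩ := poly_sizes f hf hT θ hθ K0 y0 T0 R0 η' κ x1 hη' hκ hx1.le
  refine ⟨max r0 2, fun r hr => ?_⟩
  have hr2 : 2 ≤ r := (le_max_right _ _).trans hr
  filter_upwards [h0 r ((le_max_left _ _).trans hr), V_small f hf r hr2 κ hκ,
    V_root f hf θ hθ r hr2 κ x1 hκ hx1] with X hX hVs hroot
  intro Y hXY k T hkT
  obtain ⟨y, hy⟩ : ∃ y, y = ⌊(X : ℝ) ^ (1 / (r : ℝ))⌋₊ := ⟨_, rfl⟩
  obtain ⟨a1, a2, a3⟩ := hX Y hXY y hy
  obtain ⟨b1, b2⟩ := hroot Y hXY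
  rw [← hy] at hVs b1 b2 hkT ⊢
  exact hgap (Q f) X Y y hQ (fun p hp => Poly.adm f hf p hp) a1 a2 hVs b1 b2 a3 k T hkT

end Pool.Agent.X30.PG
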