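import Mathlib
import Pool.Agent.X30.MaierW

/-! # Truncated inclusion-exclusion along `μ t + β` (helper30) -/

set_option autoImplicit false

open Finset Filter Topology

namespace Pool.Agent.X30.QD

/-- the number of terms of a progression in a residue class -/
theorem ap_count (μ β d Y : ℕ) (hd : 0 < d) (hc : Nat.Coprime μ d) :
    |(((Icc 1 Y).filter (fun t => d ∣ μ * t + β)).card : ℝ) - (Y : ℝ) / d| ≤ 1 := by
  -- the class
  obtain ⟨v, hv⟩ : ∃ v : ℕ, d ∣ μ * v + β := by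
    rcases Nat.eq_or_lt_of_le (Nat.succ_le_of_lt hd) with h1 | h1
    · exact ⟨0, by rw [← h1]; simp⟩
    have : NeZero d := ⟨by omega⟩
    have hu : IsUnit (μ : ZMod d) := (ZMod.isUnit_iff_coprime μ d).2 hc
    obtain ⟨u, hu'⟩ := hu
    refine ⟨((-(β : ZMod d)) * (u⁻¹ : (ZMod d)ˣ)).val, ?_⟩
    rw [← ZMod.natCast_eq_zero_iff]
    push_cast
    rw [ZMod.natCast_zmod_val, ← hu', mul_comm (-(β : ZMod d)), ← mul_assoc, Units.mul_inv, one_mul,
      neg_add_cancel]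
  have hiff : ∀ t : ℕ, d ∣ μ * t + β ↔ t ≡ v [MOD d] := by
    intro t
    constructor
    · intro h
      have h1 : μ * t + β ≡ μ * v + β [MOD d] := by
        rw [Nat.ModEq, Nat.mod_eq_zero_of_dvd h, Nat.mod_eq_zero_of_dvd hv]
      have h2 : μ * t ≡ μ * v [MOD d] := Nat.ModEq.add_right_cancel' β h1
      exact Nat.ModEq.cancel_left_of_coprime (by rw [Nat.gcd_comm]; exact hc) h2
    · intro h
      have h1 : μ * t + β ≡ μ * v + β [MOD d] := (h.mul_left μ).add_right β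
      exact (Nat.ModEq.dvd_iff h1 dvd_rfl).2 hv
  have hset : (Icc 1 Y).filter (fun t => d ∣ μ * t + β) = (Ioc 0 Y).filter (fun t => t ≡ v [MOD d]) := by
    ext t
    rw [Finset.mem_filter, Finset.mem_filter, Finset.mem_Icc, Finset.mem_Ioc, hiff]
    constructor <;> rintro ⟨⟨h1, h2⟩, h3⟩ <;> exact ⟨⟨by omega, h2⟩, h3⟩
  rw [hset]
  have h1 := Nat.Ioc_filter_modEq_card 0 Y hd v
  have hdq : (0 : ℚ) < d := by exact_mod_cast hd
  have h2 : ((((Ioc 0 Y).filter (fun t => t ≡ v [MOD d])).card : ℤ) : ℚ) ≤ (Y : ℚ) / d + 1 ∧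
      (Y : ℚ) / d - 1 ≤ ((((Ioc 0 Y).filter (fun t => t ≡ v [MOD d])).card : ℤ) : ℚ) := by
    rw [h1]
    have a1 := Int.floor_le (((Y : ℚ) - v) / d)
    have a2 := Int.lt_floor_add_one (((Y : ℚ) - v) / d)
    have a3 := Int.floor_le ((((0 : ℕ) : ℚ) - v) / d)
    have a4 := Int.lt_floor_add_one ((((0 : ℕ) : ℚ) - v) / d)
    have a5 : ((Y : ℚ) - v) / d - (((0 : ℕ) : ℚ) - v) / d = Y / d := by
      push_cast
      ring
    constructor
    · rw [Int.cast_max, Int.cast_sub]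
      apply max_le
      · linarith
      · have : (0 : ℚ) ≤ Y / d := by positivity
        push_cast
        linarith
    · rw [Int.cast_max, Int.cast_sub]
      refine le_trans ?_ (le_max_left _ _)
      linarith
  obtain ⟨h3, h4⟩ := h2
  have h5 : ((((Ioc 0 Y).filter (fun t => t ≡ v [MOD d])).card : ℕ) : ℝ) ≤ (Y : ℝ) / d + 1 := by
    have : ((((((Ioc 0 Y).filter (fun t => t ≡ v [MOD d])).card : ℤ) : ℚ)) : ℝ) ≤ (((Y : ℚ) / d + 1 : ℚ) : ℝ) := by
      exact_mod_cast h3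
    push_cast at this
    exact this
  have h6 : (Y : ℝ) / d - 1 ≤ ((((Ioc 0 Y).filter (fun t => t ≡ v [MOD d])).card : ℕ) : ℝ) := by
    have : (((Y : ℚ) / d - 1 : ℚ) : ℝ) ≤ ((((((Ioc 0 Y).filter (fun t => t ≡ v [MOD d])).card : ℤ) : ℚ)) : ℝ) := by
      exact_mod_cast h4
    push_cast at this
    exact this
  rw [abs_le]
  constructor <;> linarith

/-- exact count of the `t` for which `μ t + β` has no prime factor in `P`, if no `μ t + β` has more than
`k` prime factors in `P` -/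
theorem count_eq (μ β : ℕ) (hμ : 1 ≤ μ) (P : Finset ℕ) (hP : ∀ p ∈ P, p.Prime) (Y k : ℕ)
    (hk : ∀ s, s ⊆ P → s.card = k + 1 → μ * Y + β < ∏ p ∈ s, p) :
    (((Icc 1 Y).filter (fun t => ∀ p ∈ P, ¬ p ∣ μ * t + β)).card : ℝ) =
      ∑ s ∈ P.powerset.filter (fun s => s.card ≤ k), (-1 : ℝ) ^ s.card *
        (((Icc 1 Y).filter (fun t => (∏ p ∈ s, p) ∣ μ * t + β)).card : ℝ) := by
  classical
  have hcop : ∀ s, s ⊆ P → ∀ h : ℕ, (∏ p ∈ s, p) ∣ h ↔ ∀ p ∈ s, p ∣ h := by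
    intro s hs h
    constructor
    · intro h1 p hp
      exact (Finset.dvd_prod_of_mem _ hp).trans h1
    · intro h1
      refine Finset.prod_primes_dvd h (fun p hp => (hP p (hs hp)).prime) h1
  have hmult : ∀ s, s ⊆ P → (((Icc 1 Y).filter (fun t => (∏ p ∈ s, p) ∣ μ * t + β)).card : ℝ) =
      ∑ t ∈ Icc 1 Y, if (∀ p ∈ s, p ∣ μ * t + β) then (1 : ℝ) else 0 := by
    intro s hs
    rw [← Finset.sum_filter, Finset.sum_const, nsmul_eq_mul, mul_one]
    congr 2
    apply Finset.filter_congr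
    intro t _
    exact hcop s hs _
  have h1 : ∑ s ∈ P.powerset.filter (fun s => s.card ≤ k), (-1 : ℝ) ^ s.card *
        (((Icc 1 Y).filter (fun t => (∏ p ∈ s, p) ∣ μ * t + β)).card : ℝ) =
      ∑ t ∈ Icc 1 Y, ∑ s ∈ P.powerset.filter (fun s => s.card ≤ k),
        (-1 : ℝ) ^ s.card * (if (∀ p ∈ s, p ∣ μ * t + β) then (1 : ℝ) else 0) := by
    rw [Finset.sum_comm]
    apply Finset.sum_congr rfl
    intro s hs
    rw [Finset.mem_filter, Finset.mem_powerset] at hs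
    rw [hmult s hs.1, Finset.mul_sum]
  rw [h1, Finset.card_filter]
  push_cast
  apply Finset.sum_congr rfl
  intro t ht
  rw [Finset.mem_Icc] at ht
  set Dh := P.filter (fun p => p ∣ μ * t + β) with hDh
  have hpos : 0 < μ * t + β := by
    have : 0 < μ * t := Nat.mul_pos (by omega) (by omega)
    omega
  have hle : μ * t + β ≤ μ * Y + β := Nat.add_le_add_right (Nat.mul_le_mul_left _ ht.2) _
  have hDcard : Dh.card ≤ k := by
    by_contra hcon
    obtain ⟨s, hs, hsc⟩ := Finset.exists_subset_card_eq (s := Dh) (n := k + 1) (by omega)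
    have h2 := hk s (hs.trans (Finset.filter_subset _ _)) hsc
    have h3 : (∏ p ∈ s, p) ∣ μ * t + β := (hcop s (hs.trans (Finset.filter_subset _ _)) _).2
      (fun p hp => (Finset.mem_filter.1 (hs hp)).2)
    have h4 := Nat.le_of_dvd hpos h3
    omega
  have h5 : ∑ s ∈ P.powerset.filter (fun s => s.card ≤ k),
        (-1 : ℝ) ^ s.card * (if (∀ p ∈ s, p ∣ μ * t + β) then (1 : ℝ) else 0) =
      ∑ s ∈ Dh.powerset, (-1 : ℝ) ^ s.card := by
    simp_rw [mul_ite, mul_one, mul_zero]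
    rw [← Finset.sum_filter]
    apply Finset.sum_congr _ (fun _ _ => rfl)
    ext s
    simp only [Finset.mem_filter, Finset.mem_powerset]
    constructor
    · rintro ⟨⟨h6, h7⟩, h8⟩
      intro p hp
      exact Finset.mem_filter.2 ⟨h6 hp, h8 p hp⟩
    · intro h6
      refine ⟨⟨h6.trans (Finset.filter_subset _ _), (Finset.card_le_card h6).trans hDcard⟩, ?_⟩
      intro p hp
      exact (Finset.mem_filter.1 (h6 hp)).2
  rw [h5]
  have h6 := Finset.sum_powerset_neg_one_pow_card (x := Dh)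
  have h7 : ∑ s ∈ Dh.powerset, (-1 : ℝ) ^ s.card = ((∑ s ∈ Dh.powerset, (-1 : ℤ) ^ s.card : ℤ) : ℝ) := by
    push_cast; rfl
  rw [h7, h6]
  by_cases h8 : Dh = ∅
  · rw [if_pos h8, if_pos]
    · norm_num
    · intro p hp hd
      have : p ∈ Dh := Finset.mem_filter.2 ⟨hp, hd⟩
      rw [h8] at this
      exact absurd this (Finset.notMem_empty _)
  · rw [if_neg h8, if_neg]
    · norm_num
    · intro h9
      apply h8
      rw [Finset.eq_empty_iff_forall_notMem]
      intro p hp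
      rw [hDh, Finset.mem_filter] at hp
      exact h9 p hp.1 hp.2

/-- the count, with main term -/
theorem count_approx (μ β : ℕ) (hμ : 1 ≤ μ) (P : Finset ℕ) (hP : ∀ p ∈ P, p.Prime) (hPμ : ∀ p ∈ P, ¬ p ∣ μ)
    (Y k b : ℕ) (hb : ∀ p ∈ P, p ≤ b)
    (hb1 : 1 ≤ b) (hk : ∀ s, s ⊆ P → s.card = k + 1 → μ * Y + β < ∏ p ∈ s, p) :
    |(((Icc 1 Y).filter (fun t => ∀ p ∈ P, ¬ p ∣ μ * t + β)).card : ℝ) -
      Y * Pool.Agent.X30.MF.E (fun p => 1 / (p : ℝ)) P k| ≤ (b : ℝ) ^ k := by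
  classical
  rw [count_eq μ β hμ P hP Y k hk]
  unfold Pool.Agent.X30.MF.E
  rw [Finset.mul_sum, ← Finset.sum_sub_distrib]
  refine (Finset.abs_sum_le_sum_abs _ _).trans ?_
  have h1 : ∀ s ∈ P.powerset.filter (fun s => s.card ≤ k),
      |(-1 : ℝ) ^ s.card * (((Icc 1 Y).filter (fun t => (∏ p ∈ s, p) ∣ μ * t + β)).card : ℝ) -
        Y * ((-1) ^ s.card * ∏ p ∈ s, 1 / (p : ℝ))| ≤ 1 := by
    intro s hs
    rw [Finset.mem_filter, Finset.mem_powerset] at hs
    have hpos : 0 < ∏ p ∈ s, p := Finset.prod_pos fun p hp => (hP p (hs.1 hp)).pos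
    have h2 : (Y : ℝ) * ((-1) ^ s.card * ∏ p ∈ s, 1 / (p : ℝ)) =
        (-1) ^ s.card * ((Y : ℝ) / ((∏ p ∈ s, p : ℕ) : ℝ)) := by
      push_cast
      rw [Finset.prod_div_distrib, Finset.prod_const_one]
      ring
    rw [h2, ← mul_sub, abs_mul, abs_pow, abs_neg, abs_one, one_pow, one_mul]
    apply ap_count μ β _ Y hpos
    rw [Nat.coprime_prod_right_iff]
    intro p hp
    rw [Nat.coprime_comm, Nat.Prime.coprime_iff_not_dvd (hP p (hs.1 hp))]
    exact hPμ p (hs.1 hp)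
  refine (Finset.sum_le_sum h1).trans ?_
  rw [Finset.sum_const, nsmul_eq_mul, mul_one]
  have h6 : (P.powerset.filter (fun s => s.card ≤ k)).card ≤ (Icc 1 (b ^ k)).card := by
    apply Finset.card_le_card_of_injOn (fun s => ∏ p ∈ s, p)
    · intro s hs
      rw [Finset.mem_coe, Finset.mem_filter, Finset.mem_powerset] at hs
      rw [Finset.mem_coe, Finset.mem_Icc]
      refine ⟨Finset.prod_pos fun p hp => (hP p (hs.1 hp)).pos, ?_⟩
      calc ∏ p ∈ s, p ≤ ∏ _p ∈ s, b := Finset.prod_le_prod' fun p hp => hb p (hs.1 hp)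
        _ = b ^ s.card := by rw [Finset.prod_const]
        _ ≤ b ^ k := Nat.pow_le_pow_right hb1 hs.2
    · intro s hs t ht hst
      rw [Finset.mem_coe, Finset.mem_filter, Finset.mem_powerset] at hs ht
      have h7 := Nat.primeFactors_prod (s := s) (fun p hp => hP p (hs.1 hp))
      have h8 := Nat.primeFactors_prod (s := t) (fun p hp => hP p (ht.1 hp))
      rw [← h7, ← h8]
      exact congrArg Nat.primeFactors hst
  rw [Nat.card_Icc, Nat.add_sub_cancel] at h6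
  exact_mod_cast h6

/-- the residue class: `4 α (α t ^ 2 + β t + r) ≡ (2 α t + β) ^ 2` modulo `W` -/
theorem quad_class (α β : ℕ) (P : Finset ℕ) (hP : ∀ p ∈ P, p.Prime) (hPα : ∀ p ∈ P, ¬ p ∣ 2 * α) :
    ∃ r : ℕ, ∀ t : ℕ, (r + (α * t ^ 2 + β * t)).Coprime (∏ p ∈ P, p) ↔ ∀ p ∈ P, ¬ p ∣ 2 * α * t + β := by
  classical
  set W := ∏ p ∈ P, p with hW
  have hW0 : 0 < W := Finset.prod_pos fun p hp => (hP p hp).pos
  have hcop : Nat.Coprime (4 * α) W := by
    rw [hW, Nat.coprime_prod_right_iff]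
    intro p hp
    rw [Nat.coprime_comm, Nat.Prime.coprime_iff_not_dvd (hP p hp)]
    intro h
    have h1 : p ∣ 2 * (2 * α) := by
      have : 2 * (2 * α) = 4 * α := by ring
      rwa [this]
    rcases (hP p hp).dvd_mul.1 h1 with h2 | h2
    · exact hPα p hp (Dvd.dvd.mul_right h2 α)
    · exact hPα p hp h2
  obtain ⟨r, hr⟩ : ∃ r : ℕ, 4 * α * r ≡ β ^ 2 [MOD W] := by
    have : NeZero W := ⟨by omega⟩
    have hu : IsUnit ((4 * α : ℕ) : ZMod W) := (ZMod.isUnit_iff_coprime (4 * α) W).2 hcop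
    obtain ⟨u, hu'⟩ := hu
    refine ⟨((u⁻¹ : (ZMod W)ˣ) * (β : ZMod W) ^ 2).val, ?_⟩
    rw [← ZMod.natCast_eq_natCast_iff]
    push_cast
    rw [ZMod.natCast_zmod_val, ← mul_assoc]
    have e : ((4 : ZMod W) * (α : ZMod W)) = (u : ZMod W) := by
      rw [hu']
      push_cast
      ring
    rw [e, Units.mul_inv, one_mul]
  refine ⟨r, fun t => ?_⟩
  rw [hW, Nat.coprime_prod_right_iff]
  apply forall₂_congr
  intro p hp
  have hpp := hP p hp
  rw [Nat.coprime_comm, Nat.Prime.coprime_iff_not_dvd hpp, not_iff_not]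
  have hrp : 4 * α * r ≡ β ^ 2 [MOD p] := hr.of_dvd (Finset.dvd_prod_of_mem _ hp)
  have h1 : 4 * α * (r + (α * t ^ 2 + β * t)) ≡ (2 * α * t + β) ^ 2 [MOD p] := by
    have e1 : 4 * α * (r + (α * t ^ 2 + β * t)) = 4 * α * r + (4 * α * (α * t ^ 2 + β * t)) := by ring
    have e2 : (2 * α * t + β) ^ 2 = β ^ 2 + (4 * α * (α * t ^ 2 + β * t)) := by ring
    rw [e1, e2]
    exact hrp.add_right _
  have h2 : p ∣ 4 * α * (r + (α * t ^ 2 + β * t)) ↔ p ∣ (2 * α * t + β) ^ 2 := Nat.ModEq.dvd_iff h1 dvd_rfl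
  have h3 : p ∣ 4 * α * (r + (α * t ^ 2 + β * t)) ↔ p ∣ r + (α * t ^ 2 + β * t) := by
    have h4 : Nat.Coprime p (4 * α) := by
      have := hcop
      rw [hW, Nat.coprime_prod_right_iff] at this
      exact (this p hp).symm
    exact ⟨fun h => h4.dvd_of_dvd_mul_left h, fun h => Dvd.dvd.mul_left h _⟩
  rw [← h3, h2]
  exact ⟨fun h => hpp.dvd_of_dvd_pow h, fun h => Dvd.dvd.pow h (by norm_num)⟩

end Pool.Agent.X30.QD
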