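import Mathlib
import Pool.Agent.X30.Quad1
import Pool.Agent.X30.MaierL

/-! # Transfer for the columns `q t` (helper30)

The rows of the Maier matrix are `n ≡ r (mod W)`, its columns `q t`, `t = 1, 2, ...`, for an arbitrary function `q` of
polynomial growth. -/

set_option autoImplicit false

open Finset Filter Topology
open Pool.Agent.H378R2 Pool.Agent.H510R2.Maier Pool.Agent.X30.MR Pool.Agent.X30.MG Pool.Agent.X30.MH
open Pool.Agent.X30.MI Pool.Agent.X30.MT Pool.Agent.X30.ML

namespace Pool.Agent.X30.QT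

/-- the number of `1 ≤ t ≤ Y` for which `n + q t` is prime -/
def cntQ (q : ℕ → ℕ) (n Y : ℕ) : ℕ := ((Icc 1 Y).filter (fun t => (n + q t).Prime)).card

/-- the same with logarithmic weights -/
noncomputable def thq (q : ℕ → ℕ) (n Y : ℕ) : ℝ := ∑ t ∈ Icc 1 Y, th (n + q t)

/-- the number of `1 ≤ t ≤ Y` for which `r + q t` is prime to `W` -/
def VQ (q : ℕ → ℕ) (W r Y : ℕ) : ℕ := ((Icc 1 Y).filter (fun t => (r + q t).Coprime W)).card

/-- the number of `1 ≤ t ≤ (log n) ^ B` for which `n + q t` is prime -/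
noncomputable def winQ (q : ℕ → ℕ) (B : ℝ) (n : ℕ) : ℕ := cntQ q n ⌊(Real.log n) ^ B⌋₊

/-- the normalised number of primes -/
noncomputable def densQ (q : ℕ → ℕ) (B : ℝ) (n : ℕ) : ℝ := (winQ q B n : ℝ) / (Real.log n) ^ (B - 1)

lemma thq_le (q : ℕ → ℕ) (n Y : ℕ) (x : ℝ) (hn : 0 < n) (hx : ∀ t ∈ Icc 1 Y, ((n + q t : ℕ) : ℝ) ≤ x) :
    thq q n Y ≤ Real.log x * cntQ q n Y := by
  unfold thq cntQ
  rw [Finset.card_filter]
  push_cast
  rw [Finset.mul_sum]
  apply Finset.sum_le_sum
  intro t ht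
  unfold th
  split_ifs with hp
  · rw [mul_one]
    apply Real.log_le_log _ (hx t ht)
    have : 0 < n + q t := by omega
    exact_mod_cast this
  · simp

lemma thq_ge (q : ℕ → ℕ) (n Y : ℕ) (x : ℝ) (hx : 0 < x) (hn : x < n) :
    Real.log x * cntQ q n Y ≤ thq q n Y := by
  unfold thq cntQ
  rw [Finset.card_filter]
  push_cast
  rw [Finset.mul_sum]
  apply Finset.sum_le_sum
  intro t _
  unfold th
  split_ifs with hp
  · rw [mul_one]
    apply Real.log_le_log hx
    push_cast
    have : (0 : ℝ) ≤ q t := Nat.cast_nonneg _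
    linarith
  · simp

lemma thq_nonneg (q : ℕ → ℕ) (n Y : ℕ) : 0 ≤ thq q n Y := by
  unfold thq
  apply Finset.sum_nonneg
  intro t _
  unfold th
  split_ifs
  · exact Real.log_natCast_nonneg _
  · exact le_rfl

lemma cntQ_mono (q : ℕ → ℕ) (n : ℕ) {Y Y' : ℕ} (h : Y ≤ Y') : cntQ q n Y ≤ cntQ q n Y' := by
  unfold cntQ
  apply Finset.card_le_card
  apply Finset.filter_subset_filter
  exact Finset.Icc_subset_Icc_right h

lemma VQ_le (q : ℕ → ℕ) (W r Y : ℕ) : VQ q W r Y ≤ Y := by
  unfold VQ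
  refine (Finset.card_filter_le _ _).trans ?_
  rw [Nat.card_Icc, Nat.add_sub_cancel]

/-- pointwise comparison -/
lemma point (q : ℕ → ℕ) (B c : ℝ) (hB : 0 < B) (X : ℝ) (hX : 40 ≤ X) (hL2 : 2 ≤ Real.log X)
    (hYX : ∀ t, 1 ≤ t → t ≤ Yc B c (Real.log X) → (q t : ℝ) ≤ X) (n : ℕ) (h1 : X < n) (h2 : (n : ℝ) < 3 * X) :
    c * (ac B c (Real.log X) * thq q n (Yc B c (Real.log X))) ≤ c * densQ q B n := by
  set L := Real.log X with hL
  have hX0 : 0 < X := by linarith
  have hL0 : 0 < L := by linarith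
  obtain ⟨l1, l2⟩ := G.log_bounds hX0 h1 h2
  rw [← hL] at l1 l2
  have hl0 : 0 < Real.log n := by linarith
  have hlB : 0 < (Real.log n) ^ B := Real.rpow_pos_of_pos hl0 _
  have hLB : 0 < L ^ B := Real.rpow_pos_of_pos hL0 _
  have hLB2 : 0 < (L + 2) ^ B := Real.rpow_pos_of_pos (by linarith) _
  have hd : densQ q B n = winQ q B n * Real.log n / (Real.log n) ^ B := by
    unfold densQ
    rw [Real.rpow_sub hl0, Real.rpow_one]
    field_simp
  rw [hd]
  unfold Yc at hYX ⊢
  unfold ac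
  by_cases hc : 0 ≤ c
  · rw [if_pos hc] at hYX
    rw [if_pos hc, if_pos hc]
    apply mul_le_mul_of_nonneg_left _ hc
    set Y := ⌊L ^ B⌋₊ with hY
    have w1 : (cntQ q n Y : ℝ) ≤ winQ q B n := by
      have : cntQ q n Y ≤ winQ q B n := cntQ_mono q n (Nat.floor_le_floor (Real.rpow_le_rpow hL0.le l1 hB.le))
      exact_mod_cast this
    have w2 : thq q n Y ≤ Real.log (4 * X) * cntQ q n Y := thq_le q n Y (4 * X) (by
      have : (0 : ℝ) < n := by linarith
      exact_mod_cast this) (by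
      intro t ht
      rw [Finset.mem_Icc] at ht
      have := hYX t ht.1 ht.2
      push_cast
      linarith)
    have w3 : Real.log (4 * X) ≤ L + 2 := by
      rw [Real.log_mul (by norm_num) hX0.ne', ← hL]
      have : Real.log 4 ≤ 2 := by
        rw [show (4 : ℝ) = 2 ^ 2 by norm_num, Real.log_pow]
        have := Real.log_two_lt_d9
        push_cast; linarith
      linarith
    have hcn : (0 : ℝ) ≤ cntQ q n Y := Nat.cast_nonneg _
    have w4 : thq q n Y ≤ (L + 2) * cntQ q n Y := w2.trans (mul_le_mul_of_nonneg_right w3 hcn)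
    calc L / ((L + 2) * (L + 2) ^ B) * thq q n Y ≤ L / ((L + 2) * (L + 2) ^ B) * ((L + 2) * cntQ q n Y) := by
          apply mul_le_mul_of_nonneg_left w4
          positivity
      _ = cntQ q n Y * L / (L + 2) ^ B := by
          have : (0 : ℝ) < L + 2 := by linarith
          field_simp
      _ ≤ winQ q B n * Real.log n / (Real.log n) ^ B := by
          apply div_le_div₀ (by positivity) (mul_le_mul w1 l1 hL0.le (Nat.cast_nonneg _)) hlB
          exact Real.rpow_le_rpow hl0.le l2 hB.le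
  · rw [if_neg hc] at hYX
    rw [if_neg hc, if_neg hc]
    apply mul_le_mul_of_nonpos_left _ (not_le.1 hc).le
    set Y := ⌊(L + 2) ^ B⌋₊ with hY
    have w1 : (winQ q B n : ℝ) ≤ cntQ q n Y := by
      have : winQ q B n ≤ cntQ q n Y := cntQ_mono q n (Nat.floor_le_floor (Real.rpow_le_rpow hl0.le l2 hB.le))
      exact_mod_cast this
    have w2 : L * cntQ q n Y ≤ thq q n Y := thq_ge q n Y X hX0 h1
    have hcn : (0 : ℝ) ≤ cntQ q n Y := Nat.cast_nonneg _
    calc winQ q B n * Real.log n / (Real.log n) ^ B ≤ cntQ q n Y * (L + 2) / L ^ B := by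
          apply div_le_div₀ (by positivity) (mul_le_mul w1 l2 hl0.le hcn) hLB
          exact Real.rpow_le_rpow hL0.le l1 hB.le
      _ = (L + 2) / (L * L ^ B) * (L * cntQ q n Y) := by field_simp
      _ ≤ (L + 2) / (L * L ^ B) * thq q n Y := by
          apply mul_le_mul_of_nonneg_left w2
          positivity

/-- **Transfer.** -/
theorem transferQ {ι : Type*} (I : Finset ι) (B c : ι → ℝ) (hB : ∀ i ∈ I, 0 < B i) (q : ℕ → ℕ) (D : ℕ)
    (hq1 : ∀ t, 1 ≤ t → 1 ≤ q t) (hqD : ∀ t, 1 ≤ t → q t ≤ D * t ^ D)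
    (K δ : ℝ) (hK : 1 ≤ K) (hδ : 0 < δ)
    (Z : ℕ) : ∃ κ : ℝ, 0 < κ ∧ ∃ X0 : ℝ, ∀ X : ℝ, X0 ≤ X →
    ∃ (ps : ℕ) (S : Finset ℕ), GoodP Z ps ∧ GoodS X S ∧
      ∀ P : Finset ℕ, P ⊆ PW X S ps → 1 / K ≤ BE P → ∀ r : ℕ, ∀ T : ℝ, |T| ≤ K →
        T + δ ≤ (1 / BE P) * ∑ i ∈ I, c i *
          ((VQ q (∏ p ∈ P, p) r (Yc (B i) (c i) (Real.log X)) : ℝ) / (Real.log X) ^ B i) →
        κ * (X / ((∏ p ∈ P, p : ℕ) * Real.log X)) ≤
          ((rowset X (fun n => T ≤ ∑ i ∈ I, c i * densQ q (B i) n)).card : ℝ) := by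
  classical
  set C : ℝ := ∑ i ∈ I, |c i| + 1 with hC
  have hC1 : 1 ≤ C := by
    have : 0 ≤ ∑ i ∈ I, |c i| := Finset.sum_nonneg fun i _ => abs_nonneg _
    linarith
  set ε : ℝ := min (1 / 8) (δ / (64 * K * C)) with hε
  have hε0 : 0 < ε := by positivity
  have hε1 : ε ≤ 1 / 8 := min_le_left _ _
  have hε2 : 64 * K * C * ε ≤ δ := by
    have : ε ≤ δ / (64 * K * C) := min_le_right _ _
    rw [le_div_iff₀ (by positivity)] at this
    linarith
  obtain ⟨A₀, hA₀⟩ : ∃ A : ℕ, ∀ i ∈ I, B i + 1 ≤ A := by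
    obtain ⟨A, hA⟩ := exists_nat_ge (∑ i ∈ I, |B i| + 1)
    refine ⟨A, fun i hi => ?_⟩
    have h1 : |B i| ≤ ∑ i ∈ I, |B i| := Finset.single_le_sum (f := fun i => |B i|) (fun i _ => abs_nonneg _) hi
    have h2 := le_abs_self (B i)
    linarith
  set A : ℕ := A₀ * D + 1 with hAdef
  obtain ⟨X1, hX1⟩ := rows_each A (ε / 2) (by positivity) (by linarith) Z
  have hlog : Tendsto Real.log atTop atTop := Real.tendsto_log_atTop
  have ev1 : ∀ᶠ L : ℝ in atTop, ∀ i ∈ I, |ac (B i) (c i) L * L ^ B i - 1| ≤ ε := by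
    rw [Filter.eventually_all_finset]
    intro i _
    have h1 := (ac_lim (B i) (c i)).eventually (Metric.ball_mem_nhds (1 : ℝ) hε0)
    filter_upwards [h1] with L hL
    have h2 := (Metric.mem_ball.1 hL).le
    rwa [Real.dist_eq] at h2
  have ev2 : ∀ᶠ L : ℝ in atTop, ∀ i ∈ I, (Yc (B i) (c i) L : ℝ) ≤ 2 * L ^ B i := by
    rw [Filter.eventually_all_finset]
    exact fun i hi => Yc_ev (B i) (c i) (hB i hi)
  have ev3 : ∀ᶠ L : ℝ in atTop, ∀ i ∈ I, ∀ t, 1 ≤ t → t ≤ Yc (B i) (c i) L → (q t : ℝ) ≤ L ^ A := by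
    rw [Filter.eventually_all_finset]
    intro i hi
    filter_upwards [Yc_le_pow (B i) (c i) (hB i hi) A₀ (hA₀ i hi), eventually_ge_atTop (D : ℝ),
      eventually_ge_atTop (1 : ℝ)] with L h1 h2 h3
    intro t ht1 ht2
    have h4 : (t : ℝ) ≤ L ^ A₀ := by
      have : (t : ℝ) ≤ (Yc (B i) (c i) L : ℕ) := by exact_mod_cast ht2
      linarith
    calc (q t : ℝ) ≤ D * (t : ℝ) ^ D := by exact_mod_cast hqD t ht1
      _ ≤ L * (L ^ A₀) ^ D := by gcongr
      _ = L ^ A := by rw [hAdef, pow_succ, pow_mul]; ring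
  have ev4 : ∀ᶠ L : ℝ in atTop, ∀ i ∈ I, 80 / ε ≤ L ^ B i := by
    rw [Filter.eventually_all_finset]
    exact fun i hi => (tendsto_rpow_atTop (hB i hi)).eventually_ge_atTop _
  have ev5 : ∀ᶠ X : ℝ in atTop, (Real.log X) ^ A ≤ X := by
    have h1 := (Real.isLittleO_pow_log_id_atTop (n := A)).bound (show (0 : ℝ) < 1 by norm_num)
    filter_upwards [h1, eventually_ge_atTop (1 : ℝ)] with X h2 h3
    rwa [Real.norm_of_nonneg (pow_nonneg (Real.log_nonneg h3) A), id, Real.norm_of_nonneg (by linarith),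
      one_mul] at h2
  have hev := (((hlog.eventually ev1).and (hlog.eventually ev2)).and ((hlog.eventually ev3).and
    (hlog.eventually ev4))).and ((ev5.and (eventually_ge_atTop X1)).and
    ((eventually_ge_atTop (40 : ℝ)).and (hlog.eventually_ge_atTop (2 : ℝ))))
  obtain ⟨X0, hX0⟩ := eventually_atTop.1 hev
  refine ⟨δ / (320 * (4 * C + K)), by positivity, X0, fun X hX => ?_⟩
  obtain ⟨⟨⟨g1, g2⟩, g3, g4⟩, ⟨g5, g6⟩, g7, g8⟩ := hX0 X hX
  obtain ⟨ps, S, hps, hS, hr⟩ := hX1 X g6
  refine ⟨ps, S, hps, hS, fun P hPW hBE r T hTK hT => ?_⟩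
  set L := Real.log X with hL
  have hX0' : 0 < X := by linarith
  have hL0 : 0 < L := by linarith
  have hPp : ∀ p ∈ P, p.Prime := fun p hp => (mem_PW.1 (hPW hp)).2.1
  set W := ∏ p ∈ P, p with hW
  have hW0 : 0 < W := Finset.prod_pos fun p hp => (hPp p hp).pos
  have hWr : (0 : ℝ) < W := by exact_mod_cast hW0
  set b := BE P with hb
  have hb0 : 0 < b := BE_pos hPp
  have hφ : (W.totient : ℝ) = W * b := totient_prod _ hPp
  have hM1 := MPhi_ge X g7
  set M := MPhi X with hM
  have hM0 : 0 < M := by linarith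
  have hMW : 0 < M / W := by positivity
  have hMφ : M / W.totient = (M / W) * (1 / b) := by
    rw [hφ]; field_simp
  have hib0 : 0 < 1 / b := by positivity
  have hibK : 1 / b ≤ K := by
    rw [div_le_iff₀ (by linarith)] at hBE
    rw [div_le_iff₀ hb0]
    linarith
  -- abbreviations
  set Y : ι → ℕ := fun i => Yc (B i) (c i) L with hY
  set a : ι → ℝ := fun i => ac (B i) (c i) L with ha
  set V : ι → ℝ := fun i => (VQ q W r (Y i) : ℝ) with hV
  have ha0 : ∀ i, 0 < a i := fun i => ac_pos _ _ _ hL0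
  have hLB : ∀ i, 0 < L ^ B i := fun i => Real.rpow_pos_of_pos hL0 _
  have hV0 : ∀ i, 0 ≤ V i := fun i => Nat.cast_nonneg _
  have hVY : ∀ i, V i ≤ Y i := fun i => by
    simp only [hV]
    exact_mod_cast VQ_le q W r (Y i)
  -- the sums over the rows
  have hG0 : 0 < (M / W) * (1 / b) := by positivity
  have hrow : ∀ i ∈ I, |∑ n ∈ Icc 1 ⌊3 * X⌋₊, nu X W r n * thq q n (Y i) - V i * ((M / W) * (1 / b))| ≤
      (ε / 2 * Y i) * ((M / W) * (1 / b)) := by
    intro i hi
    obtain ⟨r1, -, -⟩ := hr P hPW r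
    have e1 : ∑ n ∈ Icc 1 ⌊3 * X⌋₊, nu X W r n * thq q n (Y i) =
        ∑ t ∈ Icc 1 (Y i), ∑ n ∈ Icc 1 ⌊3 * X⌋₊, nu X W r n * th (n + q t) := by
      unfold thq
      simp only [Finset.mul_sum]
      rw [Finset.sum_comm]
    have e2 : V i * ((M / W) * (1 / b)) =
        ∑ t ∈ Icc 1 (Y i), (if (r + q t).Coprime W then M / W.totient else 0) := by
      simp only [hV]
      unfold VQ
      rw [← Finset.sum_filter, Finset.sum_const, nsmul_eq_mul, hMφ]
    rw [e1, e2, ← Finset.sum_sub_distrib]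
    refine (Finset.abs_sum_le_sum_abs _ _).trans ?_
    have e3 : ∀ t ∈ Icc 1 (Y i), |∑ n ∈ Icc 1 ⌊3 * X⌋₊, nu X W r n * th (n + q t) -
        (if (r + q t).Coprime W then M / W.totient else 0)| ≤ ε / 2 * ((M / W) * (1 / b)) := by
      intro t ht
      rw [Finset.mem_Icc] at ht
      have := r1 (q t) (hq1 t ht.1) (g3 i hi t ht.1 ht.2)
      rw [← hMφ]
      exact this
    refine (Finset.sum_le_sum e3).trans ?_
    rw [Finset.sum_const, Nat.card_Icc, Nat.add_sub_cancel, nsmul_eq_mul]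
    apply le_of_eq
    ring
  obtain ⟨-, r3, r4⟩ := hr P hPW r
  set N := ∑ n ∈ Icc 1 ⌊3 * X⌋₊, nu X W r n with hN
  set F : ℕ → ℝ := fun n => ∑ i ∈ I, c i * (a i * thq q n (Y i)) with hF
  -- the mean of F
  have hmean : (M / W) * (T + δ / 2) ≤ ∑ n ∈ Icc 1 ⌊3 * X⌋₊, nu X W r n * F n := by
    have e1 : ∑ n ∈ Icc 1 ⌊3 * X⌋₊, nu X W r n * F n =
        ∑ i ∈ I, c i * (a i * ∑ n ∈ Icc 1 ⌊3 * X⌋₊, nu X W r n * thq q n (Y i)) := by
      simp only [hF, Finset.mul_sum]
      rw [Finset.sum_comm]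
      refine Finset.sum_congr rfl fun i _ => Finset.sum_congr rfl fun n _ => ?_
      ring
    have e2 : ∀ i ∈ I, |c i * (a i * ∑ n ∈ Icc 1 ⌊3 * X⌋₊, nu X W r n * thq q n (Y i)) -
        ((M / W) * (1 / b)) * (c i * (V i / L ^ B i))| ≤ |c i| * (4 * ε) * ((M / W) * (1 / b)) := by
      intro i hi
      have f1 : c i * (a i * ∑ n ∈ Icc 1 ⌊3 * X⌋₊, nu X W r n * thq q n (Y i)) -
          ((M / W) * (1 / b)) * (c i * (V i / L ^ B i)) =
          c i * (a i * (∑ n ∈ Icc 1 ⌊3 * X⌋₊, nu X W r n * thq q n (Y i) - V i * ((M / W) * (1 / b))) +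
            (a i * L ^ B i - 1) * (V i / L ^ B i) * ((M / W) * (1 / b))) := by
        have := (hLB i).ne'
        field_simp
        ring
      rw [f1, abs_mul, mul_assoc (|c i|)]
      apply mul_le_mul_of_nonneg_left _ (abs_nonneg _)
      have hv2 : V i / L ^ B i ≤ 2 := by
        rw [div_le_iff₀ (hLB i)]
        exact (hVY i).trans (g2 i hi)
      have hv0 : 0 ≤ V i / L ^ B i := div_nonneg (hV0 i) (hLB i).le
      have haL : a i * L ^ B i ≤ 1 + ε := by
        have := (abs_le.1 (g1 i hi)).2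
        linarith
      have haY : a i * Y i ≤ 9 / 4 := by
        calc a i * Y i ≤ a i * (2 * L ^ B i) := mul_le_mul_of_nonneg_left (g2 i hi) (ha0 i).le
          _ = 2 * (a i * L ^ B i) := by ring
          _ ≤ 9 / 4 := by linarith
      have hG : 0 < (M / W) * (1 / b) := by positivity
      calc |a i * (∑ n ∈ Icc 1 ⌊3 * X⌋₊, nu X W r n * thq q n (Y i) - V i * ((M / W) * (1 / b))) +
            (a i * L ^ B i - 1) * (V i / L ^ B i) * ((M / W) * (1 / b))|
          ≤ |a i * (∑ n ∈ Icc 1 ⌊3 * X⌋₊, nu X W r n * thq q n (Y i) - V i * ((M / W) * (1 / b)))| +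
            |(a i * L ^ B i - 1) * (V i / L ^ B i) * ((M / W) * (1 / b))| := abs_add_le _ _
        _ ≤ a i * ((ε / 2 * Y i) * ((M / W) * (1 / b))) + ε * 2 * ((M / W) * (1 / b)) := by
            apply add_le_add
            · rw [abs_mul, abs_of_pos (ha0 i)]
              exact mul_le_mul_of_nonneg_left (hrow i hi) (ha0 i).le
            · rw [abs_mul, abs_mul, abs_of_pos hG, abs_of_nonneg hv0]
              apply mul_le_mul_of_nonneg_right _ hG.le
              exact mul_le_mul (g1 i hi) hv2 hv0 hε0.le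
        _ = (ε / 2 * (a i * Y i) + 2 * ε) * ((M / W) * (1 / b)) := by ring
        _ ≤ 4 * ε * ((M / W) * (1 / b)) := by
            apply mul_le_mul_of_nonneg_right _ hG.le
            nlinarith
    have e3 : |∑ i ∈ I, c i * (a i * ∑ n ∈ Icc 1 ⌊3 * X⌋₊, nu X W r n * thq q n (Y i)) -
        ((M / W) * (1 / b)) * ∑ i ∈ I, c i * (V i / L ^ B i)| ≤ C * (4 * ε) * ((M / W) * (1 / b)) := by
      rw [Finset.mul_sum, ← Finset.sum_sub_distrib]
      refine (Finset.abs_sum_le_sum_abs _ _).trans ((Finset.sum_le_sum e2).trans ?_)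
      rw [← Finset.sum_mul, ← Finset.sum_mul]
      apply mul_le_mul_of_nonneg_right _ (by positivity)
      apply mul_le_mul_of_nonneg_right _ (by positivity)
      rw [hC]; linarith
    have e4 := (abs_le.1 e3).1
    have e5 : (M / W) * (T + δ) ≤ ((M / W) * (1 / b)) * ∑ i ∈ I, c i * (V i / L ^ B i) := by
      rw [mul_assoc]
      exact mul_le_mul_of_nonneg_left hT hMW.le
    have e6 : C * (4 * ε) * ((M / W) * (1 / b)) ≤ (M / W) * (δ / 16) := by
      have : C * (4 * ε) * (1 / b) ≤ δ / 16 := by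
        calc C * (4 * ε) * (1 / b) ≤ C * (4 * ε) * K := by gcongr
          _ = (64 * K * C * ε) / 16 := by ring
          _ ≤ δ / 16 := by gcongr
      calc C * (4 * ε) * ((M / W) * (1 / b)) = (M / W) * (C * (4 * ε) * (1 / b)) := by ring
        _ ≤ _ := mul_le_mul_of_nonneg_left this hMW.le
    rw [e1]
    have e7 : (M / W) * (T + δ / 2) = (M / W) * (T + δ) - (M / W) * (δ / 2) := by ring
    have e8 : (M / W) * (δ / 16) ≤ (M / W) * (δ / 2) := mul_le_mul_of_nonneg_left (by linarith) hMW.le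
    linarith
  -- the weights
  have hTN : T * N ≤ (M / W) * (T + δ / 4) := by
    have hTa := abs_le.1 hTK
    have h1 : |N - M / W| ≤ ε * (M / W) := by
      rw [abs_le]
      constructor
      · nlinarith
      · nlinarith
    have h2 : T * N = T * (M / W) + T * (N - M / W) := by ring
    have h3 : T * (N - M / W) ≤ K * (ε * (M / W)) := by
      calc T * (N - M / W) ≤ |T * (N - M / W)| := le_abs_self _
        _ = |T| * |N - M / W| := abs_mul _ _
        _ ≤ K * (ε * (M / W)) := mul_le_mul hTK h1 (abs_nonneg _) (by linarith)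
    have h4 : K * ε ≤ δ / 4 := by
      have h5 : 64 * K * ε ≤ 64 * K * C * ε := by
        have : 64 * K * ε * 1 ≤ 64 * K * ε * C := mul_le_mul_of_nonneg_left hC1 (by positivity)
        linarith
      have h6 : 0 ≤ K * ε := by positivity
      linarith
    rw [h2]
    calc T * (M / W) + T * (N - M / W) ≤ T * (M / W) + K * (ε * (M / W)) := by linarith
      _ = T * (M / W) + (K * ε) * (M / W) := by ring
      _ ≤ T * (M / W) + (δ / 4) * (M / W) := by gcongr
      _ = _ := by ring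
  have hdiff : (M / W) * (δ / 4) ≤ ∑ n ∈ Icc 1 ⌊3 * X⌋₊, nu X W r n * (F n - T) := by
    have : ∑ n ∈ Icc 1 ⌊3 * X⌋₊, nu X W r n * (F n - T) =
        ∑ n ∈ Icc 1 ⌊3 * X⌋₊, nu X W r n * F n - T * N := by
      rw [hN, Finset.mul_sum, ← Finset.sum_sub_distrib]
      exact Finset.sum_congr rfl fun n _ => by ring
    rw [this]
    have e7 : (M / W) * (δ / 4) = (M / W) * (T + δ / 2) - (M / W) * (T + δ / 4) := by ring
    linarith
  rw [rowset_sum X hX0' W r (fun n => T ≤ F n) (fun n => F n - T)] at hdiff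
  have hneg : ∑ n ∈ rowset X (fun n => ¬ T ≤ F n), nu X W r n * (F n - T) ≤ 0 := by
    apply Finset.sum_nonpos
    intro n hn
    have h1 := (mem_rowset.1 hn).2.2.2
    apply mul_nonpos_of_nonneg_of_nonpos (nu_nonneg _ _ _ _)
    linarith [not_le.1 h1]
  have hbound : ∀ n ∈ rowset X (fun n => T ≤ F n), nu X W r n * (F n - T) ≤ (4 * C + K) * (2 * L) := by
    intro n hn
    obtain ⟨-, m2, m3, m4⟩ := mem_rowset.1 hn
    have hFT : 0 ≤ F n - T := by
      have : T ≤ F n := m4
      linarith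
    have hnu1 : nu X W r n ≤ 1 := by
      unfold nu
      split_ifs
      · exact Phi_le_one _
      · norm_num
    have hth : ∀ i ∈ I, thq q n (Y i) ≤ Y i * (2 * L) := by
      intro i hi
      unfold thq
      calc ∑ t ∈ Icc 1 (Y i), th (n + q t) ≤ ∑ _t ∈ Icc 1 (Y i), 2 * L := by
            apply Finset.sum_le_sum
            intro t hh
            unfold th
            split_ifs
            · rw [Finset.mem_Icc] at hh
              have hhY : (q t : ℝ) ≤ X := (g3 i hi t hh.1 hh.2).trans g5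
              have h1 : Real.log ((n + q t : ℕ) : ℝ) ≤ Real.log (4 * X) := by
                apply Real.log_le_log
                · have : (0 : ℝ) < n := by linarith
                  push_cast
                  positivity
                · push_cast
                  linarith
              refine h1.trans ?_
              rw [Real.log_mul (by norm_num) hX0'.ne', ← hL]
              have : Real.log 4 ≤ 2 := by
                rw [show (4 : ℝ) = 2 ^ 2 by norm_num, Real.log_pow]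
                have := Real.log_two_lt_d9
                push_cast; linarith
              linarith
            · linarith
        _ = Y i * (2 * L) := by
            rw [Finset.sum_const, Nat.card_Icc, nsmul_eq_mul]
            simp
    have hF1 : F n ≤ C * (4 * (2 * L)) := by
      have h1 : F n ≤ ∑ i ∈ I, |c i| * (4 * (2 * L)) := by
        simp only [hF]
        apply Finset.sum_le_sum
        intro i hi
        have h2 : a i * thq q n (Y i) ≤ 4 * (2 * L) := by
          have h3 : a i * (Y i : ℝ) ≤ 4 := by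
            have haL : a i * L ^ B i ≤ 1 + ε := by
              have := (abs_le.1 (g1 i hi)).2
              linarith
            calc a i * (Y i : ℝ) ≤ a i * (2 * L ^ B i) := mul_le_mul_of_nonneg_left (g2 i hi) (ha0 i).le
              _ = 2 * (a i * L ^ B i) := by ring
              _ ≤ 4 := by linarith
          calc a i * thq q n (Y i) ≤ a i * (Y i * (2 * L)) := mul_le_mul_of_nonneg_left (hth i hi) (ha0 i).le
            _ = (a i * Y i) * (2 * L) := by ring
            _ ≤ 4 * (2 * L) := mul_le_mul_of_nonneg_right h3 (by linarith)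
        have h4 : 0 ≤ a i * thq q n (Y i) := mul_nonneg (ha0 i).le (thq_nonneg _ _ _)
        calc c i * (a i * thq q n (Y i)) ≤ |c i| * (a i * thq q n (Y i)) :=
              mul_le_mul_of_nonneg_right (le_abs_self _) h4
          _ ≤ |c i| * (4 * (2 * L)) := mul_le_mul_of_nonneg_left h2 (abs_nonneg _)
      refine h1.trans ?_
      rw [← Finset.sum_mul]
      apply mul_le_mul_of_nonneg_right _ (by positivity)
      rw [hC]; linarith
    have hT1 : -T ≤ K * (2 * L) := by
      have h1 : -T ≤ K := (neg_le_abs T).trans hTK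
      have h2 : K * 1 ≤ K * (2 * L) := mul_le_mul_of_nonneg_left (by linarith) (by linarith)
      linarith
    calc nu X W r n * (F n - T) ≤ 1 * (F n - T) := mul_le_mul_of_nonneg_right hnu1 hFT
      _ ≤ (4 * C + K) * (2 * L) := by linarith
  have hcard1 : (M / W) * (δ / 4) ≤ ((rowset X (fun n => T ≤ F n)).card : ℝ) * ((4 * C + K) * (2 * L)) := by
    have h1 : ∑ n ∈ rowset X (fun n => T ≤ F n), nu X W r n * (F n - T) ≤
        ((rowset X (fun n => T ≤ F n)).card : ℝ) * ((4 * C + K) * (2 * L)) := by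
      rw [← nsmul_eq_mul]
      exact Finset.sum_le_card_nsmul _ _ _ hbound
    linarith
  have hsub : rowset X (fun n => T ≤ F n) ⊆ rowset X (fun n => T ≤ ∑ i ∈ I, c i * densQ q (B i) n) := by
    intro n hn
    obtain ⟨m1, m2, m3, m4⟩ := mem_rowset.1 hn
    refine mem_rowset.2 ⟨m1, m2, m3, ?_⟩
    have h1 : T ≤ F n := m4
    refine h1.trans ?_
    simp only [hF]
    apply Finset.sum_le_sum
    intro i hi
    exact point q (B i) (c i) (hB i hi) X g7 g8 (fun t h1 h2 => (g3 i hi t h1 h2).trans g5) n m2 m3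
  have hcard2 : ((rowset X (fun n => T ≤ F n)).card : ℝ) ≤
      ((rowset X (fun n => T ≤ ∑ i ∈ I, c i * densQ q (B i) n)).card : ℝ) := by
    exact_mod_cast Finset.card_le_card hsub
  refine le_trans ?_ hcard2
  have hCK : 0 < 4 * C + K := by positivity
  have h1 : X / 20 / W * (δ / 4) ≤ ((rowset X (fun n => T ≤ F n)).card : ℝ) * ((4 * C + K) * (2 * L)) := by
    refine le_trans ?_ hcard1
    gcongr
  have h2 : δ / (320 * (4 * C + K)) * (X / (W * L)) = (X / 20 / W * (δ / 4)) / ((4 * C + K) * (2 * L)) / 2 := by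
    field_simp
    ring
  rw [h2]
  have h3 : (X / 20 / W * (δ / 4)) / ((4 * C + K) * (2 * L)) ≤ ((rowset X (fun n => T ≤ F n)).card : ℝ) := by
    rw [div_le_iff₀ (by positivity)]
    exact h1
  have h4 : 0 ≤ (X / 20 / W * (δ / 4)) / ((4 * C + K) * (2 * L)) := by positivity
  linarith

end Pool.Agent.X30.QT
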