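import Mathlib
import Pool.Agent.X30.Quad2

/-! # Comparison of the scales along quadratic polynomials and powers (helper30) -/

set_option autoImplicit false

open Finset Filter Topology
open Pool.Agent.H378R2 Pool.Agent.H510R2.Maier Pool.Agent.X30.MR Pool.Agent.X30.MG Pool.Agent.X30.MH
open Pool.Agent.X30.MI Pool.Agent.X30.MT Pool.Agent.X30.MV Pool.Agent.X30.MWW Pool.Agent.X30.QT

namespace Pool.Agent.X30.QW

/-- one scale -/
theorem one_scaleQ (μ β : ℕ) (hμ : 1 ≤ μ) (a b B c : ℝ) (k : ℕ) (ha : 0 < a) (hab : a < b) (hb : b < 1) (hB : 0 < B) (hk1 : k * b < B)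
    (hk2 : B < (k + 1) * a) (hl : 2 * Real.log (b / a) ≤ 1) (η : ℝ) (hη : 0 < η) :
    ∀ᶠ X : ℝ in atTop, ∀ (S : Finset ℕ) (ps : ℕ), GoodS X S →
      |(((Icc 1 (Yc B c (Real.log X))).filter (fun t => ∀ p ∈ PR X S ps ⌊(Real.log X) ^ a⌋₊ ⌊(Real.log X) ^ b⌋₊,
          ¬ p ∣ μ * t + β)).card : ℝ) /
          (Real.log X) ^ B -
        Pool.Agent.X30.MF.E (fun p : ℕ => 1 / (p : ℝ))
          (PR X S ps ⌊(Real.log X) ^ a⌋₊ ⌊(Real.log X) ^ b⌋₊) k| ≤ η := by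
  classical
  have hlog : Tendsto Real.log atTop atTop := Real.tendsto_log_atTop
  have hb0 : 0 < b := ha.trans hab
  have e1 : ∀ᶠ L : ℝ in atTop, |(Yc B c L : ℝ) / L ^ B - 1| ≤ η / 4 := by
    have h1 := (Yc_lim B c hB).eventually (Metric.ball_mem_nhds (1 : ℝ) (show 0 < η / 4 by positivity))
    filter_upwards [h1] with L hL
    have h2 := (Metric.mem_ball.1 hL).le
    rwa [Real.dist_eq] at h2
  have e2 : ∀ᶠ L : ℝ in atTop, (Yc B c L : ℝ) ≤ 2 * L ^ B := Yc_ev B c hB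
  have e3 : ∀ᶠ L : ℝ in atTop, μ * (2 * L ^ B) + β ≤ L ^ ((k + 1) * a) := by
    have h1 := (tendsto_rpow_atTop (show 0 < (k + 1) * a - B by linarith)).eventually_ge_atTop (2 * μ + β : ℝ)
    filter_upwards [h1, eventually_ge_atTop (1 : ℝ)] with L h2 hL1
    have hL0 : 0 < L := by linarith
    have h5 : L ^ ((k + 1) * a) = L ^ B * L ^ ((k + 1) * a - B) := by
      rw [← Real.rpow_add hL0]; congr 1; ring
    rw [h5]
    have h6 : 1 ≤ L ^ B := Real.one_le_rpow hL1 hB.le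
    have h7 : (β : ℝ) ≤ L ^ B * β := by
      have : (0 : ℝ) ≤ β := Nat.cast_nonneg _
      nlinarith
    calc μ * (2 * L ^ B) + β ≤ L ^ B * (2 * μ + β) := by linarith
      _ ≤ _ := by gcongr
  have e6 : ∀ᶠ L : ℝ in atTop, (μ : ℝ) ≤ L ^ a := (tendsto_rpow_atTop ha).eventually_ge_atTop _
  have e4 : ∀ᶠ L : ℝ in atTop, L ^ (k * b) ≤ η / 4 * L ^ B := by
    have h1 := (tendsto_rpow_atTop (show 0 < B - k * b by linarith)).eventually_ge_atTop (4 / η)
    filter_upwards [h1, eventually_gt_atTop (0 : ℝ)] with L h2 hL0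
    have h5 : L ^ B = L ^ (k * b) * L ^ (B - k * b) := by
      rw [← Real.rpow_add hL0]; congr 1; ring
    rw [h5]
    have h6 : 0 < L ^ (k * b) := Real.rpow_pos_of_pos hL0 _
    calc L ^ (k * b) = η / 4 * (L ^ (k * b) * (4 / η)) := by field_simp
      _ ≤ _ := by gcongr
  filter_upwards [hlog.eventually e1, hlog.eventually e2, hlog.eventually e3, hlog.eventually e4,
    block_sum a b ha hab hb, hlog.eventually_ge_atTop (1 : ℝ), hlog.eventually e6] with X g1 g2 g3 g4 g5 g6 g7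
  intro S ps hS
  obtain ⟨-, s2⟩ := g5 S ps hS
  set L := Real.log X with hL
  have hL0 : 0 < L := by linarith
  set a' := ⌊L ^ a⌋₊ with ha'
  set b' := ⌊L ^ b⌋₊ with hb'
  set P := PR X S ps a' b' with hP
  set Y := Yc B c L with hY
  have hb1 : 1 ≤ b' := by
    rw [hb']
    apply Nat.le_floor
    rw [Nat.cast_one]
    exact Real.one_le_rpow g6 hb0.le
  have hPp : ∀ p ∈ P, p.Prime := fun p hp => (mem_PW.1 (Finset.mem_filter.1 hp).1).2.1
  have hPa : ∀ p ∈ P, a' < p := fun p hp => (Finset.mem_filter.1 hp).2.1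
  have hPb : ∀ p ∈ P, p ≤ b' := fun p hp => (Finset.mem_filter.1 hp).2.2
  have hPY : ∀ p ∈ P, L ^ a < p := by
    intro p hp
    have hay : L ^ a < (a' : ℝ) + 1 := Nat.lt_floor_add_one _
    have h1 : (a' : ℝ) + 1 ≤ p := by exact_mod_cast hPa p hp
    linarith
  have hx0 : ∀ p ∈ P, (0 : ℝ) ≤ 1 / (p : ℝ) := fun p _ => by positivity
  have hx1 : ∀ p ∈ P, (1 : ℝ) / (p : ℝ) ≤ 1 := by
    intro p hp
    have : (1 : ℝ) ≤ p := by exact_mod_cast (hPp p hp).one_lt.le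
    rw [div_le_one (by linarith)]
    exact this
  have hprodk : ∀ s, s ⊆ P → s.card = k + 1 → μ * Y + β < ∏ p ∈ s, p := by
    intro s hs hsc
    have h1 : (L ^ a) ^ (k + 1) < ((∏ p ∈ s, p : ℕ) : ℝ) := by
      push_cast
      rw [← hsc, ← Finset.prod_const]
      apply Finset.prod_lt_prod_of_nonempty
      · intro p _
        exact Real.rpow_pos_of_pos hL0 _
      · intro p hp
        exact hPY p (hs hp)
      · rw [← Finset.card_pos, hsc]; omega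
    have h2 : (L ^ a) ^ (k + 1) = L ^ ((k + 1) * a) := by
      rw [← Real.rpow_natCast, ← Real.rpow_mul hL0.le]
      congr 1; push_cast; ring
    rw [h2] at h1
    have h4 : (μ : ℝ) * Y ≤ μ * (2 * L ^ B) := mul_le_mul_of_nonneg_left g2 (Nat.cast_nonneg _)
    have h3 : ((μ * Y + β : ℕ) : ℝ) < ((∏ p ∈ s, p : ℕ) : ℝ) := by
      push_cast at h1 ⊢
      linarith
    exact_mod_cast h3
  have hPμ : ∀ p ∈ P, ¬ p ∣ μ := by
    intro p hp hd
    have h1 := Nat.le_of_dvd hμ hd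
    have h2 := hPY p hp
    have h3 : (p : ℝ) ≤ μ := by exact_mod_cast h1
    linarith
  have hcnt := Pool.Agent.X30.QD.count_approx μ β hμ P hPp hPμ Y k b' hPb hb1 hprodk
  set V : ℝ := (((Icc 1 Y).filter (fun t => ∀ p ∈ P, ¬ p ∣ μ * t + β)).card : ℝ) with hV
  set E := Pool.Agent.X30.MF.E (fun p : ℕ => 1 / (p : ℝ)) P k with hE
  have hLB : 0 < L ^ B := Real.rpow_pos_of_pos hL0 _
  have hbk' : (b' : ℝ) ^ k ≤ η / 4 * L ^ B := by
    have h1 : (b' : ℝ) ≤ L ^ b := Nat.floor_le (Real.rpow_nonneg hL0.le _)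
    refine le_trans ?_ g4
    calc (b' : ℝ) ^ k ≤ (L ^ b) ^ k := pow_le_pow_left₀ (Nat.cast_nonneg _) h1 k
      _ = L ^ (k * b) := by rw [← Real.rpow_natCast, ← Real.rpow_mul hL0.le]; congr 1; ring
  have hFdef : Pool.Agent.X30.MF.F (fun p : ℕ => 1 / (p : ℝ)) P k = (-1) ^ k * (E - BE P) := rfl
  have hE2 : |E| ≤ 2 := by
    have h1 : 0 ≤ Pool.Agent.X30.MF.F (fun p : ℕ => 1 / (p : ℝ)) P k := Pool.Agent.X30.MF.F_nonneg _ P hx0 hx1 k
    have h2 : Pool.Agent.X30.MF.F (fun p : ℕ => 1 / (p : ℝ)) P k ≤ 1 := by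
      refine (F_upper _ P hx0 hx1 k).trans ?_
      apply pow_le_one₀ (Finset.sum_nonneg hx0)
      linarith
    have h3 : |E - BE P| ≤ 1 := by
      have h4 : |Pool.Agent.X30.MF.F (fun p : ℕ => 1 / (p : ℝ)) P k| = |E - BE P| := by
        rw [hFdef, abs_mul, abs_pow, abs_neg, abs_one, one_pow, one_mul]
      rw [← h4, abs_of_nonneg h1]
      exact h2
    have h5 : 0 ≤ BE P := (BE_pos hPp).le
    have h6 : BE P ≤ 1 := BE_le_one hPp
    rw [abs_le] at h3 ⊢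
    constructor <;> linarith
  have h1 : V / L ^ B - E = (V - Y * E) / L ^ B + ((Y : ℝ) / L ^ B - 1) * E := by
    field_simp
    ring
  rw [h1]
  refine (abs_add_le _ _).trans ?_
  have h2 : |(V - Y * E) / L ^ B| ≤ η / 4 := by
    rw [abs_div, abs_of_pos hLB, div_le_iff₀ hLB]
    exact hcnt.trans hbk'
  have h3 : |((Y : ℝ) / L ^ B - 1) * E| ≤ η / 4 * 2 := by
    rw [abs_mul]
    exact mul_le_mul g1 hE2 (abs_nonneg _) (by positivity)
  linarith



set_option maxHeartbeats 4000000 in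
theorem main3Q (q : ℕ → ℕ) (D μ β : ℕ) (hq1 : ∀ t, 1 ≤ t → 1 ≤ q t) (hqD : ∀ t, 1 ≤ t → q t ≤ D * t ^ D) (hμ : 1 ≤ μ)
    (hclass : ∀ P : Finset ℕ, (∀ p ∈ P, p.Prime) → (∀ p ∈ P, ¬ p ∣ μ) →
      ∃ r : ℕ, ∀ t : ℕ, 1 ≤ t → ((r + q t).Coprime (∏ p ∈ P, p) ↔ ∀ p ∈ P, ¬ p ∣ μ * t + β))
    {ι : Type*} (I : Finset ι) (B c : ι → ℝ) (hB : ∀ i ∈ I, 0 < B i)
    (hinj : ∀ i ∈ I, ∀ j ∈ I, i ≠ j → B i ≠ B j) (hc : ∃ i ∈ I, c i ≠ 0) (hsum : ∑ i ∈ I, c i = 0)
    (ε : ℝ) (hε : 0 < ε) : ∃ δ : ℝ, 0 < δ ∧ ∀ᶠ X : ℝ in atTop,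
      3 * X * Real.exp (-(Real.log (3 * X)) ^ ε) ≤
        (((Icc 1 ⌊3 * X⌋₊).filter (fun n : ℕ => δ ≤ ∑ i ∈ I, c i * densQ q (B i) n)).card : ℝ) := by
  classical
  -- restrict to the support of `c`
  set J := I.filter (fun i => c i ≠ 0) with hJ
  have hJI : J ⊆ I := Finset.filter_subset _ _
  have hJne : J.Nonempty := by
    obtain ⟨i, hi, h⟩ := hc
    exact ⟨i, Finset.mem_filter.2 ⟨hi, h⟩⟩
  have hJsum : ∀ f : ι → ℝ, ∑ i ∈ J, c i * f i = ∑ i ∈ I, c i * f i := by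
    intro f
    apply Finset.sum_subset hJI
    intro i hi hni
    have : c i = 0 := by
      by_contra h
      exact hni (Finset.mem_filter.2 ⟨hi, h⟩)
    rw [this, zero_mul]
  have hJsum0 : ∑ i ∈ J, c i = 0 := by
    have := hJsum (fun _ => 1)
    simp only [mul_one] at this
    rw [this, hsum]
  obtain ⟨i0, hi0, hmin'⟩ := Finset.exists_min_image J B hJne
  have hmin : ∀ i ∈ J, i ≠ i0 → B i0 < B i := fun i hi hne =>
    lt_of_le_of_ne (hmin' i hi) (hinj i0 (hJI hi0) i (hJI hi) (Ne.symm hne))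
  have hBJ : ∀ i ∈ J, 0 < B i := fun i hi => hB i (hJI hi)
  have hci0 : c i0 ≠ 0 := (Finset.mem_filter.1 hi0).2
  set par : ℕ := if 0 < c i0 then 0 else 1 with hpar
  set ε' : ℝ := min ε 1 with hε'
  have hε'0 : 0 < ε' := by positivity
  obtain ⟨a, k, ha0, haε, hkpar, hk, hk'⟩ := choose_scale J B i0 hi0 hBJ hmin ε' hε'0 par
  have hsign : c i0 * (-1) ^ (k i0) = |c i0| := by
    by_cases h : 0 < c i0
    · have h1 : par = 0 := by rw [hpar, if_pos h]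
      have h2 : Even (k i0) := by
        rw [Nat.even_iff]; rw [h1] at hkpar; simpa using hkpar
      rw [h2.neg_one_pow, mul_one, abs_of_pos h]
    · have h1 : par = 1 := by rw [hpar, if_neg h]
      have h2 : Odd (k i0) := by
        rw [Nat.odd_iff]; omega
      rw [h2.neg_one_pow, abs_of_neg (lt_of_le_of_ne (not_lt.1 h) hci0)]
      ring
  set m := k i0 with hm
  set C : ℝ := ∑ i ∈ J, |c i| with hC
  have hCi0 : |c i0| ≤ C := Finset.single_le_sum (f := fun i => |c i|) (fun i _ => abs_nonneg _) hi0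
  have hci0' : 0 < |c i0| := abs_pos.2 hci0
  have hC0 : 0 < C := lt_of_lt_of_le hci0' hCi0
  -- size of the block
  set G : ℝ := |c i0| * (1 / (4 * ((m : ℝ) + 1))) ^ (m + 1) / 2 with hG
  have hG0 : 0 < G := by positivity
  obtain ⟨b, hab, hbε, hkb, hlr⟩ := choose_right J B k a ha0 ε' (min (1 / 4) (G / (2 * C * 2 ^ (m + 2)))) haε
    (by positivity) (fun i hi => (hk i hi).1)
  have hb0 : 0 < b := ha0.trans hab
  set lr := Real.log (b / a) with hlrdef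
  have hlr0 : 0 < lr := Real.log_pos (by rw [one_lt_div ha0]; exact hab)
  have hlr1 : lr ≤ 1 / 4 := hlr.trans (min_le_left _ _)
  have hlr2 : 2 * (C * 2 ^ (m + 2)) * lr ≤ G := by
    have := hlr.trans (min_le_right _ _)
    rw [le_div_iff₀ (by positivity)] at this
    linarith
  set δ0 : ℝ := G * lr ^ (m + 1) / 2 with hδ0
  have hδ00 : 0 < δ0 := by positivity
  set K : ℝ := max 2 δ0 with hK
  obtain ⟨κ, hκ0, X1, hX1⟩ := transferQ J B c hBJ q D hq1 hqD K (δ0 / 4) (le_trans (by norm_num) (le_max_left _ _))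
    (by positivity) 1
  refine ⟨δ0 / 4, by positivity, ?_⟩
  have hlog : Tendsto Real.log atTop atTop := Real.tendsto_log_atTop
  have hb1 : b < 1 := hbε.trans_le (min_le_right _ _)
  have hbε1 : b < ε := hbε.trans_le (min_le_left _ _)
  set lam : ℝ := lr / (4 * (m + 1)) with hlam
  have hlam0 : 0 < lam := by positivity
  have hlam1 : lam ≤ 1 := by
    rw [hlam, div_le_one (by positivity)]
    have : (0 : ℝ) ≤ m := Nat.cast_nonneg _
    linarith
  have e1 : ∀ᶠ X : ℝ in atTop, ∀ i ∈ J, ∀ (S : Finset ℕ) (ps : ℕ), GoodS X S →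
      |(((Icc 1 (Yc (B i) (c i) (Real.log X))).filter (fun t => ∀ p ∈ PR X S ps ⌊(Real.log X) ^ a⌋₊ ⌊(Real.log X) ^ b⌋₊,
          ¬ p ∣ μ * t + β)).card : ℝ) /
          (Real.log X) ^ B i -
        Pool.Agent.X30.MF.E (fun p : ℕ => 1 / (p : ℝ))
          (PR X S ps ⌊(Real.log X) ^ a⌋₊ ⌊(Real.log X) ^ b⌋₊) (k i)| ≤ δ0 / (4 * C) := by
    rw [Filter.eventually_all_finset]
    intro i hi
    exact one_scaleQ μ β hμ a b (B i) (c i) (k i) ha0 hab hb1 (hBJ i hi) (hkb i hi) (hk i hi).2 (by linarith)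
      (δ0 / (4 * C)) (by positivity)
  have e2 := block_sum a b ha0 hab hb1
  have e3 := (tendsto_rpow_atTop ha0).eventually_ge_atTop (1 / lam)
  have e4 := growth b ε (κ / 1) hb0 hbε1 (by positivity) 1
  have e6 : ∀ᶠ L : ℝ in atTop, (μ : ℝ) ≤ L ^ a := (tendsto_rpow_atTop ha0).eventually_ge_atTop _
  filter_upwards [e1, e2, hlog.eventually e3, hlog.eventually e4, eventually_ge_atTop X1,
    hlog.eventually_ge_atTop (1 : ℝ), eventually_ge_atTop (1 : ℝ), hlog.eventually e6] with X g1 g2 g3 g4 g5 g6 g7 g8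
  obtain ⟨ps, S, hps, hS, htr⟩ := hX1 X g5
  obtain ⟨s1, s2⟩ := g2 S ps hS
  have hX0 : 0 < X := by linarith
  set L := Real.log X with hL
  have hL0 : 0 < L := by linarith
  set a' := ⌊L ^ a⌋₊ with ha'
  set b' := ⌊L ^ b⌋₊ with hb'
  set P := PR X S ps a' b' with hP
  have hPW : P ⊆ PW X S ps := Finset.filter_subset _ _
  have hPp : ∀ p ∈ P, p.Prime := fun p hp => (mem_PW.1 (hPW hp)).2.1
  have hPa : ∀ p ∈ P, a' < p := fun p hp => (Finset.mem_filter.1 hp).2.1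
  have hPb : ∀ p ∈ P, p ≤ b' := fun p hp => (Finset.mem_filter.1 hp).2.2
  have hPμ : ∀ p ∈ P, ¬ p ∣ μ := by
    intro p hp hd
    have h1 := Nat.le_of_dvd hμ hd
    have h2 : (a' : ℝ) + 1 ≤ p := by exact_mod_cast hPa p hp
    have hay : L ^ a < (a' : ℝ) + 1 := Nat.lt_floor_add_one _
    have h3 : (p : ℝ) ≤ μ := by exact_mod_cast h1
    linarith
  obtain ⟨r, hr⟩ := hclass P hPp hPμ
  have hVQ : ∀ Y : ℕ, VQ q (∏ p ∈ P, p) r Y = ((Icc 1 Y).filter (fun t => ∀ p ∈ P, ¬ p ∣ μ * t + β)).card := by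
    intro Y
    unfold VQ
    congr 1
    apply Finset.filter_congr
    intro t ht
    exact hr t (Finset.mem_Icc.1 ht).1
  have hx0 : ∀ p ∈ P, (0 : ℝ) ≤ 1 / (p : ℝ) := fun p _ => by positivity
  have hxm : ∀ p ∈ P, (1 : ℝ) / (p : ℝ) ≤ lam := by
    intro p hp
    have h1 : (a' : ℝ) + 1 ≤ p := by exact_mod_cast hPa p hp
    have hay : L ^ a < (a' : ℝ) + 1 := Nat.lt_floor_add_one _
    have h2 : 0 < 1 / lam := by positivity
    have h3 : 1 / lam ≤ p := by linarith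
    have hp0 : (0 : ℝ) < p := by linarith
    rw [div_le_iff₀ hp0]
    rw [div_le_iff₀ hlam0] at h3
    linarith
  have hx1 : ∀ p ∈ P, (1 : ℝ) / (p : ℝ) ≤ 1 := fun p hp => (hxm p hp).trans hlam1
  have hs0 : 0 ≤ ∑ p ∈ P, (1 : ℝ) / p := Finset.sum_nonneg hx0
  -- lower bound for the leading term
  have hF := Pool.Agent.X30.MF.F_lower (fun p : ℕ => 1 / (p : ℝ)) lam lam hlam0.le hlam1 hlam0.le m P hx0 hxm (by
    have : ((m : ℝ) + 1) * (lam + lam) = lr / 2 := by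
      rw [hlam]; field_simp; ring
    rw [this]
    exact s1)
  have hexp : lam / 2 ≤ 1 - Real.exp (-lam) := by
    have h1 := Real.add_one_le_exp lam
    have h2 : Real.exp (-lam) ≤ 1 / (1 + lam) := by
      rw [Real.exp_neg, ← one_div]
      apply one_div_le_one_div_of_le (by linarith) (by linarith)
    have h3 : lam / 2 ≤ 1 - 1 / (1 + lam) := by
      have h4 : 1 - 1 / (1 + lam) = lam / (1 + lam) := by field_simp; ring
      rw [h4, div_le_div_iff₀ (by norm_num) (by linarith)]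
      nlinarith
    linarith
  have hF0 : lam ^ (m + 1) / 2 ≤ Pool.Agent.X30.MF.F (fun p : ℕ => 1 / (p : ℝ)) P m := by
    refine le_trans ?_ hF
    calc lam ^ (m + 1) / 2 = lam ^ m * (lam / 2) := by ring
      _ ≤ lam ^ m * (1 - Real.exp (-lam)) := mul_le_mul_of_nonneg_left hexp (by positivity)
  have hlead : 2 * δ0 ≤ c i0 * ((-1) ^ m * Pool.Agent.X30.MF.F (fun p : ℕ => 1 / (p : ℝ)) P m) := by
    rw [← mul_assoc, hsign]
    have h1 : |c i0| * (lam ^ (m + 1) / 2) = 2 * δ0 := by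
      rw [hδ0, hG, hlam, div_pow, div_pow, one_pow]
      ring
    rw [← h1]
    exact mul_le_mul_of_nonneg_left hF0 hci0'.le
  have hother : ∀ i ∈ J.erase i0, -(|c i| * (2 * lr) ^ (m + 2)) ≤
      c i * ((-1) ^ k i * Pool.Agent.X30.MF.F (fun p : ℕ => 1 / (p : ℝ)) P (k i)) := by
    intro i hi
    obtain ⟨hne, hiJ⟩ := Finset.mem_erase.1 hi
    have h1 := F_upper (fun p : ℕ => 1 / (p : ℝ)) P hx0 hx1 (k i)
    have h2 := Pool.Agent.X30.MF.F_nonneg (fun p : ℕ => 1 / (p : ℝ)) P hx0 hx1 (k i)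
    have h3 : Pool.Agent.X30.MF.F (fun p : ℕ => 1 / (p : ℝ)) P (k i) ≤ (2 * lr) ^ (m + 2) := by
      refine h1.trans ?_
      calc (∑ p ∈ P, (1 : ℝ) / p) ^ (k i + 1) ≤ (2 * lr) ^ (k i + 1) := pow_le_pow_left₀ hs0 s2 _
        _ ≤ (2 * lr) ^ (m + 2) := by
            apply pow_le_pow_of_le_one (by positivity) (by linarith)
            have := hk' i hiJ hne
            omega
    have h4 : |c i * ((-1) ^ k i * Pool.Agent.X30.MF.F (fun p : ℕ => 1 / (p : ℝ)) P (k i))| ≤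
        |c i| * (2 * lr) ^ (m + 2) := by
      rw [abs_mul, abs_mul, abs_pow, abs_neg, abs_one, one_pow, one_mul, abs_of_nonneg h2]
      exact mul_le_mul_of_nonneg_left h3 (abs_nonneg _)
    exact (abs_le.1 h4).1
  have hEF : ∀ i, Pool.Agent.X30.MF.E (fun p : ℕ => 1 / (p : ℝ)) P (k i) =
      BE P + (-1) ^ k i * Pool.Agent.X30.MF.F (fun p : ℕ => 1 / (p : ℝ)) P (k i) := by
    intro i
    have h1 : Pool.Agent.X30.MF.F (fun p : ℕ => 1 / (p : ℝ)) P (k i) =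
      (-1) ^ k i * (Pool.Agent.X30.MF.E (fun p : ℕ => 1 / (p : ℝ)) P (k i) - BE P) := rfl
    rw [h1, ← mul_assoc, ← mul_pow]
    norm_num
  have hE : δ0 ≤ ∑ i ∈ J, c i * Pool.Agent.X30.MF.E (fun p : ℕ => 1 / (p : ℝ)) P (k i) := by
    have h1 : ∑ i ∈ J, c i * Pool.Agent.X30.MF.E (fun p : ℕ => 1 / (p : ℝ)) P (k i) =
        ∑ i ∈ J, c i * ((-1) ^ k i * Pool.Agent.X30.MF.F (fun p : ℕ => 1 / (p : ℝ)) P (k i)) := by
      have h2 : ∑ i ∈ J, c i * Pool.Agent.X30.MF.E (fun p : ℕ => 1 / (p : ℝ)) P (k i) =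
          (∑ i ∈ J, c i) * BE P +
          ∑ i ∈ J, c i * ((-1) ^ k i * Pool.Agent.X30.MF.F (fun p : ℕ => 1 / (p : ℝ)) P (k i)) := by
        rw [Finset.sum_mul, ← Finset.sum_add_distrib]
        refine Finset.sum_congr rfl fun i _ => ?_
        rw [hEF i]; ring
      rw [h2, hJsum0, zero_mul, zero_add]
    rw [h1, ← Finset.add_sum_erase J _ hi0]
    have h2 : -(C * (2 * lr) ^ (m + 2)) ≤
        ∑ i ∈ J.erase i0, c i * ((-1) ^ k i * Pool.Agent.X30.MF.F (fun p : ℕ => 1 / (p : ℝ)) P (k i)) := by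
      refine le_trans ?_ (Finset.sum_le_sum hother)
      rw [Finset.sum_neg_distrib, ← Finset.sum_mul]
      apply neg_le_neg
      apply mul_le_mul_of_nonneg_right _ (by positivity)
      exact Finset.sum_le_sum_of_subset_of_nonneg (Finset.erase_subset _ _) fun i _ _ => abs_nonneg _
    have h3 : C * (2 * lr) ^ (m + 2) ≤ δ0 := by
      calc C * (2 * lr) ^ (m + 2) = (2 * (C * 2 ^ (m + 2)) * lr) * lr ^ (m + 1) / 2 := by
            rw [mul_pow]; ring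
        _ ≤ G * lr ^ (m + 1) / 2 := by gcongr
        _ = δ0 := rfl
    linarith
  have hBE : 1 / 2 ≤ BE P := by
    have h1 := weier P (fun p => 1 / (p : ℝ)) (fun p hp => hx0 p hp) (fun p hp => hx1 p hp)
    have h2 : BE P = ∏ i ∈ P, (1 - 1 / (i : ℝ)) := rfl
    rw [h2]
    linarith
  have hBE1 : BE P ≤ 1 := BE_le_one hPp
  have hVsum : 3 / 4 * δ0 ≤ ∑ i ∈ J, c i *
      ((((Icc 1 (Yc (B i) (c i) L)).filter (fun t => ∀ p ∈ P, ¬ p ∣ μ * t + β)).card : ℝ) / L ^ B i) := by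
    have h1 : ∑ i ∈ J, c i * Pool.Agent.X30.MF.E (fun p : ℕ => 1 / (p : ℝ)) P (k i) - δ0 / 4 ≤
        ∑ i ∈ J, c i * ((((Icc 1 (Yc (B i) (c i) L)).filter (fun t => ∀ p ∈ P, ¬ p ∣ μ * t + β)).card : ℝ) / L ^ B i) := by
      have h2 : ∀ i ∈ J, c i * Pool.Agent.X30.MF.E (fun p : ℕ => 1 / (p : ℝ)) P (k i) - |c i| * (δ0 / (4 * C)) ≤
          c i * ((((Icc 1 (Yc (B i) (c i) L)).filter (fun t => ∀ p ∈ P, ¬ p ∣ μ * t + β)).card : ℝ) / L ^ B i) := by
        intro i hi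
        have h3 := g1 i hi S ps hS
        have h4 : |c i * ((((Icc 1 (Yc (B i) (c i) L)).filter (fun t => ∀ p ∈ P, ¬ p ∣ μ * t + β)).card : ℝ) / L ^ B i -
            Pool.Agent.X30.MF.E (fun p : ℕ => 1 / (p : ℝ)) P (k i))| ≤ |c i| * (δ0 / (4 * C)) := by
          rw [abs_mul]
          exact mul_le_mul_of_nonneg_left h3 (abs_nonneg _)
        have h5 := (abs_le.1 h4).1
        rw [mul_sub] at h5
        linarith
      have h6 := Finset.sum_le_sum h2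
      rw [Finset.sum_sub_distrib, ← Finset.sum_mul] at h6
      have h7 : C * (δ0 / (4 * C)) = δ0 / 4 := by field_simp
      rw [← hC, h7] at h6
      exact h6
    linarith
  have hT := htr P hPW (by
      refine le_trans ?_ hBE
      exact one_div_le_one_div_of_le (by norm_num) (le_max_left _ _)) r (δ0 / 4) (by
      rw [abs_of_pos (by positivity)]
      refine le_trans ?_ (le_max_right 2 δ0)
      linarith) (by
      have h1 : 1 ≤ 1 / BE P := by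
        rw [le_div_iff₀ (by linarith)]
        linarith
      simp_rw [hVQ]
      calc δ0 / 4 + δ0 / 4 ≤ 1 * (3 / 4 * δ0) := by linarith
        _ ≤ (1 / BE P) * _ := mul_le_mul h1 hVsum (by positivity) (by positivity))
  have hsub : rowset X (fun n => δ0 / 4 ≤ ∑ i ∈ J, c i * densQ q (B i) n) ⊆
      (Icc 1 ⌊3 * X⌋₊).filter (fun n : ℕ => δ0 / 4 ≤ ∑ i ∈ I, c i * densQ q (B i) n) := by
    intro n hn
    obtain ⟨m1, m2, m3, m4⟩ := mem_rowset.1 hn
    refine Finset.mem_filter.2 ⟨Finset.mem_Icc.2 m1, ?_⟩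
    rw [← hJsum (fun i => densQ q (B i) n)]
    exact m4
  have hcard : ((rowset X (fun n => δ0 / 4 ≤ ∑ i ∈ J, c i * densQ q (B i) n)).card : ℝ) ≤
      (((Icc 1 ⌊3 * X⌋₊).filter (fun n : ℕ => δ0 / 4 ≤ ∑ i ∈ I, c i * densQ q (B i) n)).card : ℝ) := by
    exact_mod_cast Finset.card_le_card hsub
  refine le_trans ?_ (hT.trans hcard)
  have q2 : Real.exp (-L ^ ε) ≥ Real.exp (-(Real.log (3 * X)) ^ ε) := by
    apply Real.exp_le_exp.2
    have h1 : L ≤ Real.log (3 * X) := Real.log_le_log hX0 (by linarith)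
    have h2 := Real.rpow_le_rpow hL0.le h1 hε.le
    linarith
  have hWle : ((∏ p ∈ P, p : ℕ) : ℝ) ≤ Real.exp (3 * L ^ b) := by
    refine (size_W P hPp b' hPb).trans (Real.exp_le_exp.2 ?_)
    have h1 : (b' : ℝ) ≤ L ^ b := Nat.floor_le (Real.rpow_nonneg hL0.le _)
    have h2 : 0 ≤ L ^ b := Real.rpow_nonneg hL0.le _
    linarith
  have hW0 : (0 : ℝ) < ((∏ p ∈ P, p : ℕ) : ℝ) := by
    exact_mod_cast Finset.prod_pos fun p hp => (hPp p hp).pos
  calc 3 * X * Real.exp (-(Real.log (3 * X)) ^ ε) ≤ 3 * X * Real.exp (-L ^ ε) := by gcongr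
    _ = X * (3 * Real.exp (-L ^ ε)) := by ring
    _ ≤ X * (κ / 1 * (Real.exp (-(3 * L ^ b)) / L ^ 1)) := by gcongr
    _ = κ * (X / (Real.exp (3 * L ^ b) * L)) := by
        rw [Real.exp_neg, pow_one, div_one]
        field_simp
    _ ≤ κ * (X / ((∏ p ∈ P, p : ℕ) * L)) := by gcongr

theorem mainQ (q : ℕ → ℕ) (D μ β : ℕ) (hq1 : ∀ t, 1 ≤ t → 1 ≤ q t) (hqD : ∀ t, 1 ≤ t → q t ≤ D * t ^ D) (hμ : 1 ≤ μ)
    (hclass : ∀ P : Finset ℕ, (∀ p ∈ P, p.Prime) → (∀ p ∈ P, ¬ p ∣ μ) →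
      ∃ r : ℕ, ∀ t : ℕ, 1 ≤ t → ((r + q t).Coprime (∏ p ∈ P, p) ↔ ∀ p ∈ P, ¬ p ∣ μ * t + β))
    {ι : Type*} (I : Finset ι) (B c : ι → ℝ) (hB : ∀ i ∈ I, 0 < B i)
    (hinj : ∀ i ∈ I, ∀ j ∈ I, i ≠ j → B i ≠ B j) (hc : ∃ i ∈ I, c i ≠ 0) (hsum : ∑ i ∈ I, c i = 0)
    (ε : ℝ) (hε : 0 < ε) : ∃ δ : ℝ, 0 < δ ∧ ∃ X₀ : ℝ, ∀ X : ℝ, X₀ ≤ X →
      X * Real.exp (-(Real.log X) ^ ε) ≤
        (((Icc 1 ⌊X⌋₊).filter (fun n : ℕ => δ ≤ ∑ i ∈ I, c i * densQ q (B i) n)).card : ℝ) := by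
  obtain ⟨δ, hδ, h1⟩ := main3Q q D μ β hq1 hqD hμ hclass I B c hB hinj hc hsum ε hε
  have htend : Tendsto (fun x : ℝ => x / 3) atTop atTop := tendsto_id.atTop_div_const (by norm_num)
  obtain ⟨X₀, hX₀⟩ := eventually_atTop.1 (htend.eventually h1)
  refine ⟨δ, hδ, X₀, fun X hX => ?_⟩
  have h3 := hX₀ X hX
  have h5 : 3 * (X / 3) = X := by ring
  rwa [h5] at h3

end Pool.Agent.X30.QW
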