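import Mathlib
import Pool.Agent.X30.Quad3

/-! # Quadratic polynomials with varying constant term, and powers plus a constant (helper30) -/

set_option autoImplicit false

open Finset Filter Topology

namespace Pool.Agent.X30.QW

open Pool.Agent.X30.QT

/-- quadratic polynomials `α t ^ 2 + β t + n` -/
theorem quadratics (α β : ℕ) (hα : 1 ≤ α) {ι : Type*} (I : Finset ι) (B c : ι → ℝ) (hB : ∀ i ∈ I, 0 < B i)
    (hinj : ∀ i ∈ I, ∀ j ∈ I, i ≠ j → B i ≠ B j) (hc : ∃ i ∈ I, c i ≠ 0) (hsum : ∑ i ∈ I, c i = 0)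
    (ε : ℝ) (hε : 0 < ε) : ∃ δ : ℝ, 0 < δ ∧ ∃ X₀ : ℝ, ∀ X : ℝ, X₀ ≤ X →
      X * Real.exp (-(Real.log X) ^ ε) ≤
        (((Icc 1 ⌊X⌋₊).filter (fun n : ℕ =>
          δ ≤ ∑ i ∈ I, c i * densQ (fun t => α * t ^ 2 + β * t) (B i) n)).card : ℝ) := by
  refine mainQ (fun t => α * t ^ 2 + β * t) (α + β + 2) (2 * α) β ?_ ?_ (by omega) ?_ I B c hB hinj hc hsum ε hε
  · intro t ht
    have : 1 ≤ α * t ^ 2 := Nat.one_le_iff_ne_zero.2 (by positivity)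
    omega
  · intro t ht
    have h1 : t ^ 2 ≤ t ^ (α + β + 2) := Nat.pow_le_pow_right ht (by omega)
    have h2 : t ≤ t ^ (α + β + 2) := by
      calc t = t ^ 1 := (pow_one t).symm
        _ ≤ t ^ (α + β + 2) := Nat.pow_le_pow_right ht (by omega)
    calc α * t ^ 2 + β * t ≤ α * t ^ (α + β + 2) + β * t ^ (α + β + 2) :=
          Nat.add_le_add (Nat.mul_le_mul_left _ h1) (Nat.mul_le_mul_left _ h2)
      _ = (α + β) * t ^ (α + β + 2) := by ring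
      _ ≤ (α + β + 2) * t ^ (α + β + 2) := Nat.mul_le_mul_right _ (by omega)
  · intro P hP hPμ
    obtain ⟨r, hr⟩ := Pool.Agent.X30.QD.quad_class α β P hP hPμ
    exact ⟨r, fun t _ => hr t⟩

/-- powers `t ^ d + n` -/
theorem powers (d : ℕ) (hd : 1 ≤ d) {ι : Type*} (I : Finset ι) (B c : ι → ℝ) (hB : ∀ i ∈ I, 0 < B i)
    (hinj : ∀ i ∈ I, ∀ j ∈ I, i ≠ j → B i ≠ B j) (hc : ∃ i ∈ I, c i ≠ 0) (hsum : ∑ i ∈ I, c i = 0)
    (ε : ℝ) (hε : 0 < ε) : ∃ δ : ℝ, 0 < δ ∧ ∃ X₀ : ℝ, ∀ X : ℝ, X₀ ≤ X →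
      X * Real.exp (-(Real.log X) ^ ε) ≤
        (((Icc 1 ⌊X⌋₊).filter (fun n : ℕ =>
          δ ≤ ∑ i ∈ I, c i * densQ (fun t => t ^ d) (B i) n)).card : ℝ) := by
  refine mainQ (fun t => t ^ d) d 1 0 ?_ ?_ le_rfl ?_ I B c hB hinj hc hsum ε hε
  · intro t ht
    exact Nat.one_le_pow _ _ ht
  · intro t ht
    exact Nat.le_mul_of_pos_left _ (by omega)
  · intro P hP _
    refine ⟨0, fun t _ => ?_⟩
    rw [zero_add, Nat.coprime_prod_right_iff]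
    apply forall₂_congr
    intro p hp
    rw [Nat.coprime_comm, Nat.Prime.coprime_iff_not_dvd (hP p hp), not_iff_not, one_mul, add_zero]
    exact ⟨fun h => (hP p hp).dvd_of_dvd_pow h, fun h => Dvd.dvd.pow h (by omega)⟩

end Pool.Agent.X30.QW
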