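import Mathlib
import Pool.Agent.X30.Quad5

/-! # Conjecture F at several scales for general families (helper30) -/

set_option autoImplicit false

open Finset Filter Topology MeasureTheory

namespace Pool.Agent.X30.QW

open Pool.Agent.X30.QT

/-- the number of `0 ≤ x ≤ n` for which `q x + A` is prime -/
def PG (q : ℕ → ℕ) (A n : ℕ) : ℕ := ((range (n + 1)).filter (fun x => (q x + A).Prime)).card

/-- the comparison integral -/
noncomputable def LG (F : ℝ → ℝ) (A : ℕ) (y : ℝ) : ℝ := ∫ x in (0 : ℝ)..y, 1 / Real.log (F x + A)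

lemma PG_eq (q : ℕ → ℕ) (hq : q 0 = 0) (A n : ℕ) : PG q A n = (if A.Prime then 1 else 0) + cntQ q A n := by
  unfold PG cntQ
  have h : range (n + 1) = insert 0 (Icc 1 n) := by
    ext x
    simp only [mem_range, mem_insert, mem_Icc]
    omega
  rw [h, filter_insert]
  have h2 : ((Icc 1 n).filter (fun x => (q x + A).Prime)) = ((Icc 1 n).filter (fun t => (A + q t).Prime)) := by
    apply filter_congr
    intro x _
    rw [add_comm A]
  rw [h2]
  have h0 : q 0 + A = A := by rw [hq, zero_add]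
  rw [h0]
  split_ifs with hp
  · rw [card_insert_of_notMem, add_comm]
    simp
  · rw [zero_add]

lemma LG_bounds (F : ℝ → ℝ) (hF0 : F 0 = 0) (hFm : MonotoneOn F (Set.Ici 0)) (hFc : Continuous F) (A : ℕ) (hA : 2 ≤ A)
    (y : ℝ) (hy : 0 ≤ y) : y / Real.log (A + F y) ≤ LG F A y ∧ LG F A y ≤ y / Real.log A := by
  have hA' : (2 : ℝ) ≤ A := by exact_mod_cast hA
  have hlA : 0 < Real.log A := Real.log_pos (by linarith)
  have hpos : ∀ x : ℝ, 0 ≤ x → 0 ≤ F x := fun x hx => by
    rw [← hF0]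
    exact hFm (Set.mem_Ici.2 le_rfl) (Set.mem_Ici.2 hx) hx
  have hcont : ContinuousOn (fun x : ℝ => 1 / Real.log (F x + A)) (Set.uIcc 0 y) := by
    intro x hx
    rw [Set.uIcc_of_le hy] at hx
    have hx0 := hpos x hx.1
    have h2 : Real.log (F x + A) ≠ 0 := by
      have := Real.log_le_log (by linarith) (show (A : ℝ) ≤ F x + A by linarith)
      linarith
    apply ContinuousAt.continuousWithinAt
    refine ContinuousAt.div (g := fun x : ℝ => Real.log (F x + A)) continuousAt_const ?_ h2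
    apply ContinuousAt.log
    · fun_prop
    · linarith
  have hint := hcont.intervalIntegrable (μ := volume)
  unfold LG
  constructor
  · have h := intervalIntegral.integral_mono_on (a := 0) (b := y) hy
      (intervalIntegrable_const (c := 1 / Real.log (A + F y))) hint ?_
    · rw [intervalIntegral.integral_const, smul_eq_mul, sub_zero] at h
      calc y / Real.log (A + F y) = y * (1 / Real.log (A + F y)) := by ring
        _ ≤ _ := h
    · intro x hx
      have hx0 := hpos x hx.1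
      have hxy := hFm (Set.mem_Ici.2 hx.1) (Set.mem_Ici.2 hy) hx.2
      have h2 : Real.log A ≤ Real.log (F x + A) := Real.log_le_log (by linarith) (by linarith)
      apply one_div_le_one_div_of_le (by linarith)
      apply Real.log_le_log (by linarith)
      linarith
  · have h := intervalIntegral.integral_mono_on (a := 0) (b := y) hy hint
      (intervalIntegrable_const (c := 1 / Real.log A)) ?_
    · rw [intervalIntegral.integral_const, smul_eq_mul, sub_zero] at h
      calc _ ≤ y * (1 / Real.log A) := h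
        _ = _ := by ring
    · intro x hx
      have hx0 := hpos x hx.1
      exact one_div_le_one_div_of_le hlA (Real.log_le_log (by linarith) (by linarith))

/-- the two normalisations are the same in the limit -/
lemma tendsto_diffG (q : ℕ → ℕ) (F : ℝ → ℝ) (hF0 : F 0 = 0) (hFm : MonotoneOn F (Set.Ici 0)) (hFc : Continuous F)
    (hq : q 0 = 0) (B : ℝ) (hB : 1 < B) (hFg : Tendsto (fun A : ℕ => F ((Real.log A) ^ B) / A) atTop (𝓝 0)) :
    Tendsto (fun A : ℕ => (PG q A ⌊(Real.log A) ^ B⌋₊ : ℝ) / LG F A ((Real.log A) ^ B) -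
      densQ q B A) atTop (𝓝 0) := by
  have hcast : Tendsto (fun A : ℕ => (A : ℝ)) atTop atTop := tendsto_natCast_atTop_atTop
  have hlog : Tendsto (fun A : ℕ => Real.log A) atTop atTop := Real.tendsto_log_atTop.comp hcast
  have hb1 : Tendsto (fun A : ℕ => 2 * (Real.log A) ^ (1 - B)) atTop (𝓝 0) := by
    have := ((tendsto_rpow_neg_atTop (show 0 < B - 1 by linarith)).comp hlog).const_mul 2
    rw [mul_zero] at this
    refine this.congr fun A => ?_
    simp only [Function.comp]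
    congr 2
    ring
  have hb3 := hb1.add hFg
  rw [add_zero] at hb3
  refine squeeze_zero_norm' ?_ hb3
  filter_upwards [hlog.eventually_ge_atTop 1, eventually_ge_atTop 2, hFg.eventually_lt_const (show (0 : ℝ) < 1 by norm_num)]
    with A hlA hA2 hM
  set y : ℝ := (Real.log A) ^ B with hy
  have hA2' : (2 : ℝ) ≤ A := by exact_mod_cast hA2
  have hA0 : (0 : ℝ) < A := by linarith
  have hy0 : 0 < y := Real.rpow_pos_of_pos (by linarith) _
  set M : ℝ := F y with hMd
  have hM0 : 0 ≤ M := by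
    rw [← hF0, hMd]
    exact hFm (Set.mem_Ici.2 le_rfl) (Set.mem_Ici.2 hy0.le) hy0.le
  rw [div_lt_one hA0] at hM
  obtain ⟨hL1, hL2⟩ := LG_bounds F hF0 hFm hFc A hA2 y hy0.le
  rw [← hMd] at hL1
  have hlA0 : 0 < Real.log A := by linarith
  have hlAM : Real.log A ≤ Real.log (A + M) := Real.log_le_log hA0 (by linarith)
  have hlAM0 : 0 < Real.log (A + M) := by linarith
  have hlog2 : Real.log (A + M) ≤ 2 * Real.log A := by
    have h1 : Real.log (A + M) ≤ Real.log (A * A) := by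
      apply Real.log_le_log (by linarith)
      nlinarith
    rw [Real.log_mul hA0.ne' hA0.ne'] at h1
    linarith
  have hlogd : Real.log (A + M) - Real.log A ≤ M / A := by
    rw [← Real.log_div (by linarith) hA0.ne']
    have h1 := Real.log_le_sub_one_of_pos (show 0 < (A + M) / A by positivity)
    have h2 : (A + M) / A - 1 = M / A := by
      field_simp
      ring
    linarith
  have hLpos : 0 < LG F A y := lt_of_lt_of_le (by positivity) hL1
  set n : ℕ := ⌊y⌋₊ with hn
  have hcle : (cntQ q A n : ℝ) ≤ y := by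
    have h1 : cntQ q A n ≤ n := by
      unfold cntQ
      exact (card_filter_le _ _).trans (by simp)
    calc (cntQ q A n : ℝ) ≤ n := by exact_mod_cast h1
      _ ≤ y := Nat.floor_le hy0.le
  have hPA := PG_eq q hq A n
  set c : ℝ := (cntQ q A n : ℝ) with hc
  have hc0 : 0 ≤ c := Nat.cast_nonneg _
  obtain ⟨e, he0, he1, heP⟩ : ∃ e : ℝ, 0 ≤ e ∧ e ≤ 1 ∧ (PG q A n : ℝ) = c + e := by
    rw [hPA]
    push_cast
    split_ifs
    · exact ⟨1, by norm_num, le_rfl, by ring⟩
    · exact ⟨0, le_rfl, by norm_num, by ring⟩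
  have hdens : densQ q B A = c * Real.log A / y := by
    unfold densQ winQ
    rw [← hy, ← hn, ← hc, Real.rpow_sub hlA0, Real.rpow_one, ← hy]
    field_simp
  rw [heP, hdens, Real.norm_eq_abs, abs_le]
  have hup : (c + e) / LG F A y ≤ (c + e) * Real.log (A + M) / y := by
    rw [div_le_div_iff₀ hLpos (by positivity)]
    rw [div_le_iff₀ hlAM0] at hL1
    have : 0 ≤ c + e := by linarith
    nlinarith
  have hlo : (c + e) * Real.log A / y ≤ (c + e) / LG F A y := by
    rw [div_le_div_iff₀ (by positivity) hLpos]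
    rw [le_div_iff₀ hlA0] at hL2
    have : 0 ≤ c + e := by linarith
    nlinarith
  have hy1 : (Real.log A) ^ (1 - B) = Real.log A / y := by
    rw [Real.rpow_sub hlA0, Real.rpow_one]
  rw [hy1]
  constructor
  · have h1 : c * Real.log A / y ≤ (c + e) * Real.log A / y := by
      gcongr
      linarith
    have h2 : 0 ≤ 2 * (Real.log A / y) + M / A := by positivity
    linarith
  · have h1 : (c + e) * Real.log (A + M) / y = c * Real.log A / y +
        (e * Real.log (A + M) / y + c / y * (Real.log (A + M) - Real.log A)) := by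
      field_simp
      ring
    have h2 : e * Real.log (A + M) / y ≤ 2 * (Real.log A / y) := by
      rw [← mul_div_assoc, div_le_div_iff_of_pos_right hy0]
      have : e * Real.log (A + M) ≤ 1 * (2 * Real.log A) := by gcongr
      linarith
    have h3 : c / y * (Real.log (A + M) - Real.log A) ≤ M / A := by
      have h4 : c / y ≤ 1 := by
        rw [div_le_one hy0]
        exact hcle
      calc c / y * (Real.log (A + M) - Real.log A) ≤ 1 * (M / A) := by
            apply mul_le_mul h4 hlogd (by linarith) (by norm_num)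
        _ = M / A := one_mul _
    linarith

/-- general form -/
theorem conjG (q : ℕ → ℕ) (F : ℝ → ℝ) (hF0 : F 0 = 0) (hFm : MonotoneOn F (Set.Ici 0)) (hFc : Continuous F)
    (hq : q 0 = 0) (hFg : ∀ B : ℝ, Tendsto (fun A : ℕ => F ((Real.log A) ^ B) / A) atTop (𝓝 0))
    {ι : Type*} (I : Finset ι) (B c : ι → ℝ) (hB : ∀ i ∈ I, 1 < B i)
    (hmain : ∀ ε : ℝ, 0 < ε → ∃ δ : ℝ, 0 < δ ∧ ∃ X₀ : ℝ, ∀ X : ℝ, X₀ ≤ X →
      X * Real.exp (-(Real.log X) ^ ε) ≤
        (((Icc 1 ⌊X⌋₊).filter (fun n : ℕ => δ ≤ ∑ i ∈ I, c i * densQ q (B i) n)).card : ℝ))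
    (ε : ℝ) (hε : 0 < ε) : ∃ δ : ℝ, 0 < δ ∧ ∃ X₀ : ℝ, ∀ X : ℝ, X₀ ≤ X →
      X * Real.exp (-(Real.log X) ^ ε) ≤
        (((Icc 1 ⌊X⌋₊).filter (fun A : ℕ => 3 ≤ A ∧
          δ ≤ ∑ i ∈ I, c i * ((PG q A ⌊(Real.log A) ^ (B i)⌋₊ : ℝ) / LG F A ((Real.log A) ^ (B i))))).card : ℝ) := by
  set ε₁ : ℝ := min ε (1 / 2) with hε₁
  have hε₁0 : 0 < ε₁ := by positivity
  obtain ⟨δ, hδ, X₁, h⟩ := hmain (ε₁ / 2) (by positivity)
  have hlim : Tendsto (fun A : ℕ => ∑ i ∈ I, c i * ((PG q A ⌊(Real.log A) ^ (B i)⌋₊ : ℝ) /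
      LG F A ((Real.log A) ^ (B i)) - densQ q (B i) A)) atTop (𝓝 0) := by
    have h1 : Tendsto (fun A : ℕ => ∑ i ∈ I, c i * ((PG q A ⌊(Real.log A) ^ (B i)⌋₊ : ℝ) /
      LG F A ((Real.log A) ^ (B i)) - densQ q (B i) A)) atTop
        (𝓝 (∑ i ∈ I, c i * 0)) :=
      tendsto_finsetSum _ fun i hi => (tendsto_diffG q F hF0 hFm hFc hq (B i) (hB i hi) (hFg (B i))).const_mul _
    simpa using h1
  obtain ⟨A₁, hA₁⟩ := (hlim.eventually_const_lt (show -(δ / 4) < 0 by linarith)).exists_forall_of_atTop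
  set A₀ : ℕ := max A₁ 3 with hA₀d
  have hA₀ : ∀ A : ℕ, A₀ ≤ A → _ := fun A hA => hA₁ A ((le_max_left _ _).trans hA)
  have hA₀3 : 3 ≤ A₀ := le_max_right _ _
  -- large `X`
  have ev1 : ∀ᶠ L : ℝ in atTop, L ^ (ε₁ / 2) + Real.log 2 ≤ L ^ ε := by
    have h1 := Pool.Agent.X30.QW.rpow_small' (ε₁ / 2) ε (1 / 2) (by
      have : ε₁ ≤ ε := min_le_left _ _
      linarith) (by norm_num)
    have h2 := (tendsto_rpow_atTop hε).eventually_ge_atTop (2 * Real.log 2)
    filter_upwards [h1, h2] with L h3 h4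
    linarith
  have ev2 : ∀ᶠ L : ℝ in atTop, L ^ (ε₁ / 2) + 2 * Real.log 2 ≤ L / 2 := by
    have h1 := Pool.Agent.X30.QW.rpow_small' (ε₁ / 2) 1 (1 / 4) (by
      have : ε₁ ≤ 1 / 2 := min_le_right _ _
      linarith) (by norm_num)
    filter_upwards [h1, eventually_ge_atTop (8 * Real.log 2)] with L h3 h4
    rw [Real.rpow_one] at h3
    linarith
  obtain ⟨X₂, hX₂⟩ := ((Real.tendsto_log_atTop.eventually (ev1.and ev2)).and
    ((eventually_ge_atTop (((A₀ : ℝ) + 1) ^ 2)).and (eventually_ge_atTop X₁))).exists_forall_of_atTop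
  refine ⟨δ / 4, by linarith, max X₂ 1, fun X hX => ?_⟩
  obtain ⟨⟨g1, g2⟩, g3, g4⟩ := hX₂ X ((le_max_left _ _).trans hX)
  have hX1 : 1 ≤ X := (le_max_right _ _).trans hX
  have hX0 : 0 < X := by linarith
  have hsq : (A₀ : ℝ) + 1 ≤ √X := by
    apply Real.le_sqrt_of_sq_le g3
  have h1 := h X g4
  set S := ((Icc 1 ⌊X⌋₊).filter (fun n : ℕ =>
          δ ≤ ∑ i ∈ I, c i * densQ q (B i) n)) with hS
  set T := ((Icc 1 ⌊X⌋₊).filter (fun A : ℕ => 3 ≤ A ∧
          δ / 4 ≤ ∑ i ∈ I, c i * ((PG q A ⌊(Real.log A) ^ (B i)⌋₊ : ℝ) / LG F A ((Real.log A) ^ (B i))))) with hT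
  have hsub : S ⊆ T ∪ range A₀ := by
    intro A hA
    rw [hS, mem_filter] at hA
    rw [mem_union, hT, mem_filter, mem_range]
    by_cases hAA : A < A₀
    · exact Or.inr hAA
    · left
      refine ⟨hA.1, by omega, ?_⟩
      have h2 := hA₀ A (by omega)
      have h3 : ∑ i ∈ I, c i * ((PG q A ⌊(Real.log A) ^ (B i)⌋₊ : ℝ) /
          LG F A ((Real.log A) ^ (B i)) - densQ q (B i) A) =
          ∑ i ∈ I, c i * ((PG q A ⌊(Real.log A) ^ (B i)⌋₊ : ℝ) / LG F A ((Real.log A) ^ (B i))) -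
          (∑ i ∈ I, c i * densQ q (B i) A) := by
        rw [← Finset.sum_sub_distrib]
        apply Finset.sum_congr rfl
        intro i _
        ring
      rw [h3] at h2
      linarith [hA.2]
  have hcard : (S.card : ℝ) ≤ T.card + A₀ := by
    have h2 := (card_le_card hsub).trans (card_union_le _ _)
    rw [card_range] at h2
    exact_mod_cast h2
  have hexp1 : 2 * Real.exp (-(Real.log X) ^ ε) ≤ Real.exp (-(Real.log X) ^ (ε₁ / 2)) := by
    rw [show (2 : ℝ) * Real.exp (-(Real.log X) ^ ε) = Real.exp (Real.log 2) * Real.exp (-(Real.log X) ^ ε) by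
      rw [Real.exp_log (by norm_num)], ← Real.exp_add]
    apply Real.exp_le_exp.2
    linarith
  have hexp2 : 2 * √X ≤ X * Real.exp (-(Real.log X) ^ (ε₁ / 2)) := by
    have e1 : X = Real.exp (Real.log X) := (Real.exp_log hX0).symm
    have e2 : √X = Real.exp (Real.log X / 2) := by
      rw [Real.sqrt_eq_rpow, Real.rpow_def_of_pos hX0]
      congr 1
      ring
    rw [e2, show (2 : ℝ) * Real.exp (Real.log X / 2) = Real.exp (Real.log 2 + Real.log X / 2) by
      rw [Real.exp_add, Real.exp_log (by norm_num)]]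
    nth_rw 2 [e1]
    rw [← Real.exp_add]
    apply Real.exp_le_exp.2
    have : 0 < Real.log 2 := Real.log_pos (by norm_num)
    linarith
  have h5 : X * (2 * Real.exp (-(Real.log X) ^ ε)) ≤ X * Real.exp (-(Real.log X) ^ (ε₁ / 2)) := by gcongr
  have hfin : (T.card : ℝ) ≥ X * Real.exp (-(Real.log X) ^ ε) := by
    linarith
  exact hfin

/-- powers -/
theorem conjPow (d : ℕ) (hd : 1 ≤ d) {ι : Type*} (I : Finset ι) (B c : ι → ℝ) (hB : ∀ i ∈ I, 1 < B i)
    (hinj : ∀ i ∈ I, ∀ j ∈ I, i ≠ j → B i ≠ B j) (hc : ∃ i ∈ I, c i ≠ 0) (hsum : ∑ i ∈ I, c i = 0)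
    (ε : ℝ) (hε : 0 < ε) : ∃ δ : ℝ, 0 < δ ∧ ∃ X₀ : ℝ, ∀ X : ℝ, X₀ ≤ X →
      X * Real.exp (-(Real.log X) ^ ε) ≤
        (((Icc 1 ⌊X⌋₊).filter (fun A : ℕ => 3 ≤ A ∧
          δ ≤ ∑ i ∈ I, c i * ((PG (fun t => t ^ d) A ⌊(Real.log A) ^ (B i)⌋₊ : ℝ) /
            LG (fun x => x ^ d) A ((Real.log A) ^ (B i))))).card : ℝ) := by
  refine conjG (fun t => t ^ d) (fun x => x ^ d) (by simp; omega) ?_ (by fun_prop) (by simp; omega) ?_ I B c hB ?_ ε hε
  · intro x hx y _ hxy
    exact pow_le_pow_left₀ hx hxy d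
  · intro b
    have h1 : Tendsto (fun x : ℝ => (Real.log x) ^ (b * d) / x) atTop (𝓝 0) := by
      have := (isLittleO_log_rpow_rpow_atTop (b * d) (show (0 : ℝ) < 1 by norm_num)).tendsto_div_nhds_zero
      refine this.congr fun x => ?_
      rw [Real.rpow_one]
    have h2 := h1.comp tendsto_natCast_atTop_atTop
    refine h2.congr' ?_
    have hlog : Tendsto (fun A : ℕ => Real.log A) atTop atTop :=
      Real.tendsto_log_atTop.comp tendsto_natCast_atTop_atTop
    filter_upwards [hlog.eventually_ge_atTop 0] with A hA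
    simp only [Function.comp]
    rw [Real.rpow_mul hA, Real.rpow_natCast]
  · intro ε' hε'
    exact powers d hd I B c (fun i hi => by linarith [hB i hi]) hinj hc hsum ε' hε'

end Pool.Agent.X30.QW
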