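import Mathlib

namespace Pool.Agent.X30.Warm

theorem foo : (1:ℕ) + 1 = 2 := rfl

end Pool.Agent.X30.Warm
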